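import Mathlib
import Pool.Agent.LGO.Q.CuspLog

/-!
# LGO/F (note 3060, cusps): `exp (2 π i (l τ' - k τ))` if `j(τ) ^ k / j(τ') ^ l` is near `β`

PROOF (as in `cusp_log`, `LGO/Q/CuspLog.lean`, but without the logarithm).  Let `q = Periodic.qParam 1 τ = exp (2 π i τ)`,
`q'` the same for `τ'`.  `exists_J` (`Hhelper14/ZP/JFun.lean`): `jInv τ * q = J q`, `J 0 = 1`, `Good OO J`; `CuspLog_J`:
`‖J z - 1‖ ≤ C₁ ‖z‖` for `‖z‖ ≤ 1/2`; `norm_j_le` (`H/JSize.lean`): `‖q‖ ≤ C₂ ‖jInv τ‖⁻¹` (see `hq'` in the proof of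
`cusp_log`), the same for `q'`.  Let `u = jInv τ ^ k / jInv τ' ^ l`, `w = J q' ^ l / J q ^ k`.  Then
`exp (2 π i (l τ' - k τ)) = q' ^ l / q ^ k = u * w` (see `hprod` and `hexp` in `cusp_log`), `‖u - β‖ ≤ ε`,
`‖u‖ ≤ |B| + 1`.  `w`: the function `(b, c) ↦ b ^ l / c ^ k` is differentiable at `(1, 1)` with value `1`, so
(`DifferentiableAt.isBigO_sub`, as in `CuspLog_log`) there are `K, ρ > 0` with `‖b ^ l / c ^ k - 1‖ ≤ K t` if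
`‖b - 1‖, ‖c - 1‖ ≤ t < ρ`; apply it with `t = C₁ C₂ (‖jInv τ‖⁻¹ + ‖jInv τ'‖⁻¹)`, which is `< ρ` if `C` is large.
`‖u w - β‖ ≤ ‖u‖ ‖w - 1‖ + ‖u - β‖ ≤ (|B| + 1) K t + ε`.
-/

namespace Pool.Agent.LGO.F

open UpperHalfPlane Pool.Agent.Hhelper14.ZP

/-- `b ^ l / c ^ k` for `b`, `c` near `1` -/
private theorem CuExp_pow (k l : ℕ) : ∃ (K ρ : ℝ), 0 < K ∧ 0 < ρ ∧ ∀ b c : ℂ, ∀ t : ℝ,
    ‖b - 1‖ ≤ t → ‖c - 1‖ ≤ t → t < ρ → ‖b ^ l / c ^ k - 1‖ ≤ K * t := by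
  have hd : DifferentiableAt ℂ (fun p : ℂ × ℂ => p.1 ^ l / p.2 ^ k) (1, 1) := by
    have h2 : DifferentiableAt ℂ (fun p : ℂ × ℂ => p.1 ^ l) (1, 1) := by
      fun_prop
    have h3 : DifferentiableAt ℂ (fun p : ℂ × ℂ => p.2 ^ k) (1, 1) := by
      fun_prop
    simp only [div_eq_mul_inv]
    exact h2.mul (h3.inv (by simp))
  obtain ⟨K, hK, hb⟩ := hd.isBigO_sub.exists_pos
  rw [Asymptotics.isBigOWith_iff, Metric.eventually_nhds_iff] at hb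
  obtain ⟨ρ, hρ, hb⟩ := hb
  refine ⟨K, ρ, hK, hρ, fun b c t hb' hc ht => ?_⟩
  have h1 : ‖((b, c) : ℂ × ℂ) - (1, 1)‖ ≤ t := by
    rw [Prod.mk_sub_mk, Prod.norm_mk]
    exact max_le hb' hc
  have h2 := hb (y := (b, c)) (by rw [dist_eq_norm]; exact h1.trans_lt ht)
  simp only [one_pow, div_one] at h2
  exact h2.trans (mul_le_mul_of_nonneg_left h1 hK.le)

theorem cu_exp (k l : ℕ) (B : ℝ) : ∃ C : ℝ, 1 ≤ C ∧
    ∀ (τ τ' : ℍ) (β : ℂ) (ε : ℝ), Red (τ : ℂ) → Red (τ' : ℂ) → ‖β‖ ≤ B → 0 ≤ ε → ε ≤ 1 →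
      C ≤ ‖jInv τ‖ → C ≤ ‖jInv τ'‖ → ‖jInv τ ^ k - β * jInv τ' ^ l‖ ≤ ε * ‖jInv τ' ^ l‖ →
      ‖Complex.exp (2 * Real.pi * Complex.I * ((l : ℂ) * (τ' : ℂ) - k * (τ : ℂ))) - β‖ ≤
        C * (ε + ‖jInv τ‖⁻¹ + ‖jInv τ'‖⁻¹) := by
  obtain ⟨J, hJ, hJ0, hj⟩ := exists_J
  obtain ⟨C₁, hC₁, hJ1⟩ := CuspLog_J hJ hJ0
  obtain ⟨C₂, hC₂, hq⟩ := norm_j_le
  obtain ⟨K, ρ, hK, hρ, hpw⟩ := CuExp_pow k l
  have hq' : ∀ τ : ℍ, Red (τ : ℂ) → 0 < ‖jInv τ‖ →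
      ‖Function.Periodic.qParam 1 (τ : ℂ)‖ ≤ C₂ * ‖jInv τ‖⁻¹ := by
    intro τ hτ hpos
    have h1 := hq τ hτ
    have h2 : Real.exp (-(2 * Real.pi * τ.im)) * Real.exp (2 * Real.pi * τ.im) = 1 := by
      rw [← Real.exp_add, neg_add_cancel, Real.exp_zero]
    rw [JSize_norm_q, ← div_eq_mul_inv, le_div_iff₀ hpos]
    calc Real.exp (-(2 * Real.pi * τ.im)) * ‖jInv τ‖
        ≤ Real.exp (-(2 * Real.pi * τ.im)) * (C₂ * Real.exp (2 * Real.pi * τ.im)) :=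
          mul_le_mul_of_nonneg_left h1 (Real.exp_pos _).le
      _ = C₂ * (Real.exp (-(2 * Real.pi * τ.im)) * Real.exp (2 * Real.pi * τ.im)) := by ring
      _ = C₂ := by rw [h2, mul_one]
  set A : ℝ := C₁ * C₂ with hA
  have hA0 : 0 < A := by positivity
  have hB0 : (0 : ℝ) ≤ |B| := abs_nonneg B
  set C : ℝ := 1 + 2 * C₂ + 4 * A / ρ + (|B| + 1) * (K * A) with hCd
  have hp1 : 0 < 4 * A / ρ := by positivity
  have hp2 : 0 < (|B| + 1) * (K * A) := by positivity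
  have hC1 : 1 ≤ C := by linarith
  have hC0 : 0 < C := by linarith
  refine ⟨C, hC1, ?_⟩
  intro τ τ' β ε hτ hτ' hβ hε0 hε1 hj1 hj2 hjj
  have hn1 : 0 < ‖jInv τ‖ := hC0.trans_le hj1
  have hn2 : 0 < ‖jInv τ'‖ := hC0.trans_le hj2
  have hi1' : 0 < ‖jInv τ‖⁻¹ := inv_pos.2 hn1
  have hi2' : 0 < ‖jInv τ'‖⁻¹ := inv_pos.2 hn2
  have hinv : ∀ x : ℝ, C ≤ x → C₂ * x⁻¹ ≤ 1 / 2 ∧ 4 * A * x⁻¹ ≤ ρ := by
    intro x hx
    have hx0 : 0 < x := hC0.trans_le hx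
    constructor
    · rw [← div_eq_mul_inv, div_le_iff₀ hx0]
      linarith
    · rw [← div_eq_mul_inv, div_le_iff₀ hx0]
      have h1 : 4 * A / ρ ≤ x := by linarith
      rw [div_le_iff₀ hρ] at h1
      linarith
  obtain ⟨hi1, hi1r⟩ := hinv _ hj1
  obtain ⟨hi2, hi2r⟩ := hinv _ hj2
  set s : ℝ := ‖jInv τ‖⁻¹ + ‖jInv τ'‖⁻¹ with hs
  have hs0 : 0 < s := by linarith
  have hsρ : A * s < ρ := by
    have h1 : 4 * (A * s) ≤ 2 * ρ := by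
      have h2 : 4 * (A * s) = 4 * A * ‖jInv τ‖⁻¹ + 4 * A * ‖jInv τ'‖⁻¹ := by rw [hs]; ring
      linarith
    linarith
  set q : ℂ := Function.Periodic.qParam 1 (τ : ℂ) with hqd
  set q' : ℂ := Function.Periodic.qParam 1 (τ' : ℂ) with hqd'
  have hqn : ‖q‖ ≤ C₂ * ‖jInv τ‖⁻¹ := hq' τ hτ hn1
  have hqn' : ‖q'‖ ≤ C₂ * ‖jInv τ'‖⁻¹ := hq' τ' hτ' hn2
  have hjq : jInv τ * q = J q := hj τ
  have hjq' : jInv τ' * q' = J q' := hj τ'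
  have hq0 : q ≠ 0 := Function.Periodic.qParam_ne_zero _
  have hq0' : q' ≠ 0 := Function.Periodic.qParam_ne_zero _
  have hc : ‖J q - 1‖ ≤ A * s := by
    refine (hJ1 q (hqn.trans hi1)).trans ?_
    calc C₁ * ‖q‖ ≤ C₁ * (C₂ * ‖jInv τ‖⁻¹) := mul_le_mul_of_nonneg_left hqn hC₁.le
      _ = A * ‖jInv τ‖⁻¹ := by rw [hA]; ring
      _ ≤ A * s := mul_le_mul_of_nonneg_left (by linarith) hA0.le
  have hb : ‖J q' - 1‖ ≤ A * s := by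
    refine (hJ1 q' (hqn'.trans hi2)).trans ?_
    calc C₁ * ‖q'‖ ≤ C₁ * (C₂ * ‖jInv τ'‖⁻¹) := mul_le_mul_of_nonneg_left hqn' hC₁.le
      _ = A * ‖jInv τ'‖⁻¹ := by rw [hA]; ring
      _ ≤ A * s := mul_le_mul_of_nonneg_left (by linarith) hA0.le
  have hjn : jInv τ ≠ 0 := norm_pos_iff.1 hn1
  have hjn' : jInv τ' ≠ 0 := norm_pos_iff.1 hn2
  have hw := hpw _ _ (A * s) hb hc hsρ
  set u : ℂ := jInv τ ^ k / jInv τ' ^ l with hu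
  set w : ℂ := J q' ^ l / J q ^ k with hwd
  have ha : ‖u - β‖ ≤ ε := by
    have h1 : jInv τ' ^ l ≠ 0 := pow_ne_zero _ hjn'
    have h2 : u - β = (jInv τ ^ k - β * jInv τ' ^ l) / jInv τ' ^ l := by
      rw [hu]
      field_simp
    rw [h2, norm_div]
    exact (div_le_iff₀ (norm_pos_iff.2 h1)).2 hjj
  have hun : ‖u‖ ≤ |B| + 1 := by
    have h1 : ‖u‖ ≤ ‖u - β‖ + ‖β‖ := by
      calc ‖u‖ = ‖(u - β) + β‖ := by rw [sub_add_cancel]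
        _ ≤ ‖u - β‖ + ‖β‖ := norm_add_le _ _
    have h2 : B ≤ |B| := le_abs_self B
    linarith
  have hprod : u * w = q' ^ l / q ^ k := by
    rw [hu, hwd, ← hjq, ← hjq']
    have h1 : jInv τ' ^ l ≠ 0 := pow_ne_zero _ hjn'
    have h2 : jInv τ ^ k ≠ 0 := pow_ne_zero _ hjn
    have h3 : q ^ k ≠ 0 := pow_ne_zero _ hq0
    rw [mul_pow, mul_pow]
    field_simp
  have hexp : Complex.exp (2 * Real.pi * Complex.I * ((l : ℂ) * (τ' : ℂ) - k * (τ : ℂ))) =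
      u * w := by
    rw [hprod, hqd, hqd', Function.Periodic.qParam, Function.Periodic.qParam,
      ← Complex.exp_nat_mul, ← Complex.exp_nat_mul, ← Complex.exp_sub]
    congr 1
    simp only [Complex.ofReal_one, div_one]
    ring
  rw [hexp]
  have h5 : u * w - β = u * (w - 1) + (u - β) := by ring
  rw [h5]
  refine (norm_add_le _ _).trans ?_
  rw [norm_mul]
  have h6 : ‖u‖ * ‖w - 1‖ ≤ (|B| + 1) * (K * (A * s)) :=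
    mul_le_mul hun hw (norm_nonneg _) (by positivity)
  have h7 : (|B| + 1) * (K * (A * s)) = ((|B| + 1) * (K * A)) * s := by ring
  have h8 : ((|B| + 1) * (K * A)) * s ≤ C * s :=
    mul_le_mul_of_nonneg_right (by linarith) hs0.le
  have h9 : ε ≤ C * ε := le_mul_of_one_le_left hε0 hC1
  have h10 : C * (ε + ‖jInv τ‖⁻¹ + ‖jInv τ'‖⁻¹) = C * ε + C * s := by rw [hs]; ring
  rw [h10]
  linarith

end Pool.Agent.LGO.F
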