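import Mathlib
import Pool.Agent.LGO.G.Defs

/-!
# LGO/F (note 3060, cusps): the unit ideal certificate for the covering

PROOF (as `cert_or_place` in `G/CertEx.lean`).  Let `R = Algebra.adjoin k (Set.range (Sum.elim ![f⁻¹, g⁻¹] F))`, which is the range
of `aeval (Sum.elim ![f⁻¹, g⁻¹] F)` (`Algebra.adjoin_range_eq_range_aeval`), and `I = Ideal.span {f⁻¹, g⁻¹}` in `R.toSubring`.
If `I = ⊤`: `1 = a f⁻¹ + b g⁻¹` with `a, b ∈ R` (`Ideal.mem_span_pair`), and `a = aeval .. A`, `b = aeval .. B`.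
If `I ≠ ⊤`: `Ideal.image_subset_nonunits_valuationSubring` gives a valuation subring `O ⊇ R` such that `f⁻¹, g⁻¹` are nonunits of `O`,
so `f ∉ O`, `g ∉ O` (`inv_mem_nonunits_iff`), and `Over k O`; by `h` some `F t ∉ O`, but `F t ∈ R ⊆ O`: contradiction.
-/

namespace Pool.Agent.LGO.F

open MvPolynomial

theorem cu_covA {k L : Type} [Field k] [Field L] [Algebra k L] {f g : L} (hf : f ≠ 0) (hg : g ≠ 0)
    {r : ℕ} (F : Fin r → L)
    (h : ∀ O : ValuationSubring L, Over k O → f ∉ O → g ∉ O → ∃ t, F t ∉ O) :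
    ∃ A B : MvPolynomial (Fin 2 ⊕ Fin r) k,
      aeval (Sum.elim ![f⁻¹, g⁻¹] F) A * f⁻¹ + aeval (Sum.elim ![f⁻¹, g⁻¹] F) B * g⁻¹ = 1 := by
  set v : Fin 2 ⊕ Fin r → L := Sum.elim ![f⁻¹, g⁻¹] F with hv
  set R : Subalgebra k L := Algebra.adjoin k (Set.range v) with hR
  have hRr : R = (aeval v : MvPolynomial (Fin 2 ⊕ Fin r) k →ₐ[k] L).range :=
    Algebra.adjoin_range_eq_range_aeval k v
  have hfR : f⁻¹ ∈ R.toSubring := Algebra.subset_adjoin ⟨Sum.inl 0, rfl⟩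
  have hgR : g⁻¹ ∈ R.toSubring := Algebra.subset_adjoin ⟨Sum.inl 1, rfl⟩
  set I : Ideal R.toSubring := Ideal.span {(⟨f⁻¹, hfR⟩ : R.toSubring), ⟨g⁻¹, hgR⟩} with hI
  by_cases htop : I = ⊤
  · have h1 : (1 : R.toSubring) ∈ I := by
      rw [htop]
      exact Submodule.mem_top
    rw [hI, Ideal.mem_span_pair] at h1
    obtain ⟨a, b, hab⟩ := h1
    have hab' : (a : L) * f⁻¹ + (b : L) * g⁻¹ = 1 := congrArg Subtype.val hab
    have ha : (a : L) ∈ (aeval v : MvPolynomial (Fin 2 ⊕ Fin r) k →ₐ[k] L).range := by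
      rw [← hRr]; exact a.2
    have hb : (b : L) ∈ (aeval v : MvPolynomial (Fin 2 ⊕ Fin r) k →ₐ[k] L).range := by
      rw [← hRr]; exact b.2
    obtain ⟨A, hA⟩ := ha
    obtain ⟨B, hB⟩ := hb
    refine ⟨A, B, ?_⟩
    rw [← hab', ← hA, ← hB]
    rfl
  · exfalso
    obtain ⟨O, hO, hIO⟩ := Ideal.image_subset_nonunits_valuationSubring I htop
    have h1 : f⁻¹ ∈ O.nonunits := hIO ⟨⟨f⁻¹, hfR⟩, Ideal.subset_span (by simp), rfl⟩
    have h2 : g⁻¹ ∈ O.nonunits := hIO ⟨⟨g⁻¹, hgR⟩, Ideal.subset_span (by simp), rfl⟩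
    obtain ⟨t, ht⟩ := h O (fun c => hO (R.algebraMap_mem c))
      ((O.inv_mem_nonunits_iff.mp h1).resolve_left hf)
      ((O.inv_mem_nonunits_iff.mp h2).resolve_left hg)
    apply ht
    apply hO
    exact Algebra.subset_adjoin ⟨Sum.inr t, rfl⟩

end Pool.Agent.LGO.F
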