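import Mathlib
import Pool.Agent.LGO.G.Ineq
import Pool.Agent.LGO.F.CuCovA

/-!
# LGO/F (note 3060, cusps): if `y_0` and `y_1` are large then one of the functions `Φ_t` is large

`ψ : Fin 3 → L` coordinates in a field `L` over `Qb`; a point `y` of the curve is a point at which all polynomials vanish which
vanish at `ψ`; `s` an automorphism of `ℂ`.

PROOF.  `cu_covA` for `f = ψ 0`, `g = ψ 1`, `F t = aeval ψ (Φ t)`: `A`, `B` in the variables `Fin 2 ⊕ Fin r`.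
(1) TRANSFER.  For every `P : MvPolynomial (Fin 2 ⊕ Fin r) Qb` there are `e : ℕ` and `P' : MvPolynomial (Fin 3) Qb` such that
`aeval z P' = (z 0 * z 1) ^ e * aeval (Sum.elim ![(z 0)⁻¹, (z 1)⁻¹] (fun t => aeval z (Φ t))) P` for every field `M : Type` which is
a `Qb`-algebra and every `z : Fin 3 → M` with `z 0 ≠ 0`, `z 1 ≠ 0`.  Induction on `P` (`MvPolynomial.induction_on`): constants `e = 0`;
sums: common exponent `e + e'`; product with a variable: `inl 0`: multiply `P'` by `X 1`, `e + 1`; `inl 1`: by `X 0`, `e + 1`;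
`inr t`: by `Φ t`, `e`.  Apply it to `P = A * X (inl 0) + B * X (inl 1) - 1` and `z = ψ`: `aeval ψ P' = 0`, so `aeval y P' = 0` for
the points `y` of the curve, and if `y 0 ≠ 0`, `y 1 ≠ 0` then
`1 = A(..) / y_0 + B(..) / y_1` at `y` (`M = ℂ`), and the same after applying `s`.
(2) BOUND.  For every `P : MvPolynomial ι Qb` there are `C ≥ 1`, `m` with `‖s (aeval z P)‖ ≤ C Y ^ m` for all `s`, all `z : ι → ℂ` and
`Y ≥ 1` with `‖s (z t)‖ ≤ Y` for all `t` (induction on `P`; constants: `conj_bdd` in `G/Ineq.lean`).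
(3) Let `1 ≤ C ≤ ‖s (y 0)‖, ‖s (y 1)‖` and `Y` the maximum of `1` and the `‖s (aeval y (Φ t))‖`.  The inverses of `s (y 0)`, `s (y 1)` have
norm at most `1`, so (2) for `A`, `B` gives `1 ≤ C₁ Y ^ m (1 / ‖s (y 0)‖ + 1 / ‖s (y 1)‖) ≤ 2 C₁ Y ^ m / min`, i.e.
`min ≤ 2 C₁ Y ^ m`.  If `Y = 1` this contradicts `C ≤ min` for `C > 2 C₁`; so `Y = ‖s (aeval y (Φ t))‖ ≥ 1` for some `t`, and
`m` may be replaced by `m + 1`.
-/

namespace Pool.Agent.LGO.F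

open MvPolynomial Pool.Agent.Hhelper14.ZPL

private theorem CuCov_tr {r : ℕ} (Φ : Fin r → MvPolynomial (Fin 3) Qb) (P : MvPolynomial (Fin 2 ⊕ Fin r) Qb) :
    ∃ (e : ℕ) (P' : MvPolynomial (Fin 3) Qb), ∀ (M : Type) [Field M] [Algebra Qb M] (z : Fin 3 → M), z 0 ≠ 0 → z 1 ≠ 0 →
      aeval z P' = (z 0 * z 1) ^ e * aeval (Sum.elim ![(z 0)⁻¹, (z 1)⁻¹] (fun t => aeval z (Φ t))) P := by
  induction P using MvPolynomial.induction_on with
  | C a =>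
    refine ⟨0, C a, fun M _ _ z _ _ => ?_⟩
    simp
  | add P Q hP hQ =>
    obtain ⟨e, P', hP⟩ := hP
    obtain ⟨f, Q', hQ⟩ := hQ
    refine ⟨e + f, P' * (X 0 * X 1) ^ f + Q' * (X 0 * X 1) ^ e, fun M _ _ z h0 h1 => ?_⟩
    rw [map_add, map_mul, map_mul, hP M z h0 h1, hQ M z h0 h1, map_pow, map_pow, map_mul, aeval_X, aeval_X, map_add]
    ring
  | mul_X P i hP =>
    obtain ⟨e, P', hP⟩ := hP
    rcases i with i | t
    · fin_cases i
      · refine ⟨e + 1, P' * X 1, fun M _ _ z h0 h1 => ?_⟩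
        rw [map_mul, hP M z h0 h1, aeval_X, map_mul, aeval_X]
        have h2 : (Sum.elim ![(z 0)⁻¹, (z 1)⁻¹] (fun t => aeval z (Φ t)) : Fin 2 ⊕ Fin r → M) (Sum.inl 0) = (z 0)⁻¹ := rfl
        simp only [Fin.zero_eta]
        rw [h2]
        generalize aeval (Sum.elim ![(z 0)⁻¹, (z 1)⁻¹] (fun t => aeval z (Φ t))) P = a
        rw [pow_succ]
        field_simp
      · refine ⟨e + 1, P' * X 0, fun M _ _ z h0 h1 => ?_⟩
        rw [map_mul, hP M z h0 h1, aeval_X, map_mul, aeval_X]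
        have h2 : (Sum.elim ![(z 0)⁻¹, (z 1)⁻¹] (fun t => aeval z (Φ t)) : Fin 2 ⊕ Fin r → M) (Sum.inl 1) = (z 1)⁻¹ := rfl
        simp only [Fin.mk_one]
        rw [h2]
        generalize aeval (Sum.elim ![(z 0)⁻¹, (z 1)⁻¹] (fun t => aeval z (Φ t))) P = a
        rw [pow_succ]
        field_simp
    · refine ⟨e, P' * Φ t, fun M _ _ z h0 h1 => ?_⟩
      rw [map_mul, hP M z h0 h1, map_mul, aeval_X]
      simp only [Sum.elim_inr]
      ring

private theorem CuCov_bd {ι : Type} (P : MvPolynomial ι Qb) : ∃ (C : ℝ) (m : ℕ), 1 ≤ C ∧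
    ∀ (s : ℂ ≃+* ℂ) (z : ι → ℂ) (Y : ℝ), 1 ≤ Y → (∀ t, ‖s (z t)‖ ≤ Y) → ‖s (aeval z P)‖ ≤ C * Y ^ m := by
  induction P using MvPolynomial.induction_on with
  | C a =>
    obtain ⟨B, hB⟩ := conj_bdd a
    refine ⟨max B 1, 0, le_max_right _ _, fun s z Y _ _ => ?_⟩
    rw [aeval_C, pow_zero, mul_one]
    exact (hB s).trans (le_max_left _ _)
  | add P Q hP hQ =>
    obtain ⟨C1, m1, h1, hP⟩ := hP
    obtain ⟨C2, m2, h2, hQ⟩ := hQ
    refine ⟨C1 + C2, m1 + m2, by linarith, fun s z Y hY hz => ?_⟩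
    rw [map_add, map_add]
    have a1 : Y ^ m1 ≤ Y ^ (m1 + m2) := pow_le_pow_right₀ hY (by omega)
    have a2 : Y ^ m2 ≤ Y ^ (m1 + m2) := pow_le_pow_right₀ hY (by omega)
    calc ‖s (aeval z P) + s (aeval z Q)‖ ≤ ‖s (aeval z P)‖ + ‖s (aeval z Q)‖ := norm_add_le _ _
      _ ≤ C1 * Y ^ m1 + C2 * Y ^ m2 := add_le_add (hP s z Y hY hz) (hQ s z Y hY hz)
      _ ≤ C1 * Y ^ (m1 + m2) + C2 * Y ^ (m1 + m2) :=
          add_le_add (mul_le_mul_of_nonneg_left a1 (by linarith)) (mul_le_mul_of_nonneg_left a2 (by linarith))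
      _ = _ := by ring
  | mul_X P i hP =>
    obtain ⟨C1, m1, h1, hP⟩ := hP
    refine ⟨C1, m1 + 1, h1, fun s z Y hY hz => ?_⟩
    rw [map_mul, map_mul, aeval_X, norm_mul, pow_succ, ← mul_assoc]
    have hY0 : 0 ≤ Y := by linarith
    exact mul_le_mul (hP s z Y hY hz) (hz i) (norm_nonneg _) (by positivity)

theorem cu_cov {L : Type} [Field L] [Algebra Qb L] (ψ : Fin 3 → L) (h0 : ψ 0 ≠ 0) (h1 : ψ 1 ≠ 0)
    {r : ℕ} (Φ : Fin r → MvPolynomial (Fin 3) Qb)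
    (h : ∀ O : ValuationSubring L, Over Qb O → ψ 0 ∉ O → ψ 1 ∉ O → ∃ t, aeval ψ (Φ t) ∉ O) :
    ∃ (C : ℝ) (m : ℕ), 1 ≤ C ∧ 0 < m ∧ ∀ (s : ℂ ≃+* ℂ) (y : Fin 3 → ℂ),
      (∀ G : MvPolynomial (Fin 3) Qb, aeval ψ G = 0 → (aeval y G : ℂ) = 0) →
      C ≤ ‖s (y 0)‖ → C ≤ ‖s (y 1)‖ →
      ∃ t, 1 ≤ ‖s (aeval y (Φ t) : ℂ)‖ ∧
        min ‖s (y 0)‖ ‖s (y 1)‖ ≤ C * ‖s (aeval y (Φ t) : ℂ)‖ ^ m := by
  obtain ⟨A, B, hAB⟩ := cu_covA h0 h1 (fun t => aeval ψ (Φ t)) h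
  obtain ⟨e, P', hP'⟩ := CuCov_tr Φ (A * X (Sum.inl 0) + B * X (Sum.inl 1) - 1)
  obtain ⟨C1, m1, hC1, hA⟩ := CuCov_bd A
  obtain ⟨C2, m2, hC2, hB⟩ := CuCov_bd B
  refine ⟨2 * (C1 + C2) + 1, m1 + m2 + 1, by linarith, by omega, fun s y hy g0 g1 => ?_⟩
  set a0 := ‖s (y 0)‖ with ha0
  set a1 := ‖s (y 1)‖ with ha1
  have a0p : 0 < a0 := by linarith
  have a1p : 0 < a1 := by linarith
  have y0 : y 0 ≠ 0 := by
    intro hh
    rw [ha0, hh, map_zero, norm_zero] at a0p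
    exact lt_irrefl _ a0p
  have y1 : y 1 ≠ 0 := by
    intro hh
    rw [ha1, hh, map_zero, norm_zero] at a1p
    exact lt_irrefl _ a1p
  -- transfer
  have t1 : aeval ψ P' = 0 := by
    rw [hP' L ψ h0 h1]
    have : aeval (Sum.elim ![(ψ 0)⁻¹, (ψ 1)⁻¹] (fun t => aeval ψ (Φ t))) (A * X (Sum.inl 0) + B * X (Sum.inl 1) - 1 :
        MvPolynomial (Fin 2 ⊕ Fin r) Qb) = 0 := by
      rw [map_sub, map_add, map_mul, map_mul, aeval_X, aeval_X, map_one]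
      simp only [Sum.elim_inl, Matrix.cons_val_zero, Matrix.cons_val_one]
      rw [hAB, sub_self]
    rw [this, mul_zero]
  have t2 := hy P' t1
  rw [hP' ℂ y y0 y1] at t2
  have t3 := (mul_eq_zero.1 t2).resolve_left (pow_ne_zero _ (mul_ne_zero y0 y1))
  set v : Fin 2 ⊕ Fin r → ℂ := Sum.elim ![(y 0)⁻¹, (y 1)⁻¹] (fun t => aeval y (Φ t)) with hv
  have t4 : aeval v A * (y 0)⁻¹ + aeval v B * (y 1)⁻¹ = 1 := by
    rw [map_sub, map_add, map_mul, map_mul, aeval_X, aeval_X, map_one, sub_eq_zero] at t3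
    simpa [hv] using t3
  -- the bound for every upper bound `Y`
  have key : ∀ Y : ℝ, 1 ≤ Y → (∀ t, ‖s (aeval y (Φ t) : ℂ)‖ ≤ Y) → min a0 a1 ≤ 2 * (C1 + C2) * Y ^ (m1 + m2) := by
    intro Y hY hYt
    have hz : ∀ t, ‖s (v t)‖ ≤ Y := by
      have i0 : ‖s ((y 0)⁻¹)‖ ≤ Y := by
        rw [map_inv₀, norm_inv]
        exact (inv_le_one_of_one_le₀ (by linarith)).trans hY
      have i1 : ‖s ((y 1)⁻¹)‖ ≤ Y := by
        rw [map_inv₀, norm_inv]
        exact (inv_le_one_of_one_le₀ (by linarith)).trans hY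
      rintro (i | t)
      · fin_cases i
        · exact i0
        · exact i1
      · exact hYt t
    have b1 := hA s v Y hY hz
    have b2 := hB s v Y hY hz
    have hY0 : 0 ≤ Y := by linarith
    have c1 : Y ^ m1 ≤ Y ^ (m1 + m2) := pow_le_pow_right₀ hY (by omega)
    have c2 : Y ^ m2 ≤ Y ^ (m1 + m2) := pow_le_pow_right₀ hY (by omega)
    set Z := Y ^ (m1 + m2) with hZ
    have hZ0 : 0 ≤ Z := by positivity
    have mp : 0 < min a0 a1 := lt_min a0p a1p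
    have d0 : a0⁻¹ ≤ (min a0 a1)⁻¹ := inv_anti₀ mp (min_le_left _ _)
    have d1 : a1⁻¹ ≤ (min a0 a1)⁻¹ := inv_anti₀ mp (min_le_right _ _)
    have f1 : (1 : ℝ) ≤ (C1 * Z) * (min a0 a1)⁻¹ + (C2 * Z) * (min a0 a1)⁻¹ := by
      have f2 := congrArg (fun w : ℂ => ‖s w‖) t4
      simp only [map_add, map_mul, map_one, norm_one, map_inv₀] at f2
      calc (1 : ℝ) = ‖s (aeval v A) * (s (y 0))⁻¹ + s (aeval v B) * (s (y 1))⁻¹‖ := f2.symm
        _ ≤ ‖s (aeval v A)‖ * a0⁻¹ + ‖s (aeval v B)‖ * a1⁻¹ := by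
            refine (norm_add_le _ _).trans (le_of_eq ?_)
            rw [norm_mul, norm_mul, norm_inv, norm_inv]
        _ ≤ (C1 * Z) * (min a0 a1)⁻¹ + (C2 * Z) * (min a0 a1)⁻¹ := by
            refine add_le_add (mul_le_mul (b1.trans (mul_le_mul_of_nonneg_left c1 (by linarith))) d0 (by positivity)
              (mul_nonneg (by linarith) hZ0)) (mul_le_mul (b2.trans (mul_le_mul_of_nonneg_left c2 (by linarith))) d1 (by positivity)
              (mul_nonneg (by linarith) hZ0))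
    have f3 : min a0 a1 ≤ C1 * Z + C2 * Z := by
      rw [← add_mul, ← div_eq_mul_inv, le_div_iff₀ mp, one_mul] at f1
      exact f1
    have f4 : 0 ≤ (C1 + C2) * Z := mul_nonneg (by linarith) hZ0
    linarith
  have hmin : 2 * (C1 + C2) + 1 ≤ min a0 a1 := le_min g0 g1
  by_cases hall : ∀ t, ‖s (aeval y (Φ t) : ℂ)‖ ≤ 1
  · exfalso
    have := key 1 le_rfl hall
    rw [one_pow, mul_one] at this
    linarith
  · push Not at hall
    obtain ⟨t0, ht0⟩ := hall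
    have : Nonempty (Fin r) := ⟨t0⟩
    obtain ⟨t, ht⟩ := Finite.exists_max (fun t : Fin r => ‖s (aeval y (Φ t) : ℂ)‖)
    have ht1 : 1 ≤ ‖s (aeval y (Φ t) : ℂ)‖ := ht0.le.trans (ht t0)
    refine ⟨t, ht1, ?_⟩
    have k1 := key _ ht1 ht
    set Y := ‖s (aeval y (Φ t) : ℂ)‖ with hY
    have k2 : Y ^ (m1 + m2) ≤ Y ^ (m1 + m2 + 1) := pow_le_pow_right₀ ht1 (by omega)
    have k3 : 0 ≤ Y ^ (m1 + m2 + 1) := by positivity
    calc min a0 a1 ≤ 2 * (C1 + C2) * Y ^ (m1 + m2) := k1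
      _ ≤ 2 * (C1 + C2) * Y ^ (m1 + m2 + 1) := mul_le_mul_of_nonneg_left k2 (by linarith)
      _ ≤ _ := by nlinarith

end Pool.Agent.LGO.F
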