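import Mathlib
import Pool.Agent.LGO.G.Pole
import Pool.Agent.LGO.G.Res
import Pool.Agent.LGO.G.Ineq

/-!
# LGO/F (note 3060, cusps): the coordinates near one common pole

`O` is a place of `L` at which `ψ 0` and `ψ 1` have poles, `Φ` a function whose only pole is `O`.

PROOF.  `rank_one` (`G/Rank.lean`) with `t = ψ 0`, `x = ψ 1` (`≠ 0`): `v(ψ 1) ^ l = v(ψ 0) ^ b`, `l > 0`, and `v(ψ 0), v(ψ 1) > 1`
(`one_lt_of_notMem`) give `b > 0`; let `k = b.toNat`.  So `u = ψ 0 ^ k / ψ 1 ^ l` has `v(u) = 1`; `exists_res` (`G/Res.lean`) for `u`: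
`α : Qb` with `v(u - α) < 1`; `α ≠ 0` (otherwise `v(u) < 1`).
Three certificates from `exists_cert` (`G/Pole.lean`) and `ineq_of_cert` (`G/Ineq.lean`), for `G = N / D` with
`(N, D) = (1, X 0)`, `(1, X 1)`, `(X 0 ^ k - C α * X 1 ^ l, X 1 ^ l)`; in all three cases `v(G) < 1` and `aeval ψ D ≠ 0`; if
`aeval ψ N = 0` (possible in the third case) then `aeval y N = 0` for the points `y` and the inequality is clear.  We get
constants `C_a, m_a > 0` (`a = 0, 1, 2`) with: if `C_a ≤ ‖s Φ‖` then `‖s N‖ ^ m_a ‖s Φ‖ ≤ C_a ‖s D‖ ^ m_a`.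
Equal exponents `m = m_0 + m_1 + m_2`, `C = 1 + C_0 + C_1 + C_2`: for `a = 0, 1`: `C_a ≤ ‖s Φ‖ ≤ C_a ‖s y_a‖ ^ m_a` gives
`‖s y_a‖ ≥ 1`, so `m_a` may be increased.  For `a = 2` write `n = ‖s N‖`, `d = ‖s D‖`: `n ^ m_2 ‖s Φ‖ ≤ C_2 d ^ m_2` and
`C_2 ≤ ‖s Φ‖`, `C_2 > 0`, give `n ≤ d` (if `n > d ≥ 0` then `n ^ m_2 ‖s Φ‖ > C_2 d ^ m_2`), so
`n ^ m ‖s Φ‖ = n ^ (m - m_2) n ^ m_2 ‖s Φ‖ ≤ d ^ (m - m_2) C_2 d ^ m_2`.
-/

namespace Pool.Agent.LGO.F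

open MvPolynomial Pool.Agent.Hhelper14.ZPL

private theorem CuLoc_cert {L : Type} [Field L] [Algebra Qb L] (hdep : Dep Qb L) (ψ : Fin 3 → L)
    {O : ValuationSubring L} (hO : Over Qb O)
    {Φ : MvPolynomial (Fin 3) Qb} (hF : aeval ψ Φ ∉ O)
    (huniq : ∀ O' : ValuationSubring L, Over Qb O' → aeval ψ Φ ∉ O' → O' = O)
    (N D : MvPolynomial (Fin 3) Qb) (hD : aeval ψ D ≠ 0)
    (hv : O.valuation (aeval ψ N / aeval ψ D) < 1) :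
    ∃ (C : ℝ) (m : ℕ), 0 < C ∧ 0 < m ∧ ∀ (s : ℂ ≃+* ℂ) (y : Fin 3 → ℂ),
      (∀ G : MvPolynomial (Fin 3) Qb, aeval ψ G = 0 → (aeval y G : ℂ) = 0) →
      C ≤ ‖s (aeval y Φ : ℂ)‖ →
      ‖s (aeval y N : ℂ)‖ ^ m * ‖s (aeval y Φ : ℂ)‖ ≤ C * ‖s (aeval y D : ℂ)‖ ^ m := by
  obtain ⟨m, hm, hc⟩ := exists_cert hdep hO hF huniq hv
  by_cases hN : aeval ψ N = 0
  · refine ⟨1, m, one_pos, hm, fun s y hy _ => ?_⟩
    rw [hy N hN, map_zero, norm_zero, zero_pow hm.ne', zero_mul]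
    positivity
  · obtain ⟨C, hC, h⟩ := ineq_of_cert ψ Φ N D m hD (hc (div_ne_zero hN hD))
    exact ⟨C, m, hC, hm, h⟩

private theorem CuLoc_up {P n C0 C : ℝ} {m0 m : ℕ} (hC0 : 0 < C0) (hn : 0 ≤ n) (hm0 : 0 < m0)
    (hm : m0 ≤ m) (hC : C0 ≤ C) (h1 : C0 ≤ P) (h2 : P ≤ C0 * n ^ m0) : P ≤ C * n ^ m := by
  have h3 : 1 ≤ n ^ m0 := by
    by_contra hcon
    push Not at hcon
    nlinarith
  have h4 : 1 ≤ n := by
    by_contra hcon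
    push Not at hcon
    exact absurd h3 (not_le.2 (pow_lt_one₀ hn hcon hm0.ne'))
  have h5 : n ^ m0 ≤ n ^ m := pow_le_pow_right₀ h4 hm
  calc P ≤ C0 * n ^ m0 := h2
    _ ≤ C * n ^ m := mul_le_mul hC h5 (by positivity) (by linarith)

private theorem CuLoc_up2 {P n d C2 C : ℝ} {m2 m' : ℕ} (hC2 : 0 < C2) (hn : 0 ≤ n) (hd : 0 ≤ d)
    (hm2 : 0 < m2) (hC : C2 ≤ C) (h1 : C2 ≤ P) (h2 : n ^ m2 * P ≤ C2 * d ^ m2) :
    n ^ (m' + m2) * P ≤ C * d ^ (m' + m2) := by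
  have h3 : n ^ m2 ≤ d ^ m2 := by
    have h4 : C2 * n ^ m2 ≤ C2 * d ^ m2 := by
      refine le_trans ?_ h2
      rw [mul_comm]
      exact mul_le_mul_of_nonneg_left h1 (by positivity)
    exact le_of_mul_le_mul_left h4 hC2
  have h4 : n ≤ d := (pow_le_pow_iff_left₀ hn hd hm2.ne').1 h3
  calc n ^ (m' + m2) * P = n ^ m' * (n ^ m2 * P) := by rw [pow_add]; ring
    _ ≤ d ^ m' * (C2 * d ^ m2) :=
        mul_le_mul (pow_le_pow_left₀ hn h4 _) h2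
          (mul_nonneg (by positivity) (hC2.le.trans h1)) (by positivity)
    _ = C2 * d ^ (m' + m2) := by rw [pow_add]; ring
    _ ≤ C * d ^ (m' + m2) := mul_le_mul_of_nonneg_right hC (by positivity)

theorem cu_loc {L : Type} [Field L] [Algebra Qb L] (hdep : Dep Qb L) (ψ : Fin 3 → L)
    {O : ValuationSubring L} (hO : Over Qb O) (h0 : ψ 0 ∉ O) (h1 : ψ 1 ∉ O)
    {Φ : MvPolynomial (Fin 3) Qb} (hF : aeval ψ Φ ∉ O)
    (huniq : ∀ O' : ValuationSubring L, Over Qb O' → aeval ψ Φ ∉ O' → O' = O) :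
    ∃ (k l : ℕ) (α : Qb) (C : ℝ) (m : ℕ), 0 < k ∧ 0 < l ∧ α ≠ 0 ∧ 1 ≤ C ∧ 0 < m ∧
      ∀ (s : ℂ ≃+* ℂ) (y : Fin 3 → ℂ),
        (∀ G : MvPolynomial (Fin 3) Qb, aeval ψ G = 0 → (aeval y G : ℂ) = 0) →
        C ≤ ‖s (aeval y Φ : ℂ)‖ →
        ‖s (aeval y Φ : ℂ)‖ ≤ C * ‖s (y 0)‖ ^ m ∧ ‖s (aeval y Φ : ℂ)‖ ≤ C * ‖s (y 1)‖ ^ m ∧
        ‖s (y 0) ^ k - s (α : ℂ) * s (y 1) ^ l‖ ^ m * ‖s (aeval y Φ : ℂ)‖ ≤
          C * ‖s (y 1) ^ l‖ ^ m := by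
  have hψ0 : ψ 0 ≠ 0 := by
    intro h
    rw [h] at h0
    exact h0 O.zero_mem
  have hψ1 : ψ 1 ≠ 0 := by
    intro h
    rw [h] at h1
    exact h1 O.zero_mem
  have hv0 := one_lt_of_notMem h0
  have hv1 := one_lt_of_notMem h1
  obtain ⟨l, b, hl, hlb⟩ := rank_one hdep hO h0 hψ1
  have hb : 0 < b := by
    have h2 : 1 < O.valuation (ψ 0) ^ b := by
      rw [← hlb]
      exact one_lt_pow₀ hv1 hl.ne'
    exact (one_lt_zpow_iff_right₀ hv0).1 h2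
  obtain ⟨k, rfl⟩ : ∃ k : ℕ, b = k := ⟨b.toNat, (Int.toNat_of_nonneg hb.le).symm⟩
  have hk : 0 < k := by exact_mod_cast hb
  rw [zpow_natCast] at hlb
  have hu : O.valuation (ψ 0 ^ k / ψ 1 ^ l) = 1 := by
    rw [map_div₀, map_pow, map_pow, hlb, div_self]
    exact pow_ne_zero _ ((Valuation.ne_zero_iff _).2 hψ0)
  obtain ⟨α, hα⟩ := exists_res hdep hO h0 ((O.valuation_le_one_iff _).1 hu.le)
  have hα0 : α ≠ 0 := by
    rintro rfl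
    rw [map_zero, sub_zero, hu] at hα
    exact lt_irrefl _ hα
  obtain ⟨C0, m0, hC0, hm0, hc0⟩ := CuLoc_cert hdep ψ hO hF huniq 1 (X 0)
    (by rw [aeval_X]; exact hψ0) (by
      rw [map_one, aeval_X, one_div, map_inv₀]
      exact inv_lt_one_of_one_lt₀ hv0)
  obtain ⟨C1, m1, hC1, hm1, hc1⟩ := CuLoc_cert hdep ψ hO hF huniq 1 (X 1)
    (by rw [aeval_X]; exact hψ1) (by
      rw [map_one, aeval_X, one_div, map_inv₀]
      exact inv_lt_one_of_one_lt₀ hv1)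
  obtain ⟨C2, m2, hC2, hm2, hc2⟩ := CuLoc_cert hdep ψ hO hF huniq
    (X 0 ^ k - MvPolynomial.C α * X 1 ^ l) (X 1 ^ l)
    (by rw [map_pow, aeval_X]; exact pow_ne_zero _ hψ1) (by
      rw [map_sub, map_mul, map_pow, map_pow, aeval_X, aeval_X, aeval_C]
      have h2 : (ψ 0 ^ k - algebraMap Qb L α * ψ 1 ^ l) / ψ 1 ^ l =
          ψ 0 ^ k / ψ 1 ^ l - algebraMap Qb L α := by
        rw [sub_div, mul_div_assoc, div_self (pow_ne_zero _ hψ1), mul_one]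
      rw [h2]
      exact hα)
  refine ⟨k, l, α, 1 + C0 + C1 + C2, m0 + m1 + m2, hk, hl, hα0, by linarith, by omega,
    fun s y hy hP => ⟨?_, ?_, ?_⟩⟩
  · have h2 := hc0 s y hy (by linarith)
    rw [map_one, map_one, norm_one, one_pow, one_mul, aeval_X] at h2
    exact CuLoc_up hC0 (norm_nonneg _) hm0 (by omega) (by linarith) (by linarith) h2
  · have h2 := hc1 s y hy (by linarith)
    rw [map_one, map_one, norm_one, one_pow, one_mul, aeval_X] at h2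
    exact CuLoc_up hC1 (norm_nonneg _) hm1 (by omega) (by linarith) (by linarith) h2
  · have h2 := hc2 s y hy (by linarith)
    rw [map_sub, map_mul, map_pow, map_pow, aeval_X, aeval_X, aeval_C, map_sub, map_mul, map_pow,
      map_pow] at h2
    exact CuLoc_up2 hC2 (norm_nonneg _) (norm_nonneg _) hm2 (by linarith) (by linarith) h2

end Pool.Agent.LGO.F
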