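import Mathlib
import Pool.Agent.LGO.G.Pole
import Pool.Agent.LGO.G.SetupEx
import Pool.Agent.Hhelper14.ZPL.KClosed

/-!
# LGO/F (note 3060, cusps): the common poles of two coordinates

PROOF.  `exists_setup` (`G/SetupEx.lean`) for `ψ`, `a = 0`: `t, δ, b` with `Setup Qb (Algebra.adjoin Qb (Set.range ψ)) t δ b`, and `Inf Qb t` is
finite (`finite_inf`, `G/DimB.lean`).  If `Over Qb O'` and `ψ 0 ∉ O'` then `t ∉ O'` (otherwise `Setup.int` gives `ψ 0 ∈ O'`), so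
`S = {O' | Over Qb O' ∧ ψ 0 ∉ O' ∧ ψ 1 ∉ O'} ⊆ Inf Qb t` is finite; enumerate it by `Fin r` (`Set.Finite.toFinset`, `Finset.equivFin`).
For `O ∈ S`: `exists_pole` (`G/Pole.lean`) gives `F ∈ Algebra.adjoin Qb (Set.range ψ)`, `F = aeval ψ Φ`
(`Algebra.adjoin_range_eq_range_aeval`), see `G/Geo.lean`.
-/

namespace Pool.Agent.LGO.F

open MvPolynomial Pool.Agent.Hhelper14.ZPL

theorem cu_places {L : Type} [Field L] [Algebra Qb L] (hdep : Dep Qb L) (ψ : Fin 3 → L)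
    (hgen : IntermediateField.adjoin Qb (Set.range ψ) = ⊤) (ht : Transcendental Qb (ψ 0)) :
    ∃ (r : ℕ) (O : Fin r → ValuationSubring L) (Φ : Fin r → MvPolynomial (Fin 3) Qb),
      (∀ t, Over Qb (O t) ∧ ψ 0 ∉ O t ∧ ψ 1 ∉ O t ∧ aeval ψ (Φ t) ∉ O t ∧
        Transcendental Qb (aeval ψ (Φ t)) ∧
        ∀ O' : ValuationSubring L, Over Qb O' → aeval ψ (Φ t) ∉ O' → O' = O t) ∧
      ∀ O' : ValuationSubring L, Over Qb O' → ψ 0 ∉ O' → ψ 1 ∉ O' → ∃ t, O' = O t := by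
  classical
  obtain ⟨t, δ, b, hS⟩ := exists_setup hdep ψ hgen ht
  have hfin := finite_inf hdep hS
  have hsub : {O' : ValuationSubring L | Over Qb O' ∧ ψ 0 ∉ O' ∧ ψ 1 ∉ O'} ⊆ Inf Qb t := by
    rintro O' ⟨hOver, h0, -⟩
    refine ⟨hOver, ?_⟩
    intro h1
    exact h0 (hS.int (ψ 0) (Algebra.subset_adjoin ⟨0, rfl⟩) O' hOver h1)
  have hSfin : {O' : ValuationSubring L | Over Qb O' ∧ ψ 0 ∉ O' ∧ ψ 1 ∉ O'}.Finite :=
    hfin.subset hsub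
  obtain ⟨r, e, -, he⟩ := hSfin.fin_param
  have hex : ∀ i : Fin r, ∃ Φ : MvPolynomial (Fin 3) Qb, aeval ψ Φ ∉ e i ∧
      Transcendental Qb (aeval ψ Φ) ∧
      ∀ O' : ValuationSubring L, Over Qb O' → aeval ψ Φ ∉ O' → O' = e i := by
    intro i
    have hi : e i ∈ {O' : ValuationSubring L | Over Qb O' ∧ ψ 0 ∉ O' ∧ ψ 1 ∉ O'} := by
      rw [← he]
      exact ⟨i, rfl⟩
    obtain ⟨F0, hF0A, hF0t, hF0O, huniq⟩ := exists_pole hdep hS (hsub hi)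
    rw [Algebra.adjoin_range_eq_range_aeval] at hF0A
    obtain ⟨F, hF⟩ := hF0A
    have hF' : aeval ψ F = F0 := hF
    refine ⟨F, ?_, ?_, ?_⟩
    · rw [hF']; exact hF0O
    · rw [hF']; exact hF0t
    · rw [hF']; exact huniq
  choose Φ h1 h2 h3 using hex
  refine ⟨r, e, Φ, ?_, ?_⟩
  · intro i
    have hi : e i ∈ {O' : ValuationSubring L | Over Qb O' ∧ ψ 0 ∉ O' ∧ ψ 1 ∉ O'} := by
      rw [← he]
      exact ⟨i, rfl⟩
    exact ⟨hi.1, hi.2.1, hi.2.2, h1 i, h2 i, h3 i⟩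
  · intro O' hO h0 h1'
    have hmem : O' ∈ Set.range e := by
      rw [he]
      exact ⟨hO, h0, h1'⟩
    obtain ⟨i, hi⟩ := hmem
    exact ⟨i, hi.symm⟩

end Pool.Agent.LGO.F
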