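import Mathlib
import Pool.Agent.LGO.G.FunF
import Pool.Agent.LGO.G.Geo
import Pool.Agent.LGO.F.CuCov
import Pool.Agent.LGO.F.CuLoc
import Pool.Agent.LGO.F.CuPl

/-!
# LGO/F (note 3060, cusps): the common poles of two coordinates of a curve, for all conjugates

PROOF.  `exists_funQ` (`G/FunF.lean`): `L, ψ, hgen, hdep`, `hz : aeval ψ G = 0 ↔ ∀ x ∈ V, aeval (x ∘ i) G = 0`.
* `ψ 0` is transcendental: otherwise `ψ 0` is a constant `c` (`const_of_isAlgebraic`, `G/Geo.lean`), `aeval ψ (X 0 - C c) = 0`, so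
  `x (i 0) = c` on `V`, contradiction to `h0`.  The same for `ψ 1`; in particular `ψ 0, ψ 1 ≠ 0`.
* `cu_places`: `r, O, Φ`.  `cu_loc` for every `t`: `k t, l t, α t, C t, m t` (`choose`).
* `cu_cov` with the `Φ t`: the hypothesis holds because a place `O'` at which `ψ 0`, `ψ 1` have poles is one of the `O t`, and
  `aeval ψ (Φ t) ∉ O t`.  Constants `C', M`.
* `C = C' + ∑ t, C t` works for all statements (a larger constant makes the hypotheses stronger and the conclusions weaker).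
* If `aeval (x ∘ i) (Φ t) = c` for all `x ∈ V` then `aeval ψ (Φ t)` is a constant, contradiction to its transcendence: see the
  proof of the first part of `geo` in `G/Geo.lean` (a point with algebraic coordinates, `exists_Qb_point`, shows that `c ∈ Qb`);
  `V` is not empty by `h0`.
* For `x ∈ V` the point `y = x ∘ i` satisfies the hypothesis on `y` by `hz`.
-/

namespace Pool.Agent.LGO.F

open MvPolynomial Pool.Agent.Hhelper14.ZPL

theorem cu_geo {n : ℕ} {V : Set (Fin n → ℂ)} (hV : Pool.Agent.Hhelper14.ZPL.IsIrredClosed V)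
    (hVk : KClosed V) (hdim : Pool.Agent.Hhelper14.ZPL.dim V = 1) (i : Fin 3 → Fin n)
    (h0 : ∀ c : ℂ, ∃ x ∈ V, x (i 0) ≠ c) (h1 : ∀ c : ℂ, ∃ x ∈ V, x (i 1) ≠ c) :
    ∃ (r : ℕ) (Φ : Fin r → MvPolynomial (Fin 3) Qb) (k l : Fin r → ℕ) (α : Fin r → Qb) (C : ℝ)
      (M : ℕ) (m : Fin r → ℕ), 1 ≤ C ∧ 0 < M ∧
      (∀ t, 0 < k t ∧ 0 < l t ∧ α t ≠ 0 ∧ 0 < m t) ∧
      (∀ t, ∀ c : ℂ, ∃ x ∈ V, (aeval (x ∘ i) (Φ t) : ℂ) ≠ c) ∧
      (∀ s : ℂ ≃+* ℂ, ∀ x ∈ V, C ≤ ‖s (x (i 0))‖ → C ≤ ‖s (x (i 1))‖ →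
        ∃ t, 1 ≤ ‖s (aeval (x ∘ i) (Φ t) : ℂ)‖ ∧
          min ‖s (x (i 0))‖ ‖s (x (i 1))‖ ≤ C * ‖s (aeval (x ∘ i) (Φ t) : ℂ)‖ ^ M) ∧
      ∀ t, ∀ s : ℂ ≃+* ℂ, ∀ x ∈ V, C ≤ ‖s (aeval (x ∘ i) (Φ t) : ℂ)‖ →
        ‖s (aeval (x ∘ i) (Φ t) : ℂ)‖ ≤ C * ‖s (x (i 0))‖ ^ m t ∧
        ‖s (aeval (x ∘ i) (Φ t) : ℂ)‖ ≤ C * ‖s (x (i 1))‖ ^ m t ∧
        ‖s (x (i 0)) ^ k t - s (α t : ℂ) * s (x (i 1)) ^ l t‖ ^ m t *
          ‖s (aeval (x ∘ i) (Φ t) : ℂ)‖ ≤ C * ‖s (x (i 1)) ^ l t‖ ^ m t := by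
  obtain ⟨L, hL, hA, ψ, hgen, hdep, hz, hfin⟩ := exists_funQ hV hVk hdim i
  have htr : ∀ a : Fin 3, (∀ c : ℂ, ∃ x ∈ V, x (i a) ≠ c) → Transcendental Qb (ψ a) := by
    intro a h halg
    obtain ⟨c, hc⟩ := const_of_isAlgebraic halg
    have h1 : aeval ψ (X a - MvPolynomial.C c : MvPolynomial (Fin 3) Qb) = 0 := by
      rw [map_sub, aeval_X, aeval_C, hc, sub_self]
    obtain ⟨x, hx, hne⟩ := h (c : ℂ)
    have h3 := (hz _).mp h1 x hx
    rw [map_sub, aeval_X, aeval_C, sub_eq_zero] at h3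
    exact hne h3
  have ht0 := htr 0 h0
  have ht1 := htr 1 h1
  have hψ0 : ψ 0 ≠ 0 := by
    intro h
    rw [h] at ht0
    exact ht0 isAlgebraic_zero
  have hψ1 : ψ 1 ≠ 0 := by
    intro h
    rw [h] at ht1
    exact ht1 isAlgebraic_zero
  obtain ⟨r, O, Φ, hO, huniq⟩ := cu_places hdep ψ hgen ht0
  choose k l α Ct m hk hl hα hC hm hloc using fun t => cu_loc hdep ψ (hO t).1 (hO t).2.1
    (hO t).2.2.1 (hO t).2.2.2.1 (hO t).2.2.2.2.2
  obtain ⟨C', M, hC', hM, hcov⟩ := cu_cov ψ hψ0 hψ1 Φ (by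
    intro O' hO' h0 h1
    obtain ⟨t, rfl⟩ := huniq O' hO' h0 h1
    exact ⟨t, (hO t).2.2.2.1⟩)
  have hy : ∀ x ∈ V, ∀ G : MvPolynomial (Fin 3) Qb, aeval ψ G = 0 →
      (aeval (x ∘ i) G : ℂ) = 0 := fun x hx G hG => (hz G).mp hG x hx
  have hCn : 0 ≤ ∑ t, Ct t := Finset.sum_nonneg fun t _ => by linarith [hC t]
  have hCs : ∀ t, Ct t ≤ ∑ t, Ct t := fun t =>
    Finset.single_le_sum (fun u _ => by linarith [hC u]) (Finset.mem_univ t)
  refine ⟨r, Φ, k, l, α, C' + ∑ t, Ct t, M, m, by linarith, hM,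
    fun t => ⟨hk t, hl t, hα t, hm t⟩, ?_, ?_, ?_⟩
  · intro t c
    by_contra hcon
    push Not at hcon
    obtain ⟨x₀, hx₀, -⟩ := h0 0
    have h1 : (1 : MvPolynomial (Fin n) Qb) ∉
        (vanishingIdeal Qb V : Ideal (MvPolynomial (Fin n) Qb)) := by
      intro h2
      have h3 := (mem_vanishingIdeal_iff.mp h2) x₀ hx₀
      rw [map_one] at h3
      exact one_ne_zero h3
    obtain ⟨z, hzV, -⟩ := exists_Qb_point hVk h1
    have h4 : c = ((aeval (z ∘ i) (Φ t) : Qb) : ℂ) := by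
      rw [← hcon _ hzV, ← aeval_coe]
      rfl
    have h5 : aeval ψ (Φ t - MvPolynomial.C (aeval (z ∘ i) (Φ t) : Qb) :
        MvPolynomial (Fin 3) Qb) = 0 := by
      rw [hz]
      intro x hx
      rw [map_sub, hcon x hx, aeval_C, h4]
      exact sub_self _
    rw [map_sub, aeval_C, sub_eq_zero] at h5
    apply (hO t).2.2.2.2.1
    rw [h5]
    exact isAlgebraic_algebraMap _
  · intro s x hx hx0 hx1
    obtain ⟨t, ht1, ht2⟩ := hcov s (x ∘ i) (hy x hx)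
      ((by linarith : C' ≤ C' + ∑ t, Ct t).trans hx0) ((by linarith : C' ≤ C' + ∑ t, Ct t).trans hx1)
    refine ⟨t, ht1, ht2.trans ?_⟩
    exact mul_le_mul_of_nonneg_right (by linarith) (by positivity)
  · intro t s x hx hle
    have hle' : Ct t ≤ ‖s (aeval (x ∘ i) (Φ t) : ℂ)‖ := le_trans (by linarith [hCs t]) hle
    have hCC : Ct t ≤ C' + ∑ t, Ct t := by linarith [hCs t]
    obtain ⟨e1, e2, e3⟩ := hloc t s (x ∘ i) (hy x hx) hle'
    exact ⟨e1.trans (mul_le_mul_of_nonneg_right hCC (by positivity)),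
      e2.trans (mul_le_mul_of_nonneg_right hCC (by positivity)),
      e3.trans (mul_le_mul_of_nonneg_right hCC (by positivity))⟩

end Pool.Agent.LGO.F
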