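import Mathlib
import Pool.Agent.LGO.G.Ineq
import Pool.Agent.LGO.Mul.Ht
import Pool.Agent.LGO.H.BdC

/-!
# LGO/F (note 3060, cusps): roots of unity of large order and the conjugates of an algebraic number

`Qb` is the algebraic closure of `ℚ` in `ℂ`.  `α ∈ Qb`, `α ≠ 0`, `s` an automorphism of `ℂ`.

PROOF.  Let `ζ = exp (2 π i g B / h)` and `β = s α`; `ζ ^ h = 1`.  The constant `C` is a number `≥ orderOf α * g`, `≥ 1` and large
compared with the following ones.  `A ≥ 1` with `‖s α‖ ≤ A` for all `s` (`conj_bdd`, `G/Ineq.lean`).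
Case 1: `α ^ h ≠ 1`.  Liouville: there is a number field `K₀` with `Bd K₀ B₀ α` (see the private `RelB_const` in
`H/RelB.lean`, copy it), so `Bd K₀ (h B₀ + 2) (α ^ h - 1)` (`Bd.pow`, `Bd.add`, `Bd.neg` / `Bd.intCast` in `H/BdC.lean`) and
`Bd.lower` (`LGO/Mul/Ht.lean`) for the restriction of `s` to `K₀` gives `‖s (α ^ h - 1)‖ ≥ exp (- C₁ h)`.  And
`‖ζ ^ h - β ^ h‖ ≤ ‖ζ - β‖ h A ^ (h - 1) ≤ ‖ζ - β‖ exp (C₂ h)` (geometric sum, `‖ζ‖ = 1`), and the left side is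
`‖1 - s (α ^ h)‖`.
Case 2: `α ^ h = 1`.  Then `β ^ h = 1`, `α` has finite order `r = orderOf α ≥ 1` (a constant).
Case 2a: `ζ ≠ β`.  `η = ζ / β` satisfies `η ^ h = 1`, `η ≠ 1`, so `∑_{i < h} η ^ i = 0` and
`h = ‖∑_{i < h} (1 - η ^ i)‖ ≤ ∑ i ‖1 - η‖ ≤ h ^ 2 ‖1 - η‖` (`‖η‖ = 1`); `‖β‖ = 1`, so `‖ζ - β‖ = ‖η - 1‖ ≥ 1 / h ≥ exp (-h)`.
Case 2b: `ζ = β`.  `ζ ^ r = s (α ^ r) = 1`, so `exp (2 π i r g B / h) = 1` and `r g B = h n` with an integer `n`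
(`Complex.exp_eq_one_iff`); `h` and `B` are coprime, so `h ∣ r g` and `h ≤ r g ≤ C`, contradiction.
-/

namespace Pool.Agent.LGO.F

open Pool.Agent.Hhelper14.ZPL

private theorem CuLio_int (c : Qb) : ∃ n : ℕ, 0 < n ∧ IsIntegral ℤ ((n : ℂ) * (c : ℂ)) := by
  have h1 : IsAlgebraic ℚ (c : ℂ) := mem_algebraicClosure_iff.1 c.2
  have h2 : IsAlgebraic ℤ (c : ℂ) := (IsFractionRing.isAlgebraic_iff ℤ ℚ ℂ).2 h1
  obtain ⟨y, hy, hi⟩ := h2.exists_integral_multiple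
  refine ⟨y.natAbs, Int.natAbs_pos.2 hy, ?_⟩
  rw [zsmul_eq_mul] at hi
  have h3 : ((y.natAbs : ℕ) : ℂ) = (y : ℂ) ∨ ((y.natAbs : ℕ) : ℂ) = -(y : ℂ) := by
    rcases Int.natAbs_eq y with h | h
    · left
      have := congrArg (Int.cast (R := ℂ)) h
      rw [this]; simp
    · right
      have := congrArg (Int.cast (R := ℂ)) h
      rw [this]; simp
  rcases h3 with h | h
  · rw [h]; exact hi
  · rw [h, neg_mul]; exact hi.neg

private theorem CuLio_fin (c : Qb) : ∃ K₀ : IntermediateField ℚ ℂ, FiniteDimensional ℚ K₀ ∧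
    (c : ℂ) ∈ K₀ := by
  have h1 : IsAlgebraic ℚ (c : ℂ) := mem_algebraicClosure_iff.1 c.2
  exact ⟨IntermediateField.adjoin ℚ {(c : ℂ)},
    IntermediateField.adjoin.finiteDimensional h1.isIntegral,
    IntermediateField.mem_adjoin_simple_self ℚ (c : ℂ)⟩

private theorem CuLio_const (c : Qb) : ∃ (K₀ : IntermediateField ℚ ℂ) (B : ℝ),
    FiniteDimensional ℚ K₀ ∧ 0 ≤ B ∧ Bd K₀ B (c : ℂ) := by
  obtain ⟨K₀, hfin, hc⟩ := CuLio_fin c
  obtain ⟨n, hn, hni⟩ := CuLio_int c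
  have := hfin
  have : Fintype (K₀ →+* ℂ) := by
    have : NumberField K₀ := { to_charZero := inferInstance, to_finiteDimensional := hfin }
    infer_instance
  have hS : 0 ≤ ∑ σ : K₀ →+* ℂ, ‖σ ⟨(c : ℂ), hc⟩‖ := Finset.sum_nonneg fun _ _ => norm_nonneg _
  refine ⟨K₀, n + ∑ σ : K₀ →+* ℂ, ‖σ ⟨(c : ℂ), hc⟩‖, hfin, by positivity, ⟨hc, ⟨n, hn, ?_, hni⟩, ?_⟩⟩
  · have h := Real.add_one_le_exp ((n : ℝ) + ∑ σ : K₀ →+* ℂ, ‖σ ⟨(c : ℂ), hc⟩‖)
    linarith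
  · intro σ
    have h := Real.add_one_le_exp ((n : ℝ) + ∑ σ : K₀ →+* ℂ, ‖σ ⟨(c : ℂ), hc⟩‖)
    have h2 : ‖σ ⟨(c : ℂ), hc⟩‖ ≤ ∑ σ : K₀ →+* ℂ, ‖σ ⟨(c : ℂ), hc⟩‖ :=
      Finset.single_le_sum (f := fun σ : K₀ →+* ℂ => ‖σ ⟨(c : ℂ), hc⟩‖)
        (fun _ _ => norm_nonneg _) (Finset.mem_univ σ)
    have h3 : (0 : ℝ) ≤ n := Nat.cast_nonneg n
    linarith

private theorem CuLio_pow_sub (x y : ℂ) (A : ℝ) (hA : 1 ≤ A) (hx : ‖x‖ ≤ A) (hy : ‖y‖ ≤ A) (n : ℕ) :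
    ‖x ^ n - y ^ n‖ ≤ n * A ^ n * ‖x - y‖ := by
  have hA0 : 0 ≤ A := zero_le_one.trans hA
  induction n with
  | zero => simp
  | succ n ih =>
    have e : x ^ (n + 1) - y ^ (n + 1) = (x ^ n - y ^ n) * x + y ^ n * (x - y) := by ring
    rw [e]
    have h1 : ‖(x ^ n - y ^ n) * x‖ ≤ n * A ^ n * ‖x - y‖ * A := by
      rw [norm_mul]
      exact mul_le_mul ih hx (norm_nonneg _) (by positivity)
    have h2 : ‖y ^ n * (x - y)‖ ≤ A ^ n * ‖x - y‖ := by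
      rw [norm_mul, norm_pow]
      exact mul_le_mul_of_nonneg_right (pow_le_pow_left₀ (norm_nonneg _) hy n) (norm_nonneg _)
    have h3 : A ^ n * ‖x - y‖ ≤ A ^ (n + 1) * ‖x - y‖ :=
      mul_le_mul_of_nonneg_right (pow_le_pow_right₀ hA (Nat.le_succ n)) (norm_nonneg _)
    calc ‖(x ^ n - y ^ n) * x + y ^ n * (x - y)‖
        ≤ ‖(x ^ n - y ^ n) * x‖ + ‖y ^ n * (x - y)‖ := norm_add_le _ _
      _ ≤ n * A ^ n * ‖x - y‖ * A + A ^ (n + 1) * ‖x - y‖ := add_le_add h1 (h2.trans h3)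
      _ = ((n + 1 : ℕ) : ℝ) * A ^ (n + 1) * ‖x - y‖ := by
        push_cast
        ring

private theorem CuLio_root {x y : ℂ} (hx : ‖x‖ = 1) (hy : ‖y‖ = 1) (hne : x ≠ y) {h : ℕ} (hh : 0 < h)
    (he : x ^ h = y ^ h) : 1 / (h : ℝ) ≤ ‖x - y‖ := by
  have hh' : (0 : ℝ) < h := by exact_mod_cast hh
  have hg := Commute.geom_sum₂_mul (Commute.all x y) h
  rw [he, sub_self] at hg
  have hs : ∑ i ∈ Finset.range h, x ^ i * y ^ (h - 1 - i) = 0 := by
    rcases mul_eq_zero.1 hg with h1 | h1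
    · exact h1
    · exact absurd (sub_eq_zero.1 h1) hne
  have e1 : (h : ℂ) * y ^ (h - 1) =
      ∑ i ∈ Finset.range h, (y ^ i - x ^ i) * y ^ (h - 1 - i) := by
    have e2 : ∀ i ∈ Finset.range h, (y ^ i - x ^ i) * y ^ (h - 1 - i) =
        y ^ (h - 1) - x ^ i * y ^ (h - 1 - i) := by
      intro i hi
      have hi' := Finset.mem_range.1 hi
      rw [sub_mul, ← pow_add]
      congr 2
      omega
    rw [Finset.sum_congr rfl e2, Finset.sum_sub_distrib, hs, sub_zero, Finset.sum_const,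
      Finset.card_range, nsmul_eq_mul]
  have h1 : ‖(h : ℂ) * y ^ (h - 1)‖ = h := by
    rw [norm_mul, norm_pow, hy, one_pow, mul_one, Complex.norm_natCast]
  have h2 : (h : ℝ) ≤ ∑ i ∈ Finset.range h, (h : ℝ) * ‖x - y‖ := by
    calc (h : ℝ) = ‖∑ i ∈ Finset.range h, (y ^ i - x ^ i) * y ^ (h - 1 - i)‖ := by rw [← e1, h1]
      _ ≤ ∑ i ∈ Finset.range h, ‖(y ^ i - x ^ i) * y ^ (h - 1 - i)‖ := norm_sum_le _ _
      _ ≤ ∑ i ∈ Finset.range h, (h : ℝ) * ‖x - y‖ := by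
        refine Finset.sum_le_sum fun i hi => ?_
        have hi' := Finset.mem_range.1 hi
        rw [norm_mul, norm_pow, hy, one_pow, mul_one, norm_sub_rev]
        have h3 := CuLio_pow_sub x y 1 le_rfl hx.le hy.le i
        rw [one_pow, mul_one] at h3
        refine h3.trans (mul_le_mul_of_nonneg_right ?_ (norm_nonneg _))
        exact_mod_cast hi'.le
  rw [Finset.sum_const, Finset.card_range, nsmul_eq_mul] at h2
  rw [div_le_iff₀ hh']
  nlinarith [norm_nonneg (x - y)]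

theorem cu_lio {α : Qb} (hα : α ≠ 0) {g : ℕ} (hg : 0 < g) : ∃ C : ℝ, 1 ≤ C ∧
    ∀ (s : ℂ ≃+* ℂ) (h : ℕ) (B : ℤ), 0 < h → IsCoprime (h : ℤ) B → C < h →
      Real.exp (-(C * h)) ≤
        ‖Complex.exp (2 * Real.pi * Complex.I * ((g : ℂ) * B / h)) - s (α : ℂ)‖ := by
  obtain ⟨K₀, B₀, hfin, hB₀, hBd⟩ := CuLio_const α
  obtain ⟨A₀, hA₀⟩ := conj_bdd α
  have := hfin
  set D : ℝ := (Module.finrank ℚ K₀ : ℝ) with hD
  have hD0 : 0 ≤ D := Nat.cast_nonneg _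
  set r : ℕ := orderOf (α : ℂ) with hr
  have hr0 : (0 : ℝ) ≤ (r : ℝ) * g := by positivity
  set A : ℝ := |A₀| + 1 with hA
  have hA1 : 1 ≤ A := by rw [hA]; linarith [abs_nonneg A₀]
  have hA2 : ∀ s : ℂ ≃+* ℂ, ‖s (α : ℂ)‖ ≤ A := fun s =>
    (hA₀ s).trans (by rw [hA]; linarith [le_abs_self A₀])
  have hDB : 0 ≤ 2 * D * (B₀ + 1) := by positivity
  refine ⟨2 * D * (B₀ + 1) + 1 + A + r * g, by linarith, ?_⟩
  intro s h B hh hcop hC
  have hh' : (0 : ℝ) < h := by exact_mod_cast hh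
  have hh1 : (1 : ℝ) ≤ h := by exact_mod_cast hh
  set ζ : ℂ := Complex.exp (2 * Real.pi * Complex.I * ((g : ℂ) * B / h)) with hζ
  have hhC : (h : ℂ) ≠ 0 := by exact_mod_cast hh.ne'
  have hζh : ζ ^ h = 1 := by
    rw [hζ, ← Complex.exp_nat_mul]
    have e : (h : ℂ) * (2 * Real.pi * Complex.I * ((g : ℂ) * B / h)) =
        ((g * B : ℤ) : ℂ) * (2 * Real.pi * Complex.I) := by
      push_cast
      field_simp
    rw [e]
    exact Complex.exp_int_mul_two_pi_mul_I _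
  have hζn : ‖ζ‖ = 1 := by
    have e : 2 * Real.pi * Complex.I * ((g : ℂ) * B / h) =
        ((2 * Real.pi * ((g : ℝ) * B / h) : ℝ) : ℂ) * Complex.I := by
      push_cast
      ring
    rw [hζ, e, Complex.norm_exp_ofReal_mul_I]
  set β : ℂ := s (α : ℂ) with hβ
  have hexp1 : (h : ℝ) ≤ Real.exp h := by linarith [Real.add_one_le_exp (h : ℝ)]
  by_cases hα1 : (α : ℂ) ^ h = 1
  · have hβh : β ^ h = 1 := by rw [hβ, ← map_pow, hα1, map_one]
    have hβn : ‖β‖ = 1 := by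
      have h1 : ‖β‖ ^ h = 1 := by rw [← norm_pow, hβh, norm_one]
      exact (pow_eq_one_iff_of_nonneg (norm_nonneg _) hh.ne').1 h1
    have hne : ζ ≠ β := by
      intro he
      have hα2 : (α : ℂ) ^ r = 1 := pow_orderOf_eq_one _
      have hrpos : 0 < r := orderOf_pos_iff.2 (isOfFinOrder_iff_pow_eq_one.2 ⟨h, hh, hα1⟩)
      have h1 : ζ ^ r = 1 := by rw [he, hβ, ← map_pow, hα2, map_one]
      rw [hζ, ← Complex.exp_nat_mul, Complex.exp_eq_one_iff] at h1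
      obtain ⟨n, hn⟩ := h1
      have hpi : (2 * Real.pi * Complex.I : ℂ) ≠ 0 := Complex.two_pi_I_ne_zero
      have h2 : (r : ℂ) * ((g : ℂ) * B) = n * h := by
        have h3 : ((r : ℂ) * ((g : ℂ) * B) - n * h) * (2 * Real.pi * Complex.I) = 0 := by
          have h4 : (r : ℂ) * (2 * Real.pi * Complex.I * ((g : ℂ) * B / h)) * h =
              n * (2 * Real.pi * Complex.I) * h := by rw [hn]
          have h5 : (r : ℂ) * (2 * Real.pi * Complex.I * ((g : ℂ) * B / h)) * h =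
              (r : ℂ) * ((g : ℂ) * B) * (2 * Real.pi * Complex.I) := by
            field_simp
          rw [h5] at h4
          linear_combination h4
        rcases mul_eq_zero.1 h3 with h4 | h4
        · exact sub_eq_zero.1 h4
        · exact absurd h4 hpi
      have h3 : (r : ℤ) * ((g : ℤ) * B) = n * h := by exact_mod_cast h2
      have h4 : (h : ℤ) ∣ (r * g : ℤ) * B := ⟨n, by rw [mul_assoc, h3, mul_comm]⟩
      have h5 : (h : ℤ) ∣ (r * g : ℤ) := hcop.dvd_of_dvd_mul_right h4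
      have h6 : (h : ℤ) ≤ (r * g : ℤ) := by
        refine Int.le_of_dvd ?_ h5
        exact_mod_cast Nat.mul_pos hrpos hg
      have h7 : (h : ℝ) ≤ (r : ℝ) * g := by exact_mod_cast h6
      linarith
    have h1 := CuLio_root hζn hβn hne hh (hζh.trans hβh.symm)
    refine le_trans ?_ h1
    rw [Real.exp_neg, ← one_div]
    refine one_div_le_one_div_of_le hh' (hexp1.trans (Real.exp_le_exp.2 ?_))
    nlinarith
  · have hb1 : Bd K₀ (h * B₀ + 0 + 1) ((α : ℂ) ^ h + -(((1 : ℤ) : ℂ))) :=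
      (hBd.pow h).add ((Bd.intCast (K := K₀) (B := 0) 1 (by simp) le_rfl).neg)
    have hb2 : Bd K₀ (h * (B₀ + 1)) ((α : ℂ) ^ h + -(((1 : ℤ) : ℂ))) := hb1.mono (by nlinarith)
    have hne : (α : ℂ) ^ h + -(((1 : ℤ) : ℂ)) ≠ 0 := by
      intro h0
      apply hα1
      rw [Int.cast_one, ← sub_eq_add_neg] at h0
      exact sub_eq_zero.1 h0
    have h1 := Bd.lower (D := D) le_rfl (by positivity) hb2 hne
      ((s : ℂ →+* ℂ).comp (algebraMap K₀ ℂ))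
    have h2 : ((s : ℂ →+* ℂ).comp (algebraMap K₀ ℂ)) ⟨(α : ℂ) ^ h + -(((1 : ℤ) : ℂ)), hb2.mem⟩ =
        β ^ h - ζ ^ h := by
      have h3 : ((s : ℂ →+* ℂ).comp (algebraMap K₀ ℂ)) ⟨(α : ℂ) ^ h + -(((1 : ℤ) : ℂ)), hb2.mem⟩ =
        s ((α : ℂ) ^ h + -(((1 : ℤ) : ℂ))) := rfl
      rw [h3, map_add, map_pow, map_neg, Int.cast_one, map_one, hζh, sub_eq_add_neg]
    rw [h2] at h1
    have h3 := CuLio_pow_sub ζ β A hA1 (by rw [hζn]; exact hA1) (hA2 s) h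
    rw [norm_sub_rev] at h3
    have h4 : A ^ h ≤ Real.exp (A * h) := by
      have h5 : A ≤ Real.exp A := by linarith [Real.add_one_le_exp A]
      calc A ^ h ≤ Real.exp A ^ h := pow_le_pow_left₀ (by linarith) h5 h
        _ = Real.exp (A * h) := by rw [← Real.exp_nat_mul, mul_comm]
    have h5 : (h : ℝ) * A ^ h ≤ Real.exp (h + A * h) := by
      rw [Real.exp_add]
      exact mul_le_mul hexp1 h4 (by positivity) (Real.exp_pos _).le
    have h6 : Real.exp (-(2 * D * (h * (B₀ + 1)))) ≤ Real.exp (h + A * h) * ‖ζ - β‖ :=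
      h1.trans (h3.trans (mul_le_mul_of_nonneg_right h5 (norm_nonneg _)))
    have h7 : Real.exp (-(h + A * h)) * Real.exp (-(2 * D * (h * (B₀ + 1)))) ≤ ‖ζ - β‖ := by
      have h9 : Real.exp (-(h + A * h)) * Real.exp (h + A * h) = 1 := by
        rw [← Real.exp_add, neg_add_cancel, Real.exp_zero]
      calc Real.exp (-(h + A * h)) * Real.exp (-(2 * D * (h * (B₀ + 1))))
          ≤ Real.exp (-(h + A * h)) * (Real.exp (h + A * h) * ‖ζ - β‖) :=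
            mul_le_mul_of_nonneg_left h6 (Real.exp_pos _).le
        _ = (Real.exp (-(h + A * h)) * Real.exp (h + A * h)) * ‖ζ - β‖ := by rw [mul_assoc]
        _ = ‖ζ - β‖ := by rw [h9, one_mul]
    refine le_trans ?_ h7
    rw [← Real.exp_add]
    apply Real.exp_le_exp.2
    nlinarith [mul_nonneg hr0 hh'.le]

end Pool.Agent.LGO.F
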