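import Mathlib
import Pool.Agent.LGO.Defs
import Pool.Agent.LGO.F.CuLio

/-!
# LGO/F (note 3060, cusps, step (2)(b)): the degree of a primitive matrix near a common cusp

PROOF.  `g = (A, B; C', D')`, `det g = A D' - B C' > 0`, `T = Im τ`, `T' = Im τ'`, `τ' (C' τ + D') = A τ + B`.
`T' ‖C' τ + D'‖ ^ 2 = det g * T` (see `key` in `im_maps`, `H/JSize.lean`).
Case `C' ≠ 0`: `‖C' τ + D'‖ ≥ |C'| T ≥ T`, so `T' T ^ 2 ≤ det g * T`: `T T' ≤ det g`.
Case `C' = 0`: `A D' = det g > 0`, `D' τ' = A τ + B`, `T' = (A / D') T`.  Let `e = exp (2 π i (l τ' - k τ))`,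
`‖e‖ = exp (- 2 π (l T' - k T))`.  By `conj_bdd` and `conj_bdd_below` (`G/Ineq.lean`) `b ≤ ‖s α‖ ≤ b'` with constants
`0 < b`, and `K exp (- c min T T') ≤ b / 2` if `T, T' ≥ C`.  So `b / 2 ≤ ‖e‖ ≤ b' + b / 2`, hence
`|l T' - k T| ≤ K₁`.  Multiply by `|D'|`: `|l A - k D'| T ≤ K₁ |D'|`.
  * `l A ≠ k D'`: `T ≤ K₁ |D'|`, so `T T' = T ^ 2 A / D' ≤ K₁ ^ 2 A D' = K₁ ^ 2 det g`.
  * `l A = k D'`: let `g₀ = gcd k l`, `k = g₀ k'`, `l = g₀ l'`, `k', l'` coprime; `l' A = k' D'` gives an integer `h ≠ 0` with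
    `A = k' h`, `D' = l' h`, and `gcd (h, B) = 1` because `g` is primitive (`Prim`: `d = gcd (h, B)` divides all entries).
    `l τ' - k τ = (l A - k D') τ / D' + l B / D' = g₀ B / h` EXACTLY.  With `|h|` and `B sign h`: `cu_lio` for `g₀`
    (constant `C₁`): either `|h| ≤ C₁` and `det g = k' l' h ^ 2 ≤ k l C₁ ^ 2`, or
    `exp (- C₁ |h|) ≤ ‖e - s α‖ ≤ K exp (- c min T T')`, so `c min T T' ≤ C₁ |h| + log K`; since `T' = (k / l) T`, the numbers
    `T, T'` are at most `(k + l) min T T'`; so `T, T' ≤ K₂ |h|` (for `T, T'` large or using `|h| ≥ 1`) and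
    `T T' ≤ K₂ ^ 2 h ^ 2 ≤ K₂ ^ 2 det g`.
-/

namespace Pool.Agent.LGO.F

open UpperHalfPlane Pool.Agent.Hhelper14.ZPL

private theorem CuMat_key {τ τ' : ℂ} {g : Matrix (Fin 2) (Fin 2) ℤ} (h : Maps g τ τ') :
    τ'.im * (((g 1 0 : ℝ) * τ.re + g 1 1) ^ 2 + ((g 1 0 : ℝ) * τ.im) ^ 2) = g.det * τ.im := by
  have hdet : (g.det : ℝ) = (g 0 0 : ℝ) * g 1 1 - (g 0 1 : ℝ) * g 1 0 := by
    rw [Matrix.det_fin_two]
    push_cast
    ring
  unfold Maps at h
  have hre := congrArg Complex.re h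
  have him := congrArg Complex.im h
  simp only [Complex.mul_re, Complex.mul_im, Complex.add_re, Complex.add_im, Complex.intCast_re,
    Complex.intCast_im, zero_mul, sub_zero, add_zero] at hre him
  rw [hdet]
  linear_combination ((g 1 0 : ℝ) * τ.re + g 1 1) * him - ((g 1 0 : ℝ) * τ.im) * hre

/-- the case of a nonzero lower left entry -/
private theorem CuMat_ne {τ τ' : ℂ} {g : Matrix (Fin 2) (Fin 2) ℤ} (h : Maps g τ τ')
    (hy : 0 < τ.im) (hy' : 0 < τ'.im) (hc : g 1 0 ≠ 0) : τ.im * τ'.im ≤ g.det := by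
  have key := CuMat_key h
  have hc2 : (1 : ℝ) ≤ (g 1 0 : ℝ) ^ 2 := by
    have h5 : 1 ≤ (g 1 0) ^ 2 := by
      have := sq_pos_of_ne_zero hc
      omega
    exact_mod_cast h5
  have h6 : τ.im ^ 2 ≤ ((g 1 0 : ℝ) * τ.re + g 1 1) ^ 2 + ((g 1 0 : ℝ) * τ.im) ^ 2 := by
    rw [mul_pow]
    nlinarith [sq_nonneg ((g 1 0 : ℝ) * τ.re + g 1 1), sq_nonneg τ.im]
  have h7 : τ'.im * τ.im ^ 2 ≤ g.det * τ.im := by
    rw [← key]
    exact mul_le_mul_of_nonneg_left h6 hy'.le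
  have h9 : (τ.im * τ'.im) * τ.im ≤ g.det * τ.im := by
    have h10 : (τ.im * τ'.im) * τ.im = τ'.im * τ.im ^ 2 := by ring
    rw [h10]
    exact h7
  exact le_of_mul_le_mul_right h9 hy

/-- the factorisation of the diagonal entries -/
private theorem CuMat_fac {k l : ℕ} (hk : 0 < k) {A D : ℤ}
    (h : (l : ℤ) * A = k * D) : ∃ h0 : ℤ, A = (k / Nat.gcd k l : ℕ) * h0 ∧
      D = (l / Nat.gcd k l : ℕ) * h0 := by
  have hg : 0 < Nat.gcd k l := Nat.gcd_pos_of_pos_left _ hk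
  obtain ⟨k', hk'⟩ := Nat.gcd_dvd_left k l
  obtain ⟨l', hl'⟩ := Nat.gcd_dvd_right k l
  have hkd : k / Nat.gcd k l = k' := by
    apply Nat.div_eq_of_eq_mul_right hg hk'
  have hld : l / Nat.gcd k l = l' := by
    apply Nat.div_eq_of_eq_mul_right hg hl'
  have hcop : Nat.Coprime k' l' := by
    have := Nat.coprime_div_gcd_div_gcd hg
    rwa [hkd, hld] at this
  rw [hkd, hld]
  have h1 : (l' : ℤ) * A = k' * D := by
    have h2 : ((Nat.gcd k l : ℕ) : ℤ) * ((l' : ℤ) * A) = (Nat.gcd k l : ℕ) * (k' * D) := by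
      have e1 : (l : ℤ) = (Nat.gcd k l : ℕ) * l' := by exact_mod_cast hl'
      have e2 : (k : ℤ) = (Nat.gcd k l : ℕ) * k' := by exact_mod_cast hk'
      calc ((Nat.gcd k l : ℕ) : ℤ) * ((l' : ℤ) * A) = ((Nat.gcd k l : ℕ) * l') * A := by ring
        _ = (l : ℤ) * A := by rw [← e1]
        _ = k * D := h
        _ = ((Nat.gcd k l : ℕ) * k') * D := by rw [← e2]
        _ = (Nat.gcd k l : ℕ) * (k' * D) := by ring
    exact mul_left_cancel₀ (by exact_mod_cast hg.ne') h2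
  have hk'0 : k' ≠ 0 := by
    rintro rfl
    rw [mul_zero] at hk'
    omega
  have hdvd : (k' : ℤ) ∣ A := by
    have h3 : (k' : ℤ) ∣ (l' : ℤ) * A := ⟨D, h1⟩
    exact (Int.isCoprime_iff_gcd_eq_one.2 (by simpa using hcop)).dvd_of_dvd_mul_left h3
  obtain ⟨h0, hA⟩ := hdvd
  refine ⟨h0, hA, ?_⟩
  rw [hA] at h1
  have h4 : (k' : ℤ) * D = k' * (l' * h0) := by
    rw [← h1]
    ring
  exact mul_left_cancel₀ (by exact_mod_cast hk'0) h4

theorem cu_mat {k l : ℕ} (hk : 0 < k) (hl : 0 < l) {α : Qb} (hα : α ≠ 0) {K c : ℝ} (hK : 0 < K)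
    (hc : 0 < c) : ∃ C : ℝ, 1 ≤ C ∧ ∀ (s : ℂ ≃+* ℂ) (τ τ' : ℍ) (g : Matrix (Fin 2) (Fin 2) ℤ),
      0 < g.det → Prim g → Maps g (τ : ℂ) (τ' : ℂ) → C ≤ τ.im → C ≤ τ'.im →
      ‖Complex.exp (2 * Real.pi * Complex.I * ((l : ℂ) * (τ' : ℂ) - k * (τ : ℂ))) - s (α : ℂ)‖ ≤
        K * Real.exp (-(c * min τ.im τ'.im)) →
      τ.im * τ'.im ≤ C * g.det ∨ (g.det : ℝ) ≤ C := by
  obtain ⟨Bu, hBu⟩ := conj_bdd α
  obtain ⟨b, hb, hbl⟩ := conj_bdd_below hα
  have hg0 : 0 < Nat.gcd k l := Nat.gcd_pos_of_pos_left _ hk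
  obtain ⟨C₁, hC₁, hlio⟩ := cu_lio hα hg0
  obtain ⟨C0, hC0⟩ : ∃ C0 : ℝ, C0 = |Real.log (2 * K / b)| / c := ⟨_, rfl⟩
  obtain ⟨K₁, hK₁⟩ : ∃ K₁ : ℝ, K₁ = |Real.log (b / 2)| + |Real.log (|Bu| + b / 2)| := ⟨_, rfl⟩
  obtain ⟨K₂, hK₂⟩ : ∃ K₂ : ℝ, K₂ = ((k : ℝ) + l) * (C₁ + |Real.log K|) / c := ⟨_, rfl⟩
  have hC00 : 0 ≤ C0 := by rw [hC0]; positivity
  have hK₁0 : 0 ≤ K₁ := by rw [hK₁]; positivity
  have hC₁0 : 0 < C₁ := by linarith
  have hK₂0 : 0 ≤ K₂ := by rw [hK₂]; positivity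
  have hkl0 : 0 ≤ (k : ℝ) * l * C₁ ^ 2 := by positivity
  refine ⟨1 + C0 + K₁ ^ 2 + (k : ℝ) * l * C₁ ^ 2 + K₂ ^ 2, ?_, ?_⟩
  · nlinarith [sq_nonneg K₁, sq_nonneg K₂]
  intro s τ τ' g hdet hprim hmaps hT hT' he
  obtain ⟨T, hTd⟩ : ∃ T, T = τ.im := ⟨_, rfl⟩
  obtain ⟨T', hTd'⟩ : ∃ T', T' = τ'.im := ⟨_, rfl⟩
  rw [← hTd, ← hTd'] at he ⊢
  rw [← hTd] at hT
  rw [← hTd'] at hT'
  have hsq1 := sq_nonneg K₁
  have hsq2 := sq_nonneg K₂
  have hT0 : 0 < T := by linarith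
  have hT0' : 0 < T' := by linarith
  have hTC : C0 ≤ T := by linarith
  have hTC' : C0 ≤ T' := by linarith
  have hdetR : (0 : ℝ) < g.det := by exact_mod_cast hdet
  by_cases hc0 : g 1 0 = 0
  swap
  · left
    have h1 : T * T' ≤ g.det := by
      rw [hTd, hTd']
      exact CuMat_ne hmaps τ.im_pos τ'.im_pos hc0
    calc T * T' ≤ 1 * g.det := by linarith
      _ ≤ _ := mul_le_mul_of_nonneg_right (by linarith) hdetR.le
  -- the upper triangular case
  obtain ⟨A, hA⟩ : ∃ A, A = g 0 0 := ⟨_, rfl⟩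
  obtain ⟨B, hB⟩ : ∃ B, B = g 0 1 := ⟨_, rfl⟩
  obtain ⟨D, hD⟩ : ∃ D, D = g 1 1 := ⟨_, rfl⟩
  have hdetAD : g.det = A * D := by
    rw [Matrix.det_fin_two, hc0, hA, hD]
    ring
  have hADpos : 0 < A * D := by rw [← hdetAD]; exact hdet
  have hD0 : D ≠ 0 := by
    rintro rfl
    simp at hADpos
  have hA0 : A ≠ 0 := by
    rintro rfl
    simp at hADpos
  have hDR : (D : ℝ) ≠ 0 := by exact_mod_cast hD0
  have hDC : (D : ℂ) ≠ 0 := by exact_mod_cast hD0
  have hm : (τ' : ℂ) * D = A * (τ : ℂ) + B := by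
    have h1 := hmaps
    unfold Maps at h1
    rw [hc0, ← hA, ← hB, ← hD] at h1
    simpa using h1
  have him : T' * D = A * T := by
    have h1 := congrArg Complex.im hm
    simp only [Complex.mul_im, Complex.add_im, Complex.intCast_re, Complex.intCast_im, mul_zero,
      zero_mul, add_zero, zero_add] at h1
    rw [hTd, hTd']
    exact h1
  -- the size of the exponential
  obtain ⟨e, hed⟩ : ∃ e, e = Complex.exp (2 * Real.pi * Complex.I *
      ((l : ℂ) * (τ' : ℂ) - k * (τ : ℂ))) := ⟨_, rfl⟩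
  rw [← hed] at he
  have hnorm : ‖e‖ = Real.exp (-(2 * Real.pi * (l * T' - k * T))) := by
    rw [hed, Complex.norm_exp]
    congr 1
    rw [hTd, hTd']
    simp [Complex.mul_re, Complex.mul_im]
  have hmin : C0 ≤ min T T' := le_min hTC hTC'
  have hsmall : K * Real.exp (-(c * min T T')) ≤ b / 2 := by
    have h1 : Real.log (2 * K / b) ≤ c * min T T' := by
      have h2 : c * C0 ≤ c * min T T' := mul_le_mul_of_nonneg_left hmin hc.le
      have h3 : c * C0 = |Real.log (2 * K / b)| := by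
        rw [hC0]
        field_simp
      rw [h3] at h2
      exact (le_abs_self _).trans h2
    have h4 : 2 * K / b ≤ Real.exp (c * min T T') := by
      rw [← Real.log_le_iff_le_exp (by positivity)]
      exact h1
    have h5 : 2 * K ≤ Real.exp (c * min T T') * b := by
      rwa [div_le_iff₀ hb] at h4
    rw [Real.exp_neg, ← div_eq_mul_inv, div_le_div_iff₀ (Real.exp_pos _) two_pos]
    linarith
  have hne : ‖e - s (α : ℂ)‖ ≤ b / 2 := he.trans hsmall
  have hup : ‖e‖ ≤ |Bu| + b / 2 := by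
    calc ‖e‖ = ‖(e - s (α : ℂ)) + s (α : ℂ)‖ := by rw [sub_add_cancel]
      _ ≤ ‖e - s (α : ℂ)‖ + ‖s (α : ℂ)‖ := norm_add_le _ _
      _ ≤ b / 2 + |Bu| := add_le_add hne ((hBu s).trans (le_abs_self _))
      _ = _ := by ring
  have hlow : b / 2 ≤ ‖e‖ := by
    have h1 : ‖s (α : ℂ)‖ ≤ ‖e‖ + ‖e - s (α : ℂ)‖ := by
      calc ‖s (α : ℂ)‖ = ‖e - (e - s (α : ℂ))‖ := by rw [sub_sub_cancel]
        _ ≤ ‖e‖ + ‖e - s (α : ℂ)‖ := norm_sub_le _ _
    have h2 := hbl s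
    linarith
  have hdiff : |(l : ℝ) * T' - k * T| ≤ K₁ := by
    have h1 : Real.log (b / 2) ≤ -(2 * Real.pi * (l * T' - k * T)) := by
      rw [Real.log_le_iff_le_exp (by positivity), ← hnorm]
      exact hlow
    have h2 : -(2 * Real.pi * (l * T' - k * T)) ≤ Real.log (|Bu| + b / 2) := by
      rw [Real.le_log_iff_exp_le (by positivity), ← hnorm]
      exact hup
    have h3 : |2 * Real.pi * ((l : ℝ) * T' - k * T)| ≤ K₁ := by
      rw [hK₁, abs_le]
      have a1 := neg_abs_le (Real.log (b / 2))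
      have a2 := le_abs_self (Real.log (|Bu| + b / 2))
      have a3 := abs_nonneg (Real.log (b / 2))
      have a4 := abs_nonneg (Real.log (|Bu| + b / 2))
      constructor <;> linarith
    rw [abs_mul, abs_of_pos (by positivity)] at h3
    have h4 : (1 : ℝ) ≤ 2 * Real.pi := by
      have := Real.pi_gt_three
      linarith
    calc |(l : ℝ) * T' - k * T| = 1 * |(l : ℝ) * T' - k * T| := (one_mul _).symm
      _ ≤ 2 * Real.pi * |(l : ℝ) * T' - k * T| :=
        mul_le_mul_of_nonneg_right h4 (abs_nonneg _)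
      _ ≤ K₁ := h3
  have hdiff2 : |(l : ℝ) * A - k * D| * T ≤ K₁ * |(D : ℝ)| := by
    have h1 : ((l : ℝ) * A - k * D) * T = ((l : ℝ) * T' - k * T) * D := by
      linear_combination (-(l : ℝ)) * him
    calc |(l : ℝ) * A - k * D| * T = |((l : ℝ) * A - k * D) * T| := by
          rw [abs_mul, abs_of_pos hT0]
      _ = |(l : ℝ) * T' - k * T| * |(D : ℝ)| := by rw [h1, abs_mul]
      _ ≤ K₁ * |(D : ℝ)| := mul_le_mul_of_nonneg_right hdiff (abs_nonneg _)
  by_cases hne2 : (l : ℤ) * A = k * D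
  swap
  · left
    have h1 : (1 : ℝ) ≤ |(l : ℝ) * A - k * D| := by
      have h2 : 1 ≤ |(l : ℤ) * A - k * D| := Int.one_le_abs (sub_ne_zero.2 hne2)
      exact_mod_cast h2
    have h3 : T ≤ K₁ * |(D : ℝ)| := by
      calc T = 1 * T := (one_mul _).symm
        _ ≤ |(l : ℝ) * A - k * D| * T := mul_le_mul_of_nonneg_right h1 hT0.le
        _ ≤ _ := hdiff2
    have h4 : T ^ 2 ≤ K₁ ^ 2 * (D : ℝ) ^ 2 := by
      calc T ^ 2 ≤ (K₁ * |(D : ℝ)|) ^ 2 := pow_le_pow_left₀ hT0.le h3 2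
        _ = K₁ ^ 2 * (D : ℝ) ^ 2 := by rw [mul_pow, sq_abs]
    have h5 : T * T' * (D : ℝ) ^ 2 ≤ K₁ ^ 2 * g.det * (D : ℝ) ^ 2 := by
      have h6 : T * T' * (D : ℝ) ^ 2 = T ^ 2 * (A * D) := by
        linear_combination T * D * him
      have h7 : (g.det : ℝ) = A * D := by
        rw [hdetAD]
        push_cast
        ring
      have h8 : (0 : ℝ) < A * D := by exact_mod_cast hADpos
      rw [h6, h7]
      calc T ^ 2 * ((A : ℝ) * D) ≤ K₁ ^ 2 * (D : ℝ) ^ 2 * ((A : ℝ) * D) :=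
            mul_le_mul_of_nonneg_right h4 h8.le
        _ = _ := by ring
    have h9 : T * T' ≤ K₁ ^ 2 * g.det := le_of_mul_le_mul_right h5 (by positivity)
    calc T * T' ≤ K₁ ^ 2 * g.det := h9
      _ ≤ _ := mul_le_mul_of_nonneg_right (by linarith) hdetR.le
  -- the exact case
  obtain ⟨h0, hAh, hDh⟩ := CuMat_fac hk hne2
  obtain ⟨k', hk'⟩ : ∃ k' : ℕ, k' = k / Nat.gcd k l := ⟨_, rfl⟩
  obtain ⟨l', hl'⟩ : ∃ l' : ℕ, l' = l / Nat.gcd k l := ⟨_, rfl⟩
  rw [← hk'] at hAh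
  rw [← hl'] at hDh
  have hkk : k = Nat.gcd k l * k' := by
    rw [hk', Nat.mul_div_cancel' (Nat.gcd_dvd_left k l)]
  have hll : l = Nat.gcd k l * l' := by
    rw [hl', Nat.mul_div_cancel' (Nat.gcd_dvd_right k l)]
  obtain ⟨g₀, hg₀⟩ : ∃ g₀, g₀ = Nat.gcd k l := ⟨_, rfl⟩
  rw [← hg₀] at hkk hll hlio hg0
  have hh0 : h0 ≠ 0 := by
    rintro rfl
    rw [mul_zero] at hAh
    exact hA0 hAh
  have hk'1 : 1 ≤ k' := by
    rcases Nat.eq_zero_or_pos k' with h | h
    · rw [h, Nat.cast_zero, zero_mul] at hAh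
      exact absurd hAh hA0
    · exact h
  have hl'1 : 1 ≤ l' := by
    rcases Nat.eq_zero_or_pos l' with h | h
    · rw [h, Nat.cast_zero, zero_mul] at hDh
      exact absurd hDh hD0
    · exact h
  have hk'k : k' ≤ k := by
    rw [hkk]
    exact Nat.le_mul_of_pos_left _ hg0
  have hl'l : l' ≤ l := by
    rw [hll]
    exact Nat.le_mul_of_pos_left _ hg0
  have hcop : IsCoprime h0 B := by
    rw [Int.isCoprime_iff_gcd_eq_one]
    apply hprim
    intro i j
    have d1 : ((Int.gcd h0 B : ℕ) : ℤ) ∣ h0 := Int.gcd_dvd_left _ _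
    have d2 : ((Int.gcd h0 B : ℕ) : ℤ) ∣ B := Int.gcd_dvd_right _ _
    fin_cases i <;> fin_cases j
    · show _ ∣ g 0 0
      rw [← hA, hAh]
      exact d1.mul_left _
    · show _ ∣ g 0 1
      rw [← hB]
      exact d2
    · show _ ∣ g 1 0
      rw [hc0]
      exact dvd_zero _
    · show _ ∣ g 1 1
      rw [← hD, hDh]
      exact d1.mul_left _
  have hh0C : (h0 : ℂ) ≠ 0 := by exact_mod_cast hh0
  have hl'C : (l' : ℂ) ≠ 0 := by
    have : l' ≠ 0 := by omega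
    exact_mod_cast this
  have hexact : (l : ℂ) * (τ' : ℂ) - k * (τ : ℂ) = (g₀ : ℂ) * B / h0 := by
    rw [eq_div_iff hh0C]
    have e1 : (l : ℂ) = g₀ * l' := by exact_mod_cast congrArg (Nat.cast : ℕ → ℂ) hll
    have e2 : (k : ℂ) = g₀ * k' := by exact_mod_cast congrArg (Nat.cast : ℕ → ℂ) hkk
    have e3 : (A : ℂ) = k' * h0 := by
      rw [hAh]
      push_cast
      ring
    have e4 : (D : ℂ) = l' * h0 := by
      rw [hDh]
      push_cast
      ring
    rw [e3, e4] at hm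
    rw [e1, e2]
    linear_combination (g₀ : ℂ) * hm
  obtain ⟨m, hmd⟩ : ∃ m : ℕ, m = h0.natAbs := ⟨_, rfl⟩
  have hm0 : 0 < m := by
    rw [hmd]
    exact Int.natAbs_pos.2 hh0
  have hmR : (m : ℝ) = |(h0 : ℝ)| := by
    rw [hmd, Nat.cast_natAbs]
    push_cast
    rfl
  have hm1 : (1 : ℝ) ≤ m := by exact_mod_cast hm0
  have hsgn : ∃ B' : ℤ, IsCoprime (m : ℤ) B' ∧ (g₀ : ℂ) * B / h0 = (g₀ : ℂ) * B' / m := by
    rcases lt_or_gt_of_ne hh0 with hneg | hpos
    · refine ⟨-B, ?_, ?_⟩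
      · have e1 : (m : ℤ) = -h0 := by
          rw [hmd]
          omega
        rw [e1]
        exact IsCoprime.neg_neg hcop
      · have e1 : (m : ℂ) = -(h0 : ℂ) := by
          have e2 : (m : ℤ) = -h0 := by
            rw [hmd]
            omega
          have e3 := congrArg (Int.cast : ℤ → ℂ) e2
          push_cast at e3
          exact e3
        rw [e1]
        push_cast
        rw [mul_neg, neg_div_neg_eq]
    · refine ⟨B, ?_, ?_⟩
      · have e1 : (m : ℤ) = h0 := by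
          rw [hmd]
          omega
        rw [e1]
        exact hcop
      · have e1 : (m : ℂ) = (h0 : ℂ) := by
          have e2 : (m : ℤ) = h0 := by
            rw [hmd]
            omega
          have e3 := congrArg (Int.cast : ℤ → ℂ) e2
          push_cast at e3
          exact e3
        rw [e1]
  obtain ⟨B', hcopB, hBeq⟩ := hsgn
  have hdet2 : (g.det : ℝ) = k' * l' * (m : ℝ) ^ 2 := by
    rw [hdetAD, hAh, hDh, hmR, sq_abs]
    push_cast
    ring
  have hk'R : (1 : ℝ) ≤ k' := by exact_mod_cast hk'1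
  have hl'R : (1 : ℝ) ≤ l' := by exact_mod_cast hl'1
  have hk'kR : (k' : ℝ) ≤ k := by exact_mod_cast hk'k
  have hl'lR : (l' : ℝ) ≤ l := by exact_mod_cast hl'l
  by_cases hbig : (m : ℝ) ≤ C₁
  · right
    rw [hdet2]
    have h1 : (m : ℝ) ^ 2 ≤ C₁ ^ 2 := pow_le_pow_left₀ (by linarith) hbig 2
    have h2 : (k' : ℝ) * l' ≤ k * l :=
      mul_le_mul hk'kR hl'lR (by linarith) (by linarith)
    have h3 : (k' : ℝ) * l' * (m : ℝ) ^ 2 ≤ k * l * C₁ ^ 2 :=
      mul_le_mul h2 h1 (by positivity) (by positivity)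
    linarith
  · push Not at hbig
    left
    have h1 := hlio s m B' hm0 hcopB hbig
    rw [hexact, hBeq] at hed
    rw [← hed] at h1
    have h2 := h1.trans he
    have h3 : -(C₁ * m) ≤ Real.log K + -(c * min T T') := by
      have h4 := Real.log_le_log (Real.exp_pos _) h2
      rw [Real.log_exp, Real.log_mul hK.ne' (Real.exp_pos _).ne', Real.log_exp] at h4
      exact h4
    have h5 : c * min T T' ≤ (C₁ + |Real.log K|) * m := by
      have h6 : |Real.log K| ≤ |Real.log K| * m := le_mul_of_one_le_right (abs_nonneg _) hm1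
      have h7 := le_abs_self (Real.log K)
      rw [add_mul]
      linarith
    have h8 : (l' : ℝ) * T' = k' * T := by
      have e3 : (A : ℝ) = k' * h0 := by
        rw [hAh]
        push_cast
        ring
      have e4 : (D : ℝ) = l' * h0 := by
        rw [hDh]
        push_cast
        ring
      have hh0R : (h0 : ℝ) ≠ 0 := by exact_mod_cast hh0
      rw [e3, e4] at him
      apply mul_right_cancel₀ hh0R
      linear_combination him
    have hkl1 : (1 : ℝ) ≤ (k : ℝ) + l := by linarith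
    have h9 : T ≤ ((k : ℝ) + l) * min T T' := by
      rcases le_total T T' with h | h
      · rw [min_eq_left h]
        exact le_mul_of_one_le_left hT0.le hkl1
      · rw [min_eq_right h]
        calc T ≤ k' * T := le_mul_of_one_le_left hT0.le hk'R
          _ = l' * T' := h8.symm
          _ ≤ ((k : ℝ) + l) * T' := mul_le_mul_of_nonneg_right (by linarith) hT0'.le
    have h10 : T' ≤ ((k : ℝ) + l) * min T T' := by
      rcases le_total T T' with h | h
      · rw [min_eq_left h]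
        calc T' ≤ l' * T' := le_mul_of_one_le_left hT0'.le hl'R
          _ = k' * T := h8
          _ ≤ ((k : ℝ) + l) * T := mul_le_mul_of_nonneg_right (by linarith) hT0.le
      · rw [min_eq_right h]
        exact le_mul_of_one_le_left hT0'.le hkl1
    have h11 : ((k : ℝ) + l) * min T T' ≤ K₂ * m := by
      have h12 : min T T' ≤ (C₁ + |Real.log K|) * m / c := by
        rw [le_div_iff₀ hc]
        linarith
      calc ((k : ℝ) + l) * min T T' ≤ ((k : ℝ) + l) * ((C₁ + |Real.log K|) * m / c) :=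
            mul_le_mul_of_nonneg_left h12 (by linarith)
        _ = K₂ * m := by
          rw [hK₂]
          ring
    have h13 : T * T' ≤ (K₂ * m) * (K₂ * m) :=
      mul_le_mul (h9.trans h11) (h10.trans h11) hT0'.le (by positivity)
    have h14 : (m : ℝ) ^ 2 ≤ g.det := by
      rw [hdet2]
      exact le_mul_of_one_le_left (sq_nonneg _) (one_le_mul_of_one_le_of_one_le hk'R hl'R)
    calc T * T' ≤ (K₂ * m) * (K₂ * m) := h13
      _ = K₂ ^ 2 * (m : ℝ) ^ 2 := by ring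
      _ ≤ K₂ ^ 2 * g.det := mul_le_mul_of_nonneg_left h14 (sq_nonneg _)
      _ ≤ _ := mul_le_mul_of_nonneg_right (by linarith) hdetR.le

end Pool.Agent.LGO.F
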