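import Mathlib
import Pool.Agent.LGO.H.JSize

/-!
# LGO/F (note 3060, cusps): the sizes near a common pole

`X = ‖jInv τ‖`, `Y = ‖jInv τ'‖`, `μ = min X Y`, `T = min τ.im τ'.im`; `Z` is the absolute value of the function with its only pole at
the common pole, `ρ` the relative error in `j(τ) ^ k ≈ β j(τ') ^ l`.

PROOF.  `exp_im_le` (`H/JSize.lean`): `exp (2 π Im τ) ≤ CE (1 + X) ≤ 2 CE X` (`X ≥ 1`), the same for `τ'`, so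
`exp (2 π T) ≤ 2 CE μ`.  `μ ≤ C₁ Z ^ M` and `μ ≥ C ≥ C₁ ^ (M + 1)` give `Z ^ M ≥ C₁ ^ M`, so `Z ≥ C₁`.  Let
`c = 1 / (M m)`.  `ρ ^ m ≤ C₁ / Z`, so `ρ ^ (m M) ≤ C₁ ^ M / Z ^ M ≤ C₁ ^ (M + 1) / μ ≤ 2 CE C₁ ^ (M + 1) exp (- 2 π T)`; so
`ρ ≤ 1` if `C ≥ C₁ ^ (M + 1)`, and `ρ ≤ K₁ exp (- c T)` with `K₁ = (2 CE C₁ ^ (M + 1)) ^ c` or simply with
`K₁ = max 1 (2 CE C₁ ^ (M + 1))`: `(K₁ exp (- c T)) ^ (m M) ≥ K₁ exp (- T) ≥ ρ ^ (m M)` (`c m M = 1`).  Finally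
`X⁻¹, Y⁻¹ ≤ μ⁻¹ ≤ 2 CE exp (- 2 π T) ≤ 2 CE exp (- c T)`.
-/

namespace Pool.Agent.LGO.F

open UpperHalfPlane Pool.Agent.Hhelper14.ZP

theorem cu_num {C₁ : ℝ} (hC₁ : 1 ≤ C₁) {M m : ℕ} (hM : 0 < M) (hm : 0 < m) :
    ∃ K c C : ℝ, 0 < K ∧ 0 < c ∧ 1 ≤ C ∧ ∀ (τ τ' : ℍ) (Z : ℝ), Red (τ : ℂ) → Red (τ' : ℂ) →
      C ≤ ‖jInv τ‖ → C ≤ ‖jInv τ'‖ → 0 ≤ Z → min ‖jInv τ‖ ‖jInv τ'‖ ≤ C₁ * Z ^ M →
      C₁ ≤ Z ∧ ∀ ρ : ℝ, 0 ≤ ρ → ρ ^ m * Z ≤ C₁ → ρ ≤ 1 ∧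
        ρ + ‖jInv τ‖⁻¹ + ‖jInv τ'‖⁻¹ ≤ K * Real.exp (-(c * min τ.im τ'.im)) := by
  obtain ⟨CE, hCE, hexp⟩ := exp_im_le
  obtain ⟨P, hP⟩ : ∃ P : ℝ, P = C₁ ^ (M + 1) := ⟨_, rfl⟩
  have hC₁0 : 0 < C₁ := by linarith
  have hP1 : 1 ≤ P := by rw [hP]; exact one_le_pow₀ hC₁
  obtain ⟨K₁, hK₁⟩ : ∃ K₁ : ℝ, K₁ = max 1 (2 * CE * P) := ⟨_, rfl⟩
  have hK1 : 1 ≤ K₁ := by rw [hK₁]; exact le_max_left _ _
  have hK2 : 2 * CE * P ≤ K₁ := by rw [hK₁]; exact le_max_right _ _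
  have hmM : 0 < m * M := Nat.mul_pos hm hM
  have hmMr : (0 : ℝ) < ((m * M : ℕ) : ℝ) := by exact_mod_cast hmM
  have hmM1 : (1 : ℝ) ≤ ((m * M : ℕ) : ℝ) := by exact_mod_cast hmM
  have hc0 : 0 < 1 / ((m * M : ℕ) : ℝ) := one_div_pos.2 hmMr
  have hc1 : 1 / ((m * M : ℕ) : ℝ) ≤ 1 := by rw [div_le_one hmMr]; exact hmM1
  refine ⟨K₁ + 4 * CE, 1 / ((m * M : ℕ) : ℝ), P, by linarith, hc0, hP1, ?_⟩
  intro τ τ' Z hR hR' hX hY hZ hmin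
  have hT0 : 0 ≤ min τ.im τ'.im := le_min τ.im_pos.le τ'.im_pos.le
  have hμP : P ≤ min ‖jInv τ‖ ‖jInv τ'‖ := le_min hX hY
  have hμ0 : 0 < min ‖jInv τ‖ ‖jInv τ'‖ := by linarith
  have hX0 : 0 < ‖jInv τ‖ := by linarith
  have hY0 : 0 < ‖jInv τ'‖ := by linarith
  -- (1)
  have h1 : Real.exp (2 * Real.pi * min τ.im τ'.im) ≤ 2 * CE * min ‖jInv τ‖ ‖jInv τ'‖ := by
    have hpi := Real.pi_pos
    have ha : Real.exp (2 * Real.pi * min τ.im τ'.im) ≤ 2 * CE * ‖jInv τ‖ := by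
      have h2 : Real.exp (2 * Real.pi * min τ.im τ'.im) ≤ Real.exp (2 * Real.pi * τ.im) :=
        Real.exp_le_exp.2 (mul_le_mul_of_nonneg_left (min_le_left _ _) (by linarith))
      have h3 := hexp τ hR
      have h4 : CE * (1 + ‖jInv τ‖) ≤ CE * (2 * ‖jInv τ‖) :=
        mul_le_mul_of_nonneg_left (by linarith) hCE.le
      linarith
    have hb : Real.exp (2 * Real.pi * min τ.im τ'.im) ≤ 2 * CE * ‖jInv τ'‖ := by
      have h2 : Real.exp (2 * Real.pi * min τ.im τ'.im) ≤ Real.exp (2 * Real.pi * τ'.im) :=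
        Real.exp_le_exp.2 (mul_le_mul_of_nonneg_left (min_le_right _ _) (by linarith))
      have h3 := hexp τ' hR'
      have h4 : CE * (1 + ‖jInv τ'‖) ≤ CE * (2 * ‖jInv τ'‖) :=
        mul_le_mul_of_nonneg_left (by linarith) hCE.le
      linarith
    rcases min_choice ‖jInv τ‖ ‖jInv τ'‖ with h | h
    · rw [h]; exact ha
    · rw [h]; exact hb
  generalize hTd : min τ.im τ'.im = T at *
  generalize hμd : min ‖jInv τ‖ ‖jInv τ'‖ = μ at *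
  have hμX : μ ≤ ‖jInv τ‖ := by rw [← hμd]; exact min_le_left _ _
  have hμY : μ ≤ ‖jInv τ'‖ := by rw [← hμd]; exact min_le_right _ _
  have hpi1 : (1 : ℝ) ≤ 2 * Real.pi := by have := Real.pi_gt_three; linarith
  -- the inverse of `μ`
  have hinv : μ⁻¹ ≤ 2 * CE * Real.exp (-T) := by
    have h2 : Real.exp T ≤ Real.exp (2 * Real.pi * T) := by
      apply Real.exp_le_exp.2
      nlinarith
    have h3 : Real.exp T ≤ 2 * CE * μ := h2.trans h1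
    rw [Real.exp_neg, inv_le_iff_one_le_mul₀ hμ0]
    have h4 : 0 < Real.exp T := Real.exp_pos T
    rw [show 2 * CE * (Real.exp T)⁻¹ * μ = (2 * CE * μ) / Real.exp T by ring, one_le_div h4]
    exact h3
  -- (2)
  have hZM : C₁ ^ M ≤ Z ^ M := by
    have h2 : C₁ * C₁ ^ M ≤ C₁ * Z ^ M := by
      calc C₁ * C₁ ^ M = P := by rw [hP]; ring
        _ ≤ μ := hμP
        _ ≤ C₁ * Z ^ M := hmin
    exact le_of_mul_le_mul_left h2 hC₁0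
  have hCZ : C₁ ≤ Z := le_of_pow_le_pow_left₀ hM.ne' hZ hZM
  refine ⟨hCZ, fun ρ hρ hρZ => ?_⟩
  have hZ0 : 0 < Z := by linarith
  have hρ1 : ρ ≤ 1 := by
    have h2 : ρ ^ m ≤ 1 := by
      by_contra hcon
      push Not at hcon
      have h3 : Z < ρ ^ m * Z := by nlinarith
      linarith
    exact (pow_le_one_iff_of_nonneg hρ hm.ne').1 h2
  -- (3)
  have hρK : ρ ≤ K₁ * Real.exp (-(1 / ((m * M : ℕ) : ℝ) * T)) := by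
    have h2 : (ρ ^ m) ^ M * μ ≤ P := by
      have h3 : (ρ ^ m * Z) ^ M ≤ C₁ ^ M :=
        pow_le_pow_left₀ (mul_nonneg (pow_nonneg hρ _) hZ) hρZ M
      calc (ρ ^ m) ^ M * μ ≤ (ρ ^ m) ^ M * (C₁ * Z ^ M) :=
            mul_le_mul_of_nonneg_left hmin (pow_nonneg (pow_nonneg hρ _) _)
        _ = C₁ * (ρ ^ m * Z) ^ M := by rw [mul_pow]; ring
        _ ≤ C₁ * C₁ ^ M := mul_le_mul_of_nonneg_left h3 hC₁0.le
        _ = P := by rw [hP]; ring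
    have h4 : ρ ^ (m * M) ≤ K₁ * Real.exp (-T) := by
      have h5 : ρ ^ (m * M) ≤ P * μ⁻¹ := by
        rw [pow_mul, ← div_eq_mul_inv, le_div_iff₀ hμ0]
        exact h2
      calc ρ ^ (m * M) ≤ P * μ⁻¹ := h5
        _ ≤ P * (2 * CE * Real.exp (-T)) := mul_le_mul_of_nonneg_left hinv (by linarith)
        _ = 2 * CE * P * Real.exp (-T) := by ring
        _ ≤ K₁ * Real.exp (-T) := mul_le_mul_of_nonneg_right hK2 (Real.exp_pos _).le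
    have h6 : (K₁ * Real.exp (-(1 / ((m * M : ℕ) : ℝ) * T))) ^ (m * M) =
        K₁ ^ (m * M) * Real.exp (-T) := by
      rw [mul_pow, ← Real.exp_nat_mul]
      congr 2
      field_simp
    have h7 : K₁ * Real.exp (-T) ≤ (K₁ * Real.exp (-(1 / ((m * M : ℕ) : ℝ) * T))) ^ (m * M) := by
      rw [h6]
      refine mul_le_mul_of_nonneg_right ?_ (Real.exp_pos _).le
      exact le_self_pow₀ hK1 hmM.ne'
    exact le_of_pow_le_pow_left₀ hmM.ne'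
      (mul_nonneg (by linarith) (Real.exp_pos _).le) (h4.trans h7)
  refine ⟨hρ1, ?_⟩
  have hexpc : Real.exp (-T) ≤ Real.exp (-(1 / ((m * M : ℕ) : ℝ) * T)) := by
    apply Real.exp_le_exp.2
    have : 1 / ((m * M : ℕ) : ℝ) * T ≤ 1 * T := mul_le_mul_of_nonneg_right hc1 hT0
    linarith
  have hinv2 : μ⁻¹ ≤ 2 * CE * Real.exp (-(1 / ((m * M : ℕ) : ℝ) * T)) :=
    hinv.trans (mul_le_mul_of_nonneg_left hexpc (by linarith))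
  have hXi : ‖jInv τ‖⁻¹ ≤ μ⁻¹ := inv_anti₀ hμ0 hμX
  have hYi : ‖jInv τ'‖⁻¹ ≤ μ⁻¹ := inv_anti₀ hμ0 hμY
  nlinarith [hρK, hinv2, hXi, hYi]

end Pool.Agent.LGO.F
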