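import Mathlib
import Pool.Agent.LGO.H.MDeg
import Pool.Agent.LGO.Gal.Fin
import Pool.Agent.LGO.F.CuExp
import Pool.Agent.LGO.F.CuMat
import Pool.Agent.LGO.F.CuGeo
import Pool.Agent.LGO.F.CuNum

/-!
# LGO/F (note 3060, step (2)(b)): `big_pair`

PROOF.  `cu_geo` for the triple `![i, j, j]`: `r, Φ, k, l, α, C₁, M, m`.  For every `t : Fin r`: `B t` with `‖s (α t)‖ ≤ B t` for
all `s` (`conj_bdd`, `G/Ineq.lean`); `cu_exp (k t) (l t) (B t)`: constant `C₂ t`; `cu_num hC₁ hM (m t)`: `K t, c t, C₃ t`;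
`cu_mat` for `k t, l t, α t` and the constants `C₂ t * K t`, `c t`: `C₄ t`.  (If `r = 0` the third statement of `cu_geo` says that
`s x_i`, `s x_j` are never both large, take `C > C₁`.)
`E` = the set of the `x ∈ V` for which there is an isogeny of a degree `≤ B₀` between `x i` and `x j`, `B₀ ≥` all `C₄ t`
(`finite_isogDeg_le`, `Gal/Fin.lean`).
Let `x ∈ V`, `x ∉ E`, `s`, with `log ‖s (x i)‖, log ‖s (x j)‖ ≥ C`.  `exists_red`: `jInv τ = s (x i)`, `jInv τ' = s (x j)`, reduced.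
`norm_j_le` (`H/JSize.lean`; see also `Use_log_le`, `H/Use.lean`, not imported): `log ‖jInv τ‖ ≤ log CJ + 2 π Im τ`, so `Im τ, Im τ'` are `≥ C₄ t` if `C` is large, and
`log ‖jInv τ‖ ≤ 7 Im τ + |log CJ| ≤ C₅ Im τ`.  The index `t` of `cu_geo`, `Z = ‖s (Φ t)‖`; `cu_num`: `C₁ ≤ Z`, so the local
inequalities of `cu_geo` hold; `ρ = ‖s (x i) ^ k - s α s (x j) ^ l‖ / ‖s (x j) ^ l‖` has `ρ ^ m Z ≤ C₁`; so `ρ ≤ 1` and `cu_exp`
(`ε = ρ`) gives `‖exp (2 π i (l τ' - k τ)) - s α‖ ≤ C₂ K exp (- c min)`.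
`exists_prim_mdeg` (`H/MDeg.lean`) for `τ, τ'` (`isogDeg_map_iff`, `Gal/Inv.lean`): primitive `g`, `det g = mdeg (s (x i)) (s (x j))
= mdeg (x i) (x j)` (`mdeg_map`).  `cu_mat`: `Im τ Im τ' ≤ C₄ mdeg`, which gives the claim, or `mdeg ≤ C₄ ≤ B₀`, which is
excluded by `x ∉ E` (`mdeg_spec`).
-/

namespace Pool.Agent.LGO.F

open MvPolynomial UpperHalfPlane Pool.Agent.Hhelper14.ZP Pool.Agent.Hhelper14.ZPL

theorem big_pair {n : ℕ} {V : Set (Fin n → ℂ)} (hV : Pool.Agent.Hhelper14.ZPL.IsIrredClosed V)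
    (hVk : KClosed V) (hdim : Pool.Agent.Hhelper14.ZPL.dim V = 1) {i j : Fin n} (hij : i ≠ j)
    (hi : ∀ c : ℂ, ∃ x ∈ V, x i ≠ c) (hj : ∀ c : ℂ, ∃ x ∈ V, x j ≠ c)
    (hmod : ∀ g : GL (Fin 2) ℚ, 0 < g.det.val →
      ∃ x ∈ V, ¬ ∃ τ : ℍ, x i = jInv τ ∧ x j = jInv (gact g τ)) :
    ∃ (C : ℕ) (E : Set (Fin n → ℂ)), 1 ≤ C ∧ E.Finite ∧ ∀ x ∈ V, x ∉ E →
      (∃ N, 0 < N ∧ IsogDeg N (x i) (x j)) → ∀ s : ℂ ≃+* ℂ, (C : ℝ) ≤ Real.log ‖s (x i)‖ →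
      (C : ℝ) ≤ Real.log ‖s (x j)‖ →
      Real.log ‖s (x i)‖ * Real.log ‖s (x j)‖ ≤ (C : ℝ) * mdeg (x i) (x j) := by
  obtain ⟨r, Φ, k, l, α, C₁, M, m, hC₁, hM, hpos, -, hpl, hloc⟩ :=
    cu_geo hV hVk hdim ![i, j, j] hi hj
  choose B hB using fun t : Fin r => conj_bdd (α t)
  choose C₂ hC₂ hexp using fun t : Fin r => cu_exp (k t) (l t) (B t)
  choose K c C₃ hK hc hC₃ hnum using fun t : Fin r => cu_num hC₁ hM (hpos t).2.2.2
  choose C₄ hC₄ hmat using fun t : Fin r =>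
    cu_mat (hpos t).1 (hpos t).2.1 (hpos t).2.2.1 (K := C₂ t * K t) (c := c t)
      (mul_pos (lt_of_lt_of_le one_pos (hC₂ t)) (hK t)) (hc t)
  obtain ⟨CJ, hCJ, hjle⟩ := norm_j_le
  -- a bound for all constants
  set S : ℝ := C₁ + ∑ t, (C₂ t + C₃ t + C₄ t) with hS
  have hterm : ∀ t, 0 ≤ C₂ t + C₃ t + C₄ t := fun t => by
    have := hC₂ t; have := hC₃ t; have := hC₄ t; linarith
  have hSsum : ∀ t, C₂ t + C₃ t + C₄ t ≤ ∑ t, (C₂ t + C₃ t + C₄ t) := fun t =>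
    Finset.single_le_sum (f := fun t => C₂ t + C₃ t + C₄ t) (fun t _ => hterm t) (Finset.mem_univ t)
  have hSnn : 0 ≤ ∑ t, (C₂ t + C₃ t + C₄ t) := Finset.sum_nonneg fun t _ => hterm t
  have hS1 : C₁ ≤ S := by rw [hS]; linarith
  have hS2 : ∀ t, C₂ t ≤ S := fun t => by
    have := hSsum t; have := hC₃ t; have := hC₄ t; rw [hS]; linarith
  have hS3 : ∀ t, C₃ t ≤ S := fun t => by
    have := hSsum t; have := hC₂ t; have := hC₄ t; rw [hS]; linarith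
  have hS4 : ∀ t, C₄ t ≤ S := fun t => by
    have := hSsum t; have := hC₂ t; have := hC₃ t; rw [hS]; linarith
  have hSone : 1 ≤ S := hC₁.trans hS1
  set Λ : ℝ := |Real.log CJ| + 7 with hΛ
  have hΛ0 : 0 ≤ Λ := by positivity
  set C : ℕ := ⌈|Real.log CJ| + 7 * S⌉₊ + ⌈Λ ^ 2 * S⌉₊ + 1 with hC
  have hCr : (|Real.log CJ| + 7 * S) + Λ ^ 2 * S + 1 ≤ (C : ℝ) := by
    rw [hC]
    push_cast
    have h1 := Nat.le_ceil (|Real.log CJ| + 7 * S)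
    have h2 := Nat.le_ceil (Λ ^ 2 * S)
    linarith
  have hC7 : |Real.log CJ| + 7 * S ≤ (C : ℝ) := by
    have : 0 ≤ Λ ^ 2 * S := by positivity
    linarith
  have hCL : Λ ^ 2 * S ≤ (C : ℝ) := by
    have : 0 ≤ |Real.log CJ| + 7 * S := by positivity
    linarith
  have hCS : S ≤ (C : ℝ) := by
    have := abs_nonneg (Real.log CJ)
    linarith
  refine ⟨C, {x ∈ V | ∃ d : ℕ, 0 < d ∧ d ≤ ⌈S⌉₊ ∧ IsogDeg d (x i) (x j)}, by omega,
    finite_isogDeg_le hV hdim hij hmod ⌈S⌉₊, ?_⟩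
  intro x hxV hxE hx s hsi hsj
  -- sizes
  have big : ∀ z : ℂ, (C : ℝ) ≤ Real.log ‖z‖ → (C : ℝ) ≤ ‖z‖ := by
    intro z hz
    have hC0 : (0 : ℝ) < C := lt_of_lt_of_le (by linarith) hCS
    have hz0 : 0 < ‖z‖ := by
      rcases (norm_nonneg z).eq_or_lt with h | h
      · rw [← h, Real.log_zero] at hz
        linarith
      · exact h
    have := Real.log_le_sub_one_of_pos hz0
    linarith
  have hbi := big _ hsi
  have hbj := big _ hsj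
  obtain ⟨τ, hτ, hjτ⟩ := exists_red (s (x i))
  obtain ⟨τ', hτ', hjτ'⟩ := exists_red (s (x j))
  -- logarithmic sizes
  have him : ∀ σ : ℍ, Red (σ : ℂ) → (C : ℝ) ≤ Real.log ‖jInv σ‖ →
      S ≤ σ.im ∧ Real.log ‖jInv σ‖ ≤ Λ * σ.im := by
    intro σ hσ h
    have hpos' : 0 < ‖jInv σ‖ := by
      have := big _ h
      linarith
    have h1 := Real.log_le_log hpos' (hjle σ hσ)
    rw [Real.log_mul hCJ.ne' (Real.exp_pos _).ne', Real.log_exp] at h1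
    have h2 : 2 * Real.pi * σ.im ≤ 7 * σ.im := by
      have := Real.pi_lt_d2
      have := σ.im_pos
      nlinarith
    have h3 := le_abs_self (Real.log CJ)
    have h4 : S ≤ σ.im := by linarith
    refine ⟨h4, ?_⟩
    rw [hΛ]
    have h5 : |Real.log CJ| * 1 ≤ |Real.log CJ| * σ.im :=
      mul_le_mul_of_nonneg_left (hSone.trans h4) (abs_nonneg _)
    linarith
  obtain ⟨hi1, hi2⟩ := him τ hτ (by rw [hjτ]; exact hsi)
  obtain ⟨hj1, hj2⟩ := him τ' hτ' (by rw [hjτ']; exact hsj)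
  -- the place
  obtain ⟨t, hZ1, hZ2⟩ := hpl s x hxV (hS1.trans (hCS.trans hbi)) (hS1.trans (hCS.trans hbj))
  change min ‖s (x i)‖ ‖s (x j)‖ ≤ _ at hZ2
  set Z : ℝ := ‖s (aeval (x ∘ ![i, j, j]) (Φ t) : ℂ)‖ with hZ
  obtain ⟨hZ3, hnum'⟩ := hnum t τ τ' Z hτ hτ'
    (by rw [hjτ]; exact (hS3 t).trans (hCS.trans hbi))
    (by rw [hjτ']; exact (hS3 t).trans (hCS.trans hbj)) (norm_nonneg _)
    (by rw [hjτ, hjτ']; exact hZ2)
  obtain ⟨-, -, hl3⟩ := hloc t s x hxV hZ3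
  change ‖s (x i) ^ k t - s (α t : ℂ) * s (x j) ^ l t‖ ^ m t * Z ≤
    C₁ * ‖s (x j) ^ l t‖ ^ m t at hl3
  have hden : 0 < ‖s (x j) ^ l t‖ := by
    rw [norm_pow]
    exact pow_pos (by linarith) _
  set ρ : ℝ := ‖s (x i) ^ k t - s (α t : ℂ) * s (x j) ^ l t‖ / ‖s (x j) ^ l t‖ with hρ
  have hρ0 : 0 ≤ ρ := by positivity
  obtain ⟨hρ1, hρ2⟩ := hnum' ρ hρ0 (by
    rw [hρ, div_pow, div_mul_eq_mul_div, div_le_iff₀ (pow_pos hden _)]
    exact hl3)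
  have he := hexp t τ τ' (s (α t : ℂ)) ρ hτ hτ' (hB t s) hρ0 hρ1
    (by rw [hjτ]; exact (hS2 t).trans (hCS.trans hbi))
    (by rw [hjτ']; exact (hS2 t).trans (hCS.trans hbj))
    (by rw [hjτ, hjτ', hρ, div_mul_cancel₀ _ hden.ne'])
  have hC2 : 0 ≤ C₂ t := by have := hC₂ t; linarith
  have he2 := he.trans (mul_le_mul_of_nonneg_left hρ2 hC2)
  rw [← mul_assoc] at he2
  -- the matrix
  have hex : ∃ N, 0 < N ∧ IsogDeg N (jInv τ) (jInv τ') := by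
    obtain ⟨N, hN, h⟩ := hx
    refine ⟨N, hN, ?_⟩
    rw [hjτ, hjτ', isogDeg_map_iff s hN]
    exact h
  obtain ⟨g, hdet, hgpos, hprim, hmaps⟩ := exists_prim_mdeg hex
  rw [hjτ, hjτ', mdeg_map] at hdet
  have hdet' : (g.det : ℝ) = (mdeg (x i) (x j) : ℝ) := by exact_mod_cast hdet
  rcases hmat t s τ τ' g hgpos hprim hmaps ((hS4 t).trans hi1) ((hS4 t).trans hj1) he2 with h | h
  · rw [hdet'] at h
    have h0 : 0 ≤ (mdeg (x i) (x j) : ℝ) := Nat.cast_nonneg _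
    have hlj : 0 ≤ Real.log ‖jInv τ'‖ := by
      rw [hjτ']
      exact (Nat.cast_nonneg C).trans hsj
    have h1 : Real.log ‖jInv τ‖ * Real.log ‖jInv τ'‖ ≤ (Λ * τ.im) * (Λ * τ'.im) :=
      mul_le_mul hi2 hj2 hlj (mul_nonneg hΛ0 τ.im_pos.le)
    have h2 : (Λ * τ.im) * (Λ * τ'.im) = Λ ^ 2 * (τ.im * τ'.im) := by ring
    have h3 : Λ ^ 2 * (τ.im * τ'.im) ≤ Λ ^ 2 * (S * mdeg (x i) (x j)) :=
      mul_le_mul_of_nonneg_left (h.trans (mul_le_mul_of_nonneg_right (hS4 t) h0)) (by positivity)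
    have h4 : Λ ^ 2 * (S * mdeg (x i) (x j)) ≤ (C : ℝ) * mdeg (x i) (x j) := by
      rw [← mul_assoc]
      exact mul_le_mul_of_nonneg_right hCL h0
    rw [hjτ, hjτ'] at h1
    linarith
  · exfalso
    apply hxE
    obtain ⟨h1, h2⟩ := mdeg_spec hx
    refine ⟨hxV, mdeg (x i) (x j), h1, ?_, h2⟩
    rw [hdet'] at h
    have h3 : (mdeg (x i) (x j) : ℝ) ≤ (⌈S⌉₊ : ℝ) := (h.trans (hS4 t)).trans (Nat.le_ceil S)
    exact_mod_cast h3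

end Pool.Agent.LGO.F
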