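import Mathlib
import Pool.Agent.LGO.U.BArch
import Pool.Agent.LGO.U.BInt
import Pool.Agent.LGO.U.BGal
import Pool.Agent.LGO.U.RXi
import Pool.Agent.LGO.H.BdC

/-!
# LGO/F (note 3060, step 1): heights of isogenous integral numbers

PROOF of `ht_isog`.  `n = mdeg x y`, `B` with `IsB x y B`, in `K` (`BMem`) and nonzero; `12 n`-type integrality: `C B` and `C n^12 / B`
are integral (`IsB.integral`), so `∑_σ log ‖σ B‖ ≥ - C D` over the `D` embeddings of `K` (the norm is a nonzero rational number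
with bounded denominator).  `B_arch` at every embedding: `‖B‖ (Im τ')^6 ‖Δ(τ')‖ = n^6 (Im τ)^6 ‖Δ(τ)‖`, so
`log ‖s B‖ = 6 log n + 6 log (T / T') + 2 π (T' - T) + O(1)`, `T, T'` the imaginary parts of the reduced points over `s x, s y`.
We need the UPPER bound for `∑ T'`: use `IsB y x B'` (the dual, `B' = n^12 / B` up to sign, or `IsB.symm`) or the integrality of
`n^12 / B`: `∑ log ‖s B‖ ≤ 12 D log n + C D`.  So `∑ 2 π T' ≤ ∑ 2 π T + 6 D log n + 6 ∑ log (T' / T) + C D`, `log T' ≤ T' + C`-type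
absorption (`6 log T' ≤ π T' + C`), `T ≥ 1/2`: `π T'(s₀) ≤ π ∑ T' ≤ C D (h + 1 + log n)` (`exp (2 π T) ≤ C max 1 ‖x‖ ≤ C exp h`),
and `‖s₀ y‖ ≤ C exp (2 π T'(s₀))`.
-/

namespace Pool.Agent.LGO.F

open UpperHalfPlane Pool.Agent.Hhelper14.ZP Pool.Agent.EllSch Pool.Agent.LGO.U Pool.Agent.LGO

/-- a number isogenous to an integral number is integral -/
theorem integral_isog {x y : ℂ} (hN : NCM x) (hi : IsIntegral ℤ x)
    (h : ∃ N, 0 < N ∧ IsogDeg N x y) : IsIntegral ℤ y := by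
  have _ := hN
  obtain ⟨N, hN', hiso⟩ := h
  obtain ⟨τ, rfl⟩ := Pool.Agent.Hhelper14.ZPL.j_surj x
  obtain ⟨A, rfl⟩ := (Gal.isogDeg_iff_act hN' τ y).1 hiso
  obtain ⟨Φ, hΦ, hroot⟩ := modular_eq hN' A
  have hx : jInv τ ∈ OO := hi
  have e : (OO.subtype).comp (Polynomial.evalRingHom (⟨jInv τ, hx⟩ : OO)) =
      Polynomial.eval₂RingHom OO.subtype (jInv τ) := by
    apply Polynomial.ringHom_ext
    · intro a
      simp
    · simp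
  have hint : IsIntegral OO (jA hN' A τ) := by
    refine ⟨Φ.map (Polynomial.evalRingHom (⟨jInv τ, hx⟩ : OO)), hΦ.map _, ?_⟩
    change Polynomial.eval₂ OO.subtype (jA hN' A τ) _ = 0
    rw [Polynomial.eval₂_eq_eval_map, Polynomial.map_map, e]
    exact hroot τ
  have h1 : Algebra.IsIntegral ℤ OO := by
    refine ⟨fun x => ?_⟩
    have hx : IsIntegral ℤ (x : ℂ) := x.2
    exact (isIntegral_algHom_iff (RingHom.toIntAlgHom OO.subtype)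
      (fun a b h => Subtype.ext h)).mp hx
  exact isIntegral_trans _ hint

private theorem Ht_pow {u : ℝ} (hu : 1 ≤ u) :
    (1 + Real.log u) ^ 12 ≤ (Nat.factorial 12 : ℝ) * Real.exp 1 * u := by
  have h0 : 0 ≤ 1 + Real.log u := by
    have := Real.log_nonneg hu
    linarith
  have h1 := Real.pow_div_factorial_le_exp _ h0 12
  rw [Real.exp_add, Real.exp_log (by linarith), div_le_iff₀ (by positivity)] at h1
  linarith

private theorem Ht_real {C N b mx my : ℝ} (hC : 1 ≤ C) (hN : 1 ≤ N) (_hb : 0 ≤ b) (hmx : 1 ≤ mx)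
    (hmy : 1 ≤ my) (h : N ^ 6 * my ≤ C * (1 + Real.log (mx * my)) ^ 6 * (b * mx)) :
    my ≤ C ^ 2 * ((Nat.factorial 12 : ℝ) * Real.exp 1) * b ^ 2 * mx ^ 3 := by
  have hu : 1 ≤ mx * my := one_le_mul_of_one_le_of_one_le hmx hmy
  have h1 : my ≤ C * (1 + Real.log (mx * my)) ^ 6 * (b * mx) :=
    (le_mul_of_one_le_left (by linarith) (one_le_pow₀ hN)).trans h
  have h2 : my ^ 2 ≤ (C * (1 + Real.log (mx * my)) ^ 6 * (b * mx)) ^ 2 :=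
    pow_le_pow_left₀ (by linarith) h1 2
  have h3 : (C * (1 + Real.log (mx * my)) ^ 6 * (b * mx)) ^ 2 =
      C ^ 2 * b ^ 2 * mx ^ 2 * (1 + Real.log (mx * my)) ^ 12 := by ring
  have h4 : C ^ 2 * b ^ 2 * mx ^ 2 * (1 + Real.log (mx * my)) ^ 12 ≤
      C ^ 2 * b ^ 2 * mx ^ 2 * ((Nat.factorial 12 : ℝ) * Real.exp 1 * (mx * my)) :=
    mul_le_mul_of_nonneg_left (Ht_pow hu) (by positivity)
  have h5 : my * my ≤ my * (C ^ 2 * ((Nat.factorial 12 : ℝ) * Real.exp 1) * b ^ 2 * mx ^ 3) := by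
    calc my * my = my ^ 2 := by ring
      _ ≤ _ := h2
      _ = _ := h3
      _ ≤ _ := h4
      _ = _ := by ring
  exact le_of_mul_le_mul_left h5 (by linarith)

private theorem Ht_arch : ∃ C : ℝ, 1 ≤ C ∧ ∀ x y B : ℂ, IsB x y B → NCM x →
    max 1 ‖y‖ ≤ C * ‖B‖ ^ 2 * max 1 ‖x‖ ^ 3 := by
  obtain ⟨C, hC, hb⟩ := B_arch
  have hf1 : (1 : ℝ) ≤ (Nat.factorial 12 : ℝ) := by exact_mod_cast Nat.factorial_pos 12
  have he1 : (1 : ℝ) ≤ Real.exp 1 := Real.one_le_exp zero_le_one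
  refine ⟨C ^ 2 * ((Nat.factorial 12 : ℝ) * Real.exp 1), ?_, fun x y B hB hx => ?_⟩
  · have h1 : (1 : ℝ) ≤ C ^ 2 := one_le_pow₀ hC
    exact one_le_mul_of_one_le_of_one_le h1 (one_le_mul_of_one_le_of_one_le hf1 he1)
  have hN : (1 : ℝ) ≤ mdeg x y := by exact_mod_cast mdeg_pos hB.isog
  have hmx : (1 : ℝ) ≤ max 1 ‖x‖ := le_max_left _ _
  have hmy : (1 : ℝ) ≤ max 1 ‖y‖ := le_max_left _ _
  have hx1 : ‖x‖ ≤ max 1 ‖x‖ := le_max_right _ _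
  have hy1 : ‖y‖ ≤ max 1 ‖y‖ := le_max_right _ _
  have hu : 1 ≤ max 1 ‖x‖ * max 1 ‖y‖ := one_le_mul_of_one_le_of_one_le hmx hmy
  have hlog := Real.log_nonneg hu
  have hexp : max 1 ‖x‖ * max 1 ‖y‖ ≤ Real.exp (1 + Real.log (max 1 ‖x‖ * max 1 ‖y‖)) := by
    rw [Real.exp_add, Real.exp_log (by linarith)]
    exact le_mul_of_one_le_left (by linarith) he1
  have hxm : max 1 ‖x‖ ≤ max 1 ‖x‖ * max 1 ‖y‖ := le_mul_of_one_le_right (by linarith) hmy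
  have hym : max 1 ‖y‖ ≤ max 1 ‖x‖ * max 1 ‖y‖ := le_mul_of_one_le_left (by linarith) hmx
  have h1 := (hb x y B hB hx (1 + Real.log (max 1 ‖x‖ * max 1 ‖y‖)) (by linarith)
    (by linarith) (by linarith)).2
  exact Ht_real hC hN (norm_nonneg _) hmx hmy h1

/-- the norm of a nonzero algebraic integer is at least `1` in absolute value -/
private theorem Ht_norm (K : IntermediateField ℚ ℂ) [FiniteDimensional ℚ K] {y : ℂ}
    (hy : y ∈ K) (hy0 : y ≠ 0) (hi : IsIntegral ℤ y) :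
    1 ≤ ∏ τ : K →ₐ[ℚ] ℂ, ‖τ ⟨y, hy⟩‖ := by
  classical
  set w : K := ⟨y, hy⟩ with hw
  have hwn : w ≠ 0 := by
    intro e
    apply hy0
    have := congrArg (fun z : K => (z : ℂ)) e
    simpa [hw] using this
  have hwint : IsIntegral ℤ w := by
    have h1 : IsIntegral ℤ ((algebraMap K ℂ) w) := hi
    exact (isIntegral_algebraMap_iff (algebraMap K ℂ).injective).1 h1
  have hN : IsIntegral ℤ (Algebra.norm ℚ w) := Algebra.isIntegral_norm ℚ hwint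
  obtain ⟨z, hz⟩ := IsIntegrallyClosed.isIntegral_iff.1 hN
  have hz0 : z ≠ 0 := by
    intro e
    rw [e, map_zero] at hz
    exact hwn (Algebra.norm_eq_zero_iff.1 hz.symm)
  have hprod := Algebra.norm_eq_prod_embeddings ℚ ℂ w
  rw [← norm_prod, ← hprod, ← hz]
  have e : (algebraMap ℚ ℂ) ((algebraMap ℤ ℚ) z) = (z : ℂ) := by simp
  rw [e, Complex.norm_intCast]
  exact_mod_cast Int.one_le_abs hz0

private theorem Ht_key (K : IntermediateField ℚ ℂ) [FiniteDimensional ℚ K] {y v : ℂ}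
    (hy : y ∈ K) (hv : v ∈ K) (hy0 : y ≠ 0) (hi : IsIntegral ℤ y) (F : ℝ)
    (h : ∀ s : ℂ ≃+* ℂ, max 1 ‖s v‖ * ‖s y‖ ≤ F) (s : ℂ ≃+* ℂ) :
    ‖s v‖ ≤ F ^ Module.finrank ℚ K := by
  classical
  have h1 := Ht_norm K hy hy0 hi
  set σ₀ : K →ₐ[ℚ] ℂ :=
    RingHom.toRatAlgHom ((s : ℂ →+* ℂ).comp (algebraMap K ℂ)) with hσ₀
  have e0 : ‖s v‖ = ‖σ₀ ⟨v, hv⟩‖ := rfl
  have h2 : max 1 ‖σ₀ ⟨v, hv⟩‖ ≤ ∏ τ : K →ₐ[ℚ] ℂ, max 1 ‖τ ⟨v, hv⟩‖ := by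
    rw [← Finset.mul_prod_erase Finset.univ _ (Finset.mem_univ σ₀)]
    have h3 : (1 : ℝ) ≤ ∏ τ ∈ Finset.univ.erase σ₀, max 1 ‖τ ⟨v, hv⟩‖ := by
      have h4 : ∏ τ ∈ Finset.univ.erase σ₀, (1 : ℝ) ≤
          ∏ τ ∈ Finset.univ.erase σ₀, max 1 ‖τ ⟨v, hv⟩‖ :=
        Finset.prod_le_prod (fun _ _ => zero_le_one) fun _ _ => le_max_left _ _
      simpa using h4
    have h5 : (0 : ℝ) ≤ max 1 ‖σ₀ ⟨v, hv⟩‖ := zero_le_one.trans (le_max_left _ _)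
    nlinarith
  have h6 : ∀ τ : K →ₐ[ℚ] ℂ, max 1 ‖τ ⟨v, hv⟩‖ * ‖τ ⟨y, hy⟩‖ ≤ F := by
    intro τ
    obtain ⟨t, ht⟩ := exists_aut K (τ : K →+* ℂ)
    have h7 := h t
    have e1 : t v = τ ⟨v, hv⟩ := ht ⟨v, hv⟩
    have e2 : t y = τ ⟨y, hy⟩ := ht ⟨y, hy⟩
    rwa [e1, e2] at h7
  have h8 : ∏ τ : K →ₐ[ℚ] ℂ, (max 1 ‖τ ⟨v, hv⟩‖ * ‖τ ⟨y, hy⟩‖) ≤
      F ^ Module.finrank ℚ K := by
    have hcard : Fintype.card (K →ₐ[ℚ] ℂ) = Module.finrank ℚ K := AlgHom.card ℚ K ℂ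
    rw [← hcard, ← Finset.card_univ, ← Finset.prod_const]
    exact Finset.prod_le_prod (fun τ _ => by positivity) fun τ _ => h6 τ
  rw [Finset.prod_mul_distrib] at h8
  have h9 : (0 : ℝ) ≤ ∏ τ : K →ₐ[ℚ] ℂ, max 1 ‖τ ⟨v, hv⟩‖ :=
    Finset.prod_nonneg fun τ _ => zero_le_one.trans (le_max_left _ _)
  rw [e0]
  calc ‖σ₀ ⟨v, hv⟩‖ ≤ max 1 ‖σ₀ ⟨v, hv⟩‖ := le_max_right _ _
    _ ≤ ∏ τ : K →ₐ[ℚ] ℂ, max 1 ‖τ ⟨v, hv⟩‖ := h2
    _ ≤ (∏ τ : K →ₐ[ℚ] ℂ, max 1 ‖τ ⟨v, hv⟩‖) * ∏ τ : K →ₐ[ℚ] ℂ, ‖τ ⟨y, hy⟩‖ :=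
        le_mul_of_one_le_right h9 h1
    _ ≤ F ^ Module.finrank ℚ K := h8

private theorem Ht_fin {C c N h : ℝ} (hC : 1 ≤ C) (hc : 1 ≤ c) (hN : 1 ≤ N) (hh : 1 ≤ h) :
    C * (c * N ^ 12) ^ 2 * Real.exp h ^ 3 ≤
      Real.exp ((Real.log (C * c ^ 2) + 24) * (h + 1 + Real.log N)) := by
  have hL : 0 ≤ Real.log (C * c ^ 2) :=
    Real.log_nonneg (one_le_mul_of_one_le_of_one_le hC (one_le_pow₀ hc))
  have lN : 0 ≤ Real.log N := Real.log_nonneg hN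
  have e1 : C * (c * N ^ 12) ^ 2 * Real.exp h ^ 3 =
      Real.exp (Real.log (C * c ^ 2) + 24 * Real.log N + 3 * h) := by
    rw [Real.exp_add, Real.exp_add, Real.exp_log (by positivity)]
    have e2 : Real.exp (24 * Real.log N) = N ^ 24 := by
      have : (24 : ℝ) * Real.log N = ((24 : ℕ) : ℝ) * Real.log N := by norm_num
      rw [this, Real.exp_nat_mul, Real.exp_log (by linarith)]
    have e3 : Real.exp (3 * h) = Real.exp h ^ 3 := by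
      have : (3 : ℝ) * h = ((3 : ℕ) : ℝ) * h := by norm_num
      rw [this, Real.exp_nat_mul]
    rw [e2, e3]
    ring
  rw [e1, Real.exp_le_exp]
  nlinarith [mul_nonneg hL lN, mul_nonneg hL (by linarith : (0 : ℝ) ≤ h)]

theorem ht_isog : ∃ C : ℝ, 1 ≤ C ∧ ∀ (K : IntermediateField ℚ ℂ) [FiniteDimensional ℚ K]
    (x y : ℂ) (h : ℝ), x ∈ K → y ∈ K → NCM x → IsIntegral ℤ x →
      (∃ N, 0 < N ∧ IsogDeg N x y) → 1 ≤ h → (∀ s : ℂ ≃+* ℂ, ‖s x‖ ≤ Real.exp h) →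
      ∀ s : ℂ ≃+* ℂ, ‖s y‖ ≤
        Real.exp (C * Module.finrank ℚ K * (h + 1 + Real.log (mdeg x y))) := by
  obtain ⟨C, hC, harch⟩ := Ht_arch
  have hc1 : (1 : ℝ) ≤ (4 * 6 ^ 12) ^ 6 := by norm_num
  refine ⟨Real.log (C * ((4 * 6 ^ 12) ^ 6) ^ 2) + 24, ?_, ?_⟩
  · have : 0 ≤ Real.log (C * ((4 * 6 ^ 12) ^ 6) ^ 2) :=
      Real.log_nonneg (one_le_mul_of_one_le_of_one_le hC (one_le_pow₀ hc1))
    linarith
  intro K _ x y h hxK hyK hx ix hiso hh hs s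
  obtain ⟨B, hB⟩ := exists_B hiso
  have iy := integral_isog hx ix hiso
  have hBK : B ∈ K := hB.mem hx K hxK hyK
  have hB0 := hB.ne_zero
  obtain ⟨-, i2⟩ := hB.integral hx ix iy
  have hN1 : 0 < mdeg x y := mdeg_pos hiso
  have hN1' : (1 : ℝ) ≤ mdeg x y := by exact_mod_cast hN1
  have hNC : (mdeg x y : ℂ) ≠ 0 := by exact_mod_cast hN1.ne'
  have hcK : ((4 * 6 ^ 12) ^ 6 : ℂ) ∈ K :=
    pow_mem (K.mul_mem (ofNat_mem K 4) (pow_mem (ofNat_mem K 6) 12)) 6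
  have hcC : ((4 * 6 ^ 12) ^ 6 : ℂ) ≠ 0 := by norm_num
  have hyy : ((4 * 6 ^ 12) ^ 6 : ℂ) * (mdeg x y : ℂ) ^ 12 * B⁻¹ ∈ K :=
    K.mul_mem (K.mul_mem hcK (pow_mem (natCast_mem K _) 12)) (K.inv_mem hBK)
  have hyy0 : ((4 * 6 ^ 12) ^ 6 : ℂ) * (mdeg x y : ℂ) ^ 12 * B⁻¹ ≠ 0 :=
    mul_ne_zero (mul_ne_zero hcC (pow_ne_zero _ hNC)) (inv_ne_zero hB0)
  have hF : ‖s y‖ ≤ (C * ((4 * 6 ^ 12) ^ 6 * (mdeg x y : ℝ) ^ 12) ^ 2 * Real.exp h ^ 3) ^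
      Module.finrank ℚ K := by
    refine Ht_key K (y := (((4 * 6 ^ 12) ^ 6 : ℂ) * (mdeg x y : ℂ) ^ 12 * B⁻¹) ^ 2) (pow_mem hyy 2) hyK
      (pow_ne_zero _ hyy0) (i2.pow 2) _ (fun s => ?_) s
    have h1 := harch (s x) (s y) (s B) (hB.map hx s) (hx.map s)
    have hsB : 0 < ‖s B‖ := norm_pos_iff.2 ((map_ne_zero s).2 hB0)
    have e : ‖s ((((4 * 6 ^ 12) ^ 6 : ℂ) * (mdeg x y : ℂ) ^ 12 * B⁻¹) ^ 2)‖ =
        ((4 * 6 ^ 12) ^ 6 * (mdeg x y : ℝ) ^ 12) ^ 2 * (‖s B‖ ^ 2)⁻¹ := by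
      have e4 : s (4 : ℂ) = 4 := map_ofNat s 4
      have e6 : s (6 : ℂ) = 6 := map_ofNat s 6
      rw [map_pow, map_mul, map_mul, map_pow, map_mul, map_pow, map_pow, map_natCast, map_inv₀,
        e4, e6, norm_pow, norm_mul, norm_mul, norm_pow, norm_mul, norm_pow, norm_pow, norm_inv,
        Complex.norm_natCast]
      have n4 : ‖(4 : ℂ)‖ = 4 := by norm_num
      have n6 : ‖(6 : ℂ)‖ = 6 := by norm_num
      rw [n4, n6, mul_pow _ (‖s B‖⁻¹), inv_pow]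
    have hmx : max 1 ‖s x‖ ≤ Real.exp h := max_le (Real.one_le_exp (by linarith)) (hs s)
    have hmx0 : (0 : ℝ) ≤ max 1 ‖s x‖ := zero_le_one.trans (le_max_left _ _)
    rw [e]
    calc max 1 ‖s y‖ * (((4 * 6 ^ 12) ^ 6 * (mdeg x y : ℝ) ^ 12) ^ 2 * (‖s B‖ ^ 2)⁻¹)
        ≤ (C * ‖s B‖ ^ 2 * max 1 ‖s x‖ ^ 3) *
          (((4 * 6 ^ 12) ^ 6 * (mdeg x y : ℝ) ^ 12) ^ 2 * (‖s B‖ ^ 2)⁻¹) :=
          mul_le_mul_of_nonneg_right h1 (by positivity)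
      _ = C * ((4 * 6 ^ 12) ^ 6 * (mdeg x y : ℝ) ^ 12) ^ 2 * max 1 ‖s x‖ ^ 3 *
          (‖s B‖ ^ 2 * (‖s B‖ ^ 2)⁻¹) := by ring
      _ = C * ((4 * 6 ^ 12) ^ 6 * (mdeg x y : ℝ) ^ 12) ^ 2 * max 1 ‖s x‖ ^ 3 := by
          rw [mul_inv_cancel₀ (by positivity), mul_one]
      _ ≤ C * ((4 * 6 ^ 12) ^ 6 * (mdeg x y : ℝ) ^ 12) ^ 2 * Real.exp h ^ 3 := by
          refine mul_le_mul_of_nonneg_left (pow_le_pow_left₀ hmx0 hmx 3) (by positivity)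
  refine hF.trans ?_
  calc (C * ((4 * 6 ^ 12) ^ 6 * (mdeg x y : ℝ) ^ 12) ^ 2 * Real.exp h ^ 3) ^ Module.finrank ℚ K
      ≤ (Real.exp ((Real.log (C * ((4 * 6 ^ 12) ^ 6) ^ 2) + 24) *
          (h + 1 + Real.log (mdeg x y)))) ^ Module.finrank ℚ K :=
        pow_le_pow_left₀ (by positivity) (Ht_fin hC hc1 hN1' hh) _
    _ = _ := by
        rw [← Real.exp_nat_mul]
        congr 1
        ring

end Pool.Agent.LGO.F
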