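import Mathlib
import Pool.Agent.LGO.F.Ht
import Pool.Agent.LGO.H.Use
import Pool.Agent.LGO.H.BdC

/-!
# LGO/F (note 3060, assembly): the isogeny estimate with the height of one curve only
-/

namespace Pool.Agent.LGO.F

open UpperHalfPlane Pool.Agent.Hhelper14.ZP

/-- `1 + log u ≤ k u ^ (1 / k)` -/
theorem as_log {u : ℝ} (hu : 1 ≤ u) {k : ℕ} (hk : 0 < k) :
    1 + Real.log u ≤ k * u ^ ((1 : ℝ) / k) := by
  have hk0 : (0 : ℝ) < k := by exact_mod_cast hk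
  have hk1 : (1 : ℝ) ≤ k := by exact_mod_cast hk
  have hu0 : 0 < u := by linarith
  have h1 : Real.log u = k * Real.log (u ^ ((1 : ℝ) / k)) := by
    rw [Real.log_rpow hu0]
    field_simp
  have h2 : Real.log (u ^ ((1 : ℝ) / k)) ≤ u ^ ((1 : ℝ) / k) - 1 :=
    Real.log_le_sub_one_of_pos (Real.rpow_pos_of_pos hu0 _)
  rw [h1]
  nlinarith

/-- absorption of a logarithm: `N ≤ (A (1 + log N)) ^ c` implies `N ≤ (2 c A) ^ (2 c)` -/
theorem as_absorb {N A : ℝ} (hN : 1 ≤ N) (hA : 1 ≤ A) {c : ℕ} (hc : 0 < c)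
    (h : N ≤ (A * (1 + Real.log N)) ^ c) : N ≤ (2 * c * A) ^ (2 * c) := by
  have hN0 : 0 < N := by linarith
  have hc0 : (0 : ℝ) < c := by exact_mod_cast hc
  have h2c : 0 < 2 * c := by omega
  have h1 := as_log hN h2c
  have hlog : 0 ≤ Real.log N := Real.log_nonneg hN
  have h2 : N ≤ (A * ((2 * c : ℕ) * N ^ ((1 : ℝ) / (2 * c : ℕ)))) ^ c := by
    refine h.trans ?_
    gcongr
  have h3 : (N ^ ((1 : ℝ) / (2 * c : ℕ))) ^ c = N ^ ((1 : ℝ) / 2) := by
    rw [← Real.rpow_natCast, ← Real.rpow_mul hN0.le]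
    congr 1
    push_cast
    field_simp
  have h4 : N ≤ (2 * c * A) ^ c * N ^ ((1 : ℝ) / 2) := by
    calc N ≤ (A * ((2 * c : ℕ) * N ^ ((1 : ℝ) / (2 * c : ℕ)))) ^ c := h2
      _ = (2 * c * A) ^ c * (N ^ ((1 : ℝ) / (2 * c : ℕ))) ^ c := by
          push_cast
          rw [← mul_pow]
          ring
      _ = _ := by rw [h3]
  have h5 : N = N ^ ((1 : ℝ) / 2) * N ^ ((1 : ℝ) / 2) := by
    rw [← Real.rpow_add hN0]
    norm_num
  have h6 : 0 < N ^ ((1 : ℝ) / 2) := Real.rpow_pos_of_pos hN0 _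
  have h7 : N ^ ((1 : ℝ) / 2) ≤ (2 * c * A) ^ c := by
    by_contra h8
    rw [not_le] at h8
    have h9 : (2 * c * A) ^ c * N ^ ((1 : ℝ) / 2) < N ^ ((1 : ℝ) / 2) * N ^ ((1 : ℝ) / 2) := by
      gcongr
    rw [← h5] at h9
    linarith
  calc N = N ^ ((1 : ℝ) / 2) * N ^ ((1 : ℝ) / 2) := h5
    _ ≤ (2 * c * A) ^ c * (2 * c * A) ^ c := by gcongr
    _ = (2 * c * A) ^ (2 * c) := by rw [two_mul c, pow_add]

/-- the isogeny estimate and the height estimate, with the height of one of the two curves only -/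
theorem as_isog : ∃ C : ℕ, 1 ≤ C ∧ ∀ (K : IntermediateField ℚ ℂ) [FiniteDimensional ℚ K]
    (x y : ℂ) (h : ℝ), x ∈ K → y ∈ K → NCM x → IsIntegral ℤ x →
      (∃ N, 0 < N ∧ IsogDeg N x y) → 1 ≤ h → (∀ s : ℂ ≃+* ℂ, ‖s x‖ ≤ Real.exp h) →
      (mdeg x y : ℝ) ≤ (C * Module.finrank ℚ K * h) ^ C ∧
      ∀ s : ℂ ≃+* ℂ, ‖s y‖ ≤
        Real.exp (C * Module.finrank ℚ K * (h + 1 + Real.log (mdeg x y))) := by
  obtain ⟨C₁, hC₁, hht⟩ := ht_isog
  obtain ⟨c, hisog⟩ := isog_use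
  obtain ⟨C₂, hC₂⟩ := exists_nat_ge C₁
  have hC₂1 : (1 : ℝ) ≤ C₂ := hC₁.trans hC₂
  set A₀ : ℕ := 4 * C₂ with hA₀
  refine ⟨2 * (c + 1) * A₀, ?_, ?_⟩
  · have h1 : 1 ≤ C₂ := by exact_mod_cast hC₂1
    have h2 : 1 ≤ A₀ := by omega
    nlinarith
  intro K _ x y h hx hy hNx hix hiso hh hs
  have hD : (1 : ℝ) ≤ Module.finrank ℚ K := by
    exact_mod_cast Module.finrank_pos (R := ℚ) (M := K)
  set D : ℝ := (Module.finrank ℚ K : ℝ) with hDdef
  have hy2 := hht K x y h hx hy hNx hix hiso hh hs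
  have hiy := integral_isog hNx hix hiso
  have hN1 : (1 : ℝ) ≤ mdeg x y := by exact_mod_cast mdeg_pos hiso
  set N : ℝ := (mdeg x y : ℝ) with hN
  have hlog : 0 ≤ Real.log N := Real.log_nonneg hN1
  have hA₀R : (A₀ : ℝ) = 4 * C₂ := by rw [hA₀]; push_cast; ring
  have hNy : NCM y := by
    obtain ⟨M, hM, hI⟩ := hiso
    exact NCM.of_isog hM hI hNx
  set M : ℝ := A₀ * D * h * (1 + Real.log N) with hM
  have hDh : 1 ≤ D * h := by nlinarith
  have e1 : 1 ≤ C₂ * D * h := by nlinarith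
  have hM4 : 4 * (C₂ * D * h) ≤ M := by
    rw [hM, hA₀R]
    nlinarith
  have hM2 : 2 ≤ M := by linarith
  have hDM : D ≤ M := by
    have : D ≤ C₂ * D * h := by nlinarith [mul_le_mul hC₂1 hh (by norm_num) (by linarith)]
    linarith
  have hhM : h ≤ M := by
    have : h ≤ C₂ * D * h := by nlinarith [mul_le_mul hC₂1 hD (by norm_num) (by linarith)]
    linarith
  have hyM : C₁ * D * (h + 1 + Real.log N) ≤ M := by
    have h1 : h + 1 + Real.log N ≤ 2 * h * (1 + Real.log N) := by nlinarith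
    calc C₁ * D * (h + 1 + Real.log N) ≤ C₂ * D * (2 * h * (1 + Real.log N)) := by gcongr
      _ ≤ M := by
        rw [hM, hA₀R]
        have : 0 ≤ C₂ * D * h * (1 + Real.log N) := by positivity
        nlinarith
  have hbx : Bd K M x := bd_of_aut hx hix (by linarith) fun s =>
    (hs s).trans (Real.exp_le_exp.mpr hhM)
  have hby : Bd K M y := bd_of_aut hy hiy (by linarith) fun s =>
    (hy2 s).trans (Real.exp_le_exp.mpr hyM)
  have h1 := hisog K M x y hM2 hDM hbx hby hNx hNy hiso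
  have h2 : N ≤ (A₀ * D * h * (1 + Real.log N)) ^ (c + 1) := by
    refine h1.trans ?_
    rw [← hM]
    exact pow_le_pow_right₀ (by linarith) (Nat.le_succ c)
  have hA : 1 ≤ A₀ * D * h := by
    rw [hA₀R]
    nlinarith
  have h3 := as_absorb hN1 hA (Nat.succ_pos c) h2
  have hcast : ((2 * (c + 1) * A₀ : ℕ) : ℝ) = 2 * (c + 1) * A₀ := by push_cast; ring
  have hc1 : (1 : ℝ) ≤ 2 * (c + 1) := by
    have : (0 : ℝ) ≤ c := Nat.cast_nonneg c
    linarith
  constructor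
  · rw [hcast]
    have h4 : (2 * ((c + 1 : ℕ) : ℝ) * (A₀ * D * h)) = 2 * (c + 1) * A₀ * D * h := by
      push_cast
      ring
    rw [h4] at h3
    refine h3.trans (pow_le_pow_right₀ ?_ ?_)
    · have : 2 * (c + 1) * A₀ * D * h = (2 * (c + 1)) * (A₀ * D * h) := by ring
      rw [this]
      nlinarith
    · have h5 : 1 ≤ A₀ := by
        have h1 : 1 ≤ C₂ := by exact_mod_cast hC₂1
        omega
      nlinarith
  · intro s
    refine (hy2 s).trans (Real.exp_le_exp.mpr ?_)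
    rw [hcast]
    have h5 : C₁ ≤ 2 * (c + 1) * A₀ := by
      rw [hA₀R]
      nlinarith
    have h6 : 0 ≤ h + 1 + Real.log N := by linarith
    gcongr

end Pool.Agent.LGO.F
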