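import Mathlib
import Pool.Agent.LGO.F.Ht
import Pool.Agent.LGO.H.JSize
import Pool.Agent.LGO.H.MDeg
import Pool.Agent.LGO.Gal.NCM

/-!
# LGO/F (note 3060, step 4): the scalars at the centre are bounded

PROOF.  `s x₀ = j(τ)` with `τ` reduced.  `y' = j(m τ)`: the matrix `(m, 0; 0, 1)` is primitive of determinant `m`, so `mdeg (s x₀) y' = m`
(`exists_prim_mdeg`, `NonCM.prim_unique` in `H/MDeg.lean`; `s x₀` is not CM: `NCM.map` in `Gal/NCM.lean`).  `y = s⁻¹ y'` has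
`mdeg x₀ y = m` (`mdeg_map`), so `y ∈ K` by the hypothesis; `ht_isog`: `‖y'‖ = ‖s y‖ ≤ exp (C D (h + 1 + log m))`.
`exp (2 π m Im τ) ≤ C (1 + ‖j(m τ)‖)` (`m τ` is a translate of a reduced point: `Im (m τ) ≥ 1` for `m ≥ 2`, see
`exp_im_le` in `H/JSize.lean` and `dom_size` in `CK/Disc.lean`; for `m = 1` `τ` is reduced).  Take logarithms.
-/

namespace Pool.Agent.LGO.F

open UpperHalfPlane Pool.Agent.Hhelper14.ZP Pool.Agent.EllSch

/-- the lower bound for the modular invariant holds on the whole upper half plane -/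
theorem Cen_exp_im_le : ∃ C : ℝ, 0 < C ∧ ∀ τ : ℍ,
    Real.exp (2 * Real.pi * τ.im) ≤ C * (1 + ‖jInv τ‖) := by
  obtain ⟨J, hJ, hJ0, hj⟩ := exists_J
  obtain ⟨δ, hδ, hb⟩ := Metric.continuousAt_iff.1 hJ.continuousAt_zero (1 / 2) (by norm_num)
  have hδi : 0 < 1 / δ := one_div_pos.2 hδ
  refine ⟨2 + 1 / δ, by linarith, fun τ => ?_⟩
  have h2 : Real.exp (-(2 * Real.pi * τ.im)) * Real.exp (2 * Real.pi * τ.im) = 1 := by
    rw [← Real.exp_add, neg_add_cancel, Real.exp_zero]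
  have hE := Real.exp_pos (2 * Real.pi * τ.im)
  have hj0 := norm_nonneg (jInv τ)
  rcases lt_or_ge (‖Function.Periodic.qParam 1 (τ : ℂ)‖) δ with h | h
  · have h3 : dist (J (Function.Periodic.qParam 1 (τ : ℂ))) (J 0) < 1 / 2 := by
      apply hb
      rwa [dist_zero_right]
    rw [hJ0, dist_eq_norm] at h3
    have h4 : 1 / 2 ≤ ‖J (Function.Periodic.qParam 1 (τ : ℂ))‖ := by
      have h5 : ‖(1 : ℂ)‖ ≤ ‖J (Function.Periodic.qParam 1 (τ : ℂ))‖ +
          ‖J (Function.Periodic.qParam 1 (τ : ℂ)) - 1‖ := by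
        have h6 := norm_sub_le (J (Function.Periodic.qParam 1 (τ : ℂ)))
          (J (Function.Periodic.qParam 1 (τ : ℂ)) - 1)
        rwa [sub_sub_cancel] at h6
      rw [norm_one] at h5
      linarith
    rw [← hj τ, norm_mul, JSize_norm_q] at h4
    have h7 : Real.exp (2 * Real.pi * τ.im) ≤ 2 * ‖jInv τ‖ := by
      have h8 := mul_le_mul_of_nonneg_right h4 hE.le
      rw [mul_assoc ‖jInv τ‖, h2, mul_one] at h8
      linarith
    have h9 : 0 ≤ 1 / δ * (1 + ‖jInv τ‖) := mul_nonneg hδi.le (by linarith)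
    nlinarith
  · rw [JSize_norm_q] at h
    have h3 : Real.exp (2 * Real.pi * τ.im) ≤ 1 / δ := by
      rw [le_div_iff₀ hδ]
      have h4 := mul_le_mul_of_nonneg_right h hE.le
      rw [h2] at h4
      linarith
    have h9 : 0 ≤ 1 / δ * ‖jInv τ‖ := mul_nonneg hδi.le hj0
    nlinarith

theorem cen : ∃ C : ℝ, 1 ≤ C ∧ ∀ (K : IntermediateField ℚ ℂ) [FiniteDimensional ℚ K]
    (x₀ : ℂ) (m : ℕ) (h : ℝ), x₀ ∈ K → NCM x₀ → IsIntegral ℤ x₀ → 1 ≤ h → 0 < m →
      (∀ s : ℂ ≃+* ℂ, ‖s x₀‖ ≤ Real.exp h) →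
      (∀ y, (∃ N, 0 < N ∧ IsogDeg N x₀ y) → mdeg x₀ y = m → y ∈ K) →
      ∀ (s : ℂ ≃+* ℂ) (τ : ℍ), Red (τ : ℂ) → jInv τ = s x₀ →
        m * (τ : ℂ).im ≤ C * Module.finrank ℚ K * (h + 1 + Real.log m) := by
  obtain ⟨CE, hCE, hE⟩ := Cen_exp_im_le
  obtain ⟨CH, hCH, hH⟩ := ht_isog
  have hE0 := abs_nonneg (Real.log CE)
  refine ⟨|Real.log CE| + 1 + CH, by linarith, ?_⟩
  intro K _ x₀ m h hx hN hi hh hm hs hK s τ hr hj
  have hm0 : (0 : ℝ) < m := by exact_mod_cast hm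
  have him : 0 < ((m : ℂ) * (τ : ℂ)).im := by
    rw [Complex.mul_im, Complex.natCast_re, Complex.natCast_im, zero_mul, add_zero]
    exact mul_pos hm0 τ.im_pos
  set τ' : ℍ := ⟨(m : ℂ) * (τ : ℂ), him⟩ with hτ'
  have hτc : (τ' : ℂ) = (m : ℂ) * (τ : ℂ) := rfl
  have hmaps : Maps !![(m : ℤ), 0; 0, 1] (τ : ℂ) (τ' : ℂ) := by
    unfold Maps
    rw [hτc]
    simp
  have hdet : (!![(m : ℤ), 0; 0, 1] : Matrix (Fin 2) (Fin 2) ℤ).det = m := by
    rw [Matrix.det_fin_two_of]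
    ring
  have hprim : Prim !![(m : ℤ), 0; 0, 1] := by
    intro d hd
    have h1 : (d : ℤ) ∣ 1 := hd 1 1
    exact Nat.dvd_one.mp (by exact_mod_cast h1)
  have hsN : NCM (s x₀) := hN.map s
  have hnc : NonCM (τ : ℂ) := by
    rw [← ncm_jInv, hj]
    exact hsN
  have hmd : mdeg (s x₀) (jInv τ') = m := by
    have h1 := det_eq_mdeg hnc (by rw [hdet]; exact_mod_cast hm) hprim hmaps
    rw [hdet, hj] at h1
    exact_mod_cast h1.symm
  have hiso : IsogDeg m (s x₀) (jInv τ') :=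
    ⟨τ, τ', _, hdet, hmaps, hj.symm, rfl⟩
  set y : ℂ := s.symm (jInv τ') with hy
  have hsy : s y = jInv τ' := s.apply_symm_apply _
  have hisoy : IsogDeg m x₀ y := by
    have h1 := isogDeg_map s.symm hm hiso
    rwa [s.symm_apply_apply] at h1
  have hmy : mdeg x₀ y = m := by
    rw [← mdeg_map s, hsy]
    exact hmd
  have hyK : y ∈ K := hK y ⟨m, hm, hisoy⟩ hmy
  have hb := hH K x₀ y h hx hyK hN hi ⟨m, hm, hisoy⟩ hh hs s
  rw [hsy, hmy] at hb
  have hD : (1 : ℝ) ≤ Module.finrank ℚ K := by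
    have : 0 < Module.finrank ℚ K := Module.finrank_pos
    exact_mod_cast this
  have hlm : 0 ≤ Real.log m := Real.log_nonneg (by exact_mod_cast hm)
  set D : ℝ := (Module.finrank ℚ K : ℝ) with hDdef
  set U : ℝ := h + 1 + Real.log m with hU
  have hU1 : 1 ≤ U := by rw [hU]; linarith
  have hDU : 1 ≤ D * U := by nlinarith
  have h1 := hE τ'
  have h3 : 1 + ‖jInv τ'‖ ≤ 2 * Real.exp (CH * D * U) := by
    have h4 : 1 ≤ Real.exp (CH * D * U) := Real.one_le_exp (by positivity)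
    linarith
  have h5 : Real.exp (2 * Real.pi * τ'.im) ≤ CE * (2 * Real.exp (CH * D * U)) :=
    h1.trans (mul_le_mul_of_nonneg_left h3 hCE.le)
  have h6 := Real.log_le_log (Real.exp_pos _) h5
  rw [Real.log_exp, Real.log_mul hCE.ne' (by positivity), Real.log_mul two_ne_zero
    (Real.exp_pos _).ne', Real.log_exp] at h6
  have hτim : τ'.im = m * (τ : ℂ).im := by
    change (τ' : ℂ).im = _
    rw [hτc, Complex.mul_im, Complex.natCast_re, Complex.natCast_im, zero_mul, add_zero]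
  rw [hτim] at h6
  have h7 := le_abs_self (Real.log CE)
  have h8 := Real.log_two_lt_d9
  have h9 : 0 ≤ (m : ℝ) * (τ : ℂ).im := by
    rw [← hτim]
    exact τ'.im_pos.le
  have h10 := Real.pi_gt_three
  have h11 : (m : ℝ) * (τ : ℂ).im ≤ 2 * Real.pi * (m * (τ : ℂ).im) := by nlinarith
  have h12 : |Real.log CE| + 1 ≤ (|Real.log CE| + 1) * (D * U) :=
    le_mul_of_one_le_right (by linarith) hDU
  calc (m : ℝ) * (τ : ℂ).im ≤ |Real.log CE| + 1 + CH * D * U := by linarith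
    _ ≤ (|Real.log CE| + 1) * (D * U) + CH * D * U := by linarith
    _ = (|Real.log CE| + 1 + CH) * D * U := by ring

end Pool.Agent.LGO.F
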