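import Mathlib
import Pool.Agent.LGO.F.AsIsog
import Pool.Agent.LGO.F.Cen
import Pool.Agent.LGO.Q.Ent
import Pool.Agent.LGO.Gal.Basic
import Pool.Agent.LGO.Gal.Inv
import Pool.Agent.LGO.H.JSize

/-!
# LGO/F (note 3060, assembly): heights in an isogeny class, all constants absorbed in powers of `M ≥ 2`
-/

namespace Pool.Agent.LGO.F

open UpperHalfPlane Pool.Agent.Hhelper14.ZP

/-- constants are bounded by powers of `M ≥ 2` -/
theorem as_const (C : ℝ) : ∃ k : ℕ, ∀ M : ℝ, 2 ≤ M → C ≤ M ^ k := by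
  obtain ⟨k, hk⟩ := pow_unbounded_of_one_lt C (by norm_num : (1 : ℝ) < 2)
  exact ⟨k, fun M hM => hk.le.trans (by gcongr)⟩

theorem as_mono {M : ℝ} (hM : 2 ≤ M) {a b : ℕ} (h : a ≤ b) : M ^ a ≤ M ^ b :=
  pow_le_pow_right₀ (by linarith) h

/-- heights and degrees in an isogeny class -/
theorem as_up : ∃ c : ℕ, ∀ (K : IntermediateField ℚ ℂ) [FiniteDimensional ℚ K]
    (x y : ℂ) (M L : ℝ), 2 ≤ M → (Module.finrank ℚ K : ℝ) ≤ M → x ∈ K → y ∈ K → NCM x →
      IsIntegral ℤ x → (∃ N, 0 < N ∧ IsogDeg N x y) → 1 ≤ L → (∀ s : ℂ ≃+* ℂ, ‖s x‖ ≤ Real.exp L) →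
      ∀ s : ℂ ≃+* ℂ, ‖s y‖ ≤ Real.exp (M ^ c * L) := by
  obtain ⟨C, hC, h⟩ := as_isog
  have hCR : (1 : ℝ) ≤ C := by exact_mod_cast hC
  obtain ⟨k, hk⟩ := as_const C
  refine ⟨3 * k + 4, fun K _ x y M L hM hD hx hy hN hi hI hL hs s => ?_⟩
  obtain ⟨h1, h2⟩ := h K x y L hx hy hN hi hI hL hs
  refine (h2 s).trans (Real.exp_le_exp.mpr ?_)
  have hD1 : (1 : ℝ) ≤ Module.finrank ℚ K := by
    exact_mod_cast Module.finrank_pos (R := ℚ) (M := K)
  set D : ℝ := (Module.finrank ℚ K : ℝ) with hDdef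
  have hCk := hk M hM
  have hM0 : 0 < M := by linarith
  have hN1 : (1 : ℝ) ≤ mdeg x y := by exact_mod_cast mdeg_pos hI
  have hCDL : 1 ≤ C * D * L := by
    have : 1 ≤ C * D := by nlinarith
    nlinarith
  have h3 : Real.log (mdeg x y) ≤ C * (C * D * L) := by
    have h4 : Real.log (mdeg x y) ≤ Real.log ((C * D * L) ^ C) :=
      Real.log_le_log (by linarith) h1
    rw [Real.log_pow] at h4
    have h5 : Real.log (C * D * L) ≤ C * D * L := by
      have := Real.log_le_sub_one_of_pos (show 0 < C * D * L by linarith)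
      linarith
    have : (C : ℝ) * Real.log (C * D * L) ≤ C * (C * D * L) := by gcongr
    linarith
  have h6 : L + 1 + Real.log (mdeg x y) ≤ M ^ (2 * k + 3) * L := by
    have e1 : (C : ℝ) * (C * D * L) ≤ M ^ k * (M ^ k * M * L) := by gcongr
    have e2 : M ^ k * (M ^ k * M * L) = M ^ (2 * k + 1) * L := by ring
    have e3 : L + 1 ≤ M * L := by nlinarith
    have e4 : M * L ≤ M ^ (2 * k + 1) * L := by
      have : M ^ 1 ≤ M ^ (2 * k + 1) := as_mono hM (by omega)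
      rw [pow_one] at this
      gcongr
    have e5 : M ^ (2 * k + 1) * L + M ^ (2 * k + 1) * L ≤ M ^ (2 * k + 3) * L := by
      have : M ^ (2 * k + 3) = M ^ (2 * k + 1) * (M * M) := by ring
      rw [this]
      have h7 : 0 < M ^ (2 * k + 1) * L := by positivity
      nlinarith [mul_pos h7 hM0]
    linarith
  calc C * D * (L + 1 + Real.log (mdeg x y)) ≤ M ^ k * M * (M ^ (2 * k + 3) * L) := by
        have : 0 ≤ L + 1 + Real.log (mdeg x y) := by
          have := Real.log_nonneg hN1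
          linarith
        gcongr
    _ = M ^ (3 * k + 4) * L := by ring

/-- heights in an isogeny class: lower bound -/
theorem as_down : ∃ c : ℕ, ∀ (K : IntermediateField ℚ ℂ) [FiniteDimensional ℚ K]
    (x y : ℂ) (M L : ℝ), 2 ≤ M → (Module.finrank ℚ K : ℝ) ≤ M → x ∈ K → y ∈ K → NCM x →
      IsIntegral ℤ x → (∃ N, 0 < N ∧ IsogDeg N x y) → M ^ c ≤ L →
      (∃ s : ℂ ≃+* ℂ, L ≤ M * Real.log ‖s y‖) → ∃ s : ℂ ≃+* ℂ, L ≤ M ^ c * Real.log ‖s x‖ := by
  obtain ⟨c, h⟩ := as_up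
  refine ⟨c + 2, fun K _ x y M L hM hD hx hy hN hi hI hL hs => ?_⟩
  obtain ⟨s', hs'⟩ := hs
  by_contra hcon
  push Not at hcon
  have hM0 : 0 < M := by linarith
  have hP : 0 < M ^ (c + 2) := by positivity
  have hh : 1 ≤ L / M ^ (c + 2) := by rwa [le_div_iff₀ hP, one_mul]
  have h1 := h K x y M (L / M ^ (c + 2)) hM hD hx hy hN hi hI hh (fun s => by
    have h2 := hcon s
    rcases (norm_nonneg (s x)).eq_or_lt with h0 | h0
    · rw [← h0]
      positivity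
    · rw [← Real.log_le_iff_le_exp h0, le_div_iff₀ hP]
      linarith) s'
  have hL0 : 0 < L := lt_of_lt_of_le hP hL
  have h3 : 0 < Real.log ‖s' y‖ := by
    by_contra h4
    rw [not_lt] at h4
    nlinarith
  have h4 : 0 < ‖s' y‖ := by
    by_contra h5
    have : ‖s' y‖ = 0 := le_antisymm (not_lt.mp h5) (norm_nonneg _)
    rw [this, Real.log_zero] at h3
    exact lt_irrefl _ h3
  rw [← Real.log_le_iff_le_exp h4] at h1
  have h5 : M ^ c * (L / M ^ (c + 2)) = L / M ^ 2 := by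
    rw [pow_add]
    field_simp
  rw [h5] at h1
  have h6 : L ≤ M * (L / M ^ 2) := hs'.trans (mul_le_mul_of_nonneg_left h1 hM0.le)
  have h7 : M * (L / M ^ 2) = L / M := by field_simp
  rw [h7, le_div_iff₀ hM0] at h6
  nlinarith

/-- two reduced points related by an integral matrix of determinant `N` -/
theorem as_im {g : Matrix (Fin 2) (Fin 2) ℤ} {τ τ' : ℂ} (hτ : Red τ) (hτ' : Red τ')
    (hdet : 0 < g.det) (hg : Maps g τ τ') : τ'.im ≤ 2 * g.det * τ.im := by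
  have h1 := norm_sq_denom hg
  have h2 := hτ.im_pos
  have h3 := hτ'.im_pos
  have hd : (0 : ℝ) < g.det := by exact_mod_cast hdet
  have him : 3 / 4 ≤ τ.im ^ 2 := by
    have h4 : 1 ≤ ‖τ‖ ^ 2 := one_le_pow₀ hτ.one_le
    rw [Complex.sq_norm, Complex.normSq_apply] at h4
    have h5 : τ.re ^ 2 ≤ (1 / 2) ^ 2 := sq_le_sq' (abs_le.mp hτ.re_le).1 (abs_le.mp hτ.re_le).2
    nlinarith
  have hnorm : 1 / 2 ≤ ‖(g 1 0 : ℂ) * τ + (g 1 1 : ℂ)‖ ^ 2 := by
    rcases eq_or_ne (g 1 0) 0 with h0 | h0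
    · have h4 : g 1 1 ≠ 0 := by
        intro h5
        rw [Matrix.det_fin_two, h0, h5] at hdet
        simp at hdet
      have h5 : (1 : ℝ) ≤ |(g 1 1 : ℝ)| := by exact_mod_cast Int.one_le_abs h4
      have h6 : ‖(g 1 0 : ℂ) * τ + (g 1 1 : ℂ)‖ = |(g 1 1 : ℝ)| := by
        rw [h0, Int.cast_zero, zero_mul, zero_add, ← Complex.ofReal_intCast, Complex.norm_real,
          Real.norm_eq_abs]
      rw [h6]
      nlinarith
    · have h5 : (1 : ℝ) ≤ |(g 1 0 : ℝ)| := by exact_mod_cast Int.one_le_abs h0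
      have h6 := Complex.abs_im_le_norm ((g 1 0 : ℂ) * τ + (g 1 1 : ℂ))
      have h7 : ((g 1 0 : ℂ) * τ + (g 1 1 : ℂ)).im = (g 1 0 : ℝ) * τ.im := by
        simp [Complex.mul_im]
      rw [h7, abs_mul, abs_of_pos h2] at h6
      have h8 : τ.im ≤ |(g 1 0 : ℝ)| * τ.im := by nlinarith
      have h9 : τ.im ^ 2 ≤ ‖(g 1 0 : ℂ) * τ + (g 1 1 : ℂ)‖ ^ 2 :=
        pow_le_pow_left₀ h2.le (h8.trans h6) 2
      linarith
  nlinarith

/-- the sizes of isogenous numbers at a place -/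
theorem as_place : ∃ C : ℝ, 1 ≤ C ∧ ∀ (x y : ℂ), (∃ N, 0 < N ∧ IsogDeg N x y) →
    ∀ s : ℂ ≃+* ℂ, Real.log ‖s x‖ ≤ C * mdeg x y * max 1 (Real.log ‖s y‖) := by
  obtain ⟨C₁, hC₁, hle⟩ := norm_j_le
  obtain ⟨C₂, hC₂, hge⟩ := exp_im_le
  have hp := Real.pi_pos
  have hp4 := Real.pi_le_four
  refine ⟨|Real.log C₁| + 4 * (|Real.log C₂| + 2) + 1, by
    linarith [abs_nonneg (Real.log C₁), abs_nonneg (Real.log C₂)], fun x y hI s => ?_⟩
  obtain ⟨τ, hτ, hτx⟩ := exists_red (s x)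
  obtain ⟨τ', hτ', hτy⟩ := exists_red (s y)
  have hI' : ∃ N, 0 < N ∧ IsogDeg N (jInv τ') (jInv τ) := by
    obtain ⟨N, hN, h⟩ := hI
    refine ⟨N, hN, ?_⟩
    rw [hτx, hτy]
    exact (isogDeg_map_iff s hN).mpr h.symm
  obtain ⟨g, hg, hgpos, -, hmaps⟩ := exists_prim_mdeg hI'
  have hN : g.det = mdeg x y := by
    rw [hg, hτx, hτy, mdeg_map, mdeg_symm]
  have h1 := as_im hτ' hτ hgpos hmaps
  have hNR : (g.det : ℝ) = mdeg x y := by rw [hN]; simp
  rw [hNR] at h1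
  have hN1 : (1 : ℝ) ≤ mdeg x y := by exact_mod_cast mdeg_pos hI
  set N : ℝ := (mdeg x y : ℝ) with hNdef
  set m : ℝ := max 1 (Real.log ‖s y‖) with hm
  have hm1 : 1 ≤ m := le_max_left _ _
  -- the size of `τ'`
  have h2 := hge τ' hτ'
  rw [hτy] at h2
  have h3 : 2 * Real.pi * (τ' : ℂ).im ≤ |Real.log C₂| + 1 + m := by
    have h4 : 1 + ‖s y‖ ≤ 2 * Real.exp m := by
      rcases le_or_gt ‖s y‖ 1 with h5 | h5
      · have := Real.one_le_exp (show 0 ≤ m by linarith)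
        linarith
      · have h6 : Real.log ‖s y‖ ≤ m := le_max_right _ _
        rw [Real.log_le_iff_le_exp (by linarith)] at h6
        linarith
    have h5 : Real.exp (2 * Real.pi * τ'.im) ≤ C₂ * (2 * Real.exp m) :=
      h2.trans (mul_le_mul_of_nonneg_left h4 hC₂.le)
    rw [← Real.le_log_iff_exp_le (by positivity), Real.log_mul hC₂.ne' (by positivity),
      Real.log_mul (by norm_num) (Real.exp_pos _).ne', Real.log_exp] at h5
    have h6 : Real.log 2 ≤ 1 := by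
      have := Real.log_le_sub_one_of_pos (show (0 : ℝ) < 2 by norm_num)
      linarith
    have h7 := le_abs_self (Real.log C₂)
    change 2 * Real.pi * τ'.im ≤ _
    linarith
  -- the size of `x`
  have h4 := hle τ hτ
  rw [hτx] at h4
  have hτ0 : 0 < (τ : ℂ).im := τ.im_pos
  have h5 : Real.log ‖s x‖ ≤ |Real.log C₁| + 2 * Real.pi * (τ : ℂ).im := by
    rcases (norm_nonneg (s x)).eq_or_lt with h0 | h0
    · rw [← h0, Real.log_zero]
      positivity
    · have h6 : Real.log ‖s x‖ ≤ Real.log (C₁ * Real.exp (2 * Real.pi * τ.im)) :=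
        Real.log_le_log h0 h4
      rw [Real.log_mul hC₁.ne' (Real.exp_pos _).ne', Real.log_exp] at h6
      have h7 := le_abs_self (Real.log C₁)
      change _ ≤ |Real.log C₁| + 2 * Real.pi * τ.im
      linarith
  have hl1 := abs_nonneg (Real.log C₁)
  have hl2 := abs_nonneg (Real.log C₂)
  have h6 : 2 * Real.pi * (τ : ℂ).im ≤ 2 * N * (|Real.log C₂| + 1 + m) := by
    calc 2 * Real.pi * (τ : ℂ).im ≤ 2 * Real.pi * (2 * N * (τ' : ℂ).im) := by gcongr
      _ = 2 * N * (2 * Real.pi * (τ' : ℂ).im) := by ring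
      _ ≤ 2 * N * (|Real.log C₂| + 1 + m) := by gcongr
  have h7 : |Real.log C₁| ≤ |Real.log C₁| * N * m := by
    have : 1 ≤ N * m := by nlinarith
    nlinarith
  have h8 : 2 * N * (|Real.log C₂| + 1 + m) ≤ 4 * (|Real.log C₂| + 2) * N * m := by
    have h9 : |Real.log C₂| + 1 + m ≤ (|Real.log C₂| + 2) * m := by nlinarith
    have h10 : 0 ≤ (|Real.log C₂| + 2) * m := by positivity
    calc 2 * N * (|Real.log C₂| + 1 + m) ≤ 2 * N * ((|Real.log C₂| + 2) * m) := by gcongr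
      _ ≤ 4 * (|Real.log C₂| + 2) * N * m := by nlinarith [mul_nonneg (by linarith : (0 : ℝ) ≤ N) h10]
  have h9 : 0 ≤ N * m := by positivity
  calc Real.log ‖s x‖ ≤ |Real.log C₁| * N * m + 4 * (|Real.log C₂| + 2) * N * m := by linarith
    _ ≤ (|Real.log C₁| + 4 * (|Real.log C₂| + 2) + 1) * N * m := by nlinarith

end Pool.Agent.LGO.F
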