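import Pool.Agent.LGO.F.JBase

/-!
# LGO/F: vectors modulo `n`, integers only

PROOFS. `Cop.exists_coprime`: if `b ≠ 0` take `b' = b`, `a' = a + n t`, `t` the product of the primes which divide `b` and
do not divide `a`: a prime `p ∣ b`, `p ∣ a` does not divide `n` nor `t`; a prime `p ∣ b`, `p ∤ a` divides `t`. If `b = 0`:
`a' = a`, `b' = n`.
`Cop.exists_mul`: `x a + y b + z n = 1` (Bezout, from `Cop`), `k = x a' + y b'`.
`Cop.isCoprime`: a prime dividing `k` and `n` divides `a'`, `b'`.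
`JInt_comb`: `y` = the product of the primes which divide `n` and do not divide both `p` and `q`. A prime `l ∣ n` with
`l ∣ p`, `l ∣ q` does not divide `y` and does not divide both `r`, `s`; a prime `l ∣ n` which does not divide both `p`, `q`
divides `y`.
-/

namespace Pool.Agent.LGO.F

variable {n : ℕ} {a b a' b' : ℤ}

private theorem JInt_coprime {u v : ℤ} (h : ∀ p : ℕ, p.Prime → (p : ℤ) ∣ u → (p : ℤ) ∣ v → False) :
    IsCoprime u v := by
  rw [Int.isCoprime_iff_gcd_eq_one]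
  by_contra hne
  obtain ⟨p, hp, hd⟩ := Nat.exists_prime_and_dvd hne
  exact h p hp ((Int.natCast_dvd_natCast.2 hd).trans (Int.gcd_dvd_left _ _))
    ((Int.natCast_dvd_natCast.2 hd).trans (Int.gcd_dvd_right _ _))

private theorem JInt_prod {s : Finset ℕ} {p : ℕ} (hp : p.Prime) (hs : ∀ q ∈ s, q.Prime)
    (h : (p : ℤ) ∣ ((∏ q ∈ s, q : ℕ) : ℤ)) : p ∈ s := by
  rw [Int.natCast_dvd_natCast] at h
  obtain ⟨q, hq, hd⟩ := hp.prime.exists_mem_finset_dvd h
  rw [(Nat.prime_dvd_prime_iff_eq hp (hs q hq)).1 hd]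
  exact hq

theorem cop_iff : Cop n a b ↔ ∀ p : ℕ, p.Prime → (p : ℤ) ∣ a → (p : ℤ) ∣ b → ¬ p ∣ n := by
  constructor
  · intro h p hp ha hb hn
    have h1 := h p ha hb (Int.natCast_dvd_natCast.2 hn)
    rw [Int.isUnit_iff_natAbs_eq, Int.natAbs_natCast] at h1
    exact hp.one_lt.ne' h1
  · intro h d ha hb hn
    rw [Int.isUnit_iff_natAbs_eq]
    by_contra hne
    obtain ⟨p, hp, hd⟩ := Nat.exists_prime_and_dvd hne
    have hd' : (p : ℤ) ∣ d := Int.natCast_dvd.2 hd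
    exact h p hp (hd'.trans ha) (hd'.trans hb) (Int.natCast_dvd_natCast.1 (hd'.trans hn))

theorem Cop.bezout (h : Cop n a b) : ∃ x y z : ℤ, x * a + y * b + z * n = 1 := by
  have h1 := h ((Int.gcd (Int.gcd a b : ℤ) n : ℕ) : ℤ)
    ((Int.gcd_dvd_left _ _).trans (Int.gcd_dvd_left _ _))
    ((Int.gcd_dvd_left _ _).trans (Int.gcd_dvd_right _ _)) (Int.gcd_dvd_right _ _)
  rw [Int.isUnit_iff_natAbs_eq, Int.natAbs_natCast] at h1
  have h2 := Int.gcd_eq_gcd_ab (Int.gcd a b : ℤ) n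
  have h3 := Int.gcd_eq_gcd_ab a b
  rw [h1, Nat.cast_one] at h2
  refine ⟨Int.gcdA a b * Int.gcdA (Int.gcd a b : ℤ) n, Int.gcdB a b * Int.gcdA (Int.gcd a b : ℤ) n,
    Int.gcdB (Int.gcd a b : ℤ) n, ?_⟩
  linear_combination (-1 : ℤ) * h2 - Int.gcdA (Int.gcd a b : ℤ) n * h3

theorem Cop.of_dvd {m : ℕ} (h : Cop n a b) (hm : m ∣ n) : Cop m a b := fun d ha hb hd =>
  h d ha hb (hd.trans (Int.natCast_dvd_natCast.2 hm))

theorem Cop.congr (h : Cop n a b) {k : ℤ} (hk : IsCoprime k n) (ha : (n : ℤ) ∣ a' - k * a)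
    (hb : (n : ℤ) ∣ b' - k * b) : Cop n a' b' := by
  intro d h1 h2 h3
  have hc : IsCoprime d k := (hk.of_isCoprime_of_dvd_right h3).symm
  refine h d (hc.dvd_of_dvd_mul_left ?_) (hc.dvd_of_dvd_mul_left ?_) h3
  · have h4 := dvd_sub h1 (h3.trans ha)
    rwa [sub_sub_cancel] at h4
  · have h4 := dvd_sub h2 (h3.trans hb)
    rwa [sub_sub_cancel] at h4

/-- a matrix of determinant prime to `n` -/
theorem Cop.matrix (h : Cop n a b) {m : Matrix (Fin 2) (Fin 2) ℤ} (hm : IsCoprime m.det n) :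
    Cop n (m 0 0 * a + m 0 1 * b) (m 1 0 * a + m 1 1 * b) := by
  intro d h1 h2 h3
  have hc : IsCoprime d m.det := (hm.of_isCoprime_of_dvd_right h3).symm
  have hdet := Matrix.det_fin_two m
  refine h d (hc.dvd_of_dvd_mul_left ?_) (hc.dvd_of_dvd_mul_left ?_) h3
  · have h4 := dvd_sub (h1.mul_left (m 1 1)) (h2.mul_left (m 0 1))
    have e : m 1 1 * (m 0 0 * a + m 0 1 * b) - m 0 1 * (m 1 0 * a + m 1 1 * b) = m.det * a := by
      rw [hdet]; ring
    rwa [e] at h4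
  · have h4 := dvd_sub (h2.mul_left (m 0 0)) (h1.mul_left (m 1 0))
    have e : m 0 0 * (m 1 0 * a + m 1 1 * b) - m 1 0 * (m 0 0 * a + m 0 1 * b) = m.det * b := by
      rw [hdet]; ring
    rwa [e] at h4

theorem Cop.exists_coprime (hn : 0 < n) (h : Cop n a b) :
    ∃ a' b' : ℤ, IsCoprime a' b' ∧ (n : ℤ) ∣ a' - a ∧ (n : ℤ) ∣ b' - b := by
  classical
  have _ := hn
  have h' := cop_iff.1 h
  by_cases hb : b = 0
  · subst hb
    refine ⟨a, n, JInt_coprime fun p hp h1 h2 => ?_, by simp, by simp⟩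
    exact h' p hp h1 (dvd_zero _) (Int.natCast_dvd_natCast.1 h2)
  · set s : Finset ℕ := b.natAbs.primeFactors.filter fun p => ¬ (p : ℤ) ∣ a with hs
    have hsp : ∀ q ∈ s, q.Prime := fun q hq => Nat.prime_of_mem_primeFactors (Finset.mem_filter.1 hq).1
    refine ⟨a + n * ((∏ q ∈ s, q : ℕ) : ℤ), b, JInt_coprime fun p hp h1 h2 => ?_, by simp, by simp⟩
    by_cases ha : (p : ℤ) ∣ a
    · have h3 : (p : ℤ) ∣ n * ((∏ q ∈ s, q : ℕ) : ℤ) := (dvd_add_right ha).1 h1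
      rcases (Nat.prime_iff_prime_int.1 hp).dvd_or_dvd h3 with h4 | h4
      · exact h' p hp ha h2 (Int.natCast_dvd_natCast.1 h4)
      · have h5 := JInt_prod hp hsp h4
        exact (Finset.mem_filter.1 h5).2 ha
    · have h5 : p ∈ s := by
        rw [hs, Finset.mem_filter, Nat.mem_primeFactors]
        exact ⟨⟨hp, Int.natCast_dvd.1 h2, by simpa using hb⟩, ha⟩
      have h6 : (p : ℤ) ∣ n * ((∏ q ∈ s, q : ℕ) : ℤ) :=
        (Int.natCast_dvd_natCast.2 (Finset.dvd_prod_of_mem (fun q => q) h5)).mul_left _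
      exact ha ((dvd_add_left h6).1 h1)

/-- two vectors with determinant divisible by `n` are proportional modulo `n` -/
theorem Cop.exists_mul (h : Cop n a b) (hd : (n : ℤ) ∣ a * b' - a' * b) :
    ∃ k : ℤ, (n : ℤ) ∣ a' - k * a ∧ (n : ℤ) ∣ b' - k * b := by
  obtain ⟨x, y, z, hz⟩ := h.bezout
  refine ⟨x * a' + y * b', ?_, ?_⟩
  · have e : a' - (x * a' + y * b') * a = -y * (a * b' - a' * b) + n * (z * a') := by
      linear_combination (-a') * hz
    rw [e]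
    exact dvd_add (hd.mul_left _) (Dvd.intro _ rfl)
  · have e : b' - (x * a' + y * b') * b = x * (a * b' - a' * b) + n * (z * b') := by
      linear_combination (-b') * hz
    rw [e]
    exact dvd_add (hd.mul_left _) (Dvd.intro _ rfl)

theorem Cop.isCoprime (h' : Cop n a' b') {k : ℤ} (ha : (n : ℤ) ∣ a' - k * a)
    (hb : (n : ℤ) ∣ b' - k * b) : IsCoprime k n := by
  have h := cop_iff.1 h'
  refine JInt_coprime fun p hp h1 h2 => ?_
  refine h p hp ?_ ?_ (Int.natCast_dvd_natCast.1 h2)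
  · exact (dvd_sub_left (h1.mul_right a)).1 (h2.trans ha)
  · exact (dvd_sub_left (h1.mul_right b)).1 (h2.trans hb)

/-- a combination of the two rows of a primitive matrix which is primitive modulo `n` -/
theorem JInt_comb (hn : 0 < n) {p q r s : ℤ}
    (h : ∀ l : ℕ, l.Prime → (l : ℤ) ∣ p → (l : ℤ) ∣ q → (l : ℤ) ∣ r → (l : ℤ) ∣ s → False) :
    ∃ y : ℤ, Cop n (p + y * r) (q + y * s) := by
  classical
  set S : Finset ℕ := n.primeFactors.filter fun l => ¬ ((l : ℤ) ∣ p ∧ (l : ℤ) ∣ q) with hS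
  have hSp : ∀ l ∈ S, l.Prime := fun q hq => Nat.prime_of_mem_primeFactors (Finset.mem_filter.1 hq).1
  refine ⟨((∏ l ∈ S, l : ℕ) : ℤ), cop_iff.2 fun l hl h1 h2 h3 => ?_⟩
  by_cases hpq : (l : ℤ) ∣ p ∧ (l : ℤ) ∣ q
  · have hy : ¬ (l : ℤ) ∣ ((∏ l ∈ S, l : ℕ) : ℤ) := fun h4 =>
      (Finset.mem_filter.1 (JInt_prod hl hSp h4)).2 hpq
    have hr : (l : ℤ) ∣ r := by
      have h4 := (dvd_add_right hpq.1).1 h1
      exact ((Nat.prime_iff_prime_int.1 hl).dvd_or_dvd h4).resolve_left hy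
    have hs : (l : ℤ) ∣ s := by
      have h4 := (dvd_add_right hpq.2).1 h2
      exact ((Nat.prime_iff_prime_int.1 hl).dvd_or_dvd h4).resolve_left hy
    exact h l hl hpq.1 hpq.2 hr hs
  · have h5 : l ∈ S := by
      rw [hS, Finset.mem_filter, Nat.mem_primeFactors]
      exact ⟨⟨hl, h3, hn.ne'⟩, hpq⟩
    have h6 : (l : ℤ) ∣ ((∏ l ∈ S, l : ℕ) : ℤ) :=
      Int.natCast_dvd_natCast.2 (Finset.dvd_prod_of_mem (fun q => q) h5)
    exact hpq ⟨(dvd_add_left (h6.mul_right r)).1 h1, (dvd_add_left (h6.mul_right s)).1 h2⟩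

end Pool.Agent.LGO.F
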