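import Pool.Agent.LGO.F.TFix
import Pool.Agent.LGO.Gal.NCM

/-!
# LGO/F: the intermediate curves and the centre

PROOFS. `exists_centre_pt`: `τ` with `j(τ) = x 0`; `x 1 = j(n₁, u₁)`, `x 2 = j(n₂, u₂)` (`exists_of_mdeg`), `d = gcd(n₁, n₂, det(u₁, u₂))`,
`x₀ = j(d, u₁) = j(d, u₂)` (`exists_isJ`, `Cop.of_dvd`, `Cop.exists_mul`, `IsJ.congr`): `mdeg (x 0) x₀ = d`, `mdeg x₀ (x 1) = n₁ / d`,
`mdeg x₀ (x 2) = n₂ / d`, `mdeg (x 1) (x 2) = n₁ n₂ / d²` (`mdeg_isJ`). `x₀ ∈ K`: `mid_mem` for `x 0`, `x 1`.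
`mid_mem'`: `x = j(τ)`, `y = j(N, u)`; for `s ∈ Aut(ℂ/K)` also `s z` satisfies the hypotheses (`mdeg_map`, `isogDeg_map`): by `isJ_of_mid`
both `z` and `s z` are `j(d, u)`, `d = mdeg x z`; `mem_of_fixed`.
-/

namespace Pool.Agent.LGO.F

open UpperHalfPlane Pool.Agent.Hhelper14.ZP Pool.Agent.EllSch

/-- the intermediate curves of a cyclic isogeny are defined over the same field -/
theorem mid_mem' (K : IntermediateField ℚ ℂ) {x y z : ℂ} (hx : x ∈ K) (hy : y ∈ K) (hN : NCM x)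
    (halg : IsAlgebraic ℚ x) (hxy : ∃ N, 0 < N ∧ IsogDeg N x y) (hxz : ∃ N, 0 < N ∧ IsogDeg N x z)
    (h : mdeg x z * mdeg z y = mdeg x y) : z ∈ K := by
  refine mem_of_fixed K (isAlgebraic_of_isog halg hxz) fun s hs => ?_
  have hsx : s x = x := hs x hx
  have hsy : s y = y := hs y hy
  obtain ⟨τ, -, rfl⟩ := exists_red x
  have hcm : NonCM (τ : ℂ) := (ncm_jInv τ).1 hN
  obtain ⟨a, b, hab, hJ⟩ := exists_of_mdeg hcm hxy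
  have hn : 0 < mdeg (jInv τ) y := mdeg_pos hxy
  obtain ⟨-, h1⟩ := isJ_of_mid hcm hn hab hJ hxz h
  have hsz : ∃ N, 0 < N ∧ IsogDeg N (jInv τ) (s z) := by
    obtain ⟨N, hN0, hN1⟩ := hxz
    refine ⟨N, hN0, ?_⟩
    have h2 := (isogDeg_map_iff s hN0).mpr hN1
    rwa [hsx] at h2
  have h3 : mdeg (jInv τ) (s z) = mdeg (jInv τ) z := by
    have h4 := mdeg_map s (jInv τ) z
    rwa [hsx] at h4
  have h5 : mdeg (s z) y = mdeg z y := by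
    have h6 := mdeg_map s z y
    rwa [hsy] at h6
  obtain ⟨-, h7⟩ := isJ_of_mid hcm hn hab hJ hsz (by rw [h3, h5]; exact h)
  rw [h3] at h7
  exact h7.unique h1

/-- the centre of a triple -/
theorem exists_centre_pt (K : IntermediateField ℚ ℂ) {x : Fin 3 → ℂ} (hK : ∀ a, x a ∈ K)
    (hN : ∀ a, NCM (x a)) (halg : ∀ a, IsAlgebraic ℚ (x a))
    (hI : ∀ a b, ∃ N, 0 < N ∧ IsogDeg N (x a) (x b)) :
    ∃ x₀ : ℂ, x₀ ∈ K ∧ (∀ a, ∃ N, 0 < N ∧ IsogDeg N x₀ (x a)) ∧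
      (∀ a b, a ≠ b → mdeg (x a) (x b) = mdeg x₀ (x a) * mdeg x₀ (x b)) := by
  obtain ⟨τ, -, hτ⟩ := exists_red (x 0)
  have hcm : NonCM (τ : ℂ) := (ncm_jInv τ).1 (by rw [hτ]; exact hN 0)
  have hI1 : ∃ N, 0 < N ∧ IsogDeg N (jInv τ) (x 1) := by rw [hτ]; exact hI 0 1
  have hI2 : ∃ N, 0 < N ∧ IsogDeg N (jInv τ) (x 2) := by rw [hτ]; exact hI 0 2
  obtain ⟨a₁, b₁, hc1, hJ1⟩ := exists_of_mdeg hcm hI1
  obtain ⟨a₂, b₂, hc2, hJ2⟩ := exists_of_mdeg hcm hI2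
  have hn1 : 0 < mdeg (jInv τ) (x 1) := mdeg_pos hI1
  have hn2 : 0 < mdeg (jInv τ) (x 2) := mdeg_pos hI2
  obtain ⟨n₁, hn₁⟩ : ∃ n, n = mdeg (jInv τ) (x 1) := ⟨_, rfl⟩
  obtain ⟨n₂, hn₂⟩ : ∃ n, n = mdeg (jInv τ) (x 2) := ⟨_, rfl⟩
  rw [← hn₁] at hc1 hJ1 hn1
  rw [← hn₂] at hc2 hJ2 hn2
  obtain ⟨d, hd⟩ : ∃ d, d = Nat.gcd n₁ (Nat.gcd n₂ (a₁ * b₂ - a₂ * b₁).natAbs) := ⟨_, rfl⟩
  have hd1 : d ∣ n₁ := by rw [hd]; exact Nat.gcd_dvd_left _ _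
  have hd2 : d ∣ n₂ := by rw [hd]; exact (Nat.gcd_dvd_right _ _).trans (Nat.gcd_dvd_left _ _)
  have hd3 : d ∣ (a₁ * b₂ - a₂ * b₁).natAbs := by
    rw [hd]; exact (Nat.gcd_dvd_right _ _).trans (Nat.gcd_dvd_right _ _)
  have hd0 : 0 < d := Nat.pos_of_dvd_of_pos hd1 hn1
  have hm12 := mdeg_isJ hcm hn1 hn2 hc1 hc2 hJ1 hJ2
  rw [← hd] at hm12
  obtain ⟨y, hy⟩ := exists_isJ (τ := τ) hd0 (hc1.of_dvd hd1)
  have hmy : mdeg (jInv τ) y = d := hy.mdeg hcm hd0 (hc1.of_dvd hd1)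
  have hmy1 := mdeg_isJ hcm hd0 hn1 (hc1.of_dvd hd1) hc1 hy hJ1
  have hmy2 := mdeg_isJ hcm hd0 hn2 (hc1.of_dvd hd1) hc2 hy hJ2
  rw [sub_self, Int.natAbs_zero, Nat.gcd_zero_right, Nat.gcd_eq_left hd1] at hmy1
  rw [Nat.gcd_eq_left (Nat.dvd_gcd hd2 hd3)] at hmy2
  have e1 : mdeg y (x 1) * d = n₁ := by
    apply Nat.eq_of_mul_eq_mul_left hd0
    rw [← hmy1]
    ring
  have e2 : mdeg y (x 2) * d = n₂ := by
    apply Nat.eq_of_mul_eq_mul_left hd0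
    rw [← hmy2]
    ring
  have e12 : mdeg (x 1) (x 2) = mdeg y (x 1) * mdeg y (x 2) := by
    apply Nat.eq_of_mul_eq_mul_right (Nat.pow_pos (n := 2) hd0)
    rw [hm12, ← e1, ← e2]
    ring
  have e0 : mdeg y (x 0) = d := by rw [← hτ, mdeg_symm]; exact hmy
  have e01 : mdeg (x 0) (x 1) = mdeg y (x 0) * mdeg y (x 1) := by
    rw [e0, ← hτ, ← hn₁, ← e1, mul_comm]
  have e02 : mdeg (x 0) (x 2) = mdeg y (x 0) * mdeg y (x 2) := by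
    rw [e0, ← hτ, ← hn₂, ← e2, mul_comm]
  have hisog : IsogDeg d (x 0) y := by rw [← hτ]; exact hy.isog hd0 (hc1.of_dvd hd1)
  refine ⟨y, ?_, ?_, ?_⟩
  · refine mid_mem' K (hK 0) (hK 1) (hN 0) (halg 0) (hI 0 1) ⟨d, hd0, hisog⟩ ?_
    rw [e01, mdeg_symm (x 0) y]
  · intro a
    obtain ⟨M, hM, hM'⟩ := hI 0 a
    exact ⟨_, Nat.mul_pos hd0 hM, hisog.symm.trans hM hM'⟩
  · intro a b hab
    fin_cases a <;> fin_cases b
    · exact absurd rfl hab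
    · exact e01
    · exact e02
    · show mdeg (x 1) (x 0) = mdeg y (x 1) * mdeg y (x 0)
      rw [mdeg_symm, e01, mul_comm]
    · exact absurd rfl hab
    · exact e12
    · show mdeg (x 2) (x 0) = mdeg y (x 2) * mdeg y (x 0)
      rw [mdeg_symm, e02, mul_comm]
    · show mdeg (x 2) (x 1) = mdeg y (x 2) * mdeg y (x 1)
      rw [mdeg_symm, e12, mul_comm]
    · exact absurd rfl hab

end Pool.Agent.LGO.F
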