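import Pool.Agent.LGO.F.JInt

/-!
# LGO/F: mixing, integers only

PROOFS. `exists_mix`: `N = ∏ p ^ v_p(n (i p))` over the primes `p` dividing `n 0 * n 1 * n 2`; `x`, `y` by the Chinese remainder
theorem (`Nat.chineseRemainderOfFinset`, or `Ideal`/`ZMod` versions, or induction on the finite set of primes).
`exists_sel`: for every `p` let `k` be an index with the smallest exponent, `i p`, `j p` the two others.
`v_p(N) = v_p(n (i p))`, `v_p(N') = v_p(n (j p))`, `v_p(gcd) = v_p(n k)`: the products agree since the factorizations agree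
(`Nat.eq_of_factorization_eq`, `Nat.factorization_gcd`, `Nat.factorization_mul`).
-/

namespace Pool.Agent.LGO.F

/-- the Chinese remainder theorem for prime powers -/
private theorem TMix_crt (S : Finset ℕ) (hS : ∀ p ∈ S, p.Prime) (e : ℕ → ℕ) (c : ℕ → ℤ) :
    ∃ x : ℤ, ∀ p ∈ S, ((p ^ e p : ℕ) : ℤ) ∣ x - c p := by
  classical
  induction S using Finset.induction_on with
  | empty => exact ⟨0, fun p hp => absurd hp (Finset.notMem_empty p)⟩
  | insert q S hq ih =>
    obtain ⟨x, hx⟩ := ih fun p hp => hS p (Finset.mem_insert_of_mem hp)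
    have hcop : Nat.Coprime (∏ p ∈ S, p ^ e p) (q ^ e q) := by
      refine Nat.Coprime.prod_left fun p hp => ?_
      refine Nat.Coprime.pow _ _ ?_
      rw [Nat.coprime_primes (hS p (Finset.mem_insert_of_mem hp)) (hS q (Finset.mem_insert_self q S))]
      rintro rfl
      exact hq hp
    obtain ⟨u, v, huv⟩ := Nat.isCoprime_iff_coprime.2 hcop
    refine ⟨x + ((∏ p ∈ S, p ^ e p : ℕ) : ℤ) * (u * (c q - x)), fun p hp => ?_⟩
    rcases Finset.mem_insert.1 hp with rfl | hp
    · refine ⟨v * (x - c p), ?_⟩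
      have h1 : u * ((∏ p ∈ S, p ^ e p : ℕ) : ℤ) = 1 - v * ((p ^ e p : ℕ) : ℤ) := by linarith
      calc x + ((∏ p ∈ S, p ^ e p : ℕ) : ℤ) * (u * (c p - x)) - c p
          = (x - c p) * (1 - u * ((∏ p ∈ S, p ^ e p : ℕ) : ℤ)) := by ring
        _ = ((p ^ e p : ℕ) : ℤ) * (v * (x - c p)) := by rw [h1]; ring
    · have h1 : ((p ^ e p : ℕ) : ℤ) ∣ ((∏ p ∈ S, p ^ e p : ℕ) : ℤ) := by
        rw [Int.natCast_dvd_natCast]
        exact Finset.dvd_prod_of_mem _ hp
      have h2 : x + ((∏ p ∈ S, p ^ e p : ℕ) : ℤ) * (u * (c q - x)) - c p =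
          (x - c p) + ((∏ p ∈ S, p ^ e p : ℕ) : ℤ) * (u * (c q - x)) := by ring
      rw [h2]
      exact dvd_add (hx p hp) (h1.mul_right _)

/-- prescribed local data at every prime -/
theorem exists_mix {n : Fin 3 → ℕ} (hn : ∀ a, 0 < n a) (a b : Fin 3 → ℤ) (i : ℕ → Fin 3) :
    ∃ (N : ℕ) (x y : ℤ), 0 < N ∧ ∀ p : ℕ, p.Prime →
      N.factorization p = (n (i p)).factorization p ∧
      ((p ^ N.factorization p : ℕ) : ℤ) ∣ x - a (i p) ∧
      ((p ^ N.factorization p : ℕ) : ℤ) ∣ y - b (i p) := by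
  classical
  set S : Finset ℕ := (n 0 * n 1 * n 2).primeFactors with hS
  have hprod : n 0 * n 1 * n 2 ≠ 0 := by
    have h0 := hn 0
    have h1 := hn 1
    have h2 := hn 2
    positivity
  have hSp : ∀ p ∈ S, p.Prime := fun p hp => Nat.prime_of_mem_primeFactors hp
  have hmem : ∀ p : ℕ, p.Prime → (n (i p)).factorization p ≠ 0 → p ∈ S := by
    intro p hp h0
    have hd : p ∣ n (i p) := by
      by_contra hc
      exact h0 (Nat.factorization_eq_zero_of_not_dvd hc)
    rw [hS, Nat.mem_primeFactors]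
    refine ⟨hp, ?_, hprod⟩
    have hall : ∀ k : Fin 3, n k ∣ n 0 * n 1 * n 2 := by
      intro k
      fin_cases k
      · exact (Dvd.intro _ rfl : n 0 ∣ n 0 * n 1).mul_right _
      · exact (Dvd.intro_left _ rfl : n 1 ∣ n 0 * n 1).mul_right _
      · exact Dvd.intro_left _ rfl
    exact hd.trans (hall _)
  set f : ℕ →₀ ℕ := Finsupp.onFinset S (fun p => if p.Prime then (n (i p)).factorization p else 0)
    (fun p hp => by
      by_cases hpp : p.Prime
      · rw [if_pos hpp] at hp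
        exact hmem p hpp hp
      · rw [if_neg hpp] at hp
        exact absurd rfl hp) with hf
  have hfp : ∀ p ∈ f.support, p.Prime := by
    intro p hp
    rw [Finsupp.mem_support_iff, hf, Finsupp.onFinset_apply] at hp
    by_contra hc
    rw [if_neg hc] at hp
    exact hp rfl
  set N : ℕ := f.prod (· ^ ·) with hN
  have hNf : N.factorization = f := Nat.prod_pow_factorization_eq_self hfp
  have hNp : ∀ p : ℕ, p.Prime → N.factorization p = (n (i p)).factorization p := by
    intro p hp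
    rw [hNf, hf, Finsupp.onFinset_apply, if_pos hp]
  have hNpos : 0 < N := by
    rw [hN, Finsupp.prod]
    exact Finset.prod_pos fun p hp => Nat.pow_pos (hfp p hp).pos
  obtain ⟨x, hx⟩ := TMix_crt S hSp (fun p => N.factorization p) (fun p => a (i p))
  obtain ⟨y, hy⟩ := TMix_crt S hSp (fun p => N.factorization p) (fun p => b (i p))
  refine ⟨N, x, y, hNpos, fun p hp => ⟨hNp p hp, ?_, ?_⟩⟩
  · by_cases h : p ∈ S
    · exact hx p h
    · have h0 : N.factorization p = 0 := by
        rw [hNp p hp]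
        by_contra h1
        exact h (hmem p hp h1)
      rw [h0, pow_zero]
      exact one_dvd _
  · by_cases h : p ∈ S
    · exact hy p h
    · have h0 : N.factorization p = 0 := by
        rw [hNp p hp]
        by_contra h1
        exact h (hmem p hp h1)
      rw [h0, pow_zero]
      exact one_dvd _

private theorem TMix_sel (e : Fin 3 → ℕ) : ∃ i j : Fin 3, i ≠ j ∧
    e i + e j + min (e 0) (min (e 1) (e 2)) = e 0 + e 1 + e 2 := by
  have h01 : (0 : Fin 3) ≠ 1 := by decide
  have h02 : (0 : Fin 3) ≠ 2 := by decide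
  have h12 : (1 : Fin 3) ≠ 2 := by decide
  by_cases h1 : e 0 ≤ e 1 ∧ e 0 ≤ e 2
  · exact ⟨1, 2, h12, by omega⟩
  · by_cases h2 : e 1 ≤ e 2
    · exact ⟨0, 2, h02, by omega⟩
    · exact ⟨0, 1, h01, by omega⟩

/-- at every prime the two longest legs -/
theorem exists_sel {n : Fin 3 → ℕ} (hn : ∀ a, 0 < n a) : ∃ i j : ℕ → Fin 3, (∀ p, i p ≠ j p) ∧
    ∀ N N' : ℕ, 0 < N → 0 < N' →
      (∀ p : ℕ, p.Prime → N.factorization p = (n (i p)).factorization p) →
      (∀ p : ℕ, p.Prime → N'.factorization p = (n (j p)).factorization p) →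
      N * N' * Nat.gcd (n 0) (Nat.gcd (n 1) (n 2)) = n 0 * n 1 * n 2 := by
  choose i j hij hsum using fun p : ℕ => TMix_sel (fun k => (n k).factorization p)
  refine ⟨i, j, hij, fun N N' hN hN' h1 h2 => ?_⟩
  have h0' := (hn 0).ne'
  have h1' := (hn 1).ne'
  have h2' := (hn 2).ne'
  have hg1 : Nat.gcd (n 1) (n 2) ≠ 0 := Nat.gcd_ne_zero_left h1'
  have hg : Nat.gcd (n 0) (Nat.gcd (n 1) (n 2)) ≠ 0 := Nat.gcd_ne_zero_left h0'
  refine Nat.eq_of_factorization_eq (mul_ne_zero (mul_ne_zero hN.ne' hN'.ne') hg)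
    (mul_ne_zero (mul_ne_zero h0' h1') h2') fun p => ?_
  rw [Nat.factorization_mul (mul_ne_zero hN.ne' hN'.ne') hg, Nat.factorization_mul hN.ne' hN'.ne',
    Nat.factorization_mul (mul_ne_zero h0' h1') h2', Nat.factorization_mul h0' h1',
    Nat.factorization_gcd h0' hg1, Nat.factorization_gcd h1' h2']
  simp only [Finsupp.add_apply, Finsupp.inf_apply]
  by_cases hp : p.Prime
  · rw [h1 p hp, h2 p hp]
    exact hsum p
  · simp only [Nat.factorization_eq_zero_of_not_prime _ hp]
    rfl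

/-- divisibility from the prime powers -/
theorem dvd_of_local {N : ℕ} (hN : 0 < N) {z : ℤ}
    (h : ∀ p : ℕ, p.Prime → ((p ^ N.factorization p : ℕ) : ℤ) ∣ z) : (N : ℤ) ∣ z := by
  by_cases hz : z = 0
  · rw [hz]
    exact dvd_zero _
  · rw [Int.natCast_dvd]
    have hz' : z.natAbs ≠ 0 := Int.natAbs_ne_zero.2 hz
    rw [← Nat.factorization_prime_le_iff_dvd hN.ne' hz']
    intro p hp
    have h1 := h p hp
    rw [Int.natCast_dvd] at h1
    exact (hp.pow_dvd_iff_le_factorization hz').1 h1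

/-- the vector is primitive -/
theorem cop_of_local {N : ℕ} {n : Fin 3 → ℕ} {a b : Fin 3 → ℤ} {x y : ℤ} {i : ℕ → Fin 3}
    (hN : 0 < N) (hc : ∀ k, Cop (n k) (a k) (b k))
    (h : ∀ p : ℕ, p.Prime → N.factorization p = (n (i p)).factorization p ∧
      ((p ^ N.factorization p : ℕ) : ℤ) ∣ x - a (i p) ∧
      ((p ^ N.factorization p : ℕ) : ℤ) ∣ y - b (i p)) : Cop N x y := by
  rw [cop_iff]
  intro p hp hx hy hd
  obtain ⟨h1, h2, h3⟩ := h p hp
  have hpos : N.factorization p ≠ 0 := (hp.factorization_pos_of_dvd hN.ne' hd).ne'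
  have hpp : (p : ℤ) ∣ ((p ^ N.factorization p : ℕ) : ℤ) := by
    rw [Int.natCast_dvd_natCast]
    exact dvd_pow_self p hpos
  have hpn : p ∣ n (i p) := by
    by_contra hcon
    rw [h1] at hpos
    exact hpos (Nat.factorization_eq_zero_of_not_dvd hcon)
  have hpa : (p : ℤ) ∣ a (i p) := by
    have := dvd_sub hx (hpp.trans h2)
    rwa [sub_sub_cancel] at this
  have hpb : (p : ℤ) ∣ b (i p) := by
    have := dvd_sub hy (hpp.trans h3)
    rwa [sub_sub_cancel] at this
  exact cop_iff.1 (hc (i p)) p hp hpa hpb hpn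

end Pool.Agent.LGO.F
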