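import Pool.Agent.LGO.F.JInt

/-!
# LGO/F: a binary quadratic form with three zeros modulo `m`

PROOF. `q(u) = det(M u, u)` is a quadratic form in `u`, `B(u, v) = det(M u, v) + det(M v, u)` its polar form. With
`D = det(u₁, u₂)`, `D u = det(u, u₂) u₁ + det(u₁, u) u₂` for all `u`, so
`D² q(u) = det(u, u₂)² q(u₁) + det(u, u₂) det(u₁, u) B(u₁, u₂) + det(u₁, u)² q(u₂)` (`ring`). For `u = u₃`: `B(u₁, u₂) ≡ 0` since the two
coefficients are units modulo `m`; then `D² q(u) ≡ 0`, `D` is a unit.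
-/

namespace Pool.Agent.LGO.F

/-- three independent eigenlines modulo `m`: the matrix is scalar modulo `m` -/
theorem quad_dvd {m : ℤ} (M : Matrix (Fin 2) (Fin 2) ℤ) {a b : Fin 3 → ℤ}
    (hD : ∀ i j, i ≠ j → IsCoprime (a i * b j - a j * b i) m)
    (hq : ∀ i, m ∣ (M 0 0 * a i + M 0 1 * b i) * b i - a i * (M 1 0 * a i + M 1 1 * b i))
    (x y : ℤ) : m ∣ (M 0 0 * x + M 0 1 * y) * y - x * (M 1 0 * x + M 1 1 * y) := by
  set q : ℤ → ℤ → ℤ := fun x y => (M 0 0 * x + M 0 1 * y) * y - x * (M 1 0 * x + M 1 1 * y) with hqd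
  set B : ℤ := ((M 0 0 * a 0 + M 0 1 * b 0) * b 1 - a 1 * (M 1 0 * a 0 + M 1 1 * b 0)) +
    ((M 0 0 * a 1 + M 0 1 * b 1) * b 0 - a 0 * (M 1 0 * a 1 + M 1 1 * b 1)) with hB
  have key : ∀ x y : ℤ, (a 0 * b 1 - a 1 * b 0) ^ 2 * q x y =
      (x * b 1 - a 1 * y) ^ 2 * q (a 0) (b 0) + (x * b 1 - a 1 * y) * (a 0 * y - x * b 0) * B +
        (a 0 * y - x * b 0) ^ 2 * q (a 1) (b 1) := by
    intro x y
    simp only [hqd, hB]
    ring
  have h0 : m ∣ q (a 0) (b 0) := hq 0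
  have h1 : m ∣ q (a 1) (b 1) := hq 1
  have h2 : m ∣ q (a 2) (b 2) := hq 2
  have c21 : IsCoprime m (a 2 * b 1 - a 1 * b 2) := (hD 2 1 (by decide)).symm
  have c02 : IsCoprime m (a 0 * b 2 - a 2 * b 0) := (hD 0 2 (by decide)).symm
  have c01 : IsCoprime m (a 0 * b 1 - a 1 * b 0) := (hD 0 1 (by decide)).symm
  have hBm : m ∣ B := by
    have k := key (a 2) (b 2)
    have e : (a 2 * b 1 - a 1 * b 2) * ((a 0 * b 2 - a 2 * b 0) * B) =
        (a 0 * b 1 - a 1 * b 0) ^ 2 * q (a 2) (b 2) - (a 2 * b 1 - a 1 * b 2) ^ 2 * q (a 0) (b 0) -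
          (a 0 * b 2 - a 2 * b 0) ^ 2 * q (a 1) (b 1) := by
      linear_combination -k
    have h3 : m ∣ (a 2 * b 1 - a 1 * b 2) * ((a 0 * b 2 - a 2 * b 0) * B) := by
      rw [e]
      exact dvd_sub (dvd_sub (Dvd.dvd.mul_left h2 _) (Dvd.dvd.mul_left h0 _)) (Dvd.dvd.mul_left h1 _)
    exact c02.dvd_of_dvd_mul_left (c21.dvd_of_dvd_mul_left h3)
  have h4 : m ∣ (a 0 * b 1 - a 1 * b 0) ^ 2 * q x y := by
    rw [key x y]
    exact dvd_add (dvd_add (Dvd.dvd.mul_left h0 _) (Dvd.dvd.mul_left hBm _)) (Dvd.dvd.mul_left h1 _)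
  have h5 : m ∣ q x y := (c01.pow_right (n := 2)).dvd_of_dvd_mul_left h4
  exact h5

end Pool.Agent.LGO.F
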