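import Pool.Agent.LGO.F.TFix
import Pool.Agent.LGO.F.TQuad
import Pool.Agent.LGO.F.TMix

/-!
# LGO/F: scalars and mixing around the centre

PROOFS. `Star.exists_matrix`: `exists_tor` (with `n 0 * n 1 * n 2`); `s` fixes the invariants `x i = j(n i, u i)`, so
`IsJ.eq_iff`: `n i ∣ det(M u_i, u_i)` (`Cop.matrix`).
`Star.scalars`: `y = j(m, u)`, `m = gcd(n 0, n 1, n 2)` (`exists_of_mdeg`). For `s ∈ Aut(ℂ/K)`: `quad_dvd` (`IsCoprime (det u_i u_j) m` from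
`Star.det`), `IsJ.eq_iff`: `s y = y`; `mem_of_fixed`, `isAlgebraic_of_isog`.
`Star.mix_mem`: for `s ∈ Aut(ℂ/K)`, at every prime `l`: `(p, q) ≡ u_(i l)` modulo `l ^ v_l(N)`, so `det(M (p, q), (p, q)) ≡
det(M u_(i l), u_(i l)) ≡ 0` (`l ^ v_l(N) ∣ n (i l)`, `Nat.ordProj_dvd`); `dvd_of_local`, `cop_of_local`, `IsJ.eq_iff`, `mem_of_fixed`.
`Star.mixing`: `exists_sel`, `exists_mix` (twice), `exists_isJ`, `mix_mem`, `mdeg_isJ`: `gcd(N, N', det(v, v')) = 1`: a prime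
`p` which divides it divides `n (i p)`, `n (j p)` (positive exponents) and `det(u_(i p), u_(j p))`, contradiction to `Star.det`.
-/

namespace Pool.Agent.LGO.F

open UpperHalfPlane Pool.Agent.Hhelper14.ZP Pool.Agent.EllSch

/-- three points around the centre -/
structure Star (K : IntermediateField ℚ ℂ) (τ : ℍ) (n : Fin 3 → ℕ) (a b : Fin 3 → ℤ)
    (x : Fin 3 → ℂ) : Prop where
  cm : NonCM (τ : ℂ)
  alg : IsAlgebraic ℚ (jInv τ)
  mem₀ : jInv τ ∈ K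
  mem : ∀ i, x i ∈ K
  pos : ∀ i, 0 < n i
  cop : ∀ i, Cop (n i) (a i) (b i)
  isJ : ∀ i, IsJ τ (n i) (a i) (b i) (x i)
  det : ∀ i j, i ≠ j → Nat.gcd (n i) (Nat.gcd (n j) (a i * b j - a j * b i).natAbs) = 1

private theorem TStar_dvd {n : Fin 3 → ℕ} (i : Fin 3) : n i ∣ n 0 * n 1 * n 2 := by
  fin_cases i
  · exact ⟨n 1 * n 2, by simp [mul_assoc]⟩
  · exact ⟨n 0 * n 2, by simp; ring⟩
  · exact ⟨n 0 * n 1, by simp; ring⟩

private theorem TStar_pos {n : Fin 3 → ℕ} (h : ∀ i, 0 < n i) : 0 < n 0 * n 1 * n 2 :=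
  Nat.mul_pos (Nat.mul_pos (h 0) (h 1)) (h 2)

/-- the matrix of an automorphism over `K` has the three eigenlines -/
theorem Star.exists_matrix {K : IntermediateField ℚ ℂ} {τ : ℍ} {n : Fin 3 → ℕ} {a b : Fin 3 → ℤ}
    {x : Fin 3 → ℂ} (h : Star K τ n a b x) (s : ℂ ≃+* ℂ) (hs : ∀ z ∈ K, s z = z) :
    ∃ m : Matrix (Fin 2) (Fin 2) ℤ, IsCoprime m.det ((n 0 * n 1 * n 2 : ℕ) : ℤ) ∧
      (∀ (d : ℕ) (p q : ℤ) (y : ℂ), d ∣ n 0 * n 1 * n 2 → Cop d p q → IsJ τ d p q y →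
        IsJ τ d (m 0 0 * p + m 0 1 * q) (m 1 0 * p + m 1 1 * q) (s y)) ∧
      ∀ i, (n i : ℤ) ∣ (m 0 0 * a i + m 0 1 * b i) * b i - a i * (m 1 0 * a i + m 1 1 * b i) := by
  obtain ⟨m, h1, h2⟩ := exists_tor h.cm s (hs _ h.mem₀) (TStar_pos h.pos)
  refine ⟨m, h1, h2, fun i => ?_⟩
  have h3 := h2 (n i) (a i) (b i) (x i) (TStar_dvd i) (h.cop i) (h.isJ i)
  have h4 : IsCoprime m.det (n i : ℤ) :=
    IsCoprime.of_isCoprime_of_dvd_right h1 (Int.natCast_dvd_natCast.2 (TStar_dvd i))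
  exact (IsJ.eq_iff h.cm (h.pos i) ((h.cop i).matrix h4) (h.cop i) h3 (h.isJ i)).1 (hs _ (h.mem i))

theorem Star.scalars {K : IntermediateField ℚ ℂ} {τ : ℍ} {n : Fin 3 → ℕ} {a b : Fin 3 → ℤ}
    {x : Fin 3 → ℂ} (h : Star K τ n a b x) {y : ℂ} (hy : ∃ N, 0 < N ∧ IsogDeg N (jInv τ) y)
    (hm : mdeg (jInv τ) y = Nat.gcd (n 0) (Nat.gcd (n 1) (n 2))) : y ∈ K := by
  obtain ⟨p, q, hc, hJ⟩ := exists_of_mdeg h.cm hy
  rw [hm] at hc hJ
  set g : ℕ := Nat.gcd (n 0) (Nat.gcd (n 1) (n 2)) with hg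
  have hgi : ∀ i, g ∣ n i := by
    intro i
    fin_cases i
    · exact Nat.gcd_dvd_left _ _
    · exact (Nat.gcd_dvd_right _ _).trans (Nat.gcd_dvd_left _ _)
    · exact (Nat.gcd_dvd_right _ _).trans (Nat.gcd_dvd_right _ _)
  have hg0 : 0 < g := Nat.pos_of_dvd_of_pos (hgi 0) (h.pos 0)
  refine mem_of_fixed K (isAlgebraic_of_isog h.alg hy) fun s hs => ?_
  obtain ⟨m, h1, h2, h3⟩ := h.exists_matrix s hs
  have hgd : g ∣ n 0 * n 1 * n 2 := (hgi 0).trans (TStar_dvd 0)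
  have h4 : IsCoprime m.det (g : ℤ) :=
    IsCoprime.of_isCoprime_of_dvd_right h1 (Int.natCast_dvd_natCast.2 hgd)
  refine (IsJ.eq_iff h.cm hg0 (hc.matrix h4) hc (h2 g p q y hgd hc hJ) hJ).2 ?_
  refine quad_dvd m (a := a) (b := b) ?_ ?_ p q
  · intro i j hij
    rw [Int.isCoprime_iff_gcd_eq_one]
    have h5 := h.det i j hij
    have h6 : Int.gcd (a i * b j - a j * b i) (g : ℤ) ∣ 1 := by
      rw [← h5]
      have e1 : Int.gcd (a i * b j - a j * b i) (g : ℤ) ∣ g := by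
        have := Int.gcd_dvd_right (a := a i * b j - a j * b i) (b := (g : ℤ))
        exact_mod_cast this
      refine Nat.dvd_gcd (e1.trans (hgi i)) (Nat.dvd_gcd (e1.trans (hgi j)) ?_)
      have := Int.gcd_dvd_left (a := a i * b j - a j * b i) (b := (g : ℤ))
      exact Int.natCast_dvd.1 this
    exact Nat.dvd_one.1 h6
  · intro i
    exact (Int.natCast_dvd_natCast.2 (hgi i)).trans (h3 i)

theorem Star.mix_mem {K : IntermediateField ℚ ℂ} {τ : ℍ} {n : Fin 3 → ℕ} {a b : Fin 3 → ℤ}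
    {x : Fin 3 → ℂ} (h : Star K τ n a b x) {i : ℕ → Fin 3} {N : ℕ} {p q : ℤ} (hN : 0 < N)
    (hdvd : N ∣ n 0 * n 1 * n 2)
    (hl : ∀ l : ℕ, l.Prime → N.factorization l = (n (i l)).factorization l ∧
      ((l ^ N.factorization l : ℕ) : ℤ) ∣ p - a (i l) ∧
      ((l ^ N.factorization l : ℕ) : ℤ) ∣ q - b (i l))
    {y : ℂ} (hy : IsJ τ N p q y) : y ∈ K := by
  have hc : Cop N p q := cop_of_local hN h.cop hl
  refine mem_of_fixed K (isAlgebraic_of_isog h.alg ⟨N, hN, hy.isog hN hc⟩) fun s hs => ?_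
  obtain ⟨m, h1, h2, h3⟩ := h.exists_matrix s hs
  have h4 : IsCoprime m.det (N : ℤ) :=
    IsCoprime.of_isCoprime_of_dvd_right h1 (Int.natCast_dvd_natCast.2 hdvd)
  refine (IsJ.eq_iff h.cm hN (hc.matrix h4) hc (h2 N p q y hdvd hc hy) hy).2 ?_
  refine dvd_of_local hN fun l hlp => ?_
  obtain ⟨e1, e2, e3⟩ := hl l hlp
  have h5 : ((l ^ N.factorization l : ℕ) : ℤ) ∣ (n (i l) : ℤ) := by
    rw [e1]
    exact Int.natCast_dvd_natCast.2 (Nat.ordProj_dvd _ _)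
  obtain ⟨t, ht⟩ := e2
  obtain ⟨u, hu⟩ := e3
  obtain ⟨w, hw⟩ := h5.trans (h3 (i l))
  have hp : p = a (i l) + ((l ^ N.factorization l : ℕ) : ℤ) * t := by linarith
  have hq : q = b (i l) + ((l ^ N.factorization l : ℕ) : ℤ) * u := by linarith
  set k : ℤ := ((l ^ N.factorization l : ℕ) : ℤ) with hk
  refine ⟨w + m 0 0 * (t * b (i l) + u * a (i l) + k * t * u) + m 0 1 * (2 * b (i l) * u + k * u ^ 2)
    - m 1 0 * (2 * a (i l) * t + k * t ^ 2) - m 1 1 * (t * b (i l) + u * a (i l) + k * t * u), ?_⟩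
  rw [hp, hq]
  linear_combination hw

theorem Star.mixing {K : IntermediateField ℚ ℂ} {τ : ℍ} {n : Fin 3 → ℕ} {a b : Fin 3 → ℤ}
    {x : Fin 3 → ℂ} (h : Star K τ n a b x) :
    ∃ y z, y ∈ K ∧ z ∈ K ∧ (∃ N, 0 < N ∧ IsogDeg N (jInv τ) y) ∧
      (∃ N, 0 < N ∧ IsogDeg N (jInv τ) z) ∧
      mdeg y z * Nat.gcd (n 0) (Nat.gcd (n 1) (n 2)) = n 0 * n 1 * n 2 := by
  obtain ⟨i, j, hij, hsel⟩ := exists_sel h.pos
  obtain ⟨N, p, q, hN, h1⟩ := exists_mix h.pos a b i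
  obtain ⟨N', p', q', hN', h1'⟩ := exists_mix h.pos a b j
  have hprod := hsel N N' hN hN' (fun l hl => (h1 l hl).1) (fun l hl => (h1' l hl).1)
  have hc : Cop N p q := cop_of_local hN h.cop h1
  have hc' : Cop N' p' q' := cop_of_local hN' h.cop h1'
  obtain ⟨y, hy⟩ := exists_isJ (τ := τ) hN hc
  obtain ⟨z, hz⟩ := exists_isJ (τ := τ) hN' hc'
  have hd : N ∣ n 0 * n 1 * n 2 := ⟨N' * Nat.gcd (n 0) (Nat.gcd (n 1) (n 2)), by rw [← hprod]; ring⟩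
  have hd' : N' ∣ n 0 * n 1 * n 2 := ⟨N * Nat.gcd (n 0) (Nat.gcd (n 1) (n 2)), by rw [← hprod]; ring⟩
  refine ⟨y, z, h.mix_mem hN hd h1 hy, h.mix_mem hN' hd' h1' hz, ⟨N, hN, hy.isog hN hc⟩,
    ⟨N', hN', hz.isog hN' hc'⟩, ?_⟩
  have hmd := mdeg_isJ h.cm hN hN' hc hc' hy hz
  have hg : Nat.gcd N (Nat.gcd N' (p * q' - p' * q).natAbs) = 1 := by
    by_contra hne
    obtain ⟨l, hl, hdl⟩ := Nat.exists_prime_and_dvd hne
    have d1 : l ∣ N := hdl.trans (Nat.gcd_dvd_left _ _)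
    have d2 : l ∣ N' := (hdl.trans (Nat.gcd_dvd_right _ _)).trans (Nat.gcd_dvd_left _ _)
    have d3 : (l : ℤ) ∣ p * q' - p' * q :=
      Int.natCast_dvd.2 ((hdl.trans (Nat.gcd_dvd_right _ _)).trans (Nat.gcd_dvd_right _ _))
    obtain ⟨e1, e2, e3⟩ := h1 l hl
    obtain ⟨f1, f2, f3⟩ := h1' l hl
    have v1 : 0 < N.factorization l := hl.factorization_pos_of_dvd hN.ne' d1
    have v2 : 0 < N'.factorization l := hl.factorization_pos_of_dvd hN'.ne' d2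
    have w1 : (l : ℤ) ∣ ((l ^ N.factorization l : ℕ) : ℤ) :=
      Int.natCast_dvd_natCast.2 (dvd_pow_self l v1.ne')
    have w2 : (l : ℤ) ∣ ((l ^ N'.factorization l : ℕ) : ℤ) :=
      Int.natCast_dvd_natCast.2 (dvd_pow_self l v2.ne')
    obtain ⟨t, ht⟩ := w1.trans e2
    obtain ⟨u, hu⟩ := w1.trans e3
    obtain ⟨t', ht'⟩ := w2.trans f2
    obtain ⟨u', hu'⟩ := w2.trans f3
    obtain ⟨k, hk⟩ := d3
    have hdet : (l : ℤ) ∣ a (i l) * b (j l) - a (j l) * b (i l) := by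
      have x1 : p = a (i l) + l * t := by linarith
      have x2 : q = b (i l) + l * u := by linarith
      have x3 : p' = a (j l) + l * t' := by linarith
      have x4 : q' = b (j l) + l * u' := by linarith
      rw [x1, x2, x3, x4] at hk
      refine ⟨k - (a (i l) * u' + t * b (j l) + l * t * u') + (a (j l) * u + t' * b (i l) + l * t' * u), ?_⟩
      linear_combination hk
    have hni : l ∣ n (i l) := by
      refine (Nat.dvd_of_factorization_pos ?_)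
      rw [← e1]
      exact v1.ne'
    have hnj : l ∣ n (j l) := by
      refine (Nat.dvd_of_factorization_pos ?_)
      rw [← f1]
      exact v2.ne'
    have h5 := h.det (i l) (j l) (hij l)
    have h6 : l ∣ 1 := by
      rw [← h5]
      exact Nat.dvd_gcd hni (Nat.dvd_gcd hnj (Int.natCast_dvd.1 hdet))
    exact hl.one_lt.ne' (Nat.dvd_one.1 h6)
  rw [hg, one_pow, mul_one] at hmd
  rw [hmd]
  exact hprod

end Pool.Agent.LGO.F
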