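import Mathlib
import Pool.Agent.LGO.F.TCen
import Pool.Agent.LGO.F.TStar
import Pool.Agent.LGO.H.BdC

/-!
# LGO/F (note 3060, step 3): centre, scalars and mixing for an isogenous triple

PROOFS.  `mem_of_fixed`: an algebraic number fixed by all automorphisms of `ℂ` over `K` is in `K` (`ℂ/K`: every `K`-conjugate
of `y` is `s y` for some `s`; see `exists_aut` in `H/BdC.lean`).
`mid_mem`: `s ∈ Aut(ℂ/K)`: `mdeg x (s z) = mdeg x z`, `mdeg (s z) y = mdeg z y` (`mdeg_map`), and there is only one `z` with these two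
degrees if their product is `mdeg x y`: `x = j(τ)`, `y = j(N, u)`, `z = j(d, u')`; `mdeg_isJ`: `N d / gcd(N, d, det)² = N / d`, so
`d ∣ det(u, u')` and (`gcd(u', d) = 1`) `u ≡ k u'` mod `d`: `z = j(d, u)`.
`exists_centre`: `τ` with `j(τ) = x₁`; `x₂ = j(N₁₂, u₂)`, `x₃ = j(N₁₃, u₃)`, `d = gcd(N₁₂, N₁₃, det(u₂, u₃))`, `x₀ = j(d, u₂) = j(d, u₃)`:
`mdeg x₀ x₁ = d`, `mdeg x₀ x₂ = N₁₂ / d`, `mdeg x₀ x₃ = N₁₃ / d`, `N₂₃ = N₁₂ N₁₃ / d²`.  In `K`: `mid_mem` for `x₁, x₂`.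
SCALARS: `τ₀` with `j(τ₀) = x₀`, `x_a = j(n_a, u_a)`, `N_ab = n_a n_b` means `gcd(n_a, n_b, det(u_a, u_b)) = 1`.  `m = gcd(n₁, n₂, n₃)`.
For `s ∈ Aut(ℂ/K)` the matrix `M` of `exists_tor` (`n = n₁ n₂ n₃`): `j(m, u_a)` is in `K` (`mid_mem`), so `M u_a ≡ k_a u_a` mod `m`
(`mdeg_isJ`: `j(m, u) = j(m, u')` iff the `mdeg` is `1` iff `m ∣ det(u, u')`); `det(u_a, u_b)` is a unit mod `m`: `u₃ = α u₁ + β u₂` with
units `α, β`, so `k₁ = k₂ = k₃` and `M = k` mod `m`.  So `s` fixes all `j(m, u)`.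
MIXING: for every prime `p` let `e₁, e₂, e₃` be the exponents in `n₁, n₂, n₃`; two of the three with the sum `e₁ + e₂ + e₃ - min`:
`n_y = ∏ p^(e_(first))`, `n_z = ∏ p^(e_(second))`, `u_y ≡ u_(first)` mod `p^..`: `y = j(n_y, u_y)`, `z = j(n_z, u_z)`, the determinants are
prime to `p`, so `mdeg y z = n_y n_z = n₁ n₂ n₃ / m`.  `y ∈ K`: `j(n n', u)` is in `K` if `j(n, u)`, `j(n', u)` are in `K`, `n, n'`
coprime (uniqueness: `M u ≡ k u` mod `n`, `≡ k' u` mod `n'`, so mod `n n'`).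
-/

namespace Pool.Agent.LGO.F

open UpperHalfPlane Pool.Agent.Hhelper14.ZP Pool.Agent.Hhelper14.ZPL Pool.Agent.EllSch

/-- the intermediate curves of a cyclic isogeny are defined over the same field -/
theorem mid_mem (K : IntermediateField ℚ ℂ) {x y z : ℂ} (hx : x ∈ K) (hy : y ∈ K) (hN : NCM x)
    (halg : IsAlgebraic ℚ x) (hxy : ∃ N, 0 < N ∧ IsogDeg N x y) (hxz : ∃ N, 0 < N ∧ IsogDeg N x z)
    (h : mdeg x z * mdeg z y = mdeg x y) : z ∈ K :=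
  mid_mem' K hx hy hN halg hxy hxz h

/-- the centre of an isogenous triple, the neighbours of the centre, and the pair with the largest degree -/
theorem exists_centre (K : IntermediateField ℚ ℂ) {x : Fin 3 → ℂ} (hK : ∀ a, x a ∈ K)
    (hN : ∀ a, NCM (x a)) (halg : ∀ a, IsAlgebraic ℚ (x a))
    (hI : ∀ a b, ∃ N, 0 < N ∧ IsogDeg N (x a) (x b)) :
    ∃ x₀ : ℂ, x₀ ∈ K ∧ (∀ a, ∃ N, 0 < N ∧ IsogDeg N x₀ (x a)) ∧
      (∀ a b, a ≠ b → mdeg (x a) (x b) = mdeg x₀ (x a) * mdeg x₀ (x b)) ∧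
      (∀ y, (∃ N, 0 < N ∧ IsogDeg N x₀ y) →
        mdeg x₀ y = Nat.gcd (mdeg x₀ (x 0)) (Nat.gcd (mdeg x₀ (x 1)) (mdeg x₀ (x 2))) → y ∈ K) ∧
      ∃ y z, y ∈ K ∧ z ∈ K ∧ (∃ N, 0 < N ∧ IsogDeg N x₀ y) ∧ (∃ N, 0 < N ∧ IsogDeg N x₀ z) ∧
        mdeg y z * Nat.gcd (mdeg x₀ (x 0)) (Nat.gcd (mdeg x₀ (x 1)) (mdeg x₀ (x 2))) =
          mdeg x₀ (x 0) * mdeg x₀ (x 1) * mdeg x₀ (x 2) := by
  obtain ⟨x₀, h0, hiso, hdeg⟩ := exists_centre_pt K hK hN halg hI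
  obtain ⟨τ, rfl⟩ := j_surj x₀
  have hsymm : ∃ N, 0 < N ∧ IsogDeg N (x 0) (jInv τ) := by
    obtain ⟨N, hN, h⟩ := hiso 0
    exact ⟨N, hN, h.symm⟩
  have hcm : NonCM (τ : ℂ) := by
    obtain ⟨N, hN', h⟩ := hsymm
    exact (ncm_jInv τ).1 (NCM.of_isog hN' h (hN 0))
  have hex := fun i => exists_of_mdeg hcm (hiso i)
  choose a b hcop hisJ using hex
  have hpos : ∀ i, 0 < mdeg (jInv τ) (x i) := fun i => mdeg_pos (hiso i)
  have hstar : Star K τ (fun i => mdeg (jInv τ) (x i)) a b x := by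
    refine ⟨hcm, isAlgebraic_of_isog (halg 0) hsymm, h0, hK, hpos, hcop, hisJ, ?_⟩
    intro i j hij
    have h1 := mdeg_isJ hcm (hpos i) (hpos j) (hcop i) (hcop j) (hisJ i) (hisJ j)
    rw [hdeg i j hij] at h1
    have h2 : 0 < mdeg (jInv τ) (x i) * mdeg (jInv τ) (x j) := Nat.mul_pos (hpos i) (hpos j)
    have h3 := Nat.eq_of_mul_eq_mul_left h2 (h1.trans (mul_one _).symm)
    exact (Nat.pow_eq_one.1 h3).resolve_right two_ne_zero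
  exact ⟨jInv τ, h0, hiso, hdeg, fun y hy hm => hstar.scalars hy hm, hstar.mixing⟩

end Pool.Agent.LGO.F
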