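import Mathlib
import Pool.Agent.LGO.F.AsHt
import Pool.Agent.LGO.F.Tri
import Pool.Agent.LGO.F.JInt

/-!
# LGO/F (note 3112, step (1)): no middle divisors

`x`, `y` isogenous of degree `N`, no place where both are large: a divisor `d` of `N` is large, or `N / d` is large.
-/

namespace Pool.Agent.LGO.F

open UpperHalfPlane Pool.Agent.Hhelper14.ZP Pool.Agent.Hhelper14.ZPL

theorem as_mid : ∃ c : ℕ, ∀ (K : IntermediateField ℚ ℂ) [FiniteDimensional ℚ K]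
    (x y : ℂ) (M L : ℝ), 2 ≤ M → (Module.finrank ℚ K : ℝ) ≤ M → x ∈ K → y ∈ K → NCM x →
      IsIntegral ℤ x → (∃ N, 0 < N ∧ IsogDeg N x y) → M ^ c ≤ L →
      (∃ s : ℂ ≃+* ℂ, L ≤ M * Real.log ‖s x‖) →
      (∀ s : ℂ ≃+* ℂ, Real.log ‖s x‖ ≤ M ∨ Real.log ‖s y‖ ≤ M) →
      ∀ d : ℕ, d ∣ mdeg x y → L ≤ M ^ c * d ∨ L * d ≤ M ^ c * mdeg x y := by
  obtain ⟨c₁, hdown⟩ := as_down
  obtain ⟨Cp, hCp, hplace⟩ := as_place
  obtain ⟨kp, hkp⟩ := as_const Cp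
  refine ⟨c₁ + kp + 1, fun K _ x y M L hM hD hx hy hN hi hI hL hmain hpole d hd => ?_⟩
  have hM0 : 0 < M := by linarith
  have hM1 : 1 ≤ M := by linarith
  have hNpos : 0 < mdeg x y := mdeg_pos hI
  have hdpos : 0 < d := Nat.pos_of_dvd_of_pos hd hNpos
  have halg : IsAlgebraic ℚ x := by
    have : IsIntegral ℚ x := hi.tower_top
    exact this.isAlgebraic
  obtain ⟨τ, rfl⟩ := j_surj x
  have hcm : NonCM (τ : ℂ) := (ncm_jInv τ).1 hN
  obtain ⟨a, b, hcop, hJ⟩ := exists_of_mdeg hcm hI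
  have hcopd : Cop d a b := hcop.of_dvd hd
  obtain ⟨x', hJ'⟩ := exists_isJ (τ := τ) hdpos hcopd
  have h1 : mdeg (jInv τ) x' = d := hJ'.mdeg hcm hdpos hcopd
  have hIx' : ∃ N, 0 < N ∧ IsogDeg N (jInv τ) x' := ⟨d, hdpos, hJ'.isog hdpos hcopd⟩
  have hIx'y : ∃ N, 0 < N ∧ IsogDeg N x' y := by
    obtain ⟨N, hN0, h⟩ := hI
    exact ⟨d * N, Nat.mul_pos hdpos hN0, (hJ'.isog hdpos hcopd).symm.trans hN0 h⟩
  have h2 : mdeg x' y * d = mdeg (jInv τ) y := by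
    have h3 := mdeg_isJ hcm hdpos hNpos hcopd hcop hJ' hJ
    rw [sub_self, Int.natAbs_zero, Nat.gcd_zero_right, Nat.gcd_eq_left hd] at h3
    have h4 : d * (mdeg x' y * d) = d * mdeg (jInv τ) y := by
      rw [← h3]
      ring
    exact Nat.eq_of_mul_eq_mul_left hdpos h4
  have hx'K : x' ∈ K := mid_mem K hx hy hN halg hI hIx' (by rw [h1, mul_comm]; exact h2)
  have hN' : NCM x' := NCM.of_isog hdpos (hJ'.isog hdpos hcopd) hN
  have hi' : IsIntegral ℤ x' := integral_isog hN hi hIx'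
  have hIx'x : ∃ N, 0 < N ∧ IsogDeg N x' (jInv τ) := ⟨d, hdpos, (hJ'.isog hdpos hcopd).symm⟩
  obtain ⟨s, hs⟩ := hdown K x' (jInv τ) M L hM hD hx'K hx hN' hi' hIx'x
    ((as_mono hM (by omega)).trans hL) hmain
  have hkpM := hkp M hM
  rcases hpole s with h | h
  · left
    have h3 := hplace x' (jInv τ) hIx'x s
    rw [mdeg_symm, h1] at h3
    have h4 : max 1 (Real.log ‖s (jInv τ)‖) ≤ M := max_le hM1 h
    have hmax : (0 : ℝ) ≤ max 1 (Real.log ‖s (jInv τ)‖) := zero_le_one.trans (le_max_left _ _)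
    calc L ≤ M ^ c₁ * Real.log ‖s x'‖ := hs
      _ ≤ M ^ c₁ * (Cp * d * max 1 (Real.log ‖s (jInv τ)‖)) := by gcongr
      _ ≤ M ^ c₁ * (M ^ kp * d * M) := by gcongr
      _ = M ^ (c₁ + kp + 1) * d := by ring
  · right
    have h3 := hplace x' y hIx'y s
    have h4 : max 1 (Real.log ‖s y‖) ≤ M := max_le hM1 h
    have hmax : (0 : ℝ) ≤ max 1 (Real.log ‖s y‖) := zero_le_one.trans (le_max_left _ _)
    have h2R : (mdeg x' y : ℝ) * d = mdeg (jInv τ) y := by exact_mod_cast h2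
    calc L * d ≤ (M ^ c₁ * Real.log ‖s x'‖) * d := by gcongr
      _ ≤ (M ^ c₁ * (Cp * mdeg x' y * max 1 (Real.log ‖s y‖))) * d := by gcongr
      _ ≤ (M ^ c₁ * (M ^ kp * mdeg x' y * M)) * d := by gcongr
      _ = M ^ (c₁ + kp + 1) * (mdeg x' y * d) := by ring
      _ = _ := by rw [h2R]

end Pool.Agent.LGO.F
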