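import Mathlib

/-!
# LGO/F (note 3060, assembly): the numerical part of step (6)

Three legs `n₀, n₁, n₂ ≥ 1` of an isogenous triple: exactly one of the three products is long.
-/

namespace Pool.Agent.LGO.F

/-- exactly one of three statements holds -/
def One3 (P Q R : Prop) : Prop := (P ∧ ¬ Q ∧ ¬ R) ∨ (¬ P ∧ Q ∧ ¬ R) ∨ (¬ P ∧ ¬ Q ∧ R)

theorem one3_rot {P Q R : Prop} (h : One3 P Q R) : One3 Q R P := by
  unfold One3 at *
  tauto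

theorem one3_swap {P Q R : Prop} (h : One3 P Q R) : One3 Q P R := by
  unfold One3 at *
  tauto

/-- two large legs: the third one is small -/
theorem as_num_two {x y z M L : ℝ} (hx : 1 ≤ x) (hy : 1 ≤ y) (hz : 1 ≤ z) (hM : 2 ≤ M)
    (hL : M ^ 10 < L) (h : x * y * z ≤ M * L ^ 2) (hxy : L ^ 2 / M ^ 2 ≤ x * y)
    (hxz : L / M ≤ x * z) (hyz : L / M ≤ y * z) : x * z ≤ M ^ 5 * L ∧ y * z ≤ M ^ 5 * L := by
  have hM0 : 0 < M := by linarith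
  have hL0 : 0 < L := lt_trans (by positivity) hL
  rw [div_le_iff₀ (by positivity)] at hxy
  rw [div_le_iff₀ hM0] at hxz hyz
  have hxy0 : 0 < x * y := by positivity
  have h1 : z ≤ M ^ 3 := by
    by_contra hcon
    rw [not_le] at hcon
    have h2 : x * y * M ^ 3 < x * y * z := by gcongr
    have h3 : L ^ 2 * M ≤ x * y * M ^ 3 := by
      calc L ^ 2 * M ≤ (x * y * M ^ 2) * M := by gcongr
        _ = x * y * M ^ 3 := by ring
    nlinarith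
  have key : ∀ u v : ℝ, 1 ≤ u → 1 ≤ v → u * v * z ≤ M * L ^ 2 → L ≤ v * z * M → u ≤ M ^ 2 * L := by
    intro u v hu hv h2 h3
    by_contra hcon
    rw [not_le] at hcon
    have h4 : (M ^ 2 * L) * L < u * (v * z * M) := by
      have : (M ^ 2 * L) * L < u * L := by gcongr
      have : u * L ≤ u * (v * z * M) := by gcongr
      linarith
    have h5 : u * (v * z * M) ≤ M * L ^ 2 * M := by
      calc u * (v * z * M) = u * v * z * M := by ring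
        _ ≤ M * L ^ 2 * M := by gcongr
    nlinarith
  have hx2 : x ≤ M ^ 2 * L := key x y hx hy h hyz
  have hy2 : y ≤ M ^ 2 * L := key y x hy hx (by linarith [mul_comm x y]) hxz
  constructor
  · calc x * z ≤ (M ^ 2 * L) * M ^ 3 := by gcongr
      _ = M ^ 5 * L := by ring
  · calc y * z ≤ (M ^ 2 * L) * M ^ 3 := by gcongr
      _ = M ^ 5 * L := by ring

/-- two large legs -/
private theorem AsNum_two {x y z M L : ℝ} (hx : 1 ≤ x) (hy : 1 ≤ y) (hz : 1 ≤ z) (hM : 2 ≤ M)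
    (hL : M ^ 10 < L) (h : x * y * z ≤ M * L ^ 2) (hxy : L ^ 2 / M ^ 2 ≤ x * y)
    (hxz : L / M ≤ x * z) (hyz : L / M ≤ y * z) :
    One3 (L ^ 2 / M ^ 2 ≤ x * y) (L ^ 2 / M ^ 2 ≤ x * z) (L ^ 2 / M ^ 2 ≤ y * z) := by
  have hM0 : 0 < M := by linarith
  have hL0 : 0 < L := lt_trans (by positivity) hL
  rw [div_le_iff₀ (by positivity)] at hxy
  rw [div_le_iff₀ hM0] at hxz hyz
  have hxy0 : 0 < x * y := by positivity
  -- `z ≤ M ^ 3`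
  have h1 : z ≤ M ^ 3 := by
    by_contra hcon
    rw [not_le] at hcon
    have h2 : x * y * M ^ 3 < x * y * z := by gcongr
    have h3 : L ^ 2 * M ≤ x * y * M ^ 3 := by
      calc L ^ 2 * M ≤ (x * y * M ^ 2) * M := by gcongr
        _ = x * y * M ^ 3 := by ring
    nlinarith
  -- `x, y ≤ M ^ 5 L`
  have key : ∀ u v : ℝ, 1 ≤ u → 1 ≤ v → u * v * z ≤ M * L ^ 2 → L ≤ v * z * M → u ≤ M ^ 2 * L := by
    intro u v hu hv h2 h3
    by_contra hcon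
    rw [not_le] at hcon
    have h4 : (M ^ 2 * L) * L < u * (v * z * M) := by
      have : (M ^ 2 * L) * L < u * L := by gcongr
      have : u * L ≤ u * (v * z * M) := by gcongr
      linarith
    have h5 : u * (v * z * M) ≤ M * L ^ 2 * M := by
      calc u * (v * z * M) = u * v * z * M := by ring
        _ ≤ M * L ^ 2 * M := by gcongr
    nlinarith
  have hx2 : x ≤ M ^ 2 * L := key x y hx hy h hyz
  have hy2 : y ≤ M ^ 2 * L := key y x hy hx (by linarith [mul_comm x y]) hxz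
  have short : ∀ u : ℝ, 1 ≤ u → u ≤ M ^ 2 * L → ¬ L ^ 2 / M ^ 2 ≤ u * z := by
    intro u hu h2 h3
    rw [div_le_iff₀ (by positivity)] at h3
    have h4 : u * z * M ^ 2 ≤ (M ^ 2 * L) * M ^ 3 * M ^ 2 := by gcongr
    have h5 : (M ^ 2 * L) * M ^ 3 * M ^ 2 = M ^ 7 * L := by ring
    have h6 : M ^ 7 ≤ M ^ 10 := pow_le_pow_right₀ (by linarith) (by norm_num)
    have h7 : M ^ 7 * L < L ^ 2 := by nlinarith
    linarith
  refine Or.inl ⟨?_, short x hx hx2, short y hy hy2⟩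
  rw [div_le_iff₀ (by positivity)]
  exact hxy

theorem as_num {n₀ n₁ n₂ M L : ℝ} (h0 : 1 ≤ n₀) (h1 : 1 ≤ n₁) (h2 : 1 ≤ n₂) (hM : 2 ≤ M)
    (hL : M ^ 10 < L) (h : n₀ * n₁ * n₂ ≤ M * L ^ 2)
    (h01 : L / M ≤ n₀ * n₁) (h02 : L / M ≤ n₀ * n₂) (h12 : L / M ≤ n₁ * n₂)
    (g01 : L / M ≤ n₀ ∨ L / M ≤ n₁ ∨ L ^ 2 / M ^ 2 ≤ n₀ * n₁)
    (g02 : L / M ≤ n₀ ∨ L / M ≤ n₂ ∨ L ^ 2 / M ^ 2 ≤ n₀ * n₂)
    (g12 : L / M ≤ n₁ ∨ L / M ≤ n₂ ∨ L ^ 2 / M ^ 2 ≤ n₁ * n₂) :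
    One3 (L ^ 2 / M ^ 2 ≤ n₀ * n₁) (L ^ 2 / M ^ 2 ≤ n₀ * n₂) (L ^ 2 / M ^ 2 ≤ n₁ * n₂) := by
  have hM0 : 0 < M := by linarith
  have hL0 : 0 < L := lt_trans (by positivity) hL
  have hLM : 0 < L / M := by positivity
  have mul2 : ∀ u v : ℝ, L / M ≤ u → L / M ≤ v → L ^ 2 / M ^ 2 ≤ u * v := by
    intro u v hu hv
    calc L ^ 2 / M ^ 2 = (L / M) * (L / M) := by ring
      _ ≤ u * v := by gcongr; exact hLM.le.trans hu
  have c01 : L ^ 2 / M ^ 2 ≤ n₀ * n₁ →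
      One3 (L ^ 2 / M ^ 2 ≤ n₀ * n₁) (L ^ 2 / M ^ 2 ≤ n₀ * n₂) (L ^ 2 / M ^ 2 ≤ n₁ * n₂) :=
    fun h' => AsNum_two h0 h1 h2 hM hL h h' h02 h12
  have c02 : L ^ 2 / M ^ 2 ≤ n₀ * n₂ →
      One3 (L ^ 2 / M ^ 2 ≤ n₀ * n₁) (L ^ 2 / M ^ 2 ≤ n₀ * n₂) (L ^ 2 / M ^ 2 ≤ n₁ * n₂) := by
    intro h'
    have h3 := AsNum_two h0 h2 h1 hM hL (by linarith [mul_right_comm n₀ n₂ n₁]) h' h01
      (by rw [mul_comm]; exact h12)
    rw [mul_comm n₂ n₁] at h3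
    exact one3_swap h3
  have c12 : L ^ 2 / M ^ 2 ≤ n₁ * n₂ →
      One3 (L ^ 2 / M ^ 2 ≤ n₀ * n₁) (L ^ 2 / M ^ 2 ≤ n₀ * n₂) (L ^ 2 / M ^ 2 ≤ n₁ * n₂) := by
    intro h'
    have h3 := AsNum_two h1 h2 h0 hM hL (by
      have : n₁ * n₂ * n₀ = n₀ * n₁ * n₂ := by ring
      linarith) h' (by rw [mul_comm]; exact h01) (by rw [mul_comm]; exact h02)
    rw [mul_comm n₁ n₀, mul_comm n₂ n₀] at h3
    exact one3_rot h3
  rcases g01 with a | a | a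
  · rcases g12 with b | b | b
    · exact c01 (mul2 _ _ a b)
    · exact c02 (mul2 _ _ a b)
    · exact c12 b
  · rcases g02 with b | b | b
    · exact c01 (mul2 _ _ b a)
    · exact c12 (mul2 _ _ a b)
    · exact c02 b
  · exact c01 a

/-- a pair which is not long is short -/
theorem as_num_short {n₀ n₁ n₂ M L : ℝ} (h0 : 1 ≤ n₀) (h1 : 1 ≤ n₁) (h2 : 1 ≤ n₂) (hM : 2 ≤ M)
    (hL : M ^ 10 < L) (h : n₀ * n₁ * n₂ ≤ M * L ^ 2)
    (h01 : L / M ≤ n₀ * n₁) (h02 : L / M ≤ n₀ * n₂) (h12 : L / M ≤ n₁ * n₂)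
    (hres : One3 (L ^ 2 / M ^ 2 ≤ n₀ * n₁) (L ^ 2 / M ^ 2 ≤ n₀ * n₂) (L ^ 2 / M ^ 2 ≤ n₁ * n₂))
    (hnot : ¬ L ^ 2 / M ^ 2 ≤ n₀ * n₁) : n₀ * n₁ ≤ M ^ 5 * L := by
  rcases hres with hr | hr | hr
  · exact absurd hr.1 hnot
  · exact (as_num_two h0 h2 h1 hM hL (by linarith [mul_right_comm n₀ n₂ n₁]) hr.2.1 h01
      (by rw [mul_comm]; exact h12)).1
  · have h3 := (as_num_two h1 h2 h0 hM hL (by
      have : n₁ * n₂ * n₀ = n₀ * n₁ * n₂ := by ring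
      linarith) hr.2.2 (by rw [mul_comm]; exact h01) (by rw [mul_comm]; exact h02)).1
    rw [mul_comm n₁ n₀] at h3
    exact h3

end Pool.Agent.LGO.F
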