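import Mathlib
import Pool.Agent.LGO.F.AsHt
import Pool.Agent.LGO.F.Tri

/-!
# LGO/F (note 3060, assembly): an isogenous triple, its centre and the product of the three legs
-/

namespace Pool.Agent.LGO.F

open UpperHalfPlane Pool.Agent.Hhelper14.ZP

/-- the statement of the sharp isogeny theorem -/
def SharpAll : Prop :=
  ∃ C : ℕ, ∀ (K : IntermediateField ℚ ℂ) [FiniteDimensional ℚ K] (x y : ℂ) (h : ℝ), x ∈ K → y ∈ K →
    NCM x → IsIntegral ℤ x → IsIntegral ℤ y → (∃ N, 0 < N ∧ IsogDeg N x y) → 1 ≤ h →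
    (∀ s : ℂ ≃+* ℂ, ‖s x‖ ≤ Real.exp h) → (∀ s : ℂ ≃+* ℂ, ‖s y‖ ≤ Real.exp h) →
    (mdeg x y : ℝ) ≤ ((C : ℝ) * Module.finrank ℚ K) ^ C * h ^ 2

private theorem AsTri_iso {x y z : ℂ} (h : ∃ N, 0 < N ∧ IsogDeg N x y)
    (h' : ∃ N, 0 < N ∧ IsogDeg N x z) : ∃ N, 0 < N ∧ IsogDeg N y z := by
  obtain ⟨N, hN, h⟩ := h
  obtain ⟨N', hN', h'⟩ := h'
  exact ⟨N * N', Nat.mul_pos hN hN', h.symm.trans hN' h'⟩

/-- the scalars at the centre are bounded -/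
theorem as_cen (c₁ c₂ : ℕ) : ∃ c : ℕ, ∀ (K : IntermediateField ℚ ℂ) [FiniteDimensional ℚ K]
    (x₀ : ℂ) (m : ℕ) (M L : ℝ), 2 ≤ M → (Module.finrank ℚ K : ℝ) ≤ M → x₀ ∈ K → NCM x₀ →
      IsIntegral ℤ x₀ → 0 < m → (∀ s : ℂ ≃+* ℂ, ‖s x₀‖ ≤ Real.exp (M ^ c₁ * L)) →
      (∀ y, (∃ N, 0 < N ∧ IsogDeg N x₀ y) → mdeg x₀ y = m → y ∈ K) → M ^ c ≤ L →
      (∃ s : ℂ ≃+* ℂ, L ≤ M ^ c₂ * Real.log ‖s x₀‖) → (m : ℝ) ≤ M ^ c := by
  obtain ⟨C, hC, hcen⟩ := cen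
  obtain ⟨Cj, hCj, hj⟩ := norm_j_le
  obtain ⟨k, hk⟩ := as_const C
  obtain ⟨k', hk'⟩ := as_const (|Real.log Cj| + 1)
  refine ⟨c₁ + c₂ + 2 * k + k' + 20, ?_⟩
  intro K _ x₀ m M L hM hD hx hN hi hm hup hK hL hs
  obtain ⟨s, hs⟩ := hs
  obtain ⟨τ, hτ, hτx⟩ := exists_red (s x₀)
  have hM0 : 0 < M := by linarith
  have hCk := hk M hM
  have hCk' := hk' M hM
  have hm1 : (1 : ℝ) ≤ m := by exact_mod_cast hm
  have hD1 : (1 : ℝ) ≤ Module.finrank ℚ K := by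
    exact_mod_cast Module.finrank_pos (R := ℚ) (M := K)
  have hL1 : 1 ≤ L := (one_le_pow₀ (by linarith)).trans hL
  have hH : 1 ≤ M ^ c₁ * L := by
    have : 1 ≤ M ^ c₁ := one_le_pow₀ (by linarith)
    nlinarith
  have h1 := hcen K x₀ m (M ^ c₁ * L) hx hN hi hH hm hup hK s τ hτ hτx
  set D : ℝ := (Module.finrank ℚ K : ℝ) with hDdef
  -- lower bound for the imaginary part
  have h2 := hj τ hτ
  rw [hτx] at h2
  set T : ℝ := (τ : ℂ).im with hT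
  have hT0 : 0 < T := τ.im_pos
  have h3 : Real.log ‖s x₀‖ ≤ |Real.log Cj| + 7 * T := by
    rcases (norm_nonneg (s x₀)).eq_or_lt with h0 | h0
    · rw [← h0, Real.log_zero]
      positivity
    · have h6 : Real.log ‖s x₀‖ ≤ Real.log (Cj * Real.exp (2 * Real.pi * τ.im)) :=
        Real.log_le_log h0 h2
      rw [Real.log_mul hCj.ne' (Real.exp_pos _).ne', Real.log_exp] at h6
      have h7 := le_abs_self (Real.log Cj)
      have h8 : 2 * Real.pi * τ.im ≤ 7 * T := by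
        have := Real.pi_lt_d2
        have h9 : 2 * Real.pi ≤ 7 := by linarith
        exact mul_le_mul_of_nonneg_right h9 hT0.le
      linarith
  -- `L ≤ M ^ (c₂ + 4) T`
  have h4 : L ≤ M ^ (c₂ + 4) * T := by
    have h5 : L ≤ M ^ c₂ * (M ^ k' + 7 * T) := by
      refine hs.trans ?_
      have : Real.log ‖s x₀‖ ≤ M ^ k' + 7 * T := by linarith
      gcongr
    have h6 : M ^ c₂ * M ^ k' * 2 ≤ L := by
      calc M ^ c₂ * M ^ k' * 2 ≤ M ^ c₂ * M ^ k' * M := by gcongr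
        _ = M ^ (c₂ + k' + 1) := by ring
        _ ≤ M ^ (c₁ + c₂ + 2 * k + k' + 20) := as_mono hM (by omega)
        _ ≤ L := hL
    have h7 : M ^ c₂ * 14 * T ≤ M ^ (c₂ + 4) * T := by
      have h8 : (14 : ℝ) ≤ M ^ 4 := by
        have : (2 : ℝ) ^ 4 ≤ M ^ 4 := by gcongr
        norm_num at this
        linarith
      have h9 : M ^ (c₂ + 4) = M ^ c₂ * M ^ 4 := pow_add _ _ _
      rw [h9]
      gcongr
    nlinarith
  -- the bound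
  have hlogm : Real.log m ≤ m := by
    have := Real.log_le_sub_one_of_pos (show (0 : ℝ) < m by linarith)
    linarith
  have hCD : C * D ≤ M ^ (k + 1) := by
    rw [pow_succ]
    gcongr
  have hCD0 : 0 ≤ C * D := by positivity
  have h5 : m * T ≤ M ^ (k + 1) * (M ^ (c₁ + 1) * L + m) := by
    refine h1.trans ?_
    have e1 : M ^ c₁ * L + 1 + Real.log m ≤ M ^ (c₁ + 1) * L + m := by
      have : M ^ c₁ * L + 1 ≤ M ^ (c₁ + 1) * L := by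
        rw [pow_succ]
        nlinarith
      linarith
    have e2 : 0 ≤ M ^ c₁ * L + 1 + Real.log m := by
      have := Real.log_nonneg hm1
      linarith
    gcongr
  have h6 : m * L ≤ M ^ (c₂ + 4) * (M ^ (k + 1) * (M ^ (c₁ + 1) * L + m)) := by
    calc m * L ≤ m * (M ^ (c₂ + 4) * T) := by gcongr
      _ = M ^ (c₂ + 4) * (m * T) := by ring
      _ ≤ _ := by gcongr
  have h7 : M ^ (c₂ + 4) * (M ^ (k + 1) * m) * 2 ≤ m * L := by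
    calc M ^ (c₂ + 4) * (M ^ (k + 1) * m) * 2 ≤ M ^ (c₂ + 4) * (M ^ (k + 1) * m) * M := by gcongr
      _ = m * M ^ (c₂ + k + 6) := by ring
      _ ≤ m * L := by
        have : M ^ (c₂ + k + 6) ≤ L := (as_mono hM (by omega)).trans hL
        gcongr
  have h8 : m * L ≤ M ^ (c₁ + c₂ + k + 6) * 2 * L := by
    have : M ^ (c₂ + 4) * (M ^ (k + 1) * (M ^ (c₁ + 1) * L + m)) =
        M ^ (c₁ + c₂ + k + 6) * L + M ^ (c₂ + 4) * (M ^ (k + 1) * m) := by ring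
    rw [this] at h6
    linarith
  have h9 : (m : ℝ) ≤ M ^ (c₁ + c₂ + k + 6) * 2 := le_of_mul_le_mul_right h8 (by linarith)
  calc (m : ℝ) ≤ M ^ (c₁ + c₂ + k + 6) * 2 := h9
    _ ≤ M ^ (c₁ + c₂ + k + 6) * M := by gcongr
    _ = M ^ (c₁ + c₂ + k + 7) := by ring
    _ ≤ _ := as_mono hM (by omega)

/-- an isogenous triple: the legs at the centre -/
theorem as_tri (hS : SharpAll) : ∃ c : ℕ, ∀ (K : IntermediateField ℚ ℂ) [FiniteDimensional ℚ K]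
    (x : Fin 3 → ℂ) (M L : ℝ), 2 ≤ M → (Module.finrank ℚ K : ℝ) ≤ M → (∀ a, x a ∈ K) →
      (∀ a, NCM (x a)) → (∀ a, IsIntegral ℤ (x a)) → (∀ a b, ∃ N, 0 < N ∧ IsogDeg N (x a) (x b)) →
      (∀ a, ∀ s : ℂ ≃+* ℂ, ‖s (x a)‖ ≤ Real.exp L) →
      (∃ (a : Fin 3) (s : ℂ ≃+* ℂ), L ≤ M * Real.log ‖s (x a)‖) → M ^ c ≤ L →
      ∃ n : Fin 3 → ℕ, (∀ a, 0 < n a) ∧ (∀ a b, a ≠ b → mdeg (x a) (x b) = n a * n b) ∧
        (n 0 : ℝ) * n 1 * n 2 ≤ M ^ c * L ^ 2 ∧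
        ∃ s : ℂ ≃+* ℂ, ∀ a, L ≤ M ^ c * n a * max 1 (Real.log ‖s (x a)‖) := by
  obtain ⟨c₁, hup⟩ := as_up
  obtain ⟨c₂, hdown⟩ := as_down
  obtain ⟨c₃, hcen⟩ := as_cen c₁ c₂
  obtain ⟨Cs, hsharp⟩ := hS
  obtain ⟨ks, hks⟩ := as_const Cs
  obtain ⟨Cp, hCp, hplace⟩ := as_place
  obtain ⟨kp, hkp⟩ := as_const Cp
  refine ⟨c₂ + c₃ + 4 * c₁ + (ks + 1) * Cs + kp, ?_⟩
  intro K _ x M L hM hD hK hN hi hI hs hmain hL
  have hM0 : 0 < M := by linarith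
  have hM1 : 1 ≤ M := by linarith
  have hL1 : 1 ≤ L := (one_le_pow₀ hM1).trans hL
  have hL0 : 0 < L := by linarith
  have halg : ∀ a, IsAlgebraic ℚ (x a) := fun a => by
    have : IsIntegral ℚ (x a) := (hi a).tower_top
    exact this.isAlgebraic
  obtain ⟨x₀, h0K, hiso, hdeg, hscal, y, z, hyK, hzK, hy, hz, hyz⟩ := exists_centre K hK hN halg hI
  have hiso' : ∀ a, ∃ N, 0 < N ∧ IsogDeg N (x a) x₀ := fun a => by
    obtain ⟨N, hN, h⟩ := hiso a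
    exact ⟨N, hN, h.symm⟩
  have h0N : NCM x₀ := by
    obtain ⟨N, hN', h⟩ := hiso' 0
    exact NCM.of_isog hN' h (hN 0)
  have h0i : IsIntegral ℤ x₀ := integral_isog (hN 0) (hi 0) (hiso' 0)
  have hpos : ∀ a, 0 < mdeg x₀ (x a) := fun a => mdeg_pos (hiso a)
  -- heights
  have h1 : ∀ s : ℂ ≃+* ℂ, ‖s x₀‖ ≤ Real.exp (M ^ c₁ * L) :=
    hup K (x 0) x₀ M L hM hD (hK 0) h0K (hN 0) (hi 0) (hiso' 0) hL1 (hs 0)
  have hLc₂ : M ^ c₂ ≤ L := (as_mono hM (by omega)).trans hL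
  have hLc₃ : M ^ c₃ ≤ L := (as_mono hM (by omega)).trans hL
  obtain ⟨a, s', hs'⟩ := hmain
  have h2 : ∃ s : ℂ ≃+* ℂ, L ≤ M ^ c₂ * Real.log ‖s x₀‖ :=
    hdown K x₀ (x a) M L hM hD h0K (hK a) h0N h0i (hiso a) hLc₂ ⟨s', hs'⟩
  set g : ℕ := Nat.gcd (mdeg x₀ (x 0)) (Nat.gcd (mdeg x₀ (x 1)) (mdeg x₀ (x 2))) with hg
  have hgpos : 0 < g := Nat.gcd_pos_of_pos_left _ (hpos 0)
  have h3 : (g : ℝ) ≤ M ^ c₃ :=
    hcen K x₀ g M L hM hD h0K h0N h0i hgpos h1 hscal hLc₃ h2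
  have hH1 : 1 ≤ M ^ c₁ * L := by
    have : 1 ≤ M ^ c₁ := one_le_pow₀ hM1
    nlinarith
  have h4 : ∀ u : ℂ, u ∈ K → (∃ N, 0 < N ∧ IsogDeg N x₀ u) →
      ∀ s : ℂ ≃+* ℂ, ‖s u‖ ≤ Real.exp (M ^ (2 * c₁) * L) := by
    intro u hu hIu s
    have h5 := hup K x₀ u M (M ^ c₁ * L) hM hD h0K hu h0N h0i hIu hH1 h1 s
    have h6 : M ^ c₁ * (M ^ c₁ * L) = M ^ (2 * c₁) * L := by ring
    rwa [h6] at h5
  have hH2 : 1 ≤ M ^ (2 * c₁) * L := by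
    have : 1 ≤ M ^ (2 * c₁) := one_le_pow₀ hM1
    nlinarith
  have hyN : NCM y := by
    obtain ⟨N, hN', h⟩ := hy
    exact NCM.of_isog hN' h h0N
  have h5 := hsharp K y z (M ^ (2 * c₁) * L) hyK hzK hyN (integral_isog h0N h0i hy)
    (integral_isog h0N h0i hz) (AsTri_iso hy hz) hH2 (h4 y hyK hy) (h4 z hzK hz)
  have h6 : ((Cs : ℝ) * Module.finrank ℚ K) ^ Cs ≤ M ^ ((ks + 1) * Cs) := by
    rw [pow_mul]
    have : (Cs : ℝ) * Module.finrank ℚ K ≤ M ^ (ks + 1) := by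
      rw [pow_succ]
      have := hks M hM
      gcongr
    gcongr
  have h7 : (mdeg y z : ℝ) ≤ M ^ ((ks + 1) * Cs + 4 * c₁) * L ^ 2 := by
    calc (mdeg y z : ℝ) ≤ ((Cs : ℝ) * Module.finrank ℚ K) ^ Cs * (M ^ (2 * c₁) * L) ^ 2 := h5
      _ ≤ M ^ ((ks + 1) * Cs) * (M ^ (2 * c₁) * L) ^ 2 := by gcongr
      _ = _ := by ring
  refine ⟨fun a => mdeg x₀ (x a), hpos, hdeg, ?_, ?_⟩
  · have h8 : (mdeg x₀ (x 0) : ℝ) * mdeg x₀ (x 1) * mdeg x₀ (x 2) = mdeg y z * g := by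
      exact_mod_cast hyz.symm
    change (mdeg x₀ (x 0) : ℝ) * mdeg x₀ (x 1) * mdeg x₀ (x 2) ≤ _
    rw [h8]
    calc (mdeg y z : ℝ) * g ≤ (M ^ ((ks + 1) * Cs + 4 * c₁) * L ^ 2) * M ^ c₃ := by gcongr
      _ = M ^ ((ks + 1) * Cs + 4 * c₁ + c₃) * L ^ 2 := by ring
      _ ≤ _ := by
        have := as_mono hM (show (ks + 1) * Cs + 4 * c₁ + c₃ ≤
          c₂ + c₃ + 4 * c₁ + (ks + 1) * Cs + kp by omega)
        gcongr
  · obtain ⟨s, hs2⟩ := h2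
    refine ⟨s, fun a => ?_⟩
    have h8 := hplace x₀ (x a) (hiso a) s
    have hmax : (0 : ℝ) ≤ max 1 (Real.log ‖s (x a)‖) := zero_le_one.trans (le_max_left _ _)
    calc L ≤ M ^ c₂ * Real.log ‖s x₀‖ := hs2
      _ ≤ M ^ c₂ * (Cp * mdeg x₀ (x a) * max 1 (Real.log ‖s (x a)‖)) := by gcongr
      _ ≤ M ^ c₂ * (M ^ kp * mdeg x₀ (x a) * max 1 (Real.log ‖s (x a)‖)) := by
          have := hkp M hM
          gcongr
      _ = M ^ (c₂ + kp) * mdeg x₀ (x a) * max 1 (Real.log ‖s (x a)‖) := by ring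
      _ ≤ M ^ (c₂ + c₃ + 4 * c₁ + (ks + 1) * Cs + kp) * mdeg x₀ (x a) *
            max 1 (Real.log ‖s (x a)‖) := by
          have := as_mono hM (show c₂ + kp ≤ c₂ + c₃ + 4 * c₁ + (ks + 1) * Cs + kp by omega)
          gcongr

end Pool.Agent.LGO.F
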