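import Mathlib
import Pool.Agent.LGO.H.RelB
import Pool.Agent.LGO.F.CuGeo

/-!
# LGO/F (note 3060, step (2)(c)): a place where two coordinates are large

`cu_use` is the argument of `cusp_use` (`H/Height.lean`, copy the private lemmas `exists_max_conj` and `aeval_alg`):
`rel_height` (`H/RelB.lean`) for `F` and `a`: constants `C₂ ≥ 1`, `E`.  `D = [K : ℚ]`, `F(x)` is algebraic, `s₀` an automorphism for which
`‖s₀ F(x)‖` is maximal, `L = max 0 (log ‖s₀ F(x)‖)`.  `exp T ≤ ‖s' x_a‖ ≤ exp (C₂ D (1 + L))`, so `T ≤ C₂ D (1 + L)`, and `C D ≤ T` with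
`C ≥ C₂ (2 + 2 log C₁)` gives `L ≥ 1 + 2 log C₁ > 0`, `‖s₀ F(x)‖ = exp L ≥ C₁`.  For `b` with `hF b`:
`exp L ≤ C₁ ‖s₀ x_b‖ ^ m`, so `L ≤ log C₁ + m log ‖s₀ x_b‖`, `L ≤ 2 m log ‖s₀ x_b‖`, and
`T ≤ C₂ D (1 + L) ≤ 2 C₂ D L ≤ 4 C₂ m D log ‖s₀ x_b‖`.

`pole_one`: `cu_use` for the triple `![i, i, a]` (or `![i, a, a]`), `F = X 0`, `S = {0}`, `C₁ = 1`, `m = 1`.

`pole_dich`: suppose that the first alternative is false and let `a : Fin n`.  `cu_geo` for the triple `![i, j, a]`; if `r = 0` then the third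
statement of `cu_geo` says `‖s (x i)‖ < C` or `‖s (x j)‖ < C` always: the first alternative.  So there is an index `t`; `cu_use` for
`F = Φ t`, `S = {0, 1}`, `m = m t`, and the constant `C` of `cu_geo`.
(The constants are natural numbers: `⌈C⌉`; increasing the constant is harmless: `log ‖s (x i)‖ ≥ 0` follows from the conclusion
with the smaller constant because `T > 0`.)
-/

namespace Pool.Agent.LGO.F

open MvPolynomial UpperHalfPlane Pool.Agent.Hhelper14.ZP Pool.Agent.Hhelper14.ZPL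

/-- the conjugates of an algebraic number: one of them has the largest absolute value -/
private theorem exists_max_conj {z : ℂ} (halg : IsAlgebraic ℚ z) :
    ∃ s₀ : ℂ ≃+* ℂ, ∀ s : ℂ ≃+* ℂ, ‖s z‖ ≤ ‖s₀ z‖ := by
  classical
  have hint : IsIntegral ℚ z := halg.isIntegral
  have hP0 : minpoly ℚ z ≠ 0 := minpoly.ne_zero hint
  have hfin : (Set.range fun s : ℂ ≃+* ℂ => ‖s z‖).Finite := by
    apply Set.Finite.subset ((((minpoly ℚ z).aroots ℂ).toFinset.finite_toSet).image fun w => ‖w‖)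
    rintro _ ⟨s, rfl⟩
    refine ⟨s z, ?_, rfl⟩
    rw [Finset.mem_coe, Multiset.mem_toFinset, Polynomial.mem_aroots]
    refine ⟨hP0, ?_⟩
    have h1 := Polynomial.aeval_algHom_apply (RingHom.toRatAlgHom (s : ℂ →+* ℂ)) z (minpoly ℚ z)
    rw [minpoly.aeval, map_zero] at h1
    exact h1
  obtain ⟨r, ⟨s₀, hs₀⟩, hr⟩ := Set.exists_max_image (Set.range fun s : ℂ ≃+* ℂ => ‖s z‖) id hfin
    ⟨_, ⟨RingEquiv.refl ℂ, rfl⟩⟩
  refine ⟨s₀, fun s => ?_⟩
  have := hr _ ⟨s, rfl⟩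
  rw [← hs₀] at this
  exact this

/-- the value of a polynomial with algebraic coefficients at algebraic numbers is algebraic -/
private theorem aeval_alg (F : MvPolynomial (Fin 3) Qb) (y : Fin 3 → ℂ)
    (hy : ∀ b, IsIntegral ℤ (y b)) : IsAlgebraic ℚ (aeval y F : ℂ) := by
  have hy' : ∀ b, y b ∈ Qb := fun b => by
    rw [mem_algebraicClosure_iff]
    have : IsIntegral ℚ (y b) := (hy b).tower_top
    exact this.isAlgebraic
  have h1 : (aeval y F : ℂ) = algebraMap Qb ℂ (aeval (fun b => (⟨y b, hy' b⟩ : Qb)) F) := by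
    rw [← MvPolynomial.aeval_algebraMap_apply]
    rfl
  rw [h1]
  exact mem_algebraicClosure_iff.1 (aeval (fun b => (⟨y b, hy' b⟩ : Qb)) F).2

theorem cu_use {n : ℕ} {V : Set (Fin n → ℂ)} (hV : Pool.Agent.Hhelper14.ZPL.IsIrredClosed V)
    (hVk : KClosed V) (hdim : Pool.Agent.Hhelper14.ZPL.dim V = 1) (i : Fin 3 → Fin n)
    {F : MvPolynomial (Fin 3) Qb} (hF : ∀ c : ℂ, ∃ x ∈ V, (aeval (x ∘ i) F : ℂ) ≠ c)
    {S : Set (Fin 3)} {C₁ : ℝ} (hC₁ : 1 ≤ C₁) {m : ℕ} (hm : 0 < m)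
    (hS : ∀ b ∈ S, ∀ s : ℂ ≃+* ℂ, ∀ x ∈ V, C₁ ≤ ‖s (aeval (x ∘ i) F : ℂ)‖ →
      ‖s (aeval (x ∘ i) F : ℂ)‖ ≤ C₁ * ‖s (x (i b))‖ ^ m) (a : Fin 3) :
    ∃ (C : ℕ) (E : Set (Fin n → ℂ)), 1 ≤ C ∧ E.Finite ∧ ∀ x ∈ V, x ∉ E →
      ∀ (K : IntermediateField ℚ ℂ) [FiniteDimensional ℚ K], (∀ b, x (i b) ∈ K) →
        (∀ b, IsIntegral ℤ (x (i b))) → ∀ (s' : ℂ ≃+* ℂ) (T : ℝ),
          (C : ℝ) * Module.finrank ℚ K ≤ T → Real.exp T ≤ ‖s' (x (i a))‖ →
          ∃ s : ℂ ≃+* ℂ, ∀ b ∈ S,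
            T ≤ (C : ℝ) * Module.finrank ℚ K * Real.log ‖s (x (i b))‖ := by
  classical
  obtain ⟨C₂, E, hC₂1, hE, hrel⟩ := rel_height hV hVk hdim i hF a
  have hlog : 0 ≤ Real.log C₁ := Real.log_nonneg hC₁
  have hm1 : (1 : ℝ) ≤ m := by exact_mod_cast hm
  obtain ⟨C, hC⟩ := exists_nat_ge (C₁ + C₂ * (2 + 2 * Real.log C₁) + 4 * C₂ * m)
  have hC1 : 1 ≤ C := by
    have h1 : 0 ≤ C₂ * (2 + 2 * Real.log C₁) + 4 * C₂ * m := by positivity
    have h2 : (1 : ℝ) ≤ C := by linarith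
    exact_mod_cast h2
  refine ⟨C, E, hC1, hE, ?_⟩
  intro x hx hxE K hfd hxK hint s H hCH hs
  have hD : (1 : ℝ) ≤ (Module.finrank ℚ K : ℝ) := by
    exact_mod_cast Module.finrank_pos (R := ℚ) (M := K)
  set D : ℝ := (Module.finrank ℚ K : ℝ) with hDdef
  have hD0 : 0 < D := by linarith
  obtain ⟨s₀, hs₀⟩ := exists_max_conj (aeval_alg F (x ∘ i) hint)
  set Fx : ℂ := (aeval (x ∘ i) F : ℂ) with hFx
  set L : ℝ := max 0 (Real.log ‖s₀ Fx‖) with hL
  have hL0 : 0 ≤ L := le_max_left _ _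
  have hexpL : ∀ t : ℂ ≃+* ℂ, ‖t Fx‖ ≤ Real.exp L := by
    intro t
    refine (hs₀ t).trans ?_
    rcases (norm_nonneg (s₀ Fx)).eq_or_lt with h0 | h0
    · rw [← h0]; exact (Real.exp_pos L).le
    · calc ‖s₀ Fx‖ = Real.exp (Real.log ‖s₀ Fx‖) := (Real.exp_log h0).symm
        _ ≤ Real.exp L := Real.exp_le_exp.mpr (le_max_right _ _)
  have hHL : H ≤ C₂ * D * (1 + L) := by
    have h1 := hrel x hx hxE K hxK hint L hL0 hexpL s
    exact Real.exp_le_exp.mp (hs.trans h1)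
  have hCL : C₁ + C₂ * (2 + 2 * Real.log C₁) + 4 * C₂ * m ≤ C₂ * (1 + L) := by
    have h1 := hCH.trans hHL
    have h2 : (C : ℝ) * D ≤ (C₂ * (1 + L)) * D := by
      calc _ ≤ C₂ * D * (1 + L) := h1
        _ = (C₂ * (1 + L)) * D := by ring
    exact hC.trans (le_of_mul_le_mul_right h2 hD0)
  have hL1 : 1 + 2 * Real.log C₁ ≤ L := by
    have h1 : C₂ * (2 + 2 * Real.log C₁) ≤ C₂ * (1 + L) := by
      have : 0 ≤ 4 * C₂ * m := by positivity
      linarith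
    have h2 := le_of_mul_le_mul_left h1 (by linarith)
    linarith
  have hLpos : 0 < L := by linarith
  have hLlog : L = Real.log ‖s₀ Fx‖ := by
    rcases max_choice 0 (Real.log ‖s₀ Fx‖) with h | h
    · rw [← hL] at h; linarith
    · rw [← hL] at h; exact h
  have hFpos : 0 < ‖s₀ Fx‖ := by
    rcases (norm_nonneg (s₀ Fx)).eq_or_lt with h0 | h0
    · rw [← h0, Real.log_zero] at hLlog; linarith
    · exact h0
  have hFexp : ‖s₀ Fx‖ = Real.exp L := by rw [hLlog, Real.exp_log hFpos]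
  have hC₁F : C₁ ≤ ‖s₀ Fx‖ := by
    rw [hFexp, ← Real.exp_log (show 0 < C₁ by linarith)]
    exact Real.exp_le_exp.mpr (by linarith)
  refine ⟨s₀, fun b hb => ?_⟩
  have h1 := hS b hb s₀ x hx hC₁F
  set y : ℝ := ‖s₀ (x (i b))‖ with hy
  have hy0 : 0 < y := by
    rcases (norm_nonneg (s₀ (x (i b)))).eq_or_lt with h0 | h0
    · rw [← hy] at h0
      rw [← h0, zero_pow hm.ne', mul_zero] at h1
      linarith
    · exact h0
  have h2 : L ≤ Real.log C₁ + m * Real.log y := by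
    have h3 := Real.log_le_log hFpos h1
    rw [← hLlog, Real.log_mul (by linarith) (pow_pos hy0 m).ne', Real.log_pow] at h3
    exact h3
  have h4 : L ≤ 2 * (m * Real.log y) := by linarith
  have h5 : 0 ≤ Real.log y := by
    by_contra hneg
    push Not at hneg
    have : (m : ℝ) * Real.log y ≤ 0 := mul_nonpos_of_nonneg_of_nonpos (by linarith) hneg.le
    linarith
  calc H ≤ C₂ * D * (1 + L) := hHL
    _ ≤ C₂ * D * (2 * (2 * (m * Real.log y))) := by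
        apply mul_le_mul_of_nonneg_left _ (by positivity)
        linarith
    _ = (4 * C₂ * m) * D * Real.log y := by ring
    _ ≤ C * D * Real.log y := by
        apply mul_le_mul_of_nonneg_right _ h5
        apply mul_le_mul_of_nonneg_right _ hD0.le
        have : 0 ≤ C₂ * (2 + 2 * Real.log C₁) := by positivity
        linarith

/-- a place where the coordinate `i` is large -/
theorem pole_one {n : ℕ} {V : Set (Fin n → ℂ)} (hV : Pool.Agent.Hhelper14.ZPL.IsIrredClosed V)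
    (hVk : KClosed V) (hdim : Pool.Agent.Hhelper14.ZPL.dim V = 1) {i : Fin n}
    (hi : ∀ c : ℂ, ∃ x ∈ V, x i ≠ c) (a : Fin n) :
    ∃ (C : ℕ) (E : Set (Fin n → ℂ)), 1 ≤ C ∧ E.Finite ∧ ∀ x ∈ V, x ∉ E →
      ∀ (K : IntermediateField ℚ ℂ) [FiniteDimensional ℚ K], x a ∈ K → x i ∈ K →
        IsIntegral ℤ (x a) → IsIntegral ℤ (x i) → ∀ (s' : ℂ ≃+* ℂ) (T : ℝ),
          (C : ℝ) * Module.finrank ℚ K ≤ T → Real.exp T ≤ ‖s' (x a)‖ →
          ∃ s : ℂ ≃+* ℂ, T ≤ (C : ℝ) * Module.finrank ℚ K * Real.log ‖s (x i)‖ := by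
  have hF : ∀ c : ℂ, ∃ x ∈ V, (aeval (x ∘ (![i, i, a] : Fin 3 → Fin n)) (X 0 : MvPolynomial (Fin 3) Qb) : ℂ) ≠ c := by
    intro c
    obtain ⟨x, hx, hxc⟩ := hi c
    exact ⟨x, hx, by rw [aeval_X]; exact hxc⟩
  obtain ⟨C, E, hC, hE, h⟩ := cu_use hV hVk hdim ![i, i, a] hF (S := {0}) (C₁ := 1) le_rfl
    (m := 1) one_pos (by
      intro b hb s x hx _
      rw [Set.mem_singleton_iff] at hb
      subst hb
      rw [aeval_X, one_mul, pow_one]
      exact le_rfl) 2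
  refine ⟨C, E, hC, hE, ?_⟩
  intro x hx hxE K hfd ha1 hi1 ha2 hi2 s' T hT hs
  obtain ⟨s, hs2⟩ := h x hx hxE K (by
    intro b
    fin_cases b
    · exact hi1
    · exact hi1
    · exact ha1) (by
    intro b
    fin_cases b
    · exact hi2
    · exact hi2
    · exact ha2) s' T hT hs
  exact ⟨s, hs2 0 rfl⟩

/-- two coordinates have no common pole, or there is a place where both are large -/
theorem pole_dich {n : ℕ} {V : Set (Fin n → ℂ)} (hV : Pool.Agent.Hhelper14.ZPL.IsIrredClosed V)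
    (hVk : KClosed V) (hdim : Pool.Agent.Hhelper14.ZPL.dim V = 1) {i j : Fin n}
    (hi : ∀ c : ℂ, ∃ x ∈ V, x i ≠ c) (hj : ∀ c : ℂ, ∃ x ∈ V, x j ≠ c) :
    (∃ C : ℕ, ∀ x ∈ V, ∀ s : ℂ ≃+* ℂ, ‖s (x i)‖ ≤ C ∨ ‖s (x j)‖ ≤ C) ∨
    ∀ a : Fin n, ∃ (C : ℕ) (E : Set (Fin n → ℂ)), 1 ≤ C ∧ E.Finite ∧ ∀ x ∈ V, x ∉ E →
      ∀ (K : IntermediateField ℚ ℂ) [FiniteDimensional ℚ K], x a ∈ K → x i ∈ K → x j ∈ K →
        IsIntegral ℤ (x a) → IsIntegral ℤ (x i) → IsIntegral ℤ (x j) →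
        ∀ (s' : ℂ ≃+* ℂ) (T : ℝ), (C : ℝ) * Module.finrank ℚ K ≤ T →
          Real.exp T ≤ ‖s' (x a)‖ → ∃ s : ℂ ≃+* ℂ,
            T ≤ (C : ℝ) * Module.finrank ℚ K * Real.log ‖s (x i)‖ ∧
            T ≤ (C : ℝ) * Module.finrank ℚ K * Real.log ‖s (x j)‖ := by
  classical
  by_cases h0 : ∃ C : ℕ, ∀ x ∈ V, ∀ s : ℂ ≃+* ℂ, ‖s (x i)‖ ≤ C ∨ ‖s (x j)‖ ≤ C
  · exact Or.inl h0
  · right
    intro a
    obtain ⟨r, Φ, k, l, α, C, M, m, hC, hM, hkl, hΦ, h1, h2⟩ :=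
      cu_geo hV hVk hdim ![i, j, a] hi hj
    have hr : Nonempty (Fin r) := by
      by_contra hne
      apply h0
      obtain ⟨C', hC'⟩ := exists_nat_ge C
      refine ⟨C', fun x hx s => ?_⟩
      by_contra hcon
      push Not at hcon
      obtain ⟨t, -⟩ := h1 s x hx (hC'.trans hcon.1.le) (hC'.trans hcon.2.le)
      exact hne ⟨t⟩
    obtain ⟨t⟩ := hr
    obtain ⟨C', E, hC', hE, h⟩ := cu_use hV hVk hdim ![i, j, a] (hΦ t) (S := {0, 1}) hC
      (hkl t).2.2.2 (by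
        intro b hb s x hx hCx
        have h3 := h2 t s x hx hCx
        rcases hb with hb | hb
        · subst hb
          exact h3.1
        · rw [Set.mem_singleton_iff] at hb
          subst hb
          exact h3.2.1) 2
    refine ⟨C', E, hC', hE, ?_⟩
    intro x hx hxE K hfd ha1 hi1 hj1 ha2 hi2 hj2 s' T hT hs
    obtain ⟨s, hs2⟩ := h x hx hxE K (by
      intro b
      fin_cases b
      · exact hi1
      · exact hj1
      · exact ha1) (by
      intro b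
      fin_cases b
      · exact hi2
      · exact hj2
      · exact ha2) s' T hT hs
    exact ⟨s, hs2 0 (Or.inl rfl), hs2 1 (Or.inr rfl)⟩

end Pool.Agent.LGO.F
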