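import Mathlib
import Pool.Agent.LGO.Q.Ent

/-!
# LGO/F (real points at infinity): a matrix which is almost an isometry of the imaginary axis

`G = (A, B; C, D)` integral, `det G = N e`, `e ∈ {1, 2, 4}` (here: `1 ≤ e ≤ 4`), `A C = 0`, `B D = 0`, and it maps the point `i y` approximately to `i y'`:
`|D y' - A y| ≤ ε`, `|B + C y y'| ≤ ε`.  Then `N` has a divisor near `√N`.

PROOF.  If `A = 0` then `B C ≠ 0` (determinant), so `D = 0`; if `C = 0` then `A D ≠ 0`, so `B = 0`.  Case `B = C = 0`: `|A D| = N e`, `|A|, |D| ≥ 1`, and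
`|D| y' ≤ |A| y + ε`, `|A| y ≤ |D| y' + ε` with `ε ≤ 1/(2R)`, `1/R ≤ y, y' ≤ R`: `|D| ≤ 2 R² |A|`, `|A| ≤ 2 R² |D|`.  `n' = |A| / gcd(|A|, e)` divides `N` (`e ∣ A D / N`..:
`N e = |A| |D|`; with `d = gcd(|A|, e)`, `|A| = d n'`, `e = d e'`, `gcd(n', e') = 1`: `N e' = n' |D|`, so `e' ∣ |D|`, `N = n' (|D| / e')`) and
`|A| / 4 ≤ n' ≤ |A|`, `|A|² ≤ 2 R² |A D| = 2 R² N e`, `N e = |A D| ≤ 2 R² |A|²`.  Case `A = D = 0`: the same with `B`, `C`: `|B| ≤ |C| R² + ε`, `|C| / R² ≤ |B| + ε`.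
-/

namespace Pool.Agent.LGO.F

private lemma WMat_div {K : ℝ} (hK : 0 ≤ K) {a b N e : ℕ} (he : 1 ≤ e) (he4 : e ≤ 4)
    (ha : 1 ≤ a) (h : a * b = N * e) (h1 : (a : ℝ) ≤ K * b) (h2 : (b : ℝ) ≤ K * a) :
    ∃ n : ℕ, n ∣ N ∧ (N : ℝ) ≤ 16 * K * n ^ 2 ∧ (n : ℝ) ^ 2 ≤ 16 * K * N := by
  have hd : 0 < Nat.gcd a e := Nat.gcd_pos_of_pos_right a he
  obtain ⟨n, hn⟩ := Nat.gcd_dvd_left a e
  obtain ⟨e', he'⟩ := Nat.gcd_dvd_right a e
  have hcop : Nat.Coprime n e' := by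
    have h3 := Nat.coprime_div_gcd_div_gcd (m := a) (n := e) hd
    have h4 : a / Nat.gcd a e = n := Nat.div_eq_of_eq_mul_right hd hn
    have h5 : e / Nat.gcd a e = e' := Nat.div_eq_of_eq_mul_right hd he'
    rwa [h4, h5] at h3
  have hd4 : Nat.gcd a e ≤ 4 := (Nat.gcd_le_right a he).trans he4
  have h6 : n * b = N * e' := by
    apply Nat.eq_of_mul_eq_mul_left hd
    calc Nat.gcd a e * (n * b) = (Nat.gcd a e * n) * b := by ring
      _ = a * b := by rw [← hn]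
      _ = N * e := h
      _ = N * (Nat.gcd a e * e') := by rw [← he']
      _ = Nat.gcd a e * (N * e') := by ring
  have hna : n ≤ a := by
    calc n ≤ Nat.gcd a e * n := Nat.le_mul_of_pos_left n hd
      _ = a := hn.symm
  have han : a ≤ 4 * n := by
    calc a = Nat.gcd a e * n := hn
      _ ≤ 4 * n := Nat.mul_le_mul_right n hd4
  have hna' : (n : ℝ) ≤ a := by exact_mod_cast hna
  have han' : (a : ℝ) ≤ 4 * n := by exact_mod_cast han
  have he4' : (e : ℝ) ≤ 4 := by exact_mod_cast he4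
  have he1' : (1 : ℝ) ≤ e := by exact_mod_cast he
  have h' : (a : ℝ) * b = N * e := by exact_mod_cast h
  have hN0 : (0 : ℝ) ≤ N := Nat.cast_nonneg N
  have ha0 : (0 : ℝ) ≤ a := Nat.cast_nonneg a
  have hn0 : (0 : ℝ) ≤ n := Nat.cast_nonneg n
  refine ⟨n, ?_, ?_, ?_⟩
  · exact hcop.dvd_of_dvd_mul_right (Dvd.intro b h6)
  · calc (N : ℝ) ≤ N * e := le_mul_of_one_le_right hN0 he1'
      _ = a * b := h'.symm
      _ ≤ a * (K * a) := mul_le_mul_of_nonneg_left h2 ha0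
      _ = K * a ^ 2 := by ring
      _ ≤ K * (4 * n) ^ 2 := by gcongr
      _ = 16 * K * n ^ 2 := by ring
  · calc (n : ℝ) ^ 2 ≤ (a : ℝ) ^ 2 := by gcongr
      _ = (a : ℝ) * a := by ring
      _ ≤ a * (K * b) := mul_le_mul_of_nonneg_left h1 ha0
      _ = K * (a * b) := by ring
      _ = K * (N * e) := by rw [h']
      _ ≤ K * (N * 4) := by gcongr
      _ ≤ 16 * K * N := by nlinarith [mul_nonneg hK hN0]

private lemma WMat_abs {x z : ℤ} {u v ε K : ℝ} (hz : z ≠ 0) (hu : 0 < u) (hK : u⁻¹ * (v + ε) ≤ K)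
    (hε : 0 ≤ ε) (hv : 0 ≤ v) (h : |(x : ℝ) * u - z * v| ≤ ε) : |(x : ℝ)| ≤ K * |(z : ℝ)| := by
  have hz1 : (1 : ℝ) ≤ |(z : ℝ)| := by
    rw [← Int.cast_abs]
    exact_mod_cast Int.one_le_abs hz
  have h1 : |(x : ℝ)| * u ≤ |(z : ℝ)| * v + ε := by
    have h2 : |(x : ℝ) * u| ≤ |(x : ℝ) * u - z * v| + |(z : ℝ) * v| := by
      have := abs_add_le ((x : ℝ) * u - z * v) (z * v)
      rwa [sub_add_cancel] at this
    rw [abs_mul, abs_mul, abs_of_pos hu, abs_of_nonneg hv] at h2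
    linarith
  have h3 : |(x : ℝ)| ≤ u⁻¹ * (|(z : ℝ)| * v + ε) := by
    rw [inv_mul_eq_div, le_div_iff₀ hu]
    exact h1
  calc |(x : ℝ)| ≤ u⁻¹ * (|(z : ℝ)| * v + ε) := h3
    _ ≤ u⁻¹ * (|(z : ℝ)| * v + |(z : ℝ)| * ε) := by
      refine mul_le_mul_of_nonneg_left ?_ (inv_nonneg.2 hu.le)
      linarith [le_mul_of_one_le_left hε hz1]
    _ = u⁻¹ * (v + ε) * |(z : ℝ)| := by ring
    _ ≤ K * |(z : ℝ)| := mul_le_mul_of_nonneg_right hK (abs_nonneg _)

theorem mat_div {R : ℝ} (hR : 1 ≤ R) : ∃ C : ℕ, ∀ (A B D E : ℤ) (N e : ℕ) (y y' ε : ℝ),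
    1 ≤ N → 1 ≤ e → e ≤ 4 → A * E - B * D = N * e → A * D = 0 → B * E = 0 →
    R⁻¹ ≤ y → y ≤ R → R⁻¹ ≤ y' → y' ≤ R → 0 ≤ ε → ε ≤ 1 / (2 * R ^ 2) →
    |(E : ℝ) * y' - A * y| ≤ ε → |(B : ℝ) + D * (y * y')| ≤ ε →
    ∃ n : ℕ, n ∣ N ∧ N ≤ C * n ^ 2 ∧ n ^ 2 ≤ C * N := by
  obtain ⟨C, hC⟩ := exists_nat_ge (16 * (2 * R ^ 2))
  refine ⟨C, ?_⟩
  intro A B D E N e y y' ε hN he he4 hdet hAD hBE hy hyR hy' hyR' hε hε1 h1 h2
  have hR0 : 0 < R := by linarith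
  have hRi : 0 < R⁻¹ := inv_pos.2 hR0
  have hy0 : 0 < y := hRi.trans_le hy
  have hy0' : 0 < y' := hRi.trans_le hy'
  have hR2 : 1 ≤ R ^ 2 := one_le_pow₀ hR
  have hε2 : ε ≤ 1 / 2 := by
    refine hε1.trans ?_
    rw [div_le_div_iff₀ (by positivity) (by norm_num)]
    linarith
  have hK : (0 : ℝ) ≤ 2 * R ^ 2 := by positivity
  have hyi : y⁻¹ ≤ R := by
    rw [inv_le_comm₀ hy0 hR0]
    exact hy
  have hyi' : y'⁻¹ ≤ R := by
    rw [inv_le_comm₀ hy0' hR0]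
    exact hy'
  have hyi0 : 0 < y⁻¹ := inv_pos.2 hy0
  have hyi0' : 0 < y'⁻¹ := inv_pos.2 hy0'
  -- the conclusion from the two absolute values
  have fin : ∀ x z : ℤ, x ≠ 0 → |x * z| = N * e → |(x : ℝ)| ≤ 2 * R ^ 2 * |(z : ℝ)| →
      |(z : ℝ)| ≤ 2 * R ^ 2 * |(x : ℝ)| →
      ∃ n : ℕ, n ∣ N ∧ N ≤ C * n ^ 2 ∧ n ^ 2 ≤ C * N := by
    intro x z hx hxz hx1 hz1
    have h3 : x.natAbs * z.natAbs = N * e := by
      rw [← Int.natAbs_mul]
      have h4 : ((x * z).natAbs : ℤ) = ((N * e : ℕ) : ℤ) := by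
        rw [Int.natCast_natAbs, hxz]
        push_cast
        ring
      exact_mod_cast h4
    have hxr : ((x.natAbs : ℕ) : ℝ) = |(x : ℝ)| := by
      rw [Nat.cast_natAbs, Int.cast_abs]
    have hzr : ((z.natAbs : ℕ) : ℝ) = |(z : ℝ)| := by
      rw [Nat.cast_natAbs, Int.cast_abs]
    obtain ⟨n, hn, h5, h6⟩ := WMat_div hK he he4 (Int.natAbs_pos.2 hx) h3
      (by rw [hxr, hzr]; exact hx1) (by rw [hxr, hzr]; exact hz1)
    refine ⟨n, hn, ?_, ?_⟩
    · have h7 : (N : ℝ) ≤ C * n ^ 2 := h5.trans (by gcongr)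
      exact_mod_cast h7
    · have h7 : (n : ℝ) ^ 2 ≤ C * N := h6.trans (by gcongr)
      exact_mod_cast h7
  have hNe : (0 : ℤ) < (N : ℤ) * e := by positivity
  by_cases hA : A = 0
  · subst hA
    rw [zero_mul, zero_sub] at hdet
    have hB : B ≠ 0 := by
      rintro rfl
      rw [zero_mul, neg_zero] at hdet
      omega
    have hD : D ≠ 0 := by
      rintro rfl
      rw [mul_zero, neg_zero] at hdet
      omega
    have e1 : (B : ℝ) * 1 - (-D : ℤ) * (y * y') = (B : ℝ) + D * (y * y') := by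
      push_cast
      ring
    have e2 : (D : ℝ) * (y * y') - (-B : ℤ) * 1 = (B : ℝ) + D * (y * y') := by
      push_cast
      ring
    have hyy : y * y' ≤ R ^ 2 := by
      rw [pow_two]
      gcongr
    have hyyi : (y * y')⁻¹ ≤ R ^ 2 := by
      rw [mul_inv, pow_two]
      gcongr
    refine fin B D hB ?_ ?_ ?_
    · have : B * D = -(N * e) := by linarith
      rw [this, abs_neg, abs_of_pos hNe]
    · have h3 := WMat_abs (x := B) (z := -D) (u := 1) (v := y * y') (ε := ε) (K := 2 * R ^ 2)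
        (neg_ne_zero.2 hD) one_pos (by rw [inv_one, one_mul]; linarith) hε (by positivity)
        (by rw [e1]; exact h2)
      rwa [Int.cast_neg, abs_neg] at h3
    · have h3 := WMat_abs (x := D) (z := -B) (u := y * y') (v := 1) (ε := ε) (K := 2 * R ^ 2)
        (neg_ne_zero.2 hB) (by positivity) ?_ hε zero_le_one
        (by rw [e2]; exact h2)
      · rwa [Int.cast_neg, abs_neg] at h3
      · calc (y * y')⁻¹ * (1 + ε) ≤ R ^ 2 * 2 := by
              gcongr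
              linarith
          _ = 2 * R ^ 2 := by ring
  · have hD : D = 0 := by
      rcases mul_eq_zero.1 hAD with h | h
      · exact absurd h hA
      · exact h
    subst hD
    rw [mul_zero, sub_zero] at hdet
    have hE : E ≠ 0 := by
      rintro rfl
      rw [mul_zero] at hdet
      omega
    have key : ∀ u v : ℝ, 0 < u → u⁻¹ ≤ R → 0 ≤ v → v ≤ R → u⁻¹ * (v + ε) ≤ 2 * R ^ 2 := by
      intro u v hu huR hv hvR
      calc u⁻¹ * (v + ε) ≤ R * (R + R) := by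
            gcongr
            linarith
        _ = 2 * R ^ 2 := by ring
    refine fin A E hA ?_ ?_ ?_
    · rw [hdet, abs_of_pos hNe]
    · refine WMat_abs (x := A) (z := E) (u := y) (v := y') (ε := ε) hE hy0
        (key y y' hy0 hyi hy0'.le hyR') hε hy0'.le ?_
      rw [abs_sub_comm]
      exact h1
    · exact WMat_abs (x := E) (z := A) (u := y') (v := y) (ε := ε) hA hy0'
        (key y' y hy0' hyi' hy0.le hyR) hε hy0.le h1

end Pool.Agent.LGO.F
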