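import Mathlib
import Pool.Agent.LGO.Gal.JInj
import Pool.Agent.LGO.Mul.Unif

/-!
# LGO/F (real points at infinity): real values of `j`

PROOF.  `β` real, `β = j(τ)` with `τ` reduced (`Unif_exists_red` / `exists_red`).  `j(- τ̄) = conj (j(τ)) = β` (the `q`-expansion of `j` has real
coefficients: `E₄`, `Δ` at `- τ̄` are the conjugates; or from `j = 1728 g₂³ / (g₂³ - 27 g₃²)` with `g₂`, `g₃` of the lattice `ℤ + ℤ τ`, whose conjugate is the
lattice of `- τ̄`: `G2 1 (- τ̄) = conj (G2 1 τ)` termwise), so `- τ̄ = γ • τ` with `γ ∈ SL₂(ℤ)` (`Gal.j_inj`).  Both are in the closed fundamental domain.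
Elementary: let `γ = (a, b; c, d)`, `(- τ̄)(c τ + d) = a τ + b`, `Im(- τ̄) = Im τ` so `|c τ + d| = 1`; for reduced `τ` this means `c = 0` (`d = ±1`), or `|c| = 1` and
`|τ + d'| = 1`, `d' ∈ {0, ±1}`.  `c = 0`: `- τ̄ = τ + b'`: `Re τ = - b'/2`, so `Re τ ∈ {0, ±1/2}`; `- 1/2 → 1/2` by a translation.  Otherwise `|τ| = 1` or `|τ ± 1| = 1`:
if `|τ| = 1` the point `1 / (1 - τ)` (a translate under `SL₂(ℤ)`) has real part `1/2`; `|τ ± 1| = 1` with `|τ| ≥ 1`, `|Re τ| ≤ 1/2` forces `Re τ = ∓ 1/2`.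
(Alternatively avoid the fundamental domain: `γ' := γ ∘ (τ ↦ - τ̄)`: the matrix `J` with `J τ̄ = τ`, `det J = - 1`, `J² = ±1`; classify.)
-/

namespace Pool.Agent.LGO.F

open UpperHalfPlane Pool.Agent.Hhelper14.ZP

open Pool.Agent.EllSch in
/-- termwise conjugation -/
private theorem wtau_sum (τ : ℂ) (k : ℕ) :
    ∑' x : ℤ × ℤ, 1 / lat 1 (-(starRingEnd ℂ) τ) x ^ k =
      (starRingEnd ℂ) (∑' x : ℤ × ℤ, 1 / lat 1 τ x ^ k) := by
  rw [Complex.conj_tsum]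
  rw [← Equiv.tsum_eq ((Equiv.refl ℤ).prodCongr (Equiv.neg ℤ))
    (fun x : ℤ × ℤ => 1 / lat 1 (-(starRingEnd ℂ) τ) x ^ k)]
  refine tsum_congr fun x => ?_
  simp [lat]

open Pool.Agent.EllSch in
private theorem wtau_G2 (τ : ℂ) : G2 1 (-(starRingEnd ℂ) τ) = (starRingEnd ℂ) (G2 1 τ) := by
  unfold G2
  rw [wtau_sum, map_mul, map_ofNat]

open Pool.Agent.EllSch in
private theorem wtau_G3 (τ : ℂ) : G3 1 (-(starRingEnd ℂ) τ) = (starRingEnd ℂ) (G3 1 τ) := by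
  unfold G3
  rw [wtau_sum, map_mul, map_ofNat]

open Pool.Agent.EllSch in
/-- `j(- τ̄) = conj (j(τ))` -/
private theorem wtau_conj (τ τ' : ℍ) (h : (τ' : ℂ) = -(starRingEnd ℂ) (τ : ℂ)) :
    jInv τ' = (starRingEnd ℂ) (jInv τ) := by
  have h1 := jInv_mul τ'
  have h2 := congrArg (starRingEnd ℂ) (jInv_mul τ)
  have hd := disc_ne_zero (ind_one (τ := (τ' : ℂ)) τ'.im_pos)
  rw [h, wtau_G2, wtau_G3] at h1 hd
  simp only [map_mul, map_sub, map_pow, map_ofNat] at h2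
  exact mul_right_cancel₀ hd (h1.trans h2.symm)

/-- the coordinates of the equation `- τ̄ = γ • τ` -/
private theorem wtau_eq {τ τ' : ℍ} (h : (τ' : ℂ) = -(starRingEnd ℂ) (τ : ℂ))
    {γ : Matrix.SpecialLinearGroup (Fin 2) ℤ} (hγ : τ' = γ • τ) :
    ∃ a b c : ℤ, a * a - b * c = 1 ∧
      (c : ℝ) * ((τ : ℂ).re ^ 2 + (τ : ℂ).im ^ 2) + 2 * a * (τ : ℂ).re + b = 0 := by
  have h1 : (τ' : ℂ) = ((γ 0 0 : ℤ) * (τ : ℂ) + (γ 0 1 : ℤ)) / ((γ 1 0 : ℤ) * (τ : ℂ) + (γ 1 1 : ℤ)) := by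
    rw [hγ, UpperHalfPlane.coe_specialLinearGroup_apply]
    simp
  have hτ := τ.im_pos
  have him : 0 < (τ : ℂ).im := hτ
  have hdet : γ 0 0 * γ 1 1 - γ 0 1 * γ 1 0 = 1 := by
    have := γ.det_coe
    rwa [Matrix.det_fin_two] at this
  have hne : ((γ 1 0 : ℤ) : ℂ) * (τ : ℂ) + ((γ 1 1 : ℤ) : ℂ) ≠ 0 := by
    intro h0
    have hi := congrArg Complex.im h0
    simp at hi
    have hr := congrArg Complex.re h0
    simp at hr
    rcases hi with hi | hi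
    · rw [hi] at hr hdet
      simp at hr
      rw [hr] at hdet
      simp at hdet
    · exact him.ne' (by simpa using hi)
  rw [h, eq_div_iff hne] at h1
  have hi := congrArg Complex.im h1
  have hr := congrArg Complex.re h1
  simp at hi hr
  have h2 : ((γ 1 1 : ℤ) : ℝ) = ((γ 0 0 : ℤ) : ℝ) := by
    have h3 : (((γ 1 1 : ℤ) : ℝ) - ((γ 0 0 : ℤ) : ℝ)) * τ.im = 0 := by linarith
    rcases mul_eq_zero.1 h3 with h4 | h4
    · linarith
    · exact absurd h4 hτ.ne'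
  have h3 : γ 1 1 = γ 0 0 := by exact_mod_cast h2
  refine ⟨γ 0 0, γ 0 1, γ 1 0, by rw [h3] at hdet; exact hdet, ?_⟩
  rw [h2] at hr
  simp
  nlinarith

/-- the elementary classification -/
private theorem wtau_key {x y : ℝ} (hx : |x| ≤ 1 / 2) (h1 : 1 ≤ x ^ 2 + y ^ 2)
    {a b c : ℤ} (hdet : a * a - b * c = 1)
    (heq : (c : ℝ) * (x ^ 2 + y ^ 2) + 2 * a * x + b = 0) :
    x = 0 ∨ x = 1 / 2 ∨ x = -(1 / 2) ∨ x ^ 2 + y ^ 2 = 1 := by
  obtain ⟨hx1, hx2⟩ := abs_le.1 hx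
  have hx3 : x ^ 2 ≤ 1 / 4 := by nlinarith
  have hy2 : 3 / 4 ≤ y ^ 2 := by linarith
  have hd : (a : ℝ) * a - b * c = 1 := by exact_mod_cast hdet
  have hm : (c * x + a) ^ 2 + (c : ℝ) ^ 2 * y ^ 2 = 1 := by
    linear_combination (c : ℝ) * heq + hd
  have hc : c ^ 2 ≤ 1 := by
    by_contra hc
    have hc2 : 2 ≤ c ^ 2 := by omega
    have hc3 : (2 : ℝ) ≤ (c : ℝ) ^ 2 := by exact_mod_cast hc2
    nlinarith [sq_nonneg ((c : ℝ) * x + a)]
  have hc1 : -1 ≤ c := by nlinarith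
  have hc2 : c ≤ 1 := by nlinarith
  by_cases hc0 : c = 0
  · subst hc0
    have ha : a * a = 1 := by simpa using hdet
    have haR : (a : ℝ) * a = 1 := by exact_mod_cast ha
    have h2 : 2 * (a : ℝ) * x + b = 0 := by simpa using heq
    have h3 : (b : ℝ) ^ 2 = 4 * x ^ 2 := by
      have : (b : ℝ) = -(2 * a * x) := by linarith
      rw [this]
      linear_combination 4 * x ^ 2 * haR
    have hb2 : (b : ℝ) ^ 2 ≤ 1 := by rw [h3]; linarith
    have hb3 : b ^ 2 ≤ 1 := by exact_mod_cast hb2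
    have hb4 : -1 ≤ b := by nlinarith
    have hb5 : b ≤ 1 := by nlinarith
    by_cases hb0 : b = 0
    · left
      subst hb0
      have : x ^ 2 = 0 := by
        have h4 : (4 : ℝ) * x ^ 2 = 0 := by rw [← h3]; simp
        linarith
      exact pow_eq_zero_iff (by norm_num) |>.1 this
    · have hb6 : b ^ 2 = 1 := by
        have : b = 1 ∨ b = -1 := by omega
        rcases this with h | h <;> rw [h] <;> norm_num
      have hb7 : (b : ℝ) ^ 2 = 1 := by exact_mod_cast hb6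
      have h5 : (x - 1 / 2) * (x + 1 / 2) = 0 := by nlinarith
      rcases mul_eq_zero.1 h5 with h6 | h6
      · right; left; linarith
      · right; right; left; linarith
  · have hcc : c * c = 1 := by
      have : c = 1 ∨ c = -1 := by omega
      rcases this with h | h <;> rw [h] <;> norm_num
    have hccR : (c : ℝ) * c = 1 := by exact_mod_cast hcc
    have h2 : x ^ 2 + y ^ 2 + 2 * (c * a : ℤ) * x + (a : ℝ) ^ 2 = 1 := by
      push_cast
      linear_combination hm - (x ^ 2 + y ^ 2) * hccR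
    have ha0 : (a : ℝ) ^ 2 ≤ -(2 * (c * a : ℤ) * x) := by linarith
    have hca : ((c * a : ℤ) : ℝ) ^ 2 = (a : ℝ) ^ 2 := by
      push_cast
      linear_combination (a : ℝ) ^ 2 * hccR
    -- `e = c a`
    obtain ⟨e, he⟩ : ∃ e : ℤ, e = c * a := ⟨_, rfl⟩
    rw [← he] at h2 ha0 hca
    rw [← hca] at h2 ha0
    have he1 : |(e : ℝ)| ^ 2 ≤ |(e : ℝ)| := by
      rw [sq_abs]
      have h3 : -(2 * (e : ℝ) * x) ≤ |2 * (e : ℝ) * x| := neg_le_abs _
      have h4 : |2 * (e : ℝ) * x| = 2 * |(e : ℝ)| * |x| := by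
        rw [abs_mul, abs_mul]
        norm_num
      have h5 := abs_nonneg (e : ℝ)
      nlinarith
    have he2 : |(e : ℝ)| ≤ 1 := by
      by_contra h
      rw [not_le] at h
      nlinarith
    obtain ⟨he3, he4⟩ := abs_le.1 he2
    have he5 : -1 ≤ e := by exact_mod_cast he3
    have he6 : e ≤ 1 := by exact_mod_cast he4
    have he7 : e = -1 ∨ e = 0 ∨ e = 1 := by omega
    rcases he7 with h | h | h
    · rw [h] at ha0
      right; left
      push_cast at ha0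
      linarith
    · rw [h] at h2
      right; right; right
      push_cast at h2
      linarith
    · rw [h] at ha0
      right; right; left
      push_cast at ha0
      linarith

theorem real_tau {β : ℂ} (hβ : β.im = 0) : ∃ τ : ℍ, jInv τ = β ∧
    ((τ : ℂ).re = 0 ∨ (τ : ℂ).re = 1 / 2) := by
  obtain ⟨τ, hred, hj⟩ := Unif_exists_red β
  obtain ⟨him, h2, h3⟩ := hred
  have hnorm : 1 ≤ (τ : ℂ).re ^ 2 + (τ : ℂ).im ^ 2 := by
    have h4 : ‖(τ : ℂ)‖ ^ 2 = (τ : ℂ).re ^ 2 + (τ : ℂ).im ^ 2 := by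
      rw [← Complex.normSq_eq_norm_sq, Complex.normSq_apply]
      ring
    rw [← h4]
    nlinarith
  let τ' : ℍ := ⟨-(starRingEnd ℂ) (τ : ℂ), by simpa using τ.im_pos⟩
  have hτ' : (τ' : ℂ) = -(starRingEnd ℂ) (τ : ℂ) := rfl
  have hj' : jInv τ' = jInv τ := by
    rw [wtau_conj τ τ' hτ', hj]
    exact Complex.conj_eq_iff_im.2 hβ
  obtain ⟨γ, hγ⟩ := Gal.j_inj hj'
  obtain ⟨a, b, c, hdet, heq⟩ := wtau_eq hτ' hγ
  -- the three cases
  have key := wtau_key h2 hnorm hdet heq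
  rcases key with hk | hk | hk | hk
  · exact ⟨τ, hj, Or.inl hk⟩
  · exact ⟨τ, hj, Or.inr hk⟩
  · refine ⟨ModularGroup.T • τ, by rw [jInv_smul, hj], Or.inr ?_⟩
    have h5 := ModularGroup.coe_T_zpow_smul_eq (z := τ) (n := 1)
    rw [zpow_one] at h5
    rw [h5]
    rw [Complex.add_re, hk]
    norm_num
  · refine ⟨ModularGroup.S • (ModularGroup.T ^ (-1 : ℤ) • τ), by rw [jInv_smul, jInv_smul, hj], Or.inr ?_⟩
    have h5 := ModularGroup.coe_T_zpow_smul_eq (z := τ) (n := -1)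
    rw [UpperHalfPlane.modular_S_smul]
    change ((-((ModularGroup.T ^ (-1 : ℤ) • τ : ℍ) : ℂ))⁻¹ : ℂ).re = 1 / 2
    rw [h5]
    rw [Complex.inv_re, Complex.normSq_apply]
    have h6 : (-((τ : ℂ) + ((-1 : ℤ) : ℂ)) : ℂ).re = 1 - (τ : ℂ).re := by simp; ring
    have h7 : (-((τ : ℂ) + ((-1 : ℤ) : ℂ)) : ℂ).im = -(τ : ℂ).im := by simp
    rw [h6, h7]
    have h8 : (τ : ℂ).re ≤ 1 / 2 := (abs_le.1 h2).2
    have h9 : (1 - (τ : ℂ).re) * (1 - (τ : ℂ).re) + -(τ : ℂ).im * -(τ : ℂ).im =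
        2 * (1 - (τ : ℂ).re) := by nlinarith
    rw [h9]
    have h10 : (1 - (τ : ℂ).re) ≠ 0 := by linarith
    field_simp

end Pool.Agent.LGO.F
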