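import Mathlib
import Pool.Agent.LGO.F.WTau
import Pool.Agent.LGO.F.WMat
import Pool.Agent.LGO.Q.Cusp2

/-!
# LGO/F (real points at infinity): isogenies near a pair of real values

`β`, `γ` real, `β` not CM (`QM β`), `(Y, Z)` at distance `T^(-1/m)` from `(β, γ)` with an isogeny of degree `N`: then `T` is small or `N` has a divisor near `√N`.

PROOF (model: `cusp2a` in `LGO/Q/Cusp2.lean`, the constants are treated in the same way).  `τ_β`, `τ_γ` from `real_tau`.  Let `H_β = 1` if `Re τ_β = 0`, and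
`H_β = (2, -1; 0, 1)` if `Re τ_β = 1/2`; `H_β τ_β = i y`, the same for `γ`: `H_γ τ_γ = i y'`.  For `T ≥ D`: `loc_pt` gives `τ_Y, τ_Z` with `j(τ_Y) = Y`, `j(τ_Z) = Z` and
`‖τ_Y - τ_β‖^K T ≤ D`, `‖τ_Z - τ_γ‖^K T ≤ D`, all of norm `≤ R`, imaginary part `≥ 1/R`.  `Gal.isogDeg_iff_maps`: `g`, `det g = N`, `Maps g τ_Y τ_Z`, entries
`≤ 2 R⁴ N` (`entries_le`).  `G = H_γ g adj(H_β) = (A, B; D', E)` (notation of `mat_div`: first row `A, B`, second row `D, E`) integral, `det G = N e`,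
`e = det H_β det H_γ ∈ {1, 2, 4}`, and `G` maps `t = H_β τ_Y` to `t' = H_γ τ_Z`: `t' (D t + E) = A t + B`, `|t - i y|, |t' - i y'| ≤ 2 d`, `d = (D/T)^(1/K)`.
So `|i y' (D i y + E) - (A i y + B)| ≤ C N d`: real and imaginary parts: `|B + D y y'| ≤ C N d`, `|E y' - A y| ≤ C N d =: ε`.  Then
`|B E + A D y²| ≤ |E| |B + D y y'| + |D| y |A y - E y'| ≤ C N² d`, and `B E + A D y² = B E - A D (i y)²` is the value at `τ_β` of an integral quadratic polynomial: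
`i y = τ_β` or `i y = 2 τ_β - 1`, with coefficients `≤ C N²`.  Its coefficients (as a polynomial in `τ_β`) vanish iff `A D = 0` and `B E = 0`.  `QM β`: either they
vanish, or `exp(- C (log N)^C) ≤ C N² d`, which gives `T ≤ exp (C' (log N) ^ C')` (`fin_bd`, `concl` in `Cusp2`).  If they vanish and `ε ≤ 1 / (2 R²)` (otherwise again
`T` is small): `mat_div`.
-/

namespace Pool.Agent.LGO.F

open UpperHalfPlane Pool.Agent.Hhelper14.ZP Pool.Agent.LGO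

/-- the matrix in the coordinates `e₁ τ - f₁`, `e₂ τ - f₂`, in which the two points are purely imaginary -/
private theorem WCusp_core {g : Matrix (Fin 2) (Fin 2) ℤ} {τY τZ τβ τγ : ℂ} {e₁ f₁ e₂ f₂ : ℕ}
    {G R d : ℝ} (he₁ : e₁ ≤ 2) (hf₁ : f₁ ≤ 1) (he₂ : e₂ ≤ 2) (hf₂ : f₂ ≤ 1) (hR : 1 ≤ R)
    (hg : ∀ i j, |(g i j : ℝ)| ≤ G) (hmap : Maps g τY τZ) (hZ : ‖τZ‖ ≤ R) (hβ : ‖τβ‖ ≤ R)
    (hβre : (e₁ : ℝ) * τβ.re = f₁) (hγre : (e₂ : ℝ) * τγ.re = f₂)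
    (hdY : ‖τY - τβ‖ ≤ d) (hdZ : ‖τZ - τγ‖ ≤ d) :
    ∃ A B D E : ℤ, A * E - B * D = g.det * (e₁ * e₂) ∧ |(A : ℝ)| ≤ 9 * G ∧ |(B : ℝ)| ≤ 9 * G ∧
      |(D : ℝ)| ≤ 9 * G ∧ |(E : ℝ)| ≤ 9 * G ∧
      |(E : ℝ) * (e₂ * τγ.im) - A * (e₁ * τβ.im)| ≤ 144 * G * R * d ∧
      |(B : ℝ) + D * ((e₁ * τβ.im) * (e₂ * τγ.im))| ≤ 144 * G * R * d := by
  have hG : 0 ≤ G := (abs_nonneg _).trans (hg 0 0)
  have hd : 0 ≤ d := (norm_nonneg _).trans hdY
  have e₁r : (e₁ : ℝ) ≤ 2 := by exact_mod_cast he₁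
  have e₂r : (e₂ : ℝ) ≤ 2 := by exact_mod_cast he₂
  have f₁r : (f₁ : ℝ) ≤ 1 := by exact_mod_cast hf₁
  have f₂r : (f₂ : ℝ) ≤ 1 := by exact_mod_cast hf₂
  have e₁0 : (0 : ℝ) ≤ e₁ := Nat.cast_nonneg _
  have e₂0 : (0 : ℝ) ≤ e₂ := Nat.cast_nonneg _
  have f₁0 : (0 : ℝ) ≤ f₁ := Nat.cast_nonneg _
  have f₂0 : (0 : ℝ) ≤ f₂ := Nat.cast_nonneg _
  set a : ℤ := g 0 0 with ha
  set b : ℤ := g 0 1 with hb
  set c : ℤ := g 1 0 with hc
  set e : ℤ := g 1 1 with he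
  have ga : |(a : ℝ)| ≤ G := hg 0 0
  have gb : |(b : ℝ)| ≤ G := hg 0 1
  have gc : |(c : ℝ)| ≤ G := hg 1 0
  have ge : |(e : ℝ)| ≤ G := hg 1 1
  -- the bounds of the linear combinations
  have lin2 : ∀ (x y s t : ℝ) (K L : ℝ), 0 ≤ x → x ≤ 2 → 0 ≤ y → y ≤ 1 → |s| ≤ K → |t| ≤ L →
      |x * s - y * t| ≤ 2 * K + L := by
    intro x y s t K L hx hx2 hy hy1 hs ht
    calc |x * s - y * t| ≤ |x * s| + |y * t| := abs_sub _ _
      _ = x * |s| + y * |t| := by rw [abs_mul, abs_mul, abs_of_nonneg hx, abs_of_nonneg hy]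
      _ ≤ 2 * K + 1 * L := by gcongr
      _ = 2 * K + L := by ring
  have lin3 : ∀ (x y s t : ℝ), 0 ≤ x → x ≤ 2 → 0 ≤ y → y ≤ 1 → |s| ≤ G → |t| ≤ G →
      |s * y + t * x| ≤ 3 * G := by
    intro x y s t hx hx2 hy hy1 hs ht
    calc |s * y + t * x| ≤ |s * y| + |t * x| := abs_add_le _ _
      _ = |s| * y + |t| * x := by rw [abs_mul, abs_mul, abs_of_nonneg hx, abs_of_nonneg hy]
      _ ≤ G * 1 + G * 2 := by gcongr
      _ = 3 * G := by ring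
  set A : ℤ := e₂ * a - f₂ * c with hA
  set B : ℤ := e₂ * (a * f₁ + b * e₁) - f₂ * (c * f₁ + e * e₁) with hB
  set E : ℤ := c * f₁ + e * e₁ with hE
  have hA' : |(A : ℝ)| ≤ 9 * G := by
    have h := lin2 e₂ f₂ a c G G e₂0 e₂r f₂0 f₂r ga gc
    have h2 : ((A : ℤ) : ℝ) = e₂ * (a : ℝ) - f₂ * c := by
      rw [hA]
      push_cast
      ring
    rw [h2]
    linarith
  have hE' : |(E : ℝ)| ≤ 3 * G := by
    have h := lin3 e₁ f₁ c e e₁0 e₁r f₁0 f₁r gc ge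
    have h2 : ((E : ℤ) : ℝ) = c * (f₁ : ℝ) + e * e₁ := by
      rw [hE]
      push_cast
      ring
    rw [h2]
    exact h
  have hB' : |(B : ℝ)| ≤ 9 * G := by
    have h1 := lin3 e₁ f₁ a b e₁0 e₁r f₁0 f₁r ga gb
    have h3 := lin3 e₁ f₁ c e e₁0 e₁r f₁0 f₁r gc ge
    have h := lin2 e₂ f₂ _ _ (3 * G) (3 * G) e₂0 e₂r f₂0 f₂r h1 h3
    have h2 : ((B : ℤ) : ℝ) = e₂ * ((a : ℝ) * f₁ + b * e₁) - f₂ * (c * f₁ + e * e₁) := by
      rw [hB, hE]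
      push_cast
      ring
    rw [h2]
    linarith
  -- the points
  set u : ℂ := (e₁ : ℂ) * τβ - f₁ with hu
  set u' : ℂ := (e₂ : ℂ) * τγ - f₂ with hu'
  set t : ℂ := (e₁ : ℂ) * τY - f₁ with ht
  set t' : ℂ := (e₂ : ℂ) * τZ - f₂ with ht'
  set y : ℝ := e₁ * τβ.im with hy
  set y' : ℝ := e₂ * τγ.im with hy'
  have huI : u = (y : ℂ) * Complex.I := by
    apply Complex.ext
    · simp only [hu, Complex.sub_re, Complex.mul_re, Complex.natCast_re, Complex.natCast_im,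
        Complex.ofReal_re, Complex.ofReal_im, Complex.I_re, Complex.I_im]
      linarith
    · simp only [hu, hy, Complex.sub_im, Complex.mul_im, Complex.natCast_re, Complex.natCast_im,
        Complex.ofReal_re, Complex.ofReal_im, Complex.I_re, Complex.I_im]
      ring
  have huI' : u' = (y' : ℂ) * Complex.I := by
    apply Complex.ext
    · simp only [hu', Complex.sub_re, Complex.mul_re, Complex.natCast_re, Complex.natCast_im,
        Complex.ofReal_re, Complex.ofReal_im, Complex.I_re, Complex.I_im]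
      linarith
    · simp only [hu', hy', Complex.sub_im, Complex.mul_im, Complex.natCast_re,
        Complex.natCast_im, Complex.ofReal_re, Complex.ofReal_im, Complex.I_re, Complex.I_im]
      ring
  have hmt : t' * ((c : ℂ) * t + E) = A * t + B := by
    rw [Maps] at hmap
    rw [ht, ht', hA, hB, hE]
    push_cast
    linear_combination ((e₁ : ℂ) * e₂) * hmap
  have n1 : ‖u - t‖ ≤ 2 * d := by
    have h : u - t = (e₁ : ℂ) * (τβ - τY) := by rw [hu, ht]; ring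
    rw [h, norm_mul, Complex.norm_natCast, norm_sub_rev]
    gcongr
  have n2 : ‖u' - t'‖ ≤ 2 * d := by
    have h : u' - t' = (e₂ : ℂ) * (τγ - τZ) := by rw [hu', ht']; ring
    rw [h, norm_mul, Complex.norm_natCast, norm_sub_rev]
    gcongr
  have n3 : ‖u‖ ≤ 3 * R := by
    rw [hu]
    calc ‖(e₁ : ℂ) * τβ - f₁‖ ≤ ‖(e₁ : ℂ) * τβ‖ + ‖(f₁ : ℂ)‖ := norm_sub_le _ _
      _ = e₁ * ‖τβ‖ + f₁ := by rw [norm_mul, Complex.norm_natCast, Complex.norm_natCast]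
      _ ≤ 2 * R + 1 := by gcongr
      _ ≤ 3 * R := by linarith
  have n4 : ‖t'‖ ≤ 3 * R := by
    rw [ht']
    calc ‖(e₂ : ℂ) * τZ - f₂‖ ≤ ‖(e₂ : ℂ) * τZ‖ + ‖(f₂ : ℂ)‖ := norm_sub_le _ _
      _ = e₂ * ‖τZ‖ + f₂ := by rw [norm_mul, Complex.norm_natCast, Complex.norm_natCast]
      _ ≤ 2 * R + 1 := by gcongr
      _ ≤ 3 * R := by linarith
  have n5 : ‖(c : ℂ) * u + E‖ ≤ 4 * R * (9 * G) := by
    calc ‖(c : ℂ) * u + E‖ ≤ ‖(c : ℂ) * u‖ + ‖(E : ℂ)‖ := norm_add_le _ _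
      _ = |(c : ℝ)| * ‖u‖ + |(E : ℝ)| := by rw [norm_mul, norm_int, norm_int]
      _ ≤ G * (3 * R) + 3 * G := by gcongr
      _ ≤ 4 * R * (9 * G) := by
          have q1 : G ≤ G * R := le_mul_of_one_le_right hG hR
          have q2 : 0 ≤ G * R := hG.trans q1
          linarith
  have hw : u' * ((c : ℂ) * u + E) - (A * u + B) =
      (u' - t') * ((c : ℂ) * u + E) + t' * c * (u - t) - A * (u - t) := by
    linear_combination hmt
  have nw : ‖u' * ((c : ℂ) * u + E) - (A * u + B)‖ ≤ 144 * G * R * d := by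
    rw [hw]
    have p1 : ‖(u' - t') * ((c : ℂ) * u + E)‖ ≤ 2 * d * (4 * R * (9 * G)) := by
      rw [norm_mul]
      gcongr
    have p2 : ‖t' * c * (u - t)‖ ≤ 3 * R * G * (2 * d) := by
      rw [norm_mul, norm_mul, norm_int]
      gcongr
    have p3 : ‖(A : ℂ) * (u - t)‖ ≤ 9 * G * (2 * d) := by
      rw [norm_mul, norm_int]
      gcongr
    have p4 := norm_sub_le ((u' - t') * ((c : ℂ) * u + E) + t' * c * (u - t)) (A * (u - t))
    have p5 := norm_add_le ((u' - t') * ((c : ℂ) * u + E)) (t' * c * (u - t))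
    have p6 : 0 ≤ G * d := mul_nonneg hG hd
    have p7 : G * d ≤ G * d * R := le_mul_of_one_le_right p6 hR
    have p8 : 0 ≤ G * d * R := p6.trans p7
    refine (p4.trans (add_le_add (p5.trans (add_le_add p1 p2)) p3)).trans ?_
    linarith
  have hwI : u' * ((c : ℂ) * u + E) - (A * u + B) =
      ((-(B + c * (y * y')) : ℝ) : ℂ) + ((E * y' - A * y : ℝ) : ℂ) * Complex.I := by
    rw [huI, huI']
    push_cast
    linear_combination ((c : ℂ) * y * y') * Complex.I_sq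
  rw [hwI] at nw
  refine ⟨A, B, c, E, ?_, hA', hB', by linarith, by linarith, ?_, ?_⟩
  · rw [Matrix.det_fin_two, ← ha, ← hb, ← hc, ← he, hA, hB, hE]
    ring
  · have h := (Complex.abs_im_le_norm _).trans nw
    simp only [Complex.add_im, Complex.ofReal_im, Complex.mul_im, Complex.ofReal_re,
      Complex.I_im, Complex.I_re, mul_one, mul_zero, add_zero, zero_add] at h
    exact h
  · have h := (Complex.abs_re_le_norm _).trans nw
    simp only [Complex.add_re, Complex.ofReal_im, Complex.mul_re, Complex.ofReal_re,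
      Complex.I_im, Complex.I_re, mul_one, mul_zero, sub_zero, add_zero, abs_neg] at h
    exact h

private theorem WCusp_shift {τ : ℂ} (h : τ.re = 0 ∨ τ.re = 1 / 2) :
    ∃ e f : ℕ, 1 ≤ e ∧ e ≤ 2 ∧ f ≤ 1 ∧ (e : ℝ) * τ.re = f := by
  rcases h with h | h
  · exact ⟨1, 0, le_rfl, by norm_num, by norm_num, by rw [h]; simp⟩
  · exact ⟨2, 1, by norm_num, le_rfl, le_rfl, by rw [h]; norm_num⟩

private theorem WCusp_u {τ : ℂ} {e f : ℕ} (h : (e : ℝ) * τ.re = f) :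
    (e : ℂ) * τ - f = ((e * τ.im : ℝ) : ℂ) * Complex.I := by
  apply Complex.ext
  · simp only [Complex.sub_re, Complex.mul_re, Complex.natCast_re, Complex.natCast_im,
      Complex.ofReal_re, Complex.ofReal_im, Complex.I_re, Complex.I_im]
    linarith
  · simp only [Complex.sub_im, Complex.mul_im, Complex.natCast_re, Complex.natCast_im,
      Complex.ofReal_re, Complex.ofReal_im, Complex.I_re, Complex.I_im]
    ring

/-- the quadratic polynomial -/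
private theorem WCusp_val {A B D E : ℤ} {e f : ℕ} {τ : ℂ} {G R d y' : ℝ} (he : e ≤ 2) (hR : 1 ≤ R)
    (hτ : ‖τ‖ ≤ R) (hre : (e : ℝ) * τ.re = f) (hG : 0 ≤ G) (hd : 0 ≤ d) (him : 0 ≤ τ.im)
    (hD : |(D : ℝ)| ≤ 9 * G) (hE : |(E : ℝ)| ≤ 9 * G)
    (h1 : |(E : ℝ) * y' - A * (e * τ.im)| ≤ 144 * G * R * d)
    (h2 : |(B : ℝ) + D * ((e * τ.im) * y')| ≤ 144 * G * R * d) :
    ‖((-(A * D * e ^ 2) : ℤ) : ℂ) * τ ^ 2 + ((2 * A * D * e * f : ℤ) : ℂ) * τ +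
      ((B * E - A * D * f ^ 2 : ℤ) : ℂ)‖ ≤ 3888 * G ^ 2 * R ^ 2 * d := by
  set y : ℝ := e * τ.im with hy
  have hu := WCusp_u hre
  rw [← hy] at hu
  have e1 : ((-(A * D * e ^ 2) : ℤ) : ℂ) * τ ^ 2 + ((2 * A * D * e * f : ℤ) : ℂ) * τ +
      ((B * E - A * D * f ^ 2 : ℤ) : ℂ) = ((B * E + A * D * y ^ 2 : ℝ) : ℂ) := by
    push_cast
    linear_combination (-(A : ℂ) * D * ((e : ℂ) * τ - f + y * Complex.I)) * hu -
      (A : ℂ) * D * y ^ 2 * Complex.I_sq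
  have e2 : (B : ℝ) * E + A * D * y ^ 2 = E * (B + D * (y * y')) - D * y * (E * y' - A * y) := by
    ring
  have him' : τ.im ≤ R := ((le_abs_self _).trans (Complex.abs_im_le_norm τ)).trans hτ
  have er : (e : ℝ) ≤ 2 := by exact_mod_cast he
  have e0 : (0 : ℝ) ≤ e := Nat.cast_nonneg _
  have hy0 : 0 ≤ y := mul_nonneg e0 him
  have hy2 : y ≤ 2 * R := by
    rw [hy]
    gcongr
  rw [e1, Complex.norm_real, Real.norm_eq_abs, e2]
  have p1 : |(E : ℝ) * (B + D * (y * y'))| ≤ 9 * G * (144 * G * R * d) := by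
    rw [abs_mul]
    gcongr
  have p2 : |(D : ℝ) * y * (E * y' - A * y)| ≤ 9 * G * (2 * R) * (144 * G * R * d) := by
    rw [abs_mul, abs_mul, abs_of_nonneg hy0]
    gcongr
  have p3 := abs_sub ((E : ℝ) * (B + D * (y * y'))) (D * y * (E * y' - A * y))
  have p4 : 0 ≤ G ^ 2 * R * d := by positivity
  have p5 : G ^ 2 * R * d ≤ G ^ 2 * R * d * R := le_mul_of_one_le_right p4 hR
  refine (p3.trans (add_le_add p1 p2)).trans ?_
  linarith

private theorem WCusp_coef {A B D E : ℤ} {e f : ℕ} {G : ℝ} (he : e ≤ 2) (hf : f ≤ 1)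
    (hA : |(A : ℝ)| ≤ 9 * G) (hB : |(B : ℝ)| ≤ 9 * G) (hD : |(D : ℝ)| ≤ 9 * G)
    (hE : |(E : ℝ)| ≤ 9 * G) :
    |((-(A * D * e ^ 2) : ℤ) : ℝ)| ≤ 324 * G ^ 2 ∧ |((2 * A * D * e * f : ℤ) : ℝ)| ≤ 324 * G ^ 2 ∧
      |((B * E - A * D * f ^ 2 : ℤ) : ℝ)| ≤ 324 * G ^ 2 := by
  have hG9 : 0 ≤ 9 * G := (abs_nonneg _).trans hA
  have er : (e : ℝ) ≤ 2 := by exact_mod_cast he
  have e0 : (0 : ℝ) ≤ e := Nat.cast_nonneg _
  have fr : (f : ℝ) ≤ 1 := by exact_mod_cast hf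
  have f0 : (0 : ℝ) ≤ f := Nat.cast_nonneg _
  have p1 : |(A : ℝ)| * |(D : ℝ)| ≤ 9 * G * (9 * G) := mul_le_mul hA hD (abs_nonneg _) hG9
  have p2 : |(B : ℝ)| * |(E : ℝ)| ≤ 9 * G * (9 * G) := mul_le_mul hB hE (abs_nonneg _) hG9
  have p3 : 0 ≤ 9 * G * (9 * G) := mul_nonneg hG9 hG9
  have q1 : (e : ℝ) ^ 2 ≤ 2 ^ 2 := pow_le_pow_left₀ e0 er 2
  have q2 : (f : ℝ) ^ 2 ≤ 1 := pow_le_one₀ f0 fr
  have q3 : (e : ℝ) * f ≤ 2 * 1 := mul_le_mul er fr f0 (by norm_num)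
  refine ⟨?_, ?_, ?_⟩
  · have h : |((-(A * D * e ^ 2) : ℤ) : ℝ)| = |(A : ℝ)| * |(D : ℝ)| * (e : ℝ) ^ 2 := by
      push_cast
      rw [abs_neg, abs_mul, abs_mul, abs_of_nonneg (by positivity : (0 : ℝ) ≤ (e : ℝ) ^ 2)]
    rw [h]
    calc |(A : ℝ)| * |(D : ℝ)| * (e : ℝ) ^ 2 ≤ 9 * G * (9 * G) * 2 ^ 2 := by gcongr
      _ = 324 * G ^ 2 := by ring
  · have h : |((2 * A * D * e * f : ℤ) : ℝ)| = 2 * (|(A : ℝ)| * |(D : ℝ)|) * ((e : ℝ) * f) := by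
      push_cast
      rw [abs_mul, abs_mul, abs_mul, abs_mul, abs_of_nonneg e0, abs_of_nonneg f0,
        abs_of_pos (by norm_num : (0 : ℝ) < 2)]
      ring
    rw [h]
    calc 2 * (|(A : ℝ)| * |(D : ℝ)|) * ((e : ℝ) * f) ≤ 2 * (9 * G * (9 * G)) * (2 * 1) := by
          gcongr
      _ = 324 * G ^ 2 := by ring
  · have h : |((B * E - A * D * f ^ 2 : ℤ) : ℝ)| ≤ |(B : ℝ)| * |(E : ℝ)| +
        |(A : ℝ)| * |(D : ℝ)| * (f : ℝ) ^ 2 := by
      push_cast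
      refine (abs_sub _ _).trans ?_
      rw [abs_mul, abs_mul, abs_mul, abs_of_nonneg (by positivity : (0 : ℝ) ≤ (f : ℝ) ^ 2)]
    refine h.trans ?_
    calc |(B : ℝ)| * |(E : ℝ)| + |(A : ℝ)| * |(D : ℝ)| * (f : ℝ) ^ 2 ≤
        9 * G * (9 * G) + 9 * G * (9 * G) * 1 := by gcongr
      _ = 162 * G ^ 2 := by ring
      _ ≤ 324 * G ^ 2 := by
          have : 0 ≤ G ^ 2 := sq_nonneg G
          linarith

theorem cusp_real {β γ : ℂ} (hβ : QM β) (hβr : β.im = 0) (hγr : γ.im = 0) (C₀ : ℝ) {m : ℕ}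
    (hm : 0 < m) : ∃ C : ℕ, ∀ (T : ℝ) (N : ℕ) (Y Z : ℂ), 1 ≤ T → 3 ≤ N → IsogDeg N Y Z →
    ‖Y - β‖ ^ m * T ≤ C₀ → ‖Z - γ‖ ^ m * T ≤ C₀ →
    T ≤ Real.exp (C * Real.log N ^ C) ∨ ∃ n : ℕ, n ∣ N ∧ N ≤ C * n ^ 2 ∧ n ^ 2 ≤ C * N := by
  obtain ⟨τβ, hτβ, hreβ⟩ := real_tau hβr
  obtain ⟨τγ, hτγ, hreγ⟩ := real_tau hγr
  obtain ⟨e₁, f₁, he₁1, he₁, hf₁, hef₁⟩ := WCusp_shift hreβ
  obtain ⟨e₂, f₂, he₂1, he₂, hf₂, hef₂⟩ := WCusp_shift hreγ
  obtain ⟨k₁, D₁, R₁, hD₁, hR₁, hβR, hβi, hloc₁⟩ := loc_pt τβ C₀ hm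
  obtain ⟨k₂, D₂, R₂, hD₂, hR₂, hγR, hγi, hloc₂⟩ := loc_pt τγ C₀ hm
  rw [hτβ] at hloc₁
  rw [hτγ] at hloc₂
  obtain ⟨C₁, hQ⟩ := hβ τβ hτβ
  set R : ℝ := R₁ + R₂ with hRdef
  have hR : 1 ≤ R := by linarith
  have hR0 : 0 < R := by linarith
  obtain ⟨C₂, hdiv⟩ := mat_div (R := 3 * R) (by linarith)
  have hR8 : 1 ≤ R ^ 8 := one_le_pow₀ hR
  have hR10 : 1 ≤ R ^ 10 := one_le_pow₀ hR
  set D : ℝ := D₁ + D₂ with hDdef
  have hD : 1 ≤ D := by linarith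
  set K : ℕ := k₁ + k₂ with hK
  have hA₀ : 1 ≤ 15552 * R ^ 10 := by linarith
  have hB : 1 ≤ 1296 * R ^ 8 := by linarith
  have hA : 1 ≤ (15552 * R ^ 10) ^ K * D :=
    one_le_mul_of_one_le_of_one_le (one_le_pow₀ hA₀) hD
  obtain ⟨C, hC⟩ := fin_bd hA hB K C₁
  refine ⟨C + C₂, fun T N Y Z hT hN hYZ hY hZ => ?_⟩
  have hN0 : 0 < N := by omega
  have hN3 : (3 : ℝ) ≤ N := by exact_mod_cast hN
  have hL := one_le_log hN
  have hCN : (15552 * R ^ 10) ^ K * D * ((N : ℝ) ^ (2 * K) *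
      Real.exp (K * (C₁ * Real.log (1296 * R ^ 8 * (N : ℝ) ^ 2) ^ C₁))) ≤
      Real.exp ((C + C₂ : ℕ) * Real.log N ^ (C + C₂)) := by
    refine (hC N hN).trans (Real.exp_le_exp.2 ?_)
    have h1 : (C : ℝ) ≤ (C + C₂ : ℕ) := by exact_mod_cast Nat.le_add_right C C₂
    have h2 : Real.log N ^ C ≤ Real.log N ^ (C + C₂) := pow_le_pow_right₀ hL (by omega)
    exact mul_le_mul h1 h2 (by positivity) (by positivity)
  have hH3 : 3 ≤ 1296 * R ^ 8 * (N : ℝ) ^ 2 := by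
    calc (3 : ℝ) ≤ 1 * 3 ^ 2 := by norm_num
      _ ≤ 1296 * R ^ 8 * (N : ℝ) ^ 2 := mul_le_mul hB (pow_le_pow_left₀ (by norm_num) hN3 2)
        (by norm_num) (by linarith)
  have hB1 : 1 ≤ 1296 * R ^ 8 * (N : ℝ) ^ 2 := by linarith
  have hlog : 0 ≤ Real.log (1296 * R ^ 8 * (N : ℝ) ^ 2) := Real.log_nonneg hB1
  by_cases hTD : D ≤ T
  swap
  · left
    push Not at hTD
    refine le_trans ?_ hCN
    have h1 : 1 ≤ (15552 * R ^ 10) ^ K := one_le_pow₀ hA₀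
    have h2 : 1 ≤ (N : ℝ) ^ (2 * K) := one_le_pow₀ (by linarith)
    have h3 : 1 ≤ Real.exp (K * (C₁ * Real.log (1296 * R ^ 8 * (N : ℝ) ^ 2) ^ C₁)) :=
      Real.one_le_exp (by positivity)
    have h4 : 1 ≤ (N : ℝ) ^ (2 * K) *
        Real.exp (K * (C₁ * Real.log (1296 * R ^ 8 * (N : ℝ) ^ 2) ^ C₁)) :=
      one_le_mul_of_one_le_of_one_le h2 h3
    calc T ≤ D := hTD.le
      _ ≤ (15552 * R ^ 10) ^ K * D := le_mul_of_one_le_left (by linarith) h1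
      _ ≤ _ := le_mul_of_one_le_right (by linarith) h4
  obtain ⟨τY, hτY, hdY, hYR, hYi⟩ := hloc₁ T Y (by linarith) hY
  obtain ⟨τZ, hτZ, hdZ, hZR, hZi⟩ := hloc₂ T Z (by linarith) hZ
  have hYZ' := hYZ
  rw [← hτY, ← hτZ, Gal.isogDeg_iff_maps hN0] at hYZ'
  obtain ⟨g, hgdet, hgmap⟩ := hYZ'
  have hgdet0 : 0 < g.det := by
    rw [hgdet]
    exact_mod_cast hN0
  have hg : ∀ i j, |(g i j : ℝ)| ≤ 2 * R ^ 4 * (N : ℝ) := by
    intro i j
    refine (entries_le hgmap hgdet0 hR (by linarith) (by linarith)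
      (le_of_inv_le hR₁ (by linarith) hYi) (le_of_inv_le hR₂ (by linarith) hZi) i j).trans ?_
    rw [hgdet]
    push_cast
    exact le_rfl
  set d : ℝ := max ‖(τY : ℂ) - (τβ : ℂ)‖ ‖(τZ : ℂ) - (τγ : ℂ)‖ with hd
  have hd0 : 0 ≤ d := (norm_nonneg _).trans (le_max_left _ _)
  have hdT : d ^ K * T ≤ D := by
    rcases max_choice ‖(τY : ℂ) - (τβ : ℂ)‖ ‖(τZ : ℂ) - (τγ : ℂ)‖ with h1 | h1
    · rw [hd, h1]
      exact (hdY K (by omega)).trans (by linarith)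
    · rw [hd, h1]
      exact (hdZ K (by omega)).trans (by linarith)
  have hGdef : (0 : ℝ) ≤ 2 * R ^ 4 * (N : ℝ) := by positivity
  obtain ⟨a, b, c, e, hdet, ha, hb, hc, he, hx1, hx2⟩ := WCusp_core he₁ hf₁ he₂ hf₂ hR hg hgmap
    (by linarith : ‖(τZ : ℂ)‖ ≤ R) (by linarith : ‖(τβ : ℂ)‖ ≤ R) hef₁ hef₂
    (le_max_left _ _ : _ ≤ d) (le_max_right _ _ : _ ≤ d)
  by_cases hzero : a * c = 0 ∧ b * e = 0
  · -- the matrix is almost an isometry of the imaginary axis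
    by_cases hsmall : 144 * (2 * R ^ 4 * (N : ℝ)) * R * d ≤ 1 / (2 * (3 * R) ^ 2)
    · right
      have hinv : (3 * R)⁻¹ ≤ R⁻¹ := inv_anti₀ hR0 (by linarith)
      have e1r : (1 : ℝ) ≤ e₁ := by exact_mod_cast he₁1
      have e1r2 : (e₁ : ℝ) ≤ 2 := by exact_mod_cast he₁
      have e2r : (1 : ℝ) ≤ e₂ := by exact_mod_cast he₂1
      have e2r2 : (e₂ : ℝ) ≤ 2 := by exact_mod_cast he₂
      have i1 : R⁻¹ ≤ (τβ : ℂ).im := le_of_inv_le hR₁ (by linarith) hβi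
      have i2 : R⁻¹ ≤ (τγ : ℂ).im := le_of_inv_le hR₂ (by linarith) hγi
      have i0 : 0 < R⁻¹ := inv_pos.2 hR0
      have j1 : (τβ : ℂ).im ≤ R :=
        ((le_abs_self _).trans (Complex.abs_im_le_norm _)).trans (by linarith)
      have j2 : (τγ : ℂ).im ≤ R :=
        ((le_abs_self _).trans (Complex.abs_im_le_norm _)).trans (by linarith)
      have hdet' : a * e - b * c = N * ((e₁ * e₂ : ℕ) : ℤ) := by
        rw [hdet, hgdet]
        push_cast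
        ring
      have l1 : (3 * R)⁻¹ ≤ e₁ * (τβ : ℂ).im :=
        hinv.trans (i1.trans (le_mul_of_one_le_left (i0.le.trans i1) e1r))
      have l3 : (3 * R)⁻¹ ≤ e₂ * (τγ : ℂ).im :=
        hinv.trans (i2.trans (le_mul_of_one_le_left (i0.le.trans i2) e2r))
      have l2 : e₁ * (τβ : ℂ).im ≤ 3 * R :=
        (mul_le_mul e1r2 j1 (i0.le.trans i1) (by norm_num)).trans (by linarith)
      have l4 : e₂ * (τγ : ℂ).im ≤ 3 * R :=
        (mul_le_mul e2r2 j2 (i0.le.trans i2) (by norm_num)).trans (by linarith)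
      obtain ⟨n, hn1, hn2, hn3⟩ := hdiv a b c e N (e₁ * e₂) (e₁ * (τβ : ℂ).im)
        (e₂ * (τγ : ℂ).im) (144 * (2 * R ^ 4 * (N : ℝ)) * R * d) hN0
        (Nat.mul_pos he₁1 he₂1) (Nat.mul_le_mul he₁ he₂) hdet' hzero.1 hzero.2 l1 l2 l3 l4
        (by positivity) hsmall hx1 hx2
      refine ⟨n, hn1, hn2.trans ?_, hn3.trans ?_⟩
      · exact Nat.mul_le_mul_right _ (Nat.le_add_left _ _)
      · exact Nat.mul_le_mul_right _ (Nat.le_add_left _ _)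
    · left
      push Not at hsmall
      have h1 : (1 : ℝ) ≤ 15552 * R ^ 10 * (N : ℝ) ^ 2 * d := by
        rw [div_lt_iff₀ (by positivity)] at hsmall
        have h2 : 144 * (2 * R ^ 4 * (N : ℝ)) * R * d * (2 * (3 * R) ^ 2) =
            5184 * R ^ 7 * (N : ℝ) * d := by ring
        rw [h2] at hsmall
        have h3 : 5184 * R ^ 7 * (N : ℝ) * d ≤ 15552 * R ^ 10 * (N : ℝ) ^ 2 * d := by
          have h4 : R ^ 7 ≤ R ^ 10 := pow_le_pow_right₀ hR (by norm_num)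
          have h5 : (N : ℝ) ≤ (N : ℝ) ^ 2 := by
            calc (N : ℝ) = (N : ℝ) ^ 1 := (pow_one _).symm
              _ ≤ (N : ℝ) ^ 2 := pow_le_pow_right₀ (by linarith) (by norm_num)
          have h6 : (5184 : ℝ) ≤ 15552 := by norm_num
          gcongr
        linarith
      have hlow : Real.exp (-(C₁ * Real.log (1296 * R ^ 8 * (N : ℝ) ^ 2) ^ C₁)) ≤ 1 := by
        rw [Real.exp_le_one_iff, neg_nonpos]
        positivity
      exact (concl hlow (by linarith) (by linarith) hd0 h1 hdT).trans hCN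
  · left
    have b123 := WCusp_coef (e := e₁) (f := f₁) he₁ hf₁ ha hb hc he
    obtain ⟨b1, b2, b3⟩ := b123
    have e0 : 324 * (2 * R ^ 4 * (N : ℝ)) ^ 2 = 1296 * R ^ 8 * (N : ℝ) ^ 2 := by ring
    rw [e0] at b1 b2 b3
    have hne : ¬ (-(a * c * (e₁ : ℤ) ^ 2) = 0 ∧ 2 * a * c * (e₁ : ℤ) * f₁ = 0 ∧
        b * e - a * c * (f₁ : ℤ) ^ 2 = 0) := by
      rintro ⟨z1, -, z3⟩
      have he0 : (e₁ : ℤ) ^ 2 ≠ 0 := pow_ne_zero 2 (by exact_mod_cast (by omega : e₁ ≠ 0))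
      have z4 : a * c = 0 := (mul_eq_zero.1 (neg_eq_zero.1 z1)).resolve_right he0
      rw [z4, zero_mul, sub_zero] at z3
      exact hzero ⟨z4, z3⟩
    have hlow := hQ _ _ _ _ hH3 b1 b2 b3 hne
    have him : 0 ≤ (τβ : ℂ).im := τβ.im_pos.le
    have hval := WCusp_val (A := a) (B := b) he₁ hR (by linarith : ‖(τβ : ℂ)‖ ≤ R) hef₁ hGdef hd0
      him hc he hx1 hx2
    have hval' : 3888 * (2 * R ^ 4 * (N : ℝ)) ^ 2 * R ^ 2 * d =
        (15552 * R ^ 10) * (N : ℝ) ^ 2 * d := by ring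
    rw [hval'] at hval
    exact (concl hlow (by linarith) (by linarith) hd0 hval hdT).trans hCN

end Pool.Agent.LGO.F
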