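import Mathlib
import Pool.Agent.LGO.F.WCusp
import Pool.Agent.LGO.Q.Arch
import Pool.Agent.LGO.Q.Quad
import Pool.Agent.LGO.H.Height

/-!
# LGO/F (real points at infinity): the geometric form

`RealInf V a b c`: `V` has a point at infinity with `x_a = ∞`, `x_b = β`, `x_c = γ`, `β` and `γ` totally real, one of them not CM.

PROOF of `real_arch`.  As `good_arch` (`LGO/Q/Arch.lean`, the case `cusp2a`; the private lemmas `Arch_case2`, `Arch_unif`, `Arch_qm`, `Arch_mono`, .. have to be copied):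
`i = ![a, b, c]`.  `Arch_case2`: `F`, `C₀`, `m` with `‖σ x_b - σ β‖^m ‖σ F‖ ≤ C₀`, `‖σ x_c - σ γ‖^m ‖σ F‖ ≤ C₀`.  `β, γ` are algebraic (`limit_algebraic`), so there are
finitely many pairs `(σ β, σ γ)`; for each of them `cusp_real` (`Arch_qm`: `QM (σ β)`; if `β` is CM exchange the roles of `b` and `c`, `IsogDeg.symm`,
`mdeg` symmetric), one constant `C₁` (maximum; both conclusions are monotone in `C`).  If `‖σ F‖ ≥ C₀`-large then with `T = ‖σ F(x)‖`, `N` the degree: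
`T ≤ exp(C (log N)^C)` or the divisor.
`real_use`: `rel_height` (`LGO/H/RelB.lean`) for the triple `![a, b, c]`, `F` and the coordinate `x_a` (so `‖s x_a‖ ≤ exp (C D (1 + (log N)^C))`), and once more for the
triple `![a, d, b]`, the polynomial `X 0` and the coordinate `x_d` (`x_a` is not constant on `V`: it tends to infinity).
-/

namespace Pool.Agent.LGO.F

open MvPolynomial UpperHalfPlane Filter Topology Pool.Agent.Hhelper14.ZP Pool.Agent.Hhelper14.ZPL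
  Pool.Agent.LGO

/-- a point at infinity with `x_a = ∞` where `x_b`, `x_c` have totally real values, not both CM -/
def RealInf {n : ℕ} (V : Set (Fin n → ℂ)) (a b c : Fin n) : Prop :=
  ∃ (P : ℕ → Fin n → ℂ) (β γ : ℂ), (∀ m, P m ∈ V) ∧ Tendsto (fun m => ‖P m a‖) atTop atTop ∧
    Tendsto (fun m => P m b) atTop (𝓝 β) ∧ Tendsto (fun m => P m c) atTop (𝓝 γ) ∧
    (∀ σ : ℂ ≃+* ℂ, (σ β).im = 0 ∧ (σ γ).im = 0) ∧ (NCM β ∨ NCM γ)

section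

/-- the value is not CM -/
private theorem WArch_notCM {γ : ℂ} : (∀ τ : ℍ, jInv τ = γ → NonCM τ) ↔ ¬ IsCMVal γ := by
  constructor
  · intro h
    obtain ⟨τ₀, rfl⟩ := j_surj γ
    exact (not_isCMVal_jInv τ₀).mpr (h τ₀ rfl)
  · rintro h τ rfl
    exact (not_isCMVal_jInv τ).mp h

private theorem WArch_log {N : ℕ} (hN : 3 ≤ N) : 1 ≤ Real.log N := by
  rw [Real.le_log_iff_exp_le (by positivity)]
  have h1 := Real.exp_one_lt_d9
  have h2 : (3 : ℝ) ≤ N := by exact_mod_cast hN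
  linarith

/-- the bound is monotone in the constant -/
private theorem WArch_mono {a b N : ℕ} (hab : a ≤ b) (hN : 3 ≤ N) :
    Real.exp (a * Real.log N ^ a) ≤ Real.exp (b * Real.log N ^ b) := by
  have h1 := WArch_log hN
  apply Real.exp_le_exp.mpr
  have h2 : (a : ℝ) ≤ b := by exact_mod_cast hab
  have h3 : Real.log N ^ a ≤ Real.log N ^ b := pow_le_pow_right₀ h1 hab
  exact mul_le_mul h2 h3 (by positivity) (by positivity)

/-- the bound is larger than the constant -/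
private theorem WArch_const {a N : ℕ} (hN : 3 ≤ N) : (a : ℝ) ≤ Real.exp (a * Real.log N ^ a) := by
  have h1 := WArch_log hN
  have h2 : (a : ℝ) ≤ a * Real.log N ^ a := by
    have h3 : 1 ≤ Real.log N ^ a := one_le_pow₀ h1
    nlinarith [(Nat.cast_nonneg a : (0 : ℝ) ≤ a)]
  have h4 := Real.add_one_le_exp ((a : ℝ) * Real.log N ^ a)
  linarith

/-- finitely many constants -/
private theorem WArch_unif {ι : Type} {S : Set ι} (hS : S.Finite) {p : ι → ℕ → Prop}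
    (hp : ∀ s a b, a ≤ b → p s a → p s b) (h : ∀ s ∈ S, ∃ C, p s C) : ∃ C, ∀ s ∈ S, p s C := by
  classical
  choose! C hC using h
  refine ⟨hS.toFinset.sup C, fun s hs => ?_⟩
  exact hp s (C s) _ (Finset.le_sup (hS.mem_toFinset.mpr hs)) (hC s hs)

/-- the images of an algebraic number -/
private theorem WArch_alg {γ : ℂ} (hγ : IsAlgebraic ℚ γ) (σ : ℂ ≃+* ℂ) : IsAlgebraic ℚ (σ γ) := by
  have h : (σ γ) = (σ.toRingHom.toRatAlgHom) γ := rfl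
  rw [h]
  exact hγ.algHom _

private theorem WArch_finite {γ : ℂ} (hγ : IsAlgebraic ℚ γ) :
    {x : ℂ | ∃ σ : ℂ ≃+* ℂ, σ γ = x}.Finite := by
  refine ((minpoly ℚ γ).rootSet_finite ℂ).subset ?_
  rintro x ⟨σ, rfl⟩
  rw [Polynomial.mem_rootSet]
  refine ⟨minpoly.ne_zero hγ.isIntegral, ?_⟩
  have h : (σ γ) = (σ.toRingHom.toRatAlgHom) γ := rfl
  rw [h, Polynomial.aeval_algHom_apply, minpoly.aeval, map_zero]

/-- common constants for finitely many inequalities -/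
private theorem WArch_common {ι Ω : Type} [Fintype ι] (T : Ω → ℝ) (A B : ι → Ω → ℝ)
    (hA : ∀ j ω, 0 ≤ A j ω) (hB : ∀ j ω, 0 ≤ B j ω)
    (h : ∀ j, ∃ (K : ℝ) (m : ℕ), 0 < K ∧ 0 < m ∧ ∀ ω, K ≤ T ω →
      A j ω ^ m * T ω ≤ K * B j ω ^ m) :
    ∃ (C₀ : ℝ) (m : ℕ), 0 < m ∧ ∀ ω, C₀ ≤ T ω →
      1 ≤ T ω ∧ ∀ j, A j ω ^ m * T ω ≤ C₀ * B j ω ^ m := by
  classical
  choose K m hK hm hKm using h
  set M : ℕ := ∏ j, m j with hM
  have hM0 : 0 < M := Finset.prod_pos fun j _ => hm j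
  set C₀ : ℝ := 1 + ∑ j, (max 1 (K j)) ^ M with hC₀
  have hnn : ∀ j, 0 ≤ (max 1 (K j)) ^ M := fun j =>
    pow_nonneg (le_trans zero_le_one (le_max_left _ _)) _
  have h1 : ∀ j, (max 1 (K j)) ^ M ≤ C₀ := by
    intro j
    have := Finset.single_le_sum (f := fun j => (max 1 (K j)) ^ M) (fun j _ => hnn j)
      (Finset.mem_univ j)
    linarith
  refine ⟨C₀, M, hM0, fun ω hω => ?_⟩
  have hT1 : 1 ≤ T ω := by
    have : 0 ≤ ∑ j, (max 1 (K j)) ^ M := Finset.sum_nonneg fun j _ => hnn j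
    linarith
  refine ⟨hT1, fun j => ?_⟩
  obtain ⟨r, hr⟩ : m j ∣ M := Finset.dvd_prod_of_mem m (Finset.mem_univ j)
  have hr0 : r ≠ 0 := by
    rintro rfl
    rw [mul_zero] at hr
    omega
  have h2 : K j ≤ T ω := by
    have h3 : K j ≤ max 1 (K j) := le_max_right _ _
    have h4 : max 1 (K j) ≤ (max 1 (K j)) ^ M := le_self_pow₀ (le_max_left _ _) hM0.ne'
    have := h1 j
    linarith
  have h5 := hKm j ω h2
  have h6 : (A j ω ^ m j * T ω) ^ r ≤ (K j * B j ω ^ m j) ^ r :=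
    pow_le_pow_left₀ (mul_nonneg (pow_nonneg (hA j ω) _) (by linarith)) h5 r
  rw [mul_pow, mul_pow, ← pow_mul, ← pow_mul, ← hr] at h6
  have h7 : T ω ≤ T ω ^ r := le_self_pow₀ hT1 hr0
  have h8 : K j ^ r ≤ C₀ := by
    have h9 : K j ^ r ≤ (max 1 (K j)) ^ r := pow_le_pow_left₀ (hK j).le (le_max_right _ _) r
    have h10 : (max 1 (K j)) ^ r ≤ (max 1 (K j)) ^ M :=
      pow_le_pow_right₀ (le_max_left _ _) (by
        rw [hr]
        exact Nat.le_mul_of_pos_left r (hm j))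
    have := h1 j
    linarith
  calc A j ω ^ M * T ω ≤ A j ω ^ M * T ω ^ r :=
        mul_le_mul_of_nonneg_left h7 (pow_nonneg (hA j ω) _)
    _ ≤ K j ^ r * B j ω ^ M := h6
    _ ≤ C₀ * B j ω ^ M := mul_le_mul_of_nonneg_right h8 (pow_nonneg (hB j ω) _)

variable {n : ℕ} {V : Set (Fin n → ℂ)}

/-- `geo` for several pairs with common constants -/
private theorem WArch_geo (hV : Pool.Agent.Hhelper14.ZPL.IsIrredClosed V)
    (hVk : KClosed V) (hdim : Pool.Agent.Hhelper14.ZPL.dim V = 1) (i : Fin 3 → Fin n)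
    (P : ℕ → Fin n → ℂ) (hP : ∀ m, P m ∈ V) (a : Fin 3)
    (ha : Tendsto (fun m => ‖P m (i a)‖) atTop atTop) :
    ∃ F : MvPolynomial (Fin 3) Qb, (∀ c : ℂ, ∃ x ∈ V, (aeval (x ∘ i) F : ℂ) ≠ c) ∧
      ∀ (k : ℕ) (N D : Fin k → MvPolynomial (Fin 3) Qb),
        (∀ j, ∃ x ∈ V, (aeval (x ∘ i) (D j) : ℂ) ≠ 0) →
        (∀ j, Tendsto (fun m => (aeval (P m ∘ i) (N j) / aeval (P m ∘ i) (D j) : ℂ)) atTop
          (𝓝 0)) →
        ∃ (C₀ : ℝ) (m : ℕ), 0 < m ∧ ∀ (σ : ℂ ≃+* ℂ), ∀ x ∈ V,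
          C₀ ≤ ‖σ (aeval (x ∘ i) F : ℂ)‖ → 1 ≤ ‖σ (aeval (x ∘ i) F : ℂ)‖ ∧
          ∀ j, ‖σ (aeval (x ∘ i) (N j) : ℂ)‖ ^ m * ‖σ (aeval (x ∘ i) F : ℂ)‖ ≤
            C₀ * ‖σ (aeval (x ∘ i) (D j) : ℂ)‖ ^ m := by
  obtain ⟨F, hF, hgeo⟩ := geo hV hVk hdim i P hP a ha
  refine ⟨F, hF, fun k N D hD hND => ?_⟩
  have h1 := WArch_common (ι := Fin k) (Ω := (ℂ ≃+* ℂ) × V)
    (fun ω => ‖ω.1 (aeval (ω.2.1 ∘ i) F : ℂ)‖)
    (fun j ω => ‖ω.1 (aeval (ω.2.1 ∘ i) (N j) : ℂ)‖)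
    (fun j ω => ‖ω.1 (aeval (ω.2.1 ∘ i) (D j) : ℂ)‖)
    (fun j ω => norm_nonneg _) (fun j ω => norm_nonneg _) (fun j => by
      obtain ⟨C, m, hC, hm, h⟩ := hgeo (N j) (D j) (hD j) (hND j)
      exact ⟨C, m, hC, hm, fun ω hω => h ω.1 ω.2.1 ω.2.2 hω⟩)
  obtain ⟨C₀, m, hm, h⟩ := h1
  exact ⟨C₀, m, hm, fun σ x hx hσ => h (σ, ⟨x, hx⟩) hσ⟩

private theorem WArch_sub {P : ℕ → Fin n → ℂ} {i : Fin 3 → Fin n} {a : Fin 3} (γ : Qb)
    (hc : Tendsto (fun m => P m (i a)) atTop (𝓝 (γ : ℂ))) :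
    Tendsto (fun m => (aeval (P m ∘ i) (X a - C γ : MvPolynomial (Fin 3) Qb) /
      aeval (P m ∘ i) (1 : MvPolynomial (Fin 3) Qb) : ℂ)) atTop (𝓝 0) := by
  have h1 : Tendsto (fun m => P m (i a) - (γ : ℂ)) atTop (𝓝 ((γ : ℂ) - γ)) :=
    hc.sub tendsto_const_nhds
  rw [sub_self] at h1
  refine h1.congr fun m => ?_
  rw [map_one, map_sub, aeval_X, aeval_C, Function.comp_apply, div_one]
  rfl

private theorem WArch_qm {γ : ℂ} (hγ : IsAlgebraic ℚ γ) (hcm : ∀ τ : ℍ, jInv τ = γ → NonCM τ)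
    (σ : ℂ ≃+* ℂ) : QM (σ γ) := by
  apply quad (WArch_alg hγ σ)
  rw [WArch_notCM, isCMVal_map_iff]
  exact WArch_notCM.mp hcm

private theorem WArch_mem {γ : ℂ} (hγ : IsAlgebraic ℚ γ) : γ ∈ Qb := by
  rw [mem_algebraicClosure_iff]
  exact hγ

private theorem WArch_val1 (y : Fin 3 → ℂ) (σ : ℂ ≃+* ℂ) :
    σ (aeval y (1 : MvPolynomial (Fin 3) Qb) : ℂ) = 1 := by
  rw [map_one, map_one]

private theorem WArch_valsub (x : Fin n → ℂ) (i : Fin 3 → Fin n) (σ : ℂ ≃+* ℂ) (a : Fin 3)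
    (γ : Qb) : σ (aeval (x ∘ i) (X a - C γ : MvPolynomial (Fin 3) Qb) : ℂ) =
      σ (x (i a)) - σ (γ : ℂ) := by
  rw [map_sub, aeval_X, aeval_C, Function.comp_apply, map_sub]
  rfl

/-- one coordinate tends to infinity -/
private theorem WArch_case2 (hV : Pool.Agent.Hhelper14.ZPL.IsIrredClosed V)
    (hVk : KClosed V) (hdim : Pool.Agent.Hhelper14.ZPL.dim V = 1) (i : Fin 3 → Fin n)
    {P : ℕ → Fin n → ℂ} {e : Equiv.Perm (Fin 3)} {β γ : ℂ} (hP : ∀ m, P m ∈ V)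
    (ha : Tendsto (fun m => ‖P m (i (e 0))‖) atTop atTop)
    (hb : Tendsto (fun m => P m (i (e 1))) atTop (𝓝 β))
    (hc : Tendsto (fun m => P m (i (e 2))) atTop (𝓝 γ)) :
    ∃ F : MvPolynomial (Fin 3) Qb, (∀ c : ℂ, ∃ x ∈ V, (aeval (x ∘ i) F : ℂ) ≠ c) ∧
      ∃ (C₀ : ℝ) (m : ℕ), 0 < m ∧ ∀ (σ : ℂ ≃+* ℂ), ∀ x ∈ V,
          C₀ ≤ ‖σ (aeval (x ∘ i) F : ℂ)‖ → 1 ≤ ‖σ (aeval (x ∘ i) F : ℂ)‖ ∧
          ‖σ (x (i (e 1))) - σ β‖ ^ m * ‖σ (aeval (x ∘ i) F : ℂ)‖ ≤ C₀ ∧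
          ‖σ (x (i (e 2))) - σ γ‖ ^ m * ‖σ (aeval (x ∘ i) F : ℂ)‖ ≤ C₀ := by
  have hβ : IsAlgebraic ℚ β := limit_algebraic hV hVk hdim i P hP (e 0) (e 1) ha hb
  have hγ : IsAlgebraic ℚ γ := limit_algebraic hV hVk hdim i P hP (e 0) (e 2) ha hc
  obtain ⟨β', hβ'⟩ : ∃ β' : Qb, (β' : ℂ) = β := ⟨⟨β, WArch_mem hβ⟩, rfl⟩
  obtain ⟨γ', hγ'⟩ : ∃ γ' : Qb, (γ' : ℂ) = γ := ⟨⟨γ, WArch_mem hγ⟩, rfl⟩
  obtain ⟨F, hF, hgeo⟩ := WArch_geo hV hVk hdim i P hP (e 0) ha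
  obtain ⟨C₀, m, hm, h0⟩ := hgeo 2 ![X (e 1) - C β', X (e 2) - C γ'] ![1, 1] (by
      intro j
      fin_cases j
      · exact ⟨P 0, hP 0, by simp⟩
      · exact ⟨P 0, hP 0, by simp⟩) (by
      intro j
      fin_cases j
      · exact WArch_sub β' (by rw [hβ']; exact hb)
      · exact WArch_sub γ' (by rw [hγ']; exact hc))
  refine ⟨F, hF, C₀, m, hm, fun σ x hx hσ => ?_⟩
  obtain ⟨hT1, hj⟩ := h0 σ x hx hσ
  refine ⟨hT1, ?_, ?_⟩
  · have h := hj 0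
    simp only [Matrix.cons_val] at h
    rw [WArch_val1, WArch_valsub, norm_one, one_pow, mul_one] at h
    rw [← hβ']
    exact h
  · have h := hj 1
    simp only [Matrix.cons_val] at h
    rw [WArch_val1, WArch_valsub, norm_one, one_pow, mul_one] at h
    rw [← hγ']
    exact h

end

/-- the divisor for larger constants -/
private theorem WArch_div {C C' N : ℕ} (h : C ≤ C')
    (hd : ∃ n : ℕ, n ∣ N ∧ N ≤ C * n ^ 2 ∧ n ^ 2 ≤ C * N) :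
    ∃ n : ℕ, n ∣ N ∧ N ≤ C' * n ^ 2 ∧ n ^ 2 ≤ C' * N := by
  obtain ⟨n, h1, h2, h3⟩ := hd
  exact ⟨n, h1, h2.trans (Nat.mul_le_mul_right _ h), h3.trans (Nat.mul_le_mul_right _ h)⟩

theorem real_arch {n : ℕ} {V : Set (Fin n → ℂ)} (hV : Pool.Agent.Hhelper14.ZPL.IsIrredClosed V)
    (hVk : KClosed V) (hdim : Pool.Agent.Hhelper14.ZPL.dim V = 1) {a b c : Fin n}
    (hg : RealInf V a b c) :
    ∃ (F : MvPolynomial (Fin 3) Qb) (C : ℕ),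
      (∀ z : ℂ, ∃ x ∈ V, (aeval (x ∘ ![a, b, c]) F : ℂ) ≠ z) ∧
      ∀ x ∈ V, ∀ N : ℕ, 3 ≤ N → IsogDeg N (x b) (x c) →
        (∀ σ : ℂ ≃+* ℂ, ‖σ (aeval (x ∘ ![a, b, c]) F : ℂ)‖ ≤ Real.exp (C * Real.log N ^ C)) ∨
          ∃ n : ℕ, n ∣ N ∧ N ≤ C * n ^ 2 ∧ n ^ 2 ≤ C * N := by
  obtain ⟨P, β, γ, hP, ha, hb, hc, hreal, hncm⟩ := hg
  have hβa : IsAlgebraic ℚ β := limit_algebraic hV hVk hdim ![a, b, c] P hP 0 1 ha hb
  have hγa : IsAlgebraic ℚ γ := limit_algebraic hV hVk hdim ![a, b, c] P hP 0 2 ha hc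
  have hS : {p : ℂ × ℂ | ∃ σ : ℂ ≃+* ℂ, (σ β, σ γ) = p}.Finite := by
    refine ((WArch_finite hβa).prod (WArch_finite hγa)).subset ?_
    rintro p ⟨σ, rfl⟩
    exact ⟨⟨σ, rfl⟩, ⟨σ, rfl⟩⟩
  obtain ⟨F, hF, C₀, m, hm, h0⟩ := WArch_case2 hV hVk hdim ![a, b, c] (e := Equiv.refl _) hP
    ha hb hc
  obtain ⟨C₁, hC₁⟩ := WArch_unif hS (p := fun s C => ∀ (T : ℝ) (N : ℕ) (Y Z : ℂ), 1 ≤ T →
    3 ≤ N → IsogDeg N Y Z → ‖Y - s.1‖ ^ m * T ≤ C₀ → ‖Z - s.2‖ ^ m * T ≤ C₀ →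
    T ≤ Real.exp (C * Real.log N ^ C) ∨ ∃ n : ℕ, n ∣ N ∧ N ≤ C * n ^ 2 ∧ n ^ 2 ≤ C * N) (by
      intro s a b hab h T N Y Z h1 h2 h3 h4 h5
      rcases h T N Y Z h1 h2 h3 h4 h5 with h6 | h6
      · exact Or.inl (h6.trans (WArch_mono hab h2))
      · exact Or.inr (WArch_div hab h6)) (by
      rintro s ⟨σ, rfl⟩
      obtain ⟨r1, r2⟩ := hreal σ
      rcases hncm with h | h
      · exact cusp_real (WArch_qm hβa (fun τ hτ => (nonCM_iff τ).mpr (h τ hτ)) σ) r1 r2 C₀ hm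
      · obtain ⟨C, hC⟩ := cusp_real (WArch_qm hγa (fun τ hτ => (nonCM_iff τ).mpr (h τ hτ)) σ) r2 r1 C₀ hm
        exact ⟨C, fun T N Y Z h1 h2 h3 h4 h5 => hC T N Z Y h1 h2 h3.symm h5 h4⟩)
  refine ⟨F, C₁ + ⌈C₀⌉₊, hF, fun x hx N hN hI => ?_⟩
  by_cases hdiv : ∃ n : ℕ, n ∣ N ∧ N ≤ (C₁ + ⌈C₀⌉₊) * n ^ 2 ∧ n ^ 2 ≤ (C₁ + ⌈C₀⌉₊) * N
  · exact Or.inr hdiv
  refine Or.inl fun σ => ?_
  rcases le_or_gt C₀ ‖σ (aeval (x ∘ ![a, b, c]) F : ℂ)‖ with h1 | h1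
  · obtain ⟨hT1, h2, h3⟩ := h0 σ x hx h1
    rcases hC₁ (σ β, σ γ) ⟨σ, rfl⟩ _ N (σ (x b)) (σ (x c)) hT1 hN
      (hI.map σ.toRingHom (by omega)) h2 h3 with h | h
    · exact h.trans (WArch_mono (Nat.le_add_right _ _) hN)
    · exact absurd (WArch_div (Nat.le_add_right _ _) h) hdiv
  · have h2 : (C₀ : ℝ) ≤ ((C₁ + ⌈C₀⌉₊ : ℕ) : ℝ) := by
      have := Nat.le_ceil C₀
      push_cast
      have h3 : (0 : ℝ) ≤ C₁ := Nat.cast_nonneg _
      linarith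
    exact h1.le.trans (h2.trans (WArch_const hN))

/-- the size of the exponents -/
private theorem WArch_size {C C₁ C₂ D l : ℝ} {k k' : ℕ} (hC : 0 ≤ C) (hC₁ : 1 ≤ C₁)
    (hC₂ : 1 ≤ C₂) (hD : 1 ≤ D) (hl : 1 ≤ l) (hk : k ≤ k') (hk2 : 2 ≤ k')
    (hC' : C₂ * (1 + C₁ * (1 + C)) ≤ k') :
    C₂ * D * (1 + C₁ * D * (1 + C * l ^ k)) ≤ (k' * D) ^ k' * l ^ k' := by
  have hlk : 1 ≤ l ^ k := one_le_pow₀ hl
  have hlk' : l ^ k ≤ l ^ k' := pow_le_pow_right₀ hl hk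
  have h1 : 1 + C * l ^ k ≤ (1 + C) * l ^ k := by nlinarith
  have h2 : C₁ * D * (1 + C * l ^ k) ≤ C₁ * D * ((1 + C) * l ^ k) :=
    mul_le_mul_of_nonneg_left h1 (by positivity)
  have hDl : 1 ≤ D * l ^ k := by nlinarith
  have h3 : 1 + C₁ * D * (1 + C * l ^ k) ≤ (1 + C₁ * (1 + C)) * (D * l ^ k) := by
    have e : C₁ * D * ((1 + C) * l ^ k) = C₁ * (1 + C) * (D * l ^ k) := by ring
    have e2 : (1 + C₁ * (1 + C)) * (D * l ^ k) = D * l ^ k + C₁ * (1 + C) * (D * l ^ k) := by ring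
    rw [e] at h2
    rw [e2]
    linarith
  have hk'1 : (1 : ℝ) ≤ k' := by exact_mod_cast (by omega : 1 ≤ k')
  have hkD : 1 ≤ (k' : ℝ) * D := by nlinarith
  calc C₂ * D * (1 + C₁ * D * (1 + C * l ^ k))
      ≤ C₂ * D * ((1 + C₁ * (1 + C)) * (D * l ^ k)) :=
        mul_le_mul_of_nonneg_left h3 (by positivity)
    _ = (C₂ * (1 + C₁ * (1 + C))) * (D ^ 2 * l ^ k) := by ring
    _ ≤ k' * (D ^ 2 * l ^ k) := mul_le_mul_of_nonneg_right hC' (by positivity)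
    _ ≤ k' ^ 2 * (D ^ 2 * l ^ k) := by
        refine mul_le_mul_of_nonneg_right ?_ (by positivity)
        nlinarith
    _ = (k' * D) ^ 2 * l ^ k := by ring
    _ ≤ (k' * D) ^ k' * l ^ k' :=
        mul_le_mul (pow_le_pow_right₀ hkD hk2) hlk' (by positivity) (by positivity)

/-- in terms of the size of the conjugates of any coordinate `x_d` -/
theorem real_use {n : ℕ} {V : Set (Fin n → ℂ)} (hV : Pool.Agent.Hhelper14.ZPL.IsIrredClosed V)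
    (hVk : KClosed V) (hdim : Pool.Agent.Hhelper14.ZPL.dim V = 1) {a b c : Fin n}
    (hg : RealInf V a b c) (d : Fin n) :
    ∃ (C : ℕ) (E : Set (Fin n → ℂ)), 1 ≤ C ∧ E.Finite ∧ ∀ x ∈ V, x ∉ E →
      (IsIntegral ℤ (x a) ∧ IsIntegral ℤ (x b) ∧ IsIntegral ℤ (x c) ∧ IsIntegral ℤ (x d)) →
      ∀ (K : IntermediateField ℚ ℂ) [FiniteDimensional ℚ K],
        (x a ∈ K ∧ x b ∈ K ∧ x c ∈ K ∧ x d ∈ K) → ∀ N : ℕ, 3 ≤ N → IsogDeg N (x b) (x c) →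
        (∀ s : ℂ ≃+* ℂ, ‖s (x d)‖ ≤
          Real.exp ((C * Module.finrank ℚ K : ℝ) ^ C * Real.log N ^ C)) ∨
          ∃ n : ℕ, n ∣ N ∧ N ≤ C * n ^ 2 ∧ n ^ 2 ≤ C * N := by
  obtain ⟨F, C, hF, harch⟩ := real_arch hV hVk hdim hg
  obtain ⟨C₁, E₁, hC₁, hE₁, h₁⟩ := rel_height hV hVk hdim ![a, b, c] hF 0
  have hX : ∀ z : ℂ, ∃ x ∈ V, (aeval (x ∘ ![a, d, b]) (X 0 : MvPolynomial (Fin 3) Qb) : ℂ) ≠ z := by
    intro z
    obtain ⟨P, β, γ, hP, ha, -⟩ := hg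
    obtain ⟨m, hm⟩ := (ha.eventually_gt_atTop ‖z‖).exists
    refine ⟨P m, hP m, ?_⟩
    rw [aeval_X]
    intro h
    have h2 : P m a = z := h
    rw [h2] at hm
    exact lt_irrefl _ hm
  obtain ⟨C₂, E₂, hC₂, hE₂, h₂⟩ := rel_height hV hVk hdim ![a, d, b] hX 1
  refine ⟨C + 2 + ⌈C₂ * (1 + C₁ * (1 + C))⌉₊, E₁ ∪ E₂, by omega, hE₁.union hE₂, ?_⟩
  intro x hx hxE hint K _ hK N hN hI
  obtain ⟨ia, ib, ic, id'⟩ := hint
  obtain ⟨ka, kb, kc, kd⟩ := hK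
  rcases harch x hx N hN hI with h | h
  · refine Or.inl fun s => ?_
    have hl := WArch_log hN
    have hL0 : 0 ≤ (C : ℝ) * Real.log N ^ C := by positivity
    have hD : (1 : ℝ) ≤ Module.finrank ℚ K := by
      exact_mod_cast Module.finrank_pos (R := ℚ) (M := K)
    have h3 := h₁ x hx (fun hh => hxE (Or.inl hh)) K (by
      intro j
      fin_cases j
      · exact ka
      · exact kb
      · exact kc) (by
      intro j
      fin_cases j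
      · exact ia
      · exact ib
      · exact ic) _ hL0 h
    have hL1 : 0 ≤ C₁ * Module.finrank ℚ K * (1 + C * Real.log N ^ C) := by positivity
    have h4 := h₂ x hx (fun hh => hxE (Or.inr hh)) K (by
      intro j
      fin_cases j
      · exact ka
      · exact kd
      · exact kb) (by
      intro j
      fin_cases j
      · exact ia
      · exact id'
      · exact ib) _ hL1 (by
      intro s'
      rw [aeval_X]
      exact h3 s') s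
    refine h4.trans (Real.exp_le_exp.2 ?_)
    refine WArch_size (Nat.cast_nonneg _) hC₁ hC₂ hD hl (by omega) (by omega) ?_
    push_cast
    have := Nat.le_ceil (C₂ * (1 + C₁ * (1 + (C : ℝ))))
    have h5 : (0 : ℝ) ≤ C := Nat.cast_nonneg _
    linarith
  · exact Or.inr (WArch_div (by omega) h)

end Pool.Agent.LGO.F
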