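import Mathlib
import Pool.Agent.LGO.F.AsTri
import Pool.Agent.LGO.F.AsNum
import Pool.Agent.LGO.F.CuBig
import Pool.Agent.LGO.F.CuHt
import Pool.Agent.LGO.F.AsMid
import Pool.Agent.LGO.F.WArch

/-!
# LGO/F (note 3060, step (6); note 3112): the core of Theorem Q, with real points at infinity
-/

namespace Pool.Agent.LGO.F

open UpperHalfPlane Filter Topology Pool.Agent.Hhelper14.ZP Pool.Agent.Hhelper14.ZPL

/-- the coordinates `a` and `b` have a common pole on (the closure of) `V` -/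
def CommonPole {n : ℕ} (V : Set (Fin n → ℂ)) (a b : Fin n) : Prop :=
  ∃ P : ℕ → Fin n → ℂ, (∀ k, P k ∈ V) ∧ Tendsto (fun k => ‖P k a‖) atTop atTop ∧
    Tendsto (fun k => ‖P k b‖) atTop atTop

/-- the pair `{a, b}` of the coordinates `i 0, .., i (m - 1)` is witnessed by a point at infinity: the two coordinates have a
common pole, or at some point at infinity another coordinate `i k` is infinite and the two coordinates have totally
real values, not both CM -/
def Witnessed {n m : ℕ} (V : Set (Fin n → ℂ)) (i : Fin m → Fin n) (a b : Fin m) : Prop :=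
  CommonPole V (i a) (i b) ∨ ∃ k, RealInf V (i k) (i a) (i b)

/-- there is no set `E` of pairs of the coordinates `i a` such that every three of these coordinates contain exactly
one pair of `E`, and every witnessed pair is in `E` -/
def PoleGraph {n m : ℕ} (V : Set (Fin n → ℂ)) (i : Fin m → Fin n) : Prop :=
  ¬ ∃ E : Fin m → Fin m → Prop, (∀ a b, E a b → E b a) ∧
    (∀ a b c, a ≠ b → a ≠ c → b ≠ c → One3 (E a b) (E a c) (E b c)) ∧
    ∀ a b, a ≠ b → Witnessed V i a b → E a b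

variable {n m : ℕ} {V : Set (Fin n → ℂ)}

/-- the data of a pair of coordinates -/
private def AsCore_pair (V : Set (Fin n → ℂ)) (a b : Fin n) (C : ℕ) (E : Set (Fin n → ℂ)) : Prop :=
  ((∀ x ∈ V, ∀ s : ℂ ≃+* ℂ, ‖s (x a)‖ ≤ C ∨ ‖s (x b)‖ ≤ C) ∨
    ∀ c : Fin n, ∀ x ∈ V, x ∉ E →
      ∀ (K : IntermediateField ℚ ℂ) [FiniteDimensional ℚ K], x c ∈ K → x a ∈ K → x b ∈ K →
        IsIntegral ℤ (x c) → IsIntegral ℤ (x a) → IsIntegral ℤ (x b) →
        ∀ (s' : ℂ ≃+* ℂ) (T : ℝ), (C : ℝ) * Module.finrank ℚ K ≤ T →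
          Real.exp T ≤ ‖s' (x c)‖ → ∃ s : ℂ ≃+* ℂ,
            T ≤ (C : ℝ) * Module.finrank ℚ K * Real.log ‖s (x a)‖ ∧
            T ≤ (C : ℝ) * Module.finrank ℚ K * Real.log ‖s (x b)‖)

private theorem AsCore_exists_pair (hV : Pool.Agent.Hhelper14.ZPL.IsIrredClosed V)
    (hVk : KClosed V) (hdim : Pool.Agent.Hhelper14.ZPL.dim V = 1) {a b : Fin n}
    (ha : ∀ c : ℂ, ∃ x ∈ V, x a ≠ c) (hb : ∀ c : ℂ, ∃ x ∈ V, x b ≠ c) :
    ∃ (C : ℕ) (E : Set (Fin n → ℂ)), E.Finite ∧ AsCore_pair V a b C E := by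
  classical
  rcases pole_dich hV hVk hdim ha hb with ⟨C, h⟩ | h
  · exact ⟨C, ∅, Set.finite_empty, Or.inl h⟩
  · choose C E hC hE h using h
    have hle : ∀ c, C c ≤ ∑ c, C c := fun c => Finset.single_le_sum (fun _ _ => Nat.zero_le _)
      (Finset.mem_univ c)
    refine ⟨∑ c, C c, ⋃ c, E c, Set.finite_iUnion hE, Or.inr ?_⟩
    intro c x hx hxE K _ h1 h2 h3 h4 h5 h6 s' T hT hs
    have hleR : (C c : ℝ) ≤ ((∑ c, C c : ℕ) : ℝ) := by exact_mod_cast hle c
    have hD : (0 : ℝ) ≤ Module.finrank ℚ K := Nat.cast_nonneg _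
    have hD1 : (1 : ℝ) ≤ Module.finrank ℚ K := by
      exact_mod_cast Module.finrank_pos (R := ℚ) (M := K)
    have hC1 : (1 : ℝ) ≤ C c := by exact_mod_cast hC c
    have hT' : (C c : ℝ) * Module.finrank ℚ K ≤ T := by
      refine le_trans ?_ hT
      gcongr
    have hT0 : 0 < T := by nlinarith
    obtain ⟨s, e1, e2⟩ := h c x hx (fun hh => hxE (Set.mem_iUnion.mpr ⟨c, hh⟩)) K h1 h2 h3 h4 h5 h6
      s' T hT' hs
    have key : ∀ r : ℝ, T ≤ (C c : ℝ) * Module.finrank ℚ K * r →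
        T ≤ ((∑ c, C c : ℕ) : ℝ) * Module.finrank ℚ K * r := by
      intro r hr
      have hr0 : 0 < r := by
        by_contra hcon
        rw [not_lt] at hcon
        have : (C c : ℝ) * Module.finrank ℚ K * r ≤ 0 :=
          mul_nonpos_of_nonneg_of_nonpos (by positivity) hcon
        linarith
      refine hr.trans ?_
      gcongr
    exact ⟨s, key _ e1, key _ e2⟩

theorem as_core (hS : SharpAll) (hV : Pool.Agent.Hhelper14.ZPL.IsIrredClosed V)
    (hVk : KClosed V) (hdim : Pool.Agent.Hhelper14.ZPL.dim V = 1) (i : Fin m → Fin n)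
    (hi : Function.Injective i) (hconst : ∀ a, ∀ c : ℂ, ∃ x ∈ V, x (i a) ≠ c)
    (hmod : ∀ a b, a ≠ b → ∀ g : GL (Fin 2) ℚ, 0 < g.det.val →
      ∃ x ∈ V, ¬ ∃ τ : ℍ, x (i a) = jInv τ ∧ x (i b) = jInv (gact g τ))
    (hG : PoleGraph V i) :
    ∃ (C : ℕ) (E : Set (Fin n → ℂ)), E.Finite ∧ ∀ x ∈ V, x ∉ E → (∀ a, NCM (x (i a))) →
      (∀ a b, ∃ N, 0 < N ∧ IsogDeg N (x (i a)) (x (i b))) → (∀ a, IsIntegral ℤ (x (i a))) →
      ∀ (K : IntermediateField ℚ ℂ) [FiniteDimensional ℚ K], (∀ a, x (i a) ∈ K) → ∀ L : ℝ,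
        (∀ a, ∀ s : ℂ ≃+* ℂ, ‖s (x (i a))‖ ≤ Real.exp L) →
        (∃ (a : Fin m) (s : ℂ ≃+* ℂ), Real.exp L ≤ ‖s (x (i a))‖) →
        L ≤ ((C : ℝ) * Module.finrank ℚ K) ^ C := by
  classical
  obtain ⟨c, htri⟩ := as_tri hS
  obtain ⟨Cp, hCp, hplace⟩ := as_place
  obtain ⟨Cp', hCp'⟩ := exists_nat_ge Cp
  choose C₁ E₁ hC₁ hE₁ hone using fun a b : Fin m => pole_one hV hVk hdim (hconst a) (i b)
  choose C₂ E₂ hE₂ hpair using fun a b : Fin m =>
    AsCore_exists_pair hV hVk hdim (hconst a) (hconst b)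
  have hbig0 : ∀ a b : Fin m, ∃ (C : ℕ) (E : Set (Fin n → ℂ)), 1 ≤ C ∧ E.Finite ∧ (a ≠ b →
      ∀ x ∈ V, x ∉ E → (∃ N, 0 < N ∧ IsogDeg N (x (i a)) (x (i b))) → ∀ s : ℂ ≃+* ℂ,
        (C : ℝ) ≤ Real.log ‖s (x (i a))‖ → (C : ℝ) ≤ Real.log ‖s (x (i b))‖ →
        Real.log ‖s (x (i a))‖ * Real.log ‖s (x (i b))‖ ≤ (C : ℝ) * mdeg (x (i a)) (x (i b))) := by
    intro a b
    by_cases hab : a = b
    · exact ⟨1, ∅, le_rfl, Set.finite_empty, fun h => absurd hab h⟩
    · obtain ⟨C, E, h1, h2, h3⟩ := big_pair hV hVk hdim (hi.ne hab) (hconst a) (hconst b)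
        (hmod a b hab)
      exact ⟨C, E, h1, h2, fun _ => h3⟩
  choose C₃ E₃ hC₃ hE₃ hbig using hbig0
  have hreal0 : ∀ k a b d : Fin m, ∃ (C : ℕ) (E : Set (Fin n → ℂ)), 1 ≤ C ∧ E.Finite ∧
      (RealInf V (i k) (i a) (i b) → ∀ x ∈ V, x ∉ E →
      (IsIntegral ℤ (x (i k)) ∧ IsIntegral ℤ (x (i a)) ∧ IsIntegral ℤ (x (i b)) ∧
        IsIntegral ℤ (x (i d))) →
      ∀ (K : IntermediateField ℚ ℂ) [FiniteDimensional ℚ K],
        (x (i k) ∈ K ∧ x (i a) ∈ K ∧ x (i b) ∈ K ∧ x (i d) ∈ K) → ∀ N : ℕ, 3 ≤ N →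
          IsogDeg N (x (i a)) (x (i b)) →
        (∀ s : ℂ ≃+* ℂ, ‖s (x (i d))‖ ≤
          Real.exp ((C * Module.finrank ℚ K : ℝ) ^ C * Real.log N ^ C)) ∨
          ∃ n : ℕ, n ∣ N ∧ N ≤ C * n ^ 2 ∧ n ^ 2 ≤ C * N) := by
    intro k a b d
    by_cases hR : RealInf V (i k) (i a) (i b)
    · obtain ⟨C, E, h1, h2, h3⟩ := real_use hV hVk hdim hR (i d)
      exact ⟨C, E, h1, h2, fun _ => h3⟩
    · exact ⟨1, ∅, le_rfl, Set.finite_empty, fun h => absurd h hR⟩
  choose C₄ E₄ hC₄ hE₄ hreal using hreal0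
  obtain ⟨cm, hmid⟩ := as_mid
  -- one constant
  set C₀ : ℕ := 3 + Cp' + ∑ a, ∑ b, (C₁ a b + C₂ a b + C₃ a b) +
    ∑ k, ∑ a, ∑ b, ∑ d, C₄ k a b d with hC₀
  have hsum4 : ∀ k a b d, C₄ k a b d ≤ ∑ k, ∑ a, ∑ b, ∑ d, C₄ k a b d := by
    intro k a b d
    refine (Finset.single_le_sum (f := fun d => C₄ k a b d)
      (fun _ _ => Nat.zero_le _) (Finset.mem_univ d)).trans ?_
    refine (Finset.single_le_sum (f := fun b => ∑ d, C₄ k a b d)
      (fun _ _ => Nat.zero_le _) (Finset.mem_univ b)).trans ?_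
    refine (Finset.single_le_sum (f := fun a => ∑ b, ∑ d, C₄ k a b d)
      (fun _ _ => Nat.zero_le _) (Finset.mem_univ a)).trans ?_
    exact Finset.single_le_sum (f := fun k => ∑ a, ∑ b, ∑ d, C₄ k a b d)
      (fun _ _ => Nat.zero_le _) (Finset.mem_univ k)
  have hsum : ∀ a b, C₁ a b + C₂ a b + C₃ a b ≤ ∑ a, ∑ b, (C₁ a b + C₂ a b + C₃ a b) := by
    intro a b
    refine (Finset.single_le_sum (f := fun b => C₁ a b + C₂ a b + C₃ a b)
      (fun _ _ => Nat.zero_le _) (Finset.mem_univ b)).trans ?_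
    exact Finset.single_le_sum (f := fun a => ∑ b, (C₁ a b + C₂ a b + C₃ a b))
      (fun _ _ => Nat.zero_le _) (Finset.mem_univ a)
  have hl1 : ∀ a b, (C₁ a b : ℝ) ≤ C₀ := fun a b => by
    have := hsum a b
    exact_mod_cast (by omega : C₁ a b ≤ C₀)
  have hl2 : ∀ a b, (C₂ a b : ℝ) ≤ C₀ := fun a b => by
    have := hsum a b
    exact_mod_cast (by omega : C₂ a b ≤ C₀)
  have hl3 : ∀ a b, (C₃ a b : ℝ) ≤ C₀ := fun a b => by
    have := hsum a b
    exact_mod_cast (by omega : C₃ a b ≤ C₀)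
  have hl4 : ∀ k a b d, C₄ k a b d ≤ C₀ := fun k a b d => by
    have := hsum4 k a b d
    omega
  have hlp : Cp ≤ C₀ := hCp'.trans (by exact_mod_cast (by omega : Cp' ≤ C₀))
  have h3C₀ : (3 : ℝ) ≤ C₀ := by exact_mod_cast (by omega : 3 ≤ C₀)
  have hC₀pos : 0 < C₀ := by omega
  have h2C₀ : (2 : ℝ) ≤ C₀ := by linarith
  set e : ℕ := c + 3 with he
  set X : ℕ := 10 * e + 2 * cm + 8 * C₀ + 20 with hX
  refine ⟨C₀ + X, (⋃ a, ⋃ b, (E₁ a b ∪ E₂ a b ∪ E₃ a b)) ∪ ⋃ k, ⋃ a, ⋃ b, ⋃ d, E₄ k a b d, ?_, ?_⟩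
  · exact (Set.finite_iUnion fun a => Set.finite_iUnion fun b =>
      ((hE₁ a b).union (hE₂ a b)).union (hE₃ a b)).union
      (Set.finite_iUnion fun k => Set.finite_iUnion fun a => Set.finite_iUnion fun b =>
        Set.finite_iUnion fun d => hE₄ k a b d)
  intro x hx hxE hN hI hint K _ hK L hsL hsmain
  have hxE' : ∀ a b, x ∉ E₁ a b ∧ x ∉ E₂ a b ∧ x ∉ E₃ a b := by
    intro a b
    have h : ∀ S : Set (Fin n → ℂ), S ⊆ E₁ a b ∪ E₂ a b ∪ E₃ a b → x ∉ S := by
      intro S hS hxS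
      exact hxE (Or.inl (Set.mem_iUnion.mpr ⟨a, Set.mem_iUnion.mpr ⟨b, hS hxS⟩⟩))
    exact ⟨h _ fun y hy => Or.inl (Or.inl hy), h _ fun y hy => Or.inl (Or.inr hy),
      h _ fun y hy => Or.inr hy⟩
  have hxE4 : ∀ k a b d, x ∉ E₄ k a b d := by
    intro k a b d hxS
    exact hxE (Or.inr (Set.mem_iUnion.mpr ⟨k, Set.mem_iUnion.mpr ⟨a, Set.mem_iUnion.mpr ⟨b,
      Set.mem_iUnion.mpr ⟨d, hxS⟩⟩⟩⟩))
  by_contra hcon
  rw [not_le] at hcon
  have hD1 : (1 : ℝ) ≤ Module.finrank ℚ K := by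
    exact_mod_cast Module.finrank_pos (R := ℚ) (M := K)
  set D : ℝ := (Module.finrank ℚ K : ℝ) with hDdef
  set M : ℝ := C₀ * D with hM
  have hM2 : 2 ≤ M := by nlinarith
  have hM0 : 0 < M := by linarith
  have hM1 : 1 ≤ M := by linarith
  have hDM : D ≤ M := by nlinarith
  have hCM : (C₀ : ℝ) ≤ M := by nlinarith
  -- `L` is large
  have hLX : M ^ X < L := by
    refine lt_of_le_of_lt ?_ hcon
    have h1 : M ≤ ((C₀ + X : ℕ) : ℝ) * D := by
      rw [hM]
      have : (C₀ : ℝ) ≤ ((C₀ + X : ℕ) : ℝ) := by exact_mod_cast Nat.le_add_right _ _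
      gcongr
    calc M ^ X ≤ (((C₀ + X : ℕ) : ℝ) * D) ^ X := by gcongr
      _ ≤ (((C₀ + X : ℕ) : ℝ) * D) ^ (C₀ + X) :=
        pow_le_pow_right₀ (hM1.trans h1) (by omega)
  have hLpow : ∀ k, k ≤ X → M ^ k < L := fun k hk => (as_mono hM2 hk).trans_lt hLX
  have hL10 : (M ^ e) ^ 10 < L := by
    rw [← pow_mul]
    exact hLpow _ (by omega)
  have hLM : M ^ 2 ≤ L := (hLpow 2 (by omega)).le
  have hL0 : 0 < L := lt_of_lt_of_le (by positivity) hLM
  have hM_L : M ≤ L := by nlinarith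
  obtain ⟨a₀, s₀, hs₀⟩ := hsmain
  -- main places
  have hmain : ∀ a, ∃ s : ℂ ≃+* ℂ, L ≤ M * Real.log ‖s (x (i a))‖ := by
    intro a
    have hT : (C₁ a a₀ : ℝ) * D ≤ L := by
      refine le_trans ?_ hM_L
      rw [hM]
      have := hl1 a a₀
      gcongr
    obtain ⟨s, hs⟩ := hone a a₀ x hx (hxE' a a₀).1 K (hK a₀) (hK a) (hint a₀) (hint a) s₀ L hT hs₀
    refine ⟨s, ?_⟩
    have hr0 : 0 < Real.log ‖s (x (i a))‖ := by
      by_contra h
      rw [not_lt] at h
      have : (C₁ a a₀ : ℝ) * D * Real.log ‖s (x (i a))‖ ≤ 0 :=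
        mul_nonpos_of_nonneg_of_nonpos (by positivity) h
      linarith
    refine hs.trans ?_
    rw [hM]
    have := hl1 a a₀
    gcongr
  -- the large case of a pair
  have hprod : ∀ a b, a ≠ b → ∀ s : ℂ ≃+* ℂ, M ≤ Real.log ‖s (x (i a))‖ →
      M ≤ Real.log ‖s (x (i b))‖ →
      Real.log ‖s (x (i a))‖ * Real.log ‖s (x (i b))‖ ≤ M * mdeg (x (i a)) (x (i b)) := by
    intro a b hab s h1 h2
    have h3 := hbig a b hab x hx (hxE' a b).2.2 (hI a b) s (((hl3 a b).trans hCM).trans h1)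
      (((hl3 a b).trans hCM).trans h2)
    refine h3.trans ?_
    have := (hl3 a b).trans hCM
    gcongr
  -- lower bounds for the degrees
  have hlow : ∀ a b, a ≠ b → L / M ^ e ≤ mdeg (x (i a)) (x (i b)) := by
    intro a b hab
    obtain ⟨s, hs⟩ := hmain a
    have hN0 : (0 : ℝ) ≤ mdeg (x (i a)) (x (i b)) := Nat.cast_nonneg _
    have hgoal : L ≤ M ^ 3 * mdeg (x (i a)) (x (i b)) := by
      rcases le_total (Real.log ‖s (x (i b))‖) M with h | h
      · have h1 := hplace (x (i a)) (x (i b)) (hI a b) s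
        have h2 : max 1 (Real.log ‖s (x (i b))‖) ≤ M := max_le hM1 h
        calc L ≤ M * Real.log ‖s (x (i a))‖ := hs
          _ ≤ M * (Cp * mdeg (x (i a)) (x (i b)) * max 1 (Real.log ‖s (x (i b))‖)) := by gcongr
          _ ≤ M * (M * mdeg (x (i a)) (x (i b)) * M) := by
              have := hlp.trans hCM
              gcongr
          _ = M ^ 3 * mdeg (x (i a)) (x (i b)) := by ring
      · have h0 : M ≤ Real.log ‖s (x (i a))‖ := by
          by_contra hc
          rw [not_le] at hc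
          have : M * Real.log ‖s (x (i a))‖ < M * M := by gcongr
          nlinarith
        have h1 := hprod a b hab s h0 h
        have h2 : Real.log ‖s (x (i a))‖ ≤ M * mdeg (x (i a)) (x (i b)) := by
          refine le_trans ?_ h1
          have : 1 ≤ Real.log ‖s (x (i b))‖ := hM1.trans h
          nlinarith
        calc L ≤ M * Real.log ‖s (x (i a))‖ := hs
          _ ≤ M * (M * mdeg (x (i a)) (x (i b))) := by gcongr
          _ = M ^ 2 * mdeg (x (i a)) (x (i b)) := by ring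
          _ ≤ M ^ 3 * mdeg (x (i a)) (x (i b)) := by
              have := as_mono hM2 (show 2 ≤ 3 by norm_num)
              gcongr
    rw [div_le_iff₀ (by positivity)]
    calc L ≤ M ^ 3 * mdeg (x (i a)) (x (i b)) := hgoal
      _ ≤ M ^ e * mdeg (x (i a)) (x (i b)) := by
          have := as_mono hM2 (show 3 ≤ e by omega)
          gcongr
      _ = _ := by ring
  -- common poles
  have hcommon : ∀ a b, a ≠ b →
      ¬ (∀ x ∈ V, ∀ s : ℂ ≃+* ℂ, ‖s (x (i a))‖ ≤ C₂ a b ∨ ‖s (x (i b))‖ ≤ C₂ a b) →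
      L ^ 2 / (M ^ e) ^ 2 ≤ mdeg (x (i a)) (x (i b)) := by
    intro a b hab hnot
    have h1 := (hpair a b).resolve_left hnot
    have hT : (C₂ a b : ℝ) * D ≤ L := by
      refine le_trans ?_ hM_L
      rw [hM]
      have := hl2 a b
      gcongr
    obtain ⟨s, h2, h3⟩ := h1 (i a₀) x hx (hxE' a b).2.1 K (hK a₀) (hK a) (hK b) (hint a₀) (hint a)
      (hint b) s₀ L hT hs₀
    have key : ∀ r : ℝ, L ≤ (C₂ a b : ℝ) * D * r → L ≤ M * r := by
      intro r hr
      have hr0 : 0 < r := by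
        by_contra h
        rw [not_lt] at h
        have : (C₂ a b : ℝ) * D * r ≤ 0 := mul_nonpos_of_nonneg_of_nonpos (by positivity) h
        linarith
      refine hr.trans ?_
      rw [hM]
      have := hl2 a b
      gcongr
    have h4 := key _ h2
    have h5 := key _ h3
    have key2 : ∀ r : ℝ, L ≤ M * r → M ≤ r := by
      intro r hr
      by_contra hc
      rw [not_le] at hc
      have : M * r < M * M := by gcongr
      nlinarith
    have h6 := hprod a b hab s (key2 _ h4) (key2 _ h5)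
    have hN0 : (0 : ℝ) ≤ mdeg (x (i a)) (x (i b)) := Nat.cast_nonneg _
    rw [div_le_iff₀ (by positivity)]
    have hr0 : 0 ≤ Real.log ‖s (x (i a))‖ := hM0.le.trans (key2 _ h4)
    calc L ^ 2 = L * L := by ring
      _ ≤ (M * Real.log ‖s (x (i a))‖) * (M * Real.log ‖s (x (i b))‖) := by gcongr
      _ = M ^ 2 * (Real.log ‖s (x (i a))‖ * Real.log ‖s (x (i b))‖) := by ring
      _ ≤ M ^ 2 * (M * mdeg (x (i a)) (x (i b))) := by gcongr
      _ = mdeg (x (i a)) (x (i b)) * M ^ 3 := by ring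
      _ ≤ mdeg (x (i a)) (x (i b)) * (M ^ e) ^ 2 := by
          rw [← pow_mul]
          have := as_mono hM2 (show 3 ≤ e * 2 by omega)
          gcongr
  -- a triple
  have htriple : ∀ a b d, a ≠ b → a ≠ d → b ≠ d →
      One3 (L ^ 2 / (M ^ e) ^ 2 ≤ (mdeg (x (i a)) (x (i b)) : ℝ))
        (L ^ 2 / (M ^ e) ^ 2 ≤ (mdeg (x (i a)) (x (i d)) : ℝ))
        (L ^ 2 / (M ^ e) ^ 2 ≤ (mdeg (x (i b)) (x (i d)) : ℝ)) ∧
      (¬ L ^ 2 / (M ^ e) ^ 2 ≤ (mdeg (x (i a)) (x (i b)) : ℝ) →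
        (mdeg (x (i a)) (x (i b)) : ℝ) ≤ (M ^ e) ^ 5 * L) := by
    intro a b d hab had hbd
    obtain ⟨ν, hν, hdeg, hprod3, s, hs⟩ := htri K ![x (i a), x (i b), x (i d)] M L hM2 hDM
      (by intro k; fin_cases k; exacts [hK a, hK b, hK d])
      (by intro k; fin_cases k; exacts [hN a, hN b, hN d])
      (by intro k; fin_cases k; exacts [hint a, hint b, hint d])
      (by
        intro k l
        fin_cases k <;> fin_cases l
        exacts [hI a a, hI a b, hI a d, hI b a, hI b b, hI b d, hI d a, hI d b, hI d d])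
      (by intro k; fin_cases k; exacts [hsL a, hsL b, hsL d])
      ⟨0, hmain a⟩ (hLpow c (by omega)).le
    have e01 : mdeg (x (i a)) (x (i b)) = ν 0 * ν 1 := hdeg 0 1 (by decide)
    have e02 : mdeg (x (i a)) (x (i d)) = ν 0 * ν 2 := hdeg 0 2 (by decide)
    have e12 : mdeg (x (i b)) (x (i d)) = ν 1 * ν 2 := hdeg 1 2 (by decide)
    have hν1 : ∀ k, (1 : ℝ) ≤ ν k := fun k => by exact_mod_cast hν k
    have hMe : 2 ≤ M ^ e := by
      have := as_mono hM2 (show 1 ≤ e by omega)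
      rw [pow_one] at this
      linarith
    have hMe0 : 0 < M ^ e := by linarith
    have hsmall : ∀ (k : Fin 3) (u : Fin m), (![x (i a), x (i b), x (i d)] : Fin 3 → ℂ) k = x (i u) →
        ∀ C : ℕ, (C : ℝ) ≤ M → ‖s (x (i u))‖ ≤ C → L / M ^ e ≤ ν k := by
      intro k u hk C hC hle
      have h1 := hs k
      rw [hk] at h1
      have h2 : Real.log ‖s (x (i u))‖ ≤ M := by
        rcases (norm_nonneg (s (x (i u)))).eq_or_lt with h0 | h0
        · rw [← h0, Real.log_zero]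
          exact hM0.le
        · have := Real.log_le_sub_one_of_pos h0
          linarith
      have h3 : max 1 (Real.log ‖s (x (i u))‖) ≤ M := max_le hM1 h2
      have hν0 : (0 : ℝ) ≤ ν k := Nat.cast_nonneg _
      rw [div_le_iff₀ hMe0]
      calc L ≤ M ^ c * ν k * max 1 (Real.log ‖s (x (i u))‖) := h1
        _ ≤ M ^ c * ν k * M := by gcongr
        _ = ν k * M ^ (c + 1) := by ring
        _ ≤ ν k * M ^ e := by
            have := as_mono hM2 (show c + 1 ≤ e by omega)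
            gcongr
    have hdich : ∀ (k l : Fin 3) (u v : Fin m), u ≠ v →
        (![x (i a), x (i b), x (i d)] : Fin 3 → ℂ) k = x (i u) →
        (![x (i a), x (i b), x (i d)] : Fin 3 → ℂ) l = x (i v) →
        mdeg (x (i u)) (x (i v)) = ν k * ν l →
        L / M ^ e ≤ ν k ∨ L / M ^ e ≤ ν l ∨ L ^ 2 / (M ^ e) ^ 2 ≤ (ν k : ℝ) * ν l := by
      intro k l u v huv hk hl hkl
      by_cases halt : ∀ x ∈ V, ∀ s : ℂ ≃+* ℂ, ‖s (x (i u))‖ ≤ C₂ u v ∨ ‖s (x (i v))‖ ≤ C₂ u v
      · rcases halt x hx s with h | h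
        · exact Or.inl (hsmall k u hk _ ((hl2 u v).trans hCM) h)
        · exact Or.inr (Or.inl (hsmall l v hl _ ((hl2 u v).trans hCM) h))
      · right; right
        have h1 := hcommon u v huv halt
        rw [hkl, Nat.cast_mul] at h1
        exact h1
    have hp3 : (ν 0 : ℝ) * ν 1 * ν 2 ≤ M ^ e * L ^ 2 := by
      refine hprod3.trans ?_
      have := as_mono hM2 (show c ≤ e by omega)
      gcongr
    have l01 := hlow a b hab
    rw [e01, Nat.cast_mul] at l01
    have l02 := hlow a d had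
    rw [e02, Nat.cast_mul] at l02
    have l12 := hlow b d hbd
    rw [e12, Nat.cast_mul] at l12
    have hres := as_num (hν1 0) (hν1 1) (hν1 2) hMe hL10 hp3 l01 l02 l12
      (hdich 0 1 a b hab rfl rfl e01) (hdich 0 2 a d had rfl rfl e02) (hdich 1 2 b d hbd rfl rfl e12)
    rw [e01, e02, e12, Nat.cast_mul, Nat.cast_mul, Nat.cast_mul]
    exact ⟨hres, fun hnot => as_num_short (hν1 0) (hν1 1) (hν1 2) hMe hL10 hp3 l01 l02 l12 hres hnot⟩
  -- the set of long pairs
  apply hG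
  refine ⟨fun a b => L ^ 2 / (M ^ e) ^ 2 ≤ (mdeg (x (i a)) (x (i b)) : ℝ), ?_,
    fun a b d hab had hbd => (htriple a b d hab had hbd).1, ?_⟩
  · intro a b h
    rw [mdeg_symm]
    exact h
  · intro a b hab hwit
    by_cases halt : ∀ x ∈ V, ∀ s : ℂ ≃+* ℂ, ‖s (x (i a))‖ ≤ C₂ a b ∨ ‖s (x (i b))‖ ≤ C₂ a b
    swap
    · exact hcommon a b hab halt
    rcases hwit with hpole | ⟨k, hR⟩
    · obtain ⟨P, hP, h1, h2⟩ := hpole
      obtain ⟨k, hk1, hk2⟩ := ((h1.eventually_gt_atTop (C₂ a b : ℝ)).and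
        (h2.eventually_gt_atTop (C₂ a b : ℝ))).exists
      rcases halt (P k) (hP k) (RingEquiv.refl ℂ) with h | h
      · exact absurd h (not_le.mpr hk1)
      · exact absurd h (not_le.mpr hk2)
    · by_contra hshort
      have hka : a ≠ k ∧ b ≠ k := by
        obtain ⟨P, β, γ, -, h1, h2, h3, -⟩ := hR
        constructor
        · rintro rfl
          exact not_tendsto_nhds_of_tendsto_atTop h1 _ h2.norm
        · rintro rfl
          exact not_tendsto_nhds_of_tendsto_atTop h1 _ h3.norm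
      have hN5 := (htriple a b k hab hka.1 hka.2).2 hshort
      have hNlow := hlow a b hab
      set N : ℕ := mdeg (x (i a)) (x (i b)) with hNdef
      have hMe0 : 0 < M ^ e := by positivity
      rw [div_le_iff₀ hMe0] at hNlow
      have hN3 : 3 ≤ N := by
        have h1 : M ^ (e + 2) < N * M ^ e := (hLpow (e + 2) (by omega)).trans_le hNlow
        have h2 : M ^ (e + 2) = M ^ 2 * M ^ e := by ring
        rw [h2] at h1
        have h3 : M ^ 2 < N := lt_of_mul_lt_mul_right h1 hMe0.le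
        have h4 : (3 : ℝ) < N := by nlinarith
        exact_mod_cast h4.le
      have hN0 : (0 : ℝ) < N := by exact_mod_cast (by omega : 0 < N)
      have hNL : (N : ℝ) ≤ M ^ (5 * e) * L := by
        rw [mul_comm 5 e, pow_mul]
        exact hN5
      have hC4 := hl4 k a b a₀
      have hC4R : (C₄ k a b a₀ : ℝ) ≤ C₀ := by exact_mod_cast hC4
      rcases hreal k a b a₀ hR x hx (hxE4 k a b a₀) ⟨hint k, hint a, hint b, hint a₀⟩ K
        ⟨hK k, hK a, hK b, hK a₀⟩ N hN3 (mdeg_spec (hI a b)).2 with h | ⟨n', hn1, hn2, hn3⟩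
      · -- the height is small
        have h1 := hs₀.trans (h s₀)
        rw [Real.exp_le_exp] at h1
        have hlogN : 1 ≤ Real.log N := by
          rw [Real.le_log_iff_exp_le hN0]
          have h2 := Real.exp_one_lt_d9
          have h3 : (3 : ℝ) ≤ N := by exact_mod_cast hN3
          linarith
        have hlogN2 : Real.log N ≤ 2 * (1 + Real.log L) := by
          have h2 : (N : ℝ) ≤ L * L := by
            refine hNL.trans ?_
            have := (hLpow (5 * e) (by omega)).le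
            gcongr
          have h3 := Real.log_le_log hN0 h2
          rw [Real.log_mul hL0.ne' hL0.ne'] at h3
          linarith
        have hL1 : 1 ≤ L := hM1.trans hM_L
        have h2 : L ≤ (2 * M * (1 + Real.log L)) ^ C₀ := by
          calc L ≤ ((C₄ k a b a₀ : ℝ) * D) ^ C₄ k a b a₀ * Real.log N ^ C₄ k a b a₀ := h1
            _ = ((C₄ k a b a₀ : ℝ) * D * Real.log N) ^ C₄ k a b a₀ := (mul_pow _ _ _).symm
            _ ≤ (M * Real.log N) ^ C₄ k a b a₀ := by
                have : (C₄ k a b a₀ : ℝ) * D ≤ M := by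
                  rw [hM]
                  gcongr
                gcongr
            _ ≤ (M * Real.log N) ^ C₀ := pow_le_pow_right₀ (by nlinarith) hC4
            _ ≤ (M * (2 * (1 + Real.log L))) ^ C₀ := by gcongr
            _ = _ := by ring
        have h3 := as_absorb hL1 (by linarith : 1 ≤ 2 * M) hC₀pos h2
        have h4 : 2 * C₀ * (2 * M) ≤ M ^ 4 := by
          have h5 : 4 ≤ M ^ 2 := by nlinarith
          calc 2 * C₀ * (2 * M) = 4 * (C₀ * M) := by ring
            _ ≤ M ^ 2 * (M * M) := by gcongr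
            _ = M ^ 4 := by ring
        have h5 : L ≤ M ^ (8 * C₀) := by
          refine h3.trans ?_
          calc (2 * C₀ * (2 * M)) ^ (2 * C₀) ≤ (M ^ 4) ^ (2 * C₀) := by gcongr
            _ = M ^ (8 * C₀) := by
              rw [← pow_mul]
              congr 1
              ring
        exact absurd h5 (not_le.mpr (hLpow _ (by omega)))
      · -- a middle divisor
        have hmidd := hmid K (x (i a)) (x (i b)) M L hM2 hDM (hK a) (hK b) (hN a) (hint a) (hI a b)
          (hLpow cm (by omega)).le (hmain a) (fun s => by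
            have key : ∀ z : ℂ, ‖z‖ ≤ C₂ a b → Real.log ‖z‖ ≤ M := by
              intro z hz
              rcases (norm_nonneg z).eq_or_lt with h0 | h0
              · rw [← h0, Real.log_zero]
                exact hM0.le
              · have := Real.log_le_sub_one_of_pos h0
                have := (hl2 a b).trans hCM
                linarith
            rcases halt x hx s with h | h
            · exact Or.inl (key _ h)
            · exact Or.inr (key _ h)) n' hn1
        have hn2R : (N : ℝ) ≤ M * n' ^ 2 := by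
          have h1 : (N : ℝ) ≤ C₄ k a b a₀ * n' ^ 2 := by exact_mod_cast hn2
          refine h1.trans ?_
          have := hC4R.trans hCM
          gcongr
        have hn3R : (n' : ℝ) ^ 2 ≤ M * N := by
          have h1 : (n' : ℝ) ^ 2 ≤ C₄ k a b a₀ * N := by exact_mod_cast hn3
          refine h1.trans ?_
          have := hC4R.trans hCM
          gcongr
        have hn0 : (0 : ℝ) ≤ n' := Nat.cast_nonneg _
        have hn'pos : (0 : ℝ) < n' := by
          have : 0 < n' := Nat.pos_of_dvd_of_pos hn1 (by omega)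
          exact_mod_cast this
        have h1 : L ≤ M ^ (cm + 1) * n' := by
          rcases hmidd with h | h
          · refine h.trans ?_
            have := as_mono hM2 (show cm ≤ cm + 1 by omega)
            gcongr
          · have h2 : L * n' ≤ (M ^ (cm + 1) * n') * n' := by
              calc L * n' ≤ M ^ cm * N := h
                _ ≤ M ^ cm * (M * n' ^ 2) := by gcongr
                _ = (M ^ (cm + 1) * n') * n' := by ring
            exact le_of_mul_le_mul_right h2 hn'pos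
        have h2 : L * L ≤ (M ^ (2 * cm + 3 + 5 * e)) * L := by
          calc L * L ≤ (M ^ (cm + 1) * n') * (M ^ (cm + 1) * n') := by gcongr
            _ = M ^ (2 * cm + 2) * n' ^ 2 := by ring
            _ ≤ M ^ (2 * cm + 2) * (M * N) := by gcongr
            _ ≤ M ^ (2 * cm + 2) * (M * (M ^ (5 * e) * L)) := by gcongr
            _ = _ := by ring
        have h3 : L ≤ M ^ (2 * cm + 3 + 5 * e) := le_of_mul_le_mul_right h2 hL0
        exact absurd h3 (not_le.mpr (hLpow _ (by omega)))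

end Pool.Agent.LGO.F
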