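import Mathlib
import Pool.Agent.LGO.G.RelF
import Pool.Agent.LGO.U.RFld

/-!
# LGO/F (note 3060, assembly): the field of definition of all coordinates

Outside a finite set all coordinates of a point of `V` lie in an extension of bounded degree of any field which
contains one nonconstant coordinate.
-/

namespace Pool.Agent.LGO.F

open Polynomial Pool.Agent.Hhelper14.ZPL

variable {n : ℕ} {V : Set (Fin n → ℂ)}

theorem as_fld (hV : Pool.Agent.Hhelper14.ZPL.IsIrredClosed V) (hVk : KClosed V)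
    (hdim : Pool.Agent.Hhelper14.ZPL.dim V = 1) {b : Fin n} (hb : ∀ c : ℂ, ∃ x ∈ V, x b ≠ c)
    (a : Fin n) :
    ∃ (C : ℕ) (E : Set (Fin n → ℂ)), 0 < C ∧ E.Finite ∧ ∀ x ∈ V, x ∉ E →
      ∀ (K : IntermediateField ℚ ℂ) [FiniteDimensional ℚ K], x b ∈ K →
        ∃ K' : IntermediateField ℚ ℂ, K ≤ K' ∧ FiniteDimensional ℚ K' ∧
          Module.finrank ℚ K' ≤ C * Module.finrank ℚ K ∧ x a ∈ K' := by
  classical
  have hF : ∀ c : ℂ, ∃ x ∈ V, (MvPolynomial.aeval (x ∘ (![b, b, a] : Fin 3 → Fin n))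
      (MvPolynomial.X 0 : MvPolynomial (Fin 3) Qb) : ℂ) ≠ c := by
    intro c
    obtain ⟨x, hx, hxc⟩ := hb c
    exact ⟨x, hx, by rw [MvPolynomial.aeval_X]; exact hxc⟩
  obtain ⟨R, hR, hrel, hfin⟩ := exists_rel hV hVk hdim ![b, b, a] hF 2
  obtain ⟨K₀, hK₀, hfix⟩ := U.fld_fix ((Finset.range (R.natDegree + 1)).image fun k => R.coeff k)
  refine ⟨R.natDegree * Module.finrank ℚ K₀, _, Nat.mul_pos hR Module.finrank_pos, hfin,
    fun x hx hxE K _ hxK => ?_⟩
  have hval : (MvPolynomial.aeval (x ∘ (![b, b, a] : Fin 3 → Fin n))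
      (MvPolynomial.X 0 : MvPolynomial (Fin 3) Qb) : ℂ) = x b := by
    rw [MvPolynomial.aeval_X]
    rfl
  have hrel' := hrel x hx
  have hlc : (aeval (x b) R.leadingCoeff : ℂ) ≠ 0 := by
    intro h0
    refine hxE ⟨hx, ?_⟩
    rw [hval]
    exact h0
  rw [hval] at hrel'
  have hfd : FiniteDimensional ℚ (K ⊔ K₀ : IntermediateField ℚ ℂ) :=
    IntermediateField.finiteDimensional_sup K K₀
  set P : ℂ[X] := ∑ j ∈ Finset.range (R.natDegree + 1), C (aeval (x b) (R.coeff j) : ℂ) * X ^ j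
    with hP
  have hcoeff : ∀ k, P.coeff k = if k ∈ Finset.range (R.natDegree + 1) then
      (aeval (x b) (R.coeff k) : ℂ) else 0 := by
    intro k
    rw [hP, finsetSum_coeff]
    simp only [coeff_C_mul, coeff_X_pow, mul_ite, mul_one, mul_zero, Finset.sum_ite_eq,
      Finset.mem_range]
  have hP0 : P ≠ 0 := by
    intro h0
    have h1 := hcoeff R.natDegree
    rw [if_pos (Finset.self_mem_range_succ _), h0, coeff_zero] at h1
    exact hlc h1.symm
  have hPd : P.natDegree ≤ R.natDegree := by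
    rw [hP]
    refine natDegree_sum_le_of_forall_le _ _ fun j hj => ?_
    exact (natDegree_C_mul_X_pow_le _ _).trans (Nat.lt_succ_iff.mp (Finset.mem_range.mp hj))
  have hPc : ∀ k, P.coeff k ∈ (K ⊔ K₀ : IntermediateField ℚ ℂ) := by
    intro k
    rw [hcoeff]
    split_ifs with hk
    · rw [aeval_eq_sum_range]
      refine sum_mem fun l _ => ?_
      rw [Algebra.smul_def]
      refine mul_mem ?_ (pow_mem ((le_sup_left : K ≤ K ⊔ K₀) hxK) _)
      exact (le_sup_right : K₀ ≤ K ⊔ K₀) (hfix _ (Finset.mem_image_of_mem _ hk) l)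
    · exact zero_mem _
  have hroot : P.eval (x a) = 0 := by
    rw [hP, eval_finsetSum]
    simp only [eval_mul, eval_C, eval_pow, eval_X]
    exact hrel'
  obtain ⟨K', h1, h2, h3, h4⟩ := U.fld_root R.natDegree (K ⊔ K₀) P hP0 hPd hPc (x a) hroot
  refine ⟨K', le_sup_left.trans h1, h2, h3.trans ?_, h4⟩
  have h5 : Module.finrank ℚ (K ⊔ K₀ : IntermediateField ℚ ℂ) ≤
      Module.finrank ℚ K * Module.finrank ℚ K₀ := IntermediateField.finrank_sup_le K K₀
  calc R.natDegree * Module.finrank ℚ (K ⊔ K₀ : IntermediateField ℚ ℂ) ≤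
        R.natDegree * (Module.finrank ℚ K * Module.finrank ℚ K₀) := Nat.mul_le_mul_left _ h5
    _ = R.natDegree * Module.finrank ℚ K₀ * Module.finrank ℚ K := by ring

theorem as_fld_all (hV : Pool.Agent.Hhelper14.ZPL.IsIrredClosed V) (hVk : KClosed V)
    (hdim : Pool.Agent.Hhelper14.ZPL.dim V = 1) {b : Fin n} (hb : ∀ c : ℂ, ∃ x ∈ V, x b ≠ c) :
    ∃ (C : ℕ) (E : Set (Fin n → ℂ)), 0 < C ∧ E.Finite ∧ ∀ x ∈ V, x ∉ E →
      ∀ (K : IntermediateField ℚ ℂ) [FiniteDimensional ℚ K], x b ∈ K →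
        ∃ K' : IntermediateField ℚ ℂ, K ≤ K' ∧ FiniteDimensional ℚ K' ∧
          Module.finrank ℚ K' ≤ C * Module.finrank ℚ K ∧ ∀ a, x a ∈ K' := by
  classical
  suffices h : ∀ S : Finset (Fin n), ∃ (C : ℕ) (E : Set (Fin n → ℂ)), 0 < C ∧ E.Finite ∧
      ∀ x ∈ V, x ∉ E → ∀ (K : IntermediateField ℚ ℂ) [FiniteDimensional ℚ K], x b ∈ K →
        ∃ K' : IntermediateField ℚ ℂ, K ≤ K' ∧ FiniteDimensional ℚ K' ∧
          Module.finrank ℚ K' ≤ C * Module.finrank ℚ K ∧ ∀ a ∈ S, x a ∈ K' by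
    obtain ⟨C, E, hC, hE, h⟩ := h Finset.univ
    refine ⟨C, E, hC, hE, fun x hx hxE K _ hK => ?_⟩
    obtain ⟨K', h1, h2, h3, h4⟩ := h x hx hxE K hK
    exact ⟨K', h1, h2, h3, fun a => h4 a (Finset.mem_univ a)⟩
  intro S
  induction S using Finset.induction_on with
  | empty =>
    refine ⟨1, ∅, one_pos, Set.finite_empty, fun x _ _ K hK _ => ⟨K, le_rfl, hK, ?_, ?_⟩⟩
    · rw [one_mul]
    · simp
  | insert a S _ ih =>
    obtain ⟨C, E, hC, hE, h⟩ := ih
    obtain ⟨C', E', hC', hE', h'⟩ := as_fld hV hVk hdim hb a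
    refine ⟨C' * C, E ∪ E', Nat.mul_pos hC' hC, hE.union hE', fun x hx hxE K _ hK => ?_⟩
    obtain ⟨K₁, h1, h2, h3, h4⟩ := h x hx (fun hh => hxE (Or.inl hh)) K hK
    obtain ⟨K₂, h5, h6, h7, h8⟩ := h' x hx (fun hh => hxE (Or.inr hh)) K₁ (h1 hK)
    refine ⟨K₂, h1.trans h5, h6, ?_, ?_⟩
    · calc Module.finrank ℚ K₂ ≤ C' * Module.finrank ℚ K₁ := h7
        _ ≤ C' * (C * Module.finrank ℚ K) := Nat.mul_le_mul_left _ h3
        _ = C' * C * Module.finrank ℚ K := by ring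
    · intro c hc
      rcases Finset.mem_insert.mp hc with rfl | hc
      · exact h8
      · exact h5 (h4 c hc)

end Pool.Agent.LGO.F
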