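import Mathlib
import Pool.Agent.LGO.F.AsCore
import Pool.Agent.LGO.F.AsFld
import Pool.Agent.LGO.End.Link
import Pool.Agent.LGO.AX.Main

/-!
# LGO/F (note 3060): Theorem Q, finiteness
-/

namespace Pool.Agent.LGO.F

open UpperHalfPlane MvPolynomial Filter Topology Pool.Agent.Hhelper14.ZP Pool.Agent.Hhelper14.ZPL

theorem one3_out {P Q R : Prop} (h : One3 P Q R) (hP : P) : ¬ Q ∧ ¬ R := by
  rcases h with h | h | h
  · exact h.2
  · exact absurd hP h.1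
  · exact absurd hP h.1

theorem one3_in {P Q R : Prop} (h : One3 P Q R) (hP : ¬ P) (hQ : ¬ Q) : R := by
  rcases h with h | h | h
  · exact absurd h.1 hP
  · exact absurd h.2.1 hQ
  · exact h.2.2

/-- on five objects there is no set of pairs such that every triple contains exactly one of them -/
theorem no_five {m : ℕ} (hm : 5 ≤ m) (E : Fin m → Fin m → Prop)
    (h : ∀ a b c, a ≠ b → a ≠ c → b ≠ c → One3 (E a b) (E a c) (E b c)) : False := by
  have key : ∀ a b c d e : Fin m, a ≠ b → a ≠ c → a ≠ d → a ≠ e → b ≠ c → b ≠ d → b ≠ e →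
      c ≠ d → c ≠ e → d ≠ e → ¬ E a b := by
    intro a b c d e hab hac had hae hbc hbd hbe hcd hce hde hE
    have h1 := (one3_out (h a b c hab hac hbc) hE).1
    have h2 := (one3_out (h a b d hab had hbd) hE).1
    have h3 := (one3_out (h a b e hab hae hbe) hE).1
    have h4 := one3_in (h a c d hac had hcd) h1 h2
    have h5 := one3_in (h a c e hac hae hce) h1 h3
    exact (one3_out (h c d e hcd hce hde) h4).1 h5
  set u : Fin 5 → Fin m := fun k => ⟨k, by omega⟩ with hu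
  have huu : ∀ k l : Fin 5, k ≠ l → u k ≠ u l := by
    intro k l hkl hh
    apply hkl
    have := congrArg Fin.val hh
    exact Fin.ext this
  have e01 : ¬ E (u 0) (u 1) := key (u 0) (u 1) (u 2) (u 3) (u 4) (huu _ _ (by decide))
    (huu _ _ (by decide)) (huu _ _ (by decide)) (huu _ _ (by decide)) (huu _ _ (by decide))
    (huu _ _ (by decide)) (huu _ _ (by decide)) (huu _ _ (by decide)) (huu _ _ (by decide))
    (huu _ _ (by decide))
  have e02 : ¬ E (u 0) (u 2) := key (u 0) (u 2) (u 1) (u 3) (u 4) (huu _ _ (by decide))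
    (huu _ _ (by decide)) (huu _ _ (by decide)) (huu _ _ (by decide)) (huu _ _ (by decide))
    (huu _ _ (by decide)) (huu _ _ (by decide)) (huu _ _ (by decide)) (huu _ _ (by decide))
    (huu _ _ (by decide))
  have e12 : ¬ E (u 1) (u 2) := key (u 1) (u 2) (u 0) (u 3) (u 4) (huu _ _ (by decide))
    (huu _ _ (by decide)) (huu _ _ (by decide)) (huu _ _ (by decide)) (huu _ _ (by decide))
    (huu _ _ (by decide)) (huu _ _ (by decide)) (huu _ _ (by decide)) (huu _ _ (by decide))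
    (huu _ _ (by decide))
  exact e12 (one3_in (h (u 0) (u 1) (u 2) (huu _ _ (by decide)) (huu _ _ (by decide))
    (huu _ _ (by decide))) e01 e02)

theorem poleGraph_of_five {n m : ℕ} (hm : 5 ≤ m) (V : Set (Fin n → ℂ)) (i : Fin m → Fin n) :
    PoleGraph V i := by
  rintro ⟨E, -, h, -⟩
  exact no_five hm E h

variable {n m : ℕ} {V : Set (Fin n → ℂ)}

/-- the coordinates are different -/
theorem as_inj {i : Fin m → Fin n}
    (hmod : ∀ a b, a ≠ b → ∀ g : GL (Fin 2) ℚ, 0 < g.det.val →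
      ∃ x ∈ V, ¬ ∃ τ : ℍ, x (i a) = jInv τ ∧ x (i b) = jInv (gact g τ)) :
    Function.Injective i := by
  intro a b hab
  by_contra hne
  obtain ⟨x, -, hx⟩ := hmod a b hne 1 (by simp)
  apply hx
  obtain ⟨τ, hτ⟩ := Pool.Agent.Hhelper14.ZPL.j_surj (x (i a))
  exact ⟨τ, hτ.symm, by rw [gact_one, ← hab]; exact hτ.symm⟩

/-- one of the conjugates of an integral number has the largest absolute value -/
private theorem AsFin_max {z : ℂ} (hz : IsIntegral ℤ z) :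
    ∃ s₀ : ℂ ≃+* ℂ, ∀ s : ℂ ≃+* ℂ, ‖s z‖ ≤ ‖s₀ z‖ := by
  classical
  have hint : IsIntegral ℚ z := hz.tower_top
  have hP0 : minpoly ℚ z ≠ 0 := minpoly.ne_zero hint
  have hfin : (Set.range fun s : ℂ ≃+* ℂ => ‖s z‖).Finite := by
    apply Set.Finite.subset ((((minpoly ℚ z).aroots ℂ).toFinset.finite_toSet).image fun w => ‖w‖)
    rintro _ ⟨s, rfl⟩
    refine ⟨s z, ?_, rfl⟩
    rw [Finset.mem_coe, Multiset.mem_toFinset, Polynomial.mem_aroots]
    refine ⟨hP0, ?_⟩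
    have h1 := Polynomial.aeval_algHom_apply (RingHom.toRatAlgHom (s : ℂ →+* ℂ)) z (minpoly ℚ z)
    rw [minpoly.aeval, map_zero] at h1
    exact h1
  obtain ⟨r, ⟨s₀, hs₀⟩, hr⟩ := Set.exists_max_image (Set.range fun s : ℂ ≃+* ℂ => ‖s z‖) id hfin
    ⟨_, ⟨RingEquiv.refl ℂ, rfl⟩⟩
  refine ⟨s₀, fun s => ?_⟩
  have := hr _ ⟨s, rfl⟩
  rw [← hs₀] at this
  exact this

/-- **Theorem Q**, finiteness -/
theorem as_finite (hS : SharpAll) (hV : Pool.Agent.Hhelper14.ZPL.IsIrredClosed V)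
    (hVk : KClosed V) (hdim : Pool.Agent.Hhelper14.ZPL.dim V = 1) (i : Fin m → Fin n)
    (hconst : ∀ a, ∀ c : ℂ, ∃ x ∈ V, x (i a) ≠ c)
    (hmod : ∀ a b, a ≠ b → ∀ g : GL (Fin 2) ℚ, 0 < g.det.val →
      ∃ x ∈ V, ¬ ∃ τ : ℍ, x (i a) = jInv τ ∧ x (i b) = jInv (gact g τ))
    (hG : PoleGraph V i) (k : Fin 3 → Fin m) (hk : Function.Injective k)
    {Q : MvPolynomial (Fin 3) ℂ} (hQ0 : constantCoeff Q ≠ 0)
    (hQ : ∀ x ∈ V, (∀ a, x (i (k a)) ≠ 0) → eval (fun a => (x (i (k a)))⁻¹) Q = 0) :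
    {x ∈ V | (∀ a, NCM (x (i a))) ∧
      ∀ a b, ∃ N, 0 < N ∧ IsogDeg N (x (i a)) (x (i b))}.Finite := by
  classical
  have hi : Function.Injective i := as_inj hmod
  have hconst' : ∀ a, ∀ c : ℂ, ∃ x ∈ V, x ((i ∘ k) a) ≠ c := fun a => hconst (k a)
  have hmod' : ∀ a b, a ≠ b → ∀ g : GL (Fin 2) ℚ, 0 < g.det.val →
      ∃ x ∈ V, ¬ ∃ τ : ℍ, x ((i ∘ k) a) = jInv τ ∧ x ((i ∘ k) b) = jInv (gact g τ) :=
    fun a b hab => hmod (k a) (k b) (hk.ne hab)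
  obtain ⟨C₀, E, hE, hcore⟩ := as_core hS hV hVk hdim i hi hconst hmod hG
  have hint := int_use hV hVk hdim (i ∘ k) hconst' hmod' hQ0 hQ
  obtain ⟨Cf, Ef, hCf, hEf, hfld⟩ := as_fld_all hV hVk hdim (hconst (k 0))
  obtain ⟨Ci, hCi, hisog⟩ := as_isog
  have hA := AX.hasAtlas hV hdim (i ∘ k) hconst' hmod' hQ0 hQ
  -- the constant
  set C : ℕ := (C₀ + 1) * Cf with hC
  have hC1 : 1 ≤ C := Nat.mul_pos (Nat.succ_pos _) hCf
  set C' : ℕ := (Ci * Cf + C) * (Ci + 1) * (C₀ + 2) with hC'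
  have hfin := PW.final_concl hV hVk hdim (i ∘ k) (hi.comp hk) hmod' hA C'
  refine (hfin.union ((hE.union hEf).union hint)).subset ?_
  rintro x ⟨hx, hN, hI⟩
  by_cases hxE : x ∈ E
  · exact Or.inr (Or.inl (Or.inl hxE))
  by_cases hxEf : x ∈ Ef
  · exact Or.inr (Or.inl (Or.inr hxEf))
  by_cases hxi : ∀ a, IsIntegral ℤ (x ((i ∘ k) a))
  swap
  · push Not at hxi
    exact Or.inr (Or.inr ⟨hx, fun a b => hI (k a) (k b), hxi⟩)
  refine Or.inl ⟨hx, fun a => hN (k a), fun a b => hI (k a) (k b), ?_⟩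
  have hxint : ∀ a, IsIntegral ℤ (x (i a)) := fun a =>
    integral_isog (hN (k 0)) (hxi 0) (hI (k 0) a)
  intro K _ hK
  obtain ⟨K', hKK', hfd, hrk, hK'⟩ := hfld x hx hxEf K (hK 0)
  have hD1 : (1 : ℝ) ≤ Module.finrank ℚ K := by
    exact_mod_cast Module.finrank_pos (R := ℚ) (M := K)
  have hD1' : (1 : ℝ) ≤ Module.finrank ℚ K' := by
    exact_mod_cast Module.finrank_pos (R := ℚ) (M := K')
  have hrkR : (Module.finrank ℚ K' : ℝ) ≤ Cf * Module.finrank ℚ K := by exact_mod_cast hrk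
  set D : ℝ := (Module.finrank ℚ K : ℝ) with hD
  set D' : ℝ := (Module.finrank ℚ K' : ℝ) with hD'
  -- the largest conjugate
  choose s₀ hs₀ using fun a => AsFin_max (hxint a)
  have hne : Nonempty (Fin m) := ⟨k 0⟩
  obtain ⟨a₀, -, ha₀⟩ := Finset.exists_max_image (Finset.univ : Finset (Fin m))
    (fun a => ‖s₀ a (x (i a))‖) ⟨k 0, Finset.mem_univ _⟩
  have hx0 : x (i a₀) ≠ 0 := (hN a₀).ne_zero
  have hpos : 0 < ‖s₀ a₀ (x (i a₀))‖ := by
    rw [norm_pos_iff]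
    exact (map_ne_zero _).mpr hx0
  set L : ℝ := Real.log ‖s₀ a₀ (x (i a₀))‖ with hL
  have hexp : Real.exp L = ‖s₀ a₀ (x (i a₀))‖ := Real.exp_log hpos
  have hsL : ∀ a, ∀ s : ℂ ≃+* ℂ, ‖s (x (i a))‖ ≤ Real.exp L := by
    intro a s
    rw [hexp]
    exact (hs₀ a s).trans (ha₀ a (Finset.mem_univ a))
  have h1 := hcore x hx hxE hN hI hxint K' (fun a => hK' (i a)) L hsL ⟨a₀, s₀ a₀, hexp.le⟩
  -- numerical part
  have hCR : (C : ℝ) = (C₀ + 1) * Cf := by rw [hC]; push_cast; ring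
  have hCf1 : (1 : ℝ) ≤ Cf := by exact_mod_cast hCf
  have hC₀0 : (0 : ℝ) ≤ C₀ := Nat.cast_nonneg _
  have hCR1 : (1 : ℝ) ≤ C := by exact_mod_cast hC1
  have hCi1 : (1 : ℝ) ≤ Ci := by exact_mod_cast hCi
  have hCD : 1 ≤ C * D := by nlinarith
  have h2 : L ≤ (C * D) ^ (C₀ + 1) := by
    have e1 : (C₀ : ℝ) * D' ≤ C * D := by
      rw [hCR]
      calc (C₀ : ℝ) * D' ≤ (C₀ + 1) * (Cf * D) := by gcongr; linarith
        _ = (C₀ + 1) * Cf * D := by ring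
    calc L ≤ ((C₀ : ℝ) * D') ^ C₀ := h1
      _ ≤ (C * D) ^ C₀ := by gcongr
      _ ≤ (C * D) ^ (C₀ + 1) := pow_le_pow_right₀ hCD (Nat.le_succ _)
  have hB1 : 1 ≤ (C * D) ^ (C₀ + 1) := one_le_pow₀ hCD
  have h3 : ∀ a, ∀ s : ℂ ≃+* ℂ, ‖s (x (i a))‖ ≤ Real.exp ((C * D) ^ (C₀ + 1)) := fun a s =>
    (hsL a s).trans (Real.exp_le_exp.mpr h2)
  have hC'R : (C' : ℝ) = (Ci * Cf + C) * (Ci + 1) * (C₀ + 2) := by rw [hC']; push_cast; ring
  have hbase : (Ci * Cf + C) * D ≤ C' * D := by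
    rw [hC'R]
    have e1 : (1 : ℝ) ≤ (Ci + 1) * (C₀ + 2) := by nlinarith
    have e2 : 0 ≤ (Ci * Cf + C : ℝ) * D := by positivity
    calc (Ci * Cf + C) * D = (Ci * Cf + C) * D * 1 := by ring
      _ ≤ (Ci * Cf + C) * D * ((Ci + 1) * (C₀ + 2)) := by gcongr
      _ = _ := by ring
  have hb1 : 1 ≤ (Ci * Cf + C) * D := by
    have : (0 : ℝ) ≤ Ci * Cf := by positivity
    nlinarith
  have hCle : C * D ≤ (Ci * Cf + C) * D := by
    have : (0 : ℝ) ≤ Ci * Cf := by positivity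
    gcongr
    linarith
  have hexpo : Ci * (C₀ + 2) ≤ C' := by
    rw [hC']
    have e1 : 1 ≤ Ci * Cf + C := by omega
    calc Ci * (C₀ + 2) ≤ (Ci + 1) * (C₀ + 2) := Nat.mul_le_mul_right _ (Nat.le_succ _)
      _ = 1 * ((Ci + 1) * (C₀ + 2)) := by ring
      _ ≤ (Ci * Cf + C) * ((Ci + 1) * (C₀ + 2)) := Nat.mul_le_mul_right _ e1
      _ = _ := by ring
  constructor
  · intro a b
    obtain ⟨h4, -⟩ := hisog K' (x (i (k a))) (x (i (k b))) ((C * D) ^ (C₀ + 1)) (hK' _) (hK' _)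
      (hN _) (hxint _) (hI _ _) hB1 (h3 _)
    change (mdeg (x (i (k a))) (x (i (k b))) : ℝ) ≤ _
    calc (mdeg (x (i (k a))) (x (i (k b))) : ℝ) ≤ (Ci * D' * (C * D) ^ (C₀ + 1)) ^ Ci := h4
      _ ≤ (Ci * (Cf * D) * (C * D) ^ (C₀ + 1)) ^ Ci := by gcongr
      _ ≤ ((Ci * Cf + C) * D * ((Ci * Cf + C) * D) ^ (C₀ + 1)) ^ Ci := by
          have e1 : Ci * (Cf * D) ≤ (Ci * Cf + C) * D := by nlinarith
          gcongr
      _ = ((Ci * Cf + C) * D) ^ (Ci * (C₀ + 2)) := by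
          rw [← pow_succ', ← pow_mul]
          congr 1
          ring
      _ ≤ ((Ci * Cf + C) * D) ^ C' := pow_le_pow_right₀ hb1 hexpo
      _ ≤ (C' * D) ^ C' := by gcongr
  · intro a s
    refine (h3 (k a) s).trans (Real.exp_le_exp.mpr ?_)
    calc (C * D) ^ (C₀ + 1) ≤ ((Ci * Cf + C) * D) ^ (C₀ + 1) := by gcongr
      _ ≤ ((Ci * Cf + C) * D) ^ C' := pow_le_pow_right₀ hb1 (by nlinarith)
      _ ≤ (C' * D) ^ C' := by gcongr

end Pool.Agent.LGO.F
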