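import Mathlib
import Pool.Agent.LGO.A.MulBasic

/-!
# LGO/F (note 3060, zero estimate): Bezout's theorem on `ℙ¹ × ℙ¹`, the exact codimension

`BiD a b`: the polynomials with `dX ≤ a`, `dY ≤ b`; dimension `(a + 1) (b + 1)`.
`WW G₁ G₂ k` = all `A G₁ + B G₂` with `A G₁, B G₂ ∈ BiD k k`.

PROOF of `finrank_WW`.  `a_i = dX G_i`, `b_i = dY G_i`.  `WW = S ⊔ T` with `S = G₁ · BiD (k - a₁) (k - b₁)`,
`T = G₂ · BiD (k - a₂) (k - b₂)`, images of injective linear maps (`dX_mul`, `dY_mul`), so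
`finrank S = (k - a₁ + 1) (k - b₁ + 1)`, the same for `T`.  `S ⊓ T ⊆ G₁ G₂ · BiD (k - a₁ - a₂) (k - b₁ - b₂)`: if
`A G₁ = B G₂` then `G₂ ∣ A G₁`, and `G₂` is relatively prime to `G₁`, so `G₂ ∣ A` (`IsRelPrime.dvd_of_dvd_mul_right`
in the UFD `ℂ[X][Y]`), `A = G₂ C`, degrees of `C` by `dX_mul`, `dY_mul`.
`Submodule.finrank_sup_add_finrank_inf_eq`, and with `K = k + 1`:
`(K - a₁)(K - b₁) + (K - a₂)(K - b₂) - (K - a₁ - a₂)(K - b₁ - b₂) = K² - a₁ b₂ - a₂ b₁`.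
-/

namespace Pool.Agent.LGO.F

open Polynomial Pool.Agent.LGO.Mul Module
open scoped Polynomial.Bivariate

/-- the polynomials of degree `≤ a` in `X` and `≤ b` in `Y` -/
noncomputable def BiD (a b : ℕ) : Submodule ℂ ℂ[X][Y] where
  carrier := {P | dY P ≤ b ∧ ∀ j, (P.coeff j).natDegree ≤ a}
  add_mem' := by
    rintro P Q ⟨h1, h2⟩ ⟨h3, h4⟩
    refine ⟨(natDegree_add_le _ _).trans (max_le h1 h3), fun j => ?_⟩
    rw [coeff_add]
    exact (natDegree_add_le _ _).trans (max_le (h2 j) (h4 j))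
  zero_mem' := by
    refine ⟨by simp [dY], fun j => by simp⟩
  smul_mem' := by
    rintro r P ⟨h1, h2⟩
    refine ⟨(natDegree_smul_le _ _).trans h1, fun j => ?_⟩
    rw [coeff_smul]
    exact (natDegree_smul_le _ _).trans (h2 j)

theorem mem_BiD {a b : ℕ} {P : ℂ[X][Y]} : P ∈ BiD a b ↔ dX P ≤ a ∧ dY P ≤ b := by
  constructor
  · rintro ⟨h1, h2⟩
    exact ⟨dX_le_of_coeff P a h2, h1⟩
  · rintro ⟨h1, h2⟩
    exact ⟨h2, fun j => (natDegree_coeff_le P j).trans h1⟩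

/-- the coefficients of an element of `BiD a b` -/
private noncomputable def BzKer_co (a b : ℕ) : BiD a b →ₗ[ℂ] (Fin (b + 1) × Fin (a + 1) → ℂ) where
  toFun P m := ((P : ℂ[X][Y]).coeff m.1).coeff m.2
  map_add' P Q := by
    funext m
    simp only [Submodule.coe_add, coeff_add, Pi.add_apply]
  map_smul' r P := by
    funext m
    simp only [Submodule.coe_smul, coeff_smul, Pi.smul_apply, RingHom.id_apply]

private lemma BzKer_inj (a b : ℕ) : Function.Injective (BzKer_co a b) := by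
  rw [injective_iff_map_eq_zero]
  rintro ⟨P, hP⟩ h
  have hP' := hP
  obtain ⟨h1, h2⟩ := hP'
  apply Subtype.ext
  show P = 0
  ext j i
  rw [coeff_zero, coeff_zero]
  by_cases hj : j < b + 1
  · by_cases hi : i < a + 1
    · have := congrFun h (⟨j, hj⟩, ⟨i, hi⟩)
      exact this
    · exact coeff_eq_zero_of_natDegree_lt (lt_of_le_of_lt (h2 j) (by omega))
  · have h3 : P.coeff j = 0 := coeff_eq_zero_of_natDegree_lt (lt_of_le_of_lt h1 (by omega))
    rw [h3, coeff_zero]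

private lemma BzKer_surj (a b : ℕ) : Function.Surjective (BzKer_co a b) := by
  intro c
  have hco : ∀ j : ℕ, (∑ m : Fin (b + 1), (monomial (m : ℕ)
      (∑ i : Fin (a + 1), (monomial (i : ℕ) (c (m, i)) : ℂ[X])) : ℂ[X][Y])).coeff j =
      if h : j < b + 1 then ∑ i : Fin (a + 1), (monomial (i : ℕ) (c (⟨j, h⟩, i)) : ℂ[X]) else 0 := by
    intro j
    rw [finsetSum_coeff]
    split_ifs with h
    · rw [Finset.sum_eq_single (⟨j, h⟩ : Fin (b + 1))]
      · rw [coeff_monomial, if_pos rfl]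
      · intro m _ hm
        rw [coeff_monomial, if_neg]
        intro h3
        exact hm (Fin.ext h3)
      · intro h3
        exact absurd (Finset.mem_univ _) h3
    · apply Finset.sum_eq_zero
      intro m _
      rw [coeff_monomial, if_neg]
      intro h3
      exact h (h3 ▸ m.2)
  have hco2 : ∀ (j : Fin (b + 1)) (i : ℕ), (∑ i : Fin (a + 1),
      (monomial (i : ℕ) (c (j, i)) : ℂ[X])).coeff i =
      if h : i < a + 1 then c (j, ⟨i, h⟩) else 0 := by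
    intro j i
    rw [finsetSum_coeff]
    split_ifs with h
    · rw [Finset.sum_eq_single (⟨i, h⟩ : Fin (a + 1))]
      · rw [coeff_monomial, if_pos rfl]
      · intro m _ hm
        rw [coeff_monomial, if_neg]
        intro h3
        exact hm (Fin.ext h3)
      · intro h3
        exact absurd (Finset.mem_univ _) h3
    · apply Finset.sum_eq_zero
      intro m _
      rw [coeff_monomial, if_neg]
      intro h3
      exact h (h3 ▸ m.2)
  refine ⟨⟨∑ m : Fin (b + 1), (monomial (m : ℕ)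
      (∑ i : Fin (a + 1), (monomial (i : ℕ) (c (m, i)) : ℂ[X])) : ℂ[X][Y]), ?_, ?_⟩, ?_⟩
  · show natDegree _ ≤ b
    rw [natDegree_le_iff_coeff_eq_zero]
    intro j hj
    rw [hco, dif_neg (by omega)]
  · intro j
    rw [hco]
    split_ifs with h
    · rw [natDegree_le_iff_coeff_eq_zero]
      intro i hi
      rw [hco2, dif_neg (by omega)]
    · simp
  · funext m
    obtain ⟨j, i⟩ := m
    show (Polynomial.coeff (∑ m : Fin (b + 1), (monomial (m : ℕ)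
      (∑ i : Fin (a + 1), (monomial (i : ℕ) (c (m, i)) : ℂ[X])) : ℂ[X][Y])) (j : ℕ)).coeff
        (i : ℕ) = c (j, i)
    rw [hco, dif_pos j.2, hco2, dif_pos i.2]

theorem finrank_BiD (a b : ℕ) : finrank ℂ (BiD a b) = (a + 1) * (b + 1) := by
  rw [(LinearEquiv.ofBijective (BzKer_co a b) ⟨BzKer_inj a b, BzKer_surj a b⟩).finrank_eq,
    Module.finrank_fintype_fun_eq_card, Fintype.card_prod, Fintype.card_fin, Fintype.card_fin,
    mul_comm]

theorem finite_BiD (a b : ℕ) : FiniteDimensional ℂ (BiD a b) :=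
  Module.Finite.equiv
    (LinearEquiv.ofBijective (BzKer_co a b) ⟨BzKer_inj a b, BzKer_surj a b⟩).symm

/-- the elements `A G₁ + B G₂` of bidegree at most `(k, k)` (both summands) -/
noncomputable def WW (G₁ G₂ : ℂ[X][Y]) (k : ℕ) : Submodule ℂ ℂ[X][Y] :=
  (BiD (k - dX G₁) (k - dY G₁)).map (LinearMap.mulLeft ℂ G₁) ⊔
    (BiD (k - dX G₂) (k - dY G₂)).map (LinearMap.mulLeft ℂ G₂)

private lemma BzKer_le {G : ℂ[X][Y]} {k : ℕ} (h : G ≠ 0) (hx : dX G ≤ k) (hy : dY G ≤ k) :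
    (BiD (k - dX G) (k - dY G)).map (LinearMap.mulLeft ℂ G) ≤ BiD k k := by
  rintro P ⟨A, hA, rfl⟩
  rw [LinearMap.mulLeft_apply]
  by_cases hA0 : A = 0
  · rw [hA0, mul_zero]
    exact zero_mem _
  · have hA' := mem_BiD.1 hA
    rw [mem_BiD, dX_mul h hA0, dY_mul h hA0]
    omega

theorem WW_le (G₁ G₂ : ℂ[X][Y]) (k : ℕ) (h₁ : G₁ ≠ 0) (h₂ : G₂ ≠ 0) (hx : dX G₁ + dX G₂ ≤ k)
    (hy : dY G₁ + dY G₂ ≤ k) : WW G₁ G₂ k ≤ BiD k k :=
  sup_le (BzKer_le h₁ (by omega) (by omega)) (BzKer_le h₂ (by omega) (by omega))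

private lemma BzKer_mulinj {G : ℂ[X][Y]} (h : G ≠ 0) :
    Function.Injective (LinearMap.mulLeft ℂ G) := by
  intro A B hAB
  rw [LinearMap.mulLeft_apply, LinearMap.mulLeft_apply] at hAB
  exact mul_left_cancel₀ h hAB

private lemma BzKer_finrank_map {G : ℂ[X][Y]} (h : G ≠ 0) (a b : ℕ) :
    finrank ℂ ((BiD a b).map (LinearMap.mulLeft ℂ G)) = (a + 1) * (b + 1) := by
  rw [← (Submodule.equivMapOfInjective _ (BzKer_mulinj h) (BiD a b)).finrank_eq, finrank_BiD]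

private lemma BzKer_finite_map (G : ℂ[X][Y]) (a b : ℕ) :
    FiniteDimensional ℂ ((BiD a b).map (LinearMap.mulLeft ℂ G)) := by
  have := finite_BiD a b
  infer_instance

private lemma BzKer_inf (G₁ G₂ : ℂ[X][Y]) (k : ℕ) (h₂ : G₂ ≠ 0)
    (hc : IsRelPrime G₁ G₂) :
    (BiD (k - dX G₁) (k - dY G₁)).map (LinearMap.mulLeft ℂ G₁) ⊓
      (BiD (k - dX G₂) (k - dY G₂)).map (LinearMap.mulLeft ℂ G₂) ≤
      (BiD (k - dX G₁ - dX G₂) (k - dY G₁ - dY G₂)).map (LinearMap.mulLeft ℂ (G₁ * G₂)) := by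
  rintro P ⟨⟨A, hA, rfl⟩, ⟨B, _, hAB⟩⟩
  rw [LinearMap.mulLeft_apply, LinearMap.mulLeft_apply] at hAB
  rw [LinearMap.mulLeft_apply]
  have hd : G₂ ∣ G₁ * A := ⟨B, hAB.symm⟩
  have hd2 : G₂ ∣ A := hc.symm.dvd_of_dvd_mul_left hd
  obtain ⟨C', rfl⟩ := hd2
  refine ⟨C', ?_, by rw [LinearMap.mulLeft_apply, mul_assoc]⟩
  by_cases hC : C' = 0
  · rw [hC]
    exact zero_mem _
  · have hA' := mem_BiD.1 hA
    rw [dX_mul h₂ hC, dY_mul h₂ hC] at hA'
    show C' ∈ BiD _ _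
    rw [mem_BiD]
    omega

theorem finrank_WW (G₁ G₂ : ℂ[X][Y]) (k : ℕ) (h₁ : G₁ ≠ 0) (h₂ : G₂ ≠ 0) (hc : IsRelPrime G₁ G₂)
    (hx : dX G₁ + dX G₂ ≤ k) (hy : dY G₁ + dY G₂ ≤ k) :
    (k + 1) ^ 2 ≤ finrank ℂ (WW G₁ G₂ k) + (dX G₁ * dY G₂ + dY G₁ * dX G₂) := by
  have f1 := BzKer_finite_map G₁ (k - dX G₁) (k - dY G₁)
  have f2 := BzKer_finite_map G₂ (k - dX G₂) (k - dY G₂)
  have f3 := BzKer_finite_map (G₁ * G₂) (k - dX G₁ - dX G₂) (k - dY G₁ - dY G₂)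
  have e := Submodule.finrank_sup_add_finrank_inf_eq
    ((BiD (k - dX G₁) (k - dY G₁)).map (LinearMap.mulLeft ℂ G₁))
    ((BiD (k - dX G₂) (k - dY G₂)).map (LinearMap.mulLeft ℂ G₂))
  have e3 := Submodule.finrank_mono (BzKer_inf G₁ G₂ k h₂ hc)
  rw [BzKer_finrank_map (mul_ne_zero h₁ h₂)] at e3
  rw [BzKer_finrank_map h₁, BzKer_finrank_map h₂] at e
  unfold WW
  obtain ⟨u, hu⟩ := Nat.exists_eq_add_of_le hx
  obtain ⟨v, hv⟩ := Nat.exists_eq_add_of_le hy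
  have i1 : k - dX G₁ - dX G₂ = u := by omega
  have i2 : k - dY G₁ - dY G₂ = v := by omega
  have i3 : k - dX G₁ = dX G₂ + u := by omega
  have i4 : k - dY G₁ = dY G₂ + v := by omega
  have i5 : k - dX G₂ = dX G₁ + u := by omega
  have i6 : k - dY G₂ = dY G₁ + v := by omega
  rw [i1, i2] at e3
  have hk : (k + 1) ^ 2 = (dX G₁ + dX G₂ + u + 1) * (dY G₁ + dY G₂ + v + 1) := by
    rw [← hu, ← hv, sq]
  rw [hk]
  have e4 : (k - dX G₁ + 1) * (k - dY G₁ + 1) + (k - dX G₂ + 1) * (k - dY G₂ + 1) =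
      (dX G₂ + u + 1) * (dY G₂ + v + 1) + (dX G₁ + u + 1) * (dY G₁ + v + 1) := by
    rw [i3, i4, i5, i6]
  rw [e4] at e
  nlinarith [e, e3]

end Pool.Agent.LGO.F
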