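import Mathlib
import Pool.Agent.LGO.A.MulBasic

/-!
# LGO/F (note 3060, zero estimate): order of vanishing of a polynomial in two variables at a point

`cf P x y i j` is the coefficient of `X^i Y^j` in `P(x + X, y + Y)`; `Van k x y P`: `P` vanishes to order `≥ k`
at `(x, y)`.

PROOFS.  `eval_sum_cf`: `P(u, v) = ∑ cf_ij (u - x)^i (v - y)^j` (`Polynomial.sum_taylor_eq` / `taylor_eval` in both
variables).  `Van.mul`: the coefficients of a product are the convolution of the coefficients (`taylor` is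
multiplicative, `coeff_mul` twice; or `taylorAlgHom`).  `Van.pX`, `Van.pY`: `cf (pX P) i j = (i + 1) cf P (i+1) j`
(`pX` of a monomial: `MulBasic_pX_mono`, it commutes with translations; or induction on `P`).
`van_of_isBigO`: if not, let `s < k` be the smallest total degree of a nonzero `cf_ij`; on the line
`(x + a t, y + b t)` the function is `t^s (∑_(i+j=s) cf_ij a^i b^j) + O(t^(s+1))`; choose `a, b` with
`∑ cf_ij a^i b^j ≠ 0` (a nonzero form: e.g. `a = 1` and `b` not a root of `∑ cf_(s-j,j) b^j`); divide by `t^s`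
and let `t → 0`.  `Van.isBigO`: `eval_sum_cf`, `‖u - x‖^i ‖v - y‖^j ≤ ‖(u,v) - (x,y)‖^(i+j)` and
`≤ ‖·‖^k` near the point if `i + j ≥ k`.
`van_comp`: local inverses of `f₁`, `f₂` (`HasStrictDerivAt.localInverse`), `van_of_isBigO`:
`P(u, v) = P(f₁(g₁ u), f₂(g₂ v)) = O(‖(g₁ u, g₂ v) - z‖^k)` and `g_i` is Lipschitz near `f_i(z_i)`.
-/

namespace Pool.Agent.LGO.F

open Polynomial Filter Topology Pool.Agent.LGO.Mul Asymptotics
open scoped Polynomial.Bivariate

/-- the coefficient of `X^i Y^j` in `P(x + X, y + Y)` -/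
noncomputable def cf (P : ℂ[X][Y]) (x y : ℂ) (i j : ℕ) : ℂ :=
  (taylor x ((taylor (C y) P).coeff j)).coeff i

/-- `P` vanishes to order at least `k` at `(x, y)` -/
def Van (k : ℕ) (x y : ℂ) (P : ℂ[X][Y]) : Prop := ∀ i j, i + j < k → cf P x y i j = 0

private theorem Van_derivative_taylor (x : ℂ) (q : ℂ[X]) : taylor x (derivative q) = derivative (taylor x q) := by
  rw [taylor_apply, taylor_apply, derivative_comp, derivative_add, derivative_X, derivative_C, add_zero, one_mul]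

private theorem Van_derivative_taylor' (y : ℂ[X]) (q : ℂ[X][Y]) :
    taylor y (derivative q) = derivative (taylor y q) := by
  rw [taylor_apply, taylor_apply, derivative_comp, derivative_add, derivative_X, derivative_C, add_zero, one_mul]

private theorem Van_coeff_pX (P : ℂ[X][Y]) (k : ℕ) : (pX P).coeff k = derivative (P.coeff k) := by
  ext j
  unfold pX
  rw [coeff_coeff_swap, coeff_derivative, coeff_derivative, ← coeff_coeff_swap]
  have h : ((j : ℂ[X]) + 1) = C ((j : ℂ) + 1) := by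
    rw [C_add, C_1]
    rfl
  rw [h, coeff_mul_C]

private theorem Van_pX_add (P Q : ℂ[X][Y]) : pX (P + Q) = pX P + pX Q := by
  unfold pX
  rw [map_add, derivative_add, map_add]

private theorem Van_pX_monomial (n : ℕ) (a : ℂ[X]) : pX (monomial n a : ℂ[X][Y]) = monomial n (derivative a) := by
  ext1 k
  rw [Van_coeff_pX, coeff_monomial, coeff_monomial]
  split_ifs
  · rfl
  · exact derivative_zero

private theorem Van_coeff_XC (y : ℂ) (n j : ℕ) :
    ((X + C (C y) : ℂ[X][Y]) ^ n).coeff j = C (((X + C y : ℂ[X]) ^ n).coeff j) := by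
  have h : (X + C (C y) : ℂ[X][Y]) ^ n = ((X + C y : ℂ[X]) ^ n).map C := by
    simp [Polynomial.map_pow, Polynomial.map_add]
  rw [h, coeff_map]

private theorem Van_taylor_pX (P : ℂ[X][Y]) (y : ℂ) (j : ℕ) :
    (taylor (C y) (pX P)).coeff j = derivative ((taylor (C y) P).coeff j) := by
  induction P using Polynomial.induction_on' with
  | add p q hp hq => rw [Van_pX_add, map_add, map_add, coeff_add, coeff_add, hp, hq, derivative_add]
  | monomial n a =>
    rw [Van_pX_monomial, taylor_monomial, taylor_monomial, coeff_C_mul, coeff_C_mul, Van_coeff_XC,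
      derivative_mul, derivative_C, mul_zero, add_zero]

private theorem Van_natDegree_coeff (P : ℂ[X][Y]) (y : ℂ) (j : ℕ) :
    ((taylor (C y) P).coeff j).natDegree ≤ dX P := by
  rw [taylor_coeff, eval_eq_sum_range]
  refine natDegree_sum_le_of_forall_le _ _ (fun k _ => ?_)
  refine natDegree_mul_le.trans ?_
  have h1 : ((C y : ℂ[X]) ^ k).natDegree = 0 := by rw [← C_pow, natDegree_C]
  rw [h1, add_zero, hasseDeriv_coeff]
  refine natDegree_mul_le.trans ?_
  rw [natDegree_natCast, zero_add]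
  exact natDegree_coeff_le P _

theorem cf_add (P Q : ℂ[X][Y]) (x y : ℂ) (i j : ℕ) :
    cf (P + Q) x y i j = cf P x y i j + cf Q x y i j := by
  unfold cf
  rw [map_add, coeff_add, map_add, coeff_add]

private theorem Van_smul (r : ℂ) (P : ℂ[X][Y]) : r • P = C (C r) * P := by
  ext n m
  rw [coeff_smul, coeff_C_mul, coeff_smul, coeff_C_mul, smul_eq_mul]

theorem cf_smul (r : ℂ) (P : ℂ[X][Y]) (x y : ℂ) (i j : ℕ) :
    cf (r • P) x y i j = r * cf P x y i j := by
  unfold cf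
  rw [Van_smul, taylor_mul, taylor_C, coeff_C_mul, taylor_mul, taylor_C, coeff_C_mul]

/-- convolution -/
theorem cf_mul (P Q : ℂ[X][Y]) (x y : ℂ) (i j : ℕ) :
    cf (P * Q) x y i j = ∑ p ∈ Finset.HasAntidiagonal.antidiagonal i,
      ∑ q ∈ Finset.HasAntidiagonal.antidiagonal j, cf P x y p.1 q.1 * cf Q x y p.2 q.2 := by
  unfold cf
  rw [taylor_mul, coeff_mul, map_sum, finsetSum_coeff, Finset.sum_comm]
  refine Finset.sum_congr rfl fun q _ => ?_
  rw [taylor_mul, coeff_mul]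

/-- Taylor's formula; `m` and `n` are any bounds of the degrees -/
theorem eval_sum_cf (P : ℂ[X][Y]) (x y u v : ℂ) (m n : ℕ) (hm : dX P ≤ m) (hn : dY P ≤ n) :
    P.evalEval u v = ∑ i ∈ Finset.range (m + 1), ∑ j ∈ Finset.range (n + 1),
      cf P x y i j * (u - x) ^ i * (v - y) ^ j := by
  have h1 : P.eval (C v) = (taylor (C y) P).eval (C (v - y)) := by
    rw [taylor_eval, ← C_add, sub_add_cancel]
  have hd : (taylor (C y) P).natDegree < n + 1 := by
    rw [natDegree_taylor]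
    exact Nat.lt_succ_of_le hn
  unfold evalEval
  rw [h1, eval_eq_sum_range' hd, eval_finsetSum, Finset.sum_comm]
  refine Finset.sum_congr rfl fun j _ => ?_
  rw [eval_mul, eval_pow, eval_C]
  have h2 : ((taylor (C y) P).coeff j).eval u = (taylor x ((taylor (C y) P).coeff j)).eval (u - x) := by
    rw [taylor_eval, sub_add_cancel]
  have hd2 : (taylor x ((taylor (C y) P).coeff j)).natDegree < m + 1 := by
    rw [natDegree_taylor]
    exact Nat.lt_succ_of_le ((Van_natDegree_coeff P y j).trans hm)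
  rw [h2, eval_eq_sum_range' hd2, Finset.sum_mul]
  rfl

theorem cf_eq_zero_of_dX {P : ℂ[X][Y]} {x y : ℂ} {i j : ℕ} (h : dX P < i) : cf P x y i j = 0 := by
  unfold cf
  apply coeff_eq_zero_of_natDegree_lt
  rw [natDegree_taylor]
  exact lt_of_le_of_lt (Van_natDegree_coeff P y j) h

theorem cf_eq_zero_of_dY {P : ℂ[X][Y]} {x y : ℂ} {i j : ℕ} (h : dY P < j) : cf P x y i j = 0 := by
  unfold cf
  have h1 : (taylor (C y) P).coeff j = 0 := by
    apply coeff_eq_zero_of_natDegree_lt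
    rw [natDegree_taylor]
    exact h
  rw [h1, map_zero, coeff_zero]

theorem cf_zero_zero (P : ℂ[X][Y]) (x y : ℂ) : cf P x y 0 0 = P.evalEval x y := by
  unfold cf evalEval
  rw [taylor_coeff_zero, taylor_coeff_zero]

theorem Van.mono {k l : ℕ} {x y : ℂ} {P : ℂ[X][Y]} (h : Van k x y P) (hl : l ≤ k) :
    Van l x y P := fun i j hij => h i j (lt_of_lt_of_le hij hl)

theorem van_zero (x y : ℂ) (P : ℂ[X][Y]) : Van 0 x y P := fun i j h => absurd h (by omega)

theorem Van.add {k : ℕ} {x y : ℂ} {P Q : ℂ[X][Y]} (hP : Van k x y P) (hQ : Van k x y Q) :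
    Van k x y (P + Q) := by
  intro i j h
  rw [cf_add, hP i j h, hQ i j h, add_zero]

theorem Van.smul {k : ℕ} {x y : ℂ} {P : ℂ[X][Y]} (hP : Van k x y P) (r : ℂ) :
    Van k x y (r • P) := by
  intro i j h
  rw [cf_smul, hP i j h, mul_zero]

theorem Van.mul {k l : ℕ} {x y : ℂ} {P Q : ℂ[X][Y]} (hP : Van k x y P) (hQ : Van l x y Q) :
    Van (k + l) x y (P * Q) := by
  intro i j h
  rw [cf_mul]
  refine Finset.sum_eq_zero fun p hp => Finset.sum_eq_zero fun q hq => ?_
  have h1 := Finset.HasAntidiagonal.mem_antidiagonal.1 hp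
  have h2 := Finset.HasAntidiagonal.mem_antidiagonal.1 hq
  by_cases h3 : p.1 + q.1 < k
  · rw [hP _ _ h3, zero_mul]
  · rw [hQ p.2 q.2 (by omega), mul_zero]

theorem Van.pX {k : ℕ} {x y : ℂ} {P : ℂ[X][Y]} (hP : Van (k + 1) x y P) : Van k x y (pX P) := by
  intro i j h
  unfold cf
  rw [Van_taylor_pX, Van_derivative_taylor, coeff_derivative]
  have h1 : (taylor x ((taylor (C y) P).coeff j)).coeff (i + 1) = 0 := hP (i + 1) j (by omega)
  rw [h1, zero_mul]

theorem Van.pY {k : ℕ} {x y : ℂ} {P : ℂ[X][Y]} (hP : Van (k + 1) x y P) : Van k x y (pY P) := by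
  intro i j h
  change (taylor x ((taylor (C y) (derivative P)).coeff j)).coeff i = 0
  have h2 : ((j : ℂ[X]) + 1) = C ((j : ℂ) + 1) := by
    rw [C_add, C_1]
    rfl
  rw [Van_derivative_taylor', coeff_derivative, h2, taylor_mul, taylor_C, coeff_mul_C]
  have h1 : (taylor x ((taylor (C y) P).coeff (j + 1))).coeff i = 0 := hP i (j + 1) (by omega)
  rw [h1, zero_mul]

private theorem Van_one_var (k : ℕ) : ∀ (R : ℂ[X]),
    (fun t => R.eval t) =O[𝓝[≠] (0 : ℂ)] (fun t => ‖t‖ ^ k) → ∀ i < k, R.coeff i = 0 := by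
  induction k with
  | zero => intro R _ i hi; omega
  | succ k ih =>
    intro R h
    have h0 : R.coeff 0 = 0 := by
      have h1 : Tendsto (fun t : ℂ => R.eval t) (𝓝[≠] 0) (𝓝 (R.eval 0)) :=
        R.continuous.continuousAt.tendsto.mono_left nhdsWithin_le_nhds
      have h2 : Tendsto (fun t : ℂ => ‖t‖ ^ (k + 1)) (𝓝[≠] 0) (𝓝 0) := by
        have h3 : Tendsto (fun t : ℂ => ‖t‖ ^ (k + 1)) (𝓝 0) (𝓝 (‖(0 : ℂ)‖ ^ (k + 1))) :=
          (continuous_norm.pow (k + 1)).continuousAt.tendsto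
        rw [norm_zero, zero_pow (Nat.succ_ne_zero k)] at h3
        exact h3.mono_left nhdsWithin_le_nhds
      have h4 := h.trans_tendsto h2
      rw [coeff_zero_eq_eval_zero]
      exact tendsto_nhds_unique h1 h4
    have hR : R = X * divX R := by
      have := X_mul_divX_add R
      rw [h0, C_0, add_zero] at this
      exact this.symm
    have h5 : (fun t => (divX R).eval t) =O[𝓝[≠] (0 : ℂ)] (fun t => ‖t‖ ^ k) := by
      obtain ⟨c, hc⟩ := h.bound
      refine IsBigO.of_bound c ?_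
      filter_upwards [hc, self_mem_nhdsWithin] with t ht ht0
      have ht1 : 0 < ‖t‖ := norm_pos_iff.2 ht0
      have h6 : R.eval t = t * (divX R).eval t := by
        conv_lhs => rw [hR]
        rw [eval_mul, eval_X]
      rw [h6, norm_mul, norm_pow, norm_norm, pow_succ] at ht
      rw [norm_pow, norm_norm]
      have h7 : ‖t‖ * ‖(divX R).eval t‖ ≤ ‖t‖ * (c * ‖t‖ ^ k) := by
        refine ht.trans (le_of_eq ?_)
        ring
      exact le_of_mul_le_mul_left h7 ht1
    intro i hi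
    rcases i with _ | i
    · exact h0
    · rw [← coeff_divX]
      exact ih _ h5 i (by omega)

theorem van_of_isBigO {k : ℕ} {x y : ℂ} {P : ℂ[X][Y]}
    (h : (fun z : ℂ × ℂ => P.evalEval z.1 z.2) =O[𝓝 (x, y)] fun z => ‖z - (x, y)‖ ^ k) :
    Van k x y P := by
  set m := dX P with hm
  set n := dY P with hn
  -- the restriction to a line
  let R : ℂ → ℂ[X] := fun b => ∑ i ∈ Finset.range (m + 1), ∑ j ∈ Finset.range (n + 1),
    C (cf P x y i j * b ^ j) * X ^ (i + j)
  have hR : ∀ b t : ℂ, (R b).eval t = P.evalEval (x + t) (y + b * t) := by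
    intro b t
    rw [eval_sum_cf P x y _ _ m n le_rfl le_rfl]
    simp only [R, eval_finsetSum, eval_mul, eval_C, eval_pow, eval_X]
    refine Finset.sum_congr rfl fun i _ => Finset.sum_congr rfl fun j _ => ?_
    rw [add_sub_cancel_left, add_sub_cancel_left, mul_pow, pow_add]
    ring
  have hO : ∀ b : ℂ, ∀ l < k, (R b).coeff l = 0 := by
    intro b
    apply Van_one_var k
    have ht : Tendsto (fun t : ℂ => (x + t, y + b * t)) (𝓝[≠] 0) (𝓝 (x, y)) := by
      have h1 : Continuous (fun t : ℂ => (x + t, y + b * t)) := by fun_prop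
      have h2 := h1.tendsto 0
      simp only [add_zero, mul_zero] at h2
      exact h2.mono_left nhdsWithin_le_nhds
    have h3 := h.comp_tendsto ht
    have h4 : (fun t : ℂ => (R b).eval t) = (fun z : ℂ × ℂ => P.evalEval z.1 z.2) ∘
        fun t : ℂ => (x + t, y + b * t) := by
      funext t
      rw [hR]
      rfl
    rw [h4]
    refine h3.trans ?_
    refine IsBigO.of_bound ((1 + ‖b‖) ^ k) (Eventually.of_forall fun t => ?_)
    simp only [Function.comp_apply, norm_pow, norm_norm]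
    rw [← mul_pow]
    refine pow_le_pow_left₀ (norm_nonneg _) ?_ k
    have h5 : ((x + t, y + b * t) : ℂ × ℂ) - (x, y) = (t, b * t) := by
      ext <;> simp
    rw [h5, Prod.norm_def]
    simp only [norm_mul]
    have h6 := norm_nonneg t
    have h7 := norm_nonneg b
    refine max_le ?_ ?_ <;> nlinarith
  intro i j hij
  by_cases hi : m < i
  · exact cf_eq_zero_of_dX hi
  by_cases hj : n < j
  · exact cf_eq_zero_of_dY hj
  -- the form of degree `i + j` in `b`
  let g : ℂ[X] := ∑ i' ∈ Finset.range (m + 1), ∑ j' ∈ Finset.range (n + 1),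
    if i' + j' = i + j then C (cf P x y i' j') * X ^ j' else 0
  have hg : g = 0 := by
    apply Polynomial.funext
    intro b
    have h1 := hO b (i + j) hij
    simp only [R, finsetSum_coeff, coeff_C_mul, coeff_X_pow] at h1
    simp only [g, eval_finsetSum, eval_zero]
    rw [← h1]
    refine Finset.sum_congr rfl fun i' _ => Finset.sum_congr rfl fun j' _ => ?_
    by_cases h2 : i' + j' = i + j
    · rw [if_pos h2, if_pos h2.symm]
      simp
    · rw [if_neg h2, if_neg (fun h3 => h2 h3.symm)]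
      simp
  have h1 := congrArg (fun q => q.coeff j) hg
  simp only [g, finsetSum_coeff, coeff_zero] at h1
  rw [Finset.sum_eq_single i, Finset.sum_eq_single j] at h1
  · rw [if_pos rfl, coeff_C_mul, coeff_X_pow, if_pos rfl, mul_one] at h1
    exact h1
  · intro j' _ hj'
    rw [if_neg (by omega), coeff_zero]
  · intro h2
    exact absurd (Finset.mem_range.2 (by omega)) h2
  · intro i' _ hi'
    refine Finset.sum_eq_zero fun j' _ => ?_
    by_cases h2 : i' + j' = i + j
    · rw [if_pos h2, coeff_C_mul, coeff_X_pow, if_neg (by omega), mul_zero]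
    · rw [if_neg h2, coeff_zero]
  · intro h2
    exact absurd (Finset.mem_range.2 (by omega)) h2

theorem Van.isBigO {k : ℕ} {x y : ℂ} {P : ℂ[X][Y]} (h : Van k x y P) :
    (fun z : ℂ × ℂ => P.evalEval z.1 z.2) =O[𝓝 (x, y)] fun z => ‖z - (x, y)‖ ^ k := by
  have h1 : (fun z : ℂ × ℂ => P.evalEval z.1 z.2) = fun z => ∑ i ∈ Finset.range (dX P + 1),
      ∑ j ∈ Finset.range (dY P + 1), cf P x y i j * (z.1 - x) ^ i * (z.2 - y) ^ j := by
    funext z
    exact eval_sum_cf P x y z.1 z.2 _ _ le_rfl le_rfl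
  rw [h1]
  apply IsBigO.fun_sum
  intro i _
  apply IsBigO.fun_sum
  intro j _
  by_cases hij : i + j < k
  · rw [h i j hij]
    simp only [zero_mul]
    exact isBigO_zero _ _
  · refine IsBigO.of_bound ‖cf P x y i j‖ ?_
    have hb : Metric.ball (x, y) 1 ∈ 𝓝 (x, y) := Metric.ball_mem_nhds _ one_pos
    filter_upwards [hb] with z hz
    rw [mem_ball_iff_norm] at hz
    have e1 : ‖z.1 - x‖ ≤ ‖z - (x, y)‖ := norm_fst_le (z - (x, y) : ℂ × ℂ)
    have e2 : ‖z.2 - y‖ ≤ ‖z - (x, y)‖ := norm_snd_le (z - (x, y) : ℂ × ℂ)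
    rw [norm_mul, norm_mul, norm_pow, norm_pow, norm_pow, norm_norm, mul_assoc]
    refine mul_le_mul_of_nonneg_left ?_ (norm_nonneg _)
    calc ‖z.1 - x‖ ^ i * ‖z.2 - y‖ ^ j ≤ ‖z - (x, y)‖ ^ i * ‖z - (x, y)‖ ^ j :=
          mul_le_mul (pow_le_pow_left₀ (norm_nonneg _) e1 i) (pow_le_pow_left₀ (norm_nonneg _) e2 j)
            (by positivity) (by positivity)
      _ = ‖z - (x, y)‖ ^ (i + j) := (pow_add _ _ _).symm
      _ ≤ ‖z - (x, y)‖ ^ k := pow_le_pow_of_le_one (norm_nonneg _) hz.le (by omega)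

/-- the order of vanishing does not change under a local change of coordinates `(f₁(z₁), f₂(z₂))` -/
theorem van_comp {k : ℕ} {P : ℂ[X][Y]} {f₁ f₂ : ℂ → ℂ} {z : ℂ × ℂ} {d₁ d₂ : ℂ}
    (h₁ : HasStrictDerivAt f₁ d₁ z.1) (h₂ : HasStrictDerivAt f₂ d₂ z.2) (hd₁ : d₁ ≠ 0)
    (hd₂ : d₂ ≠ 0)
    (h : (fun y : ℂ × ℂ => P.evalEval (f₁ y.1) (f₂ y.2)) =O[𝓝 z] fun y => ‖y - z‖ ^ k) :
    Van k (f₁ z.1) (f₂ z.2) P := by
  apply van_of_isBigO
  -- the local inverses
  set g₁ := h₁.localInverse f₁ d₁ z.1 hd₁ with hg₁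
  set g₂ := h₂.localInverse f₂ d₂ z.2 hd₂ with hg₂
  have k₁ : HasStrictDerivAt g₁ d₁⁻¹ (f₁ z.1) := h₁.to_localInverse hd₁
  have k₂ : HasStrictDerivAt g₂ d₂⁻¹ (f₂ z.2) := h₂.to_localInverse hd₂
  have r₁ : ∀ᶠ w in 𝓝 (f₁ z.1), f₁ (g₁ w) = w := HasStrictDerivAt.eventually_right_inverse h₁ hd₁
  have r₂ : ∀ᶠ w in 𝓝 (f₂ z.2), f₂ (g₂ w) = w := HasStrictDerivAt.eventually_right_inverse h₂ hd₂
  have v₁ : g₁ (f₁ z.1) = z.1 := (HasStrictDerivAt.eventually_left_inverse h₁ hd₁).self_of_nhds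
  have v₂ : g₂ (f₂ z.2) = z.2 := (HasStrictDerivAt.eventually_left_inverse h₂ hd₂).self_of_nhds
  have t₁ : Tendsto (fun w : ℂ × ℂ => w.1) (𝓝 (f₁ z.1, f₂ z.2)) (𝓝 (f₁ z.1)) := continuous_fst.tendsto _
  have t₂ : Tendsto (fun w : ℂ × ℂ => w.2) (𝓝 (f₁ z.1, f₂ z.2)) (𝓝 (f₂ z.2)) := continuous_snd.tendsto _
  have hG : Tendsto (fun w : ℂ × ℂ => (g₁ w.1, g₂ w.2)) (𝓝 (f₁ z.1, f₂ z.2)) (𝓝 z) := by
    have s₁ : Tendsto (fun w : ℂ × ℂ => g₁ w.1) (𝓝 (f₁ z.1, f₂ z.2)) (𝓝 z.1) := by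
      have := k₁.hasDerivAt.continuousAt.tendsto
      rw [v₁] at this
      exact this.comp t₁
    have s₂ : Tendsto (fun w : ℂ × ℂ => g₂ w.2) (𝓝 (f₁ z.1, f₂ z.2)) (𝓝 z.2) := by
      have := k₂.hasDerivAt.continuousAt.tendsto
      rw [v₂] at this
      exact this.comp t₂
    have := s₁.prodMk_nhds s₂
    exact this
  have h3 := h.comp_tendsto hG
  have h4 : (fun w : ℂ × ℂ => P.evalEval w.1 w.2) =ᶠ[𝓝 (f₁ z.1, f₂ z.2)]
      ((fun y : ℂ × ℂ => P.evalEval (f₁ y.1) (f₂ y.2)) ∘ fun w : ℂ × ℂ => (g₁ w.1, g₂ w.2)) := by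
    filter_upwards [t₁.eventually r₁, t₂.eventually r₂] with w e₁ e₂
    simp only [Function.comp_apply, e₁, e₂]
  refine (h4.trans_isBigO h3).trans ?_
  -- Lipschitz bound
  have b₁ : (fun w : ℂ × ℂ => g₁ w.1 - z.1) =O[𝓝 (f₁ z.1, f₂ z.2)] fun w => w - (f₁ z.1, f₂ z.2) := by
    have := (k₁.hasDerivAt.isBigO_sub).comp_tendsto t₁
    rw [v₁] at this
    refine this.trans (IsBigO.of_bound 1 (Eventually.of_forall fun w => ?_))
    rw [one_mul]
    exact norm_fst_le (w - (f₁ z.1, f₂ z.2))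
  have b₂ : (fun w : ℂ × ℂ => g₂ w.2 - z.2) =O[𝓝 (f₁ z.1, f₂ z.2)] fun w => w - (f₁ z.1, f₂ z.2) := by
    have := (k₂.hasDerivAt.isBigO_sub).comp_tendsto t₂
    rw [v₂] at this
    refine this.trans (IsBigO.of_bound 1 (Eventually.of_forall fun w => ?_))
    rw [one_mul]
    exact norm_snd_le (w - (f₁ z.1, f₂ z.2))
  have b : (fun w : ℂ × ℂ => ((g₁ w.1, g₂ w.2) : ℂ × ℂ) - z) =O[𝓝 (f₁ z.1, f₂ z.2)]
      fun w => w - (f₁ z.1, f₂ z.2) := b₁.prod_left b₂
  exact b.norm_norm.pow k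

end Pool.Agent.LGO.F
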