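import Mathlib
import Pool.Agent.LGO.F.Van
import Pool.Agent.LGO.F.BzKer

/-!
# LGO/F (note 3060, zero estimate): Bezout's theorem, local part

`jet s p P` = the coefficients `cf P p i j`, `i + j < s`.

PROOFS.  `jet_surj`: the ideals `I_p = (X - p.1, Y - p.2)` are pairwise coprime for different points, so the ideals
`I_p ^ s` are pairwise coprime; elements of `I_p ^ s` vanish to order `s` at `p` (`Van.mul`), the polynomial
`(X - p.1)^i (Y - p.2)^j` has the only nonzero coefficient `1` at `(i, j)`; so the Chinese remainder theorem gives a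
polynomial with given jets.  The target space is finite dimensional: the preimages of the standard basis lie in
`BiD k₀ k₀` for some `k₀`, and `BiD k₀ k₀ ≤ BiD k k`.
`jet_rank`: if `Van m p G` then `jet n p F = 0` implies `jet (m + n) p (G F) = 0` (`Van.mul`), so the map
`F ↦ jet (m + n) p (G F)` factors through the range of `jet n p`, of dimension at most `(tri n).card`.
`card_tri`: `∑_(i<s) (s - i)`.
-/

namespace Pool.Agent.LGO.F

open Polynomial Pool.Agent.LGO.Mul Module
open scoped Polynomial.Bivariate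

/-- the pairs `(i, j)` with `i + j < s` -/
def tri (s : ℕ) : Finset (ℕ × ℕ) :=
  (Finset.range s ×ˢ Finset.range s).filter fun m => m.1 + m.2 < s

private lemma mem_tri {s : ℕ} {m : ℕ × ℕ} : m ∈ tri s ↔ m.1 + m.2 < s := by
  unfold tri
  simp only [Finset.mem_filter, Finset.mem_product, Finset.mem_range]
  omega

theorem card_tri (s : ℕ) : 2 * (tri s).card = s * (s + 1) := by
  have h : tri s = (Finset.range s).biUnion fun k => Finset.HasAntidiagonal.antidiagonal k := by
    ext m
    rw [mem_tri]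
    simp [Finset.mem_biUnion]
  rw [h, Finset.card_biUnion]
  · simp only [Finset.Nat.card_antidiagonal]
    rw [Finset.sum_add_distrib, mul_add, mul_comm 2 (∑ i ∈ Finset.range s, i), Finset.sum_range_id_mul_two]
    simp only [Finset.sum_const, Finset.card_range, smul_eq_mul, mul_one]
    rcases s with _ | s
    · simp
    · simp only [Nat.add_sub_cancel]
      ring
  · intro i _ j _ hij
    exact Finset.disjoint_left.2 fun m h1 h2 =>
      hij ((Finset.HasAntidiagonal.mem_antidiagonal.1 h1).symm.trans (Finset.HasAntidiagonal.mem_antidiagonal.1 h2))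

/-- the jet of order `s` at the point `p` -/
noncomputable def jet (s : ℕ) (p : ℂ × ℂ) : ℂ[X][Y] →ₗ[ℂ] (tri s → ℂ) where
  toFun P m := cf P p.1 p.2 m.1.1 m.1.2
  map_add' P Q := by
    funext m
    exact cf_add P Q p.1 p.2 _ _
  map_smul' r P := by
    funext m
    exact cf_smul r P p.1 p.2 _ _

private lemma jet_apply (s : ℕ) (p : ℂ × ℂ) (P : ℂ[X][Y]) (m : tri s) :
    jet s p P m = cf P p.1 p.2 m.1.1 m.1.2 := rfl

private lemma jet_eq_zero {s : ℕ} {p : ℂ × ℂ} {P : ℂ[X][Y]} : jet s p P = 0 ↔ Van s p.1 p.2 P := by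
  constructor
  · intro h i j hij
    exact congrFun h ⟨(i, j), mem_tri.2 hij⟩
  · intro h
    funext m
    exact h _ _ (mem_tri.1 m.2)

/-- the ideal of the point `p` -/
private noncomputable def idl (p : ℂ × ℂ) : Ideal ℂ[X][Y] :=
  Ideal.span {C (X - C p.1), X - C (C p.2)}

/-- the ideal of the polynomials which vanish to order `s` -/
private noncomputable def vid (s : ℕ) (p : ℂ × ℂ) : Ideal ℂ[X][Y] where
  carrier := {P | Van s p.1 p.2 P}
  add_mem' := fun h1 h2 => Van.add h1 h2
  zero_mem' := jet_eq_zero.1 (map_zero _)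
  smul_mem' := fun c P h => by
    have h1 := (van_zero p.1 p.2 c).mul h
    rw [Nat.zero_add] at h1
    exact h1

private lemma mem_vid {s : ℕ} {p : ℂ × ℂ} {P : ℂ[X][Y]} : P ∈ vid s p ↔ Van s p.1 p.2 P := Iff.rfl

private lemma idl_le (s : ℕ) (p : ℂ × ℂ) : idl p ^ s ≤ vid s p := by
  induction s with
  | zero =>
    intro P _
    exact van_zero _ _ _
  | succ s ih =>
    have h0 : idl p ^ (s + 1) = idl p * idl p ^ s := Ideal.IsTwoSided.pow_succ _
    rw [h0, Ideal.mul_le]
    intro b hb a ha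
    have h1 : b ∈ vid 1 p := by
      refine (Ideal.span_le.2 ?_) hb
      intro c hc
      have h2 : c.evalEval p.1 p.2 = 0 := by
        rcases hc with hc | hc
        · rw [hc, evalEval_C]
          simp
        · rw [Set.mem_singleton_iff.1 hc]
          simp
      intro i j hij
      obtain ⟨rfl, rfl⟩ : i = 0 ∧ j = 0 := by omega
      rw [cf_zero_zero, h2]
    rw [mul_comm]
    exact Van.mul (ih ha) h1

private lemma idl_coprime {p q : ℂ × ℂ} (h : p ≠ q) : IsCoprime (idl p) (idl q) := by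
  rw [Ideal.isCoprime_iff_exists]
  by_cases h1 : p.1 = q.1
  · have h2 : p.2 - q.2 ≠ 0 := fun h3 => h (Prod.ext h1 (sub_eq_zero.1 h3))
    refine ⟨C (C (-(p.2 - q.2)⁻¹)) * (X - C (C p.2)), Ideal.mul_mem_left _ _ (Ideal.subset_span (by simp)),
      C (C ((p.2 - q.2)⁻¹)) * (X - C (C q.2)), Ideal.mul_mem_left _ _ (Ideal.subset_span (by simp)), ?_⟩
    have h3 : (C (C (-(p.2 - q.2)⁻¹)) * (X - C (C p.2)) + C (C ((p.2 - q.2)⁻¹)) * (X - C (C q.2)) : ℂ[X][Y]) =
        C (C ((p.2 - q.2)⁻¹ * (p.2 - q.2))) := by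
      simp only [map_neg, map_mul, map_sub]
      ring
    rw [h3, inv_mul_cancel₀ h2]
    simp
  · have h2 : p.1 - q.1 ≠ 0 := sub_ne_zero.2 h1
    refine ⟨C (C (-(p.1 - q.1)⁻¹)) * C (X - C p.1), Ideal.mul_mem_left _ _ (Ideal.subset_span (by simp)),
      C (C ((p.1 - q.1)⁻¹)) * C (X - C q.1), Ideal.mul_mem_left _ _ (Ideal.subset_span (by simp)), ?_⟩
    have h3 : (C (C (-(p.1 - q.1)⁻¹)) * C (X - C p.1) + C (C ((p.1 - q.1)⁻¹)) * C (X - C q.1) : ℂ[X][Y]) =
        C (C ((p.1 - q.1)⁻¹ * (p.1 - q.1))) := by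
      simp only [map_neg, map_mul, map_sub]
      ring
    rw [h3, inv_mul_cancel₀ h2]
    simp

private lemma cf_mono (p : ℂ × ℂ) (i j i' j' : ℕ) :
    cf (C ((X - C p.1) ^ i) * (X - C (C p.2)) ^ j : ℂ[X][Y]) p.1 p.2 i' j' = if i' = i ∧ j' = j then 1 else 0 := by
  unfold cf
  have h1 : taylor (C p.2) (C ((X - C p.1) ^ i) * (X - C (C p.2)) ^ j : ℂ[X][Y]) =
      C ((X - C p.1) ^ i) * X ^ j := by
    rw [taylor_mul, taylor_C, taylor_pow, map_sub, taylor_X, taylor_C, add_sub_cancel_right]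
  rw [h1, coeff_C_mul_X_pow]
  by_cases h2 : j' = j
  · rw [if_pos h2, taylor_pow, map_sub, taylor_X, taylor_C, add_sub_cancel_right, coeff_X_pow]
    by_cases h3 : i' = i <;> simp [h2, h3]
  · rw [if_neg h2, map_zero, coeff_zero]
    simp [h2]

private lemma exists_delta (Z : Finset (ℂ × ℂ)) (s : ℕ) (p : Z) (m : tri s) :
    ∃ P : ℂ[X][Y], ∀ (q : Z) (l : tri s), jet s q.1 P l = if q = p ∧ l = m then 1 else 0 := by
  classical
  have hI : Pairwise (Function.onFun IsCoprime fun q : Z => idl q.1 ^ s) := by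
    intro q r hqr
    exact IsCoprime.pow (idl_coprime fun h => hqr (Subtype.ext h))
  obtain ⟨P, hP⟩ := Ideal.exists_forall_sub_mem_ideal hI fun q : Z =>
    if q = p then (C ((X - C p.1.1) ^ m.1.1) * (X - C (C p.1.2)) ^ m.1.2 : ℂ[X][Y]) else 0
  refine ⟨P, fun q l => ?_⟩
  have h1 := mem_vid.1 (idl_le s q.1 (hP q))
  have h2 : jet s q.1 P = jet s q.1 (if q = p then
      (C ((X - C p.1.1) ^ m.1.1) * (X - C (C p.1.2)) ^ m.1.2 : ℂ[X][Y]) else 0) := by
    rw [← sub_eq_zero, ← map_sub]
    exact jet_eq_zero.2 h1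
  rw [h2]
  by_cases h3 : q = p
  · subst h3
    rw [if_pos rfl, jet_apply, cf_mono]
    have h4 : (l.1.1 = m.1.1 ∧ l.1.2 = m.1.2) ↔ (q = q ∧ l = m) := by
      constructor
      · rintro ⟨h5, h6⟩
        exact ⟨rfl, Subtype.ext (Prod.ext h5 h6)⟩
      · rintro ⟨-, rfl⟩
        exact ⟨rfl, rfl⟩
    simp only [h4]
  · rw [if_neg h3, map_zero, if_neg fun h => h3 h.1]
    rfl

theorem jet_surj (Z : Finset (ℂ × ℂ)) (s : ℕ) : ∃ k₀ : ℕ, ∀ k, k₀ ≤ k →
    ∀ y : Z → tri s → ℂ, ∃ P ∈ BiD k k, ∀ p : Z, jet s p.1 P = y p := by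
  classical
  choose D hD using exists_delta Z s
  refine ⟨∑ p : Z, ∑ m : tri s, (dX (D p m) + dY (D p m)), fun k hk y =>
    ⟨∑ p : Z, ∑ m : tri s, y p m • D p m, ?_, ?_⟩⟩
  · refine Submodule.sum_mem _ fun p _ => Submodule.sum_mem _ fun m _ => Submodule.smul_mem _ _ (mem_BiD.2 ?_)
    have h1 : dX (D p m) + dY (D p m) ≤ k := by
      refine le_trans ?_ hk
      refine le_trans ?_ (Finset.single_le_sum (f := fun p : Z => ∑ m : tri s, (dX (D p m) + dY (D p m)))
        (fun _ _ => Nat.zero_le _) (Finset.mem_univ p))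
      exact Finset.single_le_sum (f := fun m : tri s => dX (D p m) + dY (D p m))
        (fun _ _ => Nat.zero_le _) (Finset.mem_univ m)
    omega
  · intro q
    funext l
    simp only [map_sum, map_smul, Finset.sum_apply, Pi.smul_apply, hD, smul_eq_mul]
    rw [Finset.sum_eq_single q, Finset.sum_eq_single l]
    · simp
    · intro m _ hm
      rw [if_neg fun h => hm h.2.symm, mul_zero]
    · intro h
      exact absurd (Finset.mem_univ _) h
    · intro p _ hp
      refine Finset.sum_eq_zero fun m _ => ?_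
      rw [if_neg fun h => hp h.1.symm, mul_zero]
    · intro h
      exact absurd (Finset.mem_univ _) h

theorem jet_rank {G : ℂ[X][Y]} {m : ℕ} (n : ℕ) {p : ℂ × ℂ} (h : Van m p.1 p.2 G) :
    finrank ℂ (LinearMap.range ((jet (m + n) p).comp (LinearMap.mulLeft ℂ G))) ≤
      (tri n).card := by
  obtain ⟨g, hg⟩ := LinearMap.exists_rightInverse_of_surjective (jet n p).rangeRestrict
    (LinearMap.range_rangeRestrict _)
  have h1 : ((jet (m + n) p).comp (LinearMap.mulLeft ℂ G)) =
      (((jet (m + n) p).comp (LinearMap.mulLeft ℂ G)).comp g).comp (jet n p).rangeRestrict := by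
    refine LinearMap.ext fun F => ?_
    have h2 : (jet n p).rangeRestrict (g ((jet n p).rangeRestrict F)) = (jet n p).rangeRestrict F :=
      LinearMap.congr_fun hg _
    have h3 : jet n p (F - g ((jet n p).rangeRestrict F)) = 0 := by
      rw [map_sub, sub_eq_zero]
      exact (congrArg Subtype.val h2).symm
    have h4 : jet (m + n) p (G * (F - g ((jet n p).rangeRestrict F))) = 0 :=
      jet_eq_zero.2 (h.mul (jet_eq_zero.1 h3))
    rw [mul_sub, map_sub, sub_eq_zero] at h4
    simpa using h4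
  rw [h1]
  calc finrank ℂ (LinearMap.range ((((jet (m + n) p).comp (LinearMap.mulLeft ℂ G)).comp g).comp
        (jet n p).rangeRestrict)) ≤
      finrank ℂ (LinearMap.range (((jet (m + n) p).comp (LinearMap.mulLeft ℂ G)).comp g)) :=
        Submodule.finrank_mono (LinearMap.range_comp_le_range _ _)
    _ ≤ finrank ℂ (LinearMap.range (jet n p)) := LinearMap.finrank_range_le _
    _ ≤ finrank ℂ (tri n → ℂ) := Submodule.finrank_le _
    _ = (tri n).card := by
        rw [Module.finrank_fintype_fun_eq_card, Fintype.card_coe]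

end Pool.Agent.LGO.F
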