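import Mathlib
import Pool.Agent.LGO.F.BzLoc

/-!
# LGO/F (note 3060, zero estimate): Bezout's theorem with multiplicities on `ℙ¹ × ℙ¹`

PROOF of `bezout`.  `s = m + n`, `k` large (`jet_surj`, and `≥` the sums of the degrees).  `V = BiD k k`, `W = WW G₁ G₂ k`,
`Φ : V → (Z → tri s → ℂ)`, `Φ P p = jet s p P`, surjective.  `Φ(W) ⊆ ∏_p (R₁ p ⊔ R₂ p)`, `R_i p` the range of
`jet s p ∘ mulLeft G_i`; `jet_rank`: `finrank (R₁ p) ≤ (tri n).card`, `finrank (R₂ p) ≤ (tri m).card` (`n + m = m + n`).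
So `finrank Φ(W) ≤ |Z| ((tri n).card + (tri m).card)`, and
`finrank V - finrank W ≥ finrank (target) - finrank Φ(W)` (rank-nullity for `Φ` and for `Φ` restricted to `W`:
`ker (Φ|W) ≤ ker Φ`), i.e. `(k+1)² - finrank W ≥ |Z| ((tri (m+n)).card - (tri n).card - (tri m).card) = |Z| m n`
(`card_tri`).  `finrank_WW`, `finrank_BiD`.
(Pi types: `Submodule.pi`, or count with a finite sum of submodules; `Module.finrank_pi_fintype`.)
-/

namespace Pool.Agent.LGO.F

open Polynomial Pool.Agent.LGO.Mul Module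
open scoped Polynomial.Bivariate

/-- rank and nullity of the restriction to a subspace -/
theorem Bz_rank {E F : Type*} [AddCommGroup E] [Module ℂ E] [AddCommGroup F] [Module ℂ F]
    (Φ : E →ₗ[ℂ] F) (V : Submodule ℂ E) [FiniteDimensional ℂ V] :
    finrank ℂ (V.map Φ) + finrank ℂ (V ⊓ LinearMap.ker Φ : Submodule ℂ E) = finrank ℂ V := by
  have h1 := LinearMap.finrank_range_add_finrank_ker (Φ.domRestrict V)
  rw [LinearMap.range_domRestrict, LinearMap.ker_domRestrict] at h1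
  rw [← h1, ← Submodule.map_comap_subtype, Submodule.finrank_map_subtype_eq]

theorem bezout {G₁ G₂ : ℂ[X][Y]} (h₁ : G₁ ≠ 0) (h₂ : G₂ ≠ 0) (hc : IsRelPrime G₁ G₂) (m n : ℕ)
    (Z : Finset (ℂ × ℂ)) (v₁ : ∀ p ∈ Z, Van m p.1 p.2 G₁) (v₂ : ∀ p ∈ Z, Van n p.1 p.2 G₂) :
    Z.card * (m * n) ≤ dX G₁ * dY G₂ + dY G₁ * dX G₂ := by
  obtain ⟨k₀, hk₀⟩ := jet_surj Z (m + n)
  set k : ℕ := max k₀ (dX G₁ + dX G₂ + (dY G₁ + dY G₂)) with hk
  have hkx : dX G₁ + dX G₂ ≤ k := by omega
  have hky : dY G₁ + dY G₂ ≤ k := by omega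
  have hsurj := hk₀ k (le_max_left _ _)
  set Φ : ℂ[X][Y] →ₗ[ℂ] (Z → tri (m + n) → ℂ) :=
    LinearMap.pi fun p : Z => jet (m + n) (p : ℂ × ℂ) with hΦ
  set W := WW G₁ G₂ k with hW
  have hfV : FiniteDimensional ℂ (BiD k k) := finite_BiD k k
  have hWV : W ≤ BiD k k := WW_le G₁ G₂ k h₁ h₂ hkx hky
  have hfW : FiniteDimensional ℂ W := Submodule.finiteDimensional_of_le hWV
  have r1 := Bz_rank Φ (BiD k k)
  have r2 := Bz_rank Φ W
  have hinf : W ⊓ LinearMap.ker Φ ≤ BiD k k ⊓ LinearMap.ker Φ := inf_le_inf_right _ hWV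
  have hfI : FiniteDimensional ℂ (BiD k k ⊓ LinearMap.ker Φ : Submodule ℂ ℂ[X][Y]) :=
    Submodule.finiteDimensional_of_le inf_le_left
  have r3 := Submodule.finrank_mono hinf
  -- the image of `V`
  have hV : (BiD k k).map Φ = ⊤ := by
    rw [eq_top_iff]
    rintro y -
    obtain ⟨P, hP, hPy⟩ := hsurj y
    refine ⟨P, hP, ?_⟩
    funext p
    exact hPy p
  have r4 : finrank ℂ ((BiD k k).map Φ) = Z.card * (tri (m + n)).card := by
    rw [hV, finrank_top, Module.finrank_pi_fintype]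
    simp
  -- the image of `W`
  let R₁ : Z → Submodule ℂ (tri (m + n) → ℂ) := fun p =>
    LinearMap.range ((jet (m + n) (p : ℂ × ℂ)).comp (LinearMap.mulLeft ℂ G₁))
  let R₂ : Z → Submodule ℂ (tri (m + n) → ℂ) := fun p =>
    LinearMap.range ((jet (m + n) (p : ℂ × ℂ)).comp (LinearMap.mulLeft ℂ G₂))
  have hR₁ : ∀ p, finrank ℂ (R₁ p) ≤ (tri n).card := fun p => jet_rank n (v₁ p p.2)
  have hR₂ : ∀ p, finrank ℂ (R₂ p) ≤ (tri m).card := by
    intro p
    have h := jet_rank m (v₂ p p.2)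
    rw [add_comm n m] at h
    exact h
  have hWR : W.map Φ ≤ Submodule.pi Set.univ fun p => R₁ p ⊔ R₂ p := by
    rw [hW, WW, Submodule.map_sup, sup_le_iff]
    constructor
    · rintro _ ⟨_, ⟨A, -, rfl⟩, rfl⟩
      rw [Submodule.mem_pi]
      intro p _
      exact Submodule.mem_sup_left ⟨A, rfl⟩
    · rintro _ ⟨_, ⟨A, -, rfl⟩, rfl⟩
      rw [Submodule.mem_pi]
      intro p _
      exact Submodule.mem_sup_right ⟨A, rfl⟩
  have r5 : finrank ℂ (W.map Φ) ≤ Z.card * ((tri n).card + (tri m).card) := by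
    refine (Submodule.finrank_mono hWR).trans ?_
    have e : finrank ℂ (Submodule.pi Set.univ fun p => R₁ p ⊔ R₂ p) =
        ∑ p : Z, finrank ℂ (R₁ p ⊔ R₂ p : Submodule ℂ (tri (m + n) → ℂ)) := by
      rw [← Module.finrank_pi_fintype]
      exact LinearEquiv.finrank_eq
        { toFun := fun x p => ⟨x.1 p, (Submodule.mem_pi.1 x.2) p (Set.mem_univ p)⟩
          map_add' := fun x y => rfl
          map_smul' := fun r x => rfl
          invFun := fun y => ⟨fun p => (y p).1, Submodule.mem_pi.2 fun p _ => (y p).2⟩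
          left_inv := fun x => rfl
          right_inv := fun y => rfl }
    rw [e]
    calc ∑ p : Z, finrank ℂ (R₁ p ⊔ R₂ p : Submodule ℂ (tri (m + n) → ℂ))
        ≤ ∑ _p : Z, ((tri n).card + (tri m).card) :=
          Finset.sum_le_sum fun p _ => (Submodule.finrank_add_le_finrank_add_finrank _ _).trans
            (add_le_add (hR₁ p) (hR₂ p))
      _ = Z.card * ((tri n).card + (tri m).card) := by simp
  have r6 := finrank_WW G₁ G₂ k h₁ h₂ hc hkx hky
  rw [← hW] at r6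
  have r7 : finrank ℂ (BiD k k) = (k + 1) ^ 2 := by
    rw [finrank_BiD]
    ring
  have ht : (tri (m + n)).card = (tri m).card + (tri n).card + m * n := by
    have e1 := card_tri (m + n)
    have e2 := card_tri m
    have e3 := card_tri n
    nlinarith
  rw [r4, ht] at r1
  rw [r7] at r1
  have e4 : Z.card * ((tri m).card + (tri n).card + m * n) =
      Z.card * ((tri n).card + (tri m).card) + Z.card * (m * n) := by ring
  rw [e4] at r1
  omega

end Pool.Agent.LGO.F
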