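import Mathlib
import Pool.Agent.LGO.F.Bz

/-!
# LGO/F (note 3060, zero estimate): case A

If no irreducible polynomial divides `G` more than `e` times and `G` vanishes to order `≥ T ≥ e` at the points of `Z`, then
`|Z| T (T - e) ≤ 2 dX(G) dY(G)`.

PROOF.  `D_ij = pX^i pY^j` (`i + j ≤ e`); `dX (D_ij G) ≤ dX G`, `dY (D_ij G) ≤ dY G`, `Van (T - i - j)` (`Van.pX`, `Van.pY`).
(1) `der_factor`: for every irreducible `g ∣ G` there are `i + j ≤ e` with `¬ g ∣ D_ij G`: let `G = g^k H`, `g ∤ H`, `1 ≤ k ≤ e`.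
If `0 < dX g` then `g ∤ pX g` (`not_dvd_pX`) and `pX^k (g^k H) ≡ k! (pX g)^k H mod g` (induction on `k`: `pX` is a derivation:
`pX (P Q) = pX P Q + P pX Q`); if `dX g = 0` then `0 < dY g` (`g` is not constant), the same with `pY = derivative`.
(2) `exists_comb`: `U` = span of the `D_ij G` (finite dimensional); for the finitely many irreducible factors `g` of `G` (up to units,
`UniqueFactorizationMonoid.normalizedFactors`) the subspace `{F ∈ U | g ∣ F}` is proper; a vector space over an infinite field is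
not a finite union of proper subspaces (`Subspace.biUnion_ne_univ_of_top_notMem`).  So there is `F ∈ U` with `g ∤ F` for all of
them; `IsRelPrime G F`; `F ≠ 0` (if `G` is not a unit; if `G` is a unit, i.e. a nonzero constant, then `T = 0` or `Z = ∅`, or take
`F = G`).
(3) `bezout` for `G` (order `T`) and `F` (order `T - e`), `dX F ≤ dX G`, `dY F ≤ dY G`.
-/

namespace Pool.Agent.LGO.F

open Polynomial Pool.Agent.LGO.Mul Module
open scoped Polynomial.Bivariate

private lemma Der_pow {R : Type*} [CommRing R] (δ : R → R)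
    (hm : ∀ P Q, δ (P * Q) = δ P * Q + P * δ Q) (g : R) (n : ℕ) :
    δ (g ^ (n + 1)) = (n + 1 : ℕ) * g ^ n * δ g := by
  induction n with
  | zero => simp
  | succ n ih =>
    rw [pow_succ g (n + 1), hm, ih]
    push_cast
    ring

private lemma Der_key {δ : ℂ[X][Y] → ℂ[X][Y]}
    (hm : ∀ P Q, δ (P * Q) = δ P * Q + P * δ Q) {g : ℂ[X][Y]} (hg : Prime g) (hd : ¬ g ∣ δ g) :
    ∀ (e : ℕ) (G : ℂ[X][Y]), (∀ i ≤ e, g ∣ δ^[i] G) → g ^ (e + 1) ∣ G := by
  intro e
  induction e with
  | zero =>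
    intro G h
    have := h 0 le_rfl
    rwa [zero_add, pow_one]
  | succ e ih =>
    intro G h
    have h1 : g ^ (e + 1) ∣ G := ih G (fun i hi => h i (by omega))
    have h2 : g ^ (e + 1) ∣ δ G := ih (δ G) (fun i hi => by
      have := h (i + 1) (by omega)
      rwa [Function.iterate_succ_apply] at this)
    obtain ⟨H, rfl⟩ := h1
    rw [hm, Der_pow δ hm] at h2
    have h3 : g ^ (e + 1) ∣ ((e + 1 : ℕ) : ℂ[X][Y]) * g ^ e * δ g * H :=
      (dvd_add_left (Dvd.intro _ rfl)).1 h2
    have h4 : g ^ e * g ∣ g ^ e * (((e + 1 : ℕ) : ℂ[X][Y]) * δ g * H) := by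
      rw [← pow_succ]
      convert h3 using 1
      ring
    have h5 : g ∣ ((e + 1 : ℕ) : ℂ[X][Y]) * δ g * H :=
      (mul_dvd_mul_iff_left (pow_ne_zero _ hg.ne_zero)).1 h4
    have h6 : ¬ g ∣ ((e + 1 : ℕ) : ℂ[X][Y]) := by
      intro h
      have hu : IsUnit ((e + 1 : ℕ) : ℂ[X][Y]) := by
        have : ((e + 1 : ℕ) : ℂ[X][Y]) = C (C ((e + 1 : ℕ) : ℂ)) := by
          simp only [map_natCast]
        rw [this]
        exact ((IsUnit.mk0 _ (by exact_mod_cast Nat.succ_ne_zero e)).map C).map C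
      exact hg.not_isUnit (isUnit_of_dvd_unit h hu)
    have h7 : g ∣ H := by
      rcases hg.dvd_or_dvd h5 with h | h
      · rcases hg.dvd_or_dvd h with h | h
        · exact absurd h h6
        · exact absurd h hd
      · exact h
    rw [pow_succ g (e + 1)]
    exact mul_dvd_mul_left _ h7

private lemma Der_pX_mul (P Q : ℂ[X][Y]) : pX (P * Q) = pX P * Q + P * pX Q := by
  unfold pX
  rw [map_mul, derivative_mul, map_add, map_mul, map_mul, Bivariate.swap_swap_apply,
    Bivariate.swap_swap_apply]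

private lemma Der_pY_mul (P Q : ℂ[X][Y]) : pY (P * Q) = pY P * Q + P * pY Q := by
  unfold pY
  rw [derivative_mul]

private lemma Der_not_dvd_pY {P : ℂ[X][Y]} (h : 0 < dY P) : ¬ P ∣ pY P := by
  rintro ⟨R, hR⟩
  have h1 : pY P ≠ 0 := by
    unfold pY
    intro h0
    have := derivative_eq_zero.1 h0
    unfold dY at h
    omega
  have h2 : dY (pY P) < dY P := by
    unfold dY pY
    unfold dY at h
    exact natDegree_derivative_lt h.ne'
  rw [hR] at h1 h2
  rw [dY_mul (left_ne_zero_of_mul h1) (right_ne_zero_of_mul h1)] at h2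
  omega

private lemma Der_pos {g : ℂ[X][Y]} (hg : Irreducible g) : 0 < dX g ∨ 0 < dY g := by
  by_contra hcon
  push Not at hcon
  obtain ⟨h1, h2⟩ := hcon
  obtain ⟨p, hp⟩ := eq_map_of_dX_eq_zero (Nat.le_zero.1 h1)
  have h3 : p.natDegree = 0 := by
    have : (p.map C : ℂ[X][Y]).natDegree = p.natDegree := natDegree_map_eq_of_injective C_injective p
    rw [← this, ← hp]
    exact Nat.le_zero.1 h2
  rw [eq_C_of_natDegree_eq_zero h3, map_C] at hp
  by_cases h4 : p.coeff 0 = 0
  · rw [h4, C_0, C_0] at hp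
    exact hg.ne_zero hp
  · apply hg.not_isUnit
    rw [hp]
    exact ((IsUnit.mk0 _ h4).map C).map C

/-- the family of the derivatives -/
private noncomputable def Der_D (e : ℕ) (G : ℂ[X][Y]) (t : Bool × Fin (e + 1)) : ℂ[X][Y] :=
  if t.1 then pX^[t.2] G else pY^[t.2] G

private lemma Der_factor {G : ℂ[X][Y]} (e : ℕ) {g : ℂ[X][Y]} (hg : Irreducible g)
    (he : ¬ g ^ (e + 1) ∣ G) : ∃ t, ¬ g ∣ Der_D e G t := by
  by_contra hcon
  push Not at hcon
  apply he
  rcases Der_pos hg with h | h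
  · refine Der_key Der_pX_mul hg.prime (not_dvd_pX h) e G fun i hi => ?_
    have := hcon (true, ⟨i, by omega⟩)
    simpa [Der_D] using this
  · refine Der_key Der_pY_mul hg.prime (Der_not_dvd_pY h) e G fun i hi => ?_
    have := hcon (false, ⟨i, by omega⟩)
    simpa [Der_D] using this

private lemma Der_dX_pX (P : ℂ[X][Y]) : dX (pX P) ≤ dX P := by
  unfold dX pX
  rw [Bivariate.swap_swap_apply]
  exact (natDegree_derivative_le _).trans (Nat.sub_le _ _)

private lemma Der_dY_pY (P : ℂ[X][Y]) : dY (pY P) ≤ dY P := by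
  unfold dY pY
  exact (natDegree_derivative_le _).trans (Nat.sub_le _ _)

private lemma Der_dX_pY (P : ℂ[X][Y]) : dX (pY P) ≤ dX P := by
  apply dX_le_of_coeff
  intro k
  unfold pY
  rw [coeff_derivative]
  have h : ((k : ℂ[X]) + 1) = C ((k : ℂ) + 1) := by
    rw [C_add, C_1]
    rfl
  rw [h]
  exact (natDegree_mul_C_le _ _).trans (natDegree_coeff_le P (k + 1))

private lemma Der_dY_pX (P : ℂ[X][Y]) : dY (pX P) ≤ dY P := by
  unfold dY
  rw [natDegree_le_iff_coeff_eq_zero]
  intro k hk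
  ext j
  unfold pX
  rw [coeff_coeff_swap, coeff_derivative]
  have h0 : ((Bivariate.swap P).coeff (j + 1)).coeff k = 0 := by
    rw [coeff_coeff_swap, coeff_eq_zero_of_natDegree_lt hk, coeff_zero]
  have h : ((j : ℂ[X]) + 1) = C ((j : ℂ) + 1) := by
    rw [C_add, C_1]
    rfl
  rw [h, coeff_mul_C, h0, zero_mul, coeff_zero]

private lemma Der_iter {f : ℂ[X][Y] → ℕ} {δ : ℂ[X][Y] → ℂ[X][Y]} (h : ∀ P, f (δ P) ≤ f P) (n : ℕ)
    (P : ℂ[X][Y]) : f (δ^[n] P) ≤ f P := by
  induction n with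
  | zero => rfl
  | succ n ih =>
    rw [Function.iterate_succ_apply']
    exact (h _).trans ih

private lemma Der_DX (e : ℕ) (G : ℂ[X][Y]) (t : Bool × Fin (e + 1)) : dX (Der_D e G t) ≤ dX G := by
  unfold Der_D
  split_ifs
  · exact Der_iter Der_dX_pX _ _
  · exact Der_iter Der_dX_pY _ _

private lemma Der_DY (e : ℕ) (G : ℂ[X][Y]) (t : Bool × Fin (e + 1)) : dY (Der_D e G t) ≤ dY G := by
  unfold Der_D
  split_ifs
  · exact Der_iter Der_dY_pX _ _
  · exact Der_iter Der_dY_pY _ _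

private lemma Der_van_iter {δ : ℂ[X][Y] → ℂ[X][Y]} {x y : ℂ}
    (h : ∀ (k : ℕ) (P : ℂ[X][Y]), Van (k + 1) x y P → Van k x y (δ P)) (n T : ℕ) (G : ℂ[X][Y])
    (hG : Van T x y G) : Van (T - n) x y (δ^[n] G) := by
  induction n with
  | zero => exact hG
  | succ n ih =>
    rw [Function.iterate_succ_apply']
    rcases Nat.eq_zero_or_pos (T - n) with h0 | h0
    · have : T - (n + 1) = 0 := by omega
      rw [this]
      exact van_zero _ _ _
    · apply h
      have : T - (n + 1) + 1 = T - n := by omega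
      rw [this]
      exact ih

private lemma Der_DVan (e : ℕ) (G : ℂ[X][Y]) (t : Bool × Fin (e + 1)) (T : ℕ) (x y : ℂ)
    (h : Van T x y G) : Van (T - e) x y (Der_D e G t) := by
  have ht := t.2.2
  unfold Der_D
  split_ifs
  · exact (Der_van_iter (fun _ _ h => h.pX) _ _ _ h).mono (by omega)
  · exact (Der_van_iter (fun _ _ h => h.pY) _ _ _ h).mono (by omega)

theorem exists_comb {G : ℂ[X][Y]} (h0 : G ≠ 0) (e : ℕ)
    (he : ∀ g : ℂ[X][Y], Irreducible g → ¬ g ^ (e + 1) ∣ G) :
    ∃ F : ℂ[X][Y], F ≠ 0 ∧ IsRelPrime G F ∧ dX F ≤ dX G ∧ dY F ≤ dY G ∧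
      ∀ (T : ℕ) (x y : ℂ), Van T x y G → Van (T - e) x y F := by
  classical
  let L : (Bool × Fin (e + 1) → ℂ) →ₗ[ℂ] ℂ[X][Y] := Fintype.linearCombination ℂ (Der_D e G)
  have hL : ∀ c, L c = ∑ t, c t • Der_D e G t := fun c => Fintype.linearCombination_apply _ _ _
  let I : ℂ[X][Y] → Submodule ℂ (Bool × Fin (e + 1) → ℂ) := fun g =>
    Submodule.comap L ((Ideal.span {g}).restrictScalars ℂ)
  have hI : ∀ g c, c ∈ I g ↔ g ∣ L c := by
    intro g c
    rw [Submodule.mem_comap, Submodule.restrictScalars_mem, Ideal.mem_span_singleton]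
  let s : Finset (Submodule ℂ (Bool × Fin (e + 1) → ℂ)) :=
    insert (LinearMap.ker L) ((UniqueFactorizationMonoid.factors G).toFinset.image I)
  have hsing : ∀ t, L (Pi.single t 1) = Der_D e G t := by
    intro t
    rw [hL, Finset.sum_eq_single t]
    · rw [Pi.single_eq_same, one_smul]
    · intro b _ hb
      rw [Pi.single_eq_of_ne hb, zero_smul]
    · intro h
      exact absurd (Finset.mem_univ t) h
  have htop : ⊤ ∉ s := by
    intro h
    rcases Finset.mem_insert.1 h with h | h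
    · have h1 : Pi.single (true, 0) 1 ∈ LinearMap.ker L := by
        rw [← h]
        exact Submodule.mem_top
      rw [LinearMap.mem_ker, hsing] at h1
      exact h0 (by simpa [Der_D] using h1)
    · obtain ⟨g, hg, hgI⟩ := Finset.mem_image.1 h
      have hgi := UniqueFactorizationMonoid.irreducible_of_factor g (Multiset.mem_toFinset.1 hg)
      obtain ⟨t, ht⟩ := Der_factor e hgi (he g hgi)
      apply ht
      rw [← hsing t, ← hI, hgI]
      exact Submodule.mem_top
  have hne := Subspace.biUnion_ne_univ_of_top_notMem htop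
  obtain ⟨c, hc⟩ := (Set.ne_univ_iff_exists_notMem _).1 hne
  have hc' : ∀ p ∈ s, c ∉ p := by
    intro p hp hcp
    exact hc (Set.mem_biUnion hp hcp)
  have hker : L c ≠ 0 := by
    have := hc' _ (Finset.mem_insert_self _ _)
    rwa [LinearMap.mem_ker] at this
  have hfac : ∀ g ∈ UniqueFactorizationMonoid.factors G, ¬ g ∣ L c := by
    intro g hg
    rw [← hI]
    exact hc' _ (Finset.mem_insert_of_mem (Finset.mem_image_of_mem _ (Multiset.mem_toFinset.2 hg)))
  refine ⟨L c, hker, ?_, ?_, ?_, ?_⟩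
  · intro d hdG hdF
    by_contra hu
    have hd0 : d ≠ 0 := ne_zero_of_dvd_ne_zero h0 hdG
    obtain ⟨g, hg, hgd⟩ := WfDvdMonoid.exists_irreducible_factor hu hd0
    obtain ⟨g', hg', hass⟩ := UniqueFactorizationMonoid.exists_mem_factors_of_dvd h0 hg (hgd.trans hdG)
    exact hfac g' hg' (hass.symm.dvd.trans (hgd.trans hdF))
  · rw [hL]
    unfold dX
    rw [map_sum]
    refine natDegree_sum_le_of_forall_le _ _ fun t _ => ?_
    rw [map_smul]
    exact (natDegree_smul_le _ _).trans (Der_DX e G t)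
  · rw [hL]
    unfold dY
    refine natDegree_sum_le_of_forall_le _ _ fun t _ => ?_
    exact (natDegree_smul_le _ _).trans (Der_DY e G t)
  · intro T x y hT
    rw [hL]
    refine Finset.sum_induction _ (fun F => Van (T - e) x y F) (fun _ _ ha hb => ha.add hb) ?_ ?_
    · have := (hT.mono (Nat.sub_le T e)).smul 0
      rwa [zero_smul] at this
    · intro t _
      exact (Der_DVan e G t T x y hT).smul _

theorem caseA {G : ℂ[X][Y]} (h0 : G ≠ 0) (e T : ℕ)
    (he : ∀ g : ℂ[X][Y], Irreducible g → ¬ g ^ (e + 1) ∣ G) (Z : Finset (ℂ × ℂ))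
    (hv : ∀ p ∈ Z, Van T p.1 p.2 G) : Z.card * (T * (T - e)) ≤ 2 * (dX G * dY G) := by
  obtain ⟨F, hF0, hrel, hX, hY, hvan⟩ := exists_comb h0 e he
  have h1 := bezout h0 hF0 hrel T (T - e) Z hv (fun p hp => hvan T p.1 p.2 (hv p hp))
  have h2 : dX G * dY F ≤ dX G * dY G := Nat.mul_le_mul_left _ hY
  have h3 : dY G * dX F ≤ dX G * dY G := by
    rw [mul_comm (dX G)]
    exact Nat.mul_le_mul_left _ hX
  omega

end Pool.Agent.LGO.F
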