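import Mathlib
import Pool.Agent.LGO.Defs
import Pool.Agent.LGO.A.MulIu
import Pool.Agent.LGO.A.MulRel

/-!
# LGO/F (note 3060, zero estimate): the functions

`Λ = ℤ w + ℤ w τ` (no complex multiplication), `Λ_v = ℤ c₁ + ℤ c₂ = ℤ v + N Λ`, `v = a w + b w τ`, `gcd(a, b, N) = 1`.
`f(z₁, z₂) = FF = ∑ p_ijk u(z₁)^i u(z₂)^j y(a z₁ + b z₂)^k`, `u = 1 / ℘_Λ`, `y = 1 / ℘_(Λ_v)`; `Gam` = its periods
`{h ∈ Λ² | a h₁ + b h₂ ∈ Λ_v}`; `Gen` = the open dense set of the points where no function has a pole or a lattice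
point; `xx z = ℘_(N Λ)(z)`.

PROOFS.  `FF_add`, `gen_add`: `iu_add_lat`, `wp_add_lat`, `off_add_lat` (LGO/A/MulIu, MulRel, EllSch).
`FF_neg`: `u`, `y` are even.
`ZD.rot`: `(z₁, z₂) = (- z₂', z₁')`, `w' = w τ`, `w' τ' = - w`, `v = b w' + (- a) (w' τ')`.  `NonCM (-1/τ)`.  The lattice
`ℤ w + ℤ w τ` and the lattice `ℤ w τ + ℤ (w τ) (-1/τ)` are equal, so `wp`, `iu` are the same (`wp_change` or directly from the
definition by a permutation of the sum; see EllSch, LGO/Mul/Lat for a lemma about a change of basis).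
-/

namespace Pool.Agent.LGO.F

open Pool.Agent.EllSch Pool.Agent.LGO.Mul Filter Topology Asymptotics

/-- the data of the zero estimate -/
structure ZD (w τ c₁ c₂ : ℂ) (N : ℕ) (a b : ℤ) : Prop where
  w0 : w ≠ 0
  im : 0 < τ.im
  cm : NonCM τ
  N1 : 1 ≤ N
  ind : Ind c₁ c₂
  a0 : a ≠ 0
  b0 : b ≠ 0
  aN : |a| ≤ N
  bN : |b| ≤ N
  cop : ∀ d : ℤ, d ∣ a → d ∣ b → d ∣ N → IsUnit d
  mem : ∀ z : ℂ, (∃ x, z = lat c₁ c₂ x) ↔
    ∃ (k : ℤ) (y : ℤ × ℤ), z = k * (a * w + b * (w * τ)) + N * lat w (w * τ) y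

variable {w τ c₁ c₂ : ℂ} {N : ℕ} {a b : ℤ}

private theorem ZDef_ne (h : ZD w τ c₁ c₂ N a b) : τ ≠ 0 := by
  intro h0
  have := h.im
  rw [h0] at this
  simp at this

private theorem ZDef_rot_mul (h : ZD w τ c₁ c₂ N a b) : w * τ * (-1 / τ) = -w := by
  have h0 := ZDef_ne h
  field_simp

theorem ZD.ind1 (h : ZD w τ c₁ c₂ N a b) : Ind w (w * τ) := by
  unfold Ind
  have h1 : w.re * (w * τ).im - w.im * (w * τ).re = Complex.normSq w * τ.im := by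
    rw [Complex.mul_re, Complex.mul_im, Complex.normSq_apply]
    ring
  rw [h1]
  exact (mul_pos (Complex.normSq_pos.2 h.w0) h.im).ne'

theorem ZD.indN (h : ZD w τ c₁ c₂ N a b) : Ind (N * w) (N * (w * τ)) := by
  have h1 := h.ind1
  have hN : (0 : ℝ) < N := by exact_mod_cast h.N1
  unfold Ind at *
  have h2 : ((N : ℂ) * w).re * ((N : ℂ) * (w * τ)).im - ((N : ℂ) * w).im * ((N : ℂ) * (w * τ)).re =
      (N : ℝ) ^ 2 * (w.re * (w * τ).im - w.im * (w * τ).re) := by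
    have e1 : ∀ t : ℂ, ((N : ℂ) * t).re = N * t.re := fun t => by
      rw [← Complex.ofReal_natCast, Complex.re_ofReal_mul]
    have e2 : ∀ t : ℂ, ((N : ℂ) * t).im = N * t.im := fun t => by
      rw [← Complex.ofReal_natCast, Complex.im_ofReal_mul]
    rw [e1, e1, e2, e2]
    ring
  rw [h2]
  exact mul_ne_zero (pow_pos hN 2).ne' h1

/-- the function `f` -/
noncomputable def FF (w τ c₁ c₂ : ℂ) (a b : ℤ) (L₁ L₂ K : ℕ) (p : ℕ → ℕ → ℕ → ℂ) (z : ℂ × ℂ) : ℂ :=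
  ∑ i ∈ Finset.range L₁, ∑ j ∈ Finset.range L₂, ∑ k ∈ Finset.range K,
    p i j k * iu w (w * τ) z.1 ^ i * iu w (w * τ) z.2 ^ j * iu c₁ c₂ (a * z.1 + b * z.2) ^ k

/-- `t` is no lattice point and no zero of `℘` -/
def Go (w τ t : ℂ) : Prop := Off w (w * τ) t ∧ wp w (w * τ) t ≠ 0

/-- the generic points -/
def Gen (w τ c₁ c₂ : ℂ) (a b : ℤ) : Set (ℂ × ℂ) :=
  {z | Go w τ z.1 ∧ Go w τ z.2 ∧ Off c₁ c₂ (a * z.1 + b * z.2) ∧ wp c₁ c₂ (a * z.1 + b * z.2) ≠ 0}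

/-- the periods -/
def Gam (w τ c₁ c₂ : ℂ) (a b : ℤ) (z : ℂ × ℂ) : Prop :=
  (∃ x, z.1 = lat w (w * τ) x) ∧ (∃ x, z.2 = lat w (w * τ) x) ∧ ∃ x, a * z.1 + b * z.2 = lat c₁ c₂ x

/-- `℘` of the lattice `N Λ` -/
noncomputable def xx (w τ : ℂ) (N : ℕ) (z : ℂ) : ℂ := wp (N * w) (N * (w * τ)) z

/-- `z` is not in `N Λ` -/
def OffN (w τ : ℂ) (N : ℕ) (z : ℂ) : Prop := Off (N * w) (N * (w * τ)) z

theorem FF_add (h : ZD w τ c₁ c₂ N a b) (L₁ L₂ K : ℕ) (p : ℕ → ℕ → ℕ → ℂ) (z : ℂ × ℂ) {g : ℂ × ℂ}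
    (hg : Gam w τ c₁ c₂ a b g) :
    FF w τ c₁ c₂ a b L₁ L₂ K p (z + g) = FF w τ c₁ c₂ a b L₁ L₂ K p z := by
  obtain ⟨⟨x, hx⟩, ⟨y, hy⟩, ⟨t, ht⟩⟩ := hg
  have e : (a : ℂ) * (z + g).1 + b * (z + g).2 = (a * z.1 + b * z.2) + lat c₁ c₂ t := by
    rw [← ht, Prod.fst_add, Prod.snd_add]
    ring
  unfold FF
  rw [e, Prod.fst_add, Prod.snd_add, hx, hy, iu_add_lat h.ind1, iu_add_lat h.ind1, iu_add_lat h.ind]

private theorem ZDef_go_add (h : ZD w τ c₁ c₂ N a b) {t : ℂ} (x : ℤ × ℤ) :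
    Go w τ (t + lat w (w * τ) x) ↔ Go w τ t := by
  unfold Go
  rw [off_add_lat, wp_add_lat h.ind1]

theorem gen_add (h : ZD w τ c₁ c₂ N a b) (z : ℂ × ℂ) {g : ℂ × ℂ} (hg : Gam w τ c₁ c₂ a b g) :
    z + g ∈ Gen w τ c₁ c₂ a b ↔ z ∈ Gen w τ c₁ c₂ a b := by
  obtain ⟨⟨x, hx⟩, ⟨y, hy⟩, ⟨t, ht⟩⟩ := hg
  have e : (a : ℂ) * (z + g).1 + b * (z + g).2 = (a * z.1 + b * z.2) + lat c₁ c₂ t := by
    rw [← ht, Prod.fst_add, Prod.snd_add]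
    ring
  unfold Gen
  rw [Set.mem_ofPred_eq, Set.mem_ofPred_eq, e, Prod.fst_add, Prod.snd_add, hx, hy, ZDef_go_add h,
    ZDef_go_add h, off_add_lat, wp_add_lat h.ind]

theorem Go.add (h : ZD w τ c₁ c₂ N a b) {t : ℂ} (x : ℤ × ℤ) :
    Go w τ (t + lat w (w * τ) x) ↔ Go w τ t := ZDef_go_add h x

theorem Gam.neg {g : ℂ × ℂ} (hg : Gam w τ c₁ c₂ a b g) : Gam w τ c₁ c₂ a b (-g) := by
  obtain ⟨⟨x, hx⟩, ⟨y, hy⟩, ⟨t, ht⟩⟩ := hg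
  refine ⟨⟨-x, ?_⟩, ⟨-y, ?_⟩, ⟨-t, ?_⟩⟩
  · rw [lat_neg, ← hx, Prod.fst_neg]
  · rw [lat_neg, ← hy, Prod.snd_neg]
  · rw [lat_neg, ← ht, Prod.fst_neg, Prod.snd_neg]
    ring

theorem FF_neg (h : ZD w τ c₁ c₂ N a b) (L₁ L₂ K : ℕ) (p : ℕ → ℕ → ℕ → ℂ) (z : ℂ × ℂ) :
    FF w τ c₁ c₂ a b L₁ L₂ K p (-z) = FF w τ c₁ c₂ a b L₁ L₂ K p z := by
  have e : (a : ℂ) * (-z).1 + b * (-z).2 = -(a * z.1 + b * z.2) := by
    rw [Prod.fst_neg, Prod.snd_neg]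
    ring
  unfold FF
  rw [e, Prod.fst_neg, Prod.snd_neg, iu_neg h.ind1, iu_neg h.ind1, iu_neg h.ind]

private theorem ZDef_basis (h : ZD w τ c₁ c₂ N a b) (M : ℂ) :
    M * (w * τ) = ((0 : ℤ) : ℂ) * (M * w) + ((1 : ℤ) : ℂ) * (M * (w * τ)) ∧
    M * (w * τ * (-1 / τ)) = ((-1 : ℤ) : ℂ) * (M * w) + ((0 : ℤ) : ℂ) * (M * (w * τ)) := by
  rw [ZDef_rot_mul h]
  constructor
  · push_cast
    ring
  · push_cast
    ring

private theorem ZDef_wp (h : ZD w τ c₁ c₂ N a b) (M z : ℂ) :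
    wp (M * (w * τ)) (M * (w * τ * (-1 / τ))) z = wp (M * w) (M * (w * τ)) z := by
  obtain ⟨h1, h2⟩ := ZDef_basis h M
  have h3 := wp_change (a := M * w) (b := M * (w * τ)) (p := 0) (q := 1) (r := -1) (s := 0) (by norm_num) z
  rw [← h1, ← h2] at h3
  exact h3

private theorem ZDef_off (h : ZD w τ c₁ c₂ N a b) (M z : ℂ) :
    Off (M * (w * τ)) (M * (w * τ * (-1 / τ))) z ↔ Off (M * w) (M * (w * τ)) z := by
  obtain ⟨h1, h2⟩ := ZDef_basis h M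
  have h3 := off_change (a := M * w) (b := M * (w * τ)) (p := 0) (q := 1) (r := -1) (s := 0) (by norm_num) z
  rw [← h1, ← h2] at h3
  exact h3

private theorem ZDef_wp1 (h : ZD w τ c₁ c₂ N a b) (z : ℂ) :
    wp (w * τ) (w * τ * (-1 / τ)) z = wp w (w * τ) z := by
  have := ZDef_wp h 1 z
  simpa only [one_mul] using this

private theorem ZDef_off1 (h : ZD w τ c₁ c₂ N a b) (z : ℂ) :
    Off (w * τ) (w * τ * (-1 / τ)) z ↔ Off w (w * τ) z := by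
  have := ZDef_off h 1 z
  simpa only [one_mul] using this

private theorem ZDef_iu1 (h : ZD w τ c₁ c₂ N a b) (z : ℂ) :
    iu (w * τ) (w * τ * (-1 / τ)) z = iu w (w * τ) z := by
  unfold iu
  rw [ZDef_wp1 h]

private theorem ZDef_go1 (h : ZD w τ c₁ c₂ N a b) (z : ℂ) :
    Go (w * τ) (-1 / τ) z ↔ Go w τ z := by
  unfold Go
  rw [ZDef_wp1 h, ZDef_off1 h]

theorem ZD.rot (h : ZD w τ c₁ c₂ N a b) : ZD (w * τ) (-1 / τ) c₁ c₂ N b (-a) := by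
  have h0 := ZDef_ne h
  have hm := ZDef_rot_mul h
  refine ⟨mul_ne_zero h.w0 h0, ?_, ?_, h.N1, h.ind, h.b0, neg_ne_zero.2 h.a0, h.bN, ?_, ?_, ?_⟩
  · have h1 : (-1 / τ).im = τ.im / Complex.normSq τ := by
      rw [Complex.div_im]
      simp
      ring
    rw [h1]
    exact div_pos h.im (Complex.normSq_pos.2 h0)
  · intro x y t ht
    have h1 : (t : ℂ) * τ ^ 2 + ((-y : ℤ) : ℂ) * τ + x = 0 := by
      have h2 : τ ^ 2 * ((x : ℂ) * (-1 / τ) ^ 2 + y * (-1 / τ) + t) = (t : ℂ) * τ ^ 2 + ((-y : ℤ) : ℂ) * τ + x := by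
        push_cast
        field_simp
        ring
      rw [← h2, ht, mul_zero]
    obtain ⟨h3, h4, h5⟩ := h.cm _ _ _ h1
    exact ⟨h5, by omega, h3⟩
  · rw [abs_neg]
    exact h.aN
  · intro d hd1 hd2 hd3
    exact h.cop d ((dvd_neg).1 hd2) hd1 hd3
  · intro z
    rw [h.mem z]
    constructor
    · rintro ⟨k, y, hz⟩
      refine ⟨k, (y.2, -y.1), ?_⟩
      rw [hz, hm]
      unfold lat
      push_cast
      ring
    · rintro ⟨k, y, hz⟩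
      refine ⟨k, (-y.2, y.1), ?_⟩
      rw [hz, hm]
      unfold lat
      push_cast
      ring

/-- the symmetry `(z₁, z₂) ↦ (z₂, - z₁)` -/
theorem FF_rot (h : ZD w τ c₁ c₂ N a b) (L₁ L₂ K : ℕ) (p : ℕ → ℕ → ℕ → ℂ) (z : ℂ × ℂ) :
    FF (w * τ) (-1 / τ) c₁ c₂ b (-a) L₂ L₁ K (fun j i k => p i j k) z =
      FF w τ c₁ c₂ a b L₁ L₂ K p (-z.2, z.1) := by
  have e : (b : ℂ) * z.1 + ((-a : ℤ) : ℂ) * z.2 = a * (-z.2) + b * z.1 := by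
    push_cast
    ring
  unfold FF
  rw [e, ZDef_iu1 h, ZDef_iu1 h, Finset.sum_comm]
  refine Finset.sum_congr rfl fun i _ => Finset.sum_congr rfl fun j _ =>
    Finset.sum_congr rfl fun k _ => ?_
  simp only
  rw [iu_neg h.ind1]
  ring

theorem gen_rot (h : ZD w τ c₁ c₂ N a b) (z : ℂ × ℂ) :
    z ∈ Gen (w * τ) (-1 / τ) c₁ c₂ b (-a) ↔ (-z.2, z.1) ∈ Gen w τ c₁ c₂ a b := by
  have e : (b : ℂ) * z.1 + ((-a : ℤ) : ℂ) * z.2 = a * (-z.2) + b * z.1 := by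
    push_cast
    ring
  have hn : Go w τ (-z.2) ↔ Go w τ z.2 := by
    unfold Go
    rw [off_neg, wp_neg h.ind1]
  unfold Gen
  rw [Set.mem_ofPred_eq, Set.mem_ofPred_eq, e, ZDef_go1 h, ZDef_go1 h, hn]
  constructor
  · rintro ⟨h1, h2, h3, h4⟩
    exact ⟨h2, h1, h3, h4⟩
  · rintro ⟨h1, h2, h3, h4⟩
    exact ⟨h2, h1, h3, h4⟩

theorem xx_rot (h : ZD w τ c₁ c₂ N a b) (z : ℂ) : xx (w * τ) (-1 / τ) N z = xx w τ N z := by
  unfold xx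
  exact ZDef_wp h N z

theorem offN_rot (h : ZD w τ c₁ c₂ N a b) (z : ℂ) :
    OffN (w * τ) (-1 / τ) N z ↔ OffN w τ N z := by
  unfold OffN
  exact ZDef_off h N z

end Pool.Agent.LGO.F
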