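import Mathlib
import Pool.Agent.LGO.F.ZDef

/-!
# LGO/F (note 3060, zero estimate): the coordinate `xx = ℘_(N Λ)`

PROOFS.  `N Λ = ℤ (N w) + ℤ (N (w τ))`, `N lat w (w τ) x = lat (N w) (N (w τ)) x`, and `ZD.indN`.  The facts about `wp`, `wq` of a
lattice are in `Pool.Agent.EllSch` (`wp_eq_iff`/`wp_inj`: same value iff `± mod` lattice, surjectivity, differential equation,
`wq z = 0` iff `2 z` in the lattice), see also `LGO/A/MulIu`, `LGO/Mul/Ex` for the way they are used.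
`offN_of_off`: `N Λ ⊆ Λ`.  `xx_order`: if the order of `xx - c` at `z` were at least `3` then `xx' (z) = xx'' (z) = 0`; if `2 z` is not
in `N Λ` then `xx'(z) ≠ 0`; if `2 z ∈ N Λ`, `z ∉ N Λ`: `2 xx'' = 12 xx² - G2`, `xx'(z) = 0`, and `xx''(z) = 0` would make
`xx(z)` a double root of `4 X³ - G2 X - G3` (discriminant not `0`).  Alternatively: if the order is `≥ 3` then (local
mapping, `xx z' = c'` has three solutions near `z` for `c'` near `c`) contradiction with `xx_eq`: the solutions are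
`± z₀ mod N Λ`, two classes, and locally at most two points.
-/

namespace Pool.Agent.LGO.F

open Pool.Agent.EllSch Pool.Agent.LGO.Mul Filter Topology Asymptotics

variable {w τ c₁ c₂ : ℂ} {N : ℕ} {a b : ℤ}

/-! ### the coordinate `xx` -/

theorem xx_neg (h : ZD w τ c₁ c₂ N a b) (z : ℂ) : xx w τ N (-z) = xx w τ N z := by
  exact wp_neg h.indN z

theorem xx_add (h : ZD w τ c₁ c₂ N a b) (z : ℂ) (x : ℤ × ℤ) :
    xx w τ N (z + N * lat w (w * τ) x) = xx w τ N z := by
  unfold xx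
  rw [← lat_smul, wp_add_lat h.indN]

theorem offN_add (h : ZD w τ c₁ c₂ N a b) (z : ℂ) (x : ℤ × ℤ) :
    OffN w τ N (z + N * lat w (w * τ) x) ↔ OffN w τ N z := by
  unfold OffN
  rw [← lat_smul, off_add_lat]

theorem offN_of_off (h : ZD w τ c₁ c₂ N a b) {z : ℂ} (hz : Off w (w * τ) z) : OffN w τ N z := by
  intro x hx
  refine hz (N * x.1, N * x.2) ?_
  rw [hx]
  simp only [lat]
  push_cast
  ring

theorem offN_neg (h : ZD w τ c₁ c₂ N a b) {z : ℂ} : OffN w τ N (-z) ↔ OffN w τ N z := by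
  exact off_neg

theorem xx_an (h : ZD w τ c₁ c₂ N a b) {z : ℂ} (hz : OffN w τ N z) :
    AnalyticAt ℂ (xx w τ N) z := by
  exact analyticOnNhd_wp h.indN z hz

/-- `xx` separates the points up to sign -/
theorem xx_eq (h : ZD w τ c₁ c₂ N a b) {z y : ℂ} (hz : OffN w τ N z) (hy : OffN w τ N y)
    (he : xx w τ N z = xx w τ N y) :
    (∃ x : ℤ × ℤ, z - y = N * lat w (w * τ) x) ∨ ∃ x : ℤ × ℤ, z + y = N * lat w (w * τ) x := by
  have e1 := ode h.indN hz
  have e2 := ode h.indN hy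
  have he' : wp (N * w) (N * (w * τ)) z = wp (N * w) (N * (w * τ)) y := he
  have e3 : (wq (N * w) (N * (w * τ)) z - wq (N * w) (N * (w * τ)) y) *
      (wq (N * w) (N * (w * τ)) z + wq (N * w) (N * (w * τ)) y) = 0 := by
    have e4 : wq (N * w) (N * (w * τ)) z ^ 2 = wq (N * w) (N * (w * τ)) y ^ 2 := by
      rw [e1, e2, he']
    linear_combination e4
  rcases mul_eq_zero.1 e3 with e4 | e4
  · left
    obtain ⟨x, hx⟩ := exists_lat_of_eq h.indN hz hy he' (sub_eq_zero.1 e4)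
    refine ⟨x, ?_⟩
    rw [← lat_smul, hx]
    ring
  · right
    obtain ⟨x, hx⟩ := exists_lat_of_eq h.indN hz (off_neg.2 hy) (by rw [wp_neg h.indN]; exact he')
      (by rw [wq_neg h.indN]; linear_combination e4)
    refine ⟨x, ?_⟩
    rw [← lat_smul, hx]
    ring

/-- `xx` is surjective -/
theorem xx_surj (h : ZD w τ c₁ c₂ N a b) (c : ℂ) : ∃ z, OffN w τ N z ∧ xx w τ N z = c := by
  obtain ⟨y, hy⟩ : ∃ y : ℂ, y ^ 2 = 4 * c ^ 3 - G2 (N * w) (N * (w * τ)) * c - G3 (N * w) (N * (w * τ)) :=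
    IsAlgClosed.exists_pow_nat_eq _ (by norm_num)
  obtain ⟨z, hz, h1, h2⟩ := exists_wp_eq h.indN hy
  exact ⟨z, hz, h1⟩

/-- the derivative of `xx` -/
theorem xx_deriv (h : ZD w τ c₁ c₂ N a b) {z : ℂ} (hz : OffN w τ N z) :
    HasStrictDerivAt (xx w τ N) (wq (N * w) (N * (w * τ)) z) z ∧
      wq (N * w) (N * (w * τ)) z ^ 2 = 4 * xx w τ N z ^ 3 -
        G2 (N * w) (N * (w * τ)) * xx w τ N z - G3 (N * w) (N * (w * τ)) := by
  refine ⟨?_, ode h.indN hz⟩
  have h1 : HasDerivAt (xx w τ N) (wq (N * w) (N * (w * τ)) z) z := hasDerivAt_wp h.indN hz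
  have h2 := (xx_an h hz).hasStrictDerivAt
  rwa [h1.deriv] at h2

/-- the derivative vanishes only at half periods -/
theorem xx_deriv_ne (h : ZD w τ c₁ c₂ N a b) {z : ℂ} (hz : OffN w τ N (2 * z)) :
    wq (N * w) (N * (w * τ)) z ≠ 0 := by
  exact wq_ne_zero h.indN hz

/-- `xx - c` has zeros of order at most `2` -/
theorem xx_order (h : ZD w τ c₁ c₂ N a b) {z : ℂ} (hz : OffN w τ N z) (c : ℂ) :
    meromorphicOrderAt (fun y => xx w τ N y - c) z ≤ 2 := by
  have han : AnalyticAt ℂ (fun y => xx w τ N y - c) z := (xx_an h hz).sub analyticAt_const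
  have hd1 : deriv (fun y => xx w τ N y - c) =ᶠ[𝓝 z] wq (N * w) (N * (w * τ)) := by
    filter_upwards [(isOpen_off h.indN).mem_nhds hz] with u hu
    exact ((hasDerivAt_wp h.indN hu).sub_const c).deriv
  have hd2 : deriv (deriv (fun y => xx w τ N y - c)) z =
      6 * wp (N * w) (N * (w * τ)) z ^ 2 - G2 (N * w) (N * (w * τ)) / 2 := by
    rw [hd1.deriv_eq]
    exact (hasDerivAt_wq h.indN hz).deriv
  have hle : analyticOrderAt (fun y => xx w τ N y - c) z ≤ 2 := by
    by_contra hlt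
    push Not at hlt
    have h3 : ((3 : ℕ) : ℕ∞) ≤ analyticOrderAt (fun y => xx w τ N y - c) z := by
      have := Order.add_one_le_of_lt hlt
      exact_mod_cast this
    have h4 := (natCast_le_analyticOrderAt_iff_iteratedDeriv_eq_zero han).1 h3
    have h5 := h4 1 (by norm_num)
    have h6 := h4 2 (by norm_num)
    rw [iteratedDeriv_one] at h5
    rw [iteratedDeriv_succ, iteratedDeriv_one, hd2] at h6
    rw [hd1.eq_of_nhds] at h5
    have h7 := ode h.indN hz
    refine disc_ne_zero h.indN ?_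
    have g2 : G2 (N * w) (N * (w * τ)) = 12 * wp (N * w) (N * (w * τ)) z ^ 2 := by
      linear_combination (-2) * h6
    have g3 : G3 (N * w) (N * (w * τ)) = -8 * wp (N * w) (N * (w * τ)) z ^ 3 := by
      rw [h5, g2] at h7
      linear_combination h7
    rw [g2, g3]
    ring
  rw [han.meromorphicOrderAt_eq]
  have hne : analyticOrderAt (fun y => xx w τ N y - c) z ≠ ⊤ := ne_top_of_le_ne_top (by simp) hle
  obtain ⟨n, hn⟩ := ENat.ne_top_iff_exists.1 hne
  rw [← hn] at hle ⊢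
  have hn2 : n ≤ 2 := by exact_mod_cast hle
  rw [ENat.map_natCast]
  have h9 : (((n : ℕ) : ℤ) : WithTop ℤ) ≤ ((2 : ℤ) : WithTop ℤ) := WithTop.coe_le_coe.2 (by exact_mod_cast hn2)
  exact h9

end Pool.Agent.LGO.F
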