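import Mathlib
import Pool.Agent.LGO.Mul.Ex
import Pool.Agent.LGO.F.ZXx
import Pool.Agent.EllSch.Add
import Pool.Agent.EllSch.Hom
import Pool.Agent.EllSch.RelA

/-!
# LGO/F (note 3060, zero estimate): `℘` of a larger lattice as a rational function

PROOFS.  `exists_rat`: the proof of `exists_sol` in `LGO/Mul/Ex.lean` contains everything (`key`: for `z` with `β z` off the target
lattice `℘'(β z) B(℘(z)) = A(℘(z))`, `B(℘(z)) ≠ 0`, degrees `≤ 2 N²`); copy the private lemmas (or make them public there: do not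
change that file, copy them).  Divide `A` and `B` by their greatest common divisor.  If `β z` is a lattice point of the target
lattice and `z` is not in the source lattice: `℘'(β y) → ∞` as `y → z`, while `A(℘(y)) / B(℘(y))` would be bounded if
`B(℘(z)) ≠ 0`; so `B(℘(z)) = 0`.  `A ≠ 0` because `℘'(β z)` is not identically `0` and `B ≠ 0`.
`ord_rat`: if `B(℘(z)) = 0` then `A(℘(z)) ≠ 0` (coprime), order `0`.  If `B(℘(z)) ≠ 0` then near `z`
`A(℘(y)) = ℘'(β y) B(℘(y))` and the order is the order of `℘'(β y)` at `z`, at most `2` (`xx_order` in `F/ZXx.lean` is the same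
fact for `N Λ`; here: `℘' = 0` at `p`, `℘'' (p) = 6 ℘'(p)^2 - g2 / 2`: if the order of `℘` at `p` is `≥ 3` then `wq p = 0` and
`g2 = 0`, then `0 = wq² = 4·0 - 0 - g3`, so `g3 = 0`: the discriminant would vanish).
-/

namespace Pool.Agent.LGO.F

open Polynomial Pool.Agent.EllSch Filter Topology

private theorem ZRat_lat_smul (c a b : ℂ) (w : ℤ × ℤ) :
    lat (c * a) (c * b) w = c * lat a b w := by
  unfold lat
  ring

private theorem ZRat_ind_smul {c a b : ℂ} (hc : c ≠ 0) (h : Ind a b) : Ind (c * a) (c * b) := by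
  unfold Ind at *
  have h1 : (c * a).re * (c * b).im - (c * a).im * (c * b).re =
      Complex.normSq c * (a.re * b.im - a.im * b.re) := by
    simp only [Complex.mul_re, Complex.mul_im, Complex.normSq_apply]
    ring
  rw [h1]
  exact mul_ne_zero (fun h0 => hc (Complex.normSq_eq_zero.1 h0)) h

private theorem ZRat_off_smul {c a b z : ℂ} (hc : c ≠ 0) :
    Off (c⁻¹ * a) (c⁻¹ * b) z ↔ Off a b (c * z) := by
  unfold Off
  refine forall_congr' fun x => not_congr ?_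
  rw [ZRat_lat_smul]
  constructor
  · intro h
    rw [h, ← mul_assoc, mul_inv_cancel₀ hc, one_mul]
  · intro h
    rw [← h, ← mul_assoc, inv_mul_cancel₀ hc, one_mul]

/-- the two values `℘ (z + k)`, `℘ (z - k)` -/
private theorem ZRat_pair {a b z k : ℂ} (h : Ind a b) (hz : Off a b z) (hk : Off a b k)
    (h1 : Off a b (z + k)) (h2 : Off a b (z - k)) :
    wp a b z - wp a b k ≠ 0 ∧ wp a b (z + k) + wp a b (z - k) =
      ((2 * wp a b z * wp a b k - G2 a b / 2) * (wp a b z + wp a b k) - G3 a b) /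
        (wp a b z - wp a b k) ^ 2 := by
  have hne : wp a b z ≠ wp a b k := by
    intro he
    obtain ⟨x, hx⟩ := Hom.exists_of_wp_eq h hz hk h1 he
    exact h2 x (by rw [hx]; ring)
  have hne' : wp a b z - wp a b k ≠ 0 := sub_ne_zero.2 hne
  refine ⟨hne', ?_⟩
  have e1 := wp_add h hz hk h1 hne
  have e2 := wp_add h hz (off_neg.2 hk) (by rw [← sub_eq_add_neg]; exact h2)
    (by rw [wp_neg h]; exact hne)
  rw [wp_neg h, wq_neg h, ← sub_eq_add_neg] at e2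
  have o1 := ode h hz
  have o2 := ode h hk
  rw [e1, e2]
  field_simp
  linear_combination 4 * o1 + 4 * o2

/-- the vectors of the finer lattice modulo `N` -/
private noncomputable def ZRL {N : ℕ} (a₁ b₁ : ℂ) (y : ZMod N × ZMod N) : ℂ :=
  lat a₁ b₁ ((y.1.val : ℤ), (y.2.val : ℤ))

private theorem ZRat_lat_congr {N : ℕ} {a b a₁ b₁ : ℂ}
    (hm' : ∀ y : ℤ × ℤ, ∃ x : ℤ × ℤ, (N : ℂ) * lat a₁ b₁ y = lat a b x) {u v : ℤ × ℤ}
    (h1 : (u.1 : ZMod N) = v.1) (h2 : (u.2 : ZMod N) = v.2) :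
    ∃ x, lat a₁ b₁ u = lat a₁ b₁ v + lat a b x := by
  rw [ZMod.intCast_eq_intCast_iff_dvd_sub] at h1 h2
  obtain ⟨t1, ht1⟩ := h1
  obtain ⟨t2, ht2⟩ := h2
  obtain ⟨x, hx⟩ := hm' (-t1, -t2)
  refine ⟨x, ?_⟩
  rw [← hx]
  have e1 : (v.1 : ℂ) - u.1 = N * t1 := by exact_mod_cast ht1
  have e2 : (v.2 : ℂ) - u.2 = N * t2 := by exact_mod_cast ht2
  unfold lat
  push_cast
  linear_combination -a₁ * e1 - b₁ * e2

private theorem ZRat_shift {N : ℕ} [NeZero N] {a b a₁ b₁ : ℂ}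
    (hm' : ∀ y : ℤ × ℤ, ∃ x : ℤ × ℤ, (N : ℂ) * lat a₁ b₁ y = lat a b x)
    (y : ZMod N × ZMod N) (w : ℤ × ℤ) :
    ∃ x, ZRL a₁ b₁ y + lat a₁ b₁ w =
      ZRL a₁ b₁ (y + ((w.1 : ZMod N), (w.2 : ZMod N))) + lat a b x := by
  unfold ZRL
  rw [← Pool.Agent.EllSch.lat_add]
  apply ZRat_lat_congr hm' <;> simp

private theorem ZRat_negL {N : ℕ} [NeZero N] {a b a₁ b₁ : ℂ}
    (hm' : ∀ y : ℤ × ℤ, ∃ x : ℤ × ℤ, (N : ℂ) * lat a₁ b₁ y = lat a b x)
    (y : ZMod N × ZMod N) :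
    ∃ x, ZRL a₁ b₁ (-y) = -ZRL a₁ b₁ y + lat a b x := by
  unfold ZRL
  rw [← Pool.Agent.EllSch.lat_neg]
  apply ZRat_lat_congr hm' <;> simp

/-- the sum over all the vectors modulo `N` -/
private noncomputable def ZRT {N : ℕ} [NeZero N] (a b a₁ b₁ z : ℂ) : ℂ :=
  ∑ y : ZMod N × ZMod N, wp a b (z + ZRL a₁ b₁ y)

private theorem ZRat_T_per {N : ℕ} [NeZero N] {a b a₁ b₁ : ℂ} (h : Ind a b)
    (hm' : ∀ y : ℤ × ℤ, ∃ x : ℤ × ℤ, (N : ℂ) * lat a₁ b₁ y = lat a b x) (z : ℂ) (w : ℤ × ℤ) :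
    ZRT (N := N) a b a₁ b₁ (z + lat a₁ b₁ w) = ZRT (N := N) a b a₁ b₁ z := by
  unfold ZRT
  rw [← Equiv.sum_comp (Equiv.addRight (((w.1 : ZMod N), (w.2 : ZMod N)) : ZMod N × ZMod N))
    (fun y => wp a b (z + ZRL a₁ b₁ y))]
  refine Finset.sum_congr rfl fun y _ => ?_
  obtain ⟨x, hx⟩ := ZRat_shift hm' y w
  rw [show z + lat a₁ b₁ w + ZRL a₁ b₁ y = z + (ZRL a₁ b₁ y + lat a₁ b₁ w) by ring, hx,
    ← add_assoc, wp_add_lat h]
  rfl

private theorem ZRat_T_two {N : ℕ} [NeZero N] {a b a₁ b₁ : ℂ} (h : Ind a b)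
    (hm' : ∀ y : ℤ × ℤ, ∃ x : ℤ × ℤ, (N : ℂ) * lat a₁ b₁ y = lat a b x) (z : ℂ) :
    2 * ZRT (N := N) a b a₁ b₁ z =
      ∑ y : ZMod N × ZMod N, (wp a b (z + ZRL a₁ b₁ y) + wp a b (z - ZRL a₁ b₁ y)) := by
  rw [Finset.sum_add_distrib, two_mul]
  congr 1
  unfold ZRT
  rw [← Equiv.sum_comp (Equiv.neg (ZMod N × ZMod N)) (fun y => wp a b (z + ZRL a₁ b₁ y))]
  refine Finset.sum_congr rfl fun y _ => ?_
  obtain ⟨x, hx⟩ := ZRat_negL hm' y
  rw [Equiv.neg_apply, hx, ← add_assoc, wp_add_lat h, ← sub_eq_add_neg]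

private theorem ZRat_off_sub {a b a₁ b₁ : ℂ}
    (hm : ∀ x : ℤ × ℤ, ∃ y : ℤ × ℤ, lat a b x = lat a₁ b₁ y) {z : ℂ} (hz : Off a₁ b₁ z)
    (w : ℤ × ℤ) : Off a b (z + lat a₁ b₁ w) := by
  intro x hx
  obtain ⟨y, hy⟩ := hm x
  refine hz (y - w) ?_
  rw [Pool.Agent.EllSch.lat_sub, ← hy, ← hx]
  ring

private theorem ZRat_off_zero {a b a₁ b₁ : ℂ}
    (hm : ∀ x : ℤ × ℤ, ∃ y : ℤ × ℤ, lat a b x = lat a₁ b₁ y) {z : ℂ} (hz : Off a₁ b₁ z) :
    Off a b z := by
  have := ZRat_off_sub hm hz 0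
  rwa [Pool.Agent.EllSch.lat_zero, add_zero] at this

private theorem ZRat_off_neg {a b a₁ b₁ : ℂ}
    (hm : ∀ x : ℤ × ℤ, ∃ y : ℤ × ℤ, lat a b x = lat a₁ b₁ y) {z : ℂ} (hz : Off a₁ b₁ z)
    (w : ℤ × ℤ) : Off a b (z - lat a₁ b₁ w) := by
  have := ZRat_off_sub hm hz (-w)
  rwa [Pool.Agent.EllSch.lat_neg, ← sub_eq_add_neg] at this

open Classical in
/-- the nonzero classes, with multiplicity -/
private noncomputable def ZRK (N : ℕ) [NeZero N] (a b a₁ b₁ : ℂ) : Finset (ZMod N × ZMod N) :=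
  Finset.univ.filter fun y => Off a b (ZRL a₁ b₁ y)

private theorem ZRat_mem {N : ℕ} [NeZero N] {a b a₁ b₁ : ℂ} {y : ZMod N × ZMod N} :
    y ∈ ZRK N a b a₁ b₁ ↔ Off a b (ZRL a₁ b₁ y) := by
  simp [ZRK]

private theorem ZRat_ne {N : ℕ} [NeZero N] {a b a₁ b₁ : ℂ} (h : Ind a b)
    (hm : ∀ x : ℤ × ℤ, ∃ y : ℤ × ℤ, lat a b x = lat a₁ b₁ y) {z : ℂ} (hz : Off a₁ b₁ z)
    {y : ZMod N × ZMod N} (hy : y ∈ ZRK N a b a₁ b₁) :
    wp a b z - wp a b (ZRL a₁ b₁ y) ≠ 0 := by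
  have hy' : Off a b (ZRL a₁ b₁ y) := ZRat_mem.1 hy
  exact (ZRat_pair h (ZRat_off_zero hm hz) hy' (ZRat_off_sub hm hz _) (ZRat_off_neg hm hz _)).1

private theorem ZRat_T_eq {N : ℕ} [NeZero N] {a b a₁ b₁ : ℂ} (h : Ind a b)
    (hm : ∀ x : ℤ × ℤ, ∃ y : ℤ × ℤ, lat a b x = lat a₁ b₁ y)
    (hm' : ∀ y : ℤ × ℤ, ∃ x : ℤ × ℤ, (N : ℂ) * lat a₁ b₁ y = lat a b x) {z : ℂ}
    (hz : Off a₁ b₁ z) :
    2 * ZRT (N := N) a b a₁ b₁ z = 2 * ((ZRK N a b a₁ b₁)ᶜ.card * wp a b z) +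
      ∑ y ∈ ZRK N a b a₁ b₁,
        ((2 * wp a b z * wp a b (ZRL a₁ b₁ y) - G2 a b / 2) *
          (wp a b z + wp a b (ZRL a₁ b₁ y)) - G3 a b) /
            (wp a b z - wp a b (ZRL a₁ b₁ y)) ^ 2 := by
  rw [ZRat_T_two h hm', ← Finset.sum_compl_add_sum (ZRK N a b a₁ b₁)]
  congr 1
  · have h1 : ∀ y ∈ (ZRK N a b a₁ b₁)ᶜ,
        wp a b (z + ZRL a₁ b₁ y) + wp a b (z - ZRL a₁ b₁ y) = 2 * wp a b z := by
      intro y hy
      have hy' : ¬ Off a b (ZRL a₁ b₁ y) := by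
        intro h0
        exact (Finset.mem_compl.1 hy) (ZRat_mem.2 h0)
      obtain ⟨x, hx⟩ := Hom.not_off hy'
      rw [hx, wp_add_lat h, sub_eq_add_neg, ← Pool.Agent.EllSch.lat_neg, wp_add_lat h]
      ring
    rw [Finset.sum_congr rfl h1, Finset.sum_const, nsmul_eq_mul]
    ring
  · refine Finset.sum_congr rfl fun y hy => ?_
    have hy' : Off a b (ZRL a₁ b₁ y) := ZRat_mem.1 hy
    exact (ZRat_pair h (ZRat_off_zero hm hz) hy' (ZRat_off_sub hm hz _) (ZRat_off_neg hm hz _)).2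

/-- the direct form of the sum -/
private theorem ZRat_T_split {N : ℕ} [NeZero N] {a b a₁ b₁ : ℂ} (h : Ind a b) (z : ℂ) :
    ZRT (N := N) a b a₁ b₁ z = (ZRK N a b a₁ b₁)ᶜ.card * wp a b z +
      ∑ y ∈ ZRK N a b a₁ b₁, wp a b (z + ZRL a₁ b₁ y) := by
  unfold ZRT
  rw [← Finset.sum_compl_add_sum (ZRK N a b a₁ b₁)]
  congr 1
  have h1 : ∀ y ∈ (ZRK N a b a₁ b₁)ᶜ, wp a b (z + ZRL a₁ b₁ y) = wp a b z := by
    intro y hy
    have hy' : ¬ Off a b (ZRL a₁ b₁ y) := by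
      intro h0
      exact (Finset.mem_compl.1 hy) (ZRat_mem.2 h0)
    obtain ⟨x, hx⟩ := Hom.not_off hy'
    rw [hx, wp_add_lat h]
  rw [Finset.sum_congr rfl h1, Finset.sum_const, nsmul_eq_mul]

/-- the difference of the two sides is constant -/
private theorem ZRat_const {N : ℕ} [NeZero N] {a b a' b' β : ℂ} (h : Ind a b) (h' : Ind a' b')
    (hβ : β ≠ 0)
    (hm : ∀ x : ℤ × ℤ, ∃ y : ℤ × ℤ, lat a b x = lat (β⁻¹ * a') (β⁻¹ * b') y)
    (hm' : ∀ y : ℤ × ℤ, ∃ x : ℤ × ℤ, (N : ℂ) * lat (β⁻¹ * a') (β⁻¹ * b') y = lat a b x) :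
    ∃ c : ℂ, ∀ z, Off (β⁻¹ * a') (β⁻¹ * b') z →
      (ZRK N a b (β⁻¹ * a') (β⁻¹ * b'))ᶜ.card * β ^ 2 * wp a' b' (β * z) =
        ZRT (N := N) a b (β⁻¹ * a') (β⁻¹ * b') z + c := by
  have h₁ : Ind (β⁻¹ * a') (β⁻¹ * b') := ZRat_ind_smul (inv_ne_zero hβ) h'
  set M : ℂ := ((ZRK N a b (β⁻¹ * a') (β⁻¹ * b'))ᶜ.card : ℂ) with hM
  refine ⟨-∑ y ∈ ZRK N a b (β⁻¹ * a') (β⁻¹ * b'), wp a b (ZRL (β⁻¹ * a') (β⁻¹ * b') y), ?_⟩
  have key := Basic.const_of_off h₁
    (f := fun z => M * β ^ 2 * wp a' b' (β * z) - ZRT (N := N) a b (β⁻¹ * a') (β⁻¹ * b') z)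
    (c := -∑ y ∈ ZRK N a b (β⁻¹ * a') (β⁻¹ * b'), wp a b (ZRL (β⁻¹ * a') (β⁻¹ * b') y))
    ?_ ?_ ?_
  · intro z hz
    have := key z hz
    linear_combination this
  · intro z hz
    have hz' : Off a' b' (β * z) := (ZRat_off_smul hβ).1 hz
    have d1 : DifferentiableAt ℂ (fun z => wp a' b' (β * z)) z := by
      have e1 : DifferentiableAt ℂ (wp a' b') (β * z) := Basic.differentiableAt_wp h' hz'
      exact e1.comp z ((differentiableAt_id).const_mul β)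
    refine (d1.const_mul _).sub ?_
    unfold ZRT
    refine DifferentiableAt.fun_sum fun y _ => ?_
    have e2 : Off a b (z + ZRL (β⁻¹ * a') (β⁻¹ * b') y) := ZRat_off_sub hm hz _
    have e3 : DifferentiableAt ℂ (wp a b) (z + ZRL (β⁻¹ * a') (β⁻¹ * b') y) :=
      Basic.differentiableAt_wp h e2
    exact e3.comp z ((differentiableAt_id).add_const _)
  · intro z x hz
    rw [ZRat_T_per h hm', ZRat_lat_smul, mul_add, ← mul_assoc, mul_inv_cancel₀ hβ, one_mul,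
      wp_add_lat h']
  · have t1 : Tendsto (fun z : ℂ => β * z) (𝓝[≠] 0) (𝓝[≠] 0) := by
      rw [tendsto_nhdsWithin_iff]
      constructor
      · have : Continuous (fun z : ℂ => β * z) := by fun_prop
        have := this.tendsto 0
        rw [mul_zero] at this
        exact this.mono_left nhdsWithin_le_nhds
      · filter_upwards [self_mem_nhdsWithin] with z hz
        exact mul_ne_zero hβ hz
    have t2 := ((Add.tendsto_wp_sub h').comp t1).const_mul (M * β ^ 2)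
    have t3 := (Add.tendsto_wp_sub h).const_mul M
    have t4 : Tendsto (fun z => ∑ y ∈ ZRK N a b (β⁻¹ * a') (β⁻¹ * b'),
        wp a b (z + ZRL (β⁻¹ * a') (β⁻¹ * b') y)) (𝓝[≠] 0)
        (𝓝 (∑ y ∈ ZRK N a b (β⁻¹ * a') (β⁻¹ * b'), wp a b (ZRL (β⁻¹ * a') (β⁻¹ * b') y))) := by
      refine tendsto_finsetSum _ fun y hy => ?_
      have hy' : Off a b (ZRL (β⁻¹ * a') (β⁻¹ * b') y) := ZRat_mem.1 hy
      have e1 : ContinuousAt (wp a b) (0 + ZRL (β⁻¹ * a') (β⁻¹ * b') y) := by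
        rw [zero_add]
        exact (hasDerivAt_wp h hy').continuousAt
      have e2 : ContinuousAt (fun z : ℂ => z + ZRL (β⁻¹ * a') (β⁻¹ * b') y) 0 := by fun_prop
      have e3 := (ContinuousAt.comp (f := fun z : ℂ => z + ZRL (β⁻¹ * a') (β⁻¹ * b') y)
        (x := 0) e1 e2).tendsto
      simp only [Function.comp_def, zero_add] at e3
      exact e3.mono_left nhdsWithin_le_nhds
    have t5 := (t2.sub t3).sub t4
    rw [mul_zero, mul_zero, sub_zero, zero_sub] at t5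
    refine t5.congr' ?_
    filter_upwards [self_mem_nhdsWithin] with z hz
    have hz' : z ≠ 0 := hz
    rw [ZRat_T_split h, ← hM]
    simp only [Function.comp_apply]
    have e1 : M * β ^ 2 * (1 / (β * z) ^ 2) = M * (1 / z ^ 2) := by
      field_simp
    linear_combination (-1) * e1

private noncomputable def ZRQ (g2 g3 x : ℂ) : ℂ[X] :=
  (C (2 * x) * X - C (g2 / 2)) * (X + C x) - C g3

private theorem ZRQ_eval (g2 g3 x t : ℂ) :
    (ZRQ g2 g3 x).eval t = (2 * t * x - g2 / 2) * (t + x) - g3 := by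
  simp only [ZRQ, eval_sub, eval_mul, eval_add, eval_C, eval_X]
  ring

private theorem ZRQ_deg (g2 g3 x : ℂ) : (ZRQ g2 g3 x).natDegree ≤ 2 := by
  unfold ZRQ
  compute_degree

private theorem ZRP_deg {ι : Type*} (s : Finset ι) (f : ι → ℂ) :
    (∏ y ∈ s, (X - C (f y)) ^ 2).natDegree ≤ 2 * s.card := by
  refine (natDegree_prod_le _ _).trans ?_
  refine (Finset.sum_le_card_nsmul s _ 2 fun y _ => ?_).trans ?_
  · compute_degree
  · rw [smul_eq_mul, mul_comm]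

private theorem ZRat_rat {ι : Type*} [DecidableEq ι] (s : Finset ι) (f : ι → ℂ)
    (M c g2 g3 γ : ℂ) (hM : M ≠ 0) (hγ : γ ≠ 0) :
    ∃ A B : ℂ[X], A.natDegree ≤ 2 * s.card + 1 ∧ B.natDegree ≤ 2 * s.card ∧
      ∀ t : ℂ, (∀ y ∈ s, t - f y ≠ 0) → B.eval t ≠ 0 ∧ ∀ F : ℂ,
        2 * (M * γ * F) = 2 * (M * t) + (∑ y ∈ s, ((2 * t * f y - g2 / 2) * (t + f y) - g3) /
          (t - f y) ^ 2) + 2 * c → F * B.eval t = A.eval t := by
  refine ⟨(C M * X + C c) * ∏ y ∈ s, (X - C (f y)) ^ 2 +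
    ∑ y ∈ s, C (1 / 2) * ZRQ g2 g3 (f y) * ∏ z ∈ s.erase y, (X - C (f z)) ^ 2,
    C (M * γ) * ∏ y ∈ s, (X - C (f y)) ^ 2, ?_, ?_, ?_⟩
  · refine (natDegree_add_le _ _).trans (max_le ?_ ?_)
    · refine natDegree_mul_le.trans ?_
      have h1 : (C M * X + C c : ℂ[X]).natDegree ≤ 1 := by compute_degree
      have h2 := ZRP_deg s f
      omega
    · refine natDegree_sum_le_of_forall_le s _ fun y hy => ?_
      refine natDegree_mul_le.trans ?_
      have h1 : (C (1 / 2) * ZRQ g2 g3 (f y)).natDegree ≤ 2 := by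
        refine natDegree_mul_le.trans ?_
        have := ZRQ_deg g2 g3 (f y)
        rw [natDegree_C]
        omega
      have h2 := ZRP_deg (s.erase y) f
      rw [Finset.card_erase_of_mem hy] at h2
      have h3 : 0 < s.card := Finset.card_pos.2 ⟨y, hy⟩
      omega
  · refine natDegree_mul_le.trans ?_
    rw [natDegree_C, zero_add]
    exact ZRP_deg s f
  · intro t ht
    have e1 : ∀ s' : Finset ι, (∏ y ∈ s', (X - C (f y)) ^ 2).eval t = ∏ y ∈ s', (t - f y) ^ 2 := by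
      intro s'
      rw [eval_prod]
      simp
    have hP : ∏ y ∈ s, (t - f y) ^ 2 ≠ 0 :=
      Finset.prod_ne_zero_iff.2 fun y hy => pow_ne_zero 2 (ht y hy)
    refine ⟨?_, fun F hF => ?_⟩
    · rw [eval_mul, eval_C, e1]
      exact mul_ne_zero (mul_ne_zero hM hγ) hP
    · rw [eval_mul, eval_C, e1, eval_add, eval_mul, e1, eval_finsetSum]
      have e2 : ∀ y ∈ s, (C (1 / 2) * ZRQ g2 g3 (f y) * ∏ z ∈ s.erase y, (X - C (f z)) ^ 2).eval t =
          1 / 2 * (((2 * t * f y - g2 / 2) * (t + f y) - g3) / (t - f y) ^ 2) *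
            ∏ y ∈ s, (t - f y) ^ 2 := by
        intro y hy
        rw [eval_mul, eval_mul, eval_C, ZRQ_eval, e1, ← Finset.mul_prod_erase s _ hy]
        have := ht y hy
        field_simp
      rw [Finset.sum_congr rfl e2, ← Finset.sum_mul, ← Finset.mul_sum]
      simp only [eval_add, eval_mul, eval_C, eval_X]
      linear_combination (1 / 2 * ∏ y ∈ s, (t - f y) ^ 2) * hF

private theorem ZRat_key {a b a' b' β : ℂ} (h : Ind a b) (h' : Ind a' b') (hβ : β ≠ 0) {N : ℕ}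
    (hN : 0 < N) (hm : LatMap β a b a' b')
    (hm' : ∀ y : ℤ × ℤ, ∃ x : ℤ × ℤ, (N : ℂ) * lat a' b' y = β * lat a b x) :
    ∃ A B : ℂ[X], A.natDegree ≤ 2 * N ^ 2 ∧ B.natDegree ≤ 2 * N ^ 2 ∧
      ∀ z, Off a' b' (β * z) → B.eval (wp a b z) ≠ 0 ∧
        wp a' b' (β * z) * B.eval (wp a b z) = A.eval (wp a b z) := by
  classical
  have _i : NeZero N := ⟨hN.ne'⟩
  have hs : ∀ x : ℤ × ℤ, ∃ y : ℤ × ℤ, lat a b x = lat (β⁻¹ * a') (β⁻¹ * b') y := by
    intro x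
    obtain ⟨y, hy⟩ := hm x
    refine ⟨y, ?_⟩
    rw [ZRat_lat_smul, ← hy, ← mul_assoc, inv_mul_cancel₀ hβ, one_mul]
  have hs' : ∀ y : ℤ × ℤ, ∃ x : ℤ × ℤ, (N : ℂ) * lat (β⁻¹ * a') (β⁻¹ * b') y = lat a b x := by
    intro y
    obtain ⟨x, hx⟩ := hm' y
    refine ⟨x, ?_⟩
    rw [ZRat_lat_smul, mul_left_comm, hx, ← mul_assoc, inv_mul_cancel₀ hβ, one_mul]
  obtain ⟨c, hc⟩ := ZRat_const (N := N) h h' hβ hs hs'
  have hpos : 0 < (ZRK N a b (β⁻¹ * a') (β⁻¹ * b'))ᶜ.card := by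
    refine Finset.card_pos.2 ⟨0, Finset.mem_compl.2 fun h0 => ?_⟩
    have h1 := ZRat_mem.1 h0
    refine h1 0 ?_
    simp [ZRL, lat]
  have hM : ((ZRK N a b (β⁻¹ * a') (β⁻¹ * b'))ᶜ.card : ℂ) ≠ 0 := by
    exact_mod_cast hpos.ne'
  have hcard : 2 * (ZRK N a b (β⁻¹ * a') (β⁻¹ * b')).card + 1 ≤ 2 * N ^ 2 := by
    have h1 := Finset.card_add_card_compl (ZRK N a b (β⁻¹ * a') (β⁻¹ * b'))
    rw [Fintype.card_prod, ZMod.card, ← pow_two] at h1
    omega
  obtain ⟨A, B, hA, hB, hAB⟩ := ZRat_rat (ZRK N a b (β⁻¹ * a') (β⁻¹ * b'))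
    (fun y => wp a b (ZRL (β⁻¹ * a') (β⁻¹ * b') y)) _ c (G2 a b) (G3 a b) (β ^ 2) hM
    (pow_ne_zero 2 hβ)
  have key : ∀ z, Off (β⁻¹ * a') (β⁻¹ * b') z → B.eval (wp a b z) ≠ 0 ∧
      wp a' b' (β * z) * B.eval (wp a b z) = A.eval (wp a b z) := by
    intro z hz
    have h1 := hAB (wp a b z) (fun y hy => ZRat_ne h hs hz hy)
    refine ⟨h1.1, h1.2 _ ?_⟩
    have h2 := hc z hz
    have h3 := ZRat_T_eq h hs hs' hz
    linear_combination 2 * h2 + h3
  refine ⟨A, B, hA.trans ?_, hB.trans ?_, fun z hz => key z ((ZRat_off_smul hβ).2 hz)⟩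
  · omega
  · omega

theorem exists_rat {a b a' b' β : ℂ} (h : Ind a b) (h' : Ind a' b') (hβ : β ≠ 0) {N : ℕ}
    (hN : 0 < N) (hm : LatMap β a b a' b')
    (hm' : ∀ y : ℤ × ℤ, ∃ x : ℤ × ℤ, (N : ℂ) * lat a' b' y = β * lat a b x) :
    ∃ A B : ℂ[X], IsCoprime A B ∧ A ≠ 0 ∧ B ≠ 0 ∧ A.natDegree ≤ 2 * N ^ 2 ∧
      B.natDegree ≤ 2 * N ^ 2 ∧
      (∀ z, Off a b z → Off a' b' (β * z) → B.eval (wp a b z) ≠ 0 ∧
        wp a' b' (β * z) * B.eval (wp a b z) = A.eval (wp a b z)) ∧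
      ∀ z, Off a b z → ¬ Off a' b' (β * z) → B.eval (wp a b z) = 0 := by
  obtain ⟨A₀, B₀, hA₀, hB₀, hkey⟩ := ZRat_key h h' hβ hN hm hm'
  -- a point off both lattices
  obtain ⟨y₀, hy₀⟩ := IsAlgClosed.exists_pow_nat_eq (4 * (1 : ℂ) ^ 3 - G2 a' b' * 1 - G3 a' b')
    (n := 2) (by norm_num)
  obtain ⟨u₀, hu₀, hu₁, -⟩ := exists_wp_eq h' hy₀
  have hz₀' : β * (β⁻¹ * u₀) = u₀ := by rw [← mul_assoc, mul_inv_cancel₀ hβ, one_mul]
  have hB₀0 : B₀ ≠ 0 := by
    intro h0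
    have h1 := (hkey (β⁻¹ * u₀) (by rw [hz₀']; exact hu₀)).1
    rw [h0, eval_zero] at h1
    exact h1 rfl
  have hA₀0 : A₀ ≠ 0 := by
    intro h0
    have h1 := hkey (β⁻¹ * u₀) (by rw [hz₀']; exact hu₀)
    rw [h0, eval_zero, hz₀', hu₁, one_mul] at h1
    exact h1.1 h1.2
  -- lowest terms
  obtain ⟨g, A, B, hg, hcop, rfl, rfl⟩ : ∃ g A B : ℂ[X], g ≠ 0 ∧ IsCoprime A B ∧ A₀ = g * A ∧
      B₀ = g * B := by
    have hg : EuclideanDomain.gcd A₀ B₀ ≠ 0 := fun h0 =>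
      hB₀0 (EuclideanDomain.gcd_eq_zero_iff.1 h0).2
    obtain ⟨A, hA⟩ := EuclideanDomain.gcd_dvd_left A₀ B₀
    obtain ⟨B, hB⟩ := EuclideanDomain.gcd_dvd_right A₀ B₀
    refine ⟨EuclideanDomain.gcd A₀ B₀, A, B, hg, ?_, hA, hB⟩
    have h1 := EuclideanDomain.gcd_eq_gcd_ab A₀ B₀
    refine ⟨EuclideanDomain.gcdA A₀ B₀, EuclideanDomain.gcdB A₀ B₀, ?_⟩
    apply mul_left_cancel₀ hg
    generalize EuclideanDomain.gcd A₀ B₀ = g at *
    generalize EuclideanDomain.gcdA A₀ B₀ = u at *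
    generalize EuclideanDomain.gcdB A₀ B₀ = v at *
    rw [mul_one]
    calc g * (u * A + v * B) = (g * A) * u + (g * B) * v := by ring
      _ = g := by rw [← hA, ← hB, ← h1]
  have hA0 : A ≠ 0 := right_ne_zero_of_mul hA₀0
  have hB0 : B ≠ 0 := right_ne_zero_of_mul hB₀0
  have hmain : ∀ z, Off a b z → Off a' b' (β * z) → B.eval (wp a b z) ≠ 0 ∧
      wp a' b' (β * z) * B.eval (wp a b z) = A.eval (wp a b z) := by
    intro z _ hz'
    obtain ⟨h1, h2⟩ := hkey z hz'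
    rw [eval_mul] at h1 h2
    rw [eval_mul] at h2
    refine ⟨right_ne_zero_of_mul h1, ?_⟩
    apply mul_left_cancel₀ (left_ne_zero_of_mul h1)
    linear_combination h2
  refine ⟨A, B, hcop, hA0, hB0, ?_, ?_, hmain, ?_⟩
  · rw [natDegree_mul hg hA0] at hA₀
    omega
  · rw [natDegree_mul hg hB0] at hB₀
    omega
  · intro z hz hz'
    obtain ⟨w, hw⟩ := Hom.not_off hz'
    -- `u = β y - lat w`
    have t0 : Tendsto (fun y : ℂ => β * y - lat a' b' w) (𝓝[≠] z) (𝓝[≠] 0) := by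
      rw [tendsto_nhdsWithin_iff]
      constructor
      · have hc : Continuous (fun y : ℂ => β * y - lat a' b' w) := by fun_prop
        have h1 := hc.tendsto z
        rw [hw, sub_self] at h1
        exact h1.mono_left nhdsWithin_le_nhds
      · filter_upwards [self_mem_nhdsWithin] with y hy h0
        apply hy
        have h1 : β * y = β * z := by rw [hw]; exact sub_eq_zero.1 h0
        exact mul_left_cancel₀ hβ h1
    have t1 := (Add.tendsto_wp_sub h').comp t0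
    have t2 : Tendsto (fun y : ℂ => (β * y - lat a' b' w) ^ 2) (𝓝[≠] z) (𝓝 0) := by
      have h1 := (t0.mono_right nhdsWithin_le_nhds).pow 2
      rwa [zero_pow (two_ne_zero)] at h1
    have t3 := (t2.mul t1).add_const (1 : ℂ)
    rw [mul_zero, zero_add] at t3
    have cont : ∀ p : ℂ[X], Tendsto (fun y => p.eval (wp a b y)) (𝓝[≠] z)
        (𝓝 (p.eval (wp a b z))) := by
      intro p
      have h1 : ContinuousAt (wp a b) z := (hasDerivAt_wp h hz).continuousAt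
      have h2 : ContinuousAt (fun y => p.eval (wp a b y)) z :=
        (p.continuous.continuousAt).comp h1
      exact h2.tendsto.mono_left nhdsWithin_le_nhds
    have t4 := t3.mul (cont B)
    have t5 := t2.mul (cont A)
    rw [one_mul] at t4
    rw [zero_mul] at t5
    have hev : (fun y : ℂ => ((β * y - lat a' b' w) ^ 2 *
        (((fun z => wp a' b' z - 1 / z ^ 2) ∘ fun y : ℂ => β * y - lat a' b' w) y) + 1) *
          B.eval (wp a b y)) =ᶠ[𝓝[≠] z] fun y => (β * y - lat a' b' w) ^ 2 * A.eval (wp a b y) := by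
      have e1 : ∀ᶠ y in 𝓝[≠] z, Off a b y :=
        nhdsWithin_le_nhds ((isOpen_off h).mem_nhds hz)
      have e2 : ∀ᶠ y in 𝓝[≠] z, Off a' b' (β * y) := by
        have h1 := t0.eventually (Basic.eventually_off h' 0)
        filter_upwards [h1] with y hy
        have h2 : β * y = (β * y - lat a' b' w) + lat a' b' w := by ring
        rw [h2, off_add_lat]
        exact hy
      have e3 : ∀ᶠ y in 𝓝[≠] z, β * y - lat a' b' w ≠ 0 := by
        have := t0.eventually (self_mem_nhdsWithin)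
        filter_upwards [this] with y hy
        exact hy
      filter_upwards [e1, e2, e3] with y h1 h2 h3
      have h4 := (hmain y h1 h2).2
      have h5 : wp a' b' (β * y - lat a' b' w) = wp a' b' (β * y) := by
        rw [sub_eq_add_neg, ← Pool.Agent.EllSch.lat_neg, wp_add_lat h']
      simp only [Function.comp_apply]
      rw [h5, ← h4]
      field_simp
      ring
    exact tendsto_nhds_unique (t4.congr' hev) t5

private theorem ZRat_conv {f : ℂ → ℂ} {z : ℂ} (han : AnalyticAt ℂ f z)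
    (hle : analyticOrderAt f z ≤ 2) : meromorphicOrderAt f z ≤ 2 := by
  rw [han.meromorphicOrderAt_eq]
  have hne : analyticOrderAt f z ≠ ⊤ := ne_top_of_le_ne_top (by simp) hle
  obtain ⟨n, hn⟩ := ENat.ne_top_iff_exists.1 hne
  rw [← hn] at hle ⊢
  have hn2 : n ≤ 2 := by exact_mod_cast hle
  rw [ENat.map_natCast]
  have h9 : (((n : ℕ) : ℤ) : WithTop ℤ) ≤ ((2 : ℤ) : WithTop ℤ) := WithTop.coe_le_coe.2 (by exact_mod_cast hn2)
  exact h9

private theorem ZRat_ord {a b β : ℂ} (h : Ind a b) (hβ : β ≠ 0) {z : ℂ} (hz : Off a b (β * z))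
    (c : ℂ) : AnalyticAt ℂ (fun y => wp a b (β * y) - c) z ∧
      analyticOrderAt (fun y => wp a b (β * y) - c) z ≤ 2 := by
  have hlin : AnalyticAt ℂ (fun y : ℂ => β * y) z := analyticAt_const.mul analyticAt_id
  have han : AnalyticAt ℂ (fun y => wp a b (β * y) - c) z := by
    have h1 : AnalyticAt ℂ (wp a b) (β * z) := analyticOnNhd_wp h _ hz
    exact (h1.fun_comp hlin).sub analyticAt_const
  refine ⟨han, ?_⟩
  have hmul : ∀ u : ℂ, HasDerivAt (fun y : ℂ => β * y) β u := by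
    intro u
    simpa using (hasDerivAt_id u).const_mul β
  have hopen : ∀ᶠ u in 𝓝 z, Off a b (β * u) := by
    have hc : Continuous (fun y : ℂ => β * y) := by fun_prop
    exact ((isOpen_off h).preimage hc).mem_nhds hz
  have hd1 : deriv (fun y => wp a b (β * y) - c) =ᶠ[𝓝 z] fun y => wq a b (β * y) * β := by
    filter_upwards [hopen] with u hu
    exact (((hasDerivAt_wp h hu).comp u (hmul u)).sub_const c).deriv
  have hd2 : deriv (deriv (fun y => wp a b (β * y) - c)) z =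
      (6 * wp a b (β * z) ^ 2 - G2 a b / 2) * β * β := by
    rw [hd1.deriv_eq]
    exact (((hasDerivAt_wq h hz).comp z (hmul z)).mul_const β).deriv
  by_contra hlt
  push Not at hlt
  have h3 : ((3 : ℕ) : ℕ∞) ≤ analyticOrderAt (fun y => wp a b (β * y) - c) z := by
    have := Order.add_one_le_of_lt hlt
    exact_mod_cast this
  have h4 := (natCast_le_analyticOrderAt_iff_iteratedDeriv_eq_zero han).1 h3
  have h5 := h4 1 (by norm_num)
  have h6 := h4 2 (by norm_num)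
  rw [iteratedDeriv_one] at h5
  rw [iteratedDeriv_succ, iteratedDeriv_one, hd2] at h6
  rw [hd1.eq_of_nhds] at h5
  have h5' : wq a b (β * z) = 0 := (mul_eq_zero.1 h5).resolve_right hβ
  have h6' : 6 * wp a b (β * z) ^ 2 - G2 a b / 2 = 0 :=
    (mul_eq_zero.1 ((mul_eq_zero.1 h6).resolve_right hβ)).resolve_right hβ
  have h7 := ode h hz
  refine disc_ne_zero h ?_
  have g2 : G2 a b = 12 * wp a b (β * z) ^ 2 := by
    linear_combination (-2) * h6'
  have g3 : G3 a b = -8 * wp a b (β * z) ^ 3 := by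
    rw [h5', g2] at h7
    linear_combination h7
  rw [g2, g3]
  ring

/-- the order of `℘ - c` at a point off the lattice is at most `2` -/
theorem order_wp_le {a b : ℂ} (h : Ind a b) {z : ℂ} (hz : Off a b z) (c : ℂ) :
    meromorphicOrderAt (fun y => wp a b y - c) z ≤ 2 := by
  have h1 := ZRat_ord h one_ne_zero (z := z) (by rwa [one_mul]) c
  simp only [one_mul] at h1
  exact ZRat_conv h1.1 h1.2

theorem ord_rat {a b a' b' β : ℂ} (h : Ind a b) (h' : Ind a' b') (hβ : β ≠ 0) {A B : ℂ[X]}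
    (hAB : IsCoprime A B)
    (h1 : ∀ z, Off a b z → Off a' b' (β * z) → B.eval (wp a b z) ≠ 0 ∧
      wp a' b' (β * z) * B.eval (wp a b z) = A.eval (wp a b z))
    (h2 : ∀ z, Off a b z → ¬ Off a' b' (β * z) → B.eval (wp a b z) = 0) {z : ℂ}
    (hz : Off a b z) : meromorphicOrderAt (fun y => A.eval (wp a b y)) z ≤ 2 := by
  have hwp : AnalyticAt ℂ (wp a b) z := analyticOnNhd_wp h z hz
  have han : ∀ p : ℂ[X], AnalyticAt ℂ (fun y => p.eval (wp a b y)) z := by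
    intro p
    have h3 : AnalyticAt ℂ (fun x => p.eval x) (wp a b z) := by
      have := AnalyticOnNhd.eval_polynomial (𝕜 := ℂ) (A := ℂ) p
      exact this _ (Set.mem_univ _)
    exact h3.fun_comp hwp
  apply ZRat_conv (han A)
  by_cases hB : B.eval (wp a b z) = 0
  · obtain ⟨u, v, huv⟩ := hAB
    have hA : A.eval (wp a b z) ≠ 0 := by
      intro h0
      have h3 := congrArg (Polynomial.eval (wp a b z)) huv
      rw [eval_add, eval_mul, eval_mul, h0, hB, mul_zero, mul_zero, add_zero, eval_one] at h3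
      exact zero_ne_one h3
    rw [(han A).analyticOrderAt_eq_zero.2 hA]
    exact bot_le
  · have hz' : Off a' b' (β * z) := by
      by_contra hcon
      exact hB (h2 z hz hcon)
    have h3 := ZRat_ord h' hβ hz' 0
    simp only [sub_zero] at h3
    have hev : (fun y => A.eval (wp a b y)) =ᶠ[𝓝 z]
        (fun y => wp a' b' (β * y)) * fun y => B.eval (wp a b y) := by
      have hc : Continuous (fun y : ℂ => β * y) := by fun_prop
      filter_upwards [(isOpen_off h).mem_nhds hz, ((isOpen_off h').preimage hc).mem_nhds hz'] with y hy hy'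
      exact (h1 y hy hy').2.symm
    rw [analyticOrderAt_congr hev, analyticOrderAt_mul h3.1 (han B),
      (han B).analyticOrderAt_eq_zero.2 hB, add_zero]
    exact h3.2

end Pool.Agent.LGO.F
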