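import Mathlib
import Pool.Agent.LGO.A.BsProd
import Pool.Agent.LGO.A.BsG
import Pool.Agent.LGO.A.MulIu
import Pool.Agent.LGO.F.ZRat

/-!
# LGO/F (note 3060, zero estimate): `1 / ℘` as a quotient of entire functions without common zeros

PROOF of `exists_en`.  For the lattice `ℤ + ℤ τ`, `Im τ > 0`: the entire function `S` in the proof of `sprod` (`LGO/A/BsProd.lean`) is
`(sin (π z) / π) ∏_(n ≥ 1) (1 - q^n u) (1 - q^n / u) / (1 - q^n)²`, `u = exp (2 π i z)`: it vanishes exactly at the lattice points
(copy the proof of `sprod` and add: off the lattice no factor vanishes, and the infinite product of nonzero factors `1 + f_n` with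
`∑ ‖f_n‖ < ∞` is not zero: `tprod_one_add_ne_zero_of_summable`), the zero at `0` is simple (`S'(0) = 1`), and by the
quasi-periodicity `S(z + 1) = - S(z)`, `S(z + τ) = - exp(..) S(z)` all zeros are simple.  `s = S²`, `e = S² ℘` off the lattice, `S'²` on it:
entire (`BsG_ext`, `BsG_ext_diff` in `LGO/A/BsG.lean`), not zero at the lattice points.  General lattice `ℤ a + ℤ b` with `Ind a b`: if
`Im (b / a) > 0` scale (`℘_(cΛ)(c z) = c⁻² ℘_Λ(z)`), else exchange `a` and `b` (`wp a b = wp b a`).
`EN.order_e`: at a lattice point `e ≠ 0`; off the lattice `e = s ℘`, `s ≠ 0`, and `℘` has order `≤ 2` (`order_wp_le` with `c = 0`).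
`EN.eq_iu`: `s = e iu` where `℘ ≠ 0` or at the lattice points (`iu = 0`, `s = 0`).
-/

namespace Pool.Agent.LGO.F

open Pool.Agent.EllSch Pool.Agent.LGO.Mul Filter Topology

/-- `s / e = 1 / ℘` with entire functions `s`, `e` without common zeros -/
structure EN (a b : ℂ) (s e : ℂ → ℂ) : Prop where
  ds : Differentiable ℂ s
  de : Differentiable ℂ e
  off : ∀ z, Off a b z → e z = s z * wp a b z
  s0 : ∀ z, Off a b z → s z ≠ 0
  on : ∀ z, ¬ Off a b z → s z = 0 ∧ e z ≠ 0

private theorem ZEnt_fac {x w : ℂ} (hx : x ≠ 1) (hw : w ≠ 0)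
    (h : 1 + x / (1 - x) ^ 2 * (2 - w - w⁻¹) = 0) : x * w = 1 ∨ w = x := by
  have h1 : (1 - x) ≠ 0 := sub_ne_zero.2 (Ne.symm hx)
  have h2 : (x * w - 1) * (w - x) = 0 := by
    field_simp at h
    linear_combination -h
  rcases mul_eq_zero.1 h2 with h3 | h3
  · exact Or.inl (sub_eq_zero.1 h3)
  · exact Or.inr (sub_eq_zero.1 h3)

private theorem ZEnt_exp {z z' : ℂ} (h : Complex.exp (2 * Real.pi * Complex.I * z) =
    Complex.exp (2 * Real.pi * Complex.I * z')) : ∃ m : ℤ, z = m + z' := by
  obtain ⟨n, hn⟩ := Complex.exp_eq_exp_iff_exists_int.1 h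
  refine ⟨n, ?_⟩
  have h1 : (2 * Real.pi * Complex.I : ℂ) ≠ 0 := Complex.two_pi_I_ne_zero
  apply mul_left_cancel₀ h1
  linear_combination hn

private theorem ZEnt_q (τ : ℂ) (n : ℕ) : Complex.exp (2 * Real.pi * Complex.I * τ) ^ (n + 1) =
    Complex.exp (2 * Real.pi * Complex.I * (((n : ℂ) + 1) * τ)) := by
  rw [← Complex.exp_nat_mul]
  congr 1
  push_cast
  ring

/-- the coefficients of the product -/
private noncomputable def ZEnt_c (τ : ℂ) (n : ℕ) : ℂ :=
  Complex.exp (2 * Real.pi * Complex.I * τ) ^ (n + 1) /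
    (1 - Complex.exp (2 * Real.pi * Complex.I * τ) ^ (n + 1)) ^ 2

private theorem ZEnt_norm_lt {τ : ℂ} (h : 0 < τ.im) :
    ‖Complex.exp (2 * Real.pi * Complex.I * τ)‖ < 1 := by
  rw [Complex.norm_exp]
  have h1 : (2 * Real.pi * Complex.I * τ).re = -(2 * Real.pi * τ.im) := by simp
  rw [h1, Real.exp_lt_one_iff]
  have : 0 < 2 * Real.pi * τ.im := by positivity
  linarith

private theorem ZEnt_ne_one {τ : ℂ} (h : 0 < τ.im) (n : ℕ) :
    Complex.exp (2 * Real.pi * Complex.I * τ) ^ (n + 1) ≠ 1 := by
  intro h1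
  have h2 := congrArg norm h1
  rw [norm_pow, norm_one] at h2
  exact (pow_lt_one₀ (norm_nonneg _) (ZEnt_norm_lt h) (Nat.succ_ne_zero n)).ne h2

private theorem ZEnt_summable {τ : ℂ} (h : 0 < τ.im) : Summable fun n => ‖ZEnt_c τ n‖ := by
  set r := ‖Complex.exp (2 * Real.pi * Complex.I * τ)‖ with hr
  have hr1 : r < 1 := ZEnt_norm_lt h
  have hr0 : 0 ≤ r := norm_nonneg _
  have h1 : Summable fun n : ℕ => r ^ (n + 1) / (1 - r) ^ 2 := by
    apply Summable.div_const
    exact (summable_nat_add_iff 1).2 (summable_geometric_of_lt_one hr0 hr1)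
  refine Summable.of_nonneg_of_le (fun n => norm_nonneg _) (fun n => ?_) h1
  unfold ZEnt_c
  rw [norm_div, norm_pow, norm_pow, ← hr]
  have h2 : 1 - r ≤ ‖1 - Complex.exp (2 * Real.pi * Complex.I * τ) ^ (n + 1)‖ := by
    have h3 := norm_sub_norm_le (1 : ℂ) (Complex.exp (2 * Real.pi * Complex.I * τ) ^ (n + 1))
    rw [norm_one, norm_pow, ← hr] at h3
    have h4 : r ^ (n + 1) ≤ r := pow_le_of_le_one hr0 hr1.le (Nat.succ_ne_zero n)
    linarith
  have h5 : 0 < 1 - r := by linarith
  gcongr

/-- a factor of the product vanishes only at lattice points -/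
private theorem ZEnt_zero {τ z : ℂ} (h : 0 < τ.im) (n : ℕ)
    (h0 : 1 + ZEnt_c τ n * (4 * Complex.sin (Real.pi * z) ^ 2) = 0) :
    ∃ m : ℤ, z = m + ((n : ℂ) + 1) * τ ∨ z = m - ((n : ℂ) + 1) * τ := by
  rw [Bs.BsProd_sin_sq, ZEnt_c] at h0
  rcases ZEnt_fac (ZEnt_ne_one h n) (Complex.exp_ne_zero _) h0 with h1 | h1
  · rw [ZEnt_q, ← Complex.exp_add] at h1
    have h2 : Complex.exp (2 * Real.pi * Complex.I * (((n : ℂ) + 1) * τ + z)) =
        Complex.exp (2 * Real.pi * Complex.I * 0) := by
      rw [mul_add, mul_zero, Complex.exp_zero]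
      exact h1
    obtain ⟨m, hm⟩ := ZEnt_exp h2
    exact ⟨m, Or.inr (by linear_combination hm)⟩
  · rw [ZEnt_q] at h1
    obtain ⟨m, hm⟩ := ZEnt_exp h1
    exact ⟨m, Or.inl hm⟩

private theorem ZEnt_vanish {τ : ℂ} (h : 0 < τ.im) (m n : ℤ) (k : ℕ) (hk : n.natAbs = k + 1) :
    1 + ZEnt_c τ k * (4 * Complex.sin (Real.pi * ((m : ℂ) + n * τ)) ^ 2) = 0 := by
  rw [Bs.BsProd_sin_sq, Bs.BsProd_exp_zpow, ZEnt_c]
  set q := Complex.exp (2 * Real.pi * Complex.I * τ) with hq
  have h1 : 2 - q ^ n - (q ^ n)⁻¹ = 2 - q ^ (k + 1) - (q ^ (k + 1))⁻¹ := by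
    rcases Int.natAbs_eq n with h2 | h2
    · rw [h2, hk, zpow_natCast]
    · rw [h2, hk, zpow_neg, zpow_natCast, inv_inv]
      ring
  rw [h1]
  exact Bs.BsProd_coeff _ (pow_ne_zero _ (Complex.exp_ne_zero _)) (ZEnt_ne_one h k)

private theorem ZEnt_split (c : ℕ → ℂ) (hc : Summable fun n => ‖c n‖) (k : ℕ) (s : ℂ) :
    ∏' n, (1 + c n * s) = (1 + c k * s) * ∏' n, (1 + (if n = k then 0 else c n) * s) := by
  have hc' : Summable fun n => ‖(if n = k then 0 else c n) * s‖ := by
    refine Summable.of_nonneg_of_le (fun n => norm_nonneg _) (fun n => ?_) (hc.mul_right ‖s‖)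
    rw [norm_mul]
    apply mul_le_mul_of_nonneg_right _ (norm_nonneg _)
    split_ifs
    · rw [norm_zero]; exact norm_nonneg _
    · exact le_rfl
  have e1 : Function.update (fun n => 1 + c n * s) k 1 =
      fun n => 1 + (if n = k then 0 else c n) * s := by
    funext n
    by_cases hn : n = k
    · subst hn
      rw [Function.update_self, if_pos rfl, zero_mul, add_zero]
    · rw [Function.update_of_ne hn, if_neg hn]
  have h1 := Multipliable.tprod_eq_mul_tprod_ite' (L := SummationFilter.unconditional ℕ)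
    (f := fun n => 1 + c n * s) k (by
      rw [e1]
      exact multipliable_one_add_of_summable hc')
  rw [h1]
  congr 1
  refine tprod_congr fun n => ?_
  by_cases hn : n = k
  · rw [if_pos hn, if_pos hn, zero_mul, add_zero]
  · rw [if_neg hn, if_neg hn]

private theorem ZEnt_sprod {τ : ℂ} (h : 0 < τ.im) : ∃ S : ℂ → ℂ, Differentiable ℂ S ∧
    (∀ m n : ℤ, S (m + n * τ) = 0) ∧ (∀ z, Off 1 τ z → S z ≠ 0) ∧
    ∀ m n : ℤ, deriv S (m + n * τ) ≠ 0 := by
  have hsum := ZEnt_summable h
  have hpi : (Real.pi : ℂ) ≠ 0 := by exact_mod_cast Real.pi_ne_zero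
  set c := ZEnt_c τ with hcdef
  set G : ℂ → ℂ := fun s => ∏' n, (1 + c n * s) with hG
  have hGd : Differentiable ℂ G := Bs.BsProd_entire c hsum
  have hSd : Differentiable ℂ fun z : ℂ => G (4 * Complex.sin (Real.pi * z) ^ 2) :=
    hGd.comp (by fun_prop)
  have hsin : ∀ z : ℂ, Complex.sin (Real.pi * z) = 0 → ∃ m : ℤ, z = m := by
    intro z hz
    obtain ⟨k, hk⟩ := Complex.sin_eq_zero_iff.1 hz
    refine ⟨k, ?_⟩
    apply mul_left_cancel₀ hpi
    rw [hk]
    ring
  have hsin' : ∀ m : ℤ, Complex.sin (Real.pi * (m : ℂ)) = 0 := by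
    intro m
    rw [mul_comm]
    exact Complex.sin_int_mul_pi m
  have hds : ∀ z : ℂ, HasDerivAt (fun z : ℂ => Complex.sin (Real.pi * z) / Real.pi)
      (Complex.cos (Real.pi * z)) z := by
    intro z
    have h2 : HasDerivAt (fun z : ℂ => Complex.sin (Real.pi * z))
        (Complex.cos (Real.pi * z) * (Real.pi * 1)) z :=
      (Complex.hasDerivAt_sin _).comp z ((hasDerivAt_id z).const_mul (Real.pi : ℂ))
    have h3 := h2.div_const (Real.pi : ℂ)
    rwa [mul_one, mul_div_cancel_right₀ _ hpi] at h3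
  refine ⟨fun z => Complex.sin (Real.pi * z) / Real.pi * G (4 * Complex.sin (Real.pi * z) ^ 2),
    ?_, ?_, ?_, ?_⟩
  · exact (by fun_prop : Differentiable ℂ fun z : ℂ => Complex.sin (Real.pi * z) / Real.pi).mul hSd
  · intro m n
    by_cases hn : n = 0
    · subst hn
      have h1 : Complex.sin (Real.pi * ((m : ℂ) + ((0 : ℤ) : ℂ) * τ)) = 0 := by
        rw [Int.cast_zero, zero_mul, add_zero]
        exact hsin' m
      simp only [h1]
      simp
    · obtain ⟨k, hk⟩ : ∃ k : ℕ, n.natAbs = k + 1 :=
        Nat.exists_eq_succ_of_ne_zero (by simpa using hn)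
      have h2 : G (4 * Complex.sin (Real.pi * ((m : ℂ) + n * τ)) ^ 2) = 0 := by
        rw [hG]
        exact tprod_of_exists_eq_zero ⟨k, ZEnt_vanish h m n k hk⟩
      simp only [h2, mul_zero]
  · intro z hz
    refine mul_ne_zero (div_ne_zero (fun h0 => ?_) hpi) ?_
    · obtain ⟨m, hm⟩ := hsin z h0
      refine hz (m, 0) ?_
      rw [hm]
      simp [lat]
    · rw [hG]
      refine tprod_one_add_ne_zero_of_summable
        (f := fun n => c n * (4 * Complex.sin (Real.pi * z) ^ 2)) (fun n h0 => ?_) ?_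
      · obtain ⟨m, hm | hm⟩ := ZEnt_zero h n h0
        · refine hz (m, (n : ℤ) + 1) ?_
          rw [hm]
          simp [lat]
        · refine hz (m, -((n : ℤ) + 1)) ?_
          rw [hm]
          simp only [lat]
          push_cast
          ring
      · simp only [norm_mul]
        exact hsum.mul_right _
  · intro m n
    by_cases hn : n = 0
    · subst hn
      rw [Int.cast_zero, zero_mul, add_zero]
      have h6 := (hds (m : ℂ)).mul (hSd (m : ℂ)).hasDerivAt
      have h7 : G (4 * Complex.sin (Real.pi * (m : ℂ)) ^ 2) = 1 := by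
        rw [hsin', hG]
        simp
      rw [h7, hsin', zero_div, zero_mul, add_zero, mul_one] at h6
      rw [show deriv (fun z => Complex.sin (Real.pi * z) / Real.pi *
        G (4 * Complex.sin (Real.pi * z) ^ 2)) (m : ℂ) = Complex.cos (Real.pi * m) from h6.deriv]
      intro h8
      have h9 := Complex.sin_sq_add_cos_sq (Real.pi * m)
      rw [hsin', h8] at h9
      norm_num at h9
    · obtain ⟨k, hk⟩ : ∃ k : ℕ, n.natAbs = k + 1 :=
        Nat.exists_eq_succ_of_ne_zero (by simpa using hn)
      set z₀ : ℂ := (m : ℂ) + n * τ with hz₀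
      set c' : ℕ → ℂ := fun j => if j = k then 0 else c j with hc'
      have hsum' : Summable fun j => ‖c' j‖ := by
        refine Summable.of_nonneg_of_le (fun j => norm_nonneg _) (fun j => ?_) hsum
        rw [hc']
        dsimp only
        split_ifs
        · rw [norm_zero]; exact norm_nonneg _
        · exact le_rfl
      have hHd : Differentiable ℂ (fun s : ℂ => ∏' j, (1 + c' j * s)) := Bs.BsProd_entire c' hsum'
      have hHd' : Differentiable ℂ
          fun z : ℂ => ∏' j, (1 + c' j * (4 * Complex.sin (Real.pi * z) ^ 2)) :=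
        hHd.comp (by fun_prop : Differentiable ℂ fun z : ℂ => 4 * Complex.sin (Real.pi * z) ^ 2)
      have hsp : ∀ z : ℂ, G (4 * Complex.sin (Real.pi * z) ^ 2) =
          (1 + c k * (4 * Complex.sin (Real.pi * z) ^ 2)) *
            ∏' j, (1 + c' j * (4 * Complex.sin (Real.pi * z) ^ 2)) := fun z =>
        ZEnt_split c hsum k _
      have hv : 1 + c k * (4 * Complex.sin (Real.pi * z₀) ^ 2) = 0 := ZEnt_vanish h m n k hk
      -- not a real number
      have him : ∀ m' : ℤ, z₀ ≠ m' := by
        intro m' h1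
        have h2 := congrArg Complex.im h1
        rw [hz₀] at h2
        simp only [Complex.add_im, Complex.intCast_im, Complex.mul_im, Complex.intCast_re,
          zero_mul, add_zero, zero_add] at h2
        rcases mul_eq_zero.1 h2 with h3 | h3
        · exact hn (by exact_mod_cast h3)
        · exact h.ne' h3
      have hs0 : Complex.sin (Real.pi * z₀) ≠ 0 := by
        intro h1
        obtain ⟨m', hm'⟩ := hsin _ h1
        exact him m' hm'
      have hck : c k ≠ 0 := by
        intro h1
        rw [h1, zero_mul, add_zero] at hv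
        exact one_ne_zero hv
      have hcos : Complex.cos (Real.pi * z₀) ≠ 0 := by
        intro h1
        obtain ⟨k', hk'⟩ := Complex.cos_eq_zero_iff.1 h1
        have h2 := congrArg Complex.im hk'
        rw [Complex.im_ofReal_mul] at h2
        have h3 : ((2 * (k' : ℂ) + 1) * Real.pi / 2).im = 0 := by
          have : ((2 * (k' : ℂ) + 1) * Real.pi / 2) = (((2 * (k' : ℝ) + 1) * Real.pi / 2 : ℝ) : ℂ) := by
            push_cast
            ring
          rw [this, Complex.ofReal_im]
        rw [h3] at h2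
        rcases mul_eq_zero.1 h2 with h4 | h4
        · exact Real.pi_ne_zero h4
        · rw [hz₀] at h4
          simp only [Complex.add_im, Complex.intCast_im, Complex.mul_im, Complex.intCast_re,
            zero_mul, add_zero, zero_add] at h4
          rcases mul_eq_zero.1 h4 with h5 | h5
          · exact hn (by exact_mod_cast h5)
          · exact h.ne' h5
      have hH0 : (∏' j, (1 + c' j * (4 * Complex.sin (Real.pi * z₀) ^ 2))) ≠ 0 := by
        refine tprod_one_add_ne_zero_of_summable
          (f := fun j => c' j * (4 * Complex.sin (Real.pi * z₀) ^ 2)) (fun j h0 => ?_) ?_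
        · by_cases hj : j = k
          · rw [hc'] at h0
            dsimp only at h0
            rw [if_pos hj, zero_mul, add_zero] at h0
            exact one_ne_zero h0
          · rw [hc'] at h0
            dsimp only at h0
            rw [if_neg hj] at h0
            obtain ⟨m', hm' | hm'⟩ := ZEnt_zero h j h0
            · have h2 := congrArg Complex.im hm'
              rw [hz₀] at h2
              simp only [Complex.add_im, Complex.intCast_im, Complex.mul_im, Complex.intCast_re,
                zero_mul, add_zero, zero_add, Complex.add_re, Complex.natCast_re, Complex.one_re,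
                Complex.natCast_im, Complex.one_im] at h2
              have h3 := mul_right_cancel₀ h.ne' h2
              have h4 : n = (j : ℤ) + 1 := by exact_mod_cast h3
              apply hj
              omega
            · have h2 := congrArg Complex.im hm'
              rw [hz₀] at h2
              simp only [Complex.add_im, Complex.sub_im, Complex.intCast_im, Complex.mul_im,
                Complex.intCast_re,
                zero_mul, add_zero, zero_add, Complex.add_re, Complex.natCast_re, Complex.one_re,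
                Complex.natCast_im, Complex.one_im, zero_sub] at h2
              rw [← neg_mul] at h2
              have h3 := mul_right_cancel₀ h.ne' h2
              have h4 : n = -((j : ℤ) + 1) := by exact_mod_cast h3
              apply hj
              omega
        · simp only [norm_mul]
          exact hsum'.mul_right _
      have hd1 : HasDerivAt (fun z : ℂ => 1 + c k * (4 * Complex.sin (Real.pi * z) ^ 2))
          (c k * (8 * Real.pi * Complex.sin (Real.pi * z₀) * Complex.cos (Real.pi * z₀))) z₀ := by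
        have h2 : HasDerivAt (fun z : ℂ => Complex.sin (Real.pi * z))
            (Complex.cos (Real.pi * z₀) * (Real.pi * 1)) z₀ :=
          (Complex.hasDerivAt_sin _).comp z₀ ((hasDerivAt_id z₀).const_mul (Real.pi : ℂ))
        have h3 := (((h2.pow 2).const_mul (4 : ℂ)).const_mul (c k)).const_add (1 : ℂ)
        refine h3.congr_deriv ?_
        push_cast
        ring
      have hd2 := hd1.mul (hHd' z₀).hasDerivAt
      have hd3 := (hds z₀).mul hd2
      have hd4 : HasDerivAt (fun z : ℂ => Complex.sin (Real.pi * z) / Real.pi *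
          G (4 * Complex.sin (Real.pi * z) ^ 2))
          (Complex.sin (Real.pi * z₀) / Real.pi *
            (c k * (8 * Real.pi * Complex.sin (Real.pi * z₀) * Complex.cos (Real.pi * z₀)) *
              ∏' j, (1 + c' j * (4 * Complex.sin (Real.pi * z₀) ^ 2)))) z₀ := by
        have e1 : (fun z : ℂ => Complex.sin (Real.pi * z) / Real.pi *
            G (4 * Complex.sin (Real.pi * z) ^ 2)) =
            fun z : ℂ => Complex.sin (Real.pi * z) / Real.pi *
              ((1 + c k * (4 * Complex.sin (Real.pi * z) ^ 2)) *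
                ∏' j, (1 + c' j * (4 * Complex.sin (Real.pi * z) ^ 2))) := by
          funext z
          rw [hsp]
        rw [e1]
        refine hd3.congr_deriv ?_
        simp only [Pi.mul_apply]
        rw [hv]
        ring
      rw [hd4.deriv]
      refine mul_ne_zero (div_ne_zero hs0 hpi) (mul_ne_zero (mul_ne_zero hck ?_) hH0)
      exact mul_ne_zero (mul_ne_zero (mul_ne_zero (by norm_num) hpi) hs0) hcos

private theorem ZEnt_one {τ : ℂ} (h : 0 < τ.im) : ∃ s e : ℂ → ℂ, EN 1 τ s e := by
  obtain ⟨S, hd, h0, hoff, hder⟩ := ZEnt_sprod h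
  have hI : Ind 1 τ := Bs.BsG_ind h
  refine ⟨fun z => S z ^ 2, Bs.BsG_ext S τ, hd.pow 2, Bs.BsG_ext_diff hI hd h0, fun z hz => ?_,
    fun z hz => pow_ne_zero 2 (hoff z hz), fun z hz => ?_⟩
  · exact Bs.BsG_ext_off hz
  · obtain ⟨x, hx⟩ := (Basic.not_off_iff 1 τ z).1 hz
    have hx' : z = (x.1 : ℂ) + x.2 * τ := by
      rw [hx]
      simp [lat]
    constructor
    · rw [hx', h0]
      ring
    · rw [Bs.BsG_ext_on hz]
      apply pow_ne_zero
      rw [hx']
      exact hder _ _

private theorem ZEnt_smul {a b c : ℂ} {s e : ℂ → ℂ} (hc : c ≠ 0) (E : EN a b s e) :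
    EN (c * a) (c * b) (fun z => c ^ 2 * s (z / c)) (fun z => e (z / c)) := by
  have hz : ∀ z : ℂ, c * (z / c) = z := fun z => mul_div_cancel₀ z hc
  have ho : ∀ z : ℂ, Off (c * a) (c * b) z ↔ Off a b (z / c) := by
    intro z
    have := off_smul (a := a) (b := b) hc (z / c)
    rwa [hz] at this
  have hw : ∀ z : ℂ, wp (c * a) (c * b) z = wp a b (z / c) / c ^ 2 := by
    intro z
    have := wp_smul (a := a) (b := b) hc (z / c)
    rwa [hz] at this
  refine ⟨?_, ?_, fun z h => ?_, fun z h => ?_, fun z h => ?_⟩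
  · exact (E.ds.comp (by fun_prop : Differentiable ℂ fun z : ℂ => z / c)).const_mul _
  · exact E.de.comp (by fun_prop : Differentiable ℂ fun z : ℂ => z / c)
  · rw [hw, E.off _ ((ho z).1 h)]
    field_simp
  · exact mul_ne_zero (pow_ne_zero 2 hc) (E.s0 _ ((ho z).1 h))
  · have h1 := E.on (z / c) (fun h2 => h ((ho z).2 h2))
    refine ⟨?_, h1.2⟩
    rw [h1.1, mul_zero]

private def ZEnt_eq : ℤ × ℤ ≃ ℤ × ℤ := Equiv.prodCongr (Equiv.refl ℤ) (Equiv.neg ℤ)

private theorem ZEnt_lat (a b : ℂ) (x : ℤ × ℤ) : lat a (-b) x = lat a b (ZEnt_eq x) := by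
  simp only [lat, ZEnt_eq, Equiv.prodCongr_apply, Prod.map_fst, Prod.map_snd, Equiv.refl_apply,
    Equiv.neg_apply]
  push_cast
  ring

private theorem ZEnt_neg {a b : ℂ} {s e : ℂ → ℂ} (E : EN a (-b) s e) : EN a b s e := by
  have ho : ∀ z : ℂ, Off a (-b) z ↔ Off a b z := by
    intro z
    constructor
    · intro h x hx
      refine h (ZEnt_eq.symm x) ?_
      rw [ZEnt_lat, Equiv.apply_symm_apply]
      exact hx
    · intro h x hx
      rw [ZEnt_lat] at hx
      exact h _ hx
  have hw : ∀ z : ℂ, wp a (-b) z = wp a b z := by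
    intro z
    unfold wp
    simp only [ZEnt_lat]
    exact ZEnt_eq.tsum_eq fun x => 1 / (z - lat a b x) ^ 2 - 1 / lat a b x ^ 2
  refine ⟨E.ds, E.de, fun z h => ?_, fun z h => E.s0 z ((ho z).2 h), fun z h => ?_⟩
  · rw [← hw]
    exact E.off z ((ho z).2 h)
  · exact E.on z (fun h1 => h ((ho z).1 h1))

theorem exists_en {a b : ℂ} (h : Ind a b) : ∃ s e : ℂ → ℂ, EN a b s e := by
  have ha : a ≠ 0 := by
    rintro rfl
    apply h
    simp
  have him : (b / a).im ≠ 0 := by
    intro h1
    apply h
    rw [Complex.div_im, ← sub_div] at h1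
    rcases div_eq_zero_iff.1 h1 with h2 | h2
    · linarith
    · exact absurd (Complex.normSq_eq_zero.1 h2) ha
  rcases lt_or_gt_of_ne him with h1 | h1
  · obtain ⟨s, e, E⟩ := ZEnt_one (τ := -(b / a)) (by rw [Complex.neg_im]; linarith)
    have h2 := ZEnt_smul ha E
    have e1 : a * 1 = a := mul_one a
    have e2 : a * -(b / a) = -b := by
      field_simp
    rw [e1, e2] at h2
    exact ⟨_, _, ZEnt_neg h2⟩
  · obtain ⟨s, e, E⟩ := ZEnt_one (τ := b / a) h1
    have h2 := ZEnt_smul ha E
    have e1 : a * 1 = a := mul_one a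
    have e2 : a * (b / a) = b := by
      field_simp
    rw [e1, e2] at h2
    exact ⟨_, _, h2⟩

private theorem ZEnt_order_zero {f : ℂ → ℂ} (hf : Differentiable ℂ f) {z : ℂ} (hz : f z ≠ 0) :
    meromorphicOrderAt f z = 0 := by
  have h1 : AnalyticAt ℂ f z := hf.analyticAt z
  rw [h1.meromorphicOrderAt_eq, (h1.analyticOrderAt_eq_zero).2 hz]
  rfl

theorem EN.order_e {a b : ℂ} {s e : ℂ → ℂ} (h : Ind a b) (E : EN a b s e) (z : ℂ) :
    meromorphicOrderAt e z ≤ 2 := by
  by_cases hz : Off a b z
  · have h1 : e =ᶠ[𝓝[≠] z] s * wp a b := by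
      filter_upwards [Basic.eventually_off h z] with u hu
      exact E.off u hu
    have h2 : AnalyticAt ℂ (wp a b) z := by
      have a1 : AnalyticOnNhd ℂ (wp a b) {z | Off a b z} := by
        refine DifferentiableOn.analyticOnNhd (fun u hu => ?_) (isOpen_off h)
        exact (Basic.differentiableAt_wp h hu).differentiableWithinAt
      exact a1 z hz
    rw [meromorphicOrderAt_congr h1,
      meromorphicOrderAt_mul (E.ds.analyticAt z).meromorphicAt h2.meromorphicAt,
      ZEnt_order_zero E.ds (E.s0 z hz), zero_add]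
    have h3 := order_wp_le h hz 0
    simpa using h3
  · rw [ZEnt_order_zero E.de (E.on z hz).2]
    exact zero_le_two

/-- `u = 1 / ℘` is `s / e` except at the zeros of `e` -/
theorem EN.eq_iu {a b : ℂ} {s e : ℂ → ℂ} (h : Ind a b) (E : EN a b s e) {z : ℂ} (hz : e z ≠ 0) :
    s z = e z * iu a b z := by
  by_cases ho : Off a b z
  · have h1 := E.off z ho
    have h2 : wp a b z ≠ 0 := by
      intro h3
      rw [h3, mul_zero] at h1
      exact hz h1
    rw [h1, iu, mul_assoc, mul_inv_cancel₀ h2, mul_one]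
  · obtain ⟨x, hx⟩ := (Basic.not_off_iff a b z).1 ho
    have h1 : iu a b z = 0 := by
      have h2 := iu_add_lat h 0 x
      rw [zero_add, ← hx, iu_zero] at h2
      exact h2
    rw [h1, mul_zero, (E.on z ho).1]

/-- the zeros of `e` are the zeros of `℘` off the lattice -/
theorem EN.e_eq_zero {a b : ℂ} {s e : ℂ → ℂ} (E : EN a b s e) (z : ℂ) :
    e z = 0 ↔ Off a b z ∧ wp a b z = 0 := by
  constructor
  · intro h0
    by_cases ho : Off a b z
    · refine ⟨ho, ?_⟩
      have h1 := E.off z ho
      rw [h0] at h1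
      exact (mul_eq_zero.1 h1.symm).resolve_left (E.s0 z ho)
    · exact absurd h0 (E.on z ho).2
  · rintro ⟨ho, h1⟩
    rw [E.off z ho, h1, mul_zero]

end Pool.Agent.LGO.F
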