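import Mathlib
import Pool.Agent.LGO.F.ZDef

/-!
# LGO/F (note 3060, zero estimate): the generic points

PROOFS.  `gen_open`: `isOpen_off`, continuity of `wp` off the lattice.  `gen_slice`: for fixed `t` the bad `z` are: `z ∈ Λ`,
`℘(z) = 0`, `a t + b z ∈ Λ_v`, `℘_v(a t + b z) = 0`: a closed discrete set (`b ≠ 0`; near any `z₂`: `eventually_off`; zeros
of `℘` are isolated: `℘` is analytic off the lattice, not locally `0` (its pole at `0`, the complement of the lattice is connected,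
or: `℘ = 0` for at most two classes by `xx_eq`-type statement `wp z = wp y → z = ± y mod Λ` in EllSch), and `℘ → ∞` at the lattice
points, so `℘ ≠ 0` near them).  `go_eventually` the same with one variable; `go_countable`: a closed discrete set in `ℂ` is
countable (`Set.Countable` from: every point has a neighbourhood meeting the set in a finite set, second countable /
`Set.countable_of_...`, or: the bad set is contained in a countable union of classes).
`gen_dense` from `go_countable`/`go_eventually` (first move `z₁` to a `Go` point near by) and `gen_slice`.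
`an_FF`: analytic on `Gen` (`iu` is analytic where `wp ≠ 0`: `iu = 1 / wp` there; composition with the linear form).
`mero_FF`: `iu` is meromorphic on `ℂ` (`iu = 1 / wp` is meromorphic: `MulIu`), composition with an affine map, sums, products.
-/

namespace Pool.Agent.LGO.F

open Pool.Agent.EllSch Pool.Agent.LGO.Mul Filter Topology Asymptotics

variable {w τ c₁ c₂ : ℂ} {N : ℕ} {a b : ℤ}

private theorem ZGen_an {a b : ℂ} (h : Ind a b) {z : ℂ} (hz : Off a b z) : AnalyticAt ℂ (wp a b) z := by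
  have hd : DifferentiableOn ℂ (wp a b) {z | Off a b z} := fun w hw =>
    (hasDerivAt_wp h hw).differentiableAt.differentiableWithinAt
  exact hd.analyticAt ((isOpen_off h).mem_nhds hz)

private theorem ZGen_sub_tendsto (c : ℂ) : Tendsto (fun u : ℂ => u - c) (𝓝[≠] c) (𝓝[≠] 0) := by
  rw [tendsto_nhdsWithin_iff]
  constructor
  · have : Tendsto (fun u : ℂ => u - c) (𝓝 c) (𝓝 (c - c)) := (continuous_id.sub continuous_const).tendsto _
    rw [sub_self] at this
    exact this.mono_left nhdsWithin_le_nhds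
  · filter_upwards [self_mem_nhdsWithin] with u hu
    exact sub_ne_zero.2 hu

/-- near every point `℘` has no zero in a punctured neighbourhood -/
private theorem ZGen_ne {a b : ℂ} (h : Ind a b) (z : ℂ) : ∀ᶠ u in 𝓝[≠] z, wp a b u ≠ 0 := by
  by_cases hz : Off a b z
  · rcases (ZGen_an h hz).eventually_eq_zero_or_eventually_ne_zero with h1 | h1
    · exfalso
      have hA : AnalyticOnNhd ℂ (wp a b) {z | Off a b z} := fun u hu => ZGen_an h hu
      have h2 := hA.eqOn_zero_of_preconnected_of_eventuallyEq_zero (isPreconnected_off h) hz h1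
      obtain ⟨u, hu1, hu2⟩ := ((MulIu_eventually_ne h).and (Basic.eventually_off h 0)).exists
      exact hu1 (h2 hu2)
    · exact h1
  · obtain ⟨x, rfl⟩ := (Basic.not_off_iff a b z).1 hz
    filter_upwards [(ZGen_sub_tendsto (lat a b x)).eventually (MulIu_eventually_ne h)] with u hu
    have h1 := wp_add_lat h (u - lat a b x) x
    rw [sub_add_cancel] at h1
    rw [h1]
    exact hu

private theorem ZGen_ev {a b : ℂ} (h : Ind a b) (z : ℂ) :
    ∀ᶠ u in 𝓝[≠] z, Off a b u ∧ wp a b u ≠ 0 :=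
  (Basic.eventually_off h z).and (ZGen_ne h z)

private theorem ZGen_isOpen {a b : ℂ} (h : Ind a b) : IsOpen {u : ℂ | Off a b u ∧ wp a b u ≠ 0} := by
  rw [isOpen_iff_mem_nhds]
  rintro u ⟨h1, h2⟩
  filter_upwards [(isOpen_off h).mem_nhds h1, (ZGen_an h h1).continuousAt.eventually_ne h2] with v h3 h4
  exact ⟨h3, h4⟩

theorem gen_open (h : ZD w τ c₁ c₂ N a b) : IsOpen (Gen w τ c₁ c₂ a b) := by
  have h1 := (ZGen_isOpen h.ind1).preimage (continuous_fst (X := ℂ) (Y := ℂ))
  have h2 := (ZGen_isOpen h.ind1).preimage (continuous_snd (X := ℂ) (Y := ℂ))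
  have h3 := (ZGen_isOpen h.ind).preimage
    (by fun_prop : Continuous fun z : ℂ × ℂ => (a : ℂ) * z.1 + (b : ℂ) * z.2)
  exact h1.inter (h2.inter h3)

/-- the points over a value -/
private theorem ZGen_fib {a b : ℂ} (h : Ind a b) (q : ℂ) :
    {z | Off a b z ∧ wp a b z = 0 ∧ wq a b z = q}.Countable := by
  rcases Set.eq_empty_or_nonempty {z | Off a b z ∧ wp a b z = 0 ∧ wq a b z = q} with he | ⟨w, hw⟩
  · rw [he]
    exact Set.countable_empty
  · refine (Set.countable_range fun l : ℤ × ℤ => w + lat a b l).mono ?_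
    intro z hz
    obtain ⟨l, hl⟩ := exists_lat_of_eq h hz.1 hw.1 (hz.2.1.trans hw.2.1.symm)
      (hz.2.2.trans hw.2.2.symm)
    exact ⟨l, hl.symm⟩

private theorem ZGen_zeros {a b : ℂ} (h : Ind a b) : {z | Off a b z ∧ wp a b z = 0}.Countable := by
  have hf : {q : ℂ | q ^ 2 = -G3 a b}.Finite := by
    refine ((Polynomial.nthRoots 2 (-G3 a b)).toFinset.finite_toSet).subset ?_
    intro q hq
    simp only [Finset.mem_coe, Multiset.mem_toFinset]
    exact (Polynomial.mem_nthRoots two_pos).mpr hq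
  refine (hf.countable.biUnion (t := fun q _ => {z | Off a b z ∧ wp a b z = 0 ∧ wq a b z = q})
    fun q _ => ZGen_fib h q).mono ?_
  intro z hz
  simp only [Set.mem_iUnion]
  refine ⟨wq a b z, ?_, hz.1, hz.2, rfl⟩
  have := ode h hz.1
  rw [hz.2] at this
  rw [Set.mem_ofPred_eq, this]
  ring

theorem go_countable (h : ZD w τ c₁ c₂ N a b) : {t | ¬ Go w τ t}.Countable := by
  have h1 : (Set.range fun x : ℤ × ℤ => lat w (w * τ) x).Countable := Set.countable_range _
  refine (h1.union (ZGen_zeros h.ind1)).mono ?_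
  intro t ht
  by_cases h2 : Off w (w * τ) t
  · refine Or.inr ⟨h2, ?_⟩
    by_contra h3
    exact ht ⟨h2, h3⟩
  · obtain ⟨x, hx⟩ := (Basic.not_off_iff _ _ t).1 h2
    exact Or.inl ⟨x, hx.symm⟩

theorem go_eventually (h : ZD w τ c₁ c₂ N a b) (z : ℂ) : ∀ᶠ t in 𝓝[≠] z, Go w τ t :=
  ZGen_ev h.ind1 z

/-- the slice `z₁ = t` -/
theorem gen_slice (h : ZD w τ c₁ c₂ N a b) {t : ℂ} (ht : Go w τ t) (z : ℂ) :
    ∀ᶠ y in 𝓝[≠] z, (t, y) ∈ Gen w τ c₁ c₂ a b := by
  have hb : (b : ℂ) ≠ 0 := by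
    exact_mod_cast h.b0
  have h1 : Tendsto (fun y : ℂ => (a : ℂ) * t + (b : ℂ) * y) (𝓝[≠] z) (𝓝[≠] ((a : ℂ) * t + (b : ℂ) * z)) := by
    rw [tendsto_nhdsWithin_iff]
    constructor
    · have : Continuous fun y : ℂ => (a : ℂ) * t + (b : ℂ) * y := by fun_prop
      exact (this.tendsto z).mono_left nhdsWithin_le_nhds
    · filter_upwards [self_mem_nhdsWithin] with y hy
      intro he
      have h2 : (b : ℂ) * y = b * z := by
        exact add_left_cancel he
      exact hy (mul_left_cancel₀ hb h2)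
  filter_upwards [go_eventually h z, h1.eventually (ZGen_ev h.ind _)] with y h2 h3
  exact ⟨ht, h2, h3⟩

theorem gen_dense (h : ZD w τ c₁ c₂ N a b) : Dense (Gen w τ c₁ c₂ a b) := by
  rw [Metric.dense_iff]
  intro z r hr
  have h1 : ∀ᶠ t in 𝓝[≠] z.1, dist t z.1 < r :=
    nhdsWithin_le_nhds (Metric.ball_mem_nhds z.1 hr)
  have h2 : ∀ᶠ t in 𝓝[≠] z.2, dist t z.2 < r :=
    nhdsWithin_le_nhds (Metric.ball_mem_nhds z.2 hr)
  obtain ⟨t, ht1, ht2⟩ := (h1.and (go_eventually h z.1)).exists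
  obtain ⟨y, hy1, hy2⟩ := (h2.and (gen_slice h ht2 z.2)).exists
  refine ⟨(t, y), ?_, hy2⟩
  rw [Metric.mem_ball, Prod.dist_eq]
  exact max_lt ht1 hy1

private theorem ZGen_an_iu {a b : ℂ} (h : Ind a b) {z : ℂ} (hz : Off a b z) (h0 : wp a b z ≠ 0) :
    AnalyticAt ℂ (iu a b) z := (ZGen_an h hz).inv h0

theorem an_FF (h : ZD w τ c₁ c₂ N a b) (L₁ L₂ K : ℕ) (p : ℕ → ℕ → ℕ → ℂ) {z : ℂ × ℂ}
    (hz : z ∈ Gen w τ c₁ c₂ a b) : AnalyticAt ℂ (FF w τ c₁ c₂ a b L₁ L₂ K p) z := by
  have h1 : AnalyticAt ℂ (fun z : ℂ × ℂ => iu w (w * τ) z.1) z :=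
    AnalyticAt.fun_comp (f := fun z : ℂ × ℂ => z.1) (g := iu w (w * τ))
      (ZGen_an_iu h.ind1 hz.1.1 hz.1.2) analyticAt_fst
  have h2 : AnalyticAt ℂ (fun z : ℂ × ℂ => iu w (w * τ) z.2) z :=
    AnalyticAt.fun_comp (f := fun z : ℂ × ℂ => z.2) (g := iu w (w * τ))
      (ZGen_an_iu h.ind1 hz.2.1.1 hz.2.1.2) analyticAt_snd
  have h3 : AnalyticAt ℂ (fun z : ℂ × ℂ => iu c₁ c₂ (a * z.1 + b * z.2)) z :=
    AnalyticAt.fun_comp (f := fun z : ℂ × ℂ => (a : ℂ) * z.1 + (b : ℂ) * z.2) (g := iu c₁ c₂)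
      (ZGen_an_iu h.ind hz.2.2.1 hz.2.2.2)
      ((analyticAt_const.mul analyticAt_fst).add (analyticAt_const.mul analyticAt_snd))
  unfold FF
  refine Finset.analyticAt_fun_sum _ fun i _ => Finset.analyticAt_fun_sum _ fun j _ =>
    Finset.analyticAt_fun_sum _ fun k _ => ?_
  exact (((analyticAt_const.mul (h1.pow i)).mul (h2.pow j)).mul (h3.pow k))

private theorem ZGen_mero {a b : ℂ} (h : Ind a b) (z : ℂ) : MeromorphicAt (iu a b) z := by
  by_cases hz : Off a b z
  · exact (ZGen_an h hz).meromorphicAt.inv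
  · obtain ⟨x, rfl⟩ := (Basic.not_off_iff a b z).1 hz
    have h1 : AnalyticAt ℂ (fun u : ℂ => iu a b (u - lat a b x)) (lat a b x) := by
      refine AnalyticAt.fun_comp (f := fun u : ℂ => u - lat a b x) (g := iu a b) ?_ (by fun_prop)
      rw [sub_self]
      exact analyticAt_iu_zero h
    have h2 : (fun u : ℂ => iu a b (u - lat a b x)) = iu a b := by
      funext u
      have h3 := iu_add_lat h (u - lat a b x) x
      rw [sub_add_cancel] at h3
      exact h3.symm
    rw [h2] at h1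
    exact h1.meromorphicAt

/-- the slices are meromorphic -/
theorem mero_FF (h : ZD w τ c₁ c₂ N a b) (L₁ L₂ K : ℕ) (p : ℕ → ℕ → ℕ → ℂ) (t z : ℂ) :
    MeromorphicAt (fun y => FF w τ c₁ c₂ a b L₁ L₂ K p (t, y)) z := by
  have hb : (b : ℂ) ≠ 0 := by
    exact_mod_cast h.b0
  have h2 : MeromorphicAt (fun y : ℂ => iu w (w * τ) y) z := ZGen_mero h.ind1 z
  have h3 : MeromorphicAt (fun y : ℂ => iu c₁ c₂ (a * t + b * y)) z := by
    exact MeromorphicAt.comp_analyticAt (f := iu c₁ c₂) (g := fun y : ℂ => (a : ℂ) * t + (b : ℂ) * y)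
      (ZGen_mero h.ind _) (by fun_prop)
  unfold FF
  refine MeromorphicAt.fun_sum fun i _ => MeromorphicAt.fun_sum fun j _ =>
    MeromorphicAt.fun_sum fun k _ => ?_
  exact ((MeromorphicAt.const (p i j k * iu w (w * τ) t ^ i) z).fun_mul (h2.fun_pow j)).fun_mul
    (h3.fun_pow k)

end Pool.Agent.LGO.F
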