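import Mathlib
import Pool.Agent.LGO.F.ZEnt
import Pool.Agent.LGO.F.ZGen

/-!
# LGO/F (note 3060, zero estimate): the entire numerator of `FF`

`NN(z₁, z₂) = ∑ p_ijk s(z₁)^i e(z₁)^(L₁-1-i) s(z₂)^j e(z₂)^(L₂-1-j) s₃(a z₁ + b z₂)^k e₃(a z₁ + b z₂)^(K-1-k)`.

PROOFS.  `NN_eq`: `s = e u` (`EN.eq_iu`) in every factor: `s^i e^(L-1-i) = e^(L-1) u^i`.
`ord_le₁`: for `e(t) ≠ 0` the slice is, in a punctured neighbourhood of `y₀`,
`NN(t, y) = e(t)^(L₁-1) e(y)^(L₂-1) e₃(a t + b y)^(K-1) FF(t, y)` (`e(y) ≠ 0`, `e₃(a t + b y) ≠ 0` in a punctured neighbourhood: `e`, `e₃` are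
entire and not identically `0`, `b ≠ 0`), so the order of the left side is the order of `FF(t, ·)` plus a number between
`0` and `2 (L₂ - 1) + 2 (K - 1)` (`EN.order_e`; `y ↦ e₃(a t + b y)` has the same order at `y₀` as `e₃` at `a t + b y₀`).
`mero_*`: meromorphic because `NN(t, ·)` is entire; `FF(t, ·)`: `mero_FF`, in the other variable the same.
-/

namespace Pool.Agent.LGO.F

open Pool.Agent.EllSch Pool.Agent.LGO.Mul Filter Topology Asymptotics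

/-- the numerator -/
noncomputable def NN (s e s₃ e₃ : ℂ → ℂ) (a b : ℤ) (L₁ L₂ K : ℕ) (p : ℕ → ℕ → ℕ → ℂ)
    (z : ℂ × ℂ) : ℂ :=
  ∑ i ∈ Finset.range L₁, ∑ j ∈ Finset.range L₂, ∑ k ∈ Finset.range K,
    p i j k * (s z.1 ^ i * e z.1 ^ (L₁ - 1 - i)) * (s z.2 ^ j * e z.2 ^ (L₂ - 1 - j)) *
      (s₃ (a * z.1 + b * z.2) ^ k * e₃ (a * z.1 + b * z.2) ^ (K - 1 - k))

variable {w τ c₁ c₂ : ℂ} {N : ℕ} {a b : ℤ} {s e s₃ e₃ : ℂ → ℂ}

theorem NN_diff (hs : Differentiable ℂ s) (he : Differentiable ℂ e) (hs₃ : Differentiable ℂ s₃)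
    (he₃ : Differentiable ℂ e₃) (L₁ L₂ K : ℕ) (p : ℕ → ℕ → ℕ → ℂ) :
    Differentiable ℂ (NN s e s₃ e₃ a b L₁ L₂ K p) := by
  have hf : Differentiable ℂ fun z : ℂ × ℂ => (a : ℂ) * z.1 + (b : ℂ) * z.2 := by fun_prop
  have h1 : Differentiable ℂ fun z : ℂ × ℂ => s z.1 := hs.comp differentiable_fst
  have h2 : Differentiable ℂ fun z : ℂ × ℂ => s z.2 := hs.comp differentiable_snd
  have h3 : Differentiable ℂ fun z : ℂ × ℂ => e z.1 := he.comp differentiable_fst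
  have h4 : Differentiable ℂ fun z : ℂ × ℂ => e z.2 := he.comp differentiable_snd
  have h5 : Differentiable ℂ fun z : ℂ × ℂ => s₃ ((a : ℂ) * z.1 + (b : ℂ) * z.2) := hs₃.comp hf
  have h6 : Differentiable ℂ fun z : ℂ × ℂ => e₃ ((a : ℂ) * z.1 + (b : ℂ) * z.2) := he₃.comp hf
  unfold NN
  refine Differentiable.fun_sum fun i _ => Differentiable.fun_sum fun j _ =>
    Differentiable.fun_sum fun k _ => ?_
  exact (((differentiable_const _).mul ((h1.pow _).mul (h3.pow _))).mul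
    ((h2.pow _).mul (h4.pow _))).mul ((h5.pow _).mul (h6.pow _))

private theorem ZNum_pow {x y u : ℂ} (h : x = y * u) {i L : ℕ} (hi : i < L) :
    x ^ i * y ^ (L - 1 - i) = y ^ (L - 1) * u ^ i := by
  rw [h, mul_pow, mul_assoc, mul_comm (u ^ i), ← mul_assoc, ← pow_add,
    show i + (L - 1 - i) = L - 1 by omega]

theorem NN_eq (h : ZD w τ c₁ c₂ N a b) (E : EN w (w * τ) s e) (E₃ : EN c₁ c₂ s₃ e₃)
    (L₁ L₂ K : ℕ) (p : ℕ → ℕ → ℕ → ℂ) {z : ℂ × ℂ} (h1 : e z.1 ≠ 0) (h2 : e z.2 ≠ 0)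
    (h3 : e₃ (a * z.1 + b * z.2) ≠ 0) :
    NN s e s₃ e₃ a b L₁ L₂ K p z = e z.1 ^ (L₁ - 1) * e z.2 ^ (L₂ - 1) *
      e₃ (a * z.1 + b * z.2) ^ (K - 1) * FF w τ c₁ c₂ a b L₁ L₂ K p z := by
  have k1 := E.eq_iu h.ind1 h1
  have k2 := E.eq_iu h.ind1 h2
  have k3 := E₃.eq_iu h.ind h3
  unfold NN FF
  rw [Finset.mul_sum]
  refine Finset.sum_congr rfl fun i hi => ?_
  rw [Finset.mul_sum]
  refine Finset.sum_congr rfl fun j hj => ?_
  rw [Finset.mul_sum]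
  refine Finset.sum_congr rfl fun k hk => ?_
  rw [ZNum_pow k1 (Finset.mem_range.1 hi), ZNum_pow k2 (Finset.mem_range.1 hj),
    ZNum_pow k3 (Finset.mem_range.1 hk)]
  ring

private theorem ZNum_bd {f : ℂ → ℂ} {z : ℂ} (hf : AnalyticAt ℂ f z)
    (ho : meromorphicOrderAt f z ≤ 2) (m : ℕ) :
    ∃ n : ℕ, n ≤ 2 * m ∧ meromorphicOrderAt (f ^ m) z = ((n : ℤ) : WithTop ℤ) := by
  have h0 := hf.meromorphicOrderAt_nonneg
  cases h1 : meromorphicOrderAt f z with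
  | top =>
    rw [h1] at ho
    exact absurd ho (by simp [top_le_iff])
  | coe n =>
    rw [h1] at ho h0
    have h2 : n ≤ 2 := WithTop.coe_le_coe.1 (show (n : WithTop ℤ) ≤ ((2 : ℤ) : WithTop ℤ) from ho)
    have h3 : 0 ≤ n := by exact_mod_cast h0
    lift n to ℕ using h3
    refine ⟨m * n, ?_, ?_⟩
    · have : n ≤ 2 := by exact_mod_cast h2
      nlinarith
    · rw [meromorphicOrderAt_pow hf.meromorphicAt, h1]
      push_cast
      rfl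

private theorem ZNum_ord {F G e₁ e₂ : ℂ → ℂ} {z c : ℂ} {m n : ℕ} (hc : c ≠ 0)
    (hF : MeromorphicAt F z) (h₁ : AnalyticAt ℂ e₁ z) (h₂ : AnalyticAt ℂ e₂ z)
    (o₁ : meromorphicOrderAt e₁ z ≤ 2) (o₂ : meromorphicOrderAt e₂ z ≤ 2)
    (n₁ : ∀ᶠ u in 𝓝[≠] z, e₁ u ≠ 0) (n₂ : ∀ᶠ u in 𝓝[≠] z, e₂ u ≠ 0)
    (hFG : ∀ᶠ u in 𝓝[≠] z, F u = c * e₁ u ^ m * e₂ u ^ n * G u) :
    meromorphicOrderAt G z ≤ meromorphicOrderAt F z ∧
      meromorphicOrderAt F z ≤ meromorphicOrderAt G z + ((2 * m + 2 * n : ℕ) : ℤ) := by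
  have hD : MeromorphicAt (fun u => c * e₁ u ^ m * e₂ u ^ n) z :=
    (((analyticAt_const.mul (h₁.pow m)).mul (h₂.pow n))).meromorphicAt
  have hG : MeromorphicAt G z := by
    refine (hF.fun_mul hD.fun_inv).congr ?_
    filter_upwards [hFG, n₁, n₂] with u h3 h4 h5
    rw [h3]
    field_simp
  obtain ⟨k₁, hk₁, q₁⟩ := ZNum_bd h₁ o₁ m
  obtain ⟨k₂, hk₂, q₂⟩ := ZNum_bd h₂ o₂ n
  have h6 : F =ᶠ[𝓝[≠] z] (fun _ => c) * (e₁ ^ m * (e₂ ^ n * G)) := by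
    filter_upwards [hFG] with u h3
    rw [h3]
    simp only [Pi.mul_apply, Pi.pow_apply]
    ring
  have h7 : meromorphicOrderAt F z = (((k₁ + k₂ : ℕ) : ℤ) : WithTop ℤ) + meromorphicOrderAt G z := by
    rw [meromorphicOrderAt_congr h6, meromorphicOrderAt_mul_of_ne_zero analyticAt_const hc,
      meromorphicOrderAt_mul (h₁.pow m).meromorphicAt ((h₂.pow n).meromorphicAt.mul hG),
      meromorphicOrderAt_mul (h₂.pow n).meromorphicAt hG, q₁, q₂, ← add_assoc]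
    push_cast
    rfl
  rw [h7]
  constructor
  · refine le_add_of_nonneg_left ?_
    exact_mod_cast Int.natCast_nonneg (k₁ + k₂)
  · rw [add_comm]
    refine add_le_add le_rfl ?_
    exact_mod_cast (by omega : k₁ + k₂ ≤ 2 * m + 2 * n)

private theorem ZNum_ne {a b : ℂ} {s e : ℂ → ℂ} (h : Ind a b) (E : EN a b s e) (z : ℂ) :
    ∀ᶠ u in 𝓝[≠] z, e u ≠ 0 := by
  have h1 : MeromorphicAt e z := (E.de.analyticAt z).meromorphicAt
  rw [← meromorphicOrderAt_ne_top_iff_eventually_ne_zero h1]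
  intro h2
  have h3 := E.order_e h z
  rw [h2] at h3
  exact absurd h3 (by simp [top_le_iff])

private theorem ZNum_comp {a b c d : ℂ} {s e : ℂ → ℂ} (h : Ind a b) (E : EN a b s e) (hd : d ≠ 0)
    (z : ℂ) : AnalyticAt ℂ (fun u => e (c + d * u)) z ∧
      meromorphicOrderAt (fun u => e (c + d * u)) z ≤ 2 ∧ ∀ᶠ u in 𝓝[≠] z, e (c + d * u) ≠ 0 := by
  have h1 : AnalyticAt ℂ (fun u => e (c + d * u)) z :=
    (E.de.comp (by fun_prop : Differentiable ℂ fun u : ℂ => c + d * u)).analyticAt z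
  have h2 : AnalyticAt ℂ (fun u : ℂ => c + d * u) z := by fun_prop
  have h3 : deriv (fun u : ℂ => c + d * u) z ≠ 0 := by
    have : HasDerivAt (fun u : ℂ => c + d * u) d z := by
      have h4 := ((hasDerivAt_id z).const_mul d).const_add c
      rwa [mul_one] at h4
    rw [this.deriv]
    exact hd
  have h5 : meromorphicOrderAt (fun u => e (c + d * u)) z ≤ 2 := by
    have h6 := meromorphicOrderAt_comp_of_deriv_ne_zero (f := e) h2 h3
    rw [show (fun u => e (c + d * u)) = e ∘ (fun u : ℂ => c + d * u) from rfl, h6]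
    exact E.order_e h _
  refine ⟨h1, h5, ?_⟩
  rw [← meromorphicOrderAt_ne_top_iff_eventually_ne_zero h1.meromorphicAt]
  intro h7
  rw [h7] at h5
  exact absurd h5 (by simp [top_le_iff])

private theorem ZNum_go (E : EN w (w * τ) s e) {t : ℂ} (ht : Go w τ t) : e t ≠ 0 := by
  intro h0
  exact ht.2 ((E.e_eq_zero t).1 h0).2

theorem ord_le₁ (h : ZD w τ c₁ c₂ N a b) (E : EN w (w * τ) s e) (E₃ : EN c₁ c₂ s₃ e₃)
    (L₁ L₂ K : ℕ) (p : ℕ → ℕ → ℕ → ℂ) {t : ℂ} (ht : Go w τ t) (y : ℂ) :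
    meromorphicOrderAt (fun y => FF w τ c₁ c₂ a b L₁ L₂ K p (t, y)) y ≤
        meromorphicOrderAt (fun y => NN s e s₃ e₃ a b L₁ L₂ K p (t, y)) y ∧
      meromorphicOrderAt (fun y => NN s e s₃ e₃ a b L₁ L₂ K p (t, y)) y ≤
        meromorphicOrderAt (fun y => FF w τ c₁ c₂ a b L₁ L₂ K p (t, y)) y +
          ((2 * L₂ + 2 * K : ℕ) : ℤ) := by
  have hb : (b : ℂ) ≠ 0 := by exact_mod_cast h.b0
  have ht0 := ZNum_go E ht
  obtain ⟨g1, g2, g3⟩ := ZNum_comp (c := (a : ℂ) * t) h.ind E₃ hb y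
  have hN : MeromorphicAt (fun y => NN s e s₃ e₃ a b L₁ L₂ K p (t, y)) y :=
    (((NN_diff E.ds E.de E₃.ds E₃.de L₁ L₂ K p).comp
      (by fun_prop : Differentiable ℂ fun y : ℂ => (t, y))).analyticAt y).meromorphicAt
  have key := ZNum_ord (m := L₂ - 1) (n := K - 1) (pow_ne_zero (L₁ - 1) ht0) hN (E.de.analyticAt y) g1
    (E.order_e h.ind1 y) g2 (ZNum_ne h.ind1 E y) g3 (by
      filter_upwards [ZNum_ne h.ind1 E y, g3] with u h4 h5
      exact NN_eq h E E₃ L₁ L₂ K p (z := (t, u)) ht0 h4 h5)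
  refine ⟨key.1, key.2.trans (add_le_add le_rfl ?_)⟩
  exact_mod_cast (by omega : 2 * (L₂ - 1) + 2 * (K - 1) ≤ 2 * L₂ + 2 * K)

theorem ord_le₂ (h : ZD w τ c₁ c₂ N a b) (E : EN w (w * τ) s e) (E₃ : EN c₁ c₂ s₃ e₃)
    (L₁ L₂ K : ℕ) (p : ℕ → ℕ → ℕ → ℂ) {y : ℂ} (hy : Go w τ y) (t : ℂ) :
    meromorphicOrderAt (fun t => NN s e s₃ e₃ a b L₁ L₂ K p (t, y)) t ≤
      meromorphicOrderAt (fun t => FF w τ c₁ c₂ a b L₁ L₂ K p (t, y)) t +
        ((2 * L₁ + 2 * K : ℕ) : ℤ) := by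
  have ha : (a : ℂ) ≠ 0 := by exact_mod_cast h.a0
  have hy0 := ZNum_go E hy
  obtain ⟨g1, g2, g3⟩ := ZNum_comp (c := (b : ℂ) * y) h.ind E₃ ha t
  have hN : MeromorphicAt (fun t => NN s e s₃ e₃ a b L₁ L₂ K p (t, y)) t :=
    (((NN_diff E.ds E.de E₃.ds E₃.de L₁ L₂ K p).comp
      (by fun_prop : Differentiable ℂ fun t : ℂ => (t, y))).analyticAt t).meromorphicAt
  have key := ZNum_ord (m := L₁ - 1) (n := K - 1) (pow_ne_zero (L₂ - 1) hy0) hN (E.de.analyticAt t) g1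
    (G := fun t => FF w τ c₁ c₂ a b L₁ L₂ K p (t, y))
    (E.order_e h.ind1 t) g2 (ZNum_ne h.ind1 E t) g3 (by
      filter_upwards [ZNum_ne h.ind1 E t, g3] with u h4 h5
      have h6 : e₃ ((a : ℂ) * u + (b : ℂ) * y) ≠ 0 := by
        rw [add_comm]
        exact h5
      have h7 := NN_eq h E E₃ L₁ L₂ K p (z := (u, y)) h4 hy0 h6
      rw [h7]
      simp only
      rw [add_comm ((a : ℂ) * u)]
      ring)
  refine key.2.trans (add_le_add le_rfl ?_)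
  exact_mod_cast (by omega : 2 * (L₁ - 1) + 2 * (K - 1) ≤ 2 * L₁ + 2 * K)

end Pool.Agent.LGO.F
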