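import Mathlib
import Pool.Agent.LGO.F.ZNum

/-!
# LGO/F (note 3060, zero estimate): the order of `FF` along a line

PROOF of `line_ent`.  `F` entire in two variables; for uncountably many `t` the function `y ↦ F(t, y)` has order `≥ k` at
`y = λ t + μ`.  For `j < k` the function `a_j(t) = ∂^j/∂y^j F(t, y)` at `y = λ t + μ` is entire in `t` (for instance by Cauchy's
formula / iterated derivatives of an entire function of two variables are entire: induction with
`F_y(t, y) = lim ..`; or write `F(t, λ t + μ + y)` as an entire function `H(t, y)` and use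
`iteratedDeriv j (H(t, ·)) 0 = (j! / 2πi) ∮ H(t, y) / y^(j+1) dy`, differentiable in `t` under the integral sign,
`hasDerivAt_integral_of_dominated_loc_of_deriv_le` or `DifferentiableOn.circleIntegral`) and vanishes on an uncountable set, so
identically (an uncountable set has an accumulation point; `AnalyticOnNhd.eqOn_zero_or..`, or: the zeros of a nonzero entire function are
countable).  So the order is `≥ k` for all `t` (an entire function whose first `k` derivatives vanish), this is the first statement.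
Second: on the compact set `|t - t₀| ≤ 1`, `|y| ≤ 1` the function `H` is bounded by `M`, and the Schwarz lemma in `y` (`H(t, ·)`
has a zero of order `≥ k` at `0`: maximum principle for `H(t, y) / y^k`) gives `|H(t, y)| ≤ M |y|^k`.  Third (`λ ≠ 0`):
`F(t₀ + r, λ t₀ + μ) = H(t₀ + r, - λ r) = O(|r|^k)`, an analytic function of `r`, so its order is `≥ k`.
`line_FF`: apply it to `F = NN` (`ord_le₁` gives the hypothesis; `Go t` for all `t` outside a countable set), and `ord_le₁`,
`ord_le₂` for the conclusions.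
-/

namespace Pool.Agent.LGO.F

open Pool.Agent.EllSch Pool.Agent.LGO.Mul Filter Topology Asymptotics

/-- Taylor's formula with Cauchy's estimates -/
private theorem ZLk_tay {g : ℂ → ℂ} (hg : Differentiable ℂ g) {z₀ : ℂ} {M : ℝ}
    (hM : ∀ z ∈ Metric.sphere z₀ 1, ‖g z‖ ≤ M) (n : ℕ) {y : ℂ} (hy : ‖y‖ ≤ 1 / 2) :
    ‖g (z₀ + y) - ∑ i ∈ Finset.range n, (i.factorial : ℂ)⁻¹ * iteratedDeriv i g z₀ * y ^ i‖ ≤
      2 * M * ‖y‖ ^ n := by
  have hM0 : 0 ≤ M := (norm_nonneg _).trans (hM (z₀ + 1) (by simp))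
  have hc : ∀ i, ‖(i.factorial : ℂ)⁻¹ * iteratedDeriv i g z₀‖ ≤ M := by
    intro i
    have h1 := Complex.norm_iteratedDeriv_le_of_forall_mem_sphere_norm_le i one_pos
      (hg.diffContOnCl (s := Metric.ball z₀ 1)) hM
    rw [one_pow, div_one] at h1
    have hm : (0 : ℝ) < i.factorial := by exact_mod_cast i.factorial_pos
    rw [norm_mul, norm_inv, Complex.norm_natCast]
    calc (i.factorial : ℝ)⁻¹ * ‖iteratedDeriv i g z₀‖ ≤ (i.factorial : ℝ)⁻¹ * (i.factorial * M) :=
          mul_le_mul_of_nonneg_left h1 (by positivity)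
      _ = M := by field_simp
  have hs := Complex.hasSum_taylorSeries_of_entire hg z₀ (z₀ + y)
  have hs' : HasSum (fun i : ℕ => (i.factorial : ℂ)⁻¹ * iteratedDeriv i g z₀ * y ^ i) (g (z₀ + y)) := by
    refine hs.congr_fun ?_ |> fun h => h
    intro i
    simp only [smul_eq_mul, add_sub_cancel_left]
    ring
  have h2 := (hasSum_nat_add_iff' n).2 hs'
  have hy0 : 0 ≤ ‖y‖ := norm_nonneg y
  have hgeo : HasSum (fun i : ℕ => M * ‖y‖ ^ n * ‖y‖ ^ i) (M * ‖y‖ ^ n * (1 - ‖y‖)⁻¹) :=
    (hasSum_geometric_of_lt_one hy0 (by linarith)).mul_left _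
  refine (h2.norm_le_of_bounded hgeo fun i => ?_).trans ?_
  · rw [norm_mul, norm_pow]
    calc ‖((i + n).factorial : ℂ)⁻¹ * iteratedDeriv (i + n) g z₀‖ * ‖y‖ ^ (i + n)
        ≤ M * ‖y‖ ^ (i + n) := mul_le_mul_of_nonneg_right (hc _) (by positivity)
      _ = M * ‖y‖ ^ n * ‖y‖ ^ i := by rw [pow_add]; ring
  · have h3 : (1 - ‖y‖)⁻¹ ≤ 2 := by
      rw [inv_le_comm₀ (by linarith) (by norm_num)]
      linarith
    calc M * ‖y‖ ^ n * (1 - ‖y‖)⁻¹ ≤ M * ‖y‖ ^ n * 2 :=
          mul_le_mul_of_nonneg_left h3 (by positivity)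
      _ = _ := by ring

private theorem ZLk_ord {g : ℂ → ℂ} (hg : Differentiable ℂ g) (z₀ : ℂ) (k : ℕ) :
    ((k : ℤ) : WithTop ℤ) ≤ meromorphicOrderAt g z₀ ↔ ∀ i < k, iteratedDeriv i g z₀ = 0 := by
  have ha : AnalyticAt ℂ g z₀ := hg.analyticAt z₀
  rw [ha.meromorphicOrderAt_eq, ← natCast_le_analyticOrderAt_iff_iteratedDeriv_eq_zero ha]
  cases h : analyticOrderAt g z₀ with
  | top => simp
  | coe n =>
    rw [ENat.map_natCast, Nat.cast_le]
    exact_mod_cast Iff.rfl

/-- an entire function with uncountably many zeros -/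
private theorem ZLk_unc {f : ℂ → ℂ} (hf : Differentiable ℂ f) {A : Set ℂ} (hA : ¬ A.Countable)
    (h : ∀ t ∈ A, f t = 0) : ∀ t, f t = 0 := by
  by_contra hne
  push Not at hne
  obtain ⟨t₁, ht₁⟩ := hne
  apply hA
  set Z : Set ℂ := {t | f t = 0} with hZ
  have hZc : Z.Countable := by
    have hd : DiscreteTopology Z := by
      rw [discreteTopology_subtype_iff]
      intro x _
      have han : AnalyticOnNhd ℂ f Set.univ := fun z _ => hf.analyticAt z
      rcases (hf.analyticAt x).eventually_eq_zero_or_eventually_ne_zero with h1 | h1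
      · exact absurd (han.eqOn_zero_of_preconnected_of_eventuallyEq_zero isPreconnected_univ
          (Set.mem_univ x) h1 (Set.mem_univ t₁)) ht₁
      · rw [← disjoint_iff, Filter.disjoint_principal_right]
        filter_upwards [h1] with z hz
        exact hz
    exact (Set.countable_coe_iff).1 countable_of_Lindelof_of_discrete
  exact hZc.mono fun t ht => h t ht

theorem line_ent {F : ℂ × ℂ → ℂ} (hF : Differentiable ℂ F) {l μ : ℂ} {k : ℕ} {A : Set ℂ}
    (hA : ¬ A.Countable)
    (h : ∀ t ∈ A, ((k : ℤ) : WithTop ℤ) ≤ meromorphicOrderAt (fun y => F (t, y)) (l * t + μ)) :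
    (∀ t, ((k : ℤ) : WithTop ℤ) ≤ meromorphicOrderAt (fun y => F (t, y)) (l * t + μ)) ∧
      (l ≠ 0 → ∀ t, ((k : ℤ) : WithTop ℤ) ≤
        meromorphicOrderAt (fun r => F (r, l * t + μ)) t) := by
  have hd : ∀ t, Differentiable ℂ (fun y => F (t, y)) := fun t =>
    hF.comp ((differentiable_const t).prodMk differentiable_id)
  have hd' : ∀ y, Differentiable ℂ (fun t => F (t, y)) := fun y =>
    hF.comp (differentiable_id.prodMk (differentiable_const y))
  simp only [ZLk_ord (hd _)] at h ⊢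
  -- bounds on compact sets
  have hbd : ∀ R : ℝ, ∃ M : ℝ, ∀ t, ‖t‖ ≤ R → ∀ z ∈ Metric.sphere (l * t + μ) 1, ‖F (t, z)‖ ≤ M := by
    intro R
    obtain ⟨M, hM⟩ := ((isCompact_closedBall (0 : ℂ) R).prod
      (isCompact_closedBall (0 : ℂ) (‖l‖ * R + ‖μ‖ + 1))).exists_bound_of_continuousOn
        hF.continuous.continuousOn
    refine ⟨M, fun t ht z hz => hM (t, z) ⟨mem_closedBall_zero_iff.2 ht, ?_⟩⟩
    rw [mem_closedBall_zero_iff]
    rw [mem_sphere_iff_norm] at hz
    have h1 : ‖z‖ ≤ ‖l * t + μ‖ + 1 := by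
      calc ‖z‖ = ‖(l * t + μ) + (z - (l * t + μ))‖ := by rw [add_sub_cancel]
        _ ≤ _ := by rw [← hz]; exact norm_add_le _ _
    have h2 : ‖l * t + μ‖ ≤ ‖l‖ * R + ‖μ‖ := by
      refine (norm_add_le _ _).trans ?_
      rw [norm_mul]
      have := mul_le_mul_of_nonneg_left ht (norm_nonneg l)
      linarith
    linarith
  -- all coefficients vanish
  have key : ∀ j, j ≤ k → ∀ t, ∀ i < j, iteratedDeriv i (fun y => F (t, y)) (l * t + μ) = 0 := by
    intro j
    induction j with
    | zero => exact fun _ t i hi => absurd hi (Nat.not_lt_zero i)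
    | succ j ih =>
      intro hj t i hi
      have ih' := ih (Nat.le_of_succ_le hj)
      rcases Nat.lt_succ_iff_lt_or_eq.1 hi with h1 | h1
      · exact ih' t i h1
      rw [h1]
      -- the coefficient `j`
      set c : ℂ → ℂ := fun t => (j.factorial : ℂ)⁻¹ * iteratedDeriv j (fun y => F (t, y)) (l * t + μ) with hc
      have hcd : Differentiable ℂ c := by
        intro t₀
        set R : ℝ := ‖t₀‖ + 1 with hR
        obtain ⟨M, hM⟩ := hbd R
        set f : ℕ → ℂ → ℂ := fun n t => F (t, l * t + μ + ((n : ℂ) + 2)⁻¹) * ((n : ℂ) + 2) ^ j with hf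
        have hlim : TendstoUniformlyOn f c atTop (Metric.ball 0 R) := by
          rw [Metric.tendstoUniformlyOn_iff]
          intro ε hε
          obtain ⟨N, hN⟩ := exists_nat_gt (2 * M / ε)
          filter_upwards [eventually_ge_atTop N] with n hn t ht
          rw [mem_ball_zero_iff] at ht
          have hn2 : ‖(n : ℂ) + 2‖ = n + 2 := by
            have : (n : ℂ) + 2 = ((n + 2 : ℕ) : ℂ) := by push_cast; ring
            rw [this, Complex.norm_natCast]
            push_cast
            ring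
          have hn0 : (0 : ℝ) < n + 2 := by positivity
          have hne : (n : ℂ) + 2 ≠ 0 := by
            rw [← norm_pos_iff, hn2]
            exact hn0
          have hy : ‖((n : ℂ) + 2)⁻¹‖ = ((n : ℝ) + 2)⁻¹ := by rw [norm_inv, hn2]
          have hy2 : ‖((n : ℂ) + 2)⁻¹‖ ≤ 1 / 2 := by
            rw [hy, inv_le_comm₀ hn0 (by norm_num)]
            have : (0 : ℝ) ≤ n := Nat.cast_nonneg n
            norm_num
          have h3 := ZLk_tay (hd t) (hM t ht.le) (j + 1) hy2
          rw [Finset.sum_range_succ, Finset.sum_eq_zero (s := Finset.range j), zero_add] at h3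
          · rw [dist_comm, dist_eq_norm]
            have h4 : f n t - c t = (F (t, l * t + μ + ((n : ℂ) + 2)⁻¹) -
                (j.factorial : ℂ)⁻¹ * iteratedDeriv j (fun y => F (t, y)) (l * t + μ) *
                  ((n : ℂ) + 2)⁻¹ ^ j) * ((n : ℂ) + 2) ^ j := by
              simp only [hf, hc]
              rw [sub_mul, mul_assoc _ (((n : ℂ) + 2)⁻¹ ^ j), ← mul_pow, inv_mul_cancel₀ hne, one_pow,
                mul_one]
            rw [h4, norm_mul, norm_pow, hn2]
            have hM0 : 0 ≤ M := (norm_nonneg _).trans (hM t ht.le (l * t + μ + 1) (by simp))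
            calc _ ≤ 2 * M * ‖((n : ℂ) + 2)⁻¹‖ ^ (j + 1) * ((n : ℝ) + 2) ^ j :=
                  mul_le_mul_of_nonneg_right h3 (by positivity)
              _ = 2 * M * ((n : ℝ) + 2)⁻¹ := by
                  rw [hy, pow_succ]
                  have h7 : ((n : ℝ) + 2)⁻¹ ^ j * ((n : ℝ) + 2) ^ j = 1 := by
                    rw [← mul_pow, inv_mul_cancel₀ hn0.ne', one_pow]
                  linear_combination 2 * M * ((n : ℝ) + 2)⁻¹ * h7
              _ < ε := by
                  rw [div_lt_iff₀ hε] at hN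
                  rw [← div_eq_mul_inv, div_lt_iff₀ hn0]
                  have h5 : (N : ℝ) ≤ n := by exact_mod_cast hn
                  nlinarith
          · intro i hi
            rw [ih' t i (Finset.mem_range.1 hi), mul_zero, zero_mul]
        have hfd : ∀ n, DifferentiableOn ℂ (f n) (Metric.ball 0 R) := by
          intro n
          have h6 : Differentiable ℂ (fun t : ℂ => (t, l * t + μ + ((n : ℂ) + 2)⁻¹)) := by
            fun_prop
          exact ((hF.comp h6).mul_const _).differentiableOn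
        exact (hlim.tendstoLocallyUniformlyOn.differentiableOn (Eventually.of_forall hfd)
          Metric.isOpen_ball).differentiableAt (Metric.isOpen_ball.mem_nhds (by
            rw [mem_ball_zero_iff, hR]; linarith))
      have hc0 := ZLk_unc hcd hA (fun t ht => by
        simp only [hc]
        rw [h t ht j (Nat.lt_of_succ_le hj), mul_zero]) t
      have hfac : (j.factorial : ℂ)⁻¹ ≠ 0 := inv_ne_zero (by exact_mod_cast j.factorial_ne_zero)
      exact (mul_eq_zero.1 hc0).resolve_left hfac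
  refine ⟨key k le_rfl, fun hl t => ?_⟩
  rw [ZLk_ord (hd' _)]
  -- the other variable
  by_contra hcon
  push Not at hcon
  have hex : ∃ i, i < k ∧ iteratedDeriv i (fun r => F (r, l * t + μ)) t ≠ 0 := hcon
  classical
  set i := Nat.find hex with hi
  obtain ⟨hik, hine⟩ := Nat.find_spec hex
  rw [← hi] at hik hine
  have hmin : ∀ i' < i, iteratedDeriv i' (fun r => F (r, l * t + μ)) t = 0 := by
    intro i' hi'
    by_contra hne
    exact Nat.find_min hex hi' ⟨hi'.trans hik, hne⟩
  obtain ⟨M, hM⟩ := hbd (‖t‖ + 1)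
  obtain ⟨M', hM'⟩ : ∃ M', ∀ z ∈ Metric.sphere t 1, ‖F (z, l * t + μ)‖ ≤ M' :=
    (isCompact_sphere t 1).exists_bound_of_continuousOn (hd' _).continuous.continuousOn
  set ci : ℂ := (i.factorial : ℂ)⁻¹ * iteratedDeriv i (fun r => F (r, l * t + μ)) t with hci
  have hci0 : ci ≠ 0 := mul_ne_zero (inv_ne_zero (by exact_mod_cast i.factorial_ne_zero)) hine
  have hM0 : 0 ≤ M := (norm_nonneg _).trans (hM t (by linarith [norm_nonneg t]) (l * t + μ + 1) (by simp))
  have hM0' : 0 ≤ M' := (norm_nonneg _).trans (hM' (t + 1) (by simp))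
  have hest : ∀ r : ℝ, 0 < r → r ≤ 1 / 2 → ‖l‖ * r ≤ 1 / 2 → ‖ci‖ ≤ (2 * M * ‖l‖ ^ k + 2 * M') * r := by
    intro r hr hr2 hlr
    have hnr : ‖(r : ℂ)‖ = r := by rw [Complex.norm_real, Real.norm_of_nonneg hr.le]
    have h1 := ZLk_tay (hd' (l * t + μ)) hM' (i + 1) (y := (r : ℂ)) (by rw [hnr]; exact hr2)
    rw [Finset.sum_range_succ, Finset.sum_eq_zero (s := Finset.range i), zero_add, hnr] at h1
    · have h2 := ZLk_tay (hd (t + r)) (hM (t + r) (by
        refine (norm_add_le _ _).trans ?_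
        rw [hnr]
        linarith)) k (y := -(l * r)) (by rw [norm_neg, norm_mul, hnr]; exact hlr)
      rw [Finset.sum_eq_zero, sub_zero, norm_neg, norm_mul, hnr] at h2
      · have h3 : l * (t + r) + μ + -(l * r) = l * t + μ := by ring
        rw [h3] at h2
        have h4 : ‖ci * (r : ℂ) ^ i‖ ≤ 2 * M * (‖l‖ * r) ^ k + 2 * M' * r ^ (i + 1) := by
          calc ‖ci * (r : ℂ) ^ i‖ = ‖F (t + r, l * t + μ) - (F (t + r, l * t + μ) - ci * (r : ℂ) ^ i)‖ := by
                rw [sub_sub_cancel]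
            _ ≤ _ := (norm_sub_le _ _).trans (add_le_add h2 h1)
        rw [norm_mul, norm_pow, hnr] at h4
        have hri : 0 < r ^ i := pow_pos hr i
        have h5 : r ^ k ≤ r ^ (i + 1) := pow_le_pow_of_le_one hr.le (by linarith) hik
        have h6 : ‖ci‖ * r ^ i ≤ ((2 * M * ‖l‖ ^ k + 2 * M') * r) * r ^ i := by
          calc ‖ci‖ * r ^ i ≤ 2 * M * (‖l‖ * r) ^ k + 2 * M' * r ^ (i + 1) := h4
            _ = 2 * M * ‖l‖ ^ k * r ^ k + 2 * M' * r ^ (i + 1) := by rw [mul_pow]; ring
            _ ≤ 2 * M * ‖l‖ ^ k * r ^ (i + 1) + 2 * M' * r ^ (i + 1) := by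
                have : 0 ≤ 2 * M * ‖l‖ ^ k := by positivity
                have := mul_le_mul_of_nonneg_left h5 this
                linarith
            _ = _ := by rw [pow_succ]; ring
        exact le_of_mul_le_mul_right h6 hri
      · intro i' hi'
        rw [key k le_rfl (t + r) i' (Finset.mem_range.1 hi'), mul_zero, zero_mul]
    · intro i' hi'
      rw [hmin i' (Finset.mem_range.1 hi'), mul_zero, zero_mul]
  have hpos : 0 < ‖ci‖ := norm_pos_iff.2 hci0
  set B : ℝ := 2 * M * ‖l‖ ^ k + 2 * M' with hB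
  have hB0 : 0 ≤ B := by positivity
  set r : ℝ := min (1 / 2) (min (1 / (2 * (‖l‖ + 1))) (‖ci‖ / (2 * (B + 1)))) with hr
  have hr0 : 0 < r := by
    refine lt_min (by norm_num) (lt_min ?_ ?_)
    · positivity
    · positivity
  have h1 := hest r hr0 (min_le_left _ _) (by
    have h2 : r ≤ 1 / (2 * (‖l‖ + 1)) := (min_le_right _ _).trans (min_le_left _ _)
    calc ‖l‖ * r ≤ (‖l‖ + 1) * (1 / (2 * (‖l‖ + 1))) :=
          mul_le_mul (by linarith) h2 hr0.le (by positivity)
      _ = 1 / 2 := by field_simp)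
  have h2 : r ≤ ‖ci‖ / (2 * (B + 1)) := (min_le_right _ _).trans (min_le_right _ _)
  have h3 : B * r ≤ ‖ci‖ / 2 := by
    calc B * r ≤ (B + 1) * (‖ci‖ / (2 * (B + 1))) := mul_le_mul (by linarith) h2 hr0.le (by positivity)
      _ = ‖ci‖ / 2 := by field_simp
  linarith

variable {w τ c₁ c₂ : ℂ} {N : ℕ} {a b : ℤ}

theorem line_FF (h : ZD w τ c₁ c₂ N a b) {L₁ L₂ K : ℕ} {p : ℕ → ℕ → ℕ → ℂ} {l μ : ℂ} {k : ℕ}
    {A : Set ℂ} (hA : ¬ A.Countable)
    (hk : ∀ t ∈ A, ((k : ℤ) : WithTop ℤ) ≤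
      meromorphicOrderAt (fun y => FF w τ c₁ c₂ a b L₁ L₂ K p (t, y)) (l * t + μ)) :
    (∀ t, Go w τ t → ((k : ℤ) : WithTop ℤ) ≤
      meromorphicOrderAt (fun y => FF w τ c₁ c₂ a b L₁ L₂ K p (t, y)) (l * t + μ) +
        ((2 * L₂ + 2 * K : ℕ) : ℤ)) ∧
      (l ≠ 0 → ∀ t, Go w τ (l * t + μ) → ((k : ℤ) : WithTop ℤ) ≤
        meromorphicOrderAt (fun r => FF w τ c₁ c₂ a b L₁ L₂ K p (r, l * t + μ)) t +
          ((2 * L₁ + 2 * K : ℕ) : ℤ)) := by
  obtain ⟨s, e, E⟩ := exists_en h.ind1
  obtain ⟨s₃, e₃, E₃⟩ := exists_en h.ind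
  have hN : Differentiable ℂ (NN s e s₃ e₃ a b L₁ L₂ K p) := NN_diff E.ds E.de E₃.ds E₃.de L₁ L₂ K p
  have hA' : ¬ (A ∩ {t | Go w τ t}).Countable := by
    intro hc
    apply hA
    refine (hc.union (go_countable h)).mono fun t ht => ?_
    by_cases hg : Go w τ t
    · exact Or.inl ⟨ht, hg⟩
    · exact Or.inr hg
  obtain ⟨h1, h2⟩ := line_ent hN hA' (l := l) (μ := μ) (k := k) (fun t ht =>
    (hk t ht.1).trans (ord_le₁ h E E₃ L₁ L₂ K p ht.2 _).1)
  exact ⟨fun t ht => (h1 t).trans (ord_le₁ h E E₃ L₁ L₂ K p ht _).2,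
    fun hl t ht => (h2 hl t).trans (ord_le₂ h E E₃ L₁ L₂ K p ht _)⟩

end Pool.Agent.LGO.F
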