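import Mathlib
import Pool.Agent.EllSch.Add
import Pool.Agent.EllSch.Hom
import Pool.Agent.EllSch.RelA

/-!
# LGO/F (note 3060, zero estimate): sum and product of `℘(u + v)`, `℘(u - v)`

PROOF.  `Ex_pair` in `LGO/Mul/Ex.lean` is the first formula (private, copy it).  The product: by the addition theorem `wp_add`
`4 (p₁ - p₂)² ℘(u ± v) = (q₁ ∓ q₂)² - 4 (p₁ + p₂) (p₁ - p₂)²`, multiply the two, use `q_i² = 4 p_i³ - g2 p_i - g3` (`ode`) and divide by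
`(p₁ - p₂)²` (`field_simp`, `linear_combination` with polynomial multiples of the two equations `ode`; e.g. by hand:
`(q₁ - q₂)² (q₁ + q₂)² = (q₁² - q₂²)²` and `(q₁ - q₂)² + (q₁ + q₂)² = 2 (q₁² + q₂²)`).
-/

namespace Pool.Agent.LGO.F

open Pool.Agent.EllSch

private theorem ZAdd_sum {X Y x y g g' : ℂ} (hd : X - Y ≠ 0)
    (o1 : x ^ 2 = 4 * X ^ 3 - g * X - g') (o2 : y ^ 2 = 4 * Y ^ 3 - g * Y - g') :
    (((x - y) / (X - Y)) ^ 2 / 4 - X - Y) + (((x + y) / (X - Y)) ^ 2 / 4 - X - Y) =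
      ((2 * X * Y - g / 2) * (X + Y) - g') / (X - Y) ^ 2 := by
  field_simp
  linear_combination 4 * o1 + 4 * o2

private theorem ZAdd_prod {X Y x y g g' : ℂ} (hd : X - Y ≠ 0)
    (o1 : x ^ 2 = 4 * X ^ 3 - g * X - g') (o2 : y ^ 2 = 4 * Y ^ 3 - g * Y - g') :
    (((x - y) / (X - Y)) ^ 2 / 4 - X - Y) * (((x + y) / (X - Y)) ^ 2 / 4 - X - Y) =
      ((X * Y + g / 4) ^ 2 + g' * (X + Y)) / (X - Y) ^ 2 := by
  have hd4 : (X - Y) ^ 4 ≠ 0 := pow_ne_zero 4 hd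
  have h1 : (((x - y) / (X - Y)) ^ 2 / 4 - X - Y) * (((x + y) / (X - Y)) ^ 2 / 4 - X - Y) =
      ((x - y) ^ 2 - 4 * (X + Y) * (X - Y) ^ 2) * ((x + y) ^ 2 - 4 * (X + Y) * (X - Y) ^ 2) /
        (16 * (X - Y) ^ 4) := by
    field_simp
    ring
  have h2 : ((X * Y + g / 4) ^ 2 + g' * (X + Y)) / (X - Y) ^ 2 =
      (16 * (X - Y) ^ 2 * ((X * Y + g / 4) ^ 2 + g' * (X + Y))) / (16 * (X - Y) ^ 4) := by
    field_simp
  rw [h1, h2]
  congr 1
  linear_combination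
    (x ^ 2 - y ^ 2 + (4 * X ^ 3 - g * X - g') - (4 * Y ^ 3 - g * Y - g') -
      8 * (X + Y) * (X - Y) ^ 2) * o1 +
    (-(x ^ 2 - y ^ 2 + (4 * X ^ 3 - g * X - g') - (4 * Y ^ 3 - g * Y - g')) -
      8 * (X + Y) * (X - Y) ^ 2) * o2

theorem wp_pair {a b u v : ℂ} (h : Ind a b) (hu : Off a b u) (hv : Off a b v)
    (h1 : Off a b (u + v)) (h2 : Off a b (u - v)) :
    wp a b u ≠ wp a b v ∧
    wp a b (u + v) + wp a b (u - v) =
      ((2 * wp a b u * wp a b v - G2 a b / 2) * (wp a b u + wp a b v) - G3 a b) /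
        (wp a b u - wp a b v) ^ 2 ∧
    wp a b (u + v) * wp a b (u - v) =
      ((wp a b u * wp a b v + G2 a b / 4) ^ 2 + G3 a b * (wp a b u + wp a b v)) /
        (wp a b u - wp a b v) ^ 2 := by
  have hne : wp a b u ≠ wp a b v := by
    intro he
    obtain ⟨x, hx⟩ := Hom.exists_of_wp_eq h hu hv h1 he
    exact h2 x (by rw [hx]; ring)
  have hne' : wp a b u - wp a b v ≠ 0 := sub_ne_zero.2 hne
  have e1 := wp_add h hu hv h1 hne
  have e2 := wp_add h hu (off_neg.2 hv) (by rw [← sub_eq_add_neg]; exact h2)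
    (by rw [wp_neg h]; exact hne)
  rw [wp_neg h, wq_neg h, ← sub_eq_add_neg, sub_neg_eq_add] at e2
  have o1 := ode h hu
  have o2 := ode h hv
  refine ⟨hne, ?_, ?_⟩
  · rw [e1, e2]
    exact ZAdd_sum hne' o1 o2
  · rw [e1, e2]
    exact ZAdd_prod hne' o1 o2

end Pool.Agent.LGO.F
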