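import Mathlib
import Pool.Agent.LGO.F.ZAdd
import Pool.Agent.LGO.F.ZXx

/-!
# LGO/F (note 3060, zero estimate (i)): the quadratic equation of `W² ℘(u ± v)`

PROOF.  `A₁ / B₁ = ℘(u)`, `A₂ / B₂ = ℘(v)` (`∞` if `B = 0`).  If `u, v` are off the lattice: `wp_pair` (`p_i = A_i / B_i`), `W = B₁ B₂ (p₁ - p₂)`, multiply out.
If `u` is a lattice point: `B₁ = 0`, `A₁ ≠ 0`, `v` is off the lattice (because `u + v` is), `℘(u + v) = ℘(v)`, `℘(u - v) = ℘(v)` (periodic, even):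
`W = A₁ B₂`, `S = 2 A₁² A₂ B₂`, `Π = (A₁ A₂)²`.  If `v` is a lattice point: the same.
-/

namespace Pool.Agent.LGO.F

open Pool.Agent.EllSch

private theorem ZGa_off {p₁ p₂ B₁ B₂ g g' P Q : ℂ} (hB₁ : B₁ ≠ 0) (hB₂ : B₂ ≠ 0)
    (hne : p₁ ≠ p₂)
    (hs : P + Q = ((2 * p₁ * p₂ - g / 2) * (p₁ + p₂) - g') / (p₁ - p₂) ^ 2)
    (hp : P * Q = ((p₁ * p₂ + g / 4) ^ 2 + g' * (p₁ + p₂)) / (p₁ - p₂) ^ 2) :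
    (p₁ * B₁) * B₂ - (p₂ * B₂) * B₁ ≠ 0 ∧
    ((p₁ * B₁) * B₂ - (p₂ * B₂) * B₁) ^ 2 * P + ((p₁ * B₁) * B₂ - (p₂ * B₂) * B₁) ^ 2 * Q =
      (2 * (p₁ * B₁) * (p₂ * B₂) - g / 2 * B₁ * B₂) * ((p₁ * B₁) * B₂ + (p₂ * B₂) * B₁) -
        g' * B₁ ^ 2 * B₂ ^ 2 ∧
    (((p₁ * B₁) * B₂ - (p₂ * B₂) * B₁) ^ 2 * P) * (((p₁ * B₁) * B₂ - (p₂ * B₂) * B₁) ^ 2 * Q) =
      (((p₁ * B₁) * (p₂ * B₂) + g / 4 * B₁ * B₂) ^ 2 +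
        g' * B₁ * B₂ * ((p₁ * B₁) * B₂ + (p₂ * B₂) * B₁)) *
        ((p₁ * B₁) * B₂ - (p₂ * B₂) * B₁) ^ 2 := by
  have hd : p₁ - p₂ ≠ 0 := sub_ne_zero.2 hne
  have hd2 : (p₁ - p₂) ^ 2 ≠ 0 := pow_ne_zero 2 hd
  have e : (p₁ * B₁) * B₂ - (p₂ * B₂) * B₁ = B₁ * B₂ * (p₁ - p₂) := by ring
  rw [eq_div_iff hd2] at hs hp
  rw [e]
  refine ⟨mul_ne_zero (mul_ne_zero hB₁ hB₂) hd, ?_, ?_⟩
  · linear_combination B₁ ^ 2 * B₂ ^ 2 * hs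
  · linear_combination B₁ ^ 4 * B₂ ^ 4 * (p₁ - p₂) ^ 2 * hp

theorem theta {c₁ c₂ : ℂ} (h : Ind c₁ c₂) {u v A₁ B₁ A₂ B₂ : ℂ} (hp : Off c₁ c₂ (u + v))
    (hm : Off c₁ c₂ (u - v)) (h1 : Off c₁ c₂ u → B₁ ≠ 0 ∧ wp c₁ c₂ u * B₁ = A₁)
    (h1' : ¬ Off c₁ c₂ u → B₁ = 0 ∧ A₁ ≠ 0) (h2 : Off c₁ c₂ v → B₂ ≠ 0 ∧ wp c₁ c₂ v * B₂ = A₂)
    (h2' : ¬ Off c₁ c₂ v → B₂ = 0 ∧ A₂ ≠ 0) :
    A₁ * B₂ - A₂ * B₁ ≠ 0 ∧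
    (A₁ * B₂ - A₂ * B₁) ^ 2 * wp c₁ c₂ (u + v) + (A₁ * B₂ - A₂ * B₁) ^ 2 * wp c₁ c₂ (u - v) =
      (2 * A₁ * A₂ - G2 c₁ c₂ / 2 * B₁ * B₂) * (A₁ * B₂ + A₂ * B₁) -
        G3 c₁ c₂ * B₁ ^ 2 * B₂ ^ 2 ∧
    ((A₁ * B₂ - A₂ * B₁) ^ 2 * wp c₁ c₂ (u + v)) * ((A₁ * B₂ - A₂ * B₁) ^ 2 * wp c₁ c₂ (u - v)) =
      ((A₁ * A₂ + G2 c₁ c₂ / 4 * B₁ * B₂) ^ 2 +
        G3 c₁ c₂ * B₁ * B₂ * (A₁ * B₂ + A₂ * B₁)) * (A₁ * B₂ - A₂ * B₁) ^ 2 := by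
  by_cases hu : Off c₁ c₂ u
  · by_cases hv : Off c₁ c₂ v
    · obtain ⟨hB₁, rfl⟩ := h1 hu
      obtain ⟨hB₂, rfl⟩ := h2 hv
      obtain ⟨hne, hs, hq⟩ := wp_pair h hu hv hp hm
      exact ZGa_off hB₁ hB₂ hne hs hq
    · obtain ⟨hB₁, rfl⟩ := h1 hu
      obtain ⟨rfl, hA₂⟩ := h2' hv
      have hv' : ∃ x, v = lat c₁ c₂ x := by
        by_contra hh
        push Not at hh
        exact hv hh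
      obtain ⟨x, rfl⟩ := hv'
      have e1 : wp c₁ c₂ (u + lat c₁ c₂ x) = wp c₁ c₂ u := wp_add_lat h u x
      have e2 : wp c₁ c₂ (u - lat c₁ c₂ x) = wp c₁ c₂ u := by
        have := wp_add_lat h (u - lat c₁ c₂ x) x
        rw [sub_add_cancel] at this
        exact this.symm
      rw [e1, e2]
      refine ⟨?_, ?_, ?_⟩
      · rw [mul_zero, zero_sub]
        exact neg_ne_zero.2 (mul_ne_zero hA₂ hB₁)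
      · ring
      · ring
  · have hu' : ∃ x, u = lat c₁ c₂ x := by
      by_contra hh
      push Not at hh
      exact hu hh
    obtain ⟨rfl, hA₁⟩ := h1' hu
    obtain ⟨x, rfl⟩ := hu'
    have hv : Off c₁ c₂ v := by
      rw [add_comm, off_add_lat] at hp
      exact hp
    obtain ⟨hB₂, rfl⟩ := h2 hv
    have e1 : wp c₁ c₂ (lat c₁ c₂ x + v) = wp c₁ c₂ v := by
      rw [add_comm]
      exact wp_add_lat h v x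
    have e2 : wp c₁ c₂ (lat c₁ c₂ x - v) = wp c₁ c₂ v := by
      rw [sub_eq_add_neg, add_comm, wp_add_lat h, wp_neg h]
    rw [e1, e2]
    refine ⟨?_, ?_, ?_⟩
    · rw [mul_zero, sub_zero]
      exact mul_ne_zero hA₁ hB₂
    · ring
    · ring

end Pool.Agent.LGO.F
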