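import Mathlib
import Pool.Agent.LGO.A.MulBasic

/-!
# LGO/F (note 3060, zero estimate): the norm of a polynomial expression in a root of a quadratic equation

`θ, θ'` are the roots of `X² - S X + P`.  `∑_(k < K) c_k V^k θ^(K - 1 - k) = A θ + B`, and `(A θ + B) (A θ' + B) = A² P + A B S + B²`.

PROOF.  `a₀ = 0, b₀ = 1`, `a_(m+1) = b_m + S a_m`, `b_(m+1) = - P a_m`: `θ^m = a_m θ + b_m` (from `θ² = S θ - P`, `P = θ θ'`,
`S = θ + θ'`), degrees (in each variable) `a_m ≤ (m - 1) d`, `b_m ≤ m d` (`a_m = 0` for `m = 0`; use `d * m` for both, in the form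
`dX a_m + d ≤ m d` or `a_m = 0`).  `A = ∑ c_k V^k a_(K-1-k)`, `B = ∑ c_k V^k b_(K-1-k)`: `dX A + d ≤ D + (K - 1) d` or `A = 0`
(for `K = 1`, `A = 0`), `dX B ≤ D + (K - 1) d`.  `dX` of sums and products: `dX` is the `natDegree` of `swap`
(`natDegree_add_le`, `natDegree_mul_le`).
-/

namespace Pool.Agent.LGO.F

open Polynomial Pool.Agent.LGO.Mul
open scoped Polynomial.Bivariate

/-- the properties of a degree which we use -/
private structure ZNorm_Deg (f : ℂ[X][Y] → ℕ) : Prop where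
  zero : f 0 = 0
  one : f 1 = 0
  neg : ∀ a, f (-a) ≤ f a
  add : ∀ a b, f (a + b) ≤ max (f a) (f b)
  mul : ∀ a b, f (a * b) ≤ f a + f b

/-- `a` is zero or has degree at most `n` -/
private def ZNorm_Dg (f : ℂ[X][Y] → ℕ) (n : ℤ) (a : ℂ[X][Y]) : Prop := a = 0 ∨ (f a : ℤ) ≤ n

private theorem ZNorm_dY : ZNorm_Deg dY where
  zero := natDegree_zero
  one := natDegree_one
  neg a := (natDegree_neg a).le
  add a b := natDegree_add_le a b
  mul _ _ := natDegree_mul_le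

private theorem ZNorm_dX : ZNorm_Deg dX where
  zero := by unfold dX; rw [map_zero, natDegree_zero]
  one := by unfold dX; rw [map_one, natDegree_one]
  neg a := by unfold dX; rw [map_neg, natDegree_neg]
  add a b := by unfold dX; rw [map_add]; exact natDegree_add_le _ _
  mul a b := by unfold dX; rw [map_mul]; exact natDegree_mul_le

private theorem ZNorm_Dg.add {f : ℂ[X][Y] → ℕ} (hf : ZNorm_Deg f) {n : ℤ} {a b : ℂ[X][Y]}
    (ha : ZNorm_Dg f n a) (hb : ZNorm_Dg f n b) : ZNorm_Dg f n (a + b) := by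
  rcases ha with rfl | ha
  · rwa [zero_add]
  rcases hb with rfl | hb
  · rw [add_zero]
    exact Or.inr ha
  right
  have h := hf.add a b
  have h' : (f (a + b) : ℤ) ≤ max (f a : ℤ) (f b : ℤ) := by exact_mod_cast h
  exact h'.trans (max_le ha hb)

private theorem ZNorm_Dg.mul {f : ℂ[X][Y] → ℕ} (hf : ZNorm_Deg f) {n m : ℤ} {a b : ℂ[X][Y]}
    (ha : ZNorm_Dg f n a) (hb : ZNorm_Dg f m b) : ZNorm_Dg f (n + m) (a * b) := by
  rcases ha with rfl | ha
  · left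
    rw [zero_mul]
  rcases hb with rfl | hb
  · left
    rw [mul_zero]
  right
  have h := hf.mul a b
  have h' : (f (a * b) : ℤ) ≤ (f a : ℤ) + (f b : ℤ) := by exact_mod_cast h
  linarith

private theorem ZNorm_Dg.neg {f : ℂ[X][Y] → ℕ} (hf : ZNorm_Deg f) {n : ℤ} {a : ℂ[X][Y]}
    (ha : ZNorm_Dg f n a) : ZNorm_Dg f n (-a) := by
  rcases ha with rfl | ha
  · left
    rw [neg_zero]
  right
  have h := hf.neg a
  have h' : (f (-a) : ℤ) ≤ (f a : ℤ) := by exact_mod_cast h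
  linarith

private theorem ZNorm_Dg.mono {f : ℂ[X][Y] → ℕ} {n m : ℤ} {a : ℂ[X][Y]}
    (ha : ZNorm_Dg f n a) (h : n ≤ m) : ZNorm_Dg f m a := by
  rcases ha with rfl | ha
  · exact Or.inl rfl
  · exact Or.inr (ha.trans h)

private theorem ZNorm_Dg.pow {f : ℂ[X][Y] → ℕ} (hf : ZNorm_Deg f) {n : ℤ} {a : ℂ[X][Y]}
    (ha : ZNorm_Dg f n a) (k : ℕ) : ZNorm_Dg f (k * n) (a ^ k) := by
  induction k with
  | zero =>
    right
    rw [pow_zero, hf.one]
    simp
  | succ k ih =>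
    rw [pow_succ]
    refine (ih.mul hf ha).mono ?_
    push_cast
    linarith

private theorem ZNorm_Dg.sum {f : ℂ[X][Y] → ℕ} (hf : ZNorm_Deg f) {n : ℤ} (s : Finset ℕ)
    (a : ℕ → ℂ[X][Y]) (ha : ∀ k ∈ s, ZNorm_Dg f n (a k)) : ZNorm_Dg f n (∑ k ∈ s, a k) := by
  classical
  induction s using Finset.induction_on with
  | empty =>
    left
    rw [Finset.sum_empty]
  | insert k s hk ih =>
    rw [Finset.sum_insert hk]
    exact (ha k (Finset.mem_insert_self _ _)).add hf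
      (ih fun j hj => ha j (Finset.mem_insert_of_mem hj))

/-- `θ ^ m = a_m θ + b_m` -/
private noncomputable def ZNorm_seq (S P : ℂ[X][Y]) : ℕ → ℂ[X][Y] × ℂ[X][Y]
  | 0 => (0, 1)
  | m + 1 => ((ZNorm_seq S P m).2 + S * (ZNorm_seq S P m).1, -(P * (ZNorm_seq S P m).1))

private theorem ZNorm_seq_eval (S P : ℂ[X][Y]) {x y θ : ℂ}
    (h : θ ^ 2 = S.evalEval x y * θ - P.evalEval x y) (m : ℕ) :
    θ ^ m = (ZNorm_seq S P m).1.evalEval x y * θ + (ZNorm_seq S P m).2.evalEval x y := by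
  induction m with
  | zero =>
    rw [ZNorm_seq, pow_zero]
    simp
  | succ m ih =>
    rw [ZNorm_seq, pow_succ, ih]
    simp only [evalEval_add, evalEval_mul, evalEval_neg]
    linear_combination (ZNorm_seq S P m).1.evalEval x y * h

private theorem ZNorm_seq_deg {f : ℂ[X][Y] → ℕ} (hf : ZNorm_Deg f) {S P : ℂ[X][Y]} {d : ℤ}
    (hS : ZNorm_Dg f d S) (hP : ZNorm_Dg f (2 * d) P) (m : ℕ) :
    ZNorm_Dg f ((m - 1) * d) (ZNorm_seq S P m).1 ∧ ZNorm_Dg f (m * d) (ZNorm_seq S P m).2 := by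
  induction m with
  | zero =>
    refine ⟨Or.inl rfl, Or.inr ?_⟩
    show ((f 1 : ℕ) : ℤ) ≤ _
    rw [hf.one]
    simp
  | succ m ih =>
    obtain ⟨ih1, ih2⟩ := ih
    refine ⟨?_, ?_⟩
    · rw [ZNorm_seq]
      refine (ih2.mono ?_).add hf ((hS.mul hf ih1).mono ?_)
      · push_cast
        linarith
      · push_cast
        linarith
    · rw [ZNorm_seq]
      refine ((hP.mul hf ih1).mono ?_).neg hf
      push_cast
      linarith

private theorem ZNorm_deg {f : ℂ[X][Y] → ℕ} (hf : ZNorm_Deg f) (K : ℕ) (hK : 1 ≤ K) (c : ℕ → ℂ[X][Y])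
    (S P V : ℂ[X][Y]) (D d : ℕ) (hc : ∀ k < K, f (c k) ≤ D) (hS : f S ≤ d) (hV : f V ≤ d)
    (hP : f P ≤ 2 * d) {A B : ℂ[X][Y]}
    (hA : A = ∑ k ∈ Finset.range K, c k * V ^ k * (ZNorm_seq S P (K - 1 - k)).1)
    (hB : B = ∑ k ∈ Finset.range K, c k * V ^ k * (ZNorm_seq S P (K - 1 - k)).2) :
    f (A ^ 2 * P + A * B * S + B ^ 2) ≤ 2 * (D + (K - 1) * d) := by
  have hS' : ZNorm_Dg f d S := Or.inr (by exact_mod_cast hS)
  have hV' : ZNorm_Dg f d V := Or.inr (by exact_mod_cast hV)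
  have hP' : ZNorm_Dg f (2 * d) P := Or.inr (by exact_mod_cast hP)
  have hA' : ZNorm_Dg f (D + (K - 2) * d) A := by
    rw [hA]
    refine ZNorm_Dg.sum hf _ _ fun k hk => ?_
    rw [Finset.mem_range] at hk
    have h1 : ZNorm_Dg f D (c k) := Or.inr (by exact_mod_cast hc k hk)
    refine ((h1.mul hf (hV'.pow hf k)).mul hf (ZNorm_seq_deg hf hS' hP' (K - 1 - k)).1).mono ?_
    have h2 : ((K - 1 - k : ℕ) : ℤ) = K - 1 - k := by omega
    rw [h2]
    linarith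
  have hB' : ZNorm_Dg f (D + (K - 1) * d) B := by
    rw [hB]
    refine ZNorm_Dg.sum hf _ _ fun k hk => ?_
    rw [Finset.mem_range] at hk
    have h1 : ZNorm_Dg f D (c k) := Or.inr (by exact_mod_cast hc k hk)
    refine ((h1.mul hf (hV'.pow hf k)).mul hf (ZNorm_seq_deg hf hS' hP' (K - 1 - k)).2).mono ?_
    have h2 : ((K - 1 - k : ℕ) : ℤ) = K - 1 - k := by omega
    rw [h2]
    linarith
  have hG : ZNorm_Dg f (2 * (D + (K - 1) * d)) (A ^ 2 * P + A * B * S + B ^ 2) := by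
    refine ((((hA'.pow hf 2).mul hf hP').mono ?_).add hf
      ((((hA'.mul hf hB').mul hf hS')).mono ?_)).add hf ((hB'.pow hf 2).mono ?_)
    · push_cast
      linarith
    · linarith
    · push_cast
      linarith
  rcases hG with h | h
  · rw [h, hf.zero]
    exact Nat.zero_le _
  · have h2 : (((2 * (D + (K - 1) * d) : ℕ)) : ℤ) = 2 * (D + (K - 1) * d) := by
      push_cast [Nat.cast_sub hK]
      ring
    rw [← h2] at h
    exact_mod_cast h

theorem exists_norm (K : ℕ) (hK : 1 ≤ K) (c : ℕ → ℂ[X][Y]) (S P V : ℂ[X][Y])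
    (D₁ D₂ d₁ d₂ : ℕ) (hc₁ : ∀ k < K, dX (c k) ≤ D₁) (hc₂ : ∀ k < K, dY (c k) ≤ D₂)
    (hS₁ : dX S ≤ d₁) (hS₂ : dY S ≤ d₂) (hV₁ : dX V ≤ d₁) (hV₂ : dY V ≤ d₂)
    (hP₁ : dX P ≤ 2 * d₁) (hP₂ : dY P ≤ 2 * d₂) :
    ∃ A B G : ℂ[X][Y], dX G ≤ 2 * (D₁ + (K - 1) * d₁) ∧ dY G ≤ 2 * (D₂ + (K - 1) * d₂) ∧
      ∀ x y θ θ' : ℂ, θ + θ' = S.evalEval x y → θ * θ' = P.evalEval x y →
        ∑ k ∈ Finset.range K, (c k).evalEval x y * V.evalEval x y ^ k * θ ^ (K - 1 - k) =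
            A.evalEval x y * θ + B.evalEval x y ∧
          G.evalEval x y = (A.evalEval x y * θ + B.evalEval x y) *
            (A.evalEval x y * θ' + B.evalEval x y) := by
  refine ⟨∑ k ∈ Finset.range K, c k * V ^ k * (ZNorm_seq S P (K - 1 - k)).1,
    ∑ k ∈ Finset.range K, c k * V ^ k * (ZNorm_seq S P (K - 1 - k)).2, _,
    ZNorm_deg ZNorm_dX K hK c S P V D₁ d₁ hc₁ hS₁ hV₁ hP₁ rfl rfl,
    ZNorm_deg ZNorm_dY K hK c S P V D₂ d₂ hc₂ hS₂ hV₂ hP₂ rfl rfl, ?_⟩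
  intro x y θ θ' hs hp
  have hq : θ ^ 2 = S.evalEval x y * θ - P.evalEval x y := by
    rw [← hs, ← hp]
    ring
  refine ⟨?_, ?_⟩
  · have h1 : ∀ g : ℕ → ℂ[X][Y], (∑ k ∈ Finset.range K, g k).evalEval x y =
        ∑ k ∈ Finset.range K, (g k).evalEval x y := fun g =>
      map_sum (evalEvalRingHom x y) g _
    rw [h1, h1, Finset.sum_mul, ← Finset.sum_add_distrib]
    refine Finset.sum_congr rfl fun k _ => ?_
    rw [ZNorm_seq_eval S P hq (K - 1 - k)]
    simp only [evalEval_mul, evalEval_pow]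
    ring
  · simp only [evalEval_add, evalEval_mul, evalEval_pow]
    rw [← hs, ← hp]
    ring

end Pool.Agent.LGO.F
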