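import Mathlib
import Pool.Agent.LGO.F.ZRat
import Pool.Agent.LGO.F.ZGa
import Pool.Agent.LGO.F.ZNorm
import Pool.Agent.LGO.F.ZGen

/-!
# LGO/F (note 3060, zero estimate (i)): the polynomial `G(x₁, x₂)`

`G(℘_(NΛ)(z₁), ℘_(NΛ)(z₂)) = R^(K-1) α(x₁)^(2(L₁-1)) α(x₂)^(2(L₂-1)) f(z₁, z₂) f(z₁, - z₂)`.

PROOF of `exists_GD`.  `exists_rat` (`β = 1`, from `N Λ` to `Λ`: `℘_Λ(z) = α(x) / γ(x)`, `x = xx z`, degrees `≤ 2 N²`), (`β = a`, from `N Λ`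
to `Λ_v`; `a N Λ ⊆ Λ_v` because `N Λ ⊆ Λ_v`; `N |a| Λ_v ⊆ a N Λ` because `Λ_v ⊆ Λ`: `℘_v(a z) = A₁(x) / B₁(x)`, degrees
`≤ 2 (N |a|)² ≤ 2 N⁴`; for negative `a` use `|a|` and evenness, or `β = a` directly), (`β = b`: `A₂, B₂`).  All as polynomials of `X` resp. `Y`:
`A₁(X) = C A₁`, `A₂(Y) = A₂.map C`.  With `g2, g3` the invariants of `Λ_v`:
`W = A₁ B₂ - A₂ B₁`, `S = (2 A₁ A₂ - (g2/2) B₁ B₂) (A₁ B₂ + A₂ B₁) - g3 B₁² B₂²`, `Π = (A₁ A₂ + (g2/4) B₁ B₂)² + g3 B₁ B₂ (A₁ B₂ + A₂ B₁)`.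
For `z, (z₁, - z₂) ∈ Gen`: if `B₁, B₂ ≠ 0` at the point (i.e. `a z₁`, `b z₂` off `Λ_v`), `σ_± = ℘_v(a z₁ ± b z₂)`; the lemma `theta` (`F/ZGa.lean`) gives, also if
`B₁ = 0` or `B₂ = 0` at the point, with `θ_± = W² σ_±`: `θ_+ + θ_- = S`, `θ_+ θ_- = Π W²`, `W ≠ 0`.
`c_k = ∑_ij p_ijk γ(X)^i α(X)^(L₁-1-i) γ(Y)^j α(Y)^(L₂-1-j)`: at the point `c_k = α(x₁)^(L₁-1) α(x₂)^(L₂-1) ∑ p_ijk u(z₁)^i u(z₂)^j`
(`u = 1/℘ = γ/α`, `α ≠ 0` at a `Go` point).  `exists_norm` with `S`, `P = Π W²`, `V = W²`, `D_i = 2 N² (L_i - 1)`, `d = 4 N⁴`: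
`∑ c_k W^(2k) θ^(K-1-k) = W^(2(K-1)) σ^(K-1) ∑ c_k y^k = θ^(K-1) α^(L₁-1) α^(L₂-1) f` (`y = 1/σ`), so with `R = Π W²` (`= θ_+ θ_-`) the equation
`eq`.  Degrees: `dX G ≤ 4 N² (L₁ - 1) + 8 N⁴ (K - 1)`, `dX R ≤ 8 N⁴`.
`bd`: near `z` (with `z₁, z₂` off `N Λ`) the polynomials in `x₁, x₂` are bounded; `θ_-` is a root of `X² - S X + P` with bounded `S, P`,
so bounded (`|θ| ≤ |S| + |P| + 1`), so `A θ_- + B` is bounded; and `A θ_+ + B = θ_+^(K-1) α(x₁)^(L₁-1) α(x₂)^(L₂-1) f(z)` with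
bounded `θ_+`, valid at ALL points of `Gen` near `z`, also if `(z₁, - z₂)` is not in `Gen`?  There `σ_-` may be infinite: use the
inequality first on the dense subset `{y ∈ Gen | (y₁, - y₂) ∈ Gen}` of `Gen` (dense and both sides are continuous on `Gen`) and extend by
continuity.
`R ≠ 0`, `α ≠ 0`: at a point with `z, (z₁, - z₂) ∈ Gen` (`gen_dense` and the homeomorphism `z ↦ (z₁, - z₂)`): `R = θ_+ θ_- ≠ 0`.
`G = 0` iff ..: `G_ne`: see `ZNe`.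
`GD.rot`: `G' = swap G`, `R' = swap R`, `xx_rot`, `FF_rot`, `FF_neg`, `gen_rot`.
-/

namespace Pool.Agent.LGO.F

open Polynomial Pool.Agent.EllSch Pool.Agent.LGO.Mul Filter Topology Asymptotics
open scoped Polynomial.Bivariate

variable {w τ c₁ c₂ : ℂ} {N : ℕ} {a b : ℤ}

/-- the polynomials `G`, `R`, `α` -/
structure GD (w τ c₁ c₂ : ℂ) (N : ℕ) (a b : ℤ) (L₁ L₂ K : ℕ) (p : ℕ → ℕ → ℕ → ℂ)
    (G R : ℂ[X][Y]) (α : ℂ[X]) : Prop where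
  dXG : dX G ≤ 4 * N ^ 2 * L₁ + 16 * N ^ 5
  dYG : dY G ≤ 4 * N ^ 2 * L₂ + 16 * N ^ 5
  R0 : R ≠ 0
  dXR : dX R ≤ 16 * N ^ 4
  dYR : dY R ≤ 16 * N ^ 4
  α0 : α ≠ 0
  αord : ∀ z, OffN w τ N z → meromorphicOrderAt (fun y => α.eval (xx w τ N y)) z ≤ 2
  eq : ∀ z ∈ Gen w τ c₁ c₂ a b, (z.1, -z.2) ∈ Gen w τ c₁ c₂ a b →
    R.evalEval (xx w τ N z.1) (xx w τ N z.2) ≠ 0 ∧ α.eval (xx w τ N z.1) ≠ 0 ∧
      α.eval (xx w τ N z.2) ≠ 0 ∧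
      G.evalEval (xx w τ N z.1) (xx w τ N z.2) =
        R.evalEval (xx w τ N z.1) (xx w τ N z.2) ^ (K - 1) *
          α.eval (xx w τ N z.1) ^ (2 * (L₁ - 1)) * α.eval (xx w τ N z.2) ^ (2 * (L₂ - 1)) *
          (FF w τ c₁ c₂ a b L₁ L₂ K p z * FF w τ c₁ c₂ a b L₁ L₂ K p (z.1, -z.2))
  bd : ∀ z : ℂ × ℂ, OffN w τ N z.1 → OffN w τ N z.2 →
    (fun y : ℂ × ℂ => G.evalEval (xx w τ N y.1) (xx w τ N y.2))
      =O[𝓝[Gen w τ c₁ c₂ a b] z] FF w τ c₁ c₂ a b L₁ L₂ K p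

/-- the properties of a degree which we use -/
private structure ZG_Deg (f : ℂ[X][Y] → ℕ) : Prop where
  cst : ∀ c : ℂ, f (C (C c)) = 0
  add : ∀ a b, f (a + b) ≤ max (f a) (f b)
  sub : ∀ a b, f (a - b) ≤ max (f a) (f b)
  mul : ∀ a b, f (a * b) ≤ f a + f b

private theorem ZG_dY : ZG_Deg dY where
  cst c := by unfold dY; exact natDegree_C _
  add a b := natDegree_add_le a b
  sub a b := natDegree_sub_le a b
  mul _ _ := natDegree_mul_le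

private theorem ZG_dX : ZG_Deg dX where
  cst c := by unfold dX; rw [Bivariate.swap_C_C]; exact natDegree_C _
  add a b := by unfold dX; rw [map_add]; exact natDegree_add_le _ _
  sub a b := by unfold dX; rw [map_sub]; exact natDegree_sub_le _ _
  mul a b := by unfold dX; rw [map_mul]; exact natDegree_mul_le

private theorem ZG_Deg.add' {f : ℂ[X][Y] → ℕ} (hf : ZG_Deg f) {a b : ℂ[X][Y]} {n : ℕ}
    (ha : f a ≤ n) (hb : f b ≤ n) : f (a + b) ≤ n := (hf.add a b).trans (max_le ha hb)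

private theorem ZG_Deg.sub' {f : ℂ[X][Y] → ℕ} (hf : ZG_Deg f) {a b : ℂ[X][Y]} {n : ℕ}
    (ha : f a ≤ n) (hb : f b ≤ n) : f (a - b) ≤ n := (hf.sub a b).trans (max_le ha hb)

private theorem ZG_Deg.mul' {f : ℂ[X][Y] → ℕ} (hf : ZG_Deg f) {a b : ℂ[X][Y]} {n m : ℕ}
    (ha : f a ≤ n) (hb : f b ≤ m) : f (a * b) ≤ n + m := (hf.mul a b).trans (by omega)

private theorem ZG_Deg.cmul {f : ℂ[X][Y] → ℕ} (hf : ZG_Deg f) (c : ℂ) {a : ℂ[X][Y]} {n : ℕ}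
    (ha : f a ≤ n) : f (C (C c) * a) ≤ n := by
  have h1 := hf.mul' (hf.cst c).le ha
  rwa [zero_add] at h1

private theorem ZG_Deg.one {f : ℂ[X][Y] → ℕ} (hf : ZG_Deg f) : f 1 = 0 := by
  have h1 := hf.cst 1
  rwa [C_1, C_1] at h1

private theorem ZG_Deg.zero {f : ℂ[X][Y] → ℕ} (hf : ZG_Deg f) : f 0 = 0 := by
  have h1 := hf.cst 0
  rwa [C_0, C_0] at h1

private theorem ZG_Deg.pow {f : ℂ[X][Y] → ℕ} (hf : ZG_Deg f) {a : ℂ[X][Y]} {n : ℕ}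
    (ha : f a ≤ n) (k : ℕ) : f (a ^ k) ≤ k * n := by
  induction k with
  | zero => rw [pow_zero, hf.one]; exact Nat.zero_le _
  | succ k ih =>
    rw [pow_succ, Nat.succ_mul]
    exact hf.mul' ih ha

private theorem ZG_Deg.sum {f : ℂ[X][Y] → ℕ} (hf : ZG_Deg f) {s : Finset ℕ} {g : ℕ → ℂ[X][Y]}
    {n : ℕ} (h : ∀ i ∈ s, f (g i) ≤ n) : f (∑ i ∈ s, g i) ≤ n := by
  induction s using Finset.induction_on with
  | empty => rw [Finset.sum_empty, hf.zero]; exact Nat.zero_le _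
  | insert i s hi ih =>
    rw [Finset.sum_insert hi]
    exact hf.add' (h i (Finset.mem_insert_self i s))
      (ih fun j hj => h j (Finset.mem_insert_of_mem hj))

/-- `W` -/
private noncomputable def ZG_W (A₁ B₁ A₂ B₂ : ℂ[X][Y]) : ℂ[X][Y] := A₁ * B₂ - A₂ * B₁

/-- `S` -/
private noncomputable def ZG_S (g2 g3 : ℂ) (A₁ B₁ A₂ B₂ : ℂ[X][Y]) : ℂ[X][Y] :=
  (C (C 2) * (A₁ * A₂) - C (C (g2 / 2)) * (B₁ * B₂)) * (A₁ * B₂ + A₂ * B₁) -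
    C (C g3) * (B₁ * B₂) ^ 2

/-- `Π` -/
private noncomputable def ZG_Pi (g2 g3 : ℂ) (A₁ B₁ A₂ B₂ : ℂ[X][Y]) : ℂ[X][Y] :=
  (A₁ * A₂ + C (C (g2 / 4)) * (B₁ * B₂)) ^ 2 +
    C (C g3) * ((B₁ * B₂) * (A₁ * B₂ + A₂ * B₁))

/-- the coefficients -/
private noncomputable def ZG_c (γX αX γY αY : ℂ[X][Y]) (L₁ L₂ : ℕ) (p : ℕ → ℕ → ℕ → ℂ) (k : ℕ) :
    ℂ[X][Y] :=
  ∑ i ∈ Finset.range L₁, ∑ j ∈ Finset.range L₂,
    C (C (p i j k)) * ((γX ^ i * αX ^ (L₁ - 1 - i)) * (γY ^ j * αY ^ (L₂ - 1 - j)))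

private theorem ZG_W_deg {f : ℂ[X][Y] → ℕ} (hf : ZG_Deg f) {A₁ B₁ A₂ B₂ : ℂ[X][Y]} {m m' : ℕ}
    (hA₁ : f A₁ ≤ m) (hB₁ : f B₁ ≤ m) (hA₂ : f A₂ ≤ m') (hB₂ : f B₂ ≤ m') :
    f (ZG_W A₁ B₁ A₂ B₂) ≤ m + m' := by
  unfold ZG_W
  refine hf.sub' (hf.mul' hA₁ hB₂) ?_
  rw [add_comm]
  exact hf.mul' hA₂ hB₁

private theorem ZG_S_deg {f : ℂ[X][Y] → ℕ} (hf : ZG_Deg f) (g2 g3 : ℂ) {A₁ B₁ A₂ B₂ : ℂ[X][Y]}
    {m m' : ℕ} (hA₁ : f A₁ ≤ m) (hB₁ : f B₁ ≤ m) (hA₂ : f A₂ ≤ m') (hB₂ : f B₂ ≤ m') :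
    f (ZG_S g2 g3 A₁ B₁ A₂ B₂) ≤ 2 * (m + m') := by
  have hAA := hf.mul' hA₁ hA₂
  have hBB := hf.mul' hB₁ hB₂
  have hAB : f (A₁ * B₂ + A₂ * B₁) ≤ m + m' := by
    refine hf.add' (hf.mul' hA₁ hB₂) ?_
    rw [add_comm]
    exact hf.mul' hA₂ hB₁
  unfold ZG_S
  refine hf.sub' ?_ (hf.cmul _ (hf.pow hBB 2))
  rw [two_mul]
  exact hf.mul' (hf.sub' (hf.cmul _ hAA) (hf.cmul _ hBB)) hAB

private theorem ZG_Pi_deg {f : ℂ[X][Y] → ℕ} (hf : ZG_Deg f) (g2 g3 : ℂ) {A₁ B₁ A₂ B₂ : ℂ[X][Y]}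
    {m m' : ℕ} (hA₁ : f A₁ ≤ m) (hB₁ : f B₁ ≤ m) (hA₂ : f A₂ ≤ m') (hB₂ : f B₂ ≤ m') :
    f (ZG_Pi g2 g3 A₁ B₁ A₂ B₂) ≤ 2 * (m + m') := by
  have hAA := hf.mul' hA₁ hA₂
  have hBB := hf.mul' hB₁ hB₂
  have hAB : f (A₁ * B₂ + A₂ * B₁) ≤ m + m' := by
    refine hf.add' (hf.mul' hA₁ hB₂) ?_
    rw [add_comm]
    exact hf.mul' hA₂ hB₁
  unfold ZG_Pi
  refine hf.add' (hf.pow (hf.add' hAA (hf.cmul _ hBB)) 2) (hf.cmul _ ?_)
  rw [two_mul]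
  exact hf.mul' hBB hAB

private theorem ZG_c_deg {f : ℂ[X][Y] → ℕ} (hf : ZG_Deg f) {γX αX γY αY : ℂ[X][Y]} {n n' : ℕ}
    (h1 : f γX ≤ n) (h2 : f αX ≤ n) (h3 : f γY ≤ n') (h4 : f αY ≤ n') (L₁ L₂ : ℕ)
    (p : ℕ → ℕ → ℕ → ℂ) (k : ℕ) :
    f (ZG_c γX αX γY αY L₁ L₂ p k) ≤ (L₁ - 1) * n + (L₂ - 1) * n' := by
  unfold ZG_c
  refine hf.sum fun i hi => hf.sum fun j hj => hf.cmul _ ?_
  rw [Finset.mem_range] at hi hj
  refine hf.mul' ?_ ?_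
  · have e : i * n + (L₁ - 1 - i) * n = (L₁ - 1) * n := by
      rw [← Nat.add_mul]
      congr 1
      omega
    rw [← e]
    exact hf.mul' (hf.pow h1 i) (hf.pow h2 _)
  · have e : j * n' + (L₂ - 1 - j) * n' = (L₂ - 1) * n' := by
      rw [← Nat.add_mul]
      congr 1
      omega
    rw [← e]
    exact hf.mul' (hf.pow h3 j) (hf.pow h4 _)

private theorem ZG_dX_C (A : ℂ[X]) : dX (C A) ≤ A.natDegree := by
  unfold dX
  rw [Bivariate.swap_C]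
  exact natDegree_map_le

private theorem ZG_dX_map (A : ℂ[X]) : dX (A.map C) = 0 := by
  unfold dX
  rw [Bivariate.swap_map_C]
  exact natDegree_C _

private theorem ZG_dY_C (A : ℂ[X]) : dY (C A) = 0 := by
  unfold dY
  exact natDegree_C _

private theorem ZG_dY_map (A : ℂ[X]) : dY (A.map C) ≤ A.natDegree := by
  unfold dY
  exact natDegree_map_le

private theorem ZG_lat (h : ZD w τ c₁ c₂ N a b) (e : ℤ) :
    LatMap (e : ℂ) (N * w) (N * (w * τ)) c₁ c₂ := by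
  intro x
  obtain ⟨y, hy⟩ := (h.mem ((e : ℂ) * lat (N * w) (N * (w * τ)) x)).2
    ⟨0, (e * x.1, e * x.2), by
      unfold lat
      push_cast
      ring⟩
  exact ⟨y, hy⟩

private theorem ZG_lat' (h : ZD w τ c₁ c₂ N a b) (e : ℤ) (y : ℤ × ℤ) :
    ∃ x : ℤ × ℤ, ((N * e.natAbs : ℕ) : ℂ) * lat c₁ c₂ y = e * lat (N * w) (N * (w * τ)) x := by
  obtain ⟨k, t, ht⟩ := (h.mem (lat c₁ c₂ y)).1 ⟨y, rfl⟩
  rw [ht]
  rcases Int.natAbs_eq e with he | he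
  · refine ⟨(k * a + N * t.1, k * b + N * t.2), ?_⟩
    have he' : (e : ℂ) = (e.natAbs : ℂ) := by
      conv_lhs => rw [he]
      rw [Int.cast_natCast]
    rw [he']
    unfold lat
    push_cast
    ring
  · refine ⟨(-(k * a + N * t.1), -(k * b + N * t.2)), ?_⟩
    have he' : (e : ℂ) = -(e.natAbs : ℂ) := by
      conv_lhs => rw [he]
      rw [Int.cast_neg, Int.cast_natCast]
    rw [he']
    unfold lat
    push_cast
    ring

private theorem ZG_natAbs {e : ℤ} (h : |e| ≤ N) : e.natAbs ≤ N := by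
  have h1 : ((e.natAbs : ℕ) : ℤ) ≤ N := by
    rw [Int.natCast_natAbs]
    exact h
  exact_mod_cast h1

private theorem ZG_deg4 {e : ℤ} (h : |e| ≤ N) : 2 * (N * e.natAbs) ^ 2 ≤ 2 * N ^ 4 := by
  have h1 := ZG_natAbs h
  have h2 : N * e.natAbs ≤ N * N := Nat.mul_le_mul_left _ h1
  have h3 : (N * e.natAbs) ^ 2 ≤ (N * N) ^ 2 := Nat.pow_le_pow_left h2 2
  have h4 : (N * N) ^ 2 = N ^ 4 := by ring
  omega

/-- the sum for one root -/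
private theorem ZG_sum {W σ : ℂ} (hσ : σ ≠ 0) {αx αy γx γy : ℂ} {u v : ℂ}
    (hγx : γx = αx * u) (hγy : γy = αy * v) (L₁ L₂ K : ℕ) (p : ℕ → ℕ → ℕ → ℂ) :
    ∑ k ∈ Finset.range K, (∑ i ∈ Finset.range L₁, ∑ j ∈ Finset.range L₂,
      p i j k * ((γx ^ i * αx ^ (L₁ - 1 - i)) * (γy ^ j * αy ^ (L₂ - 1 - j)))) * (W ^ 2) ^ k *
        (W ^ 2 * σ) ^ (K - 1 - k) =
      (W ^ 2 * σ) ^ (K - 1) * αx ^ (L₁ - 1) * αy ^ (L₂ - 1) *
        ∑ i ∈ Finset.range L₁, ∑ j ∈ Finset.range L₂, ∑ k ∈ Finset.range K,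
          p i j k * u ^ i * v ^ j * (σ⁻¹) ^ k := by
  have e1 : ∑ i ∈ Finset.range L₁, ∑ j ∈ Finset.range L₂, ∑ k ∈ Finset.range K,
      p i j k * u ^ i * v ^ j * (σ⁻¹) ^ k = ∑ k ∈ Finset.range K, ∑ i ∈ Finset.range L₁,
        ∑ j ∈ Finset.range L₂, p i j k * u ^ i * v ^ j * (σ⁻¹) ^ k := by
    rw [Finset.sum_comm]
    have e2 : ∀ j ∈ Finset.range L₂, ∑ i ∈ Finset.range L₁, ∑ k ∈ Finset.range K,
        p i j k * u ^ i * v ^ j * (σ⁻¹) ^ k = ∑ k ∈ Finset.range K, ∑ i ∈ Finset.range L₁,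
          p i j k * u ^ i * v ^ j * (σ⁻¹) ^ k := fun j _ => Finset.sum_comm
    rw [Finset.sum_congr rfl e2, Finset.sum_comm]
    exact Finset.sum_congr rfl fun k _ => Finset.sum_comm
  rw [e1, Finset.mul_sum]
  refine Finset.sum_congr rfl fun k hk => ?_
  rw [Finset.mem_range] at hk
  have hθ : (W ^ 2 * σ) ^ (K - 1) = (W ^ 2 * σ) ^ (K - 1 - k) * (W ^ 2 * σ) ^ k := by
    rw [← pow_add]
    congr 1
    omega
  have hσk : (W ^ 2 * σ) ^ k * (σ⁻¹) ^ k = (W ^ 2) ^ k := by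
    rw [← mul_pow, mul_assoc, mul_inv_cancel₀ hσ, mul_one]
  rw [Finset.sum_mul, Finset.sum_mul, Finset.mul_sum]
  refine Finset.sum_congr rfl fun i hi => ?_
  rw [Finset.sum_mul, Finset.sum_mul, Finset.mul_sum]
  refine Finset.sum_congr rfl fun j hj => ?_
  rw [Finset.mem_range] at hi hj
  have hx : γx ^ i * αx ^ (L₁ - 1 - i) = αx ^ (L₁ - 1) * u ^ i := by
    rw [hγx, mul_pow]
    have : αx ^ (L₁ - 1) = αx ^ i * αx ^ (L₁ - 1 - i) := by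
      rw [← pow_add]
      congr 1
      omega
    rw [this]
    ring
  have hy : γy ^ j * αy ^ (L₂ - 1 - j) = αy ^ (L₂ - 1) * v ^ j := by
    rw [hγy, mul_pow]
    have : αy ^ (L₂ - 1) = αy ^ j * αy ^ (L₂ - 1 - j) := by
      rw [← pow_add]
      congr 1
      omega
    rw [this]
    ring
  rw [hx, hy, hθ, ← hσk]
  ring

/-- a root of a monic quadratic polynomial -/
private theorem ZG_root {S P θ : ℂ} (h : θ ^ 2 = S * θ - P) : ‖θ‖ ≤ 1 + ‖S‖ + ‖P‖ := by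
  by_contra hcon
  rw [not_le] at hcon
  have hS := norm_nonneg S
  have hP := norm_nonneg P
  have h1 : ‖θ‖ ^ 2 ≤ ‖S‖ * ‖θ‖ + ‖P‖ := by
    rw [← norm_pow, h]
    refine (norm_sub_le _ _).trans ?_
    rw [norm_mul]
  nlinarith

private theorem ZG_cont (P : ℂ[X][Y]) {f g : ℂ × ℂ → ℂ} {z : ℂ × ℂ} (hf : ContinuousAt f z)
    (hg : ContinuousAt g z) : ContinuousAt (fun y => P.evalEval (f y) (g y)) z := by
  have h1 : ∀ (x y : ℂ), P.evalEval x y = ∑ k ∈ Finset.range (P.natDegree + 1),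
      (P.coeff k).eval x * y ^ k := by
    intro x y
    unfold evalEval
    rw [eval_eq_sum_range (p := P) (x := C y), eval_finsetSum]
    refine Finset.sum_congr rfl fun k _ => ?_
    rw [eval_mul, eval_pow, eval_C]
  have h2 : (fun y => P.evalEval (f y) (g y)) = fun y => ∑ k ∈ Finset.range (P.natDegree + 1),
      (P.coeff k).eval (f y) * g y ^ k := funext fun y => h1 _ _
  rw [h2]
  refine tendsto_finsetSum _ fun k _ => ?_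
  exact ((P.coeff k).continuous.continuousAt.comp hf).mul (hg.pow k)

private theorem ZG_gen_neg (h : ZD w τ c₁ c₂ N a b) (z : ℂ × ℂ) :
    -z ∈ Gen w τ c₁ c₂ a b ↔ z ∈ Gen w τ c₁ c₂ a b := by
  have e : (a : ℂ) * (-z).1 + b * (-z).2 = -(a * z.1 + b * z.2) := by
    rw [Prod.fst_neg, Prod.snd_neg]
    ring
  unfold Gen Go
  rw [Set.mem_ofPred_eq, Set.mem_ofPred_eq, e, Prod.fst_neg, Prod.snd_neg, off_neg, off_neg,
    off_neg, wp_neg h.ind1, wp_neg h.ind1, wp_neg h.ind]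

/-- the reflection -/
private def ZG_refl : ℂ × ℂ ≃ₜ ℂ × ℂ where
  toFun z := (z.1, -z.2)
  invFun z := (z.1, -z.2)
  left_inv z := by simp
  right_inv z := by simp
  continuous_toFun := by fun_prop
  continuous_invFun := by fun_prop

private theorem ZG_dense (h : ZD w τ c₁ c₂ N a b) :
    Dense (Gen w τ c₁ c₂ a b ∩ {z : ℂ × ℂ | (z.1, -z.2) ∈ Gen w τ c₁ c₂ a b}) := by
  have h1 : {z : ℂ × ℂ | (z.1, -z.2) ∈ Gen w τ c₁ c₂ a b} =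
      ZG_refl ⁻¹' (Gen w τ c₁ c₂ a b) := rfl
  rw [h1]
  refine (gen_dense h).inter_of_isOpen_left ?_ (gen_open h)
  exact (gen_dense h).preimage ZG_refl.isOpenMap

/-- the values at a point -/
private theorem ZG_point (h : ZD w τ c₁ c₂ N a b) {α γ A₁ B₁ A₂ B₂ : ℂ[X]}
    (hα : ∀ z, Off (N * w) (N * (w * τ)) z → Off w (w * τ) (1 * z) →
      γ.eval (wp (N * w) (N * (w * τ)) z) ≠ 0 ∧
        wp w (w * τ) (1 * z) * γ.eval (wp (N * w) (N * (w * τ)) z) =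
          α.eval (wp (N * w) (N * (w * τ)) z))
    (hAB₁ : IsCoprime A₁ B₁) (hAB₂ : IsCoprime A₂ B₂)
    (h1 : ∀ z, Off (N * w) (N * (w * τ)) z → Off c₁ c₂ (a * z) →
      B₁.eval (wp (N * w) (N * (w * τ)) z) ≠ 0 ∧
        wp c₁ c₂ (a * z) * B₁.eval (wp (N * w) (N * (w * τ)) z) =
          A₁.eval (wp (N * w) (N * (w * τ)) z))
    (h1' : ∀ z, Off (N * w) (N * (w * τ)) z → ¬ Off c₁ c₂ (a * z) →
      B₁.eval (wp (N * w) (N * (w * τ)) z) = 0)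
    (h2 : ∀ z, Off (N * w) (N * (w * τ)) z → Off c₁ c₂ (b * z) →
      B₂.eval (wp (N * w) (N * (w * τ)) z) ≠ 0 ∧
        wp c₁ c₂ (b * z) * B₂.eval (wp (N * w) (N * (w * τ)) z) =
          A₂.eval (wp (N * w) (N * (w * τ)) z))
    (h2' : ∀ z, Off (N * w) (N * (w * τ)) z → ¬ Off c₁ c₂ (b * z) →
      B₂.eval (wp (N * w) (N * (w * τ)) z) = 0)
    (L₁ L₂ K : ℕ) (p : ℕ → ℕ → ℕ → ℂ) {z : ℂ × ℂ} (hz : z ∈ Gen w τ c₁ c₂ a b)
    (hz' : (z.1, -z.2) ∈ Gen w τ c₁ c₂ a b) :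
    ∃ θ θ' : ℂ,
      θ + θ' = (ZG_S (G2 c₁ c₂) (G3 c₁ c₂) (C A₁) (C B₁) (A₂.map C) (B₂.map C)).evalEval
        (xx w τ N z.1) (xx w τ N z.2) ∧
      θ * θ' = (ZG_Pi (G2 c₁ c₂) (G3 c₁ c₂) (C A₁) (C B₁) (A₂.map C) (B₂.map C) *
        ZG_W (C A₁) (C B₁) (A₂.map C) (B₂.map C) ^ 2).evalEval (xx w τ N z.1) (xx w τ N z.2) ∧
      θ ≠ 0 ∧ θ' ≠ 0 ∧ α.eval (xx w τ N z.1) ≠ 0 ∧ α.eval (xx w τ N z.2) ≠ 0 ∧
      ∑ k ∈ Finset.range K,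
        (ZG_c (C γ) (C α) (γ.map C) (α.map C) L₁ L₂ p k).evalEval (xx w τ N z.1) (xx w τ N z.2) *
          (ZG_W (C A₁) (C B₁) (A₂.map C) (B₂.map C) ^ 2).evalEval (xx w τ N z.1)
            (xx w τ N z.2) ^ k * θ ^ (K - 1 - k) =
        θ ^ (K - 1) * α.eval (xx w τ N z.1) ^ (L₁ - 1) * α.eval (xx w τ N z.2) ^ (L₂ - 1) *
          FF w τ c₁ c₂ a b L₁ L₂ K p z ∧
      ∑ k ∈ Finset.range K,
        (ZG_c (C γ) (C α) (γ.map C) (α.map C) L₁ L₂ p k).evalEval (xx w τ N z.1) (xx w τ N z.2) *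
          (ZG_W (C A₁) (C B₁) (A₂.map C) (B₂.map C) ^ 2).evalEval (xx w τ N z.1)
            (xx w τ N z.2) ^ k * θ' ^ (K - 1 - k) =
        θ' ^ (K - 1) * α.eval (xx w τ N z.1) ^ (L₁ - 1) * α.eval (xx w τ N z.2) ^ (L₂ - 1) *
          FF w τ c₁ c₂ a b L₁ L₂ K p (z.1, -z.2) := by
  obtain ⟨⟨hz1, hz1'⟩, ⟨hz2, hz2'⟩, hzp, hzp'⟩ := hz
  obtain ⟨-, -, hzm, hzm'⟩ := hz'
  have hN1 : Off (N * w) (N * (w * τ)) z.1 := offN_of_off h hz1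
  have hN2 : Off (N * w) (N * (w * τ)) z.2 := offN_of_off h hz2
  have hum : (a : ℂ) * z.1 + b * (z.1, -z.2).2 = a * z.1 - b * z.2 := by ring
  dsimp only at hzm hzm'
  rw [mul_neg, ← sub_eq_add_neg] at hzm hzm'
  have hcop : ∀ {A B : ℂ[X]}, IsCoprime A B → ∀ x, B.eval x = 0 → A.eval x ≠ 0 := by
    rintro A B ⟨s, t, hst⟩ x hB hA
    have h3 := congrArg (eval x) hst
    rw [eval_add, eval_mul, eval_mul, hA, hB, mul_zero, mul_zero, add_zero, eval_one] at h3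
    exact zero_ne_one h3
  have hth := theta h.ind (u := a * z.1) (v := b * z.2)
    (A₁ := A₁.eval (xx w τ N z.1)) (B₁ := B₁.eval (xx w τ N z.1))
    (A₂ := A₂.eval (xx w τ N z.2)) (B₂ := B₂.eval (xx w τ N z.2)) hzp hzm
    (h1 z.1 hN1) (fun h4 => ⟨h1' z.1 hN1 h4, hcop hAB₁ _ (h1' z.1 hN1 h4)⟩)
    (h2 z.2 hN2) (fun h4 => ⟨h2' z.2 hN2 h4, hcop hAB₂ _ (h2' z.2 hN2 h4)⟩)
  obtain ⟨hW, hsum, hprod⟩ := hth
  have hWe : (ZG_W (C A₁) (C B₁) (A₂.map C) (B₂.map C)).evalEval (xx w τ N z.1) (xx w τ N z.2) =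
      A₁.eval (xx w τ N z.1) * B₂.eval (xx w τ N z.2) -
        A₂.eval (xx w τ N z.2) * B₁.eval (xx w τ N z.1) := by
    unfold ZG_W
    rw [evalEval_sub, evalEval_mul, evalEval_mul, evalEval_C, evalEval_C, evalEval_map_C,
      evalEval_map_C]
  set x := xx w τ N z.1 with hx
  set y := xx w τ N z.2 with hy
  set W := A₁.eval x * B₂.eval y - A₂.eval y * B₁.eval x with hWdef
  have hα1 := hα z.1 hN1 (by rwa [one_mul])
  have hα2 := hα z.2 hN2 (by rwa [one_mul])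
  rw [one_mul] at hα1 hα2
  have hα1' : wp w (w * τ) z.1 * γ.eval x = α.eval x := hα1.2
  have hα2' : wp w (w * τ) z.2 * γ.eval y = α.eval y := hα2.2
  have hαx : α.eval x ≠ 0 := by
    rw [← hα1']
    exact mul_ne_zero hz1' hα1.1
  have hαy : α.eval y ≠ 0 := by
    rw [← hα2']
    exact mul_ne_zero hz2' hα2.1
  have hγx : γ.eval x = α.eval x * iu w (w * τ) z.1 := by
    rw [← hα1', iu]
    field_simp
  have hγy : γ.eval y = α.eval y * iu w (w * τ) z.2 := by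
    rw [← hα2', iu]
    field_simp
  have hce : ∀ k, (ZG_c (C γ) (C α) (γ.map C) (α.map C) L₁ L₂ p k).evalEval x y =
      ∑ i ∈ Finset.range L₁, ∑ j ∈ Finset.range L₂,
        p i j k * ((γ.eval x ^ i * α.eval x ^ (L₁ - 1 - i)) *
          (γ.eval y ^ j * α.eval y ^ (L₂ - 1 - j))) := by
    intro k
    unfold ZG_c
    rw [evalEval_finsetSum]
    refine Finset.sum_congr rfl fun i _ => ?_
    rw [evalEval_finsetSum]
    refine Finset.sum_congr rfl fun j _ => ?_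
    simp only [evalEval_mul, evalEval_pow, evalEval_C, evalEval_map_C, eval_C]
  have hV : (ZG_W (C A₁) (C B₁) (A₂.map C) (B₂.map C) ^ 2).evalEval x y = W ^ 2 := by
    rw [evalEval_pow, hWe]
  refine ⟨W ^ 2 * wp c₁ c₂ (a * z.1 + b * z.2), W ^ 2 * wp c₁ c₂ (a * z.1 - b * z.2),
    ?_, ?_, mul_ne_zero (pow_ne_zero 2 hW) hzp', mul_ne_zero (pow_ne_zero 2 hW) hzm', hαx, hαy,
    ?_, ?_⟩
  · rw [hsum]
    unfold ZG_S
    simp only [evalEval_sub, evalEval_mul, evalEval_pow, evalEval_add, evalEval_C,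
      evalEval_map_C, eval_C]
    ring
  · rw [hprod, evalEval_mul, hV]
    unfold ZG_Pi
    simp only [evalEval_mul, evalEval_pow, evalEval_add, evalEval_C,
      evalEval_map_C, eval_C]
    ring
  · rw [hV]
    simp only [hce]
    rw [ZG_sum hzp' hγx hγy]
    rfl
  · rw [hV]
    simp only [hce]
    rw [ZG_sum hzm' hγx hγy]
    unfold FF
    dsimp only
    rw [mul_neg, ← sub_eq_add_neg, iu_neg h.ind1]
    rfl

theorem exists_GD (h : ZD w τ c₁ c₂ N a b) (L₁ L₂ K : ℕ) (hK : 1 ≤ K) (hKN : K ≤ N)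
    (p : ℕ → ℕ → ℕ → ℂ) : ∃ (G R : ℂ[X][Y]) (α : ℂ[X]), GD w τ c₁ c₂ N a b L₁ L₂ K p G R α := by
  have ha0 : (a : ℂ) ≠ 0 := Int.cast_ne_zero.2 h.a0
  have hb0 : (b : ℂ) ≠ 0 := Int.cast_ne_zero.2 h.b0
  obtain ⟨α, γ, hαγ, hα0, hγ0, hαd, hγd, hα1, hα2⟩ := exists_rat h.indN h.ind1 one_ne_zero h.N1
    (fun x => ⟨(N * x.1, N * x.2), by
      unfold lat
      push_cast
      ring⟩)
    (fun y => ⟨y, by
      unfold lat
      ring⟩)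
  obtain ⟨A₁, B₁, hAB₁, -, -, hA₁d, hB₁d, h1, h1'⟩ := exists_rat h.indN h.ind ha0
    (Nat.mul_pos h.N1 (Int.natAbs_pos.2 h.a0)) (ZG_lat h a) (ZG_lat' h a)
  obtain ⟨A₂, B₂, hAB₂, -, -, hA₂d, hB₂d, h2, h2'⟩ := exists_rat h.indN h.ind hb0
    (Nat.mul_pos h.N1 (Int.natAbs_pos.2 h.b0)) (ZG_lat h b) (ZG_lat' h b)
  have hda := ZG_deg4 h.aN
  have hdb := ZG_deg4 h.bN
  set W : ℂ[X][Y] := ZG_W (C A₁) (C B₁) (A₂.map C) (B₂.map C) with hW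
  set S : ℂ[X][Y] := ZG_S (G2 c₁ c₂) (G3 c₁ c₂) (C A₁) (C B₁) (A₂.map C) (B₂.map C) with hS
  set Pi : ℂ[X][Y] := ZG_Pi (G2 c₁ c₂) (G3 c₁ c₂) (C A₁) (C B₁) (A₂.map C) (B₂.map C) with hPi
  set c : ℕ → ℂ[X][Y] := ZG_c (C γ) (C α) (γ.map C) (α.map C) L₁ L₂ p with hc
  -- the point
  have hpt := fun {z : ℂ × ℂ} (hz : z ∈ Gen w τ c₁ c₂ a b)
    (hz' : (z.1, -z.2) ∈ Gen w τ c₁ c₂ a b) =>
    ZG_point h hα1 hAB₁ hAB₂ h1 h1' h2 h2' L₁ L₂ K p hz hz'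
  rw [← hW, ← hS, ← hPi, ← hc] at hpt
  -- degrees
  have xA₁ : dX (C A₁) ≤ 2 * N ^ 4 := (ZG_dX_C A₁).trans (hA₁d.trans hda)
  have xB₁ : dX (C B₁) ≤ 2 * N ^ 4 := (ZG_dX_C B₁).trans (hB₁d.trans hda)
  have yA₂ : dY (A₂.map C) ≤ 2 * N ^ 4 := (ZG_dY_map A₂).trans (hA₂d.trans hdb)
  have yB₂ : dY (B₂.map C) ≤ 2 * N ^ 4 := (ZG_dY_map B₂).trans (hB₂d.trans hdb)
  have xA₂ : dX (A₂.map C) ≤ 0 := (ZG_dX_map A₂).le
  have xB₂ : dX (B₂.map C) ≤ 0 := (ZG_dX_map B₂).le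
  have yA₁ : dY (C A₁) ≤ 0 := (ZG_dY_C A₁).le
  have yB₁ : dY (C B₁) ≤ 0 := (ZG_dY_C B₁).le
  have xW : dX W ≤ 2 * N ^ 4 := (ZG_W_deg ZG_dX xA₁ xB₁ xA₂ xB₂).trans (by omega)
  have yW : dY W ≤ 2 * N ^ 4 := (ZG_W_deg ZG_dY yA₁ yB₁ yA₂ yB₂).trans (by omega)
  have xS : dX S ≤ 4 * N ^ 4 := (ZG_S_deg ZG_dX _ _ xA₁ xB₁ xA₂ xB₂).trans (by omega)
  have yS : dY S ≤ 4 * N ^ 4 := (ZG_S_deg ZG_dY _ _ yA₁ yB₁ yA₂ yB₂).trans (by omega)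
  have xPi : dX Pi ≤ 4 * N ^ 4 := (ZG_Pi_deg ZG_dX _ _ xA₁ xB₁ xA₂ xB₂).trans (by omega)
  have yPi : dY Pi ≤ 4 * N ^ 4 := (ZG_Pi_deg ZG_dY _ _ yA₁ yB₁ yA₂ yB₂).trans (by omega)
  have xV : dX (W ^ 2) ≤ 4 * N ^ 4 := by
    have := ZG_dX.pow xW 2
    omega
  have yV : dY (W ^ 2) ≤ 4 * N ^ 4 := by
    have := ZG_dY.pow yW 2
    omega
  have xP : dX (Pi * W ^ 2) ≤ 2 * (4 * N ^ 4) := by
    have := ZG_dX.mul' xPi xV
    omega
  have yP : dY (Pi * W ^ 2) ≤ 2 * (4 * N ^ 4) := by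
    have := ZG_dY.mul' yPi yV
    omega
  have xc : ∀ k < K, dX (c k) ≤ (L₁ - 1) * (2 * N ^ 2) := by
    intro k _
    have := ZG_c_deg ZG_dX (((ZG_dX_C γ).trans hγd)) (((ZG_dX_C α).trans hαd))
      (ZG_dX_map γ).le (ZG_dX_map α).le L₁ L₂ p k
    simpa using this
  have yc : ∀ k < K, dY (c k) ≤ (L₂ - 1) * (2 * N ^ 2) := by
    intro k _
    have := ZG_c_deg ZG_dY (ZG_dY_C γ).le (ZG_dY_C α).le
      (((ZG_dY_map γ).trans hγd)) (((ZG_dY_map α).trans hαd)) L₁ L₂ p k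
    simpa using this
  obtain ⟨A, B, G, xG, yG, hG⟩ := exists_norm K hK c S (Pi * W ^ 2) (W ^ 2)
    ((L₁ - 1) * (2 * N ^ 2)) ((L₂ - 1) * (2 * N ^ 2)) (4 * N ^ 4) (4 * N ^ 4)
    xc yc xS yS xV yV xP yP
  have hdeg : ∀ L : ℕ, 2 * ((L - 1) * (2 * N ^ 2) + (K - 1) * (4 * N ^ 4)) ≤
      4 * N ^ 2 * L + 16 * N ^ 5 := by
    intro L
    have e1 : (L - 1) * (2 * N ^ 2) ≤ L * (2 * N ^ 2) := Nat.mul_le_mul_right _ (by omega)
    have e2 : (K - 1) * (4 * N ^ 4) ≤ N * (4 * N ^ 4) := Nat.mul_le_mul_right _ (by omega)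
    have e3 : N * (4 * N ^ 4) = 4 * N ^ 5 := by ring
    have e4 : L * (2 * N ^ 2) = 2 * (N ^ 2 * L) := by ring
    have e5 : 4 * N ^ 2 * L = 4 * (N ^ 2 * L) := by ring
    omega
  refine ⟨G, Pi * W ^ 2, α, ⟨xG.trans (hdeg L₁), yG.trans (hdeg L₂), ?_, by omega, by omega, hα0,
    ?_, ?_, ?_⟩⟩
  · intro h0
    obtain ⟨z, hz, hz'⟩ := (ZG_dense h).nonempty
    obtain ⟨θ, θ', -, hp, hθ, hθ', -⟩ := hpt hz hz'
    rw [h0, evalEval_zero] at hp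
    exact mul_ne_zero hθ hθ' hp
  · intro z hz
    exact ord_rat h.indN h.ind1 one_ne_zero hαγ hα1 hα2 hz
  · intro z hz hz'
    obtain ⟨θ, θ', hs, hp, hθ, hθ', hαx, hαy, hsum, hsum'⟩ := hpt hz hz'
    obtain ⟨e1, e2⟩ := hG _ _ θ θ' hs hp
    obtain ⟨e1', -⟩ := hG _ _ θ' θ (by rw [add_comm]; exact hs) (by rw [mul_comm]; exact hp)
    refine ⟨?_, hαx, hαy, ?_⟩
    · rw [← hp]
      exact mul_ne_zero hθ hθ'
    · rw [e2, ← e1, ← e1', hsum, hsum', ← hp, mul_pow]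
      ring
  · intro z hz1 hz2
    have hx1 : ContinuousAt (fun y : ℂ × ℂ => xx w τ N y.1) z :=
      ContinuousAt.comp (f := fun y : ℂ × ℂ => y.1) (g := xx w τ N) (xx_an h hz1).continuousAt
        continuousAt_fst
    have hx2 : ContinuousAt (fun y : ℂ × ℂ => xx w τ N y.2) z :=
      ContinuousAt.comp (f := fun y : ℂ × ℂ => y.2) (g := xx w τ N) (xx_an h hz2).continuousAt
        continuousAt_snd
    -- the bound
    set M : ℂ × ℂ → ℝ := fun y =>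
      1 + ‖S.evalEval (xx w τ N y.1) (xx w τ N y.2)‖ +
        ‖(Pi * W ^ 2).evalEval (xx w τ N y.1) (xx w τ N y.2)‖ with hM
    set Φ : ℂ × ℂ → ℝ := fun y => M y ^ (K - 1) * ‖α.eval (xx w τ N y.1)‖ ^ (L₁ - 1) *
      ‖α.eval (xx w τ N y.2)‖ ^ (L₂ - 1) *
        (‖A.evalEval (xx w τ N y.1) (xx w τ N y.2)‖ * M y +
          ‖B.evalEval (xx w τ N y.1) (xx w τ N y.2)‖) with hΦ
    have hMc : ContinuousAt M z :=
      (continuousAt_const.add (ZG_cont S hx1 hx2).norm).add (ZG_cont (Pi * W ^ 2) hx1 hx2).norm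
    have hα1c : ContinuousAt (fun y : ℂ × ℂ => α.eval (xx w τ N y.1)) z :=
      ContinuousAt.comp (f := fun y : ℂ × ℂ => xx w τ N y.1) (g := fun t => α.eval t)
        α.continuous.continuousAt hx1
    have hα2c : ContinuousAt (fun y : ℂ × ℂ => α.eval (xx w τ N y.2)) z :=
      ContinuousAt.comp (f := fun y : ℂ × ℂ => xx w τ N y.2) (g := fun t => α.eval t)
        α.continuous.continuousAt hx2
    have hΦc : ContinuousAt Φ z :=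
      (((hMc.pow _).mul (hα1c.norm.pow _)).mul (hα2c.norm.pow _)).mul
        (((ZG_cont A hx1 hx2).norm.mul hMc).add (ZG_cont B hx1 hx2).norm)
    have hev : ∀ᶠ y in 𝓝 z, Φ y < Φ z + 1 := hΦc.eventually_lt continuousAt_const (lt_add_one _)
    have ho1 : ∀ᶠ y in 𝓝 z, OffN w τ N y.1 :=
      continuousAt_fst.eventually ((isOpen_off h.indN).mem_nhds hz1)
    have ho2 : ∀ᶠ y in 𝓝 z, OffN w τ N y.2 :=
      continuousAt_snd.eventually ((isOpen_off h.indN).mem_nhds hz2)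
    refine IsBigO.of_bound (Φ z + 1) ?_
    rw [eventually_nhdsWithin_iff]
    have hev2 := (hev.and (ho1.and ho2)).eventually_nhds
    filter_upwards [hev2] with y hy hyG
    obtain ⟨hy0, hy1, hy2⟩ := hy.self_of_nhds
    -- on the dense set
    have hD : ∀ᶠ u in 𝓝[Gen w τ c₁ c₂ a b ∩
        {z : ℂ × ℂ | (z.1, -z.2) ∈ Gen w τ c₁ c₂ a b}] y,
        ‖G.evalEval (xx w τ N u.1) (xx w τ N u.2)‖ ≤
          (Φ z + 1) * ‖FF w τ c₁ c₂ a b L₁ L₂ K p u‖ := by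
      filter_upwards [self_mem_nhdsWithin, mem_nhdsWithin_of_mem_nhds hy] with u hu hu'
      obtain ⟨hu1, hu2⟩ := hu
      obtain ⟨θ, θ', hs, hp, hθ, hθ', hαx, hαy, hsum, -⟩ := hpt hu1 hu2
      obtain ⟨e1, e2⟩ := hG _ _ θ θ' hs hp
      have r1 : ‖θ‖ ≤ M u := ZG_root (by rw [← hs, ← hp]; ring)
      have r2 : ‖θ'‖ ≤ M u := ZG_root (by rw [← hs, ← hp]; ring)
      rw [e2, ← e1, hsum]
      have hle : ‖θ ^ (K - 1) * α.eval (xx w τ N u.1) ^ (L₁ - 1) *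
          α.eval (xx w τ N u.2) ^ (L₂ - 1)‖ *
          ‖A.evalEval (xx w τ N u.1) (xx w τ N u.2) * θ' +
            B.evalEval (xx w τ N u.1) (xx w τ N u.2)‖ ≤ Φ u := by
        rw [norm_mul, norm_mul, norm_pow, norm_pow, norm_pow, hΦ]
        refine mul_le_mul ?_ ?_ (norm_nonneg _) ?_
        · exact mul_le_mul_of_nonneg_right (mul_le_mul_of_nonneg_right
            (pow_le_pow_left₀ (norm_nonneg _) r1 _) (by positivity)) (by positivity)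
        · refine (norm_add_le _ _).trans (add_le_add ?_ le_rfl)
          rw [norm_mul]
          exact mul_le_mul_of_nonneg_left r2 (norm_nonneg _)
        · have : 0 ≤ M u := (norm_nonneg _).trans r1
          positivity
      calc ‖θ ^ (K - 1) * α.eval (xx w τ N u.1) ^ (L₁ - 1) * α.eval (xx w τ N u.2) ^ (L₂ - 1) *
            FF w τ c₁ c₂ a b L₁ L₂ K p u *
            (A.evalEval (xx w τ N u.1) (xx w τ N u.2) * θ' +
              B.evalEval (xx w τ N u.1) (xx w τ N u.2))‖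
          = (‖θ ^ (K - 1) * α.eval (xx w τ N u.1) ^ (L₁ - 1) *
              α.eval (xx w τ N u.2) ^ (L₂ - 1)‖ *
              ‖A.evalEval (xx w τ N u.1) (xx w τ N u.2) * θ' +
                B.evalEval (xx w τ N u.1) (xx w τ N u.2)‖) *
              ‖FF w τ c₁ c₂ a b L₁ L₂ K p u‖ := by
            rw [norm_mul, norm_mul]
            ring
        _ ≤ Φ u * ‖FF w τ c₁ c₂ a b L₁ L₂ K p u‖ :=
            mul_le_mul_of_nonneg_right hle (norm_nonneg _)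
        _ ≤ (Φ z + 1) * ‖FF w τ c₁ c₂ a b L₁ L₂ K p u‖ :=
            mul_le_mul_of_nonneg_right hu'.1.le (norm_nonneg _)
    have : (𝓝[Gen w τ c₁ c₂ a b ∩
        {z : ℂ × ℂ | (z.1, -z.2) ∈ Gen w τ c₁ c₂ a b}] y).NeBot :=
      mem_closure_iff_nhdsWithin_neBot.1 (ZG_dense h y)
    have hy1c : ContinuousAt (fun y : ℂ × ℂ => xx w τ N y.1) y :=
      ContinuousAt.comp (f := fun y : ℂ × ℂ => y.1) (g := xx w τ N) (xx_an h hy1).continuousAt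
        continuousAt_fst
    have hy2c : ContinuousAt (fun y : ℂ × ℂ => xx w τ N y.2) y :=
      ContinuousAt.comp (f := fun y : ℂ × ℂ => y.2) (g := xx w τ N) (xx_an h hy2).continuousAt
        continuousAt_snd
    exact le_of_tendsto_of_tendsto
      ((ZG_cont G hy1c hy2c).norm.mono_left nhdsWithin_le_nhds)
      (((an_FF h L₁ L₂ K p hyG).continuousAt.norm.const_mul (Φ z + 1)).mono_left
        nhdsWithin_le_nhds) hD

private theorem ZG_swap_eval (P : ℂ[X][Y]) (x y : ℂ) :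
    (Bivariate.swap P).evalEval x y = P.evalEval y x := by
  have h1 := Bivariate.aevalAeval_swap (R := ℂ) (A := ℂ) x y P
  rw [coe_aevalAeval_eq_evalEval, coe_aevalAeval_eq_evalEval] at h1
  exact h1

private theorem ZG_swap_dX (P : ℂ[X][Y]) : dX (Bivariate.swap P) = dY P := by
  unfold dX dY
  rw [Bivariate.swap_swap_apply]

private theorem ZG_swap_dY (P : ℂ[X][Y]) : dY (Bivariate.swap P) = dX P := rfl

theorem GD.rot (h : ZD w τ c₁ c₂ N a b) {L₁ L₂ K : ℕ} {p : ℕ → ℕ → ℕ → ℂ} {G R : ℂ[X][Y]}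
    {α : ℂ[X]} (g : GD w τ c₁ c₂ N a b L₁ L₂ K p G R α) :
    GD (w * τ) (-1 / τ) c₁ c₂ N b (-a) L₂ L₁ K (fun j i k => p i j k) (Bivariate.swap G)
      (Bivariate.swap R) α := by
  have hxr : xx (w * τ) (-1 / τ) N = xx w τ N := funext fun z => xx_rot h z
  refine ⟨?_, ?_, ?_, ?_, ?_, g.α0, ?_, ?_, ?_⟩
  · rw [ZG_swap_dX]
    exact g.dYG
  · rw [ZG_swap_dY]
    exact g.dXG
  · intro h0
    apply g.R0
    rw [← Bivariate.swap_swap_apply R, h0, map_zero]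
  · rw [ZG_swap_dX]
    exact g.dYR
  · rw [ZG_swap_dY]
    exact g.dXR
  · intro z hz
    rw [hxr]
    exact g.αord z ((offN_rot h z).1 hz)
  · intro z hz hz'
    have hg1 : (-z.2, z.1) ∈ Gen w τ c₁ c₂ a b := (gen_rot h z).1 hz
    have hg2 : (-z.2, -z.1) ∈ Gen w τ c₁ c₂ a b := by
      have h1 := (gen_rot h (z.1, -z.2)).1 hz'
      rw [← ZG_gen_neg h] at h1
      simpa using h1
    obtain ⟨e1, e2, e3, e4⟩ := g.eq (-z.2, z.1) hg1 hg2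
    dsimp only at e1 e2 e3 e4
    rw [xx_neg h] at e1 e2 e4
    rw [hxr, ZG_swap_eval, ZG_swap_eval, FF_rot h, FF_rot h]
    refine ⟨e1, e3, e2, ?_⟩
    have hF : FF w τ c₁ c₂ a b L₁ L₂ K p (-(z.1, -z.2).2, (z.1, -z.2).1) =
        FF w τ c₁ c₂ a b L₁ L₂ K p (-z.2, -z.1) := by
      rw [← FF_neg h]
      congr 1
      simp
    rw [hF, e4]
    ring
  · intro z hz1 hz2
    have ho1 : OffN w τ N (-z.2) := (offN_neg h).2 ((offN_rot h _).1 hz2)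
    have ho2 : OffN w τ N z.1 := (offN_rot h _).1 hz1
    have hb := g.bd (-z.2, z.1) ho1 ho2
    have ht : Tendsto (fun y : ℂ × ℂ => (-y.2, y.1))
        (𝓝[Gen (w * τ) (-1 / τ) c₁ c₂ b (-a)] z) (𝓝[Gen w τ c₁ c₂ a b] (-z.2, z.1)) := by
      rw [tendsto_nhdsWithin_iff]
      constructor
      · have : Continuous (fun y : ℂ × ℂ => (-y.2, y.1)) := by fun_prop
        exact (this.tendsto z).mono_left nhdsWithin_le_nhds
      · filter_upwards [self_mem_nhdsWithin] with y hy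
        exact (gen_rot h y).1 hy
    have hb2 := hb.comp_tendsto ht
    refine (hb2.congr ?_ ?_)
    · intro y
      rw [hxr, ZG_swap_eval]
      simp only [Function.comp_apply]
      rw [xx_neg h]
    · intro y
      rw [FF_rot h]
      rfl

end Pool.Agent.LGO.F
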