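import Mathlib
import Pool.Agent.LGO.F.ZG
import Pool.Agent.LGO.F.Van

/-!
# LGO/F (note 3060, zero estimate (iii)): the points

PROOFS.  `gam_count`: `Λ/NΛ ≅ (ℤ/N)²` by coordinates `(r, s) ↦ r w + s w τ`; `κ = r w + s w τ` is in `Λ_v` iff `a s - b r ≡ 0` mod `N`
(`Λ_v = ℤ (a, b) + N ℤ²`, `gcd(a, b, N) = 1`: if `a s ≡ b r`, and `x a + y b ≡ 1`, then `(r, s) ≡ (x r + y s) (a, b)`).  So `h = ((r₁, s₁), (r₂, s₂))` is a
period iff `a (a s₁ + b s₂) - b (a r₁ + b r₂) ≡ 0`, i.e. `φ(h) = a (a s₁ + b s₂) - b (a r₁ + b r₂)` is `0` in `ℤ/N`; this homomorphism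
`(ℤ/N)⁴ → ℤ/N` is surjective (its coefficients `- a b, a², - b², a b` generate `(a, b)² = ℤ/N`), so the kernel has `N³` elements; `h` = the
representatives with coordinates `0 ≤ · < N`.
`good_count`: the number of the elements of `H` with `2 h₁ ∈ N Λ` is at most `4 N²`: `h₁` is one of at most `4` classes and `h₂` is one of
`N²` classes; the same for `h₂`; `8 N² ≤ N³ / 2`.
`exists_pts`: for `h` in this set `FF = O(‖z - h‖^T)` at `h` (periodicity `FF_add`; translate the hypothesis), so by `GD.bd`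
`G(xx z₁, xx z₂) = O(‖z - h‖^T)` along `𝓝[Gen] h`; the left side is analytic at `h`, `Gen` is dense, so it is `O(‖z - h‖^T)` along `𝓝 h`
(continuity); `van_comp` with `xx` (`xx_deriv`, `xx_deriv_ne`) gives `Van T (xx h₁) (xx h₂) G`.  The map `h ↦ (xx h₁, xx h₂)` on the classes mod
`N Λ` is at most `4` to `1` (`xx_eq`): the image `Z` has at least `N³ / 8` elements.
-/

namespace Pool.Agent.LGO.F

open Polynomial Pool.Agent.EllSch Pool.Agent.LGO.Mul Filter Topology Asymptotics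
open scoped Polynomial.Bivariate

variable {w τ c₁ c₂ : ℂ} {N : ℕ} {a b : ℤ}

/-- `z - z'` is in `(N Λ)²` -/
def EqN (w τ : ℂ) (N : ℕ) (z z' : ℂ × ℂ) : Prop :=
  (∃ x : ℤ × ℤ, z.1 - z'.1 = N * lat w (w * τ) x) ∧ ∃ x : ℤ × ℤ, z.2 - z'.2 = N * lat w (w * τ) x

/-- the periods in `Λ_v` by coordinates -/
private theorem ZPts_mem (h : ZD w τ c₁ c₂ N a b) (x : ℤ × ℤ) :
    (∃ y, lat w (w * τ) x = lat c₁ c₂ y) ↔ (N : ℤ) ∣ a * x.2 - b * x.1 := by
  rw [h.mem]
  constructor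
  · rintro ⟨k, y, e⟩
    have e1 : lat w (w * τ) x = lat w (w * τ) (k * a + N * y.1, k * b + N * y.2) := by
      rw [e]
      unfold lat
      push_cast
      ring
    have e2 := lat_injective h.ind1 e1
    rw [e2]
    refine ⟨a * y.2 - b * y.1, ?_⟩
    simp only
    ring
  · rintro ⟨q, hq⟩
    obtain ⟨u, v, m, hm⟩ : ∃ u v m : ℤ, u * a + v * b + m * N = 1 := by
      have h1 : IsUnit ((Int.gcd (Int.gcd a b) N : ℕ) : ℤ) := by
        apply h.cop
        · exact (Int.gcd_dvd_left _ _).trans (Int.gcd_dvd_left _ _)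
        · exact (Int.gcd_dvd_left _ _).trans (Int.gcd_dvd_right _ _)
        · exact Int.gcd_dvd_right _ _
      have h2 : Int.gcd (Int.gcd a b) N = 1 := by
        have := Int.isUnit_iff_natAbs_eq.1 h1
        simpa using this
      have h3 := Int.gcd_eq_gcd_ab (Int.gcd a b) N
      have h4 := Int.gcd_eq_gcd_ab a b
      rw [h2] at h3
      refine ⟨Int.gcdA a b * Int.gcdA (Int.gcd a b) N, Int.gcdB a b * Int.gcdA (Int.gcd a b) N,
        Int.gcdB (Int.gcd a b) N, ?_⟩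
      push_cast at h3
      linear_combination -h3 - Int.gcdA (Int.gcd a b) N * h4
    refine ⟨u * x.1 + v * x.2, (m * x.1 - v * q, m * x.2 + u * q), ?_⟩
    have e1 : x.1 = (u * x.1 + v * x.2) * a + N * (m * x.1 - v * q) := by
      linear_combination (-x.1) * hm - v * hq
    have e2 : x.2 = (u * x.1 + v * x.2) * b + N * (m * x.2 + u * q) := by
      linear_combination (-x.2) * hm + u * hq
    have e3 : lat w (w * τ) x = lat w (w * τ)
        ((u * x.1 + v * x.2) * a + N * (m * x.1 - v * q), (u * x.1 + v * x.2) * b + N * (m * x.2 + u * q)) := by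
      rw [← e1, ← e2]
    rw [e3]
    unfold lat
    push_cast
    ring

/-- the homomorphism with kernel the periods -/
private def ZPts_phi (N : ℕ) (a b : ℤ) : ((ZMod N × ZMod N) × (ZMod N × ZMod N)) →+ ZMod N where
  toFun x := a * (a * x.1.2 + b * x.2.2) - b * (a * x.1.1 + b * x.2.1)
  map_zero' := by simp
  map_add' x y := by
    simp only [Prod.fst_add, Prod.snd_add]
    ring

private theorem ZPts_surj (hcop : ∀ d : ℤ, d ∣ a → d ∣ b → d ∣ N → IsUnit d) :
    Function.Surjective (ZPts_phi N a b) := by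
  obtain ⟨u, v, m, hm⟩ : ∃ u v m : ℤ, u * a + v * b + m * N = 1 := by
    have h1 : IsUnit ((Int.gcd (Int.gcd a b) N : ℕ) : ℤ) := by
      apply hcop
      · exact (Int.gcd_dvd_left _ _).trans (Int.gcd_dvd_left _ _)
      · exact (Int.gcd_dvd_left _ _).trans (Int.gcd_dvd_right _ _)
      · exact Int.gcd_dvd_right _ _
    have h2 : Int.gcd (Int.gcd a b) N = 1 := by
      have := Int.isUnit_iff_natAbs_eq.1 h1
      simpa using this
    have h3 := Int.gcd_eq_gcd_ab (Int.gcd a b) N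
    have h4 := Int.gcd_eq_gcd_ab a b
    rw [h2] at h3
    refine ⟨Int.gcdA a b * Int.gcdA (Int.gcd a b) N, Int.gcdB a b * Int.gcdA (Int.gcd a b) N,
      Int.gcdB (Int.gcd a b) N, ?_⟩
    push_cast at h3
    linear_combination -h3 - Int.gcdA (Int.gcd a b) N * h4
  have h5 : (u : ZMod N) * a + v * b = 1 := by
    have h6 : ((u * a + v * b + m * N : ℤ) : ZMod N) = ((1 : ℤ) : ZMod N) := by rw [hm]
    push_cast at h6
    rw [ZMod.natCast_self, mul_zero, add_zero] at h6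
    exact h6
  intro t
  refine ⟨((0, u ^ 2 * t), (-(v ^ 2 * t), 2 * u * v * t)), ?_⟩
  change (a : ZMod N) * (a * (u ^ 2 * t) + b * (2 * u * v * t)) - b * (a * 0 + b * (-(v ^ 2 * t))) = t
  have h7 : ((u : ZMod N) * a + v * b) ^ 2 = 1 := by rw [h5, one_pow]
  linear_combination t * h7

private theorem ZPts_card [NeZero N] (hcop : ∀ d : ℤ, d ∣ a → d ∣ b → d ∣ N → IsUnit d) :
    (Finset.univ.filter fun x : (ZMod N × ZMod N) × (ZMod N × ZMod N) => ZPts_phi N a b x = 0).card =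
      N ^ 3 := by
  have h1 := Finset.card_eq_sum_card_fiberwise (s := (Finset.univ : Finset ((ZMod N × ZMod N) × (ZMod N × ZMod N))))
    (t := (Finset.univ : Finset (ZMod N))) (f := ZPts_phi N a b) (fun x _ => Finset.mem_univ _)
  have h2 : ∀ t : ZMod N, (Finset.univ.filter fun x : (ZMod N × ZMod N) × (ZMod N × ZMod N) =>
      ZPts_phi N a b x = t).card = (Finset.univ.filter fun x : (ZMod N × ZMod N) × (ZMod N × ZMod N) =>
      ZPts_phi N a b x = 0).card := by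
    intro t
    obtain ⟨y, hy⟩ := ZPts_surj hcop t
    symm
    apply Finset.card_bij (fun x _ => x + y)
    · intro x hx
      rw [Finset.mem_filter] at hx ⊢
      refine ⟨Finset.mem_univ _, ?_⟩
      rw [map_add, hx.2, hy, zero_add]
    · intro x _ x' _ he
      exact add_right_cancel he
    · intro x hx
      rw [Finset.mem_filter] at hx
      refine ⟨x - y, ?_, sub_add_cancel _ _⟩
      rw [Finset.mem_filter]
      refine ⟨Finset.mem_univ _, ?_⟩
      rw [map_sub, hx.2, hy, sub_self]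
  rw [Finset.sum_congr rfl fun t _ => h2 t, Finset.sum_const, smul_eq_mul] at h1
  simp only [Finset.card_univ, Fintype.card_prod, ZMod.card] at h1
  have h3 : 0 < N := Nat.pos_of_ne_zero (NeZero.ne N)
  apply Nat.eq_of_mul_eq_mul_left h3
  rw [← h1]
  ring

private theorem ZPts_inj [NeZero N] {r s r' s' : ZMod N} (h : ZD w τ c₁ c₂ N a b) {y : ℤ × ℤ}
    (e : lat w (w * τ) ((r.val : ℤ), (s.val : ℤ)) - lat w (w * τ) ((r'.val : ℤ), (s'.val : ℤ)) =
      N * lat w (w * τ) y) : r = r' ∧ s = s' := by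
  have e1 : lat w (w * τ) ((r.val : ℤ), (s.val : ℤ)) =
      lat w (w * τ) ((r'.val : ℤ) + N * y.1, (s'.val : ℤ) + N * y.2) := by
    rw [sub_eq_iff_eq_add] at e
    rw [e]
    unfold lat
    push_cast
    ring
  have e2 := lat_injective h.ind1 e1
  rw [Prod.mk.injEq] at e2
  obtain ⟨e3, e4⟩ := e2
  constructor
  · have e5 : (((r.val : ℤ)) : ZMod N) = (((r'.val : ℤ) + N * y.1 : ℤ) : ZMod N) := by rw [e3]
    push_cast at e5
    rw [ZMod.natCast_self, zero_mul, add_zero, ZMod.natCast_rightInverse, ZMod.natCast_rightInverse] at e5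
    exact e5
  · have e5 : (((s.val : ℤ)) : ZMod N) = (((s'.val : ℤ) + N * y.2 : ℤ) : ZMod N) := by rw [e4]
    push_cast at e5
    rw [ZMod.natCast_self, zero_mul, add_zero, ZMod.natCast_rightInverse, ZMod.natCast_rightInverse] at e5
    exact e5

theorem gam_count (h : ZD w τ c₁ c₂ N a b) : ∃ H : Finset (ℂ × ℂ), H.card = N ^ 3 ∧
    (∀ g ∈ H, Gam w τ c₁ c₂ a b g) ∧ ∀ g ∈ H, ∀ g' ∈ H, EqN w τ N g g' → g = g' := by
  have : NeZero N := ⟨by have := h.N1; omega⟩
  let e : (ZMod N × ZMod N) × (ZMod N × ZMod N) → ℂ × ℂ := fun x =>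
    (lat w (w * τ) ((x.1.1.val : ℤ), (x.1.2.val : ℤ)), lat w (w * τ) ((x.2.1.val : ℤ), (x.2.2.val : ℤ)))
  have he : ∀ x x', EqN w τ N (e x) (e x') → x = x' := by
    rintro ⟨⟨r₁, s₁⟩, ⟨r₂, s₂⟩⟩ ⟨⟨r₁', s₁'⟩, ⟨r₂', s₂'⟩⟩ ⟨⟨y, hy⟩, ⟨y', hy'⟩⟩
    obtain ⟨f1, f2⟩ := ZPts_inj h hy
    obtain ⟨f3, f4⟩ := ZPts_inj h hy'
    simp only at f1 f2 f3 f4
    subst f1 f2 f3 f4
    rfl
  have hinj : Function.Injective e := by
    intro x x' hx
    apply he
    rw [hx]
    refine ⟨⟨(0, 0), ?_⟩, ⟨(0, 0), ?_⟩⟩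
    · simp [lat]
    · simp [lat]
  refine ⟨(Finset.univ.filter fun x => ZPts_phi N a b x = 0).image e, ?_, ?_, ?_⟩
  · rw [Finset.card_image_of_injective _ hinj]
    exact ZPts_card h.cop
  · intro g hg
    rw [Finset.mem_image] at hg
    obtain ⟨x, hx, rfl⟩ := hg
    rw [Finset.mem_filter] at hx
    refine ⟨⟨_, rfl⟩, ⟨_, rfl⟩, ?_⟩
    have e1 : (a : ℂ) * (e x).1 + b * (e x).2 =
        lat w (w * τ) (a * x.1.1.val + b * x.2.1.val, a * x.1.2.val + b * x.2.2.val) := by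
      simp only [e]
      unfold lat
      push_cast
      ring
    rw [e1, ZPts_mem h]
    rw [← ZMod.intCast_zmod_eq_zero_iff_dvd]
    have h2 := hx.2
    change (a : ZMod N) * (a * x.1.2 + b * x.2.2) - b * (a * x.1.1 + b * x.2.1) = 0 at h2
    push_cast
    rw [ZMod.natCast_rightInverse, ZMod.natCast_rightInverse, ZMod.natCast_rightInverse,
      ZMod.natCast_rightInverse]
    exact h2
  · intro g hg g' hg' hgg
    rw [Finset.mem_image] at hg hg'
    obtain ⟨x, hx, rfl⟩ := hg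
    obtain ⟨x', hx', rfl⟩ := hg'
    rw [he x x' hgg]

/-- few elements have a half period as first or second coordinate -/
private theorem ZPts_bad (h : ZD w τ c₁ c₂ N a b) (H : Finset (ℂ × ℂ))
    (P Q : ℂ × ℂ → ℂ) (hQ : ∀ g ∈ H, ∃ x, Q g = lat w (w * τ) x)
    (hi : ∀ g ∈ H, ∀ g' ∈ H, (∃ x : ℤ × ℤ, P g - P g' = N * lat w (w * τ) x) →
      (∃ x : ℤ × ℤ, Q g - Q g' = N * lat w (w * τ) x) → g = g')
    (h2 : ∀ g ∈ H, ¬ OffN w τ N (2 * P g)) : H.card ≤ 4 * N ^ 2 := by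
  classical
  have : NeZero N := ⟨by have := h.N1; omega⟩
  have k1 : ∀ g ∈ H, ∃ x : ℤ × ℤ, 2 * P g = N * lat w (w * τ) x := by
    intro g hg
    have := h2 g hg
    unfold OffN Off at this
    push Not at this
    obtain ⟨x, hx⟩ := this
    exact ⟨x, by rw [hx, lat_smul]⟩
  choose! p hp using k1
  choose! q hq using hQ
  have hcard : Fintype.card ((ZMod 2 × ZMod 2) × (ZMod N × ZMod N)) = 4 * N ^ 2 := by
    simp only [Fintype.card_prod, ZMod.card]
    ring
  rw [← hcard, ← Finset.card_univ]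
  apply Finset.card_le_card_of_injOn
    (fun g => ((((p g).1 : ZMod 2), ((p g).2 : ZMod 2)), (((q g).1 : ZMod N), ((q g).2 : ZMod N))))
  · intro g _
    exact Finset.mem_coe.2 (Finset.mem_univ _)
  · intro g hg g' hg' hgg
    simp only [Prod.mk.injEq] at hgg
    obtain ⟨⟨f1, f2⟩, ⟨f3, f4⟩⟩ := hgg
    rw [ZMod.intCast_eq_intCast_iff_dvd_sub] at f1 f2 f3 f4
    obtain ⟨d1, hd1⟩ := f1
    obtain ⟨d2, hd2⟩ := f2
    obtain ⟨d3, hd3⟩ := f3
    obtain ⟨d4, hd4⟩ := f4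
    apply hi g hg g' hg'
    · refine ⟨(-d1, -d2), ?_⟩
      have e1 := hp g hg
      have e2 := hp g' hg'
      have e3 : lat w (w * τ) (p g) - lat w (w * τ) (p g') = 2 * lat w (w * τ) (-d1, -d2) := by
        rw [← lat_sub]
        have e4 : p g - p g' = (2 * -d1, 2 * -d2) := by
          apply Prod.ext
          · simp only [Prod.fst_sub]
            push_cast at hd1
            linarith
          · simp only [Prod.snd_sub]
            push_cast at hd2
            linarith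
        rw [e4]
        unfold lat
        push_cast
        ring
      have e5 : (2 : ℂ) * (P g - P g') = 2 * (N * lat w (w * τ) (-d1, -d2)) := by
        linear_combination e1 - e2 + N * e3
      exact mul_left_cancel₀ two_ne_zero e5
    · refine ⟨(-d3, -d4), ?_⟩
      rw [hq g hg, hq g' hg', ← lat_sub]
      have e4 : q g - q g' = (N * -d3, N * -d4) := by
        apply Prod.ext
        · simp only [Prod.fst_sub]
          linarith
        · simp only [Prod.snd_sub]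
          linarith
      rw [e4]
      unfold lat
      push_cast
      ring

theorem good_count (h : ZD w τ c₁ c₂ N a b) (hN : 16 ≤ N) : ∃ H : Finset (ℂ × ℂ),
    N ^ 3 ≤ 2 * H.card ∧ (∀ g ∈ H, Gam w τ c₁ c₂ a b g ∧ OffN w τ N (2 * g.1) ∧
      OffN w τ N (2 * g.2)) ∧ ∀ g ∈ H, ∀ g' ∈ H, EqN w τ N g g' → g = g' := by
  classical
  obtain ⟨H, hc, hG, hi⟩ := gam_count h
  set B₁ := H.filter fun g => ¬ OffN w τ N (2 * g.1) with hB₁
  set B₂ := H.filter fun g => ¬ OffN w τ N (2 * g.2) with hB₂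
  have b₁ : B₁.card ≤ 4 * N ^ 2 := by
    apply ZPts_bad h B₁ (fun g => g.1) (fun g => g.2)
    · intro g hg
      exact (hG g (Finset.mem_filter.1 hg).1).2.1
    · intro g hg g' hg' e1 e2
      exact hi g (Finset.mem_filter.1 hg).1 g' (Finset.mem_filter.1 hg').1 ⟨e1, e2⟩
    · intro g hg
      exact (Finset.mem_filter.1 hg).2
  have b₂ : B₂.card ≤ 4 * N ^ 2 := by
    apply ZPts_bad h B₂ (fun g => g.2) (fun g => g.1)
    · intro g hg
      exact (hG g (Finset.mem_filter.1 hg).1).1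
    · intro g hg g' hg' e1 e2
      exact hi g (Finset.mem_filter.1 hg).1 g' (Finset.mem_filter.1 hg').1 ⟨e2, e1⟩
    · intro g hg
      exact (Finset.mem_filter.1 hg).2
  refine ⟨H.filter fun g => OffN w τ N (2 * g.1) ∧ OffN w τ N (2 * g.2), ?_, ?_, ?_⟩
  · have h1 : H ⊆ (H.filter fun g => OffN w τ N (2 * g.1) ∧ OffN w τ N (2 * g.2)) ∪ (B₁ ∪ B₂) := by
      intro g hg
      rw [Finset.mem_union, Finset.mem_union, hB₁, hB₂, Finset.mem_filter, Finset.mem_filter,
        Finset.mem_filter]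
      tauto
    have h2 := Finset.card_le_card h1
    have h3 := Finset.card_union_le (H.filter fun g => OffN w τ N (2 * g.1) ∧ OffN w τ N (2 * g.2)) (B₁ ∪ B₂)
    have h4 := Finset.card_union_le B₁ B₂
    have h5 : 16 * N ^ 2 ≤ N ^ 3 := by
      rw [pow_succ N 2, mul_comm]
      exact Nat.mul_le_mul_left _ hN
    omega
  · intro g hg
    rw [Finset.mem_filter] at hg
    exact ⟨hG g hg.1, hg.2⟩
  · intro g hg g' hg'
    exact hi g (Finset.mem_filter.1 hg).1 g' (Finset.mem_filter.1 hg').1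

/-- a finite set of classes has at least `1 / 4` as many images under `(xx, xx)` -/
theorem card_image (h : ZD w τ c₁ c₂ N a b) (H : Finset (ℂ × ℂ))
    (hH : ∀ g ∈ H, OffN w τ N g.1 ∧ OffN w τ N g.2)
    (hi : ∀ g ∈ H, ∀ g' ∈ H, EqN w τ N g g' → g = g') :
    H.card ≤ 4 * (H.image fun g => (xx w τ N g.1, xx w τ N g.2)).card := by
  classical
  apply Finset.card_le_mul_card_image
  intro q hq
  rw [Finset.mem_image] at hq
  obtain ⟨g₀, hg₀, rfl⟩ := hq
  have hcard : Fintype.card (Bool × Bool) = 4 := by decide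
  rw [← hcard, ← Finset.card_univ]
  have key : ∀ {u v t : ℂ}, OffN w τ N u → OffN w τ N v → OffN w τ N t → xx w τ N u = xx w τ N t →
      xx w τ N v = xx w τ N t →
      ((∃ x : ℤ × ℤ, u - t = N * lat w (w * τ) x) ↔ ∃ x : ℤ × ℤ, v - t = N * lat w (w * τ) x) →
      ∃ x : ℤ × ℤ, u - v = N * lat w (w * τ) x := by
    intro u v t hu hv ht e1 e2 e3
    by_cases hc : ∃ x : ℤ × ℤ, u - t = N * lat w (w * τ) x
    · obtain ⟨y, hy⟩ := e3.1 hc
      obtain ⟨x, hx⟩ := hc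
      refine ⟨x - y, ?_⟩
      rw [lat_sub, mul_sub, ← hx, ← hy]
      ring
    · have hc' : ¬ ∃ x : ℤ × ℤ, v - t = N * lat w (w * τ) x := fun hh => hc (e3.2 hh)
      obtain ⟨x, hx⟩ := (xx_eq h hu ht e1).resolve_left hc
      obtain ⟨y, hy⟩ := (xx_eq h hv ht e2).resolve_left hc'
      refine ⟨x - y, ?_⟩
      rw [lat_sub, mul_sub, ← hx, ← hy]
      ring
  apply Finset.card_le_card_of_injOn
    (fun g => (decide (∃ x : ℤ × ℤ, g.1 - g₀.1 = N * lat w (w * τ) x),
      decide (∃ x : ℤ × ℤ, g.2 - g₀.2 = N * lat w (w * τ) x)))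
  · intro g _
    exact Finset.mem_coe.2 (Finset.mem_univ _)
  · intro g hg g' hg' hgg
    rw [Finset.coe_filter, Set.mem_ofPred_eq] at hg hg'
    simp only [Prod.mk.injEq, decide_eq_decide] at hgg
    obtain ⟨hg1, hg2⟩ := hg
    obtain ⟨hg1', hg2'⟩ := hg'
    simp only [Prod.mk.injEq] at hg2 hg2'
    apply hi g hg1 g' hg1'
    constructor
    · exact key (hH g hg1).1 (hH g' hg1').1 (hH g₀ hg₀).1 hg2.1 hg2'.1 hgg.1
    · exact key (hH g hg1).2 (hH g' hg1').2 (hH g₀ hg₀).2 hg2.2 hg2'.2 hgg.2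

/-- an estimate on a dense set near a point of continuity extends -/
private theorem ZPts_ext {S : Set (ℂ × ℂ)} (hS : Dense S) {F : ℂ × ℂ → ℂ} {z : ℂ × ℂ} {T : ℕ}
    (hF : ∀ᶠ y in 𝓝 z, ContinuousAt F y) (h : F =O[𝓝[S] z] fun y => ‖y - z‖ ^ T) :
    F =O[𝓝 z] fun y => ‖y - z‖ ^ T := by
  obtain ⟨C, hC⟩ := h.bound
  rw [eventually_nhdsWithin_iff] at hC
  obtain ⟨U, hU, hUo, hzU⟩ := eventually_nhds_iff.1 (hF.and hC)
  refine IsBigO.of_bound C ?_
  filter_upwards [hUo.mem_nhds hzU] with y hy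
  have h1 : (𝓝[U ∩ S] y).NeBot := by
    rw [← mem_closure_iff_nhdsWithin_neBot]
    exact (hS.open_subset_closure_inter hUo) hy
  have h2 : Tendsto (fun x => ‖F x‖) (𝓝[U ∩ S] y) (𝓝 ‖F y‖) :=
    ((hU y hy).1.norm).tendsto.mono_left nhdsWithin_le_nhds
  have h3 : Tendsto (fun x : ℂ × ℂ => C * ‖(‖x - z‖ ^ T : ℝ)‖) (𝓝[U ∩ S] y) (𝓝 (C * ‖(‖y - z‖ ^ T : ℝ)‖)) := by
    have : Continuous fun x : ℂ × ℂ => C * ‖(‖x - z‖ ^ T : ℝ)‖ := by fun_prop
    exact (this.tendsto y).mono_left nhdsWithin_le_nhds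
  refine le_of_tendsto_of_tendsto h2 h3 ?_
  filter_upwards [self_mem_nhdsWithin] with x hx
  exact (hU x hx.1).2 hx.2

theorem exists_pts (h : ZD w τ c₁ c₂ N a b) (hN : 16 ≤ N) {L₁ L₂ K T : ℕ}
    {p : ℕ → ℕ → ℕ → ℂ} {G R : ℂ[X][Y]} {α : ℂ[X]}
    (g : GD w τ c₁ c₂ N a b L₁ L₂ K p G R α)
    (hT : FF w τ c₁ c₂ a b L₁ L₂ K p =O[𝓝 0] fun z => ‖z‖ ^ T) :
    ∃ Z : Finset (ℂ × ℂ), N ^ 3 ≤ 8 * Z.card ∧ ∀ q ∈ Z, Van T q.1 q.2 G := by
  obtain ⟨H, hc, hG, hi⟩ := good_count h hN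
  have hoff : ∀ t : ℂ, OffN w τ N (2 * t) → OffN w τ N t := by
    intro t ht x hx
    refine ht (2 * x.1, 2 * x.2) ?_
    rw [hx]
    unfold lat
    push_cast
    ring
  have h1 : ∀ g ∈ H, OffN w τ N g.1 ∧ OffN w τ N g.2 := fun g hg =>
    ⟨hoff _ (hG g hg).2.1, hoff _ (hG g hg).2.2⟩
  have h2 := card_image h H h1 hi
  refine ⟨H.image fun g => (xx w τ N g.1, xx w τ N g.2), by omega, ?_⟩
  intro q hq
  rw [Finset.mem_image] at hq
  obtain ⟨z, hz, rfl⟩ := hq
  obtain ⟨hg, o1, o2⟩ := hG z hz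
  obtain ⟨k1, k2⟩ := h1 z hz
  change Van T (xx w τ N z.1) (xx w τ N z.2) G
  have s1 := (xx_deriv h k1).1
  have s2 := (xx_deriv h k2).1
  have s3 := xx_deriv_ne h o1
  have s4 := xx_deriv_ne h o2
  have s6 : ∀ᶠ y in 𝓝 z, ContinuousAt (fun y : ℂ × ℂ => G.evalEval (xx w τ N y.1) (xx w τ N y.2)) y := by
    have c1 : ∀ᶠ y : ℂ × ℂ in 𝓝 z, OffN w τ N y.1 :=
      (continuous_fst.tendsto z).eventually ((isOpen_off h.indN).mem_nhds k1)
    have c2 : ∀ᶠ y : ℂ × ℂ in 𝓝 z, OffN w τ N y.2 :=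
      (continuous_snd.tendsto z).eventually ((isOpen_off h.indN).mem_nhds k2)
    filter_upwards [c1, c2] with y y1 y2
    have d1 : ContinuousAt (fun y : ℂ × ℂ => xx w τ N y.1) y :=
      ContinuousAt.comp (f := Prod.fst) (g := xx w τ N) (xx_an h y1).continuousAt continuousAt_fst
    have d2 : ContinuousAt (fun y : ℂ × ℂ => xx w τ N y.2) y :=
      ContinuousAt.comp (f := Prod.snd) (g := xx w τ N) (xx_an h y2).continuousAt continuousAt_snd
    have d3 : Continuous fun q : ℂ × ℂ => G.evalEval q.1 q.2 := by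
      have : (fun q : ℂ × ℂ => G.evalEval q.1 q.2) = fun q : ℂ × ℂ =>
          ∑ i ∈ Finset.range (dX G + 1), ∑ j ∈ Finset.range (dY G + 1),
            cf G 0 0 i j * (q.1 - 0) ^ i * (q.2 - 0) ^ j := by
        funext q
        exact eval_sum_cf G 0 0 q.1 q.2 _ _ le_rfl le_rfl
      rw [this]
      fun_prop
    have d4 : ContinuousAt (fun y : ℂ × ℂ => (xx w τ N y.1, xx w τ N y.2)) y := d1.prodMk d2
    exact ContinuousAt.comp (f := fun y : ℂ × ℂ => (xx w τ N y.1, xx w τ N y.2))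
      (g := fun q : ℂ × ℂ => G.evalEval q.1 q.2) d3.continuousAt d4
  have s7 : (fun y : ℂ × ℂ => G.evalEval (xx w τ N y.1) (xx w τ N y.2))
      =O[𝓝[Gen w τ c₁ c₂ a b] z] fun y => ‖y - z‖ ^ T := by
    refine (g.bd z k1 k2).trans ?_
    have e1 : Tendsto (fun y : ℂ × ℂ => y - z) (𝓝 z) (𝓝 0) := by
      have : Continuous fun y : ℂ × ℂ => y - z := by fun_prop
      have h3 := this.tendsto z
      rwa [sub_self] at h3
    have e2 := hT.comp_tendsto e1
    have e3 : FF w τ c₁ c₂ a b L₁ L₂ K p =O[𝓝 z] fun y => ‖y - z‖ ^ T := by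
      refine IsBigO.congr' e2 ?_ ?_
      · filter_upwards with y
        have := FF_add h L₁ L₂ K p (y - z) hg
        rw [sub_add_cancel] at this
        exact this.symm
      · filter_upwards with y
        rfl
    exact e3.mono nhdsWithin_le_nhds
  exact van_comp (z := z) s1 s2 s3 s4 (ZPts_ext (gen_dense h) s6 s7)

end Pool.Agent.LGO.F
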