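import Mathlib
import Pool.Agent.LGO.F.ZXx
import Pool.Agent.LGO.A.MulElim
import Pool.Agent.LGO.A.MulBasic

/-!
# LGO/F (note 3060, zero estimate (iv)): an arc of the curve `g = 0`

PROOF of `exists_branch`.  `H = pY g * (4 X³ - g2 X - g3)(X) * (4 X³ - g2 X - g3)(Y)` (invariants of `N Λ`): `g` does not divide `H` (`g` is
irreducible, so prime; `¬ g ∣ pY g` by degree in `Y`; `¬ g ∣` a polynomial in `X` or in `Y` alone: `not_dvd_C`, `not_dvd_map`).
`exists_point`: `g(x₀, y₀) = 0`, `H(x₀, y₀) ≠ 0`.  `xx_surj`: `x₀ = xx t₀`, `y₀ = xx u₀`, `OffN t₀`, `OffN u₀`; `xx'(u₀)² = F(y₀) ≠ 0` (`xx_deriv`).  The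
function `Φ(t, u) = g(xx t, xx u)` is analytic near `(t₀, u₀)`, `Φ(t₀, u₀) = 0`, `∂Φ/∂u = pY g(x₀, y₀) xx'(u₀) ≠ 0`: the implicit function
theorem (`HasStrictFDerivAt.implicitFunction` / `ContDiffAt` version over `ℂ`; Mathlib: `HasStrictFDerivAt.implicitFunctionOfProdDomain`, or
use the local inverse of `(t, u) ↦ (t, Φ(t, u))`, `HasStrictFDerivAt.toOpenPartialHomeomorph`, which is complex differentiable) gives `ψ`
holomorphic near `t₀` with `Φ(t, ψ(t)) = 0`, `ψ(t₀) = u₀`; `U` = a small ball.  On it `OffN t`, `OffN (ψ t)`.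
`const_branch` (the horizontal case): `ψ` constant, `U` any ball in the open set of the `t` with `OffN t`.
`branch_not_const`: if `ψ` were constant `= c` on `U`, then `g(xx t, xx c) = 0` for infinitely many values `xx t`, so `Y - C (xx c)` divides `g`
(`g(X, xx c) = 0` as a polynomial in `X`), so `g` is associated to it (irreducible), `dX g = 0`.
-/

namespace Pool.Agent.LGO.F

open Polynomial Pool.Agent.EllSch Pool.Agent.LGO.Mul Filter Topology
open scoped Polynomial.Bivariate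

variable {w τ c₁ c₂ : ℂ} {N : ℕ} {a b : ℤ}

/-- `ψ` is an arc of `g = 0` over `U` -/
structure Arc (w τ : ℂ) (N : ℕ) (g : ℂ[X][Y]) (U : Set ℂ) (ψ : ℂ → ℂ) : Prop where
  op : IsOpen U
  ne : U.Nonempty
  pre : IsPreconnected U
  dif : DifferentiableOn ℂ ψ U
  off : ∀ t ∈ U, OffN w τ N t ∧ OffN w τ N (ψ t)
  zero : ∀ t ∈ U, g.evalEval (xx w τ N t) (xx w τ N (ψ t)) = 0

private theorem ZBr_contDiff (F : ℂ[X][Y]) : ContDiff ℂ 1 (fun q : ℂ × ℂ => F.evalEval q.1 q.2) := by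
  have h : (fun q : ℂ × ℂ => F.evalEval q.1 q.2) =
      fun q : ℂ × ℂ => ∑ i ∈ Finset.range (F.natDegree + 1), (F.coeff i).eval q.1 * q.2 ^ i := by
    funext q
    rw [← Polynomial.map_evalRingHom_eval, eval_map, eval₂_eq_sum_range]
    rfl
  rw [h]
  refine ContDiff.sum fun i _ => ?_
  refine ContDiff.mul ?_ (contDiff_snd.pow i)
  have h1 : ContDiff ℂ 1 (fun T : ℂ => (F.coeff i).eval T) := by
    simpa only [Polynomial.coe_aeval_eq_eval] using Polynomial.contDiff_aeval (𝕜 := ℂ) (F.coeff i) 1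
  exact h1.comp contDiff_fst

private theorem ZBr_off (h : ZD w τ c₁ c₂ N a b) {z : ℂ} (hz : OffN w τ N z) :
    ∀ᶠ t in 𝓝 z, OffN w τ N t :=
  (isOpen_off h.indN).mem_nhds hz

private theorem ZBr_arc (h : ZD w τ c₁ c₂ N a b) {g : ℂ[X][Y]} {ψ : ℂ → ℂ} {t₀ : ℂ}
    (h1 : ∀ᶠ t in 𝓝 t₀, DifferentiableAt ℂ ψ t)
    (h2 : ∀ᶠ t in 𝓝 t₀, OffN w τ N t ∧ OffN w τ N (ψ t))
    (h3 : ∀ᶠ t in 𝓝 t₀, g.evalEval (xx w τ N t) (xx w τ N (ψ t)) = 0) :
    ∃ U : Set ℂ, Arc w τ N g U ψ := by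
  obtain ⟨ε, hε, hb⟩ := Metric.eventually_nhds_iff_ball.1 (h1.and (h2.and h3))
  refine ⟨Metric.ball t₀ ε, Metric.isOpen_ball, ⟨t₀, Metric.mem_ball_self hε⟩,
    (convex_ball t₀ ε).isPreconnected, ?_, ?_, ?_⟩
  · intro t ht
    exact (hb t ht).1.differentiableWithinAt
  · intro t ht
    exact (hb t ht).2.1
  · intro t ht
    exact (hb t ht).2.2

theorem exists_branch (h : ZD w τ c₁ c₂ N a b) {g : ℂ[X][Y]} (hg : Irreducible g)
    (h1 : 0 < dX g) (h2 : 0 < dY g) : ∃ (U : Set ℂ) (ψ : ℂ → ℂ), Arc w τ N g U ψ := by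
  obtain ⟨F, hF⟩ : ∃ F : ℂ[X], F = C 4 * X ^ 3 - C (G2 (N * w) (N * (w * τ))) * X -
    C (G3 (N * w) (N * (w * τ))) := ⟨_, rfl⟩
  have hFe : ∀ y, F.eval y = 4 * y ^ 3 - G2 (N * w) (N * (w * τ)) * y -
      G3 (N * w) (N * (w * τ)) := by
    intro y; rw [hF]; simp
  have hF0 : F ≠ 0 := by
    intro h0
    have : F.coeff 3 = 4 := by
      rw [hF]
      simp
    rw [h0, coeff_zero] at this
    norm_num at this
  have hdvd : ¬ g ∣ pY g * F.map C := by
    intro hd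
    rcases hg.prime.dvd_or_dvd hd with h3 | h3
    · have h4 : pY g ≠ 0 := by
        unfold pY
        intro h0
        have := derivative_eq_zero.1 h0
        unfold dY at h2
        omega
      have h5 := natDegree_le_of_dvd h3 h4
      have h6 : (pY g).natDegree < g.natDegree := natDegree_derivative_lt h2.ne'
      omega
    · exact not_dvd_map h1 hF0 h3
  obtain ⟨x₀, y₀, hz, hH⟩ := exists_point hg h2 hdvd
  rw [evalEval_mul, evalEval_map_C] at hH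
  have hH1 := left_ne_zero_of_mul hH
  have hH2 := right_ne_zero_of_mul hH
  obtain ⟨t₀, ht₀, hx₀⟩ := xx_surj h x₀
  obtain ⟨u₀, hu₀, hy₀⟩ := xx_surj h y₀
  obtain ⟨hd1, hd2⟩ := xx_deriv h hu₀
  have hwq : wq (N * w) (N * (w * τ)) u₀ ≠ 0 := by
    intro h0
    apply hH2
    rw [hFe, ← hy₀, ← hd2, h0]
    norm_num
  -- the function
  obtain ⟨Φ, hΦ⟩ : ∃ Φ : ℂ × ℂ → ℂ, Φ = fun v => g.evalEval (xx w τ N v.1) (xx w τ N v.2) :=
    ⟨_, rfl⟩
  have cdf : ContDiffAt ℂ 1 Φ (t₀, u₀) := by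
    have e1 : ContDiffAt ℂ 1 (fun v : ℂ × ℂ => ((xx w τ N v.1, xx w τ N v.2) : ℂ × ℂ)) (t₀, u₀) := by
      refine ContDiffAt.prodMk ?_ ?_
      · exact ContDiffAt.comp (g := xx w τ N) (t₀, u₀) (xx_an h ht₀).contDiffAt contDiffAt_fst
      · exact ContDiffAt.comp (g := xx w τ N) (t₀, u₀) (xx_an h hu₀).contDiffAt contDiffAt_snd
    rw [hΦ]
    exact ContDiffAt.comp (g := fun q : ℂ × ℂ => g.evalEval q.1 q.2) (t₀, u₀)
      (ZBr_contDiff g).contDiffAt e1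
  have hfd : HasFDerivAt Φ (fderiv ℂ Φ (t₀, u₀)) (t₀, u₀) :=
    (cdf.differentiableAt one_ne_zero).hasFDerivAt
  have hc : fderiv ℂ Φ (t₀, u₀) (0, 1) ≠ 0 := by
    have e1 : HasDerivAt (fun u : ℂ => Φ (t₀, u)) (fderiv ℂ Φ (t₀, u₀) (0, 1)) u₀ := by
      have h1 : HasDerivAt (fun u : ℂ => ((t₀, u) : ℂ × ℂ)) ((0 : ℂ), (1 : ℂ)) u₀ :=
        (hasDerivAt_const u₀ t₀).prodMk (hasDerivAt_id u₀)
      exact HasFDerivAt.comp_hasDerivAt u₀ hfd h1
    have e2 := hasDerivAt_eval g (hasDerivAt_const u₀ (xx w τ N t₀)) hd1.hasDerivAt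
    have e3 : (fun u : ℂ => Φ (t₀, u)) = fun u => g.evalEval (xx w τ N t₀) (xx w τ N u) := by
      rw [hΦ]
    rw [e3] at e1
    rw [e1.unique e2, mul_zero, zero_add, hx₀, hy₀]
    exact mul_ne_zero hH1 hwq
  have hinv : (fderiv ℂ Φ (t₀, u₀) ∘L .inr ℂ ℂ ℂ).IsInvertible := by
    refine ⟨ContinuousLinearEquiv.unitsEquivAut ℂ (Units.mk0 _ hc), ?_⟩
    ext
    simp
  have hψ0 := cdf.implicitFunction_apply_self one_ne_zero hinv
  have hψ1 := cdf.eventually_apply_implicitFunction one_ne_zero hinv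
  have hψ2 := cdf.contDiffAt_implicitFunction one_ne_zero hinv
  set ψ := cdf.implicitFunction one_ne_zero hinv with hψ
  simp only at hψ0 hψ1 hψ2
  have hΦ0 : Φ (t₀, u₀) = 0 := by
    rw [hΦ]
    simp only
    rw [hx₀, hy₀]
    exact hz
  obtain ⟨U, hU⟩ := ZBr_arc (g := g) (ψ := ψ) (t₀ := t₀) h
    ((hψ2.eventually (by simp)).mono fun t ht => ht.differentiableAt one_ne_zero)
    ((ZBr_off h ht₀).and (hψ2.continuousAt.eventually (by rw [hψ0]; exact ZBr_off h hu₀)))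
    (hψ1.mono fun t ht => by
      rw [hΦ0, hΦ] at ht
      exact ht)
  exact ⟨U, ψ, hU⟩

/-- an irreducible polynomial of degree `0` in `X` has a horizontal arc -/
theorem const_branch (h : ZD w τ c₁ c₂ N a b) {g : ℂ[X][Y]} (hg : Irreducible g)
    (h1 : dX g = 0) : ∃ (U : Set ℂ) (c : ℂ), Arc w τ N g U (fun _ => c) := by
  obtain ⟨p, rfl⟩ := eq_map_of_dX_eq_zero h1
  have hdeg : p.degree ≠ 0 := by
    intro h0
    have h2 : p = C (p.coeff 0) := eq_C_of_degree_eq_zero h0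
    have h3 : p.coeff 0 ≠ 0 := by
      intro h4
      rw [h4, C_0] at h2
      rw [h2] at h0
      simp at h0
    apply hg.not_isUnit
    rw [h2, map_C]
    exact isUnit_C.2 (isUnit_C.2 (isUnit_iff_ne_zero.2 h3))
  obtain ⟨y₀, hy₀⟩ := IsAlgClosed.exists_root p hdeg
  obtain ⟨t₀, ht₀, -⟩ := xx_surj h 0
  obtain ⟨u₀, hu₀, hu⟩ := xx_surj h y₀
  obtain ⟨U, hU⟩ := ZBr_arc (g := p.map C) (ψ := fun _ => u₀) (t₀ := t₀) h
    (Filter.Eventually.of_forall fun t => differentiableAt_const _)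
    ((ZBr_off h ht₀).mono fun t ht => ⟨ht, hu₀⟩)
    (Filter.Eventually.of_forall fun t => by
      rw [evalEval_map_C, hu]
      exact hy₀)
  exact ⟨U, u₀, hU⟩

theorem branch_not_const (h : ZD w τ c₁ c₂ N a b) {g : ℂ[X][Y]} (hg : Irreducible g)
    (h1 : 0 < dX g) {U : Set ℂ} {ψ : ℂ → ℂ} (hA : Arc w τ N g U ψ) (c : ℂ) :
    ∃ t ∈ U, ψ t ≠ c := by
  by_contra hcon
  push Not at hcon
  obtain ⟨t₁, ht₁⟩ := hA.ne
  have hz : ∀ t ∈ U, (g.eval (C (xx w τ N c))).eval (xx w τ N t) = 0 := by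
    intro t ht
    have := hA.zero t ht
    rw [hcon t ht] at this
    exact this
  have hP : g.eval (C (xx w τ N c)) = 0 := by
    by_contra hP0
    set P := g.eval (C (xx w τ N c)) with hPdef
    set r := xx w τ N t₁ with hr
    have hfin : ((P.roots.toFinset : Set ℂ) \ {r}).Finite :=
      (Finset.finite_toSet _).subset Set.sdiff_subset
    have h2 : ∀ᶠ y in 𝓝 r, y ∉ ((P.roots.toFinset : Set ℂ) \ {r}) :=
      hfin.isClosed.isOpen_compl.mem_nhds (fun hm => hm.2 rfl)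
    have h3 := (xx_an h (hA.off t₁ ht₁).1).continuousAt.eventually h2
    have h4 : ∀ᶠ t in 𝓝 t₁, xx w τ N t - r = 0 := by
      filter_upwards [h3, hA.op.mem_nhds ht₁] with t h5 h6
      by_contra h7
      refine h5 ⟨?_, fun h8 => h7 (sub_eq_zero.2 h8)⟩
      rw [Finset.mem_coe, Multiset.mem_toFinset, mem_roots hP0]
      exact hz t h6
    have h5 := xx_order h (hA.off t₁ ht₁).1 r
    rw [meromorphicOrderAt_eq_top_iff.2 (h4.filter_mono nhdsWithin_le_nhds)] at h5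
    exact absurd h5 (by decide)
  have h2 : (X - C (C (xx w τ N c)) : ℂ[X][Y]) ∣ g := dvd_iff_isRoot.2 hP
  have h3 := (irreducible_X_sub_C (C (xx w τ N c) : ℂ[X])).associated_of_dvd hg h2
  have h4 : g ∣ (X - C (xx w τ N c) : ℂ[X]).map C := by
    rw [Polynomial.map_sub, map_X, map_C]
    exact h3.dvd'
  exact not_dvd_map h1 (X_sub_C_ne_zero _) h4

end Pool.Agent.LGO.F
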