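import Mathlib
import Pool.Agent.LGO.F.ZBr
import Pool.Agent.LGO.F.ZG

/-!
# LGO/F (note 3060, zero estimate (iv)): the order of `FF` along an arc of a multiple factor of `G`

PROOF of `sign`.  The set of the `t ∈ U` with: `¬ Go t`, or `α(xx t) = 0`, or the polynomial `R(xx t, Y)` is zero is countable (`go_countable`;
`xx` takes every value at most countably often on the points off `N Λ` (`xx_eq`), `α` and `R` are not zero).  Let `t ∈ U` be outside of it,
`y₀ = ψ t`.  `Φ(y) = G(xx t, xx y)` is analytic at `y₀` and of order `≥ e` (`G = g^e G'`, `y ↦ g(xx t, xx y)` is analytic at `y₀` and vanishes there).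
For `y` in a punctured neighbourhood of `y₀` both `(t, y)` and `(t, - y)` are in `Gen` (`gen_slice` at `y₀` and at `- y₀`), so `GD.eq` holds:
`Φ(y) = R(xx t, xx y)^(K-1) α(xx t)^(2(L₁-1)) α(xx y)^(2(L₂-1)) FF(t, y) FF(t, - y)`.  Orders at `y₀`: `R(xx t, xx y)`: a nonzero polynomial of
degree `≤ 16 N⁴` in `xx y`, it is a product of `≤ 16 N⁴` factors `xx y - c` of order `≤ 2` (`xx_order`) and a constant: `≤ 32 N⁴`;
`(K - 1) 32 N⁴ ≤ 32 N⁵`; `α(xx y)`: `≤ 2` (`GD.αord`), `2 (L₂ - 1) 2 ≤ 4 L₂`.  So the sum of the orders of `FF(t, y)` and `FF(t, - y)` at `y₀` is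
`≥ e - 32 N⁵ - 4 L₂ ≥ e / 2`; one of them is `≥ e / 4`; the order of `y ↦ FF(t, - y)` at `y₀` is the order of `FF(t, ·)` at `- y₀`.
(All the functions are meromorphic: `mero_FF`; `meromorphicOrderAt_mul`, `meromorphicOrderAt_congr`.)  So `U` minus a countable set is the union of
`A₊` and `A₋`; a nonempty open set is not countable, so one of them is not countable.
-/

namespace Pool.Agent.LGO.F

open Polynomial Pool.Agent.EllSch Pool.Agent.LGO.Mul Filter Topology
open scoped Polynomial.Bivariate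

variable {w τ c₁ c₂ : ℂ} {N : ℕ} {a b : ℤ}

/-- the values of `xx` are taken countably often -/
theorem xx_fiber_countable (h : ZD w τ c₁ c₂ N a b) (c : ℂ) :
    {t | OffN w τ N t ∧ xx w τ N t = c}.Countable := by
  rcases Set.eq_empty_or_nonempty {t | OffN w τ N t ∧ xx w τ N t = c} with he | ⟨t₀, ht₀⟩
  · rw [he]
    exact Set.countable_empty
  · have h1 : (Set.range fun x : ℤ × ℤ => t₀ + N * lat w (w * τ) x).Countable :=
      Set.countable_range _
    have h2 : (Set.range fun x : ℤ × ℤ => -t₀ + N * lat w (w * τ) x).Countable :=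
      Set.countable_range _
    refine (h1.union h2).mono ?_
    intro t ht
    rcases xx_eq h ht.1 ht₀.1 (ht.2.trans ht₀.2.symm) with ⟨x, hx⟩ | ⟨x, hx⟩
    · left
      refine ⟨x, ?_⟩
      simp only
      rw [← hx]
      ring
    · right
      refine ⟨x, ?_⟩
      simp only
      rw [← hx]
      ring

/-- the zeros of a nonzero polynomial in `xx` -/
private theorem ZSg_poly_countable (h : ZD w τ c₁ c₂ N a b) {r : ℂ[X]} (hr : r ≠ 0) :
    {t | OffN w τ N t ∧ r.eval (xx w τ N t) = 0}.Countable := by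
  refine ((r.roots.toFinset.finite_toSet.countable).biUnion
    (t := fun c _ => {t | OffN w τ N t ∧ xx w τ N t = c})
    fun c _ => xx_fiber_countable h c).mono ?_
  rintro t ⟨ht, ht0⟩
  simp only [Set.mem_iUnion]
  refine ⟨xx w τ N t, ?_, ht, rfl⟩
  rw [Finset.mem_coe, Multiset.mem_toFinset, mem_roots hr]
  exact ht0

private theorem ZSg_an (h : ZD w τ c₁ c₂ N a b) (r : ℂ[X]) {z : ℂ} (hz : OffN w τ N z) :
    AnalyticAt ℂ (fun y => r.eval (xx w τ N y)) z := by
  exact (xx_an h hz).aeval_polynomial r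

/-- the order of a polynomial in `xx` -/
private theorem ZSg_order (h : ZD w τ c₁ c₂ N a b) {z : ℂ} (hz : OffN w τ N z) (n : ℕ) :
    ∀ r : ℂ[X], r ≠ 0 → r.natDegree = n →
      meromorphicOrderAt (fun y => r.eval (xx w τ N y)) z ≤ ((2 * n : ℕ) : ℤ) := by
  induction n with
  | zero =>
    intro r hr hn
    obtain ⟨c, rfl⟩ := natDegree_eq_zero.1 hn
    have hc : c ≠ 0 := by
      rintro rfl
      exact hr (map_zero _)
    simp only [eval_C]
    classical
    rw [meromorphicOrderAt_const, if_neg hc]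
    simp
  | succ n ih =>
    intro r hr hn
    obtain ⟨c, hc⟩ := IsAlgClosed.exists_root r (by
      intro h0
      have h5 : r.natDegree = 0 := natDegree_eq_of_degree_eq_some h0
      omega)
    obtain ⟨q, rfl⟩ := dvd_iff_isRoot.2 hc
    have hq : q ≠ 0 := right_ne_zero_of_mul hr
    have hqn : q.natDegree = n := by
      rw [natDegree_mul (X_sub_C_ne_zero c) hq, natDegree_X_sub_C] at hn
      omega
    have h1 := ih q hq hqn
    have h2 : (fun y => ((X - C c) * q).eval (xx w τ N y)) =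
        fun y => (xx w τ N y - c) * q.eval (xx w τ N y) := by
      funext y
      rw [eval_mul, eval_sub, eval_X, eval_C]
    have h4 : MeromorphicAt (fun y => xx w τ N y - c) z :=
      ((xx_an h hz).fun_sub analyticAt_const).meromorphicAt
    rw [h2, fun_meromorphicOrderAt_mul h4 (ZSg_an h q hz).meromorphicAt]
    have h3 := xx_order h hz c
    calc meromorphicOrderAt (fun y => xx w τ N y - c) z +
          meromorphicOrderAt (fun y => q.eval (xx w τ N y)) z
        ≤ (2 : WithTop ℤ) + ((2 * n : ℕ) : ℤ) := add_le_add h3 h1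
      _ = ((2 * (n + 1) : ℕ) : ℤ) := by
        have h6 : ((2 * (n + 1) : ℕ) : ℤ) = 2 + ((2 * n : ℕ) : ℤ) := by
          push_cast
          ring
        rw [h6, WithTop.coe_add]
        rfl

private theorem ZSg_ev (P : ℂ[X][Y]) (x y : ℂ) :
    P.evalEval x y = (P.map (evalRingHom x)).eval y := by
  rw [map_evalRingHom_eval]

/-- the exceptional set -/
private theorem ZSg_bad (h : ZD w τ c₁ c₂ N a b) {R : ℂ[X][Y]} (hR : R ≠ 0) {α : ℂ[X]}
    (hα : α ≠ 0) : ∃ B : Set ℂ, B.Countable ∧ ∀ t, OffN w τ N t → t ∉ B →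
      Go w τ t ∧ α.eval (xx w τ N t) ≠ 0 ∧ R.map (evalRingHom (xx w τ N t)) ≠ 0 := by
  have hk : R.leadingCoeff ≠ 0 := leadingCoeff_ne_zero.2 hR
  refine ⟨{t | ¬ Go w τ t} ∪ ({t | OffN w τ N t ∧ α.eval (xx w τ N t) = 0} ∪
    {t | OffN w τ N t ∧ R.leadingCoeff.eval (xx w τ N t) = 0}),
    (go_countable h).union ((ZSg_poly_countable h hα).union (ZSg_poly_countable h hk)), ?_⟩
  intro t ht htB
  rw [Set.mem_union, Set.mem_union, not_or, not_or] at htB
  obtain ⟨h1, h2, h3⟩ := htB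
  refine ⟨not_not.1 h1, fun h4 => h2 ⟨ht, h4⟩, fun h4 => h3 ⟨ht, ?_⟩⟩
  have h5 := congrArg (fun Q : ℂ[X] => Q.coeff R.natDegree) h4
  simp only [coeff_map, coeff_zero, coe_evalRingHom] at h5
  exact h5

/-- the arithmetic -/
private theorem ZSg_arith {e A B : ℕ} (he : 2 * (A + B) ≤ e) {x y u v : WithTop ℤ}
    (hu : u ≤ (A : ℤ)) (hv : v ≤ (B : ℤ)) (h : ((e : ℤ) : WithTop ℤ) ≤ u + v + (x + y)) :
    (((e / 4 : ℕ) : ℤ) : WithTop ℤ) ≤ x ∨ (((e / 4 : ℕ) : ℤ) : WithTop ℤ) ≤ y := by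
  by_contra hcon
  push Not at hcon
  obtain ⟨h1, h2⟩ := hcon
  have hx : x ≠ ⊤ := ne_top_of_lt h1
  have hy : y ≠ ⊤ := ne_top_of_lt h2
  have hu' : u ≠ ⊤ := ne_top_of_le_ne_top (WithTop.coe_ne_top) hu
  have hv' : v ≠ ⊤ := ne_top_of_le_ne_top (WithTop.coe_ne_top) hv
  lift x to ℤ using hx
  lift y to ℤ using hy
  lift u to ℤ using hu'
  lift v to ℤ using hv'
  rw [WithTop.coe_lt_coe] at h1 h2
  rw [WithTop.coe_le_coe] at hu hv
  have h3 : (e : ℤ) ≤ u + v + (x + y) := by exact_mod_cast h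
  have h4 : ((e / 4 : ℕ) : ℤ) * 4 ≤ e := by
    have := Nat.div_mul_le_self e 4
    exact_mod_cast this
  have h5 : (2 : ℤ) * (A + B) ≤ e := by exact_mod_cast he
  omega

/-- one point of the arc -/
private theorem ZSg_point (h : ZD w τ c₁ c₂ N a b) {L₁ L₂ K : ℕ} (hK : 1 ≤ K) (hKN : K ≤ N)
    {p : ℕ → ℕ → ℕ → ℂ} {G R : ℂ[X][Y]} {α : ℂ[X]} (g : GD w τ c₁ c₂ N a b L₁ L₂ K p G R α)
    {q : ℂ[X][Y]} {e : ℕ} (hq : q ^ e ∣ G) (he : 64 * N ^ 5 + 8 * L₂ ≤ e) {t y₀ : ℂ}
    (hy : OffN w τ N y₀) (h0 : q.evalEval (xx w τ N t) (xx w τ N y₀) = 0) (hgo : Go w τ t)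
    (hα : α.eval (xx w τ N t) ≠ 0) (hR : R.map (evalRingHom (xx w τ N t)) ≠ 0) :
    (((e / 4 : ℕ) : ℤ) : WithTop ℤ) ≤
        meromorphicOrderAt (fun y => FF w τ c₁ c₂ a b L₁ L₂ K p (t, y)) y₀ ∨
      (((e / 4 : ℕ) : ℤ) : WithTop ℤ) ≤
        meromorphicOrderAt (fun y => FF w τ c₁ c₂ a b L₁ L₂ K p (t, y)) (-y₀) := by
  -- `FF(t, -y)`
  have hneg : meromorphicOrderAt (fun y => FF w τ c₁ c₂ a b L₁ L₂ K p (t, -y)) y₀ =
      meromorphicOrderAt (fun y => FF w τ c₁ c₂ a b L₁ L₂ K p (t, y)) (-y₀) := by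
    have h1 : AnalyticAt ℂ (fun y : ℂ => -y) y₀ := analyticAt_id.neg
    have h2 : deriv (fun y : ℂ => -y) y₀ ≠ 0 := by
      rw [deriv_neg]
      norm_num
    exact meromorphicOrderAt_comp_of_deriv_ne_zero
      (f := fun y => FF w τ c₁ c₂ a b L₁ L₂ K p (t, y)) h1 h2
  rw [← hneg]
  have hm1 : MeromorphicAt (fun y => FF w τ c₁ c₂ a b L₁ L₂ K p (t, y)) y₀ :=
    mero_FF h L₁ L₂ K p t y₀
  have hm2 : MeromorphicAt (fun y => FF w τ c₁ c₂ a b L₁ L₂ K p (t, -y)) y₀ :=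
    MeromorphicAt.comp_analyticAt (f := fun y => FF w τ c₁ c₂ a b L₁ L₂ K p (t, y))
      (g := fun y : ℂ => -y) (mero_FF h L₁ L₂ K p t (-y₀)) analyticAt_id.neg
  have han : ∀ P : ℂ[X][Y], AnalyticAt ℂ (fun y => P.evalEval (xx w τ N t) (xx w τ N y)) y₀ := by
    intro P
    have h1 : (fun y => P.evalEval (xx w τ N t) (xx w τ N y)) =
        fun y => (P.map (evalRingHom (xx w τ N t))).eval (xx w τ N y) :=
      funext fun y => ZSg_ev P _ _
    rw [h1]
    exact ZSg_an h _ hy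
  -- the order of `Φ`
  have hΦ : ((e : ℤ) : WithTop ℤ) ≤
      meromorphicOrderAt (fun y => G.evalEval (xx w τ N t) (xx w τ N y)) y₀ := by
    obtain ⟨G', rfl⟩ := hq
    have h1 : (fun y => (q ^ e * G').evalEval (xx w τ N t) (xx w τ N y)) =
        fun y => (q.evalEval (xx w τ N t) (xx w τ N y)) ^ e *
          G'.evalEval (xx w τ N t) (xx w τ N y) := by
      funext y
      rw [evalEval_mul, evalEval_pow]
    rw [h1, fun_meromorphicOrderAt_mul ((han q).meromorphicAt.fun_pow e) (han G').meromorphicAt,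
      fun_meromorphicOrderAt_pow (han q).meromorphicAt]
    have h2 : (1 : WithTop ℤ) ≤
        meromorphicOrderAt (fun y => q.evalEval (xx w τ N t) (xx w τ N y)) y₀ := by
      rw [(han q).meromorphicOrderAt_eq]
      have h3 : analyticOrderAt (fun y => q.evalEval (xx w τ N t) (xx w τ N y)) y₀ ≠ 0 :=
        (han q).analyticOrderAt_ne_zero.2 h0
      have h4 : (1 : ℕ∞) ≤ analyticOrderAt (fun y => q.evalEval (xx w τ N t) (xx w τ N y)) y₀ :=
        Order.one_le_iff_ne_zero.2 h3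
      cases h5 : analyticOrderAt (fun y => q.evalEval (xx w τ N t) (xx w τ N y)) y₀ with
      | top => simp
      | coe m =>
        rw [h5] at h4
        have h6 : 1 ≤ m := by exact_mod_cast h4
        simp only [ENat.map_natCast]
        exact_mod_cast h6
    have h3 : (0 : WithTop ℤ) ≤
        meromorphicOrderAt (fun y => G'.evalEval (xx w τ N t) (xx w τ N y)) y₀ :=
      (han G').meromorphicOrderAt_nonneg
    have h4 : ((e : ℤ) : WithTop ℤ) ≤
        (e : WithTop ℤ) * meromorphicOrderAt (fun y => q.evalEval (xx w τ N t) (xx w τ N y)) y₀ := by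
      cases h5 : meromorphicOrderAt (fun y => q.evalEval (xx w τ N t) (xx w τ N y)) y₀ with
      | top =>
        rcases Nat.eq_zero_or_pos e with rfl | hpos
        · simp
        · have h6 : (e : WithTop ℤ) * ⊤ = ⊤ := by
            rw [WithTop.mul_top]
            exact_mod_cast hpos.ne'
          rw [h6]
          exact le_top
      | coe m =>
        rw [h5] at h2
        have h6 : (1 : ℤ) ≤ m := by exact_mod_cast h2
        have h7 : (e : ℤ) ≤ e * m := le_mul_of_one_le_right (by positivity) h6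
        exact_mod_cast h7
    calc ((e : ℤ) : WithTop ℤ) = (e : ℤ) + 0 := by rw [add_zero]
      _ ≤ _ := add_le_add h4 h3
  -- the equation
  have heq : (fun y => G.evalEval (xx w τ N t) (xx w τ N y)) =ᶠ[𝓝[≠] y₀]
      fun y => (R.evalEval (xx w τ N t) (xx w τ N y) ^ (K - 1)) *
        ((α.eval (xx w τ N t) ^ (2 * (L₁ - 1))) * (α.eval (xx w τ N y) ^ (2 * (L₂ - 1)))) *
        (FF w τ c₁ c₂ a b L₁ L₂ K p (t, y) * FF w τ c₁ c₂ a b L₁ L₂ K p (t, -y)) := by
    have h1 := gen_slice h hgo y₀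
    have h2 : ∀ᶠ y in 𝓝[≠] y₀, (t, -y) ∈ Gen w τ c₁ c₂ a b := by
      have h3 : Tendsto (fun y : ℂ => -y) (𝓝[≠] y₀) (𝓝[≠] (-y₀)) := by
        rw [tendsto_nhdsWithin_iff]
        constructor
        · exact (continuous_neg.tendsto y₀).mono_left nhdsWithin_le_nhds
        · filter_upwards [self_mem_nhdsWithin] with y hy hy'
          exact hy (neg_injective hy')
      exact h3.eventually (gen_slice h hgo (-y₀))
    filter_upwards [h1, h2] with y h3 h4
    have h5 := (g.eq (t, y) h3 h4).2.2.2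
    simp only at h5
    rw [h5]
    ring
  rw [meromorphicOrderAt_congr heq] at hΦ
  have hmR : MeromorphicAt (fun y => R.evalEval (xx w τ N t) (xx w τ N y)) y₀ :=
    (han R).meromorphicAt
  have hmα : MeromorphicAt (fun y => α.eval (xx w τ N y)) y₀ := (ZSg_an h α hy).meromorphicAt
  have hmc : MeromorphicAt (fun _ : ℂ => α.eval (xx w τ N t) ^ (2 * (L₁ - 1))) y₀ :=
    MeromorphicAt.const _ _
  rw [fun_meromorphicOrderAt_mul ((hmR.fun_pow _).fun_mul (hmc.fun_mul (hmα.fun_pow _)))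
    (hm1.fun_mul hm2), fun_meromorphicOrderAt_mul (hmR.fun_pow _) (hmc.fun_mul (hmα.fun_pow _)),
    fun_meromorphicOrderAt_mul hmc (hmα.fun_pow _), fun_meromorphicOrderAt_mul hm1 hm2,
    fun_meromorphicOrderAt_pow hmR, fun_meromorphicOrderAt_pow hmα] at hΦ
  have hc0 : meromorphicOrderAt (fun _ : ℂ => α.eval (xx w τ N t) ^ (2 * (L₁ - 1))) y₀ = 0 := by
    classical
    rw [meromorphicOrderAt_const, if_neg (pow_ne_zero _ hα)]
  rw [hc0, zero_add] at hΦ
  -- bounds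
  have hRo : meromorphicOrderAt (fun y => R.evalEval (xx w τ N t) (xx w τ N y)) y₀ ≤
      ((32 * N ^ 4 : ℕ) : ℤ) := by
    have h1 : (fun y => R.evalEval (xx w τ N t) (xx w τ N y)) =
        fun y => (R.map (evalRingHom (xx w τ N t))).eval (xx w τ N y) :=
      funext fun y => ZSg_ev R _ _
    rw [h1]
    refine (ZSg_order h hy _ _ hR rfl).trans ?_
    have h2 : (R.map (evalRingHom (xx w τ N t))).natDegree ≤ 16 * N ^ 4 :=
      natDegree_map_le.trans g.dYR
    have h3 : 2 * (R.map (evalRingHom (xx w τ N t))).natDegree ≤ 32 * N ^ 4 := by omega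
    exact_mod_cast h3
  have hpow : ∀ (n m : ℕ) (x : WithTop ℤ), x ≤ ((m : ℕ) : ℤ) →
      (n : WithTop ℤ) * x ≤ ((n * m : ℕ) : ℤ) := by
    intro n m x hx
    have hx' : x ≠ ⊤ := ne_top_of_le_ne_top (WithTop.coe_ne_top) hx
    lift x to ℤ using hx'
    rw [WithTop.coe_le_coe] at hx
    have h1 : (n : ℤ) * x ≤ n * m := mul_le_mul_of_nonneg_left hx (by positivity)
    exact_mod_cast h1
  have hR1 := hpow (K - 1) _ _ hRo
  have hα1 := hpow (2 * (L₂ - 1)) 2 _ (by
    have := g.αord y₀ hy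
    exact_mod_cast this)
  refine ZSg_arith ?_ hR1 hα1 hΦ
  have h1 : (K - 1) * (32 * N ^ 4) ≤ N * (32 * N ^ 4) := Nat.mul_le_mul_right _ (by omega)
  have h2 : N * (32 * N ^ 4) = 32 * N ^ 5 := by ring
  omega

theorem sign (h : ZD w τ c₁ c₂ N a b) {L₁ L₂ K : ℕ} (hK : 1 ≤ K) (hKN : K ≤ N)
    {p : ℕ → ℕ → ℕ → ℂ} {G R : ℂ[X][Y]} {α : ℂ[X]} (g : GD w τ c₁ c₂ N a b L₁ L₂ K p G R α)
    {q : ℂ[X][Y]} {U : Set ℂ} {ψ : ℂ → ℂ} (hA : Arc w τ N q U ψ) {e : ℕ} (hq : q ^ e ∣ G)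
    (he : 64 * N ^ 5 + 8 * L₂ ≤ e) :
    ∃ s : ℂ, (s = 1 ∨ s = -1) ∧ ∃ A ⊆ U, ¬ A.Countable ∧ ∀ t ∈ A,
      (((e / 4 : ℕ) : ℤ) : WithTop ℤ) ≤
        meromorphicOrderAt (fun y => FF w τ c₁ c₂ a b L₁ L₂ K p (t, y)) (s * ψ t) := by
  obtain ⟨B, hB, hBt⟩ := ZSg_bad h g.R0 g.α0
  have hU : ¬ U.Countable := by
    intro hc
    obtain ⟨x, hx1, hx2⟩ := (hc.dense_compl ℂ).inter_open_nonempty U hA.op hA.ne
    exact hx2 hx1
  by_contra hcon
  push Not at hcon
  have key : ∀ s : ℂ, (s = 1 ∨ s = -1) → {t ∈ U | (((e / 4 : ℕ) : ℤ) : WithTop ℤ) ≤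
      meromorphicOrderAt (fun y => FF w τ c₁ c₂ a b L₁ L₂ K p (t, y)) (s * ψ t)}.Countable := by
    intro s hs
    by_contra hnc
    obtain ⟨t, ht, hlt⟩ := hcon s hs _ (Set.sep_subset _ _) hnc
    exact absurd ht.2 (not_le.2 hlt)
  apply hU
  refine (hB.union ((key 1 (Or.inl rfl)).union (key (-1) (Or.inr rfl)))).mono ?_
  intro t ht
  by_cases htB : t ∈ B
  · exact Or.inl htB
  · right
    obtain ⟨h1, h2⟩ := hA.off t ht
    obtain ⟨h3, h4, h5⟩ := hBt t h1 htB
    rcases ZSg_point h hK hKN g hq he h2 (hA.zero t ht) h3 h4 h5 with h6 | h6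
    · left
      refine ⟨ht, ?_⟩
      rw [one_mul]
      exact h6
    · right
      refine ⟨ht, ?_⟩
      rw [neg_one_mul]
      exact h6

end Pool.Agent.LGO.F
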