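import Mathlib
import Pool.Agent.LGO.F.ZTr
import Pool.Agent.LGO.F.Bz

/-!
# LGO/F (note 3060, zero estimate (iv)): the arc is a straight line

PROOF of `exists_sqf` (`1 ≤ m`; false for `m = 0`).  `g** ` = the product of the different (up to units) irreducible factors `f` of `G` with `0 < dX f`, `0 < dY f` and
`f^m ∣ G` (`normalizedFactors`, `toFinset`, `filter`).  The product of the `f^m` divides `G` (pairwise relatively prime), so
`m dX(g**) ≤ dX G`, `m dY(g**) ≤ dY G`.  `sqf`: no irreducible `f` with `f ∣ g**` divides `pX g**` or `pY g**`: `g** = f H`, `¬ f ∣ H` (squarefree),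
`pY g** = pY f H + f pY H`, and `¬ f ∣ pY f` (degree).
`slope`: the polynomial `QF F s g = pX g² F(X) - s pY g² F(Y)`.  If `g(xx (t + q₁), xx (σ ψ t + q₂)) = 0` near `t₀` then the derivative
`pX g(P) xx'(t + q₁) + pY g(P) xx'(σ ψ t + q₂) σ ψ'(t) = 0`, squares: `pX g(P)² F(x₁) = ψ'(t)² pY g(P)² F(x₂)`, `F(xx) = xx'^2` (`xx_deriv`,
`hasDerivAt_eval`): `QF F (ψ'(t)²) g` vanishes at `P`.
`finite_slopes`: for an irreducible `f ∣ g**` there is at most one `s` with `f ∣ QF F s g**`: two of them give `f ∣ (s - s') pY g**² F(Y)`, but `f` does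
not divide `pY g**` and not `F(Y)` (`0 < dX f`, `F ≠ 0`).  So `¬ IsRelPrime g** (QF F s g**)` only for finitely many `s`.
PROOF of `line`.  `k = e / 4`, `m = (k + 1) / 2` (`2 m ≥ k`, `m ≥ e / 16`).  `sign` gives `σ = ±1`, `A`.  `gam_count`: `H` with `N³` classes.  For every
`q ∈ H` `translate` gives `f_q` with `f_q^m' ∣ G`, `k ≤ 2 m'`, so `f_q ∣ g**` (up to a unit).  For `t ∈ U` outside a countable set all
`OffN (t + q₁)`, `OffN (σ ψ t + q₂)`, `q ∈ H`, hold (`ψ` is not constant: `branch_not_const`, `A` closed discrete); the points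
`P_q = (xx (t + q₁), xx (σ ψ t + q₂))`: at least `N³ / 4` different ones (`card_image` for the translated set), `g**(P_q) = 0`, and
`QF F (ψ'(t)²) g**` vanishes at `P_q` (`slope`: the relation holds near `t`).  If `g**` and `QF F s g**` (`s = ψ'(t)²`) are relatively prime, `bezout` with
`m = n = 1` (`Van 1` means: the value is `0`): `N³ / 4 ≤ dX g** dY Q + dY g** dX Q ≤ 10 dX g** dY g**` (`dX Q ≤ 2 dX g** + 3 ≤ 5 dX g**`), and
`dX g** ≤ 16 dX G / e ≤ 320 N² L₁ / e` (`dX G ≤ 4 N² L₁ + 16 N⁵ ≤ 20 N² L₁` because `N⁵ ≤ L₁`), the same for `Y`: `e² ≤ 4096000 N L₁ L₂`.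
(`Q = 0` is impossible in this case: `IsRelPrime g** 0` means that `g**` is a unit.)  Otherwise for all `t ∈ U` outside a countable set `ψ'(t)²` is one of
finitely many numbers; `ψ'` is continuous on the connected `U`: if `ψ'²` were not constant its image would contain uncountably many values
(the image of `U` minus a countable set is dense in the image, which is connected, so infinite) - so `ψ'²` is constant, `ψ'` is constant (continuous,
values `±λ`), `ψ = λ t + μ` on `U` (preconnected open set, derivative of `ψ - λ t` is `0`), `λ ≠ 0` because `ψ` is not constant.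
-/

namespace Pool.Agent.LGO.F

open Polynomial Pool.Agent.EllSch Pool.Agent.LGO.Mul Filter Topology
open scoped Polynomial.Bivariate

variable {w τ c₁ c₂ : ℂ} {N : ℕ} {a b : ℤ}

private theorem ZLn_dX_dvd {P Q : ℂ[X][Y]} (h : P ∣ Q) (hQ : Q ≠ 0) : dX P ≤ dX Q := by
  obtain ⟨R, rfl⟩ := h
  rw [dX_mul (left_ne_zero_of_mul hQ) (right_ne_zero_of_mul hQ)]
  omega

private theorem ZLn_dY_dvd {P Q : ℂ[X][Y]} (h : P ∣ Q) (hQ : Q ≠ 0) : dY P ≤ dY Q := by
  obtain ⟨R, rfl⟩ := h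
  rw [dY_mul (left_ne_zero_of_mul hQ) (right_ne_zero_of_mul hQ)]
  omega

private theorem ZLn_dX_pow (P : ℂ[X][Y]) (m : ℕ) : dX (P ^ m) = m * dX P := by
  unfold dX
  rw [map_pow, natDegree_pow]

private theorem ZLn_dY_pow (P : ℂ[X][Y]) (m : ℕ) : dY (P ^ m) = m * dY P := by
  unfold dY
  rw [natDegree_pow]

private theorem ZLn_pX_mul (P Q : ℂ[X][Y]) : pX (P * Q) = pX P * Q + P * pX Q := by
  unfold pX
  rw [map_mul, derivative_mul, map_add, map_mul, map_mul, Bivariate.swap_swap_apply,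
    Bivariate.swap_swap_apply]

private theorem ZLn_pY_mul (P Q : ℂ[X][Y]) : pY (P * Q) = pY P * Q + P * pY Q := by
  unfold pY
  rw [derivative_mul]

private theorem ZLn_not_dvd_pY {P : ℂ[X][Y]} (h : 0 < dY P) : ¬ P ∣ pY P := by
  unfold dY at h
  refine not_dvd_of_natDegree_lt ?_ (natDegree_derivative_lt h.ne')
  intro h0
  exact h.ne' (derivative_eq_zero.1 h0)

private theorem ZLn_relPrime_pow {f g : ℂ[X][Y]} (h : IsRelPrime f g) (m : ℕ) :
    IsRelPrime (f ^ m) (g ^ m) := h.pow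

/-- the product of the different factors of multiplicity at least `m` -/
theorem exists_sqf {G : ℂ[X][Y]} (hG : G ≠ 0) {m : ℕ} (hm : 1 ≤ m) : ∃ S : ℂ[X][Y], S ≠ 0 ∧
    m * dX S ≤ dX G ∧ m * dY S ≤ dY G ∧
    (∀ f : ℂ[X][Y], Irreducible f → 0 < dX f → 0 < dY f → f ^ m ∣ G → f ∣ S) ∧
    ∀ f : ℂ[X][Y], Irreducible f → f ∣ S → 0 < dX f ∧ 0 < dY f ∧ ¬ f ∣ pX S ∧ ¬ f ∣ pY S := by
  classical
  let nf := UniqueFactorizationMonoid.normalizedFactors G
  let T : Finset (ℂ[X][Y]) := nf.toFinset.filter fun f => 0 < dX f ∧ 0 < dY f ∧ f ^ m ∣ G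
  have hT : ∀ f ∈ T, Irreducible f ∧ normalize f = f ∧ 0 < dX f ∧ 0 < dY f ∧ f ^ m ∣ G := by
    intro f hf
    rw [Finset.mem_filter, Multiset.mem_toFinset] at hf
    exact ⟨UniqueFactorizationMonoid.irreducible_of_normalized_factor _ hf.1,
      UniqueFactorizationMonoid.normalize_normalized_factor _ hf.1, hf.2.1, hf.2.2.1, hf.2.2.2⟩
  have heq : ∀ f ∈ T, ∀ g ∈ T, Associated f g → f = g := by
    intro f hf g hg hfg
    rw [← (hT f hf).2.1, ← (hT g hg).2.1]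
    exact normalize_eq_normalize hfg.dvd hfg.symm.dvd
  have hdvd : ∀ f ∈ T, ∀ g ∈ T, f ∣ g → f = g := by
    intro f hf g hg hfg
    exact heq f hf g hg ((hT f hf).1.associated_of_dvd (hT g hg).1 hfg)
  have hrel : ∀ f ∈ T, ∀ g ∈ T, f ≠ g → IsRelPrime f g := by
    intro f hf g hg hfg
    rw [(hT f hf).1.isRelPrime_iff_not_dvd]
    intro h
    exact hfg (hdvd f hf g hg h)
  set S : ℂ[X][Y] := ∏ f ∈ T, f with hS
  have hS0 : S ≠ 0 := Finset.prod_ne_zero_iff.2 fun f hf => (hT f hf).1.ne_zero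
  have hSm : S ^ m ∣ G := by
    rw [hS, ← Finset.prod_pow]
    refine Finset.prod_dvd_of_isRelPrime ?_ fun f hf => (hT f hf).2.2.2.2
    intro f hf g hg hfg
    exact ZLn_relPrime_pow (hrel f hf g hg hfg) m
  refine ⟨S, hS0, ?_, ?_, ?_, ?_⟩
  · rw [← ZLn_dX_pow]
    exact ZLn_dX_dvd hSm hG
  · rw [← ZLn_dY_pow]
    exact ZLn_dY_dvd hSm hG
  · intro f hf h1 h2 hfm
    have hfG : f ∣ G := (dvd_pow_self f (by omega)).trans hfm
    obtain ⟨g, hg, hfg⟩ := UniqueFactorizationMonoid.exists_mem_normalizedFactors_of_dvd hG hf hfG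
    have hg0 : g ≠ 0 := (UniqueFactorizationMonoid.irreducible_of_normalized_factor _ hg).ne_zero
    have hgT : g ∈ T := by
      rw [Finset.mem_filter, Multiset.mem_toFinset]
      refine ⟨hg, lt_of_lt_of_le h1 (ZLn_dX_dvd hfg.dvd hg0), lt_of_lt_of_le h2 (ZLn_dY_dvd hfg.dvd hg0), ?_⟩
      exact (pow_dvd_pow_of_dvd hfg.symm.dvd m).trans hfm
    exact hfg.dvd.trans (Finset.dvd_prod_of_mem _ hgT)
  · intro f hf hfS
    have hp : Prime f := hf.prime
    obtain ⟨g, hg, hfg⟩ := (hp.dvd_finsetProd_iff _).1 hfS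
    obtain ⟨hgi, -, hgX, hgY, -⟩ := hT g hg
    have hass : Associated f g := hf.associated_of_dvd hgi hfg
    have hgf : g ∣ f := hass.symm.dvd
    have hSg : S = g * ∏ f ∈ T.erase g, f := (Finset.mul_prod_erase T _ hg).symm
    have hnd : ¬ f ∣ ∏ f ∈ T.erase g, f := by
      intro h
      obtain ⟨g', hg', hfg'⟩ := (hp.dvd_finsetProd_iff _).1 h
      rw [Finset.mem_erase] at hg'
      exact hg'.1 (hdvd g hg g' hg'.2 (hgf.trans hfg')).symm
    refine ⟨lt_of_lt_of_le hgX (ZLn_dX_dvd hgf hf.ne_zero),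
      lt_of_lt_of_le hgY (ZLn_dY_dvd hgf hf.ne_zero), ?_, ?_⟩
    · intro h
      rw [hSg, ZLn_pX_mul] at h
      have h1 : f ∣ pX g * ∏ f ∈ T.erase g, f := (dvd_add_left (hfg.mul_right _)).1 h
      rcases hp.dvd_or_dvd h1 with h2 | h2
      · exact not_dvd_pX hgX (hgf.trans h2)
      · exact hnd h2
    · intro h
      rw [hSg, ZLn_pY_mul] at h
      have h1 : f ∣ pY g * ∏ f ∈ T.erase g, f := (dvd_add_left (hfg.mul_right _)).1 h
      rcases hp.dvd_or_dvd h1 with h2 | h2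
      · exact ZLn_not_dvd_pY hgY (hgf.trans h2)
      · exact hnd h2

/-- `pX S ^ 2 F(X) - s pY S ^ 2 F(Y)` -/
noncomputable def QF (F : ℂ[X]) (s : ℂ) (S : ℂ[X][Y]) : ℂ[X][Y] :=
  pX S ^ 2 * C F - C (C s) * pY S ^ 2 * F.map C

private lemma ZLn_dX_pY (P : ℂ[X][Y]) : dX (pY P) ≤ dX P := by
  apply dX_le_of_coeff
  intro k
  unfold pY
  rw [coeff_derivative]
  have h : ((k : ℂ[X]) + 1) = C ((k : ℂ) + 1) := by
    rw [C_add, C_1]
    rfl
  rw [h]
  exact (natDegree_mul_C_le _ _).trans (natDegree_coeff_le P (k + 1))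

private lemma ZLn_dX_pX (P : ℂ[X][Y]) : dX (pX P) ≤ dX P := by
  unfold dX pX
  rw [Bivariate.swap_swap_apply]
  exact (natDegree_derivative_le _).trans (Nat.sub_le _ _)

private lemma ZLn_coeff_pX (P : ℂ[X][Y]) (k : ℕ) :
    (pX P).coeff k = derivative (P.coeff k) := by
  ext j
  unfold pX
  rw [coeff_coeff_swap, coeff_derivative, coeff_derivative, ← coeff_coeff_swap]
  have h : ((j : ℂ[X]) + 1) = C ((j : ℂ) + 1) := by
    rw [C_add, C_1]
    rfl
  rw [h, coeff_mul_C]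

private lemma ZLn_dY_pX (P : ℂ[X][Y]) : dY (pX P) ≤ dY P := by
  unfold dY
  rw [natDegree_le_iff_coeff_eq_zero]
  intro k hk
  rw [ZLn_coeff_pX, coeff_eq_zero_of_natDegree_lt hk, derivative_zero]

private lemma ZLn_dY_pY (P : ℂ[X][Y]) : dY (pY P) ≤ dY P := by
  unfold dY pY
  exact (natDegree_derivative_le _).trans (Nat.sub_le _ _)

theorem QF_dX_le {F : ℂ[X]} (hF : F.natDegree ≤ 3) (s : ℂ) (S : ℂ[X][Y]) :
    dX (QF F s S) ≤ 2 * dX S + 3 ∧ dY (QF F s S) ≤ 2 * dY S + 3 := by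
  constructor
  · have h1 := ZLn_dX_pX S
    have h2' := ZLn_dX_pY S
    unfold dX at h1 h2' ⊢
    unfold QF
    simp only [map_sub, map_mul, map_pow]
    refine (natDegree_sub_le _ _).trans (max_le ?_ ?_)
    · rw [Bivariate.swap_C]
      refine natDegree_mul_le.trans (add_le_add (natDegree_pow_le.trans ?_) ?_)
      · exact Nat.mul_le_mul_left _ h1
      · exact natDegree_map_le.trans hF
    · rw [Bivariate.swap_map_C]
      refine natDegree_mul_le.trans ?_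
      rw [natDegree_C, add_zero]
      refine natDegree_mul_le.trans ?_
      have h5 : (Bivariate.swap (C (C s) : ℂ[X][Y])).natDegree = 0 := by
        rw [Bivariate.swap_C_C, natDegree_C]
      rw [h5, zero_add]
      refine natDegree_pow_le.trans ?_
      have := Nat.mul_le_mul_left 2 h2'
      omega
  · have h1 := ZLn_dY_pX S
    have h2' := ZLn_dY_pY S
    unfold dY at h1 h2' ⊢
    unfold QF
    refine (natDegree_sub_le _ _).trans (max_le ?_ ?_)
    · refine natDegree_mul_le.trans ?_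
      rw [natDegree_C, add_zero]
      refine natDegree_pow_le.trans ?_
      have := Nat.mul_le_mul_left 2 h1
      omega
    · refine natDegree_mul_le.trans (add_le_add ?_ (natDegree_map_le.trans hF))
      refine natDegree_mul_le.trans ?_
      rw [natDegree_C, zero_add]
      exact natDegree_pow_le.trans (Nat.mul_le_mul_left _ h2')

theorem finite_slopes {F : ℂ[X]} (hF : F ≠ 0) {S : ℂ[X][Y]} (hS : S ≠ 0)
    (h : ∀ f : ℂ[X][Y], Irreducible f → f ∣ S → 0 < dX f ∧ 0 < dY f ∧ ¬ f ∣ pX S ∧ ¬ f ∣ pY S) :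
    {s : ℂ | ¬ IsRelPrime S (QF F s S)}.Finite := by
  classical
  have hsub : {s : ℂ | ¬ IsRelPrime S (QF F s S)} ⊆
      ⋃ f ∈ (UniqueFactorizationMonoid.normalizedFactors S).toFinset, {s : ℂ | f ∣ QF F s S} := by
    intro s hs
    rw [Set.mem_ofPred_eq] at hs
    by_contra hcon
    apply hs
    apply WfDvdMonoid.isRelPrime_of_no_irreducible_factors (fun h0 => hS h0.1)
    intro f hf hfS hfQ
    apply hcon
    obtain ⟨g, hg, hfg⟩ := UniqueFactorizationMonoid.exists_mem_normalizedFactors_of_dvd hS hf hfS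
    rw [Set.mem_iUnion₂]
    exact ⟨g, Multiset.mem_toFinset.2 hg, hfg.symm.dvd.trans hfQ⟩
  refine Set.Finite.subset ?_ hsub
  refine Set.Finite.biUnion (Finset.finite_toSet _) ?_
  intro f hf
  rw [Finset.mem_coe, Multiset.mem_toFinset] at hf
  have hfi := UniqueFactorizationMonoid.irreducible_of_normalized_factor _ hf
  have hfS := UniqueFactorizationMonoid.dvd_of_mem_normalizedFactors hf
  obtain ⟨h1, h2, h3, h4⟩ := h f hfi hfS
  apply Set.Subsingleton.finite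
  intro s hs s' hs'
  rw [Set.mem_ofPred_eq] at hs hs'
  by_contra hne
  have hd : f ∣ C (C (s' - s)) * pY S ^ 2 * F.map C := by
    have e : C (C (s' - s)) * pY S ^ 2 * F.map C = QF F s S - QF F s' S := by
      unfold QF
      rw [C_sub, C_sub]
      ring
    rw [e]
    exact dvd_sub hs hs'
  have hp := hfi.prime
  rcases hp.dvd_or_dvd hd with h5 | h5
  · rcases hp.dvd_or_dvd h5 with h6 | h6
    · exact not_dvd_C h2 (C_ne_zero.2 (sub_ne_zero.2 (Ne.symm hne))) h6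
    · exact h4 (hp.dvd_of_dvd_pow h6)
  · exact not_dvd_map h1 hF h5

theorem slope (h : ZD w τ c₁ c₂ N a b) (S : ℂ[X][Y]) {f₁ f₂ : ℂ → ℂ} {t d₁ d₂ : ℂ}
    (h₁ : HasDerivAt f₁ d₁ t) (h₂ : HasDerivAt f₂ d₂ t) (o₁ : OffN w τ N (f₁ t))
    (o₂ : OffN w τ N (f₂ t)) (hd : d₁ ^ 2 = 1)
    (hz : ∀ᶠ r in 𝓝 t, S.evalEval (xx w τ N (f₁ r)) (xx w τ N (f₂ r)) = 0) :
    (QF (4 * X ^ 3 - C (G2 (N * w) (N * (w * τ))) * X - C (G3 (N * w) (N * (w * τ)))) (d₂ ^ 2)
      S).evalEval (xx w τ N (f₁ t)) (xx w τ N (f₂ t)) = 0 := by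
  obtain ⟨e1, e2⟩ := xx_deriv h o₁
  obtain ⟨e3, e4⟩ := xx_deriv h o₂
  have k1 := e1.hasDerivAt.comp t h₁
  have k2 := e3.hasDerivAt.comp t h₂
  have k3 := hasDerivAt_eval S k1 k2
  have k4 : HasDerivAt (fun r => S.evalEval ((xx w τ N ∘ f₁) r) ((xx w τ N ∘ f₂) r)) 0 t :=
    (hasDerivAt_const t (0 : ℂ)).congr_of_eventuallyEq hz
  have k5 := k3.unique k4
  simp only [Function.comp_apply] at k5
  unfold QF
  rw [evalEval_sub, evalEval_mul, evalEval_pow, evalEval_C, evalEval_mul, evalEval_mul,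
    evalEval_pow, evalEval_map_C, evalEval_C, eval_C]
  simp only [eval_sub, eval_mul, eval_pow, eval_X, eval_C, eval_ofNat]
  rw [← e2, ← e4]
  set u := wq (N * w) (N * (w * τ)) (f₁ t)
  set v := wq (N * w) (N * (w * τ)) (f₂ t)
  set A := (pX S).evalEval (xx w τ N (f₁ t)) (xx w τ N (f₂ t))
  set B := (pY S).evalEval (xx w τ N (f₁ t)) (xx w τ N (f₂ t))
  linear_combination (A * u * d₁ - B * v * d₂) * k5 - A ^ 2 * u ^ 2 * hd

/-- the conditions on `t` -/
private def ZLnGood (w τ : ℂ) (N : ℕ) (σ : ℂ) (ψ : ℂ → ℂ) (H : Finset (ℂ × ℂ)) (t : ℂ) : Prop :=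
  ∀ g ∈ H, OffN w τ N (t + g.1) ∧ OffN w τ N (σ * ψ t + g.2)

private theorem ZLn_good_ev (h : ZD w τ c₁ c₂ N a b) {q : ℂ[X][Y]} {U : Set ℂ} {ψ : ℂ → ℂ}
    (hA : Arc w τ N q U ψ) (hnc : ∀ c, ∃ t ∈ U, ψ t ≠ c) {σ : ℂ} (hσ : σ ≠ 0)
    (H : Finset (ℂ × ℂ)) {t₀ : ℂ} (ht₀ : t₀ ∈ U) : ∀ᶠ t in 𝓝[≠] t₀, ZLnGood w τ N σ ψ H t := by
  have han : AnalyticOnNhd ℂ ψ U := hA.dif.analyticOnNhd hA.op
  have hne : ∀ᶠ t in 𝓝[≠] t₀, ψ t ≠ ψ t₀ := by
    rcases (han t₀ ht₀).eventually_eq_or_eventually_ne (analyticAt_const (v := ψ t₀)) with h1 | h1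
    · exfalso
      obtain ⟨t, ht, htne⟩ := hnc (ψ t₀)
      exact htne (han.eqOn_of_preconnected_of_eventuallyEq (fun _ _ => analyticAt_const) hA.pre ht₀ h1 ht)
    · exact h1
  have hcont : Tendsto ψ (𝓝[≠] t₀) (𝓝 (ψ t₀)) :=
    ((han t₀ ht₀).continuousAt.tendsto).mono_left nhdsWithin_le_nhds
  have hev : ∀ g ∈ H, ∀ᶠ t in 𝓝[≠] t₀, OffN w τ N (t + g.1) ∧ OffN w τ N (σ * ψ t + g.2) := by
    intro g _
    have t1 : Tendsto (fun t : ℂ => t + g.1) (𝓝[≠] t₀) (𝓝[≠] (t₀ + g.1)) := by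
      rw [tendsto_nhdsWithin_iff]
      constructor
      · exact ((continuous_id.add continuous_const).tendsto t₀).mono_left nhdsWithin_le_nhds
      · filter_upwards [self_mem_nhdsWithin] with u hu he
        exact hu (add_right_cancel he)
    have t2 : Tendsto (fun t : ℂ => σ * ψ t + g.2) (𝓝[≠] t₀) (𝓝[≠] (σ * ψ t₀ + g.2)) := by
      rw [tendsto_nhdsWithin_iff]
      constructor
      · exact (hcont.const_mul σ).add_const _
      · filter_upwards [hne] with u hu he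
        exact hu (mul_left_cancel₀ hσ (add_right_cancel he))
    exact (t1.eventually (Basic.eventually_off h.indN _)).and
      (t2.eventually (Basic.eventually_off h.indN _))
  exact (Filter.eventually_all_finset H).2 hev

private theorem ZLn_off_open (h : ZD w τ c₁ c₂ N a b) {f : ℂ → ℂ} {t : ℂ} (hf : ContinuousAt f t)
    (ht : OffN w τ N (f t)) : ∀ᶠ r in 𝓝 t, OffN w τ N (f r) :=
  hf.eventually ((isOpen_off h.indN).mem_nhds ht)

theorem line (h : ZD w τ c₁ c₂ N a b) {L₁ L₂ K : ℕ} (hK : 1 ≤ K) (hKN : K ≤ N)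
    (hL₁ : N ^ 5 ≤ L₁) (hL₂ : N ^ 5 ≤ L₂) {p : ℕ → ℕ → ℕ → ℂ} {G R : ℂ[X][Y]} {α : ℂ[X]}
    (g : GD w τ c₁ c₂ N a b L₁ L₂ K p G R α) (hG : G ≠ 0) {q : ℂ[X][Y]} (hq : Irreducible q)
    (h1 : 0 < dX q) (h2 : 0 < dY q) {U : Set ℂ} {ψ : ℂ → ℂ} (hA : Arc w τ N q U ψ) {e : ℕ}
    (hqe : q ^ e ∣ G) (he : 64 * N ^ 5 + 8 * L₂ ≤ e) :
    e ^ 2 ≤ 10 ^ 7 * N * L₁ * L₂ ∨ ∃ l μ : ℂ, l ≠ 0 ∧ ∀ t ∈ U, ψ t = l * t + μ := by
  classical
  have hN1 := h.N1
  have hnc : ∀ c, ∃ t ∈ U, ψ t ≠ c := branch_not_const h hq h1 hA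
  have hN5 : 1 ≤ N ^ 5 := Nat.one_le_pow _ _ hN1
  set k : ℕ := e / 4 with hk
  set m : ℕ := (k + 1) / 2 with hm
  have hm1 : 1 ≤ m := by omega
  have hm3 : 3 ≤ m := by omega
  have hem : e ≤ 9 * m := by omega
  obtain ⟨σ, hσ, A, hAU, hAc, hAo⟩ := sign h hK hKN g hA hqe he
  have hσ0 : σ ≠ 0 := by rcases hσ with rfl | rfl <;> norm_num
  have hσ2 : σ ^ 2 = 1 := by rcases hσ with rfl | rfl <;> norm_num
  obtain ⟨S, hS0, hSX, hSY, hSf, hSs⟩ := exists_sqf hG hm1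
  obtain ⟨H, hHc, hHg, hHi⟩ := gam_count h
  -- `S` vanishes at all the translates
  have hSz : ∀ v ∈ H, ∀ t ∈ U, OffN w τ N (t + v.1) → OffN w τ N (σ * ψ t + v.2) →
      S.evalEval (xx w τ N (t + v.1)) (xx w τ N (σ * ψ t + v.2)) = 0 := by
    intro v hv t ht o1 o2
    obtain ⟨f, m', hf, hkm, hfm, hfX, hfY, hfz⟩ := translate h g hG hA.op hA.pre hA.dif hnc hσ hAU hAc
      (k := k) (by omega) hAo (hHg v hv)
    have hfS : f ∣ S := hSf f hf hfX hfY ((pow_dvd_pow f (by omega)).trans hfm)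
    obtain ⟨T, hT⟩ := hfS
    rw [hT, evalEval_mul, hfz t ht o1 o2, zero_mul]
  have han : AnalyticOnNhd ℂ ψ U := hA.dif.analyticOnNhd hA.op
  set F : ℂ[X] := 4 * X ^ 3 - C (G2 (N * w) (N * (w * τ))) * X - C (G3 (N * w) (N * (w * τ))) with hF
  have hF3 : F.natDegree ≤ 3 := by
    rw [hF]
    compute_degree
  have hF0 : F ≠ 0 := by
    intro h0
    have := congrArg (fun P : ℂ[X] => P.coeff 3) h0
    simp only [hF, coeff_sub, coeff_zero] at this
    rw [coeff_C_mul, coeff_X, coeff_C] at this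
    norm_num at this
  have hQz : ∀ v ∈ H, ∀ t ∈ U, OffN w τ N (t + v.1) → OffN w τ N (σ * ψ t + v.2) →
      (QF F (deriv ψ t ^ 2) S).evalEval (xx w τ N (t + v.1)) (xx w τ N (σ * ψ t + v.2)) = 0 := by
    intro v hv t ht o1 o2
    have hd : HasDerivAt ψ (deriv ψ t) t := (han t ht).differentiableAt.hasDerivAt
    have d1 : HasDerivAt (fun r : ℂ => r + v.1) 1 t := (hasDerivAt_id t).add_const _
    have d2 : HasDerivAt (fun r : ℂ => σ * ψ r + v.2) (σ * deriv ψ t) t :=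
      (hd.const_mul σ).add_const _
    have hz : ∀ᶠ r in 𝓝 t, S.evalEval (xx w τ N (r + v.1)) (xx w τ N (σ * ψ r + v.2)) = 0 := by
      filter_upwards [hA.op.mem_nhds ht, ZLn_off_open h d1.continuousAt o1,
        ZLn_off_open h d2.continuousAt o2] with r r1 r2 r3
      exact hSz v hv r r1 r2 r3
    have := slope h S d1 d2 o1 o2 (by norm_num) hz
    rwa [mul_pow, hσ2, one_mul] at this
  by_cases hcase : ∃ t ∈ U, ZLnGood w τ N σ ψ H t ∧ IsRelPrime S (QF F (deriv ψ t ^ 2) S)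
  · -- Bezout
    left
    obtain ⟨t, ht, hgood, hrel⟩ := hcase
    set Q := QF F (deriv ψ t ^ 2) S with hQ
    have hH0 : H.Nonempty := by
      rw [← Finset.card_pos, hHc]
      exact pow_pos hN1 3
    obtain ⟨v₀, hv₀⟩ := hH0
    have hSnu : ¬ IsUnit S := by
      intro hu
      obtain ⟨T, hT⟩ := hu.exists_right_inv
      have e1 := hSz v₀ hv₀ t ht (hgood v₀ hv₀).1 (hgood v₀ hv₀).2
      have e2 := congrArg (fun P : ℂ[X][Y] => P.evalEval (xx w τ N (t + v₀.1)) (xx w τ N (σ * ψ t + v₀.2))) hT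
      simp only [evalEval_mul, e1, zero_mul] at e2
      rw [show (1 : ℂ[X][Y]) = C 1 from rfl, evalEval_C, eval_one] at e2
      exact zero_ne_one e2
    have hQ0 : Q ≠ 0 := by
      intro h0
      rw [h0, isRelPrime_zero_right] at hrel
      exact hSnu hrel
    -- the points
    set H' : Finset (ℂ × ℂ) := H.image fun v => (t + v.1, σ * ψ t + v.2) with hH'
    have hinj : Set.InjOn (fun v : ℂ × ℂ => (t + v.1, σ * ψ t + v.2)) H := by
      intro v _ v' _ hvv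
      simp only [Prod.mk.injEq, add_right_inj] at hvv
      exact Prod.ext hvv.1 hvv.2
    have hH'c : H'.card = N ^ 3 := by
      rw [hH', Finset.card_image_of_injOn hinj, hHc]
    have hci := card_image h H' (by
      intro v hv
      rw [hH', Finset.mem_image] at hv
      obtain ⟨v', hv', rfl⟩ := hv
      exact hgood v' hv') (by
      intro v hv v' hv' hE
      rw [hH', Finset.mem_image] at hv hv'
      obtain ⟨u, hu, rfl⟩ := hv
      obtain ⟨u', hu', rfl⟩ := hv'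
      have : u = u' := by
        refine hHi u hu u' hu' ⟨?_, ?_⟩
        · obtain ⟨x, hx⟩ := hE.1
          exact ⟨x, by rw [← hx]; ring⟩
        · obtain ⟨x, hx⟩ := hE.2
          exact ⟨x, by rw [← hx]; ring⟩
      rw [this])
    set Z : Finset (ℂ × ℂ) := H'.image fun v => (xx w τ N v.1, xx w τ N v.2) with hZ
    rw [hH'c] at hci
    have hZp : ∀ z ∈ Z, S.evalEval z.1 z.2 = 0 ∧ Q.evalEval z.1 z.2 = 0 := by
      intro z hz
      rw [hZ, Finset.mem_image] at hz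
      obtain ⟨v, hv, rfl⟩ := hz
      rw [hH', Finset.mem_image] at hv
      obtain ⟨u, hu, rfl⟩ := hv
      exact ⟨hSz u hu t ht (hgood u hu).1 (hgood u hu).2, hQz u hu t ht (hgood u hu).1 (hgood u hu).2⟩
    have hvan : ∀ P : ℂ[X][Y], ∀ z : ℂ × ℂ, P.evalEval z.1 z.2 = 0 → Van 1 z.1 z.2 P := by
      intro P z hz i j hij
      have hi : i = 0 := by omega
      have hj : j = 0 := by omega
      subst hi hj
      rw [cf_zero_zero, hz]
    have hbz := bezout hS0 hQ0 hrel 1 1 Z (fun z hz => hvan S z (hZp z hz).1)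
      (fun z hz => hvan Q z (hZp z hz).2)
    obtain ⟨hQX, hQY⟩ := QF_dX_le hF3 (deriv ψ t ^ 2) S
    rw [← hQ] at hQX hQY
    obtain ⟨f, hf, hfS⟩ := WfDvdMonoid.exists_irreducible_factor hSnu hS0
    obtain ⟨f1, f2, -, -⟩ := hSs f hf hfS
    have hX1 : 1 ≤ dX S := f1.trans_le (ZLn_dX_dvd hfS hS0)
    have hY1 : 1 ≤ dY S := f2.trans_le (ZLn_dY_dvd hfS hS0)
    have hN3 : N ^ 3 ≤ 40 * (dX S * dY S) := by
      have b1 : dX S * dY Q ≤ dX S * (5 * dY S) := Nat.mul_le_mul_left _ (by omega)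
      have b2 : dY S * dX Q ≤ dY S * (5 * dX S) := Nat.mul_le_mul_left _ (by omega)
      have b3 : dX S * (5 * dY S) = 5 * (dX S * dY S) := by ring
      have b4 : dY S * (5 * dX S) = 5 * (dX S * dY S) := by ring
      rw [mul_one, mul_one] at hbz
      omega
    have hN2 : 1 ≤ N ^ 2 := Nat.one_le_pow _ _ hN1
    have gX : m * dX S ≤ 20 * N ^ 2 * L₁ := by
      have c1 : 16 * N ^ 5 ≤ 16 * N ^ 2 * L₁ := by
        calc 16 * N ^ 5 ≤ 16 * L₁ := Nat.mul_le_mul_left _ hL₁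
          _ = 16 * 1 * L₁ := by ring
          _ ≤ 16 * N ^ 2 * L₁ := by gcongr
      calc m * dX S ≤ dX G := hSX
        _ ≤ 4 * N ^ 2 * L₁ + 16 * N ^ 5 := g.dXG
        _ ≤ 4 * N ^ 2 * L₁ + 16 * N ^ 2 * L₁ := by omega
        _ = 20 * N ^ 2 * L₁ := by ring
    have gY : m * dY S ≤ 20 * N ^ 2 * L₂ := by
      have c1 : 16 * N ^ 5 ≤ 16 * N ^ 2 * L₂ := by
        calc 16 * N ^ 5 ≤ 16 * L₂ := Nat.mul_le_mul_left _ hL₂
          _ = 16 * 1 * L₂ := by ring
          _ ≤ 16 * N ^ 2 * L₂ := by gcongr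
      calc m * dY S ≤ dY G := hSY
        _ ≤ 4 * N ^ 2 * L₂ + 16 * N ^ 5 := g.dYG
        _ ≤ 4 * N ^ 2 * L₂ + 16 * N ^ 2 * L₂ := by omega
        _ = 20 * N ^ 2 * L₂ := by ring
    have key : m ^ 2 * N ^ 3 ≤ (16000 * N * L₁ * L₂) * N ^ 3 := by
      calc m ^ 2 * N ^ 3 ≤ m ^ 2 * (40 * (dX S * dY S)) := Nat.mul_le_mul_left _ hN3
        _ = 40 * ((m * dX S) * (m * dY S)) := by ring
        _ ≤ 40 * ((20 * N ^ 2 * L₁) * (20 * N ^ 2 * L₂)) := by gcongr
        _ = (16000 * N * L₁ * L₂) * N ^ 3 := by ring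
    have key2 : m ^ 2 ≤ 16000 * N * L₁ * L₂ := Nat.le_of_mul_le_mul_right key (pow_pos hN1 3)
    calc e ^ 2 ≤ (9 * m) ^ 2 := Nat.pow_le_pow_left hem 2
      _ = 81 * m ^ 2 := by ring
      _ ≤ 81 * (16000 * N * L₁ * L₂) := Nat.mul_le_mul_left _ key2
      _ = 1296000 * (N * L₁ * L₂) := by ring
      _ ≤ 10 ^ 7 * (N * L₁ * L₂) := Nat.mul_le_mul_right _ (by norm_num)
      _ = 10 ^ 7 * N * L₁ * L₂ := by ring
  · -- a straight line
    right
    push Not at hcase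
    have hfin := finite_slopes hF0 hS0 hSs
    set D₀ : Set ℂ := {z : ℂ | ¬ IsRelPrime S (QF F (z ^ 2) S)} with hD
    have hDf : D₀.Finite := by
      have : D₀ = (fun z : ℂ => z ^ 2) ⁻¹' {s : ℂ | ¬ IsRelPrime S (QF F s S)} := rfl
      rw [this]
      refine Set.Finite.preimage' hfin ?_
      intro s _
      have : ((fun z : ℂ => z ^ 2) ⁻¹' {s}) ⊆ {z : ℂ | (X ^ 2 - C s : ℂ[X]).IsRoot z} := by
        intro z hz
        rw [Set.mem_preimage, Set.mem_singleton_iff] at hz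
        rw [Set.mem_ofPred_eq, IsRoot.def, eval_sub, eval_pow, eval_X, eval_C, hz, sub_self]
      refine Set.Finite.subset ?_ this
      exact Polynomial.finite_setOfPred_isRoot (X_pow_sub_C_ne_zero (by norm_num) s)
    have hdcont : ContinuousOn (deriv ψ) U := han.deriv.continuousOn
    have hmem : ∀ t ∈ U, deriv ψ t ∈ D₀ := by
      intro t₀ ht₀
      have hev := ZLn_good_ev h hA hnc hσ0 H ht₀
      have hU : ∀ᶠ t in 𝓝[≠] t₀, t ∈ U := nhdsWithin_le_nhds (hA.op.mem_nhds ht₀)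
      have hc : Tendsto (deriv ψ) (𝓝[≠] t₀) (𝓝 (deriv ψ t₀)) :=
        (hdcont.continuousAt (hA.op.mem_nhds ht₀)).tendsto.mono_left nhdsWithin_le_nhds
      refine hDf.isClosed.mem_of_tendsto hc ?_
      filter_upwards [hev, hU] with t g1 g2
      exact hcase t g2 g1
    obtain ⟨t₀, ht₀⟩ := hA.ne
    have hconst : ∀ t ∈ U, deriv ψ t = deriv ψ t₀ := by
      intro t ht
      have hpre : IsPreconnected (deriv ψ '' U) := hA.pre.image _ hdcont
      have hsub : deriv ψ '' U ⊆ D₀ := by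
        rintro _ ⟨u, hu, rfl⟩
        exact hmem u hu
      have hss : (deriv ψ '' U).Subsingleton :=
        (hDf.subset hsub).countable.isTotallyDisconnected _ (le_refl _) hpre
      exact hss ⟨t, ht, rfl⟩ ⟨t₀, ht₀, rfl⟩
    set l : ℂ := deriv ψ t₀ with hl
    have hlin : ∀ t ∈ U, ψ t - l * t = ψ t₀ - l * t₀ := by
      intro t ht
      have hdd : DifferentiableOn ℂ (fun t => ψ t - l * t) U :=
        hA.dif.sub (differentiableOn_id.const_mul l)
      refine hA.op.is_const_of_deriv_eq_zero hA.pre hdd ?_ ht ht₀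
      intro u hu
      have k1 : HasDerivAt ψ (deriv ψ u) u := (han u hu).differentiableAt.hasDerivAt
      have k2 : HasDerivAt (fun t => ψ t - l * t) (deriv ψ u - l * 1) u :=
        k1.sub ((hasDerivAt_id u).const_mul l)
      rw [k2.deriv, hconst u hu, mul_one, sub_self]
      rfl
    refine ⟨l, ψ t₀ - l * t₀, ?_, fun t ht => by linear_combination hlin t ht⟩
    intro hl0
    obtain ⟨t, ht, hne⟩ := hnc (ψ t₀)
    apply hne
    have := hlin t ht
    rw [hl0] at this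
    linear_combination this

end Pool.Agent.LGO.F
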