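import Mathlib
import Pool.Agent.LGO.F.ZG
import Pool.Agent.LGO.F.ZNum

/-!
# LGO/F (note 3060, zero estimate (i)): `FF` and `G` are not identically zero

PROOF of `FF_ne`.  Suppose `FF = 0` on `O ∩ Gen`, `O` open, `O ∩ Gen ≠ ∅`.  The entire numerator `NN` (`exists_en`, `NN_eq`) vanishes on
the nonempty open set `O ∩ Gen`, so `NN = 0` everywhere (identity theorem on `ℂ × ℂ`: `NN` is analytic on the connected space `ℂ × ℂ`,
`AnalyticOnNhd.eq_of_eventuallyEq`), so `FF = 0` on `Gen` (on `Gen` the factors `e` are not `0`: `EN.e_eq_zero`).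
Let `z = (z₁, z₂) ∈ Gen` and `h ∈ Λ²`: `FF(z + h) = ∑_k C_k(z) y(a z₁ + b z₂ + a h₁ + b h₂)^k`, `C_k(z) = ∑_ij p_ijk u(z₁)^i u(z₂)^j`.
The numbers `a h₁ + b h₂` represent all `N` classes of `Λ / Λ_v` (`gcd(a, b, N) = 1`: `r a + s b + t N = 1` with integers, so
`κ = a (r κ) + b (s κ) + N (t κ)`, `N Λ ⊆ Λ_v`; and `Λ / Λ_v` is cyclic of order `N`: the `N` classes are `m κ₀`, `m = 0..N-1`, where
`κ₀ = r' w + s' (w τ)` with `a s' - b r'` prime to `N`; or take the representatives from `gam`-type counting; see `exists_cosets` below).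
For `ζ = a z₁ + b z₂` outside a countable set of values the numbers `℘_v(ζ + η_m)`, `m < N`, are defined, not `0`, and pairwise different
(`℘_v(x) = ℘_v(y)` iff `x ± y ∈ Λ_v`; `2 ζ + η + η'` is not in `Λ_v`), so the polynomial `∑_k C_k Y^k` of degree `< K ≤ N` has `N` zeros:
all `C_k(z) = 0`.  So for all `z₁` outside a countable set and then all `z₂` outside a countable set (depending on `z₁`) all `C_k(z) = 0`;
`u(z₂)` takes infinitely many values (`exists_iu_eq`: uncountably many), so `∑_i p_ijk u(z₁)^i = 0` for all `j`, the same for `z₁`: `p_ijk = 0` for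
`i < L₁`, `j < L₂`, `k < K`.
`G_ne`: by `FF_ne` a point of `Gen ∩ {(z₁, - z₂) ∈ Gen}` (open and dense, `gen_open`, `gen_dense`) with `FF(z) ≠ 0`, in a neighbourhood
`FF ≠ 0` (`an_FF`, continuity); apply `FF_ne` to the open set of the `(z₁, - z₂)`: a point with both factors `≠ 0`; `GD.eq`.
-/

namespace Pool.Agent.LGO.F

open Polynomial Pool.Agent.EllSch Pool.Agent.LGO.Mul Filter Topology Asymptotics
open scoped Polynomial.Bivariate

variable {w τ c₁ c₂ : ℂ} {N : ℕ} {a b : ℤ}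

private theorem ZNe_ind (h : ZD w τ c₁ c₂ N a b) {m n : ℤ}
    (e : (m : ℂ) * w + (n : ℂ) * (w * τ) = 0) : m = 0 ∧ n = 0 := by
  have h1 : (m : ℂ) + n * τ = 0 := by
    have h2 : w * ((m : ℂ) + n * τ) = 0 := by linear_combination e
    exact (mul_eq_zero.1 h2).resolve_left h.w0
  have h2 := congrArg Complex.im h1
  rw [Complex.add_im, Complex.intCast_im, zero_add, ← Complex.ofReal_intCast, Complex.im_ofReal_mul,
    Complex.zero_im] at h2
  have h3 : (n : ℝ) = 0 := (mul_eq_zero.1 h2).resolve_right h.im.ne'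
  have h4 : n = 0 := by exact_mod_cast h3
  rw [h4] at h1
  refine ⟨?_, h4⟩
  have h5 : (m : ℂ) = 0 := by
    rw [Int.cast_zero, zero_mul, add_zero] at h1
    exact h1
  exact_mod_cast h5

/-- the `N` classes of `Λ / Λ_v` are represented by numbers `a h₁ + b h₂` -/
theorem exists_cosets (h : ZD w τ c₁ c₂ N a b) : ∃ g : ℕ → ℂ × ℂ,
    (∀ m, (∃ x, (g m).1 = lat w (w * τ) x) ∧ ∃ x, (g m).2 = lat w (w * τ) x) ∧
    ∀ m < N, ∀ m' < N, m ≠ m' →
      ∀ x, (a * (g m).1 + b * (g m).2) - (a * (g m').1 + b * (g m').2) ≠ lat c₁ c₂ x := by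
  obtain ⟨r, s, G, hG, hcop⟩ : ∃ r s G : ℤ, G = a * r + b * s ∧ IsCoprime (N : ℤ) G := by
    refine ⟨Int.gcdA a b, Int.gcdB a b, Int.gcd a b, Int.gcd_eq_gcd_ab a b, ?_⟩
    rw [Int.isCoprime_iff_gcd_eq_one]
    have h1 : ((Int.gcd (N : ℤ) (Int.gcd a b : ℤ) : ℕ) : ℤ) ∣ (Int.gcd a b : ℤ) := Int.gcd_dvd_right _ _
    have h2 := h.cop _ (h1.trans (Int.gcd_dvd_left _ _)) (h1.trans (Int.gcd_dvd_right _ _))
      (Int.gcd_dvd_left _ _)
    exact Int.ofNat_isUnit.1 h2 |> Nat.isUnit_iff.1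
  refine ⟨fun m => ((m : ℂ) * (r * (-s * w + r * (w * τ))), (m : ℂ) * (s * (-s * w + r * (w * τ)))),
    fun m => ⟨⟨(m * (r * -s), m * (r * r)), ?_⟩, ⟨(m * (s * -s), m * (s * r)), ?_⟩⟩, ?_⟩
  · simp only [lat]
    push_cast
    ring
  · simp only [lat]
    push_cast
    ring
  · intro m hm m' hm' hne x hx
    simp only at hx
    obtain ⟨k, y, hk⟩ := (h.mem _).1 ⟨x, hx⟩
    have e1 : ((((m : ℤ) - m') * G * -s - k * a - N * y.1 : ℤ) : ℂ) * w +
        ((((m : ℤ) - m') * G * r - k * b - N * y.2 : ℤ) : ℂ) * (w * τ) = 0 := by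
      rw [hG]
      simp only [lat] at hk
      push_cast
      linear_combination hk
    obtain ⟨e2, e3⟩ := ZNe_ind h e1
    have e4 : ((m : ℤ) - m') * G ^ 2 = N * (a * y.2 - b * y.1) := by
      have e5 : ((m : ℤ) - m') * G ^ 2 = a * (((m : ℤ) - m') * G * r) - b * (((m : ℤ) - m') * G * -s) := by
        rw [hG]
        ring
      rw [e5]
      linear_combination a * e3 - b * e2
    have e5 : (N : ℤ) ∣ (m : ℤ) - m' := (hcop.pow_right (n := 2)).dvd_of_dvd_mul_right ⟨_, e4⟩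
    have e6 : (m : ℤ) - m' = 0 := by
      refine Int.eq_zero_of_abs_lt_dvd e5 ?_
      rw [abs_lt]
      omega
    omega

/-- a polynomial with many zeros -/
private theorem ZNe_poly {n M : ℕ} (hn : n ≤ M) {c : ℕ → ℂ} {f : ℕ → ℂ}
    (hf : ∀ m < M, ∀ m' < M, m ≠ m' → f m ≠ f m')
    (h : ∀ m < M, ∑ k ∈ Finset.range n, c k * f m ^ k = 0) : ∀ k < n, c k = 0 := by
  have h1 := Matrix.eq_zero_of_forall_index_sum_mul_pow_eq_zero (f := fun j : Fin n => f j)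
    (v := fun j : Fin n => c j) ?_ ?_
  · intro k hk
    exact congrFun h1 ⟨k, hk⟩
  · intro i j hij
    by_contra hne
    exact hf i (by omega) j (by omega) (fun e => hne (Fin.ext e)) hij
  · intro j
    have h2 := h j (by omega)
    rw [Finset.sum_range] at h2
    exact h2

private theorem ZNe_poly_inf {n : ℕ} {c : ℕ → ℂ} {S : Set ℂ} (hS : S.Infinite)
    (h : ∀ x ∈ S, ∑ k ∈ Finset.range n, c k * x ^ k = 0) : ∀ k < n, c k = 0 := by
  refine ZNe_poly le_rfl (f := fun m => (hS.natEmbedding S m : ℂ)) ?_ ?_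
  · intro m _ m' _ hne he
    exact hne ((hS.natEmbedding S).injective (Subtype.ext he))
  · intro m _
    exact h _ (hS.natEmbedding S m).2

private theorem ZNe_count {P : ℂ → Prop} (h : ∀ z, ∀ᶠ y in 𝓝[≠] z, P y) :
    {y | ¬ P y}.Countable := by
  have h1 : ∀ z, {y | y ≠ z → P y} ∈ 𝓝 z := fun z => by
    have h2 := h z
    rw [eventually_nhdsWithin_iff] at h2
    exact h2
  obtain ⟨s, hs, hU⟩ := TopologicalSpace.countable_cover_nhds h1
  refine hs.mono ?_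
  intro y hy
  have h3 : y ∈ ⋃ x ∈ s, {y | y ≠ x → P y} := by rw [hU]; trivial
  simp only [Set.mem_iUnion] at h3
  obtain ⟨x, hx, hxy⟩ := h3
  by_cases e : y = x
  · rw [e]; exact hx
  · exact absurd (hxy e) hy

private theorem ZNe_many {α β : ℂ} (h : Ind α β) {P : ℂ → Prop} (hP : {y | ¬ P y}.Countable) :
    (iu α β '' {y | P y}).Infinite := by
  intro hfin
  have h1 : (iu α β '' {y | ¬ P y}).Countable := hP.image _
  have h2 : {x : ℂ | x ≠ 0} ⊆ iu α β '' {y | P y} ∪ iu α β '' {y | ¬ P y} := by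
    intro x hx
    obtain ⟨z, -, -, hz⟩ := exists_iu_eq h hx
    by_cases hz' : P z
    · exact Or.inl ⟨z, hz', hz⟩
    · exact Or.inr ⟨z, hz', hz⟩
  have h3 : {x : ℂ | x ≠ 0}.Countable := (hfin.countable.union h1).mono h2
  refine not_countable_complex ((h3.union (Set.countable_singleton 0)).mono ?_)
  intro x _
  by_cases hx : x = 0
  · exact Or.inr hx
  · exact Or.inl hx

private theorem ZNe_wp {α β : ℂ} (h : Ind α β) {z y : ℂ} (hz : Off α β z) (hy : Off α β y)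
    (he : wp α β z = wp α β y) : (∃ x, z - y = lat α β x) ∨ ∃ x, z + y = lat α β x := by
  have e1 := ode h hz
  have e2 := ode h hy
  have e3 : (wq α β z - wq α β y) * (wq α β z + wq α β y) = 0 := by
    have e4 : wq α β z ^ 2 = wq α β y ^ 2 := by
      rw [e1, e2, he]
    linear_combination e4
  rcases mul_eq_zero.1 e3 with e4 | e4
  · left
    obtain ⟨x, hx⟩ := exists_lat_of_eq h hz hy he (sub_eq_zero.1 e4)
    refine ⟨x, ?_⟩
    rw [hx]
    ring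
  · right
    obtain ⟨x, hx⟩ := exists_lat_of_eq h hz (off_neg.2 hy) (by rw [wp_neg h]; exact he)
      (by rw [wq_neg h]; linear_combination e4)
    refine ⟨x, ?_⟩
    rw [hx]
    ring

private theorem ZNe_aff {α : ℂ} (hα : α ≠ 0) (β z : ℂ) :
    Tendsto (fun y : ℂ => α * y + β) (𝓝[≠] z) (𝓝[≠] (α * z + β)) := by
  rw [tendsto_nhdsWithin_iff]
  constructor
  · have h1 : Continuous fun y : ℂ => α * y + β := by fun_prop
    exact (h1.tendsto z).mono_left nhdsWithin_le_nhds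
  · filter_upwards [self_mem_nhdsWithin] with y hy
    intro he
    exact hy (mul_left_cancel₀ hα (add_right_cancel he))

private theorem ZNe_sum (L₁ L₂ K : ℕ) (p : ℕ → ℕ → ℕ → ℂ) (z : ℂ × ℂ) :
    FF w τ c₁ c₂ a b L₁ L₂ K p z = ∑ k ∈ Finset.range K, (∑ j ∈ Finset.range L₂,
      (∑ i ∈ Finset.range L₁, p i j k * iu w (w * τ) z.1 ^ i) * iu w (w * τ) z.2 ^ j) *
        iu c₁ c₂ (a * z.1 + b * z.2) ^ k := by
  unfold FF
  simp only [Finset.sum_mul]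
  calc _ = ∑ i ∈ Finset.range L₁, ∑ k ∈ Finset.range K, ∑ j ∈ Finset.range L₂,
        p i j k * iu w (w * τ) z.1 ^ i * iu w (w * τ) z.2 ^ j *
          iu c₁ c₂ (a * z.1 + b * z.2) ^ k :=
        Finset.sum_congr rfl fun i _ => Finset.sum_comm
    _ = ∑ k ∈ Finset.range K, ∑ i ∈ Finset.range L₁, ∑ j ∈ Finset.range L₂,
        p i j k * iu w (w * τ) z.1 ^ i * iu w (w * τ) z.2 ^ j *
          iu c₁ c₂ (a * z.1 + b * z.2) ^ k := Finset.sum_comm
    _ = _ := Finset.sum_congr rfl fun k _ => Finset.sum_comm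

private theorem ZNe_an {s e s₃ e₃ : ℂ → ℂ} (hs : Differentiable ℂ s) (he : Differentiable ℂ e)
    (hs₃ : Differentiable ℂ s₃) (he₃ : Differentiable ℂ e₃) (L₁ L₂ K : ℕ) (p : ℕ → ℕ → ℕ → ℂ) :
    AnalyticOnNhd ℂ (NN s e s₃ e₃ a b L₁ L₂ K p) Set.univ := by
  intro z _
  have k1 : ∀ f : ℂ → ℂ, Differentiable ℂ f → AnalyticAt ℂ (fun z : ℂ × ℂ => f z.1) z := fun f hf =>
    AnalyticAt.fun_comp (f := fun z : ℂ × ℂ => z.1) (g := f) (hf.analyticAt _) analyticAt_fst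
  have k2 : ∀ f : ℂ → ℂ, Differentiable ℂ f → AnalyticAt ℂ (fun z : ℂ × ℂ => f z.2) z := fun f hf =>
    AnalyticAt.fun_comp (f := fun z : ℂ × ℂ => z.2) (g := f) (hf.analyticAt _) analyticAt_snd
  have k3 : ∀ f : ℂ → ℂ, Differentiable ℂ f →
      AnalyticAt ℂ (fun z : ℂ × ℂ => f (a * z.1 + b * z.2)) z := fun f hf =>
    AnalyticAt.fun_comp (f := fun z : ℂ × ℂ => (a : ℂ) * z.1 + (b : ℂ) * z.2) (g := f)
      (hf.analyticAt _)
      ((analyticAt_const.mul analyticAt_fst).add (analyticAt_const.mul analyticAt_snd))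
  unfold NN
  refine Finset.analyticAt_fun_sum _ fun i _ => Finset.analyticAt_fun_sum _ fun j _ =>
    Finset.analyticAt_fun_sum _ fun k _ => ?_
  exact ((analyticAt_const.mul (((k1 s hs).pow i).mul ((k1 e he).pow _))).mul
    (((k2 s hs).pow j).mul ((k2 e he).pow _))).mul (((k3 s₃ hs₃).pow k).mul ((k3 e₃ he₃).pow _))

/-- if `FF` vanishes on a nonempty open set, it vanishes on all generic points -/
private theorem ZNe_zero (h : ZD w τ c₁ c₂ N a b) {L₁ L₂ K : ℕ} {p : ℕ → ℕ → ℕ → ℂ}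
    {O : Set (ℂ × ℂ)} (hO : IsOpen O) (hne : (O ∩ Gen w τ c₁ c₂ a b).Nonempty)
    (h0 : ∀ z ∈ O ∩ Gen w τ c₁ c₂ a b, FF w τ c₁ c₂ a b L₁ L₂ K p z = 0) {z : ℂ × ℂ}
    (hz : z ∈ Gen w τ c₁ c₂ a b) : FF w τ c₁ c₂ a b L₁ L₂ K p z = 0 := by
  obtain ⟨s, e, E⟩ := exists_en h.ind1
  obtain ⟨s₃, e₃, E₃⟩ := exists_en h.ind
  have hNN : ∀ y ∈ Gen w τ c₁ c₂ a b, e y.1 ≠ 0 ∧ e y.2 ≠ 0 ∧ e₃ (a * y.1 + b * y.2) ≠ 0 := by
    rintro y ⟨y1, y2, y3, y4⟩
    exact ⟨fun h1 => y1.2 ((E.e_eq_zero _).1 h1).2, fun h1 => y2.2 ((E.e_eq_zero _).1 h1).2,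
      fun h1 => y4 ((E₃.e_eq_zero _).1 h1).2⟩
  have h1 : NN s e s₃ e₃ a b L₁ L₂ K p = fun _ => 0 := by
    obtain ⟨z₀, hz₀⟩ := hne
    refine (ZNe_an E.ds E.de E₃.ds E₃.de L₁ L₂ K p).eq_of_eventuallyEq (z₀ := z₀)
      analyticOnNhd_const ?_
    filter_upwards [(hO.inter (gen_open h)).mem_nhds hz₀] with y hy
    obtain ⟨y1, y2, y3⟩ := hNN y hy.2
    rw [NN_eq h E E₃ L₁ L₂ K p y1 y2 y3, h0 y hy, mul_zero]
  obtain ⟨z1, z2, z3⟩ := hNN z hz
  have h2 := NN_eq h E E₃ L₁ L₂ K p z1 z2 z3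
  rw [h1] at h2
  have h3 : e z.1 ^ (L₁ - 1) * e z.2 ^ (L₂ - 1) * e₃ (a * z.1 + b * z.2) ^ (K - 1) ≠ 0 :=
    mul_ne_zero (mul_ne_zero (pow_ne_zero _ z1) (pow_ne_zero _ z2)) (pow_ne_zero _ z3)
  exact (mul_eq_zero.1 h2.symm).resolve_left h3

theorem FF_ne (h : ZD w τ c₁ c₂ N a b) {L₁ L₂ K : ℕ} (hKN : K ≤ N) {p : ℕ → ℕ → ℕ → ℂ}
    (hp : ∃ i < L₁, ∃ j < L₂, ∃ k < K, p i j k ≠ 0) {O : Set (ℂ × ℂ)} (hO : IsOpen O)
    (hne : (O ∩ Gen w τ c₁ c₂ a b).Nonempty) :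
    ∃ z ∈ O ∩ Gen w τ c₁ c₂ a b, FF w τ c₁ c₂ a b L₁ L₂ K p z ≠ 0 := by
  by_contra hcon
  push Not at hcon
  have hz0 : ∀ z ∈ Gen w τ c₁ c₂ a b, FF w τ c₁ c₂ a b L₁ L₂ K p z = 0 := fun z hz =>
    ZNe_zero h hO hne hcon hz
  obtain ⟨g, hg1, hg2⟩ := exists_cosets h
  obtain ⟨i, hi, j, hj, k, hk, hpk⟩ := hp
  apply hpk
  have hb : (b : ℂ) ≠ 0 := by exact_mod_cast h.b0
  -- the coefficients vanish
  have key : ∀ t, Go w τ t →
      ∑ i ∈ Finset.range L₁, p i j k * iu w (w * τ) t ^ i = 0 := by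
    intro t ht
    have hgood : ∀ z, ∀ᶠ y in 𝓝[≠] z, (∀ m ∈ Finset.range N,
        (t + (g m).1, y + (g m).2) ∈ Gen w τ c₁ c₂ a b) ∧ ∀ q ∈ Finset.range N ×ˢ Finset.range N,
        Off c₁ c₂ (2 * (a * t + b * y) + ((a * (g q.1).1 + b * (g q.1).2) +
          (a * (g q.2).1 + b * (g q.2).2))) := by
      intro z
      refine Filter.Eventually.and ?_ ?_
      · rw [Filter.eventually_all_finset]
        intro m _
        obtain ⟨⟨x, hx⟩, -⟩ := hg1 m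
        have ht' : Go w τ (t + (g m).1) := by rw [hx]; exact (Go.add h x).2 ht
        have h1 := gen_slice h ht' (1 * z + (g m).2)
        have h2 := (ZNe_aff one_ne_zero (g m).2 z).eventually h1
        filter_upwards [h2] with y hy
        rwa [one_mul] at hy
      · rw [Filter.eventually_all_finset]
        intro q _
        have h1 := Basic.eventually_off h.ind (2 * b * z + (2 * (a * t) +
          ((a * (g q.1).1 + b * (g q.1).2) + (a * (g q.2).1 + b * (g q.2).2))))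
        have h2 := (ZNe_aff (mul_ne_zero two_ne_zero hb) _ z).eventually h1
        filter_upwards [h2] with y hy
        have e1 : 2 * (a * t + b * y) + ((a * (g q.1).1 + b * (g q.1).2) +
          (a * (g q.2).1 + b * (g q.2).2)) = 2 * b * y + (2 * (a * t) +
          ((a * (g q.1).1 + b * (g q.1).2) + (a * (g q.2).1 + b * (g q.2).2))) := by ring
        rw [e1]
        exact hy
    refine ZNe_poly_inf (n := L₂) (c := fun j => ∑ i ∈ Finset.range L₁, p i j k * iu w (w * τ) t ^ i)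
      (ZNe_many h.ind1 (ZNe_count hgood)) ?_ j hj
    rintro _ ⟨y, ⟨hy1, hy2⟩, rfl⟩
    refine ZNe_poly hKN (c := fun k => ∑ j ∈ Finset.range L₂,
      (∑ i ∈ Finset.range L₁, p i j k * iu w (w * τ) t ^ i) * iu w (w * τ) y ^ j)
      (f := fun m => iu c₁ c₂ (a * (t + (g m).1) + b * (y + (g m).2))) ?_ ?_ k hk
    · intro m hm m' hm' hne' he
      have g1 := hy1 m (Finset.mem_range.2 hm)
      have g2 := hy1 m' (Finset.mem_range.2 hm')
      have he2 : wp c₁ c₂ (a * (t + (g m).1) + b * (y + (g m).2)) =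
          wp c₁ c₂ (a * (t + (g m').1) + b * (y + (g m').2)) := inv_injective he
      rcases ZNe_wp h.ind g1.2.2.1 g2.2.2.1 he2 with ⟨x, hx⟩ | ⟨x, hx⟩
      · refine hg2 m hm m' hm' hne' x ?_
        rw [← hx]
        ring
      · refine hy2 (m, m') (Finset.mem_product.2 ⟨Finset.mem_range.2 hm, Finset.mem_range.2 hm'⟩) x ?_
        rw [← hx]
        ring
    · intro m hm
      have g1 := hz0 _ (hy1 m (Finset.mem_range.2 hm))
      rw [ZNe_sum] at g1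
      obtain ⟨⟨x, hx⟩, ⟨x', hx'⟩⟩ := hg1 m
      have e1 : iu w (w * τ) (t + (g m).1) = iu w (w * τ) t := by rw [hx, iu_add_lat h.ind1]
      have e2 : iu w (w * τ) (y + (g m).2) = iu w (w * τ) y := by rw [hx', iu_add_lat h.ind1]
      simp only [e1, e2] at g1
      exact g1
  refine ZNe_poly_inf (n := L₁) (c := fun i => p i j k) (ZNe_many h.ind1 (go_countable h)) ?_ i hi
  rintro _ ⟨t, ht, rfl⟩
  exact key t ht

theorem G_ne (h : ZD w τ c₁ c₂ N a b) {L₁ L₂ K : ℕ} (hKN : K ≤ N) {p : ℕ → ℕ → ℕ → ℂ}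
    (hp : ∃ i < L₁, ∃ j < L₂, ∃ k < K, p i j k ≠ 0) {G R : ℂ[X][Y]} {α : ℂ[X]}
    (g : GD w τ c₁ c₂ N a b L₁ L₂ K p G R α) : G ≠ 0 := by
  have hc : Continuous fun z : ℂ × ℂ => (z.1, -z.2) := by fun_prop
  have hO₁ : IsOpen ((fun z : ℂ × ℂ => (z.1, -z.2)) ⁻¹' Gen w τ c₁ c₂ a b) :=
    (gen_open h).preimage hc
  have hne₁ : (((fun z : ℂ × ℂ => (z.1, -z.2)) ⁻¹' Gen w τ c₁ c₂ a b) ∩
      Gen w τ c₁ c₂ a b).Nonempty := by
    refine (gen_dense h).inter_open_nonempty _ hO₁ ?_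
    obtain ⟨y, hy⟩ := (gen_dense h).nonempty
    exact ⟨(y.1, -y.2), by simpa using hy⟩
  obtain ⟨z₀, ⟨hz1, hz2⟩, hz3⟩ := FF_ne h hKN hp hO₁ hne₁
  have hU : {z | z ∈ Gen w τ c₁ c₂ a b ∧ FF w τ c₁ c₂ a b L₁ L₂ K p z ≠ 0} ∈ 𝓝 z₀ := by
    filter_upwards [(gen_open h).mem_nhds hz2,
      (an_FF h L₁ L₂ K p hz2).continuousAt.eventually_ne hz3] with y h1 h2
    exact ⟨h1, h2⟩
  obtain ⟨U, hU1, hU2, hU3⟩ := mem_nhds_iff.1 hU
  have hne₂ : (((fun z : ℂ × ℂ => (z.1, -z.2)) ⁻¹' U) ∩ Gen w τ c₁ c₂ a b).Nonempty := by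
    refine ⟨(z₀.1, -z₀.2), ?_, hz1⟩
    show (z₀.1, - -z₀.2) ∈ U
    rw [neg_neg]
    exact hU3
  obtain ⟨y, ⟨hy1, hy2⟩, hy3⟩ := FF_ne h hKN hp (hU2.preimage hc) hne₂
  obtain ⟨hy4, hy5⟩ := hU1 hy1
  have hyy : ((y.1, -y.2) : ℂ × ℂ).1 = y.1 := rfl
  have e : (((y.1, -y.2) : ℂ × ℂ).1, -((y.1, -y.2) : ℂ × ℂ).2) = y := by
    ext
    · rfl
    · simp
  obtain ⟨k1, k2, k3, k4⟩ := g.eq (y.1, -y.2) hy4 (by rw [e]; exact hy2)
  rw [e] at k4
  intro hG
  rw [hG] at k4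
  have k5 : (0 : ℂ[X][Y]).evalEval (xx w τ N ((y.1, -y.2) : ℂ × ℂ).1)
      (xx w τ N ((y.1, -y.2) : ℂ × ℂ).2) = 0 := by simp
  rw [k5] at k4
  exact (mul_ne_zero (mul_ne_zero (mul_ne_zero (pow_ne_zero _ k1) (pow_ne_zero _ k2))
    (pow_ne_zero _ k3)) (mul_ne_zero hy5 hy3)) k4.symm

end Pool.Agent.LGO.F
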