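import Mathlib
import Pool.Agent.LGO.F.ZDef

/-!
# LGO/F (note 3060, zero estimate (v)): counting the translates of a line in a slice

PROOF.  `Ψ = {P h₂ - Q h₁ | h ∈ Gam}` is a subgroup of `Λ`.  It contains: `v' = - Q w + P w τ` (`h = (w, w τ)`, `a w + b w τ ∈ Λ_v`);
`(a P + b Q) κ` for `κ ∈ Λ` (`h = (- b κ, a κ)`, `a h₁ + b h₂ = 0`: `P a κ + Q b κ`); `P N κ`, `Q N κ` (`h = (0, N κ)`, `(N κ, 0)`), so `N κ` (`P, Q` coprime), so
`g κ`, `g = gcd(a P + b Q, N)`.  `v'` is primitive: choose integers `r, s` with `P r + Q s = 1` and `κ' = r w + s w τ`: then `w, w τ` are integral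
combinations of `v', κ'` (`v' , κ'` is a basis of `Λ`: the determinant of `(- Q, P), (r, s)` is `- Q s - P r = - 1`).
The `P² N² / g`-many elements of `Ψ`: `x v' + g y κ'`, `0 ≤ x < |P| N`, `0 ≤ y < |P| N / g` (`g ∣ N`): they are different modulo `P N Λ` (basis
`v', κ'` of `Λ`: the difference has coordinates `x - x'`, `g (y - y')` which are less than `|P| N` in absolute value).  Choose for each of them
a period `h` with `P h₂ - Q h₁ =` this element; `H` = the set of these `h` (injective), `|H| = |P| N · |P| N / g`.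
-/

namespace Pool.Agent.LGO.F

open Pool.Agent.EllSch Pool.Agent.LGO.Mul

variable {w τ c₁ c₂ : ℂ} {N : ℕ} {a b : ℤ}

private theorem ZCt_zero {P : ℤ} {M : ℤ} {x y z : ℤ} (hx0 : 0 ≤ x) (hy0 : 0 ≤ y)
    (hx : x < |P| * M) (hy : y < |P| * M) (h : x - y = P * M * z) : x = y := by
  have hM : 0 ≤ |P| * M := (hx0.trans_lt hx).le
  have h1 : |P| * M ∣ x - y := by
    rcases abs_choice P with hP | hP
    · rw [hP]
      exact ⟨z, h⟩
    · rw [hP]
      exact ⟨-z, by rw [h]; ring⟩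
  have h2 : |x - y| < |P| * M := by
    rw [abs_lt]
    constructor
    · omega
    · omega
  have h3 := Int.eq_zero_of_abs_lt_dvd h1 h2
  omega

theorem slice_count (h : ZD w τ c₁ c₂ N a b) {P Q : ℤ} (hPQ : IsCoprime P Q) (hP : P ≠ 0) :
    ∃ H : Finset (ℂ × ℂ), (∀ q ∈ H, Gam w τ c₁ c₂ a b q) ∧
      P ^ 2 * N ^ 2 ≤ (Int.gcd (a * P + b * Q) N : ℤ) * H.card ∧
      ∀ q ∈ H, ∀ r ∈ H, (∃ x : ℤ × ℤ,
        (P * q.2 - Q * q.1) - (P * r.2 - Q * r.1) = P * (N * lat w (w * τ) x)) → q = r := by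
  obtain ⟨r, s, hrs⟩ := hPQ
  obtain ⟨α, β, hg⟩ : ∃ α β : ℤ, (Int.gcd (a * P + b * Q) N : ℤ) = (a * P + b * Q) * α + N * β :=
    ⟨_, _, Int.gcd_eq_gcd_ab _ _⟩
  obtain ⟨N', hN'⟩ : (Int.gcd (a * P + b * Q) N : ℤ) ∣ N := Int.gcd_dvd_right _ _
  set g : ℕ := Int.gcd (a * P + b * Q) N with hgdef
  have hN1 : (0 : ℤ) < N := by
    have := h.N1
    omega
  have hg0 : (0 : ℤ) < g := by
    have h1 : (0 : ℤ) ≤ g := by positivity
    rcases h1.eq_or_lt with h2 | h2
    · rw [← h2, zero_mul] at hN'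
      omega
    · exact h2
  have hN'0 : 0 < N' := by
    by_contra hcon
    push Not at hcon
    have : (N : ℤ) ≤ 0 := by
      rw [hN']
      exact mul_nonpos_of_nonneg_of_nonpos hg0.le hcon
    omega
  obtain ⟨m, rfl⟩ := Int.eq_ofNat_of_zero_le hN'0.le
  have hPabs : (0 : ℤ) < |P| := abs_pos.2 hP
  set F : ℕ × ℕ → ℂ × ℂ := fun t =>
    (lat w (w * τ) ((t.1 : ℤ) - (b * α + s * N * β) * t.2 * r, -((b * α + s * N * β) * t.2 * s)),
      lat w (w * τ) ((a * α + r * N * β) * t.2 * r, (t.1 : ℤ) + (a * α + r * N * β) * t.2 * s))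
    with hF
  have hrsC : (r : ℂ) * P + s * Q = 1 := by exact_mod_cast hrs
  have hgC : ((g : ℤ) : ℂ) = (a * P + b * Q) * α + N * β := by
    rw [hg]
    push_cast
    ring
  have hF2 : ∀ t, (P : ℂ) * (F t).2 - Q * (F t).1 =
      lat w (w * τ) (-(Q * t.1) + g * t.2 * r, P * t.1 + g * t.2 * s) := by
    intro t
    rw [hF]
    simp only [lat]
    push_cast at hgC ⊢
    rw [hgC]
    linear_combination ((N : ℂ) * β * t.2 * r * w + (N : ℂ) * β * t.2 * s * (w * τ)) * hrsC
  have hkey : ∀ t ∈ Finset.range (P.natAbs * N) ×ˢ Finset.range (P.natAbs * m),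
      ∀ u ∈ Finset.range (P.natAbs * N) ×ˢ Finset.range (P.natAbs * m),
      (∃ x : ℤ × ℤ, ((P : ℂ) * (F t).2 - Q * (F t).1) - (P * (F u).2 - Q * (F u).1) =
        P * (N * lat w (w * τ) x)) → t = u := by
    intro t ht u hu
    rintro ⟨x, hx⟩
    rw [Finset.mem_product, Finset.mem_range, Finset.mem_range] at ht hu
    have e1 : (P : ℂ) * (N * lat w (w * τ) x) = lat w (w * τ) (P * N * x.1, P * N * x.2) := by
      simp only [lat]
      push_cast
      ring
    rw [hF2, hF2, ← lat_sub, e1] at hx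
    have h2 := lat_injective h.ind1 hx
    have h3 := congrArg Prod.fst h2
    have h4 := congrArg Prod.snd h2
    simp only [Prod.fst_sub, Prod.snd_sub] at h3 h4
    have h5 : (t.1 : ℤ) - u.1 = P * N * (r * x.2 - s * x.1) := by
      linear_combination r * h4 - s * h3 - ((t.1 : ℤ) - u.1) * hrs
    have h6 : (g : ℤ) * t.2 - g * u.2 = P * N * (P * x.1 + Q * x.2) := by
      linear_combination P * h3 + Q * h4 - ((g : ℤ) * t.2 - g * u.2) * hrs
    have t1 : (t.1 : ℤ) < |P| * N := by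
      rw [← Int.natCast_natAbs]
      exact_mod_cast ht.1
    have u1 : (u.1 : ℤ) < |P| * N := by
      rw [← Int.natCast_natAbs]
      exact_mod_cast hu.1
    have t2 : (g : ℤ) * t.2 < |P| * N := by
      have h7 : (t.2 : ℤ) < |P| * m := by
        rw [← Int.natCast_natAbs]
        exact_mod_cast ht.2
      calc (g : ℤ) * t.2 < g * (|P| * m) := mul_lt_mul_of_pos_left h7 hg0
        _ = |P| * N := by rw [hN']; ring
    have u2 : (g : ℤ) * u.2 < |P| * N := by
      have h7 : (u.2 : ℤ) < |P| * m := by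
        rw [← Int.natCast_natAbs]
        exact_mod_cast hu.2
      calc (g : ℤ) * u.2 < g * (|P| * m) := mul_lt_mul_of_pos_left h7 hg0
        _ = |P| * N := by rw [hN']; ring
    have h8 := ZCt_zero (by positivity) (by positivity) t1 u1 h5
    have h9 := ZCt_zero (by positivity) (by positivity) t2 u2 h6
    have h10 := mul_left_cancel₀ hg0.ne' h9
    ext
    · exact_mod_cast h8
    · exact_mod_cast h10
  have hinj : Set.InjOn F (Finset.range (P.natAbs * N) ×ˢ Finset.range (P.natAbs * m) :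
      Finset (ℕ × ℕ)) := by
    intro t ht u hu htu
    refine hkey t (by exact_mod_cast ht) u (by exact_mod_cast hu) ⟨0, ?_⟩
    rw [htu, sub_self, lat_zero, mul_zero, mul_zero]
  refine ⟨(Finset.range (P.natAbs * N) ×ˢ Finset.range (P.natAbs * m)).image F, ?_, ?_, ?_⟩
  · intro q hq
    obtain ⟨t, -, rfl⟩ := Finset.mem_image.1 hq
    refine ⟨⟨_, rfl⟩, ⟨_, rfl⟩, ?_⟩
    rw [h.mem]
    refine ⟨t.1, (β * t.2 * (b * r - a * s) * r, β * t.2 * (b * r - a * s) * s), ?_⟩
    rw [hF]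
    simp only [lat]
    push_cast
    ring
  · rw [Finset.card_image_of_injOn hinj, Finset.card_product, Finset.card_range, Finset.card_range]
    push_cast
    have e2 : P ^ 2 = |P| * |P| := by rw [← sq, sq_abs]
    apply le_of_eq
    calc P ^ 2 * (N : ℤ) ^ 2 = |P| * |P| * N * N := by rw [e2]; ring
      _ = |P| * |P| * N * (g * m) := by rw [← hN']
      _ = _ := by ring
  · intro q hq q' hq' hx
    obtain ⟨t, ht, rfl⟩ := Finset.mem_image.1 hq
    obtain ⟨u, hu, rfl⟩ := Finset.mem_image.1 hq'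
    rw [hkey t ht u hu hx]

end Pool.Agent.LGO.F
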