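import Mathlib
import Pool.Agent.LGO.F.ZBr
import Pool.Agent.LGO.A.MulRel

/-!
# LGO/F (note 3060, zero estimate (iv)): the slope is rational

PROOF.  `q(xx t, xx (l t + μ)) = 0` on the nonempty open set `U`; `global` and `comm_of_rel` (`LGO/A/MulRel.lean`) for the lattice `N Λ` twice:
`Comm (N w) (N (w τ)) (N w) (N (w τ)) l`, i.e. `n l N Λ ⊆ N Λ` for some `n ≥ 1`.  So `n l w = r w + s w τ`, `n l w τ = r' w + s' w τ`:
`n l = r + s τ`, `(r + s τ) τ = r' + s' τ`, `NonCM τ` gives `s = 0`: `l = r / n`, `r ≠ 0`.  Reduced fraction `l = Q / P`.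
-/

namespace Pool.Agent.LGO.F

open Polynomial Pool.Agent.EllSch Pool.Agent.LGO.Mul Filter Topology
open scoped Polynomial.Bivariate

variable {w τ c₁ c₂ : ℂ} {N : ℕ} {a b : ℤ}

theorem slope_rat (h : ZD w τ c₁ c₂ N a b) {q : ℂ[X][Y]} (hq : q ≠ 0) {U : Set ℂ} {ψ : ℂ → ℂ}
    (hA : Arc w τ N q U ψ) {l μ : ℂ} (hl : l ≠ 0) (hψ : ∀ t ∈ U, ψ t = l * t + μ) :
    ∃ P Q : ℤ, IsCoprime P Q ∧ P ≠ 0 ∧ Q ≠ 0 ∧ l * P = Q := by
  obtain ⟨t₀, ht₀⟩ := hA.ne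
  have hrel : ∀ z, Off (N * w) (N * (w * τ)) z → Off (N * w) (N * (w * τ)) (l * z + μ) →
      q.evalEval (wp (N * w) (N * (w * τ)) z) (wp (N * w) (N * (w * τ)) (l * z + μ)) = 0 := by
    refine global h.indN h.indN hl (z₀ := t₀) (hA.off t₀ ht₀).1 ?_ ?_
    · have h1 := (hA.off t₀ ht₀).2
      rw [hψ t₀ ht₀] at h1
      exact h1
    · filter_upwards [hA.op.mem_nhds ht₀] with t ht
      have h1 := hA.zero t ht
      rw [hψ t ht] at h1
      exact h1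
  obtain ⟨n, hn, hc⟩ := comm_of_rel h.indN h.indN hl hq hrel
  obtain ⟨⟨r, s⟩, h1⟩ := hc (1, 0)
  obtain ⟨⟨r', s'⟩, h2⟩ := hc (0, 1)
  simp only [lat, Int.cast_one, Int.cast_zero, one_mul, zero_mul, add_zero, zero_add] at h1 h2
  have hN : (N : ℂ) ≠ 0 := by
    have := h.N1
    exact_mod_cast (by omega : N ≠ 0)
  have hNw : (N : ℂ) * w ≠ 0 := mul_ne_zero hN h.w0
  have e1 : (n : ℂ) * l = r + s * τ := by
    apply mul_left_cancel₀ hNw
    linear_combination h1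
  have e2 : (n : ℂ) * l * τ = r' + s' * τ := by
    apply mul_left_cancel₀ hNw
    linear_combination h2
  have e3 : (s : ℂ) * τ ^ 2 + ((r - s' : ℤ) : ℂ) * τ + ((-r' : ℤ) : ℂ) = 0 := by
    push_cast
    linear_combination e2 - τ * e1
  obtain ⟨hs, -, -⟩ := h.cm _ _ _ e3
  rw [hs, Int.cast_zero, zero_mul, add_zero] at e1
  have hn0 : (n : ℂ) ≠ 0 := by exact_mod_cast hn.ne'
  have hlx : l = (((r : ℚ) / (n : ℚ) : ℚ) : ℂ) := by
    push_cast
    rw [eq_div_iff hn0, ← e1]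
    ring
  set x : ℚ := (r : ℚ) / (n : ℚ) with hx
  have hx0 : x ≠ 0 := by
    intro h0
    rw [h0, Rat.cast_zero] at hlx
    exact hl hlx
  refine ⟨(x.den : ℤ), x.num, ?_, ?_, ?_, ?_⟩
  · have := x.reduced
    rw [Int.isCoprime_iff_gcd_eq_one, Int.gcd_comm]
    simpa [Int.gcd, Nat.Coprime] using this
  · exact_mod_cast x.den_nz
  · exact Rat.num_ne_zero.2 hx0
  · have h3 : x * (x.den : ℚ) = (x.num : ℚ) := Rat.mul_den_eq_num x
    rw [hlx]
    exact_mod_cast h3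

end Pool.Agent.LGO.F
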