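import Mathlib
import Pool.Agent.LGO.F.ZSc
import Pool.Agent.LGO.F.ZSl
import Pool.Agent.LGO.F.ZLn
import Pool.Agent.LGO.F.ZLk
import Pool.Agent.LGO.F.ZNe
import Pool.Agent.LGO.F.Der

/-!
# LGO/F (note 3060): the zero estimate

`dX G ≤ 4 N² L₁ + 16 N⁵ ≤ 20 N² L₁`, `dY G ≤ 20 N² L₂` because `N⁵ ≤ L_i`.
PROOF of `caseA'`.  `exists_pts`: `Z`, `N³ ≤ 8 |Z|`; `caseA` with `e = T / 2`: `|Z| T (T - T/2) ≤ 2 dX G dY G ≤ 800 N⁴ L₁ L₂` and `T - T/2 ≥ T/2`, so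
`T² ≤ 12800 N L₁ L₂`.
PROOF of `horiz`.  `const_branch`: `U, c`.  `sign` with `e = T / 2` (`64 N⁵ + 8 L₂ ≤ T / 2` because `N⁵ ≤ L₁`, `2000 (L₁ + L₂) ≤ T`): `s`, `A`, order `≥ e / 4` at
`s c`.  `line_FF` with `l = 0`, `μ = s c`, `k = e / 4`: for all `t` with `Go t` the order is `≥ k - 2 L₂ - 2 K ≥ k' := e / 4 - 4 L₂` (`K ≤ N ≤ L₂`); `slice` with `P = 1`,
`Q = 0`: `k' N² ≤ 8 gcd(a, N) dY G ≤ 160 gcd(a, N) N² L₂`, `k' ≥ T / 32`.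
PROOF of `obliq`.  `exists_branch`; `line` with `e = T / 2`: `e² ≤ 10^7 N L₁ L₂` gives the first alternative (`T ≤ 2 e + 1 ≤ 3 e`).  Otherwise `ψ = l t + μ`, `l ≠ 0`,
`slope_rat`: `l P = Q`.  `sign`: `s = ±1`, `A`, order `≥ e / 4` at `s l t + s μ`.  Let `l' = s l`, `μ' = s μ`, `Q' = ± Q` (`l' P = Q'`).  `line_FF`:
`k' = e / 4 - 2 L₁ - 2 L₂ - 2 K`: for `Go t` the order of `FF(t, ·)` at `l' t + μ'` is `≥ k'`, for `Go (l' t + μ')` the order of `FF(·, l' t + μ')` at `t` is `≥ k'`.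
`slice`: `k' P² N² ≤ 8 g dY G`, `g = gcd(a P + b Q', N)`.  The second: the rotated data `ZD.rot`, `GD.rot`: `FF_rot`: `FF'(t', y) = FF(- y, t')`; for `Go t'` (the lattice
is the same) the order of `y ↦ FF(- y, t')` at `y₀ = (μ' - t') / l' = - t'/l' + μ'/l'` is the order of `FF(·, t')` at `- y₀ = (t' - μ') / l'`, which is `≥ k'`.
`slice` for the rotated data with `l'' = - 1 / l'`, `P'' = Q'`, `Q'' = - P` (`l'' P'' = Q''`), `gcd(b Q' + (- a)(- P), N) = g`, `dY (swap G) = dX G`: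
`k' Q'² N² ≤ 8 g dX G`.  `k' ≥ T / 32`.
PROOF of `zest`.  If `T ≤ C (L₁ + L₂)` nothing is to prove.  `exists_GD`, `G_ne`.  If there is no irreducible `q` with `q^(T/2 + 1) ∣ G`: `caseA'`.  Otherwise
`q^(T/2) ∣ G`: `obliq` if `0 < dX q`, `0 < dY q`; `horiz` (`P = 1`, `Q = 0`) if `dX q = 0`; if `dY q = 0`: `horiz` for the rotated data and `swap q` (`P = 0`, `Q = 1`).
-/

namespace Pool.Agent.LGO.F

open Polynomial Pool.Agent.EllSch Pool.Agent.LGO.Mul Filter Topology Asymptotics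
open scoped Polynomial.Bivariate

variable {w τ c₁ c₂ : ℂ} {N : ℕ} {a b : ℤ}

private theorem ZFin_dX {L₁ L₂ K : ℕ} (hN : 16 ≤ N) (hL₁ : N ^ 5 ≤ L₁) {p : ℕ → ℕ → ℕ → ℂ}
    {G R : ℂ[X][Y]} {α : ℂ[X]} (g : GD w τ c₁ c₂ N a b L₁ L₂ K p G R α) :
    dX G ≤ 20 * (N ^ 2 * L₁) := by
  have h1 := g.dXG
  have h2 : 1 * L₁ ≤ N ^ 2 * L₁ := Nat.mul_le_mul_right _ (Nat.one_le_pow _ _ (by omega))
  have h3 : 4 * N ^ 2 * L₁ = 4 * (N ^ 2 * L₁) := by ring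
  omega

private theorem ZFin_dY {L₁ L₂ K : ℕ} (hN : 16 ≤ N) (hL₂ : N ^ 5 ≤ L₂) {p : ℕ → ℕ → ℕ → ℂ}
    {G R : ℂ[X][Y]} {α : ℂ[X]} (g : GD w τ c₁ c₂ N a b L₁ L₂ K p G R α) :
    dY G ≤ 20 * (N ^ 2 * L₂) := by
  have h1 := g.dYG
  have h2 : 1 * L₂ ≤ N ^ 2 * L₂ := Nat.mul_le_mul_right _ (Nat.one_le_pow _ _ (by omega))
  have h3 : 4 * N ^ 2 * L₂ = 4 * (N ^ 2 * L₂) := by ring
  omega

theorem caseA' (h : ZD w τ c₁ c₂ N a b) (hN : 16 ≤ N) {L₁ L₂ K T : ℕ} (hL₁ : N ^ 5 ≤ L₁)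
    (hL₂ : N ^ 5 ≤ L₂) {p : ℕ → ℕ → ℕ → ℂ} {G R : ℂ[X][Y]} {α : ℂ[X]}
    (g : GD w τ c₁ c₂ N a b L₁ L₂ K p G R α) (hG : G ≠ 0)
    (hT : FF w τ c₁ c₂ a b L₁ L₂ K p =O[𝓝 0] fun z => ‖z‖ ^ T)
    (hq : ∀ q : ℂ[X][Y], Irreducible q → ¬ q ^ (T / 2 + 1) ∣ G) :
    T ^ 2 ≤ 12800 * N * L₁ * L₂ := by
  obtain ⟨Z, hZ1, hZ2⟩ := exists_pts h hN g hT
  have h1 := caseA hG (T / 2) T hq Z hZ2
  have hX := ZFin_dX hN hL₁ g
  have hY := ZFin_dY hN hL₂ g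
  have h2 : dX G * dY G ≤ 20 * (N ^ 2 * L₁) * (20 * (N ^ 2 * L₂)) := Nat.mul_le_mul hX hY
  have h3 : T * T ≤ 2 * (T * (T - T / 2)) := by
    have : T ≤ 2 * (T - T / 2) := by omega
    calc T * T ≤ T * (2 * (T - T / 2)) := Nat.mul_le_mul_left _ this
      _ = 2 * (T * (T - T / 2)) := by ring
  have h4 : N ^ 3 * (T * (T - T / 2)) ≤ 8 * (Z.card * (T * (T - T / 2))) := by
    calc N ^ 3 * (T * (T - T / 2)) ≤ (8 * Z.card) * (T * (T - T / 2)) :=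
          Nat.mul_le_mul_right _ hZ1
      _ = _ := by ring
  have h5 : N ^ 3 * (T * T) ≤ N ^ 3 * (12800 * N * L₁ * L₂) := by
    calc N ^ 3 * (T * T) ≤ N ^ 3 * (2 * (T * (T - T / 2))) := Nat.mul_le_mul_left _ h3
      _ = 2 * (N ^ 3 * (T * (T - T / 2))) := by ring
      _ ≤ 2 * (8 * (2 * (20 * (N ^ 2 * L₁) * (20 * (N ^ 2 * L₂))))) := by omega
      _ = N ^ 3 * (12800 * N * L₁ * L₂) := by ring
  have h6 := Nat.le_of_mul_le_mul_left h5 (pow_pos (by omega) 3)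
  rw [sq]
  exact h6

private theorem ZFin_le_of_add {x : WithTop ℤ} {k m k' : ℕ}
    (h : ((k : ℤ) : WithTop ℤ) ≤ x + ((m : ℤ) : WithTop ℤ)) (hk : k' + m ≤ k) :
    ((k' : ℤ) : WithTop ℤ) ≤ x := by
  induction x with
  | top => exact le_top
  | coe x =>
    rw [← WithTop.coe_add, WithTop.coe_le_coe] at h
    rw [WithTop.coe_le_coe]
    omega

private theorem ZFin_NK {L K : ℕ} (hN : 16 ≤ N) (hKN : K ≤ N) (hL : N ^ 5 ≤ L) : K ≤ L := by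
  have : N ^ 1 ≤ N ^ 5 := Nat.pow_le_pow_right (by omega) (by norm_num)
  rw [pow_one] at this
  omega

private theorem ZFin_pos {L : ℕ} (hN : 16 ≤ N) (hL : N ^ 5 ≤ L) : 16 ≤ L := by
  have : N ^ 1 ≤ N ^ 5 := Nat.pow_le_pow_right (by omega) (by norm_num)
  rw [pow_one] at this
  omega

/-- the arithmetic of a slice -/
private theorem ZFin_arith {k T L g D : ℕ} {P : ℤ} (hN : 16 ≤ N)
    (h : (k : ℤ) * (P ^ 2 * N ^ 2) ≤ 8 * (g : ℤ) * D) (hD : D ≤ 20 * (N ^ 2 * L))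
    (hT : T ≤ 20 * k) : (T : ℤ) * P ^ 2 ≤ 10 ^ 4 * (g : ℤ) * L := by
  have hN2 : (0 : ℤ) < (N : ℤ) ^ 2 := by positivity
  have hD' : (D : ℤ) ≤ 20 * ((N : ℤ) ^ 2 * L) := by exact_mod_cast hD
  have hT' : (T : ℤ) ≤ 20 * k := by exact_mod_cast hT
  have h1 : (k : ℤ) * P ^ 2 * (N : ℤ) ^ 2 ≤ 160 * (g : ℤ) * L * (N : ℤ) ^ 2 := by
    calc (k : ℤ) * P ^ 2 * (N : ℤ) ^ 2 = (k : ℤ) * (P ^ 2 * N ^ 2) := by ring
      _ ≤ 8 * (g : ℤ) * D := h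
      _ ≤ 8 * (g : ℤ) * (20 * ((N : ℤ) ^ 2 * L)) := by gcongr
      _ = _ := by ring
  have h2 : (k : ℤ) * P ^ 2 ≤ 160 * (g : ℤ) * L := le_of_mul_le_mul_right h1 hN2
  have h3 : (0 : ℤ) ≤ (g : ℤ) * L := by positivity
  calc (T : ℤ) * P ^ 2 ≤ (20 * k) * P ^ 2 := by gcongr
    _ = 20 * (k * P ^ 2) := by ring
    _ ≤ 20 * (160 * (g : ℤ) * L) := by gcongr
    _ ≤ 10 ^ 4 * (g : ℤ) * L := by nlinarith

theorem horiz (h : ZD w τ c₁ c₂ N a b) (hN : 16 ≤ N) {L₁ L₂ K T : ℕ} (hK : 1 ≤ K) (hKN : K ≤ N)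
    (hL₁ : N ^ 5 ≤ L₁) (hL₂ : N ^ 5 ≤ L₂) {p : ℕ → ℕ → ℕ → ℂ} {G R : ℂ[X][Y]} {α : ℂ[X]}
    (g : GD w τ c₁ c₂ N a b L₁ L₂ K p G R α) (hG : G ≠ 0) (hT : 2000 * (L₁ + L₂) ≤ T)
    {q : ℂ[X][Y]} (hq : Irreducible q) (hq0 : dX q = 0) (hqG : q ^ (T / 2) ∣ G) :
    T ≤ 10 ^ 4 * Int.gcd a N * L₂ := by
  have hKL := ZFin_NK hN hKN hL₂
  have hp2 := ZFin_pos hN hL₂
  obtain ⟨U, c, hA⟩ := const_branch h hq hq0
  obtain ⟨s, hs, A, hAU, hAc, hk⟩ := sign h hK hKN g hA hqG (by omega)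
  have h1 := (line_FF h (l := 0) (μ := s * c) hAc (fun t ht => by
    rw [zero_mul, zero_add]; exact hk t ht)).1
  have h2 := slice h hN g hG (P := 1) (Q := 0) isCoprime_one_left one_ne_zero (l := 0) (μ := s * c)
    (by simp) (k := T / 2 / 4 - (2 * L₂ + 2 * K)) (fun t ht => by
      refine ZFin_le_of_add (h1 t ht) ?_
      omega)
  have h3 := ZFin_arith hN (T := T) (L := L₂) h2 (ZFin_dY hN hL₂ g) (by omega)
  have e : (a * 1 + b * 0 : ℤ) = a := by ring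
  rw [e, one_pow, mul_one] at h3
  exact_mod_cast h3

private theorem ZFin_go (h : ZD w τ c₁ c₂ N a b) (z : ℂ) (hz : Go (w * τ) (-1 / τ) z) :
    Go w τ z := by
  have h0 : τ ≠ 0 := by
    intro h0
    have := h.im
    rw [h0] at this
    simp at this
  have hm : w * τ * (-1 / τ) = -w := by field_simp
  have h1 : w * τ = ((0 : ℤ) : ℂ) * w + ((1 : ℤ) : ℂ) * (w * τ) := by push_cast; ring
  have h2 : w * τ * (-1 / τ) = ((-1 : ℤ) : ℂ) * w + ((0 : ℤ) : ℂ) * (w * τ) := by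
    rw [hm]; push_cast; ring
  have h3 := wp_change (a := w) (b := w * τ) (p := 0) (q := 1) (r := -1) (s := 0) (by norm_num) z
  have h4 := off_change (a := w) (b := w * τ) (p := 0) (q := 1) (r := -1) (s := 0) (by norm_num) z
  rw [← h1, ← h2] at h3 h4
  unfold Go at hz ⊢
  rw [h3, h4] at hz
  exact hz

private theorem ZFin_swap_dX (P : ℂ[X][Y]) : dX (Bivariate.swap P) = dY P := by
  unfold dX dY
  rw [Bivariate.swap_swap_apply]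

private theorem ZFin_swap_dY (P : ℂ[X][Y]) : dY (Bivariate.swap P) = dX P := rfl

private theorem ZFin_swap_ne {G : ℂ[X][Y]} (hG : G ≠ 0) : Bivariate.swap G ≠ 0 := by
  intro h0
  apply hG
  rw [← Bivariate.swap_swap_apply G, h0, map_zero]

private theorem ZFin_swap_irr {q : ℂ[X][Y]} (hq : Irreducible q) :
    Irreducible (Bivariate.swap q) :=
  (MulEquiv.irreducible_iff (Bivariate.swap (R := ℂ))).2 hq

private theorem ZFin_swap_dvd {q G : ℂ[X][Y]} {n : ℕ} (h : q ^ n ∣ G) :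
    Bivariate.swap q ^ n ∣ Bivariate.swap G := by
  obtain ⟨c, rfl⟩ := h
  refine ⟨Bivariate.swap c, ?_⟩
  rw [map_mul (Bivariate.swap (R := ℂ)), map_pow (Bivariate.swap (R := ℂ))]

theorem obliq (h : ZD w τ c₁ c₂ N a b) (hN : 16 ≤ N) {L₁ L₂ K T : ℕ} (hK : 1 ≤ K) (hKN : K ≤ N)
    (hL₁ : N ^ 5 ≤ L₁) (hL₂ : N ^ 5 ≤ L₂) {p : ℕ → ℕ → ℕ → ℂ} {G R : ℂ[X][Y]} {α : ℂ[X]}
    (g : GD w τ c₁ c₂ N a b L₁ L₂ K p G R α) (hG : G ≠ 0) (hT : 2000 * (L₁ + L₂) ≤ T)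
    {q : ℂ[X][Y]} (hq : Irreducible q) (h1 : 0 < dX q) (h2 : 0 < dY q) (hqG : q ^ (T / 2) ∣ G) :
    T ^ 2 ≤ 10 ^ 8 * N * L₁ * L₂ ∨ ∃ P Q : ℤ, IsCoprime P Q ∧
      (T : ℤ) * P ^ 2 ≤ 10 ^ 4 * (Int.gcd (a * P + b * Q) N : ℤ) * L₂ ∧
      (T : ℤ) * Q ^ 2 ≤ 10 ^ 4 * (Int.gcd (a * P + b * Q) N : ℤ) * L₁ := by
  have hKL₁ := ZFin_NK hN hKN hL₁
  have hKL₂ := ZFin_NK hN hKN hL₂
  have hp1 := ZFin_pos hN hL₁
  have hp2 := ZFin_pos hN hL₂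
  obtain ⟨U, ψ, hA⟩ := exists_branch h hq h1 h2
  rcases line h hK hKN hL₁ hL₂ g hG hq h1 h2 hA hqG (by omega) with h3 | ⟨l, μ, hl, hψ⟩
  · left
    have h4 : T ≤ 3 * (T / 2) := by omega
    calc T ^ 2 ≤ (3 * (T / 2)) ^ 2 := Nat.pow_le_pow_left h4 2
      _ = 9 * (T / 2) ^ 2 := by ring
      _ ≤ 9 * (10 ^ 7 * N * L₁ * L₂) := Nat.mul_le_mul_left _ h3
      _ = 9 * 10 ^ 7 * (N * L₁ * L₂) := by ring
      _ ≤ 10 ^ 8 * (N * L₁ * L₂) := Nat.mul_le_mul_right _ (by norm_num)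
      _ = _ := by ring
  · right
    obtain ⟨P, Q, hPQ, hP, hQ, hlPQ⟩ := slope_rat h hq.ne_zero hA hl hψ
    obtain ⟨s, hs, A, hAU, hAc, hk⟩ := sign h hK hKN g hA hqG (by omega)
    obtain ⟨Q', hPQ', hQ', hlQ'⟩ : ∃ Q' : ℤ, IsCoprime P Q' ∧ Q' ≠ 0 ∧ s * l * P = Q' := by
      rcases hs with rfl | rfl
      · exact ⟨Q, hPQ, hQ, by rw [one_mul]; exact hlPQ⟩
      · refine ⟨-Q, hPQ.neg_right, neg_ne_zero.2 hQ, ?_⟩
        push_cast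
        linear_combination -hlPQ
    have hs0 : s ≠ 0 := by
      rcases hs with rfl | rfl
      · exact one_ne_zero
      · exact neg_ne_zero.2 one_ne_zero
    have hl' : s * l ≠ 0 := mul_ne_zero hs0 hl
    obtain ⟨h4, h5⟩ := line_FF h (l := s * l) (μ := s * μ) hAc (fun t ht => by
      have e : s * l * t + s * μ = s * ψ t := by rw [hψ t (hAU ht)]; ring
      rw [e]; exact hk t ht)
    have h6 := slice h hN g hG hPQ' hP (l := s * l) (μ := s * μ) hlQ'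
      (k := T / 2 / 4 - (2 * L₂ + 2 * K)) (fun t ht => by
        refine ZFin_le_of_add (h4 t ht) ?_
        omega)
    have h7 := ZFin_arith hN (T := T) (L := L₂) h6 (ZFin_dY hN hL₂ g) (by omega)
    refine ⟨P, Q', hPQ', h7, ?_⟩
    have hswap : Bivariate.swap G ≠ 0 := ZFin_swap_ne hG
    have hQc : (Q' : ℂ) ≠ 0 := Int.cast_ne_zero.2 hQ'
    have h8 := slice h.rot hN (GD.rot h g) hswap (P := Q') (Q := -P) hPQ'.symm.neg_right hQ'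
      (l := -1 / (s * l)) (μ := s * μ / (s * l))
      (by rw [← hlQ']; push_cast; field_simp)
      (k := T / 2 / 4 - (2 * L₁ + 2 * K)) (fun t' ht' => by
        have ht := ZFin_go h t' ht'
        set t₀ : ℂ := (t' - s * μ) / (s * l) with ht₀
        have e1 : s * l * t₀ + s * μ = t' := by rw [ht₀]; field_simp; ring
        have h9 := h5 hl' t₀ (by rw [e1]; exact ht)
        rw [e1] at h9
        have e2 : (fun y => FF (w * τ) (-1 / τ) c₁ c₂ b (-a) L₂ L₁ K (fun j i k => p i j k) (t', y)) =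
            (fun r => FF w τ c₁ c₂ a b L₁ L₂ K p (r, t')) ∘ fun y => -y := by
          funext y
          exact FF_rot h L₁ L₂ K p (t', y)
        have e3 : -1 / (s * l) * t' + s * μ / (s * l) = -t₀ := by rw [ht₀]; field_simp; ring
        rw [e2, e3, meromorphicOrderAt_comp_of_deriv_ne_zero (by fun_prop)
          (by rw [deriv_neg']; exact neg_ne_zero.2 one_ne_zero), neg_neg]
        refine ZFin_le_of_add h9 ?_
        omega)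
    rw [ZFin_swap_dY] at h8
    have h9 := ZFin_arith hN (T := T) (L := L₁) h8 (ZFin_dX hN hL₁ g) (by omega)
    have e : b * Q' + -a * -P = a * P + b * Q' := by ring
    rw [e] at h9
    exact h9

/-- **the zero estimate** -/
theorem zest : ∃ C : ℕ, 1 ≤ C ∧ ∀ (w τ c₁ c₂ : ℂ) (N : ℕ) (a b : ℤ), ZD w τ c₁ c₂ N a b →
    16 ≤ N → ∀ (L₁ L₂ K T : ℕ) (p : ℕ → ℕ → ℕ → ℂ), 1 ≤ K → K ≤ N → N ^ 5 ≤ L₁ → N ^ 5 ≤ L₂ →
    (∃ i < L₁, ∃ j < L₂, ∃ k < K, p i j k ≠ 0) →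
    (FF w τ c₁ c₂ a b L₁ L₂ K p =O[𝓝 0] fun z => ‖z‖ ^ T) →
    T ^ 2 ≤ C * N * L₁ * L₂ ∨ T ≤ C * (L₁ + L₂) ∨ ∃ P Q : ℤ, IsCoprime P Q ∧
      (T : ℤ) * P ^ 2 ≤ C * (Int.gcd (a * P + b * Q) N : ℤ) * L₂ ∧
      (T : ℤ) * Q ^ 2 ≤ C * (Int.gcd (a * P + b * Q) N : ℤ) * L₁ := by
  obtain ⟨C, hC⟩ : ∃ C : ℕ, C = 10 ^ 8 := ⟨_, rfl⟩
  have hC1 : 10 ^ 4 ≤ C := by rw [hC]; norm_num
  refine ⟨C, by omega, ?_⟩
  intro w τ c₁ c₂ N a b h hN L₁ L₂ K T p hK hKN hL₁ hL₂ hp hT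
  by_cases hTL : T ≤ C * (L₁ + L₂)
  · exact Or.inr (Or.inl hTL)
  have hTL' : 10 ^ 4 * (L₁ + L₂) ≤ C * (L₁ + L₂) := Nat.mul_le_mul_right _ hC1
  have hT2 : 2000 * (L₁ + L₂) ≤ T := by omega
  have hT2' : 2000 * (L₂ + L₁) ≤ T := by omega
  obtain ⟨G, R, α, g⟩ := exists_GD h L₁ L₂ K hK hKN p
  have hG : G ≠ 0 := G_ne h hKN hp g
  have up : ∀ (x L : ℕ), 10 ^ 4 * (x : ℤ) * (L : ℤ) ≤ (C : ℤ) * x * L := by
    intro x L
    have h1 : 10 ^ 4 * (x * L) ≤ C * (x * L) := Nat.mul_le_mul_right _ hC1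
    have h2 : 10 ^ 4 * x * L ≤ C * x * L := by
      rw [mul_assoc, mul_assoc]
      exact h1
    exact_mod_cast h2
  by_cases hq : ∀ q : ℂ[X][Y], Irreducible q → ¬ q ^ (T / 2 + 1) ∣ G
  · left
    refine (caseA' h hN hL₁ hL₂ g hG hT hq).trans ?_
    have : 12800 * (N * L₁ * L₂) ≤ C * (N * L₁ * L₂) := Nat.mul_le_mul_right _ (by
      rw [hC]; norm_num)
    calc 12800 * N * L₁ * L₂ = 12800 * (N * L₁ * L₂) := by ring
      _ ≤ C * (N * L₁ * L₂) := this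
      _ = _ := by ring
  push Not at hq
  obtain ⟨q, hq, hqG⟩ := hq
  have hqG' : q ^ (T / 2) ∣ G := (pow_dvd_pow q (Nat.le_succ _)).trans hqG
  rcases Nat.eq_zero_or_pos (dX q) with h1 | h1
  · right; right
    have h3 := horiz h hN hK hKN hL₁ hL₂ g hG hT2 hq h1 hqG'
    have h4 : (T : ℤ) ≤ 10 ^ 4 * (Int.gcd a N : ℤ) * L₂ := by exact_mod_cast h3
    have e : (a * 1 + b * 0 : ℤ) = a := by ring
    refine ⟨1, 0, isCoprime_one_left, ?_, ?_⟩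
    · rw [e, one_pow, mul_one]
      exact h4.trans (up _ L₂)
    · rw [zero_pow two_ne_zero, mul_zero]
      positivity
  rcases Nat.eq_zero_or_pos (dY q) with h2 | h2
  · right; right
    have hswap : Bivariate.swap G ≠ 0 := ZFin_swap_ne hG
    have hqs : Irreducible (Bivariate.swap q) := ZFin_swap_irr hq
    have hdv : Bivariate.swap q ^ (T / 2) ∣ Bivariate.swap G := ZFin_swap_dvd hqG'
    have h3 := horiz h.rot hN hK hKN hL₂ hL₁ (GD.rot h g) hswap hT2' hqs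
      (by rw [ZFin_swap_dX]; exact h2) hdv
    have h4 : (T : ℤ) ≤ 10 ^ 4 * (Int.gcd b N : ℤ) * L₁ := by exact_mod_cast h3
    have e : (a * 0 + b * 1 : ℤ) = b := by ring
    refine ⟨0, 1, isCoprime_one_right, ?_, ?_⟩
    · rw [zero_pow two_ne_zero, mul_zero]
      positivity
    · rw [e, one_pow, mul_one]
      exact h4.trans (up _ L₁)
  rcases obliq h hN hK hKN hL₁ hL₂ g hG hT2 hq h1 h2 hqG' with h3 | ⟨P, Q, hPQ, h3, h4⟩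
  · left
    rw [hC]
    exact h3
  · right; right
    exact ⟨P, Q, hPQ, h3.trans (up _ _), h4.trans (up _ _)⟩

end Pool.Agent.LGO.F
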