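import Pool.Agent.LGO.F.PEng
import Pool.Agent.LGO.F.ZFin

/-!
# LGO/F (note 3060, Theorem Q): the degree of an isogeny in a primitive direction

`engine_P`: `K` a number field which contains `x = j(τ)`, `y = j(ℤ (a + b τ) + N (ℤ + ℤ τ))`, `gcd(a, b, N) = 1`, heights `≤ h`.
If `gcd (a P + b Q, N) ≤ Y (P² Im τ + Q² / Im τ)` for all coprime `P, Q`, then
`√N ≤ C ([K : ℚ]² (h + 1 + log N) + Y)`.
-/

namespace Pool.Agent.LGO.F

open UpperHalfPlane Pool.Agent.Hhelper14.ZP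

theorem engine_P : ∃ C : ℝ, 1 ≤ C ∧
    ∀ (K : IntermediateField ℚ ℂ) [FiniteDimensional ℚ K] (x y : ℂ) (h Y : ℝ) (τ : ℍ) (N : ℕ)
      (a b : ℤ), 1 ≤ h → Bd K h x → Bd K h y → NonCM (τ : ℂ) → Red (τ : ℂ) → jInv τ = x →
      1 ≤ N → Cop N a b → IsJ τ N a b y → 1 ≤ Y →
      (∀ P Q : ℤ, IsCoprime P Q → (Int.gcd (a * P + b * Q) N : ℝ) ≤
        Y * (P ^ 2 * τ.im + Q ^ 2 / τ.im)) →
      √N ≤ C * ((Module.finrank ℚ K : ℝ) ^ 2 * (h + 1 + Real.log N) + Y) := by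
  obtain ⟨Cz, hCz, hz⟩ := zest
  exact PE.engineP hCz hz

end Pool.Agent.LGO.F
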