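import Pool.Agent.LGO.F.JInt

/-!
# LGO/F: the primitive matrix between two lattices of cyclic index, integers only

PROOF. The entries of the product are (up to signs) `n α`, `δ`, `n n' β`, `n' γ`, with `α = a' d - b' c`, `δ = a b' - a' b`,
`β = c' d - d' c`, `γ = a d' - b c'`, and `α γ - β δ = ± 1` (`linear_combination` from `h`, `h'`). `t = gcd(n, n', δ)` divides
all the entries, `g` is the quotient. If a prime `l` divides all the entries of `g`, then `l t` divides `n α`, `δ`, `n n' β`,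
`n' γ`; `l t ∣ δ`, so `α`, `γ` are prime to `l t` and `l t ∣ n`, `l t ∣ n'`: `l t ∣ t`, contradiction (`t > 0`).
-/

namespace Pool.Agent.LGO.F

theorem adj_prim {n n' : ℕ} (hn : 0 < n) (hn' : 0 < n') {a b c d a' b' c' d' : ℤ}
    (h : a * d - b * c = 1) (h' : a' * d' - b' * c' = 1) :
    ∃ g : Matrix (Fin 2) (Fin 2) ℤ, Prim g ∧
      !![(n' : ℤ) * d', n' * c'; b', a'] * (!![(n : ℤ) * d, n * c; b, a]).adjugate =
        ((Nat.gcd n (Nat.gcd n' (a * b' - a' * b).natAbs) : ℕ) : ℤ) • g ∧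
      g.det * ((Nat.gcd n (Nat.gcd n' (a * b' - a' * b).natAbs) : ℕ) : ℤ) ^ 2 = n * n' := by
  set t : ℕ := Nat.gcd n (Nat.gcd n' (a * b' - a' * b).natAbs) with ht
  have ht0 : 0 < t := Nat.gcd_pos_of_pos_left _ hn
  have tn : (t : ℤ) ∣ n := Int.natCast_dvd_natCast.2 (Nat.gcd_dvd_left _ _)
  have tn' : (t : ℤ) ∣ n' := Int.natCast_dvd_natCast.2
    ((Nat.gcd_dvd_right _ _).trans (Nat.gcd_dvd_left _ _))
  have td : (t : ℤ) ∣ a * b' - a' * b := Int.natCast_dvd.2
    ((Nat.gcd_dvd_right _ _).trans (Nat.gcd_dvd_right _ _))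
  obtain ⟨k, hk⟩ := tn
  obtain ⟨k', hk'⟩ := tn'
  obtain ⟨m, hm⟩ := td
  have hone : (a' * d - b' * c) * (a * d' - b * c') - (c' * d - d' * c) * (a * b' - a' * b) = 1 := by
    linear_combination (a' * d' - b' * c') * h + h'
  have key : ∀ e : ℤ, e ∣ a * b' - a' * b → ∀ u v : ℤ, e ∣ u * (a' * d - b' * c) →
      e ∣ v * (a * d' - b * c') → e ∣ u ∧ e ∣ v := by
    rintro e ⟨r, hr⟩ u v hu hv
    rw [hr] at hone
    constructor
    · exact IsCoprime.dvd_of_dvd_mul_right
        ⟨-(c' * d - d' * c) * r, a * d' - b * c', by linear_combination hone⟩ hu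
    · exact IsCoprime.dvd_of_dvd_mul_right
        ⟨-(c' * d - d' * c) * r, a' * d - b' * c, by linear_combination hone⟩ hv
  refine ⟨!![k' * (a * d' - b * c'), k * n' * (c' * d - d' * c); m, k * (a' * d - b' * c)], ?_, ?_, ?_⟩
  · intro e he
    have h00 : (e : ℤ) ∣ k' * (a * d' - b * c') := he 0 0
    have h10 : (e : ℤ) ∣ m := he 1 0
    have h11 : (e : ℤ) ∣ k * (a' * d - b' * c) := he 1 1
    have hd : ((e * t : ℕ) : ℤ) ∣ a * b' - a' * b := by
      rw [hm, Nat.cast_mul, mul_comm]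
      exact mul_dvd_mul_left _ h10
    have hu : ((e * t : ℕ) : ℤ) ∣ (n : ℤ) * (a' * d - b' * c) := by
      rw [hk, Nat.cast_mul, mul_comm (e : ℤ), mul_assoc]
      exact mul_dvd_mul_left _ h11
    have hv : ((e * t : ℕ) : ℤ) ∣ (n' : ℤ) * (a * d' - b * c') := by
      rw [hk', Nat.cast_mul, mul_comm (e : ℤ), mul_assoc]
      exact mul_dvd_mul_left _ h00
    obtain ⟨h1, h2⟩ := key _ hd _ _ hu hv
    have h3 : e * t ∣ t := by
      conv_rhs => rw [ht]
      exact Nat.dvd_gcd (Int.natCast_dvd_natCast.1 h1)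
        (Nat.dvd_gcd (Int.natCast_dvd_natCast.1 h2) (Int.natCast_dvd.1 hd))
    obtain ⟨q, hq⟩ := h3
    have h4 : e * q = 1 := by
      apply Nat.eq_of_mul_eq_mul_left ht0
      rw [mul_one]
      conv_rhs => rw [hq]
      ring
    exact Nat.eq_one_of_mul_eq_one_right h4
  · ext i j
    fin_cases i <;> fin_cases j
    · simp [Matrix.mul_apply, Fin.sum_univ_two, Matrix.adjugate_fin_two]
      rw [hk']
      ring
    · simp [Matrix.mul_apply, Fin.sum_univ_two, Matrix.adjugate_fin_two]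
      rw [hk]
      ring
    · simp [Matrix.mul_apply, Fin.sum_univ_two, Matrix.adjugate_fin_two]
      linear_combination hm
    · simp [Matrix.mul_apply, Fin.sum_univ_two, Matrix.adjugate_fin_two]
      rw [hk]
      ring
  · rw [Matrix.det_fin_two_of]
    rw [hm] at hone
    have e1 : (k' * (a * d' - b * c') * (k * (a' * d - b' * c)) -
        k * (n' : ℤ) * (c' * d - d' * c) * m) * (t : ℤ) ^ 2 =
        ((t : ℤ) * k') * ((t : ℤ) * k) * ((a * d' - b * c') * (a' * d - b' * c)) -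
          ((t : ℤ) * k) * (n' : ℤ) * (c' * d - d' * c) * ((t : ℤ) * m) := by ring
    rw [e1, ← hk, ← hk']
    linear_combination (n : ℤ) * (n' : ℤ) * hone

end Pool.Agent.LGO.F
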