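import Pool.Agent.LGO.F.JInt
import Pool.Agent.LGO.Gal.JEq
import Pool.Agent.EllSch.Hom

/-!
# LGO/F: lattices and invariants

PROOFS. `jInv_eq_of_lat`: `G2_eq`, `G3_eq` of `EllSch/Lattice.lean` express `G2 a b`, `G3 a b` by sums over the lattice
(`PeriodPair.G`, a sum over `l : (pp h).lattice`), so they depend only on the set of the lattice points
(`mem_lattice_iff`/`pp_mem_iff`, `ind_smul`, `ind_one`); `jInv_mul_w`, `disc_ne_zero_w` (`Gal/JEq.lean`).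
`isJ_of_maps`: the lattice `L` of the rows `(g₁₁, g₁₀)`, `(g₀₁, g₀₀)` (coordinates with respect to `1, τ`) is
`w (ℤ + ℤ τ')`, `w = g₁₀ τ + g₁₁` (`den_ne_zero`). `⊆`: by `Cop.exists_mul` both rows are in `ℤ (a, b) + n ℤ²`. `⊇`: `n ℤ² ⊆ L` by the
adjugate matrix and `(a, b) = (det((a, b), row₂) row₁ - det((a, b), row₁) row₂) / det(row₁, row₂)`.
`IsJ.congr'`: compare the two sets.
-/

namespace Pool.Agent.LGO.F

open UpperHalfPlane Pool.Agent.Hhelper14.ZP Pool.Agent.EllSch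

private lemma JLat_sum {S S' : Submodule ℤ ℂ} (e : S = S') (n : ℕ) :
    ∑' l : S, ((l : ℂ) ^ n)⁻¹ = ∑' l : S', ((l : ℂ) ^ n)⁻¹ := by
  subst e
  rfl

/-- homothetic lattices: the invariant depends only on the set of the lattice points -/
theorem jInv_eq_of_lat {w w' : ℂ} {τ τ' : ℍ} (hw : w ≠ 0) (hw' : w' ≠ 0)
    (h : ∀ z : ℂ, (∃ x : ℤ × ℤ, z = lat w (w * τ) x) ↔ ∃ x : ℤ × ℤ, z = lat w' (w' * τ') x) :
    jInv τ = jInv τ' := by
  have h1 : Ind w (w * τ) := by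
    have := ind_smul (ind_one τ.im_pos) hw
    rwa [mul_one] at this
  have h2 : Ind w' (w' * τ') := by
    have := ind_smul (ind_one τ'.im_pos) hw'
    rwa [mul_one] at this
  have e : (pp h1).lattice = (pp h2).lattice := by
    ext z
    rw [pp_mem_iff, pp_mem_iff]
    constructor
    · rintro ⟨x, hx⟩
      obtain ⟨y, hy⟩ := (h z).1 ⟨x, hx.symm⟩
      exact ⟨y, hy.symm⟩
    · rintro ⟨x, hx⟩
      obtain ⟨y, hy⟩ := (h z).2 ⟨x, hx.symm⟩
      exact ⟨y, hy.symm⟩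
  have eG : ∀ n : ℕ, (pp h1).G n = (pp h2).G n := by
    intro n
    unfold PeriodPair.G
    exact JLat_sum e n
  have e2 : G2 w (w * τ) = G2 w' (w' * τ') := by
    rw [Pool.Agent.EllSch.G2_eq h1, Pool.Agent.EllSch.G2_eq h2]
    unfold PeriodPair.g₂
    rw [eG]
  have e3 : G3 w (w * τ) = G3 w' (w' * τ') := by
    rw [Pool.Agent.EllSch.G3_eq h1, Pool.Agent.EllSch.G3_eq h2]
    unfold PeriodPair.g₃
    rw [eG]
  have j1 := jInv_mul_w τ hw
  have j2 := jInv_mul_w τ' hw'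
  have hd := disc_ne_zero_w τ' hw'
  rw [e2, e3, ← j2] at j1
  exact mul_right_cancel₀ hd j1

/-- the lattice of the rows of an integral matrix of determinant `n`, both rows proportional to
`(a, b)` modulo `n` -/
theorem isJ_of_maps {τ τ' : ℍ} {n : ℕ} (hn : 0 < n) {g : Matrix (Fin 2) (Fin 2) ℤ}
    (hg : g.det = n) (hm : Maps g τ τ') {a b : ℤ} (hab : Cop n a b)
    (h1 : (n : ℤ) ∣ a * g 1 0 - g 1 1 * b) (h2 : (n : ℤ) ∣ a * g 0 0 - g 0 1 * b) :
    IsJ τ n a b (jInv τ') := by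
  have hdet : g.det ≠ 0 := by
    rw [hg]
    exact_mod_cast hn.ne'
  have hw := Gal.den_ne_zero hdet τ
  have hm' : ((g 1 0 : ℂ) * τ + (g 1 1 : ℂ)) * τ' = (g 0 0 : ℂ) * τ + (g 0 1 : ℂ) := by
    rw [mul_comm]
    exact hm
  refine ⟨_, τ', hw, rfl, ?_⟩
  rw [hm']
  obtain ⟨k1, ⟨p1, hp1⟩, ⟨q1, hq1⟩⟩ := hab.exists_mul (a' := g 1 1) (b' := g 1 0) h1
  obtain ⟨k2, ⟨p2, hp2⟩, ⟨q2, hq2⟩⟩ := hab.exists_mul (a' := g 0 1) (b' := g 0 0) h2
  obtain ⟨m1, hm1⟩ := h1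
  obtain ⟨m2, hm2⟩ := h2
  have hn0 : (n : ℂ) ≠ 0 := by exact_mod_cast hn.ne'
  have cp1 : (g 1 1 : ℂ) = k1 * a + n * p1 := by
    have : g 1 1 = k1 * a + n * p1 := by linarith
    rw [this]; push_cast; ring
  have cq1 : (g 1 0 : ℂ) = k1 * b + n * q1 := by
    have : g 1 0 = k1 * b + n * q1 := by linarith
    rw [this]; push_cast; ring
  have cp2 : (g 0 1 : ℂ) = k2 * a + n * p2 := by
    have : g 0 1 = k2 * a + n * p2 := by linarith
    rw [this]; push_cast; ring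
  have cq2 : (g 0 0 : ℂ) = k2 * b + n * q2 := by
    have : g 0 0 = k2 * b + n * q2 := by linarith
    rw [this]; push_cast; ring
  have cd : (g 0 0 : ℂ) * g 1 1 - g 0 1 * g 1 0 = n := by
    rw [Matrix.det_fin_two] at hg
    exact_mod_cast congrArg (Int.cast : ℤ → ℂ) hg
  have cm1 : (a : ℂ) * g 1 0 - g 1 1 * b = n * m1 := by
    exact_mod_cast congrArg (Int.cast : ℤ → ℂ) hm1
  have cm2 : (a : ℂ) * g 0 0 - g 0 1 * b = n * m2 := by
    exact_mod_cast congrArg (Int.cast : ℤ → ℂ) hm2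
  intro z
  constructor
  · rintro ⟨⟨x1, x2⟩, rfl⟩
    refine ⟨x1 * k1 + x2 * k2, (x1 * p1 + x2 * p2, x1 * q1 + x2 * q2), ?_⟩
    unfold lat
    simp only
    rw [cp1, cq1, cp2, cq2]
    push_cast
    ring
  · rintro ⟨k, ⟨x1, x2⟩, rfl⟩
    refine ⟨(k * m2 + x1 * g 0 0 - x2 * g 0 1, - k * m1 - x1 * g 1 0 + x2 * g 1 1), ?_⟩
    apply mul_left_cancel₀ hn0
    unfold lat
    simp only
    push_cast
    linear_combination ((k : ℂ) * ((g 1 0 : ℂ) * τ + g 1 1)) * cm2 -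
      ((k : ℂ) * ((g 0 0 : ℂ) * τ + g 0 1)) * cm1 -
      ((k : ℂ) * (a + b * τ) + n * (x1 + x2 * τ)) * cd

/-- the lattice depends only on `(a, b)` modulo `n`, up to units -/
theorem IsJ.congr' {τ : ℍ} {n : ℕ} {a b a' b' : ℤ} {y : ℂ} (h : IsJ τ n a b y) {k : ℤ}
    (hk : IsCoprime k n) (ha : (n : ℤ) ∣ a' - k * a) (hb : (n : ℤ) ∣ b' - k * b) :
    IsJ τ n a' b' y := by
  obtain ⟨w, τ', hw, hy, hz⟩ := h
  refine ⟨w, τ', hw, hy, fun z => ?_⟩
  rw [hz z]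
  obtain ⟨p, hp⟩ := ha
  obtain ⟨q, hq⟩ := hb
  obtain ⟨u, v, huv⟩ := hk
  have ca : (a' : ℂ) = k * a + n * p := by
    have : a' = k * a + n * p := by linarith
    rw [this]; push_cast; ring
  have cb : (b' : ℂ) = k * b + n * q := by
    have : b' = k * b + n * q := by linarith
    rw [this]; push_cast; ring
  have cu : (u : ℂ) * k + v * n = 1 := by exact_mod_cast congrArg (Int.cast : ℤ → ℂ) huv
  constructor
  · rintro ⟨m, ⟨x1, x2⟩, rfl⟩
    refine ⟨m * u, (x1 - m * u * p + m * v * a, x2 - m * u * q + m * v * b), ?_⟩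
    unfold lat
    simp only
    push_cast
    rw [ca, cb]
    linear_combination (-(m : ℂ) * (a + b * τ)) * cu
  · rintro ⟨m, ⟨x1, x2⟩, rfl⟩
    refine ⟨m * k, (m * p + x1, m * q + x2), ?_⟩
    unfold lat
    simp only
    push_cast
    rw [ca, cb]
    ring

end Pool.Agent.LGO.F
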