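import Mathlib
import Pool.Agent.LGO.F.JLat
import Pool.Agent.LGO.F.JGcd
import Pool.Agent.LGO.Gal.NCM

/-!
# LGO/F (note 3060, step 3): the sublattices of cyclic index

`Λ = ℤ + ℤ τ`, without complex multiplication.  `IsJ τ n a b y`: `y` is the `j`-invariant of the lattice
`Λ_(n, (a, b)) = ℤ (a + b τ) + n Λ`; for `gcd(a, b, n) = 1` (`Cop n a b`) it has index `n` in `Λ` (it contains
`n Λ` with index `n`), with cyclic quotient, and every such lattice is of this form. (Definitions: `JBase.lean`.)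

PROOFS.  `IsJ.unique`: `jInv_eq_of_lat`.
`exists_maps`: `Cop.exists_coprime`: `a', b'` coprime, `a' d - b' c = 1` (Bezout), `g = (n d, n c; b', a')`, `det g = n`,
`τ' = act g τ` (`Gal/Basic.lean`: `mkDD`, `act`, `maps_act`), `isJ_of_maps` for `(a, b)` (`a b' - a' b` is divisible by `n`), `IsJ.unique`.
`exists_isJ`: the same construction.
`IsJ.isog`, `IsJ.mdeg`: `exists_maps`, `g` is primitive, `det_eq_mdeg` (`Gal/NCM.lean`).
`exists_of_mdeg`: `exists_prim_mdeg` (`H/MDeg.lean`): `g` primitive, `det g = n = mdeg`; `JInt_comb` for the rows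
`(g₁₁, g₁₀)`, `(g₀₁, g₀₀)`: `(a, b) = row₁ + y row₂` is primitive modulo `n`, the determinants with the rows are `± y n`, `∓ n`;
`isJ_of_maps`.
`mdeg_isJ`: `exists_maps` for both: `(u, v)`, `(u', v')`, `det = 1`, `g = (n v; u)`, `g' = (n' v'; u')` (rows). `h = g' adj(g)`
maps `τ_y` to `τ_y'` (`Maps.adj`, `Maps.mul`), its entries are `n α, δ, n n' β, n' γ` with `α = det(u', v)`, `δ = det(u, u')`,
`β = det(v', v)`, `γ = det(u, v')` up to signs, `αγ - βδ = ± 1`, `det h = n n'`. Let `t = gcd(n, n', det(u, u'))`. `t` divides all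
entries; if a prime power (or any `g`) divides all the entries, then `g ∣ δ`, `αγ` is a unit modulo `g`, so `g ∣ n`, `g ∣ n'`. So
`h = t h'`, `h'` primitive, `det h' = n n' / t²`, `det_eq_mdeg`. (`NonCM` of `τ_y`: `NCM.of_isog`, `ncm_jInv`.) `t` does not change if
`u, u'` are replaced by the congruent `(a, b)`, `(a', b')`.
-/

namespace Pool.Agent.LGO.F

open UpperHalfPlane Pool.Agent.Hhelper14.ZP Pool.Agent.Hhelper14.ZPL Pool.Agent.EllSch

variable {τ : ℍ} {n n' : ℕ} {a b a' b' : ℤ} {y y' : ℂ}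

private theorem JDef_ex (τ : ℍ) (hn : 0 < n) (h : Cop n a b) :
    ∃ (a' b' c d : ℤ) (τ' : ℍ), a' * d - b' * c = 1 ∧ (n : ℤ) ∣ a' - a ∧ (n : ℤ) ∣ b' - b ∧
      Maps !![(n : ℤ) * d, n * c; b', a'] τ τ' ∧ IsJ τ n a b (jInv τ') := by
  obtain ⟨a', b', ⟨u, v, huv⟩, ha, hb⟩ := h.exists_coprime hn
  have hdet : (!![(n : ℤ) * u, n * (-v); b', a']).det = n := by
    rw [Matrix.det_fin_two_of]
    linear_combination (n : ℤ) * huv
  have hm := Gal.maps_act hn (mkDD _ hdet) τ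
  refine ⟨a', b', -v, u, act hn (mkDD _ hdet) τ, by linear_combination huv, ha, hb, hm,
    isJ_of_maps hn hdet hm h ?_ ?_⟩
  · have e : a * (!![(n : ℤ) * u, n * (-v); b', a']) 1 0 -
        (!![(n : ℤ) * u, n * (-v); b', a']) 1 1 * b = a * (b' - b) - (a' - a) * b := by
      simp only [Matrix.of_apply, Matrix.cons_val', Matrix.cons_val_zero, Matrix.cons_val_one,
        Matrix.cons_val_fin_one]
      ring
    rw [e]
    exact dvd_sub (Dvd.dvd.mul_left hb _) (Dvd.dvd.mul_right ha _)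
  · have e : a * (!![(n : ℤ) * u, n * (-v); b', a']) 0 0 -
        (!![(n : ℤ) * u, n * (-v); b', a']) 0 1 * b = n * (a * u + v * b) := by
      simp only [Matrix.of_apply, Matrix.cons_val', Matrix.cons_val_zero, Matrix.cons_val_one,
        Matrix.cons_val_fin_one]
      ring
    rw [e]
    exact dvd_mul_right _ _

theorem exists_isJ (hn : 0 < n) (h : Cop n a b) : ∃ y, IsJ τ n a b y := by
  obtain ⟨a', b', c, d, τ', -, -, -, -, hy⟩ := JDef_ex τ hn h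
  exact ⟨_, hy⟩

theorem IsJ.unique (h : IsJ τ n a b y) (h' : IsJ τ n a b y') : y = y' := by
  obtain ⟨w, τ₁, hw, rfl, h1⟩ := h
  obtain ⟨w', τ₂, hw', rfl, h2⟩ := h'
  exact jInv_eq_of_lat hw hw' fun z => (h1 z).trans (h2 z).symm

/-- the lattice depends only on `(a, b)` modulo `n`, up to units -/
theorem IsJ.congr (h : IsJ τ n a b y) {k : ℤ} (hk : IsCoprime k n)
    (ha : (n : ℤ) ∣ a' - k * a) (hb : (n : ℤ) ∣ b' - k * b) : IsJ τ n a' b' y :=
  h.congr' hk ha hb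

/-- a basis of the lattice -/
theorem IsJ.exists_maps (hn : 0 < n) (h : Cop n a b) (hy : IsJ τ n a b y) :
    ∃ (a' b' c d : ℤ) (τ' : ℍ), a' * d - b' * c = 1 ∧ (n : ℤ) ∣ a' - a ∧ (n : ℤ) ∣ b' - b ∧
      y = jInv τ' ∧ Maps !![(n : ℤ) * d, n * c; b', a'] τ τ' := by
  obtain ⟨a', b', c, d, τ', h1, h2, h3, h4, h5⟩ := JDef_ex τ hn h
  exact ⟨a', b', c, d, τ', h1, h2, h3, hy.unique h5, h4⟩

theorem IsJ.isog (hn : 0 < n) (h : Cop n a b) (hy : IsJ τ n a b y) :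
    IsogDeg n (jInv τ) y := by
  obtain ⟨a', b', c, d, τ', h1, -, -, h4, h5⟩ := hy.exists_maps hn h
  refine ⟨τ, τ', _, ?_, h5, rfl, h4⟩
  rw [Matrix.det_fin_two_of]
  linear_combination (n : ℤ) * h1

theorem IsJ.mdeg (hcm : NonCM (τ : ℂ)) (hn : 0 < n) (h : Cop n a b) (hy : IsJ τ n a b y) :
    mdeg (jInv τ) y = n := by
  obtain ⟨a', b', c, d, τ', h1, -, -, rfl, h5⟩ := hy.exists_maps hn h
  have hdet : (!![(n : ℤ) * d, n * c; b', a']).det = n := by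
    rw [Matrix.det_fin_two_of]
    linear_combination (n : ℤ) * h1
  have hp : Prim !![(n : ℤ) * d, n * c; b', a'] := by
    intro k hk
    have k1 : (k : ℤ) ∣ b' := hk 1 0
    have k2 : (k : ℤ) ∣ a' := hk 1 1
    have k3 : (k : ℤ) ∣ 1 := by
      rw [← h1]
      exact dvd_sub (Dvd.dvd.mul_right k2 _) (Dvd.dvd.mul_right k1 _)
    exact Nat.dvd_one.1 (by exact_mod_cast k3)
  have h6 := det_eq_mdeg hcm (by rw [hdet]; exact_mod_cast hn) hp h5
  rw [hdet] at h6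
  exact_mod_cast h6.symm

theorem exists_of_mdeg (hcm : NonCM (τ : ℂ)) (h : ∃ N, 0 < N ∧ IsogDeg N (jInv τ) y) :
    ∃ a b, Cop (Pool.Agent.LGO.mdeg (jInv τ) y) a b ∧
      IsJ τ (Pool.Agent.LGO.mdeg (jInv τ) y) a b y := by
  obtain ⟨τ', rfl⟩ := j_surj y
  obtain ⟨g, hg, hpos, hp, hm⟩ := exists_prim_mdeg h
  have hn := mdeg_pos h
  obtain ⟨k, hk⟩ := JInt_comb hn (p := g 1 1) (q := g 1 0) (r := g 0 1) (s := g 0 0) (by
    intro l hl h1 h2 h3 h4
    apply hl.one_lt.ne'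
    apply hp
    intro i j
    fin_cases i <;> fin_cases j
    · exact h4
    · exact h3
    · exact h2
    · exact h1)
  refine ⟨_, _, hk, isJ_of_maps hn hg hm hk ?_ ?_⟩
  · refine ⟨-k, ?_⟩
    rw [← hg, Matrix.det_fin_two]
    ring
  · refine ⟨1, ?_⟩
    rw [← hg, Matrix.det_fin_two]
    ring

private theorem JDef_gcd {a₁ b₁ a₂ b₂ : ℤ} (ha : (n : ℤ) ∣ a₁ - a) (hb : (n : ℤ) ∣ b₁ - b)
    (ha' : (n' : ℤ) ∣ a₂ - a') (hb' : (n' : ℤ) ∣ b₂ - b') :
    Nat.gcd n (Nat.gcd n' (a₁ * b₂ - a₂ * b₁).natAbs) =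
      Nat.gcd n (Nat.gcd n' (a * b' - a' * b).natAbs) := by
  have key : ∀ k : ℕ, k ∣ n → k ∣ n' →
      ((k : ℤ) ∣ a₁ * b₂ - a₂ * b₁ ↔ (k : ℤ) ∣ a * b' - a' * b) := by
    intro k h1 h2
    have h3 : (k : ℤ) ∣ n := by exact_mod_cast h1
    have h4 : (k : ℤ) ∣ n' := by exact_mod_cast h2
    have h5 : (k : ℤ) ∣ (a₁ * b₂ - a₂ * b₁) - (a * b' - a' * b) := by
      have e : (a₁ * b₂ - a₂ * b₁) - (a * b' - a' * b) =
          (a₁ - a) * b₂ + a * (b₂ - b') - ((a₂ - a') * b₁ + a' * (b₁ - b)) := by ring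
      rw [e]
      exact dvd_sub (dvd_add (Dvd.dvd.mul_right (h3.trans ha) _) (Dvd.dvd.mul_left (h4.trans hb') _))
        (dvd_add (Dvd.dvd.mul_right (h4.trans ha') _) (Dvd.dvd.mul_left (h3.trans hb) _))
    constructor
    · intro h6
      have := dvd_sub h6 h5
      rwa [sub_sub_cancel] at this
    · intro h6
      have := dvd_add h5 h6
      rwa [sub_add_cancel] at this
  apply Nat.dvd_antisymm
  · have h1 := Nat.gcd_dvd_left n (Nat.gcd n' (a₁ * b₂ - a₂ * b₁).natAbs)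
    have h2 := (Nat.gcd_dvd_right n (Nat.gcd n' (a₁ * b₂ - a₂ * b₁).natAbs)).trans
      (Nat.gcd_dvd_left _ _)
    have h3 := (Nat.gcd_dvd_right n (Nat.gcd n' (a₁ * b₂ - a₂ * b₁).natAbs)).trans
      (Nat.gcd_dvd_right _ _)
    exact Nat.dvd_gcd h1 (Nat.dvd_gcd h2 (Int.natCast_dvd.1
      ((key _ h1 h2).1 (Int.natCast_dvd.2 h3))))
  · have h1 := Nat.gcd_dvd_left n (Nat.gcd n' (a * b' - a' * b).natAbs)
    have h2 := (Nat.gcd_dvd_right n (Nat.gcd n' (a * b' - a' * b).natAbs)).trans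
      (Nat.gcd_dvd_left _ _)
    have h3 := (Nat.gcd_dvd_right n (Nat.gcd n' (a * b' - a' * b).natAbs)).trans
      (Nat.gcd_dvd_right _ _)
    exact Nat.dvd_gcd h1 (Nat.dvd_gcd h2 (Int.natCast_dvd.1
      ((key _ h1 h2).2 (Int.natCast_dvd.2 h3))))

theorem mdeg_isJ (hcm : NonCM (τ : ℂ)) (hn : 0 < n) (hn' : 0 < n') (h : Cop n a b)
    (h' : Cop n' a' b') (hy : IsJ τ n a b y) (hy' : IsJ τ n' a' b' y') :
    Pool.Agent.LGO.mdeg y y' * (Nat.gcd n (Nat.gcd n' (a * b' - a' * b).natAbs)) ^ 2 = n * n' := by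
  have hiso := hy.isog hn h
  obtain ⟨a₁, b₁, c₁, d₁, τ₁, e1, ha, hb, rfl, hm⟩ := hy.exists_maps hn h
  obtain ⟨a₂, b₂, c₂, d₂, τ₂, e2, ha', hb', rfl, hm'⟩ := hy'.exists_maps hn' h'
  rw [← JDef_gcd ha hb ha' hb']
  obtain ⟨g, hp, hg, hdet⟩ := adj_prim hn hn' e1 e2
  have ht : 0 < Nat.gcd n (Nat.gcd n' (a₁ * b₂ - a₂ * b₁).natAbs) :=
    Nat.gcd_pos_of_pos_left _ hn
  have hM := hm.adj.mul hm'
  rw [hg, Maps.smul_iff (by exact_mod_cast ht.ne')] at hM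
  have hcm₁ : NonCM (τ₁ : ℂ) :=
    (ncm_jInv τ₁).1 (NCM.of_isog hn hiso ((ncm_jInv τ).2 hcm))
  have hpos : 0 < g.det := by
    have h1 : (0 : ℤ) < g.det *
        ((Nat.gcd n (Nat.gcd n' (a₁ * b₂ - a₂ * b₁).natAbs) : ℕ) : ℤ) ^ 2 := by
      rw [hdet]
      have i1 : (0 : ℤ) < n := by exact_mod_cast hn
      have i2 : (0 : ℤ) < n' := by exact_mod_cast hn'
      positivity
    exact (mul_pos_iff_of_pos_right (by positivity)).1 h1
  have h6 := det_eq_mdeg hcm₁ hpos hp hM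
  rw [h6] at hdet
  exact_mod_cast hdet

end Pool.Agent.LGO.F
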