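import Mathlib
import Pool.Agent.LGO.F.JDef
import Pool.Agent.LGO.Gal.JInj
import Pool.Agent.LGO.Mul.Main

/-!
# LGO/F (note 3060, sharp isogeny theorem): the imaginary part of a sublattice with a short vector

PROOF.  The lattice `L = ℤ (a + b τ) + g (ℤ + ℤ τ)` is `w₀ (ℤ + ℤ τ₀)` with `jInv τ₀ = z = jInv τ'` (`IsJ`), `τ' = γ • τ₀` (`Gal.j_inj`), so `L = w' (ℤ + ℤ τ')` for some `w' ≠ 0`
(compare `PE.bas` in `F/PSet.lean`).  `v' = - Q + P τ ∈ L`: `(a, b)` is primitive modulo `g` and `det((a, b), (- Q, P)) = a P + b Q ≡ 0` mod `g`: with `x a + y b + t g = 1`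
(`Cop`) `k = - x Q + y P` satisfies `k a ≡ - Q`, `k b ≡ P` mod `g`.  `v' ≠ 0`.  `τ'` is reduced: every nonzero vector of `w' (ℤ + ℤ τ')` has absolute value `≥ |w'|` (`|m + n τ'|² ≥ 1`).  So `|w'| ≤ |v'|`.
Area: `|w'|² Im τ' = g Im τ` (`L` has index `g` in `ℤ + ℤ τ`: the determinant of `(w', w' τ')` with respect to `(1, τ)` is `± g`; by `IsJ.exists_maps`: `L` has the basis
`(d g.., )`: `τ'' = (g d τ + g c) / (b' τ + a')`, `L = (a' + b' τ)(ℤ + ℤ τ'')`, `|a' + b' τ|² Im τ'' = g Im τ`; both are bases of the same lattice.)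
So `g Im τ = |w'|² Im τ' ≤ |v'|² Im τ'` and `|- Q + P τ|² ≤ 2 Q² + 2 P² (Re τ)² + P² (Im τ)² ≤ 2 Q² + 2 P² (Im τ)²` (`|Re τ| ≤ 1/2`, `(Im τ)² ≥ 3/4`).
-/

namespace Pool.Agent.LGO.F

open UpperHalfPlane Pool.Agent.Hhelper14.ZP Pool.Agent.EllSch

private theorem ShIm_im {σ ρ : ℂ} {p q r t : ℤ}
    (h : σ * ((r : ℂ) * ρ + t) = (p : ℂ) * ρ + q) :
    Complex.normSq ((r : ℂ) * ρ + t) * σ.im = ((p * t - q * r : ℤ) : ℝ) * ρ.im := by
  have e1 := congrArg Complex.re h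
  have e2 := congrArg Complex.im h
  simp only [Complex.mul_re, Complex.mul_im, Complex.add_re, Complex.add_im, Complex.intCast_re,
    Complex.intCast_im, zero_mul, sub_zero, add_zero] at e1 e2
  rw [Complex.normSq_apply]
  simp only [Complex.mul_re, Complex.mul_im, Complex.add_re, Complex.add_im, Complex.intCast_re,
    Complex.intCast_im, zero_mul, sub_zero, add_zero]
  push_cast
  linear_combination ((r : ℝ) * ρ.re + t) * e2 - ((r : ℝ) * ρ.im) * e1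

private theorem ShIm_red {τ : ℂ} (h : Red τ) {m n : ℤ} (hmn : m ≠ 0 ∨ n ≠ 0) :
    1 ≤ Complex.normSq ((m : ℂ) * τ + n) := by
  have h1 : Complex.normSq ((m : ℂ) * τ + n) =
      (m : ℝ) ^ 2 * Complex.normSq τ + 2 * m * n * τ.re + (n : ℝ) ^ 2 := by
    rw [Complex.normSq_apply, Complex.normSq_apply]
    simp only [Complex.mul_re, Complex.mul_im, Complex.add_re, Complex.add_im, Complex.intCast_re,
      Complex.intCast_im, zero_mul, sub_zero, add_zero]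
    ring
  have h2 : 1 ≤ Complex.normSq τ := by
    rw [Complex.normSq_eq_norm_sq]
    exact one_le_pow₀ h.one_le
  have h3 : |2 * (m : ℝ) * n * τ.re| ≤ |(m : ℝ)| * |(n : ℝ)| := by
    rw [abs_mul, abs_mul, abs_mul, abs_of_pos (by norm_num : (0 : ℝ) < 2)]
    calc 2 * |(m : ℝ)| * |(n : ℝ)| * |τ.re| ≤ 2 * |(m : ℝ)| * |(n : ℝ)| * (1 / 2) :=
          mul_le_mul_of_nonneg_left h.re_le (by positivity)
      _ = _ := by ring
  have h4 : (1 : ℤ) ≤ |m| ^ 2 - |m| * |n| + |n| ^ 2 := by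
    have h5 : 0 < 4 * (|m| ^ 2 - |m| * |n| + |n| ^ 2) := by
      have e : 4 * (|m| ^ 2 - |m| * |n| + |n| ^ 2) = (2 * |m| - |n|) ^ 2 + 3 * |n| ^ 2 := by ring
      rw [e]
      by_cases hn : n = 0
      · have hm : m ≠ 0 := by
          rcases hmn with h6 | h6
          · exact h6
          · exact absurd hn h6
        have h7 : 0 < |m| := abs_pos.2 hm
        rw [hn, abs_zero]
        have h8 : 0 < (2 * |m| - 0) ^ 2 := by
          apply pow_pos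
          linarith
        linarith
      · have h7 : 0 < |n| := abs_pos.2 hn
        have h8 : 0 < |n| ^ 2 := pow_pos h7 2
        have h9 : 0 ≤ (2 * |m| - |n|) ^ 2 := sq_nonneg _
        linarith
    linarith
  have h5 : (1 : ℝ) ≤ |(m : ℝ)| ^ 2 - |(m : ℝ)| * |(n : ℝ)| + |(n : ℝ)| ^ 2 := by exact_mod_cast h4
  rw [h1]
  have h6 := (abs_le.1 h3).1
  have h7 : (m : ℝ) ^ 2 ≤ (m : ℝ) ^ 2 * Complex.normSq τ := le_mul_of_one_le_right (sq_nonneg _) h2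
  rw [sq_abs, sq_abs] at h5
  linarith

private theorem ShIm_orb {σ τ : ℍ} (hj : jInv σ = jInv τ) (hτ : Red (τ : ℂ)) {c d : ℤ}
    (hcd : c ≠ 0 ∨ d ≠ 0) :
    (σ : ℂ).im ≤ Complex.normSq ((c : ℂ) * σ + d) * (τ : ℂ).im := by
  obtain ⟨γ, hγ⟩ := Gal.j_inj hj
  have hdet : γ 0 0 * γ 1 1 - γ 0 1 * γ 1 0 = 1 := by
    have := γ.det_coe
    rwa [Matrix.det_fin_two] at this
  set z : ℂ := (γ 1 0 : ℂ) * τ + (γ 1 1 : ℂ) with hz
  have hz0 : z ≠ 0 := by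
    intro h0
    have h1 : (γ 1 0 : ℝ) * (τ : ℂ).im = 0 := by
      have := congrArg Complex.im h0
      simpa [hz] using this
    have h2 : (γ 1 0 : ℝ) = 0 := (mul_eq_zero.1 h1).resolve_right τ.im_pos.ne'
    have h3 : γ 1 0 = 0 := by exact_mod_cast h2
    rw [hz, h3] at h0
    have h4 : γ 1 1 = 0 := by
      have : ((γ 1 1 : ℤ) : ℂ) = 0 := by simpa using h0
      exact_mod_cast this
    rw [h3, h4] at hdet
    simp at hdet
  have happ : (σ : ℂ) = ((γ 0 0 : ℂ) * τ + (γ 0 1 : ℂ)) / z := by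
    rw [hγ, UpperHalfPlane.coe_specialLinearGroup_apply]
    simp [hz]
  have hmul : (σ : ℂ) * z = (γ 0 0 : ℂ) * τ + (γ 0 1 : ℂ) := by
    rw [happ, div_mul_cancel₀ _ hz0]
  have him := ShIm_im hmul
  rw [← hz, hdet] at him
  have e1 : ((c : ℂ) * σ + d) * z =
      ((c * γ 0 0 + d * γ 1 0 : ℤ) : ℂ) * τ + ((c * γ 0 1 + d * γ 1 1 : ℤ) : ℂ) := by
    have e2 : ((c : ℂ) * σ + d) * z = c * (σ * z) + d * z := by ring
    rw [e2, hmul, hz]
    push_cast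
    ring
  have hne : c * γ 0 0 + d * γ 1 0 ≠ 0 ∨ c * γ 0 1 + d * γ 1 1 ≠ 0 := by
    by_contra hcon
    rw [not_or, not_not, not_not] at hcon
    obtain ⟨k1, k2⟩ := hcon
    have k3 : c = 0 := by
      linear_combination (γ 1 1) * k1 - (γ 1 0) * k2 - c * hdet
    have k4 : d = 0 := by
      linear_combination (γ 0 0) * k2 - (γ 0 1) * k1 - d * hdet
    rcases hcd with h1 | h1
    · exact h1 k3
    · exact h1 k4
  have h1 := ShIm_red hτ hne
  rw [← e1, Complex.normSq_mul] at h1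
  have hσ : 0 < (σ : ℂ).im := σ.im_pos
  calc (σ : ℂ).im ≤ Complex.normSq ((c : ℂ) * σ + d) * Complex.normSq z * (σ : ℂ).im :=
        le_mul_of_one_le_left hσ.le h1
    _ = Complex.normSq ((c : ℂ) * σ + d) * (Complex.normSq z * (σ : ℂ).im) := by ring
    _ = Complex.normSq ((c : ℂ) * σ + d) * (τ : ℂ).im := by
        rw [him]
        push_cast
        ring

theorem sh_im {τ τ' : ℍ} {g : ℕ} {a b P Q : ℤ} (hτ : Red (τ : ℂ)) (hτ' : Red (τ' : ℂ))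
    (hg : 1 ≤ g) (hc : Cop g a b) (hz : IsJ τ g a b (jInv τ')) (hd : (g : ℤ) ∣ a * P + b * Q)
    (hPQ : IsCoprime P Q) :
    (g : ℝ) ≤ 4 * (τ' : ℂ).im * (P ^ 2 * τ.im + Q ^ 2 / τ.im) := by
  obtain ⟨a', b', c, d, τ'', h1, ha, hb, hj, hm⟩ := hz.exists_maps hg hc
  unfold Maps at hm
  simp only [Matrix.of_apply, Matrix.cons_val', Matrix.cons_val_zero, Matrix.cons_val_one,
    Matrix.cons_val_fin_one] at hm
  have him := ShIm_im hm
  have e0 : ((g : ℤ) * d * a' - g * c * b' : ℤ) = g := by linear_combination (g : ℤ) * h1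
  rw [e0] at him
  -- coordinates of the short vector
  obtain ⟨c₀, hc₀⟩ : (g : ℤ) ∣ a' * P + b' * Q := by
    have e : a' * P + b' * Q = (a * P + b * Q) + ((a' - a) * P + (b' - b) * Q) := by ring
    rw [e]
    exact dvd_add hd (dvd_add (Dvd.dvd.mul_right ha _) (Dvd.dvd.mul_right hb _))
  set d₀ : ℤ := -(Q * d) - P * c with hd₀
  have hgz : (g : ℤ) ≠ 0 := by
    have : (0 : ℤ) < g := by exact_mod_cast hg
    exact this.ne'
  have k1 : d₀ * a' + c₀ * (g * c) = -Q := by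
    rw [hd₀]
    linear_combination (-c) * hc₀ - Q * h1
  have k2 : d₀ * b' + c₀ * (g * d) = P := by
    rw [hd₀]
    linear_combination (-d) * hc₀ + P * h1
  have hv : ((b' : ℂ) * τ + a') * ((c₀ : ℂ) * τ'' + d₀) = (P : ℂ) * τ + ((-Q : ℤ) : ℂ) := by
    have e : ((b' : ℂ) * τ + a') * ((c₀ : ℂ) * τ'' + d₀) =
        c₀ * ((τ'' : ℂ) * ((b' : ℂ) * τ + a')) + d₀ * ((b' : ℂ) * τ + a') := by ring
    rw [e, hm, ← k1, ← k2]
    push_cast
    ring
  have hne : c₀ ≠ 0 ∨ d₀ ≠ 0 := by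
    by_contra hcon
    rw [not_or, not_not, not_not] at hcon
    obtain ⟨k3, k4⟩ := hcon
    rw [k3, k4] at k1 k2
    obtain ⟨x, y, hxy⟩ := hPQ
    have k5 : P = 0 := by linarith
    have k6 : Q = 0 := by linarith
    rw [k5, k6] at hxy
    simp at hxy
  have horb := ShIm_orb hj.symm hτ' hne
  have hT : 0 < τ.im := τ.im_pos
  have hTc : (τ : ℂ).im = τ.im := rfl
  have hT' : 0 < (τ' : ℂ).im := hτ'.im_pos
  have key : (g : ℝ) * τ.im ≤ Complex.normSq ((P : ℂ) * τ + ((-Q : ℤ) : ℂ)) * (τ' : ℂ).im := by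
    rw [← hv, Complex.normSq_mul]
    have h5 := mul_le_mul_of_nonneg_left horb (Complex.normSq_nonneg ((b' : ℂ) * τ + a'))
    rw [him] at h5
    rw [hTc] at h5
    calc (g : ℝ) * τ.im = ((g : ℤ) : ℝ) * τ.im := by push_cast; ring
      _ ≤ _ := h5
      _ = _ := by ring
  -- size of the short vector
  have hn : Complex.normSq ((P : ℂ) * τ + ((-Q : ℤ) : ℂ)) =
      ((P : ℝ) * (τ : ℂ).re - Q) ^ 2 + (P : ℝ) ^ 2 * τ.im ^ 2 := by
    rw [Complex.normSq_apply]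
    simp only [Complex.mul_re, Complex.mul_im, Complex.add_re, Complex.add_im, Complex.intCast_re,
      Complex.intCast_im, zero_mul, sub_zero, add_zero, hTc]
    push_cast
    ring
  have hre : ((τ : ℂ).re) ^ 2 ≤ 1 / 4 := by
    have h5 := hτ.re_le
    rw [← sq_abs]
    calc |(τ : ℂ).re| ^ 2 ≤ (1 / 2) ^ 2 := pow_le_pow_left₀ (abs_nonneg _) h5 2
      _ = 1 / 4 := by norm_num
  have him2 : 3 / 4 ≤ τ.im ^ 2 := by
    have h5 : 1 ≤ Complex.normSq (τ : ℂ) := by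
      rw [Complex.normSq_eq_norm_sq]
      exact one_le_pow₀ hτ.one_le
    rw [Complex.normSq_apply, hTc] at h5
    linarith [sq (τ : ℂ).re, sq τ.im]
  have hbd : Complex.normSq ((P : ℂ) * τ + ((-Q : ℤ) : ℂ)) ≤
      4 * ((P : ℝ) ^ 2 * τ.im ^ 2 + (Q : ℝ) ^ 2) := by
    rw [hn]
    have h5 : ((P : ℝ) * (τ : ℂ).re - Q) ^ 2 ≤ 2 * ((P : ℝ) ^ 2 * (τ : ℂ).re ^ 2) + 2 * (Q : ℝ) ^ 2 := by
      linarith [sq_nonneg ((P : ℝ) * (τ : ℂ).re + Q)]
    have h6 : (P : ℝ) ^ 2 * (τ : ℂ).re ^ 2 ≤ (P : ℝ) ^ 2 * (1 / 4) :=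
      mul_le_mul_of_nonneg_left hre (sq_nonneg _)
    have h7 : (P : ℝ) ^ 2 * (3 / 4) ≤ (P : ℝ) ^ 2 * τ.im ^ 2 :=
      mul_le_mul_of_nonneg_left him2 (sq_nonneg _)
    linarith [sq_nonneg (Q : ℝ), sq_nonneg (P : ℝ)]
  have hfin : (g : ℝ) * τ.im ≤ 4 * ((P : ℝ) ^ 2 * τ.im ^ 2 + (Q : ℝ) ^ 2) * (τ' : ℂ).im :=
    key.trans (mul_le_mul_of_nonneg_right hbd hT'.le)
  have e5 : 4 * (τ' : ℂ).im * ((P : ℝ) ^ 2 * τ.im + (Q : ℝ) ^ 2 / τ.im) =
      4 * ((P : ℝ) ^ 2 * τ.im ^ 2 + (Q : ℝ) ^ 2) * (τ' : ℂ).im / τ.im := by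
    field_simp
  rw [e5, le_div_iff₀ hT]
  exact hfin

end Pool.Agent.LGO.F
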