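import Mathlib

/-!
# LGO/F (note 3060, sharp isogeny theorem): absorption of a logarithm

PROOF.  `log N = 4 log N^(1/4) ≤ 4 N^(1/4)`.  If `N^(1/4) ≤ 8 A`: `N ≤ (8 A)^4`.  Otherwise `4 A N^(1/4) ≤ √N / 2` (`√N = (N^(1/4))²`), so `√N ≤ 2 A h`, `N ≤ 4 A² h²`.
-/

namespace Pool.Agent.LGO.F

theorem sh_num {A h N : ℝ} (hA : 1 ≤ A) (hh : 1 ≤ h) (hN : 1 ≤ N)
    (H : √N ≤ A * (h + Real.log N)) : N ≤ (16 * A) ^ 4 * h ^ 2 := by
  have hN0 : (0 : ℝ) ≤ N := by linarith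
  have hs : √N * √N = N := Real.mul_self_sqrt hN0
  set s : ℝ := √N with hsdef
  have hs0 : 0 ≤ s := Real.sqrt_nonneg N
  have hr : √s * √s = s := Real.mul_self_sqrt hs0
  set r : ℝ := √s with hrdef
  have hr0 : 0 ≤ r := Real.sqrt_nonneg s
  have hN4 : N = r ^ 4 := by
    rw [← hs, ← hr]; ring
  have hrpos : 0 < r := by
    rcases hr0.lt_or_eq with h1 | h1
    · exact h1
    · exfalso
      rw [← h1] at hN4
      norm_num at hN4
      linarith
  have hlog : Real.log N ≤ 4 * r := by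
    rw [hN4, Real.log_pow]
    have h1 := Real.log_le_sub_one_of_pos hrpos
    push_cast
    nlinarith
  have hA0 : 0 < A := by linarith
  have hh2 : (1 : ℝ) ≤ h ^ 2 := one_le_pow₀ hh
  by_cases hc : r ≤ 8 * A
  · have h1 : r ^ 4 ≤ (8 * A) ^ 4 := pow_le_pow_left₀ hr0 hc 4
    have h2 : (8 * A) ^ 4 ≤ (16 * A) ^ 4 := pow_le_pow_left₀ (by positivity) (by linarith) 4
    have h3 : (0 : ℝ) ≤ (16 * A) ^ 4 := by positivity
    rw [hN4]
    nlinarith
  · have hc' : 8 * A < r := not_le.mp hc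
    have h1 : s ≤ A * (h + 4 * r) := H.trans (mul_le_mul_of_nonneg_left (by linarith) hA0.le)
    have h2 : 4 * A * r ≤ s / 2 := by
      rw [← hr]
      nlinarith
    have h3 : s ≤ 2 * A * h := by nlinarith
    have h4 : N ≤ (2 * A * h) ^ 2 := by
      rw [← hs, sq]
      exact mul_self_le_mul_self hs0 h3
    have h5 : (2 * A * h) ^ 2 = (4 * A ^ 2) * h ^ 2 := by ring
    have h6 : 4 * A ^ 2 ≤ (16 * A) ^ 4 := by
      have : (1 : ℝ) ≤ A ^ 2 := one_le_pow₀ hA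
      nlinarith [sq_nonneg (A ^ 2)]
    rw [h5] at h4
    exact h4.trans (mul_le_mul_of_nonneg_right h6 (by positivity))

end Pool.Agent.LGO.F
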