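import Mathlib
import Pool.Agent.LGO.F.ShIm
import Pool.Agent.LGO.F.ShNum
import Pool.Agent.LGO.F.PFin
import Pool.Agent.LGO.F.Tri
import Pool.Agent.LGO.F.Cen
import Pool.Agent.LGO.F.AsTri
import Pool.Agent.LGO.PC.HtBd

/-!
# LGO/F (note 3060, step 5): the sharp isogeny theorem

PROOF of `sharpB`.  `τ` reduced, `jInv τ = x` (`exists_red`, `Gal/Basic.lean`), `NonCM τ` (`ncm_jInv`).  `N = mdeg x y`, `exists_of_mdeg`: `a, b`, `Cop N a b`, `IsJ τ N a b y`.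
`engine_P` with `Y = C D (h + 1 + log N)`: let `P, Q` be coprime, `g = gcd(a P + b Q, N)`, `g ∣ N`.  `exists_isJ`: `z` with `IsJ τ g a b z`; `mdeg x z = g` (`IsJ.mdeg`), `mdeg z y = N / g` (`mdeg_isJ` with the same
`(a, b)`), so `z ∈ K` (`mid_mem`; `x` is algebraic: `Bd`), and `ht_bd`: `‖z‖ ≤ exp (C D (h + 1 + log g))` (`Bd.aut` with the identity).  `τ'` reduced with `jInv τ' = z`: `exp (2 π Im τ') ≤ C (1 + ‖z‖)`
(`Cen_exp_im_le` in `F/Cen.lean`), so `Im τ' ≤ C D (h + 1 + log N)`; `sh_im`.  Then `√N ≤ C D² (h + 1 + log N) ≤ 2 C D² (h + log N)`, `sh_num`: `N ≤ (32 C D²)^4 h²`, which is `≤ (C' D)^C' h²`.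
`sharp`: `bd_of_aut` (`H/BdC.lean`).
-/

namespace Pool.Agent.LGO.F

open UpperHalfPlane Pool.Agent.Hhelper14.ZP

/-- from `exp (2 π t) ≤ C (1 + u)` and `u ≤ exp M` -/
private theorem Sharp_im {C t u M : ℝ} (hM : 0 ≤ M) (ht : 0 ≤ t)
    (h : Real.exp (2 * Real.pi * t) ≤ C * (1 + u)) (hC0 : 0 < C)
    (hu : u ≤ Real.exp M) : t ≤ |Real.log (2 * C)| + M := by
  have h1 : Real.exp (2 * Real.pi * t) ≤ 2 * C * Real.exp M := by
    have h2 : 1 ≤ Real.exp M := Real.one_le_exp hM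
    nlinarith
  have h2 : 2 * C * Real.exp M ≤ Real.exp (|Real.log (2 * C)| + M) := by
    rw [Real.exp_add]
    refine mul_le_mul_of_nonneg_right ?_ (Real.exp_pos M).le
    calc 2 * C = Real.exp (Real.log (2 * C)) := (Real.exp_log (by linarith)).symm
      _ ≤ _ := Real.exp_le_exp.2 (le_abs_self _)
  have h3 := Real.exp_le_exp.1 (h1.trans h2)
  have h4 : t ≤ 2 * Real.pi * t := by
    have := Real.pi_gt_three
    nlinarith
  linarith

/-- the intermediate point of degree `g` is in `K`, and its height is bounded -/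
private theorem Sharp_mid {C : ℝ} {K : IntermediateField ℚ ℂ} [FiniteDimensional ℚ K]
    (hht : ∀ (M : ℝ) (x y : ℂ), Bd K M x → y ∈ K → NCM x → (∃ N, 0 < N ∧ IsogDeg N x y) →
      Bd K (C * Module.finrank ℚ K * (M + 1 + Real.log (mdeg x y))) y)
    {τ : ℍ} {y : ℂ} {h : ℝ} {N g : ℕ} {a b : ℤ} (hx : Bd K h (jInv τ)) (hy : y ∈ K)
    (hcm : NonCM (τ : ℂ)) (hN : 0 < N) (hc : Cop N a b) (hJ : IsJ τ N a b y)
    (hg : 0 < g) (hgN : g ∣ N) :
    ∃ z, IsJ τ g a b z ∧ Cop g a b ∧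
      Bd K (C * Module.finrank ℚ K * (h + 1 + Real.log g)) z := by
  have hcg : Cop g a b := fun d h1 h2 h3 => hc d h1 h2 (h3.trans (by exact_mod_cast hgN))
  obtain ⟨z, hz⟩ := exists_isJ (τ := τ) hg hcg
  have hxN : NCM (jInv τ) := (ncm_jInv τ).2 hcm
  have hxz : ∃ M, 0 < M ∧ IsogDeg M (jInv τ) z := ⟨g, hg, hz.isog hg hcg⟩
  have hxy : ∃ M, 0 < M ∧ IsogDeg M (jInv τ) y := ⟨N, hN, hJ.isog hN hc⟩
  have h1 : mdeg (jInv τ) z = g := hz.mdeg hcm hg hcg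
  have h2 : mdeg (jInv τ) y = N := hJ.mdeg hcm hN hc
  have h3 := mdeg_isJ hcm hg hN hcg hc hz hJ
  rw [sub_self, Int.natAbs_zero, Nat.gcd_zero_right, Nat.gcd_eq_left hgN] at h3
  have h4 : mdeg (jInv τ) z * mdeg z y = mdeg (jInv τ) y := by
    rw [h1, h2]
    apply Nat.eq_of_mul_eq_mul_left hg
    rw [← h3]
    ring
  have halg : IsAlgebraic ℚ (jInv τ) := by
    have h5 : IsAlgebraic ℚ (⟨jInv τ, hx.mem⟩ : K) := Algebra.IsAlgebraic.isAlgebraic _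
    exact h5.algebraMap
  have hzK : z ∈ K := mid_mem K hx.mem hy hxN halg hxy hxz h4
  refine ⟨z, hz, hcg, ?_⟩
  have h6 := hht h (jInv τ) z hx hzK hxN hxz
  rwa [h1] at h6

private theorem Sharp_fin {c D h N : ℝ} (hc : 1 ≤ c) (hD : 1 ≤ D) {C : ℕ}
    (hC : 8 ≤ C) (hcC : 16 * c ≤ C) (H : N ≤ (16 * (c * D ^ 2)) ^ 4 * h ^ 2) :
    N ≤ ((C : ℝ) * D) ^ C * h ^ 2 := by
  refine H.trans (mul_le_mul_of_nonneg_right ?_ (sq_nonneg h))
  have h1 : (1 : ℝ) ≤ C * D := by nlinarith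
  have h2 : (C * D) ^ 8 ≤ ((C : ℝ) * D) ^ C := pow_le_pow_right₀ h1 hC
  refine le_trans ?_ h2
  have h3 : (16 * (c * D ^ 2)) ^ 4 = (16 * c) ^ 4 * D ^ 8 := by ring
  have h4 : (C * D) ^ 8 = (C : ℝ) ^ 8 * D ^ 8 := by ring
  rw [h3, h4]
  refine mul_le_mul_of_nonneg_right ?_ (by positivity)
  calc (16 * c) ^ 4 ≤ (C : ℝ) ^ 4 := pow_le_pow_left₀ (by linarith) hcC 4
    _ ≤ (C : ℝ) ^ 8 := pow_le_pow_right₀ (by linarith) (by norm_num)

theorem sharpB : ∃ C : ℕ, 1 ≤ C ∧ ∀ (K : IntermediateField ℚ ℂ) [FiniteDimensional ℚ K]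
    (x y : ℂ) (h : ℝ), 1 ≤ h → Bd K h x → Bd K h y → NCM x → (∃ N, 0 < N ∧ IsogDeg N x y) →
    (mdeg x y : ℝ) ≤ ((C : ℝ) * Module.finrank ℚ K) ^ C * h ^ 2 := by
  obtain ⟨Ce, hCe, heng⟩ := engine_P
  obtain ⟨Ch, hCh, hht⟩ := Pool.Agent.LGO.PC.ht_bd
  obtain ⟨Ci, hCi, him⟩ := Cen_exp_im_le
  obtain ⟨L, hL⟩ : ∃ L : ℝ, L = |Real.log (2 * Ci)| := ⟨_, rfl⟩
  have hL0 : 0 ≤ L := by
    rw [hL]
    exact abs_nonneg _
  obtain ⟨c, hc⟩ : ∃ c : ℝ, c = 2 * Ce * (1 + 4 * L + 4 * Ch) := ⟨_, rfl⟩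
  have hc1 : 1 ≤ c := by
    rw [hc]
    nlinarith
  refine ⟨⌈16 * c⌉₊ + 8, by omega, ?_⟩
  intro K _ x y h hh hx hy hN hiso
  obtain ⟨τ, hτ, rfl⟩ := exists_red x
  have hcm : NonCM (τ : ℂ) := (ncm_jInv τ).1 hN
  obtain ⟨a, b, hcop, hJ⟩ := exists_of_mdeg hcm hiso
  obtain ⟨N, hNdef⟩ : ∃ N : ℕ, N = mdeg (jInv τ) y := ⟨_, rfl⟩
  rw [← hNdef] at hcop hJ ⊢
  have hNpos : 0 < N := by
    rw [hNdef]
    exact mdeg_pos hiso
  have hN1 : (1 : ℝ) ≤ N := by exact_mod_cast hNpos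
  have hlog : 0 ≤ Real.log N := Real.log_nonneg hN1
  obtain ⟨D, hDdef⟩ : ∃ D : ℝ, D = (Module.finrank ℚ K : ℝ) := ⟨_, rfl⟩
  have hD : 1 ≤ D := by
    rw [hDdef]
    exact_mod_cast Module.finrank_pos (R := ℚ) (M := K)
  obtain ⟨E, hE⟩ : ∃ E : ℝ, E = h + 1 + Real.log N := ⟨_, rfl⟩
  have hE2 : 2 ≤ E := by
    rw [hE]
    linarith
  have hCD : 1 ≤ Ch * D := one_le_mul_of_one_le_of_one_le hCh hD
  have hY : 1 ≤ 4 * (L + Ch * D * E) := by nlinarith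
  have key := heng K (jInv τ) y h (4 * (L + Ch * D * E)) τ N a b hh hx hy hcm hτ rfl hNpos
    hcop hJ hY ?_
  · rw [← hDdef, ← hE] at key
    have h1 : Ce * (D ^ 2 * E + 4 * (L + Ch * D * E)) ≤ c * D ^ 2 * (h + Real.log N) := by
      have e1 : E ≤ 2 * (h + Real.log N) := by
        rw [hE]
        linarith
      have e2 : L ≤ L * (D ^ 2 * E) := by
        refine le_mul_of_one_le_right hL0 ?_
        nlinarith
      have e3 : D * E ≤ D ^ 2 * E :=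
        mul_le_mul_of_nonneg_right (by nlinarith) (by linarith)
      have e4 : Ch * D * E ≤ Ch * (D ^ 2 * E) := by
        rw [mul_assoc]
        exact mul_le_mul_of_nonneg_left e3 (by linarith)
      have e5 : D ^ 2 * E + 4 * (L + Ch * D * E) ≤ (1 + 4 * L + 4 * Ch) * (D ^ 2 * E) := by
        nlinarith
      have e6 : 0 ≤ Ce * (1 + 4 * L + 4 * Ch) * D ^ 2 := by
        have : 0 ≤ 1 + 4 * L + 4 * Ch := by linarith
        positivity
      calc Ce * (D ^ 2 * E + 4 * (L + Ch * D * E))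
          ≤ Ce * ((1 + 4 * L + 4 * Ch) * (D ^ 2 * E)) :=
            mul_le_mul_of_nonneg_left e5 (by linarith)
        _ = Ce * (1 + 4 * L + 4 * Ch) * D ^ 2 * E := by ring
        _ ≤ Ce * (1 + 4 * L + 4 * Ch) * D ^ 2 * (2 * (h + Real.log N)) :=
            mul_le_mul_of_nonneg_left e1 e6
        _ = c * D ^ 2 * (h + Real.log N) := by
            rw [hc]
            ring
    have hA : 1 ≤ c * D ^ 2 := one_le_mul_of_one_le_of_one_le hc1 (one_le_pow₀ hD)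
    have h2 := sh_num hA hh hN1 (key.trans h1)
    rw [← hDdef]
    refine Sharp_fin hc1 hD (by omega) ?_ h2
    push_cast
    have := Nat.le_ceil (16 * c)
    linarith
  · intro P Q hPQ
    obtain ⟨g, hgdef⟩ : ∃ g : ℕ, g = Int.gcd (a * P + b * Q) N := ⟨_, rfl⟩
    have hg : 0 < g := by
      rw [hgdef]
      exact Int.gcd_pos_of_ne_zero_right _ (by exact_mod_cast hNpos.ne')
    have hgN : g ∣ N := by
      rw [hgdef]
      exact_mod_cast Int.gcd_dvd_right (a * P + b * Q) (N : ℤ)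
    have hgd : (g : ℤ) ∣ a * P + b * Q := by
      rw [hgdef]
      exact Int.gcd_dvd_left (a * P + b * Q) (N : ℤ)
    obtain ⟨z, hz, hcg, hbd⟩ := Sharp_mid (C := Ch) (fun M x y => hht K M x y) hx hy.mem hcm
      hNpos hcop hJ hg hgN
    obtain ⟨τ', hτ', rfl⟩ := exists_red z
    have hbz := hbd.aut (RingEquiv.refl ℂ)
    rw [RingEquiv.refl_apply] at hbz
    have hg1 : (1 : ℝ) ≤ g := by exact_mod_cast hg
    have hgle : (g : ℝ) ≤ N := by exact_mod_cast Nat.le_of_dvd hNpos hgN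
    have hlg : Real.log g ≤ Real.log N := Real.log_le_log (by linarith) hgle
    have hlg0 : 0 ≤ Real.log g := Real.log_nonneg hg1
    have hM : Ch * (Module.finrank ℚ K : ℝ) * (h + 1 + Real.log g) ≤ Ch * D * E := by
      rw [hE, ← hDdef]
      refine mul_le_mul_of_nonneg_left (by linarith) (by linarith)
    have hM0 : 0 ≤ Ch * (Module.finrank ℚ K : ℝ) * (h + 1 + Real.log g) := by
      rw [← hDdef]
      exact mul_nonneg (by linarith) (by linarith)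
    have him' : τ'.im ≤ L + Ch * D * E := by
      have h1 := Sharp_im hM0 τ'.im_pos.le (him τ') hCi hbz
      rw [← hL] at h1
      linarith
    have h5 := sh_im hτ hτ' hg hcg hz hgd hPQ
    rw [← hgdef]
    refine h5.trans (mul_le_mul_of_nonneg_right ?_ ?_)
    · have : (τ' : ℂ).im = τ'.im := rfl
      rw [this]
      linarith
    · have := τ.im_pos
      positivity

/-- **the sharp isogeny theorem** -/
theorem sharp : SharpAll := by
  obtain ⟨C, hC, H⟩ := sharpB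
  refine ⟨C, ?_⟩
  intro K _ x y h hx hy hN hix hiy hiso hh hsx hsy
  exact H K x y h hh (bd_of_aut hx hix (by linarith) hsx) (bd_of_aut hy hiy (by linarith) hsy)
    hN hiso

end Pool.Agent.LGO.F
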