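import Pool.Agent.LGO.F.Tor
import Pool.Agent.LGO.Mul.Gal
import Pool.Agent.LGO.H.BdC

/-!
# LGO/F: fixed points of automorphisms

PROOFS. `mem_of_fixed`: `AHC.exists_aut_ne K.toSubfield (AHC.mem_cl_empty halg)` (see `mul_mem` in `Mul/Gal.lean`).
`isAlgebraic_of_isog`: `x` algebraic, `IsogDeg N x y`: modular polynomial, or: the orbit of `y` under the automorphisms which fix
`x` is finite (there are finitely many `y` with `IsogDeg N x y`, `Gal/Fin.lean`), or an existing lemma (grep `isAlgebraic`,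
`IsogDeg` in `LGO/Gal`, `LGO/H`, `LGO/Mul`).
`IsJ.eq_iff`: `mdeg_isJ` for `n = n'`: `mdeg y y' * gcd(n, det)² = n²`; `mdeg y y' = 1` iff `y = y'` (`IsogDeg 1`: a matrix of determinant
`1`, `jInv_smul`); or: `n ∣ det` gives `y = y'` by `Cop.exists_mul`, `Cop.isCoprime`, `IsJ.congr`, `IsJ.unique`.
-/

namespace Pool.Agent.LGO.F

open UpperHalfPlane Pool.Agent.Hhelper14.ZP Pool.Agent.EllSch

theorem mem_of_fixed (K : IntermediateField ℚ ℂ) {y : ℂ} (hy : IsAlgebraic ℚ y)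
    (h : ∀ s : ℂ ≃+* ℂ, (∀ z ∈ K, s z = z) → s y = y) : y ∈ K := by
  by_contra hK
  obtain ⟨σ, hσ, hne⟩ := AHC.exists_aut_ne K.toSubfield (AHC.mem_cl_empty hy) hK
  exact hne (h σ hσ)

theorem isAlgebraic_of_isog {x y : ℂ} (hx : IsAlgebraic ℚ x) (h : ∃ N, 0 < N ∧ IsogDeg N x y) :
    IsAlgebraic ℚ y := by
  obtain ⟨N, hN, hxy⟩ := h
  by_contra hy
  have hy' : y ∉ AHC.cl ∅ := fun h => hy (AHC.isAlgebraic_of_mem_cl_empty h)
  obtain ⟨τ, rfl⟩ := Pool.Agent.Hhelper14.ZPL.j_surj x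
  have hfin : ({y' : ℂ | IsogDeg N (jInv τ) y'}).Finite := by
    have := finite_QQ hN
    refine (Set.finite_range (fun q : QQ N => jQ hN q τ)).subset ?_
    intro y' hy'
    obtain ⟨q, hq⟩ := (Gal.isogDeg_iff_jQ hN τ y').mp hy'
    exact ⟨q, hq.symm⟩
  have hall : ∀ k : ℕ, y + k ∈ ({y' : ℂ | IsogDeg N (jInv τ) y'}) := by
    intro k
    have hk : y + k ∉ AHC.cl ∅ := by
      intro h
      apply hy
      have h1 := AHC.isAlgebraic_of_mem_cl_empty h
      have h2 : IsAlgebraic ℚ (k : ℂ) := by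
        have := isAlgebraic_algebraMap (R := ℚ) (A := ℂ) (k : ℚ)
        simpa using this
      have h3 := h1.sub h2
      rwa [add_sub_cancel_right] at h3
    obtain ⟨α, h1, h2⟩ := AHC.exists_move hy' hk
    have h3 := IsogDeg.map (α : ℂ →+* ℂ) hN hxy
    change IsogDeg N (α (jInv τ)) (α y) at h3
    rw [h1 _ (AHC.mem_cl_empty hx), h2] at h3
    exact h3
  have hinf : (Set.range fun k : ℕ => y + (k : ℂ)).Infinite := by
    refine Set.infinite_range_of_injective ?_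
    intro k l hkl
    have h1 : (k : ℂ) = l := add_left_cancel hkl
    exact_mod_cast h1
  exact hinf (hfin.subset (by rintro _ ⟨k, rfl⟩; exact hall k))

theorem mdeg_self (x : ℂ) : mdeg x x = 1 := by
  have h1 : mdeg x x ≤ 1 := mdeg_le one_pos (IsogDeg.refl x)
  have h2 : 0 < mdeg x x := mdeg_pos ⟨1, one_pos, IsogDeg.refl x⟩
  omega

/-- the lattices of index `n` are equal iff the vectors are proportional modulo `n` -/
theorem IsJ.eq_iff {τ : ℍ} (hcm : NonCM (τ : ℂ)) {n : ℕ} (hn : 0 < n) {a b a' b' : ℤ} {y y' : ℂ}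
    (h : Cop n a b) (h' : Cop n a' b') (hy : IsJ τ n a b y) (hy' : IsJ τ n a' b' y') :
    y = y' ↔ (n : ℤ) ∣ a * b' - a' * b := by
  constructor
  · rintro rfl
    have h1 := mdeg_isJ hcm hn hn h h' hy hy'
    rw [mdeg_self, one_mul, ← pow_two] at h1
    have h2 : n.gcd (n.gcd (a * b' - a' * b).natAbs) = n :=
      Nat.pow_left_injective two_ne_zero h1
    have h3 : n ∣ n.gcd (a * b' - a' * b).natAbs := by
      have h4 := Nat.gcd_dvd_right n (n.gcd (a * b' - a' * b).natAbs)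
      rwa [h2] at h4
    exact Int.natCast_dvd.2 (h3.trans (Nat.gcd_dvd_right _ _))
  · intro hd
    obtain ⟨k, ha, hb⟩ := h.exists_mul hd
    exact (hy.congr (h'.isCoprime ha hb) ha hb).unique hy'

/-- the intermediate lattices: `mdeg x z * mdeg z y = mdeg x y` -/
theorem isJ_of_mid {τ : ℍ} (hcm : NonCM (τ : ℂ)) {n : ℕ} (hn : 0 < n) {a b : ℤ} {y z : ℂ}
    (h : Cop n a b) (hy : IsJ τ n a b y) (hz : ∃ N, 0 < N ∧ IsogDeg N (jInv τ) z)
    (hm : mdeg (jInv τ) z * mdeg z y = n) :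
    mdeg (jInv τ) z ∣ n ∧ IsJ τ (mdeg (jInv τ) z) a b z := by
  have hd0 : 0 < mdeg (jInv τ) z := mdeg_pos hz
  have hdn : mdeg (jInv τ) z ∣ n := ⟨_, hm.symm⟩
  refine ⟨hdn, ?_⟩
  obtain ⟨a1, b1, hc1, hz1⟩ := exists_of_mdeg hcm hz
  set d := mdeg (jInv τ) z with hd
  have h1 := mdeg_isJ hcm hd0 hn hc1 h hz1 hy
  have hm0 : 0 < mdeg z y := Nat.pos_of_ne_zero (by
    intro h0
    rw [h0, mul_zero] at hm
    omega)
  have h2 : (d.gcd (n.gcd (a1 * b - a * b1).natAbs)) ^ 2 = d ^ 2 := by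
    have h3 : mdeg z y * (d.gcd (n.gcd (a1 * b - a * b1).natAbs)) ^ 2 = mdeg z y * d ^ 2 := by
      rw [h1]
      nth_rw 1 [← hm]
      ring
    exact Nat.eq_of_mul_eq_mul_left hm0 h3
  have h4 : d.gcd (n.gcd (a1 * b - a * b1).natAbs) = d := Nat.pow_left_injective two_ne_zero h2
  have h5 : d ∣ n.gcd (a1 * b - a * b1).natAbs := by
    have h6 := Nat.gcd_dvd_right d (n.gcd (a1 * b - a * b1).natAbs)
    rwa [h4] at h6
  have h6 : (d : ℤ) ∣ a1 * b - a * b1 := Int.natCast_dvd.2 (h5.trans (Nat.gcd_dvd_right _ _))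
  obtain ⟨k, ha, hb⟩ := hc1.exists_mul h6
  exact hz1.congr ((h.of_dvd hdn).isCoprime ha hb) ha hb

end Pool.Agent.LGO.F
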