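import Mathlib
import Pool.Agent.LGO.H.MDeg
import Pool.Agent.LGO.A.MulDefs

/-!
# LGO/F (note 3060, step 3): the sublattices of cyclic index, definitions

`Λ = ℤ + ℤ τ`. `IsJ τ n a b y`: `y` is the `j`-invariant of the lattice
`Λ_(n, (a, b)) = ℤ (a + b τ) + n Λ`; for `gcd(a, b, n) = 1` (`Cop n a b`) it has index `n` in `Λ` (it contains
`n Λ` with index `n`), with cyclic quotient, and every such lattice is of this form.
-/

namespace Pool.Agent.LGO.F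

open UpperHalfPlane Pool.Agent.Hhelper14.ZP Pool.Agent.EllSch

/-- `y` is the invariant of the lattice `ℤ (a + b τ) + n (ℤ + ℤ τ)` -/
def IsJ (τ : ℂ) (n : ℕ) (a b : ℤ) (y : ℂ) : Prop :=
  ∃ (w : ℂ) (τ' : ℍ), w ≠ 0 ∧ jInv τ' = y ∧
    ∀ z : ℂ, (∃ x : ℤ × ℤ, z = lat w (w * τ') x) ↔
      ∃ (k : ℤ) (x : ℤ × ℤ), z = k * (a + b * τ) + n * lat 1 τ x

/-- `gcd(a, b, n) = 1` -/
def Cop (n : ℕ) (a b : ℤ) : Prop := ∀ d : ℤ, d ∣ a → d ∣ b → d ∣ n → IsUnit d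

end Pool.Agent.LGO.F
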