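import Mathlib
import Pool.Agent.LGO.F.AsFin
import Pool.Agent.LGO.ZV.Low
import Pool.Agent.LGO.ZG.InC

/-!
# LGO/F (notes 3060, 3121): the Zilber-Pink statement for the special subvarieties of dimension `< n / 4`
-/

namespace Pool.Agent.LGO.F

open UpperHalfPlane MvPolynomial Pool.Agent.Hhelper14.ZP Pool.Agent.Hhelper14.ZPL Pool.Agent.LGO

variable {n : ℕ} {V : Set (Fin n → ℂ)}

/-- any five coordinates contain three which are not simultaneously infinite on `V` -/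
def ThreeOfFive (V : Set (Fin n → ℂ)) : Prop :=
  ∀ i : Fin 5 → Fin n, Function.Injective i → ∃ k : Fin 3 → Fin 5, Function.Injective k ∧
    ∃ Q : MvPolynomial (Fin 3) ℂ, constantCoeff Q ≠ 0 ∧
      ∀ x ∈ V, (∀ a, x (i (k a)) ≠ 0) → eval (fun a => (x (i (k a)))⁻¹) Q = 0

/-- **Theorem Q**, literal form -/
theorem main5 (hS : SharpAll) (hV : Pool.Agent.Hhelper14.ZPL.IsIrredClosed V) (hVk : KClosed V)
    (hdim : Pool.Agent.Hhelper14.ZPL.dim V = 1) (hnc : ∀ (i : Fin n) (c : ℂ), ∃ x ∈ V, x i ≠ c)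
    (hn : 2 ≤ n) (h5 : ThreeOfFive V) :
    ∃ S : Set (Set (Fin n → ℂ)), S.Finite ∧
      (∀ T ∈ S, Pool.Agent.Hhelper14.ZP.IsSpecial T ∧ T ≠ Set.univ) ∧
      ∀ Z, Pool.Agent.Hhelper14.ZP.IsSpecial Z →
        ((4 : ℕ) : WithBot ℕ∞) * Pool.Agent.Hhelper14.ZP.dim Z < n →
          ∀ C, Pool.Agent.Hhelper14.ZP.IsComponent C (V ∩ Z) → ∃ T ∈ S, C ⊆ T := by
  refine ZV.low_main hV hVk hdim hnc ZG.cmAll (fun x hx => ZG.cm_alg hx) (k := 4) (by norm_num) hn ?_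
  intro hcrv i hi
  obtain ⟨k, hk, Q, hQ0, hQ⟩ := h5 i hi
  refine (as_finite hS hV hVk hdim i (fun a c => hnc (i a) c)
    (fun a b hab g hg => hcrv.nomod (i a) (i b) (hi.ne hab) g hg)
    (poleGraph_of_five (le_refl 5) V i) k hk hQ0 hQ).subset ?_
  rintro x ⟨hx, h1, h2⟩
  exact ⟨hx, h1, fun a b => heckeRel_iff.mp (h2 a b)⟩

end Pool.Agent.LGO.F
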