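import Pool.Agent.LGO.F.ZDef
import Pool.Agent.LGO.Mul.Defs

/-!
# LGO/F, engine P: the lattice `Λ_v` has index `N` in `Λ`

PROOF.  By `ZD.mem`: `c₁ = lat c₁ c₂ (1, 0)`, `c₂` lie in `Λ`: `c₁ = p w + q (w τ)`, `c₂ = r w + s (w τ)` (`p q r s : ℤ`).
Put `Δ = p s - q r`.  The covolume of `(c₁, c₂)` is `|Δ|` times the one of `(w, w τ)` (compute), and the latter is
`‖w‖² Im τ`.  Claim: `|Δ| = N`.
* `N ∣ Δ`: `c₁ = k₁ v + N u₁`, `c₂ = k₂ v + N u₂` (coordinates: `p = k₁ a + N x₁`, `q = k₁ b + N y₁`, `r = k₂ a + N x₂`, ..,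
  use that `w`, `w τ` are linearly independent over the integers, `ZD.ind1`, `Basic.lat_injective`/`lat_injective`).
* `Δ ∣ N`: for `u ∈ Λ`, `v = a w + b w τ` and `N u` lie in `Λ_v`, so they are integral combinations of `c₁`, `c₂` and the determinant
  of `(v, N u)` in the basis `(w, w τ)` is a multiple of `Δ`; `u = w τ`, `u = w` give `Δ ∣ N a`, `Δ ∣ N b`; the pair `N w`, `N w τ`
  gives `Δ ∣ N²`.  Since no nonunit divides `a`, `b`, `N` (`ZD.cop`; `gcd (a, gcd (b, N))` is `1`), there are `x, y, z` with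
  `x a + y b + z N = 1`, so `Δ ∣ N`.
`mem_le`: every element of `Λ_v` lies in `Λ`.
-/

namespace Pool.Agent.LGO.F

open Pool.Agent.EllSch Pool.Agent.LGO.Mul

variable {w τ c₁ c₂ : ℂ} {N : ℕ} {a b : ℤ}

/-- `v = a w + b w τ` lies in `Λ_v` -/
theorem ZD.v_mem (h : ZD w τ c₁ c₂ N a b) : ∃ x, a * w + b * (w * τ) = lat c₁ c₂ x := by
  refine (h.mem _).2 ⟨1, 0, ?_⟩
  unfold lat
  simp

private theorem PIdx_mem (h : ZD w τ c₁ c₂ N a b) (x : ℤ × ℤ) : ∃ (k : ℤ) (y : ℤ × ℤ),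
    lat c₁ c₂ x = lat w (w * τ) (k * a + N * y.1, k * b + N * y.2) := by
  obtain ⟨k, y, hy⟩ := (h.mem _).1 ⟨x, rfl⟩
  refine ⟨k, y, ?_⟩
  rw [hy]
  unfold lat
  push_cast
  ring

/-- `Λ_v ⊆ Λ` -/
theorem ZD.mem_le (h : ZD w τ c₁ c₂ N a b) (x : ℤ × ℤ) : ∃ y, lat c₁ c₂ x = lat w (w * τ) y := by
  obtain ⟨k, y, hy⟩ := PIdx_mem h x
  exact ⟨_, hy⟩

private theorem PIdx_det {a b N p q r s m n α β γ δ x₁ y₁ x₂ y₂ k₁ k₂ : ℤ} (hN : 0 < N)
    (cop : ∀ d : ℤ, d ∣ a → d ∣ b → d ∣ N → IsUnit d)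
    (hp : p = k₁ * a + N * x₁) (hq : q = k₁ * b + N * y₁) (hr : r = k₂ * a + N * x₂)
    (hs : s = k₂ * b + N * y₂) (ha : a = m * p + n * r) (hb : b = m * q + n * s)
    (h1 : N = α * p + β * r) (h2 : 0 = α * q + β * s) (h3 : 0 = γ * p + δ * r)
    (h4 : N = γ * q + δ * s) : |p * s - q * r| = N := by
  have d1 : N ∣ p * s - q * r := by
    refine ⟨k₁ * a * y₂ + x₁ * k₂ * b + N * x₁ * y₂ - k₁ * b * x₂ - y₁ * k₂ * a - N * y₁ * x₂, ?_⟩
    rw [hp, hq, hr, hs]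
    ring
  have d2 : p * s - q * r ∣ a * N := ⟨m * δ - n * γ, by
    have : a * N = a * (γ * q + δ * s) - b * (γ * p + δ * r) := by rw [← h3, ← h4]; ring
    rw [this, ha, hb]
    ring⟩
  have d3 : p * s - q * r ∣ b * N := ⟨α * n - β * m, by
    have : b * N = b * (α * p + β * r) - a * (α * q + β * s) := by rw [← h1, ← h2]; ring
    rw [this, ha, hb]
    ring⟩
  have d4 : p * s - q * r ∣ N * N := ⟨α * δ - β * γ, by
    have : N * N = (α * p + β * r) * (γ * q + δ * s) - (α * q + β * s) * (γ * p + δ * r) := by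
      rw [← h1, ← h2, ← h3, ← h4]; ring
    rw [this]
    ring⟩
  obtain ⟨x, y, z, hxyz⟩ : ∃ x y z : ℤ, x * a + y * b + z * N = 1 := by
    set g : ℕ := Int.gcd a (Int.gcd b N) with hg
    have hu : IsUnit (g : ℤ) := by
      refine cop _ (Int.gcd_dvd_left ..) ?_ ?_
      · exact (Int.gcd_dvd_right ..).trans (Int.gcd_dvd_left ..)
      · exact (Int.gcd_dvd_right ..).trans (Int.gcd_dvd_right ..)
    have hg1 : (g : ℤ) = 1 := by
      rcases Int.isUnit_iff.1 hu with h | h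
      · exact h
      · omega
    have e1 := Int.gcd_eq_gcd_ab a (Int.gcd b N)
    have e2 := Int.gcd_eq_gcd_ab b N
    rw [← hg, hg1] at e1
    refine ⟨Int.gcdA a (Int.gcd b N), Int.gcdA b N * Int.gcdB a (Int.gcd b N),
      Int.gcdB b N * Int.gcdB a (Int.gcd b N), ?_⟩
    calc _ = a * Int.gcdA a (Int.gcd b N) + (b * Int.gcdA b N + N * Int.gcdB b N) *
          Int.gcdB a (Int.gcd b N) := by ring
      _ = 1 := by rw [← e2, ← e1]
  have d5 : p * s - q * r ∣ N := by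
    have e : N = x * (a * N) + y * (b * N) + z * (N * N) := by
      calc N = (x * a + y * b + z * N) * N := by rw [hxyz, one_mul]
        _ = _ := by ring
    rw [e]
    exact dvd_add (dvd_add (dvd_mul_of_dvd_right d2 _) (dvd_mul_of_dvd_right d3 _))
      (dvd_mul_of_dvd_right d4 _)
  have h5 := Int.natAbs_dvd_natAbs.2 d1
  have h6 := Int.natAbs_dvd_natAbs.2 d5
  have h7 := Nat.dvd_antisymm h6 h5
  rw [Int.abs_eq_natAbs, h7]
  omega

theorem ZD.covol_eq (h : ZD w τ c₁ c₂ N a b) : covol c₁ c₂ = N * (‖w‖ ^ 2 * τ.im) := by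
  have hinj : ∀ x y : ℤ × ℤ, lat w (w * τ) x = lat w (w * τ) y → x = y := fun x y hxy =>
    lat_injective h.ind1 hxy
  obtain ⟨k₁, y₁, e₁⟩ := PIdx_mem h (1, 0)
  obtain ⟨k₂, y₂, e₂⟩ := PIdx_mem h (0, 1)
  set p := k₁ * a + N * y₁.1 with hp
  set q := k₁ * b + N * y₁.2 with hq
  set r := k₂ * a + N * y₂.1 with hr
  set s := k₂ * b + N * y₂.2 with hs
  have hc1 : c₁ = p * w + q * (w * τ) := by
    have : lat c₁ c₂ (1, 0) = c₁ := by unfold lat; simp
    rw [← this, e₁]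
    rfl
  have hc2 : c₂ = r * w + s * (w * τ) := by
    have : lat c₁ c₂ (0, 1) = c₂ := by unfold lat; simp
    rw [← this, e₂]
    rfl
  have hl : ∀ x : ℤ × ℤ, lat c₁ c₂ x = lat w (w * τ) (x.1 * p + x.2 * r, x.1 * q + x.2 * s) := by
    intro x
    unfold lat
    rw [hc1, hc2]
    push_cast
    ring
  obtain ⟨⟨m, n⟩, hv⟩ := h.v_mem
  have hv' : lat w (w * τ) (a, b) = lat w (w * τ) (m * p + n * r, m * q + n * s) := by
    rw [← hl (m, n), ← hv]
    rfl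
  obtain ⟨⟨α, β⟩, h1⟩ := (h.mem (N * lat w (w * τ) (1, 0))).2 ⟨0, (1, 0), by simp⟩
  have h1' : lat w (w * τ) ((N : ℤ), 0) = lat w (w * τ) (α * p + β * r, α * q + β * s) := by
    rw [← hl (α, β), ← h1]
    unfold lat
    simp
  obtain ⟨⟨γ, δ⟩, h2⟩ := (h.mem (N * lat w (w * τ) (0, 1))).2 ⟨0, (0, 1), by simp⟩
  have h2' : lat w (w * τ) (0, (N : ℤ)) = lat w (w * τ) (γ * p + δ * r, γ * q + δ * s) := by
    rw [← hl (γ, δ), ← h2]
    unfold lat
    simp
  have i0 := hinj _ _ hv'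
  have i1 := hinj _ _ h1'
  have i2 := hinj _ _ h2'
  rw [Prod.mk.injEq] at i0 i1 i2
  have hN : (0 : ℤ) < N := by exact_mod_cast h.N1
  have hdet := PIdx_det hN h.cop hp hq hr hs i0.1 i0.2 i1.1 i1.2 i2.1 i2.2
  have hdet' : |(p : ℝ) * s - q * r| = N := by
    have := congrArg (fun t : ℤ => (t : ℝ)) hdet
    push_cast at this
    exact this
  have hc : c₁.re * c₂.im - c₁.im * c₂.re = ((p : ℝ) * s - q * r) * (‖w‖ ^ 2 * τ.im) := by
    have hre : ∀ u v : ℤ, ((u : ℂ) * w + v * (w * τ)).re = u * w.re + v * (w * τ).re := by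
      intro u v
      rw [Complex.add_re, ← Complex.ofReal_intCast, ← Complex.ofReal_intCast, Complex.re_ofReal_mul,
        Complex.re_ofReal_mul]
    have him : ∀ u v : ℤ, ((u : ℂ) * w + v * (w * τ)).im = u * w.im + v * (w * τ).im := by
      intro u v
      rw [Complex.add_im, ← Complex.ofReal_intCast, ← Complex.ofReal_intCast, Complex.im_ofReal_mul,
        Complex.im_ofReal_mul]
    rw [hc1, hc2, hre, him, hre, him, ← Complex.normSq_eq_norm_sq, Complex.normSq_apply,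
      Complex.mul_re, Complex.mul_im]
    ring
  unfold covol
  rw [hc, abs_mul, hdet', abs_of_nonneg (mul_nonneg (sq_nonneg _) h.im.le)]

end Pool.Agent.LGO.F
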