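import Pool.Agent.LGO.F.PGrow
import Pool.Agent.LGO.F.PIdx
import Pool.Agent.LGO.H.LatB
import Pool.Agent.LGO.Mul.Main

/-!
# LGO/F, engine P: the analytic data

PROOF.  `Λ = ℤ w + ℤ w τ`, `c₁ = w' / μ`, `c₂ = w' / μ * τ'`, `Λ_v = ℤ c₁ + ℤ c₂`, `Λ_B = ℤ w' + ℤ w' τ' = μ Λ_v`,
`v = a w + b (w τ)`, `η = μ v`.  `Im τ ≥ √3 / 2` (`Red.half_le`), so `‖τ‖² = re² + im² ≤ 1/4 + im² ≤ (4/3) im²`, `‖τ‖ ≤ 2 Im τ`,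
`‖τ‖² / Im τ ≤ 2 Im τ`, `1 + ‖τ‖ ≤ 3 Im τ`.  Apply `grow` (constant `c₀`; take `c = 9 c₀`) three times with `2 G` for `G`:
* `ω = w`, `ρ = 1`; `ω = w τ`, `ρ = ‖τ‖ ≥ 1` (`Red.one_le`);
* lattice `(w', τ')`, `ω = η`, which lies in `Λ_B` because `v ∈ Λ_v` (`ZD.v_mem`), `ρ = ‖η‖ / ‖w'‖`.  `ρ ≥ 1`: `w'` is a shortest
  nonzero vector of `Λ_B` as `τ'` is reduced (a lemma `‖m + n τ'‖ ≥ 1` for `(m, n) ≠ 0`, see `Red` in LGO/H or LGO/Mul, or: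
  `‖m + n τ‖² = m² + 2 m n re + n² ‖τ‖² ≥ m² - |m n| + n² ≥ 1`).  By `ZD.covol_eq`:
  `‖w' / μ‖² Im τ' = N ‖w‖² Im τ` (`covol`).  So `ρ² / Im τ' = ‖η‖² / (‖w'‖² Im τ') = ‖v‖² / (N ‖w‖² Im τ)`, and
  `‖v‖ ≤ N (1 + ‖τ‖) ‖w‖ ≤ 3 N Im τ ‖w‖` (`ZD.aN`, `ZD.bN`): `ρ² / Im τ' ≤ 9 N Im τ`.
  `c₁ ∈ Λ` is not `0` (`ZD.mem_le`), so `‖w'‖ / ‖μ‖ ≥ ‖w‖` (`τ` reduced) and `Im τ' ≤ N Im τ`; hence `ρ² ≤ 9 N² (Im τ)²`, `ρ ≤ 3 N Im τ`.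
  `c₀ (ρ² / Im τ' R² + ρ R) + 2 G ≤ 9 c₀ N Im τ (R² + R) + 2 G`.
`v ≠ 0` because `a ≠ 0` (`ZD.a0`, `ZD.ind1`, `lat_injective`).  `rel`: ring.
-/

namespace Pool.Agent.LGO.F.PE

open Pool.Agent.EllSch Pool.Agent.LGO.Bs Pool.Agent.LGO.E3

private theorem PAd_mono {E E' : ℝ → ℝ} {s e : ℂ → ℂ} (h : Grf E s e) (hE : ∀ R, 1 ≤ R → E R ≤ E' R) : Grf E' s e := by
  intro R z hR hz
  obtain ⟨h1, h2⟩ := h R z hR hz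
  have h3 := Real.exp_le_exp.2 (hE R hR)
  exact ⟨h1.trans h3, h2.trans h3⟩

theorem mkAD : ∃ c : ℝ, 1 ≤ c ∧ ∀ (w τ w' τ' μ : ℂ) (N : ℕ) (a b : ℤ) (G : ℝ), w' ≠ 0 → Red τ →
    Red τ' → μ ≠ 0 → ZD w τ (w' / μ) (w' / μ * τ') N a b → 0 ≤ G →
    (Real.exp (-G) ≤ ‖w‖ ∧ ‖w‖ ≤ Real.exp G) → (Real.exp (-G) ≤ ‖w * τ‖ ∧ ‖w * τ‖ ≤ Real.exp G) →
    (Real.exp (-G) ≤ ‖μ * (a * w + b * (w * τ))‖ ∧ ‖μ * (a * w + b * (w * τ))‖ ≤ Real.exp G) →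
    ‖w'‖ ≤ Real.exp G → ‖μ * b‖ ≤ Real.exp G →
    ∃ s₁ e₁ s₂ e₂ s₃ e₃ : ℂ → ℂ, AD c (2 * G) N w τ (μ * (a * w + b * (w * τ))) (μ * a) (μ * b)
      (us (3 / 2 * G2 w (w * τ)) (2 * G3 w (w * τ)))
      (us (3 / 2 * G2 w' (w' * τ')) (2 * G3 w' (w' * τ'))) s₁ e₁ s₂ e₂ s₃ e₃ := by

  obtain ⟨c₀, hc₀, hgrow⟩ := grow
  refine ⟨9 * c₀, by linarith, ?_⟩
  intro w τ w' τ' μ N a b G hw' hτ hτ' hμ hZ hG hw1 hw2 hη hw'G hbG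
  set v : ℂ := a * w + b * (w * τ) with hv
  set η : ℂ := μ * v with hηd
  have him : √3 / 2 ≤ τ.im := hτ.half_le
  have him34 : 3 / 4 ≤ τ.im := by
    have h1 : (3 / 2 : ℝ) ≤ √3 := by
      rw [show (3 / 2 : ℝ) = √((3 / 2) ^ 2) by rw [Real.sqrt_sq (by norm_num)]]
      exact Real.sqrt_le_sqrt (by norm_num)
    linarith
  have him0 : 0 < τ.im := hτ.im_pos
  have him0' : 0 < τ'.im := hτ'.im_pos
  have hnτ : ‖τ‖ ≤ τ.im + 1 / 2 := hτ.norm_le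
  have hnτ2 : ‖τ‖ ≤ 2 * τ.im := by linarith
  have hN1 : (1 : ℝ) ≤ N := by exact_mod_cast hZ.N1
  have hN0 : (0 : ℝ) < N := by linarith
  have hw0 : w ≠ 0 := hZ.w0
  have hnw : 0 < ‖w‖ := norm_pos_iff.2 hw0
  have hnw' : 0 < ‖w'‖ := norm_pos_iff.2 hw'
  have hnμ : 0 < ‖μ‖ := norm_pos_iff.2 hμ
  have hsq : ∀ t : ℝ, 0 ≤ t → t ≤ Real.exp G → t ^ 2 ≤ Real.exp (2 * G) := by
    intro t h0 h1
    calc t ^ 2 ≤ Real.exp G ^ 2 := pow_le_pow_left₀ h0 h1 2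
      _ = Real.exp (2 * G) := by rw [← Real.exp_nat_mul]; norm_num
  have hle : Real.exp G ≤ Real.exp (2 * G) := Real.exp_le_exp.2 (by linarith)
  have hge : Real.exp (-(2 * G)) ≤ Real.exp (-G) := Real.exp_le_exp.2 (by linarith)
  -- the third direction
  have hη0 : η ≠ 0 := by
    intro e
    have h1 := hη.1
    rw [e, norm_zero] at h1
    exact absurd h1 (not_le.2 (Real.exp_pos _))
  obtain ⟨x, hx⟩ := hZ.v_mem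
  have hηl : η = x.1 * w' + x.2 * (w' * τ') := by
    rw [hηd, hv, hx]
    unfold lat
    field_simp
  have hρ1 : ‖w'‖ ≤ ‖η‖ := hτ'.short η ⟨x.1, x.2, hηl⟩ hη0
  set ρ : ℝ := ‖η‖ / ‖w'‖ with hρ
  have hρ1' : 1 ≤ ρ := by rw [hρ, le_div_iff₀ hnw', one_mul]; exact hρ1
  have hcov : ‖w' / μ‖ ^ 2 * τ'.im = N * (‖w‖ ^ 2 * τ.im) := by
    rw [← hZ.covol_eq, Pool.Agent.LGO.MulMain.covol_eq _ _ him0']
  have hvn : ‖v‖ ≤ 3 * N * τ.im * ‖w‖ := by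
    have h1 : ‖(a : ℂ)‖ ≤ N := by
      rw [Complex.norm_intCast]
      exact_mod_cast hZ.aN
    have h2 : ‖(b : ℂ)‖ ≤ N := by
      rw [Complex.norm_intCast]
      exact_mod_cast hZ.bN
    calc ‖v‖ ≤ ‖(a : ℂ) * w‖ + ‖(b : ℂ) * (w * τ)‖ := norm_add_le _ _
      _ = ‖(a : ℂ)‖ * ‖w‖ + ‖(b : ℂ)‖ * (‖w‖ * ‖τ‖) := by rw [norm_mul, norm_mul, norm_mul]
      _ ≤ N * ‖w‖ + N * (‖w‖ * ‖τ‖) := by gcongr
      _ = N * ‖w‖ * (1 + ‖τ‖) := by ring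
      _ ≤ N * ‖w‖ * (3 * τ.im) := by
          refine mul_le_mul_of_nonneg_left ?_ (by positivity)
          linarith
      _ = 3 * N * τ.im * ‖w‖ := by ring
  have hρ2 : ρ ^ 2 / τ'.im ≤ 9 * N * τ.im := by
    have e1 : ρ ^ 2 / τ'.im = ‖v‖ ^ 2 / (‖w' / μ‖ ^ 2 * τ'.im) := by
      rw [hρ, hηd, norm_mul, norm_div]
      field_simp
    rw [e1, hcov, div_le_iff₀ (by positivity)]
    calc ‖v‖ ^ 2 ≤ (3 * N * τ.im * ‖w‖) ^ 2 := pow_le_pow_left₀ (norm_nonneg _) hvn 2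
      _ = 9 * N * τ.im * (N * (‖w‖ ^ 2 * τ.im)) := by ring
  have hc1 : ‖w‖ ≤ ‖w' / μ‖ := by
    obtain ⟨y, hy⟩ := hZ.mem_le (1, 0)
    have e1 : lat (w' / μ) (w' / μ * τ') (1, 0) = w' / μ := by unfold lat; simp
    rw [e1] at hy
    refine hτ.short _ ⟨y.1, y.2, ?_⟩ (div_ne_zero hw' hμ)
    rw [hy]
    rfl
  have him' : τ'.im ≤ N * τ.im := by
    have h1 : ‖w‖ ^ 2 * τ'.im ≤ ‖w' / μ‖ ^ 2 * τ'.im :=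
      mul_le_mul_of_nonneg_right (pow_le_pow_left₀ (norm_nonneg _) hc1 2) him0'.le
    rw [hcov] at h1
    have h2 : ‖w‖ ^ 2 * τ'.im ≤ ‖w‖ ^ 2 * (N * τ.im) := by
      calc ‖w‖ ^ 2 * τ'.im ≤ N * (‖w‖ ^ 2 * τ.im) := h1
        _ = ‖w‖ ^ 2 * (N * τ.im) := by ring
    exact le_of_mul_le_mul_left h2 (by positivity)
  have hρ3 : ρ ≤ 3 * N * τ.im := by
    have h1 : ρ ^ 2 ≤ (3 * N * τ.im) ^ 2 := by
      rw [div_le_iff₀ him0'] at hρ2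
      calc ρ ^ 2 ≤ 9 * N * τ.im * τ'.im := hρ2
        _ ≤ 9 * N * τ.im * (N * τ.im) := mul_le_mul_of_nonneg_left him' (by positivity)
        _ = (3 * N * τ.im) ^ 2 := by ring
    exact (abs_le_of_sq_le_sq' h1 (by positivity)).2
  obtain ⟨s₁, e₁, L1, G1⟩ := hgrow w τ w 1 (2 * G) hw0 hτ ⟨(1, 0), by unfold lat; simp⟩ hw0 le_rfl
    (by rw [one_mul]) (by linarith) (hsq _ hnw.le hw1.2)
  have hwτ0 : w * τ ≠ 0 := mul_ne_zero hw0 hτ.ne_zero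
  obtain ⟨s₂, e₂, L2, G2'⟩ := hgrow w τ (w * τ) ‖τ‖ (2 * G) hw0 hτ ⟨(0, 1), by unfold lat; simp⟩ hwτ0 hτ.one_le
    (by rw [norm_mul, mul_comm]) (by linarith) (hsq _ hnw.le hw1.2)
  obtain ⟨s₃, e₃, L3, G3'⟩ := hgrow w' τ' η ρ (2 * G) hw' hτ' ⟨x, by rw [hηl]; rfl⟩ hη0 hρ1'
    (by rw [hρ, div_mul_cancel₀ _ hnw'.ne']) (by linarith) (hsq _ hnw'.le hw'G)
  refine ⟨s₁, e₁, s₂, e₂, s₃, e₃, ⟨L1, L2, L3, PAd_mono G1 ?_, PAd_mono G2' ?_, PAd_mono G3' ?_,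
    ⟨hge.trans hw1.1, hw1.2.trans hle⟩, ⟨hge.trans hw2.1, hw2.2.trans hle⟩, ⟨hge.trans hη.1, hη.2.trans hle⟩,
    hbG.trans hle, ?_⟩⟩
  · intro R hR
    have h1 : 0 ≤ R ^ 2 / τ.im + R := by positivity
    have h2 : (1 : ℝ) ^ 2 / τ.im * R ^ 2 + 1 * R = R ^ 2 / τ.im + R := by ring
    rw [h2]
    nlinarith
  · intro R hR
    have h1 : ‖τ‖ ^ 2 / τ.im ≤ 4 * τ.im := by
      rw [div_le_iff₀ him0]
      have := pow_le_pow_left₀ (norm_nonneg _) hnτ2 2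
      nlinarith
    have h2 : ‖τ‖ ^ 2 / τ.im * R ^ 2 + ‖τ‖ * R ≤ 4 * τ.im * R ^ 2 + 4 * τ.im * R := by
      have a1 := mul_le_mul_of_nonneg_right h1 (sq_nonneg R)
      have a2 := mul_le_mul_of_nonneg_right hnτ2 (by linarith : (0 : ℝ) ≤ R)
      nlinarith [mul_pos him0 (by linarith : (0 : ℝ) < R)]
    have h3 : 0 ≤ τ.im * (R ^ 2 + R) := by positivity
    have h4 := mul_le_mul_of_nonneg_left h2 (by linarith : (0 : ℝ) ≤ c₀)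
    nlinarith [mul_nonneg (by linarith : (0 : ℝ) ≤ c₀) h3]
  · intro R hR
    have a1 := mul_le_mul_of_nonneg_right hρ2 (sq_nonneg R)
    have a2 := mul_le_mul_of_nonneg_right hρ3 (by linarith : (0 : ℝ) ≤ R)
    have h2 : ρ ^ 2 / τ'.im * R ^ 2 + ρ * R ≤ 9 * N * τ.im * (R ^ 2 + R) := by
      have a3 : 0 ≤ N * τ.im * R := by positivity
      nlinarith
    have h4 := mul_le_mul_of_nonneg_left h2 (by linarith : (0 : ℝ) ≤ c₀)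
    calc c₀ * (ρ ^ 2 / τ'.im * R ^ 2 + ρ * R) + 2 * G ≤ c₀ * (9 * N * τ.im * (R ^ 2 + R)) + 2 * G := by linarith
      _ = 9 * c₀ * N * τ.im * (R ^ 2 + R) + 2 * G := by ring
  · rw [hηd, hv]
    ring

end Pool.Agent.LGO.F.PE
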