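import Pool.Agent.LGO.F.PDefs
import Pool.Agent.LGO.E3.Base
import Pool.Agent.LGO.E3.Hur
import Pool.Agent.LGO.H.SkewBd

/-!
# LGO/F, engine P: the arithmetic data

PROOF.  `exists_sqrt_ext` (LGO/H/SkewBd): `K' ⊇ K`, `μ ∈ K'`, `finrank K' ≤ 2 finrank K`; `Bd.sk_sqrt`: `Bd K' B μ`; `Bd.sk_ext`: the
invariants are `Bd K' B`.  `Base_series` (LGO/E3/Base.lean) over `K'` for the two lattices: `V₁, ν₁`, `V₃, ν₃`,
`ν₁, ν₃ ≤ exp (3 B)`, `Ar ν₁ (exp B) V₁`, `Ar ν₃ (exp B) V₃`.  `n` = denominator of `μ`, `n ≤ exp B`, `n μ` integral.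
`ν = ν₁ ν₃ n ≤ exp (7 B)`; `Ar.mono` (LGO/E3/Hur.lean); `m₁ = ⟨μ, _⟩ * a`, `m₂ = ⟨μ, _⟩ * b`, `ν m₁ = ν₁ ν₃ a (n μ)` integral,
`‖σ m₁‖ ≤ exp B exp B`.
-/

namespace Pool.Agent.LGO.F.PE

open Pool.Agent.EllSch Pool.Agent.LGO.Bs Pool.Agent.LGO.E3

private theorem PArith_int {K : IntermediateField ℚ ℂ} [FiniteDimensional ℚ K] {μ : ℂ} (hμ : μ ∈ K) (m n : ℕ)
    (h : IsIntegral ℤ ((n : ℂ) * μ)) (a : ℤ) :
    IsIntegral ℤ (((m * n : ℕ) : K) * ((⟨μ, hμ⟩ : K) * (a : K))) := by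
  refine (isIntegral_algebraMap_iff (A := K) (B := ℂ) (algebraMap K ℂ).injective).1 ?_
  have e : algebraMap K ℂ (((m * n : ℕ) : K) * ((⟨μ, hμ⟩ : K) * (a : K))) =
      ((m * a : ℤ) : ℂ) * ((n : ℂ) * μ) := by
    rw [map_mul, map_mul, map_natCast, map_intCast]
    have : algebraMap K ℂ ⟨μ, hμ⟩ = μ := rfl
    rw [this]
    push_cast
    ring
  rw [e]
  exact (isIntegral_intCast (m * a)).mul h

private theorem PArith_bd {K : IntermediateField ℚ ℂ} {B : ℝ} (hB : 1 ≤ B) {μ : ℂ} (hμ : μ ∈ K)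
    (h : Bd K B μ) {a : ℤ} (ha : |(a : ℝ)| ≤ Real.exp B) (σ : K →+* ℂ) :
    ‖σ ((⟨μ, hμ⟩ : K) * (a : K))‖ ≤ Real.exp (10 * B) := by
  rw [map_mul, map_intCast, norm_mul, Complex.norm_intCast]
  calc ‖σ ⟨μ, hμ⟩‖ * |(a : ℝ)| ≤ Real.exp B * Real.exp B :=
        mul_le_mul (h.house σ) ha (abs_nonneg _) (Real.exp_pos _).le
    _ = Real.exp (B + B) := (Real.exp_add _ _).symm
    _ ≤ Real.exp (10 * B) := Real.exp_le_exp.2 (by linarith)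

theorem mkAR (K : IntermediateField ℚ ℂ) [FiniteDimensional ℚ K] {B : ℝ} (hB : 1 ≤ B)
    {w τ w' τ' μ : ℂ} (hI : Ind w (w * τ)) (hI' : Ind w' (w' * τ'))
    (h2 : Bd K B (G2 w (w * τ))) (h3 : Bd K B (G3 w (w * τ)))
    (h2' : Bd K B (G2 w' (w' * τ'))) (h3' : Bd K B (G3 w' (w' * τ'))) (hμ : Bd K B (μ ^ 2))
    {a b : ℤ} (ha : |(a : ℝ)| ≤ Real.exp B) (hb : |(b : ℝ)| ≤ Real.exp B) :
    ∃ (K' : IntermediateField ℚ ℂ) (ν : ℕ) (V₁ V₃ : PowerSeries K') (m₁ m₂ : K'),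
      FiniteDimensional ℚ K' ∧ Module.finrank ℚ K' ≤ 2 * Module.finrank ℚ K ∧
      AR K' (10 * B) (us (3 / 2 * G2 w (w * τ)) (2 * G3 w (w * τ)))
        (us (3 / 2 * G2 w' (w' * τ')) (2 * G3 w' (w' * τ'))) (μ * a) (μ * b) ν V₁ V₃ m₁ m₂ := by
  obtain ⟨K', hKK, hμK, hfd, hfr⟩ := exists_sqrt_ext K hμ.mem
  have bμ : Bd K' B μ := Bd.sk_sqrt hKK (by linarith) hμK hμ
  obtain ⟨V₁, ν₁, p1, q1, ar1, map1⟩ := Base_series (K := K') hB hI (h2.sk_ext hKK) (h3.sk_ext hKK)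
  obtain ⟨V₃, ν₃, p3, q3, ar3, map3⟩ := Base_series (K := K') hB hI' (h2'.sk_ext hKK) (h3'.sk_ext hKK)
  obtain ⟨n, hn, hnB, hint⟩ := bμ.den
  have hexp : Real.exp B ≤ Real.exp (10 * B) := Real.exp_le_exp.2 (by linarith)
  refine ⟨K', ν₁ * ν₃ * n, V₁, V₃, (⟨μ, hμK⟩ : K') * (a : K'), (⟨μ, hμK⟩ : K') * (b : K'), hfd, hfr, ?_⟩
  refine ⟨Nat.mul_pos (Nat.mul_pos p1 p3) hn, ?_, ?_, ?_, map1, map3, ?_, ?_,
    PArith_int hμK _ n hint a, PArith_int hμK _ n hint b, PArith_bd hB hμK bμ ha,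
    PArith_bd hB hμK bμ hb⟩
  · push_cast
    calc (ν₁ : ℝ) * ν₃ * n ≤ Real.exp (3 * B) * Real.exp (3 * B) * Real.exp B := by gcongr
      _ = Real.exp (3 * B + 3 * B + B) := by rw [← Real.exp_add, ← Real.exp_add]
      _ ≤ Real.exp (10 * B) := Real.exp_le_exp.2 (by linarith)
  · have e : ν₁ * ν₃ * n = ν₁ * (ν₃ * n) := by ring
    rw [e]
    exact ar1.mono (Real.exp_pos _).le _ hexp
  · have e : ν₁ * ν₃ * n = ν₃ * (ν₁ * n) := by ring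
    rw [e]
    exact ar3.mono (Real.exp_pos _).le _ hexp
  · push_cast
    rfl
  · push_cast
    rfl

end Pool.Agent.LGO.F.PE
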