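import Pool.Agent.LGO.F.PDefs

/-!
# LGO/F, engine P: upper bound for `Fc`

As `E3/Bnd.lean`.
-/

namespace Pool.Agent.LGO.F.PE

open Pool.Agent.LGO.E3

variable {L₁ L₂ L₃ : ℕ}

private lemma bnd_pw {x y : ℂ} {X : ℝ} (hX : 0 ≤ X) (hx : ‖x‖ ≤ Real.exp X)
    (hy : ‖y‖ ≤ Real.exp X) {a L : ℕ} (ha : a < L) :
    ‖x ^ a * y ^ (L - 1 - a)‖ ≤ Real.exp (L * X) := by
  rw [norm_mul, norm_pow, norm_pow]
  calc ‖x‖ ^ a * ‖y‖ ^ (L - 1 - a) ≤ Real.exp X ^ a * Real.exp X ^ (L - 1 - a) := by gcongr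
    _ = Real.exp X ^ (L - 1) := by rw [← pow_add]; congr 1; omega
    _ = Real.exp (((L - 1 : ℕ) : ℝ) * X) := by rw [Real.exp_nat_mul]
    _ ≤ Real.exp (L * X) := by
      apply Real.exp_le_exp.2
      apply mul_le_mul_of_nonneg_right _ hX
      exact_mod_cast Nat.sub_le L 1

theorem bndc {s₁ e₁ s₂ e₂ s₃ e₃ : ℂ → ℂ} {E₁ E₂ E₃ : ℝ → ℝ} (h₁ : Grf E₁ s₁ e₁)
    (h₂ : Grf E₂ s₂ e₂) (h₃ : Grf E₃ s₃ e₃) (κ : ℂ) (p : Ix L₁ L₂ L₃ → ℂ) (S : ℕ) (hS : 1 ≤ S)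
    (h₁0 : 0 ≤ E₁ (9 * S)) (h₂0 : 0 ≤ E₂ (9 * S)) (h₃0 : 0 ≤ E₃ (9 * S))
    (z v : ℂ) (hz : ‖z‖ ≤ 8 * S) (hv : ‖v‖ ≤ 1 / (1 + ‖κ‖)) :
    ‖Fc s₁ e₁ s₂ e₂ s₃ e₃ κ p (z, v)‖ ≤
      (∑ q, ‖p q‖) * Real.exp (L₁ * E₁ (9 * S) + L₂ * E₂ (9 * S) + L₃ * E₃ (9 * S)) := by
  have hS' : (1 : ℝ) ≤ S := by exact_mod_cast hS
  have hκ : 0 ≤ ‖κ‖ := norm_nonneg κ
  have hv1 : ‖v‖ ≤ 1 := hv.trans (by rw [div_le_one (by linarith)]; linarith)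
  have hκv : ‖κ * v‖ ≤ 1 := by
    rw [norm_mul]
    calc ‖κ‖ * ‖v‖ ≤ ‖κ‖ * (1 / (1 + ‖κ‖)) := mul_le_mul_of_nonneg_left hv hκ
      _ ≤ 1 := by rw [mul_one_div, div_le_one (by linarith)]; linarith
  have hz1 : ‖z‖ ≤ 9 * S := by linarith
  have hz2 : ‖z + v‖ ≤ 9 * S := (norm_add_le _ _).trans (by linarith)
  have hz3 : ‖z + κ * v‖ ≤ 9 * S := (norm_add_le _ _).trans (by linarith)
  have g1 := h₁ (9 * S) z (by linarith) hz1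
  have g2 := h₂ (9 * S) (z + v) (by linarith) hz2
  have g3 := h₃ (9 * S) (z + κ * v) (by linarith) hz3
  rw [Fc, Finset.sum_mul]
  refine (norm_sum_le _ _).trans (Finset.sum_le_sum fun q _ => ?_)
  rw [norm_mul, norm_mul, norm_mul]
  have a1 := bnd_pw h₁0 g1.1 g1.2 q.1.2
  have a2 := bnd_pw h₂0 g2.1 g2.2 q.2.1.2
  have a3 := bnd_pw h₃0 g3.1 g3.2 q.2.2.2
  calc _ ≤ ‖p q‖ * Real.exp (L₁ * E₁ (9 * S)) * Real.exp (L₂ * E₂ (9 * S)) *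
        Real.exp (L₃ * E₃ (9 * S)) := by gcongr
    _ = _ := by
      rw [mul_assoc, mul_assoc, ← Real.exp_add, ← Real.exp_add]
      congr 2
      ring

end Pool.Agent.LGO.F.PE
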