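import Mathlib

/-!
# LGO/F, Engine P, linear algebra: determinant of a block

`det_block`: the rows of the block are combinations `∑_(j ≤ m) t_j B_j` with `|t_j| ≤ exp (X - κ (m - j)^2)` and
`|B_ji| ≤ Y`.  Expanding the determinant over the maps `rows → {0, ..., m}` only the injective maps
count, and `∑ (m - j)^2 ≥ ∑_(i < r) i^2` for `r` different `j`.
-/

namespace Pool.Agent.LGO.F.PL

open Finset

/-- the sum of a monotone function over `r` different natural numbers -/
theorem sum_range_le_sum {F : ℕ → ℝ} (hF : Monotone F) (s : Finset ℕ) :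
    ∑ i ∈ range s.card, F i ≤ ∑ i ∈ s, F i := by
  induction s using Finset.induction_on_max with
  | empty => simp
  | insert a s h ih =>
    have ha : a ∉ s := fun h' => lt_irrefl _ (h a h')
    rw [card_insert_of_notMem ha, sum_insert ha, sum_range_succ, add_comm]
    have h1 : s.card ≤ a := by
      have h2 : s ⊆ range a := fun x hx => mem_range.2 (h x hx)
      simpa using card_le_card h2
    exact add_le_add (hF h1) ih

theorem sum_le_of_injective {ι : Type*} [Fintype ι] {F : ℕ → ℝ} (hF : Monotone F) {g : ι → ℕ}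
    (hg : Function.Injective g) : ∑ i ∈ range (Fintype.card ι), F i ≤ ∑ a, F (g a) := by
  have h1 : ∑ a, F (g a) = ∑ i ∈ univ.map ⟨g, hg⟩, F i := by
    rw [sum_map]
    rfl
  have h2 : Fintype.card ι = (univ.map ⟨g, hg⟩ : Finset ℕ).card := by
    rw [card_map, card_univ]
  rw [h1, h2]
  exact sum_range_le_sum hF _

/-- the determinant of a block -/
theorem det_block {ι : Type*} [Fintype ι] [DecidableEq ι] (m : ℕ) (t : ι → ℕ → ℂ)
    (B : ℕ → ι → ℂ) {X κ Y : ℝ} (hκ : 0 ≤ κ) (hY : 0 ≤ Y)
    (ht : ∀ a, ∀ j ≤ m, ‖t a j‖ ≤ Real.exp (X - κ * ((m : ℝ) - j) ^ 2))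
    (hB : ∀ j ≤ m, ∀ b, ‖B j b‖ ≤ Y) :
    ‖(Matrix.of fun a b => ∑ j ∈ range (m + 1), t a j * B j b).det‖ ≤
      Real.exp (Fintype.card ι * X - κ * ∑ i ∈ range (Fintype.card ι), (i : ℝ) ^ 2) *
        (((m : ℝ) + 1) * Fintype.card ι * Y) ^ Fintype.card ι := by
  classical
  obtain ⟨r, hr⟩ : ∃ r, r = Fintype.card ι := ⟨_, rfl⟩
  have h1 : (Matrix.of fun a b => ∑ j ∈ range (m + 1), t a j * B j b).det =
      ∑ f : ι → Fin (m + 1), (∏ a, t a (f a)) * (Matrix.of fun a b => B (f a) b).det := by
    have h2 := (Matrix.detRowAlternating (n := ι) (R := ℂ)).toMultilinearMap.map_sum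
      (fun (a : ι) (j : Fin (m + 1)) => t a j • (B j : ι → ℂ))
    have h3 : (Matrix.of fun a b => ∑ j ∈ range (m + 1), t a j * B j b) =
        fun a => ∑ j : Fin (m + 1), t a j • (B j : ι → ℂ) := by
      funext a b
      rw [Matrix.of_apply, Finset.sum_apply, ← Fin.sum_univ_eq_sum_range (fun j => t a j * B j b)]
      rfl
    rw [h3]
    refine h2.trans (sum_congr rfl fun f _ => ?_)
    rw [MultilinearMap.map_smul_univ]
    rfl
  have h4 : ∀ f : ι → Fin (m + 1), ‖(∏ a, t a (f a)) * (Matrix.of fun a b => B (f a) b).det‖ ≤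
      Real.exp (r * X - κ * ∑ i ∈ range r, (i : ℝ) ^ 2) * (r * Y) ^ r := by
    intro f
    by_cases hf : Function.Injective f
    · rw [norm_mul]
      refine mul_le_mul ?_ ?_ (norm_nonneg _) (Real.exp_nonneg _)
      · rw [norm_prod]
        calc ∏ a, ‖t a (f a)‖ ≤ ∏ a, Real.exp (X - κ * ((m : ℝ) - (f a : ℕ)) ^ 2) :=
              prod_le_prod (fun _ _ => norm_nonneg _) fun a _ => ht a _ (Nat.lt_succ_iff.1 (f a).2)
          _ = Real.exp (r * X - κ * ∑ a, ((m : ℝ) - (f a : ℕ)) ^ 2) := by
              rw [← Real.exp_sum, sum_sub_distrib, ← mul_sum]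
              simp [hr]
          _ ≤ _ := by
              refine Real.exp_le_exp.2 (sub_le_sub_left (mul_le_mul_of_nonneg_left ?_ hκ) _)
              have h5 : ∀ a, ((m : ℝ) - (f a : ℕ)) ^ 2 = ((m - (f a : ℕ) : ℕ) : ℝ) ^ 2 := fun a => by
                rw [Nat.cast_sub (Nat.lt_succ_iff.1 (f a).2)]
              simp only [h5]
              have h6 : Function.Injective fun a => m - (f a : ℕ) := by
                intro a a' h
                have h7 := Nat.lt_succ_iff.1 (f a).2
                have h8 := Nat.lt_succ_iff.1 (f a').2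
                simp only at h
                exact hf (Fin.ext (by omega))
              rw [hr]
              exact sum_le_of_injective (F := fun n => (n : ℝ) ^ 2) (fun x y hxy => by
                have : (x : ℝ) ≤ y := by exact_mod_cast hxy
                simp only
                gcongr) h6
      · rw [Matrix.det_apply]
        calc ‖∑ σ : Equiv.Perm ι, Equiv.Perm.sign σ • ∏ i, (Matrix.of fun a b => B (f a) b) (σ i) i‖ ≤
            ∑ σ : Equiv.Perm ι, Y ^ r := by
              refine norm_sum_le_of_le _ fun σ _ => ?_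
              have h9 : ‖∏ i, (Matrix.of fun a b => B (f a) b) (σ i) i‖ ≤ Y ^ r := by
                rw [norm_prod, hr, ← card_univ, ← prod_const]
                exact prod_le_prod (fun _ _ => norm_nonneg _) fun a _ =>
                  hB _ (Nat.lt_succ_iff.1 (f (σ a)).2) _
              rcases Int.units_eq_one_or (Equiv.Perm.sign σ) with h | h
              · rw [h, one_smul]
                exact h9
              · rw [h, Units.smul_def, Units.val_neg, Units.val_one, neg_smul, one_smul, norm_neg]
                exact h9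
          _ ≤ (r * Y) ^ r := by
              rw [sum_const, card_univ, Fintype.card_perm, ← hr, nsmul_eq_mul, mul_pow]
              gcongr
              exact_mod_cast Nat.factorial_le_pow r
    · have h5 : (Matrix.of fun a b => B (f a) b).det = 0 := by
        rw [Function.Injective] at hf
        push Not at hf
        obtain ⟨a, a', h6, h7⟩ := hf
        refine Matrix.det_zero_of_row_eq h7 ?_
        funext b
        simp [h6]
      rw [h5, mul_zero, norm_zero]
      positivity
  rw [h1, ← hr]
  calc ‖∑ f : ι → Fin (m + 1), (∏ a, t a (f a)) * (Matrix.of fun a b => B (f a) b).det‖ ≤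
      ∑ f : ι → Fin (m + 1), Real.exp (r * X - κ * ∑ i ∈ range r, (i : ℝ) ^ 2) * (r * Y) ^ r :=
        norm_sum_le_of_le _ fun f _ => h4 f
    _ = _ := by
        rw [sum_const, card_univ, Fintype.card_fun, Fintype.card_fin, ← hr, nsmul_eq_mul]
        push_cast
        rw [mul_assoc ((m : ℝ) + 1), mul_pow ((m : ℝ) + 1)]
        ring

end Pool.Agent.LGO.F.PL
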