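import Mathlib

/-!
# LGO/F, Engine P, linear algebra: choice of the columns, orthonormal rows

`c m i` (`i ≤ m`): linear forms on `ℂ^n`, `m` = the level.  Columns are chosen level by level, so that the chosen
forms of level `< m` span all forms of level `< m` (`exists_sel`, `exists_cols`).  The conjugates `u k` of the
Gram-Schmidt vectors of the columns are unit vectors killed by all forms of level smaller than the level of the
`k`-th column; the matrix `c (col y) (u x)` is block triangular for the level (`pl_fin`).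
-/

namespace Pool.Agent.LGO.F.PL

open Finset

/-- the pairs `(m', i)` with `i ≤ m' < m` -/
def tt (m : ℕ) : Set (ℕ × ℕ) := {x | x.2 ≤ x.1 ∧ x.1 < m}

theorem tt_mono {m m' : ℕ} (h : m ≤ m') : tt m ⊆ tt m' := fun _ hx => ⟨hx.1, hx.2.trans_le h⟩

theorem tt_finite (m : ℕ) : (tt m).Finite := by
  refine Set.Finite.subset (Set.Finite.prod (Set.finite_lt_nat m) (Set.finite_lt_nat m)) ?_
  rintro ⟨a, b⟩ ⟨h1, h2⟩
  exact ⟨h2, lt_of_le_of_lt h1 h2⟩

theorem exists_sel {E : Type*} [AddCommGroup E] [Module ℂ E] (v : ℕ × ℕ → E) (M : ℕ) :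
    ∃ S : Set (ℕ × ℕ), S ⊆ tt M ∧ LinearIndepOn ℂ v S ∧
      ∀ m ≤ M, ∀ x ∈ tt m, v x ∈ Submodule.span ℂ (v '' (S ∩ tt m)) := by
  induction M with
  | zero =>
    refine ⟨∅, Set.empty_subset _, linearIndepOn_empty _ _, fun m hm x hx => ?_⟩
    exact absurd hx.2 (by omega)
  | succ M ih =>
    obtain ⟨S, hS, hli, hsp⟩ := ih
    have h1 : S ⊆ tt (M + 1) := hS.trans (tt_mono (Nat.le_succ M))
    refine ⟨hli.extend h1, hli.extend_subset h1, hli.linearIndepOn_extend h1, fun m hm x hx => ?_⟩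
    rcases Nat.lt_or_ge M m with h2 | h2
    · have h3 : m = M + 1 := by omega
      subst h3
      rw [Set.inter_eq_left.2 (hli.extend_subset h1)]
      exact hli.image_subset_span_image_extend h1 ⟨x, hx, rfl⟩
    · exact Submodule.span_mono (Set.image_mono (Set.inter_subset_inter_left _ (hli.subset_extend h1))) (hsp m h2 x hx)

theorem exists_cols {n : ℕ} (v : ℕ × ℕ → EuclideanSpace ℂ (Fin n)) (M : ℕ)
    (hv : Submodule.span ℂ (v '' tt M) = ⊤) :
    ∃ col : Fin n → ℕ × ℕ, Function.Injective col ∧ (∀ k, col k ∈ tt M) ∧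
      Monotone (fun k => (col k).1) ∧
      ∀ m ≤ M, ∀ x ∈ tt m, v x ∈ Submodule.span ℂ (v '' (Set.range col ∩ tt m)) := by
  obtain ⟨S, hS, hli, hsp⟩ := exists_sel v M
  have hfin : Finite S := (tt_finite M).subset hS
  have : Fintype S := Fintype.ofFinite S
  have h1 : Submodule.span ℂ (Set.range fun x : S => v x) = ⊤ := by
    rw [eq_top_iff, ← hv, Submodule.span_le]
    rintro _ ⟨x, hx, rfl⟩
    have h2 := hsp M le_rfl x hx
    rw [Set.inter_eq_left.2 hS] at h2
    have h3 : (Set.range fun x : S => v x) = v '' S := by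
      rw [Set.image_eq_range]
    rw [h3]
    exact h2
  have h2 : Fintype.card S = n := by
    have h3 := finrank_span_eq_card (R := ℂ) (b := fun x : S => v x) hli
    rw [h1, finrank_top, finrank_euclideanSpace, Fintype.card_fin] at h3
    exact h3.symm
  have e : Fin n ≃ S := (Fintype.equivFinOfCardEq h2).symm
  obtain ⟨s, hs⟩ : ∃ s : Equiv.Perm (Fin n), s = Tuple.sort fun k => ((e k : ℕ × ℕ)).1 := ⟨_, rfl⟩
  refine ⟨fun k => (e (s k) : ℕ × ℕ), ?_, fun k => hS (e (s k)).2, ?_, fun m hm x hx => ?_⟩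
  · intro k k' h
    exact s.injective (e.injective (Subtype.ext h))
  · rw [hs]
    exact Tuple.monotone_sort fun k => ((e k : ℕ × ℕ)).1
  · have h4 : Set.range (fun k => (e (s k) : ℕ × ℕ)) = S := by
      ext y
      constructor
      · rintro ⟨k, rfl⟩
        exact (e (s k)).2
      · intro hy
        refine ⟨s.symm (e.symm ⟨y, hy⟩), ?_⟩
        simp
    rw [h4]
    exact hsp m hm x hx

/-- the vector of the values of a form at the standard basis -/
noncomputable def vec {n : ℕ} (c : ℕ → ℕ → (Fin n → ℂ) →ₗ[ℂ] ℂ) (x : ℕ × ℕ) :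
    EuclideanSpace ℂ (Fin n) := WithLp.toLp 2 fun q => c x.1 x.2 (Pi.single q 1)

theorem form_eq {n : ℕ} (f : (Fin n → ℂ) →ₗ[ℂ] ℂ) (p : Fin n → ℂ) :
    f p = ∑ q, p q * f (Pi.single q 1) := by
  have h : p = ∑ q, p q • (Pi.single q (1 : ℂ) : Fin n → ℂ) := by
    ext a
    simp [Finset.sum_apply, Pi.single_apply]
  conv_lhs => rw [h]
  simp [map_sum, map_smul]

theorem inner_vec {n : ℕ} (c : ℕ → ℕ → (Fin n → ℂ) →ₗ[ℂ] ℂ) (b : EuclideanSpace ℂ (Fin n))
    (x : ℕ × ℕ) : inner ℂ b (vec c x) = c x.1 x.2 (fun q => (starRingEnd ℂ) (b q)) := by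
  rw [form_eq, PiLp.inner_apply]
  refine sum_congr rfl fun q _ => ?_
  rw [RCLike.inner_apply, mul_comm]
  rfl

theorem pl_fin (n T : ℕ) (c : ℕ → ℕ → (Fin n → ℂ) →ₗ[ℂ] ℂ)
    (hinj : ∀ p : Fin n → ℂ, (∀ m ≤ T, ∀ i ≤ m, c m i p = 0) → p = 0) :
    ∃ (col : Fin n → ℕ × ℕ) (u : Fin n → Fin n → ℂ), Function.Injective col ∧
      (∀ q, (col q).2 ≤ (col q).1 ∧ (col q).1 ≤ T) ∧ (∀ k, ∑ q, ‖u k q‖ ^ 2 = 1) ∧
      (∀ k, ∀ m' < (col k).1, ∀ i ≤ m', c m' i (u k) = 0) ∧
      (Matrix.of fun q q' => c (col q').1 (col q').2 (Pi.single q 1)).det ≠ 0 ∧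
      ‖(Matrix.of fun q q' => c (col q').1 (col q').2 (Pi.single q 1)).det‖ =
        ∏ m ∈ range (T + 1),
          ‖(Matrix.of fun (x y : {k // (col k).1 = m}) => c (col y).1 (col y).2 (u x)).det‖ := by
  classical
  have hspan : Submodule.span ℂ (vec c '' tt (T + 1)) = ⊤ := by
    rw [← Submodule.orthogonal_eq_bot_iff, Submodule.eq_bot_iff]
    intro b hb
    have h1 := hinj (fun q => (starRingEnd ℂ) (b q)) fun m hm i hi => by
      rw [← inner_vec c b (m, i)]
      have h2 : (m, i) ∈ tt (T + 1) := ⟨hi, Nat.lt_succ_of_le hm⟩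
      exact Submodule.inner_left_of_mem_orthogonal
        (Submodule.subset_span (Set.mem_image_of_mem (vec c) h2)) hb
    ext q
    have h2 := congrFun h1 q
    simp only [Pi.zero_apply, map_eq_zero] at h2
    simpa using h2
  obtain ⟨col, hcol, htt, hmono, hsp⟩ := exists_cols (vec c) (T + 1) hspan
  have hd : Module.finrank ℂ (EuclideanSpace ℂ (Fin n)) = Fintype.card (Fin n) := by
    rw [finrank_euclideanSpace]
  obtain ⟨b, hb⟩ : ∃ b, b = InnerProductSpace.gramSchmidtOrthonormalBasis hd fun k => vec c (col k) := ⟨_, rfl⟩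
  have htri : ∀ k k' : Fin n, k' < k → inner ℂ (b k) (vec c (col k')) = 0 := by
    intro k k' h
    rw [hb]
    exact InnerProductSpace.gramSchmidtOrthonormalBasis_inv_triangular hd _ h
  obtain ⟨u, hu⟩ : ∃ u : Fin n → Fin n → ℂ, u = fun k q => (starRingEnd ℂ) (b k q) := ⟨_, rfl⟩
  have hcu : ∀ k x, c x.1 x.2 (u k) = inner ℂ (b k) (vec c x) := by
    intro k x
    rw [inner_vec, hu]
  have hlev : ∀ k, ∀ m' < (col k).1, ∀ i ≤ m', c m' i (u k) = 0 := by
    intro k m' hm' i hi
    have h1 := hsp (col k).1 (by have := (htt k).2; omega) (m', i) ⟨hi, hm'⟩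
    have h2 : ∀ w ∈ Submodule.span ℂ (vec c '' (Set.range col ∩ tt (col k).1)), inner ℂ (b k) w = 0 := by
      intro w hw
      induction hw using Submodule.span_induction with
      | mem w hw =>
        obtain ⟨x, ⟨⟨k', rfl⟩, h3⟩, rfl⟩ := hw
        refine htri k k' (lt_of_not_ge fun h4 => ?_)
        exact absurd (hmono h4) (not_le.2 h3.2)
      | zero => exact inner_zero_right _
      | add x y _ _ hx hy => rw [inner_add_right, hx, hy, add_zero]
      | smul r x _ hx => rw [inner_smul_right, hx, mul_zero]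
    exact (hcu k (m', i)).trans (h2 _ h1)
  obtain ⟨A, hA⟩ : ∃ A : Matrix (Fin n) (Fin n) ℂ,
    A = Matrix.of fun q q' => c (col q').1 (col q').2 (Pi.single q 1) := ⟨_, rfl⟩
  obtain ⟨D, hD⟩ : ∃ D : Matrix (Fin n) (Fin n) ℂ,
    D = Matrix.of fun k k' => c (col k').1 (col k').2 (u k) := ⟨_, rfl⟩
  have hDU : D = Matrix.of u * A := by
    ext k k'
    rw [Matrix.mul_apply, hD, hA]
    simp only [Matrix.of_apply]
    exact form_eq _ _
  have hUU : Matrix.of u * (Matrix.of u).conjTranspose = 1 := by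
    ext k k'
    rw [Matrix.mul_apply, Matrix.one_apply]
    have h1 : inner ℂ (b k) (b k') = if k = k' then (1 : ℂ) else 0 := by
      rw [orthonormal_iff_ite.1 b.orthonormal]
    rw [← h1, PiLp.inner_apply]
    refine sum_congr rfl fun q _ => ?_
    rw [RCLike.inner_apply, mul_comm]
    simp [hu, Matrix.conjTranspose_apply]
  have hdetU : ‖(Matrix.of u).det‖ = 1 := by
    have h1 := congrArg Matrix.det hUU
    rw [Matrix.det_mul, Matrix.det_conjTranspose, Matrix.det_one] at h1
    have h2 := congrArg norm h1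
    rw [norm_mul, norm_star, norm_one] at h2
    nlinarith [norm_nonneg (Matrix.of u).det]
  have hdet : ‖A.det‖ = ‖D.det‖ := by
    rw [hDU, Matrix.det_mul, norm_mul, hdetU, one_mul]
  refine ⟨col, u, hcol, fun q => ⟨(htt q).1, ?_⟩, fun k => ?_, hlev, ?_, ?_⟩
  · have := (htt q).2
    omega
  · have h1 := b.orthonormal.1 k
    rw [EuclideanSpace.norm_eq, Real.sqrt_eq_one] at h1
    rw [← h1, hu]
    simp
  · rw [← hA]
    intro h0
    obtain ⟨p, hp0, hp⟩ := Matrix.exists_vecMul_eq_zero_iff.2 h0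
    refine hp0 (hinj p fun m hm i hi => ?_)
    have h1 : ∀ k, c (col k).1 (col k).2 p = 0 := by
      intro k
      have h2 := congrFun hp k
      rw [form_eq]
      simpa [Matrix.vecMul, dotProduct, hA] using h2
    have h2 := hsp (T + 1) le_rfl (m, i) ⟨hi, Nat.lt_succ_of_le hm⟩
    have h3 : ∀ w ∈ Submodule.span ℂ (vec c '' (Set.range col ∩ tt (T + 1))),
        inner ℂ (WithLp.toLp 2 fun q => (starRingEnd ℂ) (p q) : EuclideanSpace ℂ (Fin n)) w = 0 := by
      intro w hw
      induction hw using Submodule.span_induction with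
      | mem w hw =>
        obtain ⟨x, ⟨⟨k', rfl⟩, h3⟩, rfl⟩ := hw
        rw [inner_vec]
        simpa using h1 k'
      | zero => exact inner_zero_right _
      | add x y _ _ hx hy => rw [inner_add_right, hx, hy, add_zero]
      | smul r x _ hx => rw [inner_smul_right, hx, mul_zero]
    have h4 := h3 _ h2
    rw [inner_vec] at h4
    simpa using h4
  · rw [← hA, hdet]
    have hbt : D.BlockTriangular fun k => (col k).1 := by
      intro k k' h
      rw [hD, Matrix.of_apply]
      refine (hcu k (col k')).trans (htri k k' (lt_of_not_ge fun h4 => ?_))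
      exact absurd (hmono h4) (not_le.2 h)
    rw [hbt.det, norm_prod]
    have h1 : ∀ m, ‖(D.toSquareBlock (fun k => (col k).1) m).det‖ =
        ‖(Matrix.of fun (x y : {k // (col k).1 = m}) => c (col y).1 (col y).2 (u x)).det‖ := by
      intro m
      congr 2
      rw [hD]
      rfl
    simp only [h1]
    refine prod_subset ?_ ?_
    · intro m hm
      obtain ⟨k, -, rfl⟩ := mem_image.1 hm
      have := (htt k).2
      exact mem_range.2 this
    · intro m _ hm
      have : IsEmpty {k // (col k).1 = m} := ⟨fun x => hm (mem_image.2 ⟨x.1, mem_univ _, x.2⟩)⟩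
      rw [Matrix.det_isEmpty, norm_one]

end Pool.Agent.LGO.F.PL
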