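import Mathlib
import Pool.Agent.LGO.F.PLBlk
import Pool.Agent.LGO.F.PLSel

/-!
# LGO/F, Engine P, linear algebra: the upper bound of a minor

`pl_main`: `c m i` (`i ≤ m ≤ T`) are linear forms on `ℂ^ι` without a common zero.  If for a unit vector `p` killed by the
forms of level `< m` the values `c m i p` are `∑_(j ≤ m) t_j B_ji` with `|t_j| ≤ exp (X - κ (m - j)^2)`, then
some minor of size `|ι|` of the matrix `c m i (e_q)` is not zero and has absolute value at most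
`exp (|ι| X - κ (|ι|^3 / (3 (T + 1)^2) - (T + 1) |ι| / 2)) ((T + 1)^2 Y)^|ι|`.
-/

namespace Pool.Agent.LGO.F.PL

open Finset

theorem sum_sq_ge (r : ℕ) : (r : ℝ) ^ 3 / 3 - (r : ℝ) ^ 2 / 2 ≤ ∑ i ∈ range r, (i : ℝ) ^ 2 := by
  have h : ∑ i ∈ range r, (i : ℝ) ^ 2 = (r : ℝ) ^ 3 / 3 - (r : ℝ) ^ 2 / 2 + r / 6 := by
    induction r with
    | zero => simp
    | succ r ih =>
      rw [sum_range_succ, ih]
      push_cast
      ring
  rw [h]
  have : (0 : ℝ) ≤ r := Nat.cast_nonneg r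
  linarith

/-- the last step: cubes -/
theorem numerics {n T : ℕ} {r : ℕ → ℕ} (h1 : ∑ m ∈ range (T + 1), r m = n)
    (h2 : ∀ m ∈ range (T + 1), r m ≤ T + 1) :
    (n : ℝ) ^ 3 / (3 * ((T : ℝ) + 1) ^ 2) - ((T : ℝ) + 1) * n / 2 ≤
      ∑ m ∈ range (T + 1), ∑ i ∈ range (r m), (i : ℝ) ^ 2 := by
  have hn : (n : ℝ) = ∑ m ∈ range (T + 1), (r m : ℝ) := by
    rw [← h1]
    push_cast
    rfl
  have h3 : (n : ℝ) ^ 3 / ((T : ℝ) + 1) ^ 2 ≤ ∑ m ∈ range (T + 1), (r m : ℝ) ^ 3 := by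
    have h4 := pow_sum_div_card_le_sum_pow (s := range (T + 1)) (f := fun m => (r m : ℝ))
      (fun _ _ => Nat.cast_nonneg _) 2
    rw [card_range, ← hn] at h4
    push_cast at h4
    exact h4
  have h4 : ∑ m ∈ range (T + 1), (r m : ℝ) ^ 2 ≤ ((T : ℝ) + 1) * n := by
    rw [hn, mul_sum]
    refine sum_le_sum fun m hm => ?_
    have h5 : (r m : ℝ) ≤ (T : ℝ) + 1 := by exact_mod_cast h2 m hm
    rw [sq]
    exact mul_le_mul_of_nonneg_right h5 (Nat.cast_nonneg _)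
  calc (n : ℝ) ^ 3 / (3 * ((T : ℝ) + 1) ^ 2) - ((T : ℝ) + 1) * n / 2 =
        (n : ℝ) ^ 3 / ((T : ℝ) + 1) ^ 2 / 3 - ((T : ℝ) + 1) * n / 2 := by
        rw [mul_comm (3 : ℝ), div_mul_eq_div_div]
    _ ≤ (∑ m ∈ range (T + 1), (r m : ℝ) ^ 3) / 3 - (∑ m ∈ range (T + 1), (r m : ℝ) ^ 2) / 2 := by
        linarith
    _ = ∑ m ∈ range (T + 1), ((r m : ℝ) ^ 3 / 3 - (r m : ℝ) ^ 2 / 2) := by
        rw [sum_sub_distrib, sum_div, sum_div]
    _ ≤ _ := sum_le_sum fun m _ => sum_sq_ge (r m)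

theorem pl_main_fin (n T : ℕ) (c : ℕ → ℕ → (Fin n → ℂ) →ₗ[ℂ] ℂ)
    (hinj : ∀ p : Fin n → ℂ, (∀ m ≤ T, ∀ i ≤ m, c m i p = 0) → p = 0)
    (B : ℕ → ℕ → ℕ → ℂ) (X κ Y : ℝ) (hκ : 0 ≤ κ) (hY : 1 ≤ Y)
    (hB : ∀ m ≤ T, ∀ j ≤ m, ∀ i ≤ m, ‖B m j i‖ ≤ Y)
    (hbd : ∀ m ≤ T, ∀ p : Fin n → ℂ, ∑ q, ‖p q‖ ^ 2 = 1 → (∀ m' < m, ∀ i ≤ m', c m' i p = 0) →
      ∃ t : ℕ → ℂ, (∀ i ≤ m, c m i p = ∑ j ∈ range (m + 1), t j * B m j i) ∧
        ∀ j ≤ m, ‖t j‖ ≤ Real.exp (X - κ * ((m : ℝ) - j) ^ 2)) :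
    ∃ col : Fin n → ℕ × ℕ, Function.Injective col ∧ (∀ q, (col q).2 ≤ (col q).1 ∧ (col q).1 ≤ T) ∧
      (Matrix.of fun q q' => c (col q').1 (col q').2 (Pi.single q 1)).det ≠ 0 ∧
      ‖(Matrix.of fun q q' => c (col q').1 (col q').2 (Pi.single q 1)).det‖ ≤
        Real.exp (n * X - κ * ((n : ℝ) ^ 3 / (3 * ((T : ℝ) + 1) ^ 2) - ((T : ℝ) + 1) * n / 2)) *
          (((T : ℝ) + 1) ^ 2 * Y) ^ n := by
  classical
  obtain ⟨col, u, hcol, hc, hu, hlev, h0, hdet⟩ := pl_fin n T c hinj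
  refine ⟨col, hcol, hc, h0, ?_⟩
  rw [hdet]
  obtain ⟨r, hr⟩ : ∃ r : ℕ → ℕ, r = fun m => Fintype.card {k // (col k).1 = m} := ⟨_, rfl⟩
  have hrm : ∀ m, r m ≤ m + 1 := by
    intro m
    have h1 : Fintype.card {k // (col k).1 = m} ≤ Fintype.card (Fin (m + 1)) := by
      refine Fintype.card_le_of_injective (fun x => (⟨(col x.1).2, ?_⟩ : Fin (m + 1))) ?_
      · have h2 := (hc x.1).1
        have h3 := x.2
        omega
      · intro x y h
        have h2 := congrArg Fin.val h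
        simp only at h2
        exact Subtype.ext (hcol (Prod.ext (x.2.trans y.2.symm) h2))
    rw [Fintype.card_fin] at h1
    rw [hr]
    exact h1
  have hblock : ∀ m ∈ range (T + 1),
      ‖(Matrix.of fun (x y : {k // (col k).1 = m}) => c (col y).1 (col y).2 (u x)).det‖ ≤
        Real.exp (r m * X - κ * ∑ i ∈ range (r m), (i : ℝ) ^ 2) * (((T : ℝ) + 1) ^ 2 * Y) ^ (r m) := by
    intro m hm
    have hmT : m ≤ T := Nat.lt_succ_iff.1 (mem_range.1 hm)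
    have h1 : ∀ x : {k // (col k).1 = m}, ∃ t : ℕ → ℂ,
        (∀ i ≤ m, c m i (u x) = ∑ j ∈ range (m + 1), t j * B m j i) ∧
          ∀ j ≤ m, ‖t j‖ ≤ Real.exp (X - κ * ((m : ℝ) - j) ^ 2) := by
      intro x
      refine hbd m hmT (u x) (hu x) fun m' hm' => hlev x m' ?_
      rw [x.2]
      exact hm'
    choose t ht1 ht2 using h1
    have h2 : (Matrix.of fun (x y : {k // (col k).1 = m}) => c (col y).1 (col y).2 (u x)) =
        Matrix.of fun (x y : {k // (col k).1 = m}) => ∑ j ∈ range (m + 1), t x j * B m j (col y).2 := by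
      ext x y
      rw [Matrix.of_apply, Matrix.of_apply, ← ht1 x (col y).2 (by have := (hc y).1; have := y.2; omega), y.2]
    rw [h2]
    refine (det_block m t (fun j y => B m j (col y).2) hκ (by linarith) ht2 fun j hj y =>
      hB m hmT j hj _ (by have := (hc y).1; have := y.2; omega)).trans ?_
    have h3 : Fintype.card {k // (col k).1 = m} = r m := by rw [hr]
    rw [h3]
    refine mul_le_mul_of_nonneg_left (pow_le_pow_left₀ (by positivity) ?_ _) (Real.exp_nonneg _)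
    have h4 : (r m : ℝ) ≤ (T : ℝ) + 1 := by
      have := hrm m
      have : r m ≤ T + 1 := by omega
      exact_mod_cast this
    have h5 : (m : ℝ) ≤ T := by exact_mod_cast hmT
    have h6 : (0 : ℝ) ≤ m := Nat.cast_nonneg m
    calc ((m : ℝ) + 1) * (r m : ℝ) * Y ≤ ((T : ℝ) + 1) * ((T : ℝ) + 1) * Y := by gcongr
      _ = ((T : ℝ) + 1) ^ 2 * Y := by ring
  have hsum : ∑ m ∈ range (T + 1), r m = n := by
    have h1 := card_eq_sum_card_fiberwise (s := (univ : Finset (Fin n))) (t := range (T + 1))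
      (f := fun k => (col k).1) (fun k _ => mem_coe.2 (mem_range.2 (Nat.lt_succ_iff.2 (hc k).2)))
    rw [card_univ, Fintype.card_fin] at h1
    rw [h1]
    refine sum_congr rfl fun m _ => ?_
    rw [hr]
    exact Fintype.card_subtype _
  have hnum := numerics hsum fun m hm => by
    have := hrm m
    have := mem_range.1 hm
    omega
  calc ∏ m ∈ range (T + 1),
        ‖(Matrix.of fun (x y : {k // (col k).1 = m}) => c (col y).1 (col y).2 (u x)).det‖ ≤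
      ∏ m ∈ range (T + 1), Real.exp (r m * X - κ * ∑ i ∈ range (r m), (i : ℝ) ^ 2) *
        (((T : ℝ) + 1) ^ 2 * Y) ^ (r m) := prod_le_prod (fun _ _ => norm_nonneg _) hblock
    _ = Real.exp (n * X - κ * ∑ m ∈ range (T + 1), ∑ i ∈ range (r m), (i : ℝ) ^ 2) *
        (((T : ℝ) + 1) ^ 2 * Y) ^ n := by
        rw [prod_mul_distrib, ← Real.exp_sum, prod_pow_eq_pow_sum, hsum, sum_sub_distrib, ← sum_mul, ← mul_sum]
        have : ∑ m ∈ range (T + 1), (r m : ℝ) = n := by exact_mod_cast hsum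
        rw [this]
    _ ≤ _ := by
        gcongr

/-- ENGINE P, linear algebra -/
theorem pl_main {ι : Type} [Fintype ι] [DecidableEq ι] (T : ℕ) (c : ℕ → ℕ → (ι → ℂ) →ₗ[ℂ] ℂ)
    (hinj : ∀ p : ι → ℂ, (∀ m ≤ T, ∀ i ≤ m, c m i p = 0) → p = 0)
    (B : ℕ → ℕ → ℕ → ℂ) (X κ Y : ℝ) (hκ : 0 ≤ κ) (hY : 1 ≤ Y)
    (hB : ∀ m ≤ T, ∀ j ≤ m, ∀ i ≤ m, ‖B m j i‖ ≤ Y)
    (hbd : ∀ m ≤ T, ∀ p : ι → ℂ, ∑ q, ‖p q‖ ^ 2 = 1 → (∀ m' < m, ∀ i ≤ m', c m' i p = 0) →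
      ∃ t : ℕ → ℂ, (∀ i ≤ m, c m i p = ∑ j ∈ Finset.range (m + 1), t j * B m j i) ∧
        ∀ j ≤ m, ‖t j‖ ≤ Real.exp (X - κ * ((m : ℝ) - j) ^ 2)) :
    ∃ col : ι → ℕ × ℕ, Function.Injective col ∧ (∀ q, (col q).2 ≤ (col q).1 ∧ (col q).1 ≤ T) ∧
      (Matrix.of fun q q' => c (col q').1 (col q').2 (Pi.single q 1)).det ≠ 0 ∧
      ‖(Matrix.of fun q q' => c (col q').1 (col q').2 (Pi.single q 1)).det‖ ≤
        Real.exp (Fintype.card ι * X - κ * ((Fintype.card ι : ℝ) ^ 3 / (3 * ((T : ℝ) + 1) ^ 2) -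
          ((T : ℝ) + 1) * Fintype.card ι / 2)) * (((T : ℝ) + 1) ^ 2 * Y) ^ Fintype.card ι := by
  classical
  obtain ⟨n, hn⟩ : ∃ n, n = Fintype.card ι := ⟨_, rfl⟩
  rw [← hn]
  have e : ι ≃ Fin n := Fintype.equivFinOfCardEq hn.symm
  have hsum : ∀ p : Fin n → ℂ, ∑ q, ‖(p ∘ e) q‖ ^ 2 = ∑ q, ‖p q‖ ^ 2 := fun p =>
    Equiv.sum_comp e fun q => ‖p q‖ ^ 2
  obtain ⟨c', hc'⟩ : ∃ c' : ℕ → ℕ → (Fin n → ℂ) →ₗ[ℂ] ℂ, ∀ m i p, c' m i p = c m i (p ∘ e) :=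
    ⟨fun m i => (c m i).comp (LinearMap.funLeft ℂ ℂ e), fun m i p => rfl⟩
  obtain ⟨col, h1, h2, h3, h4⟩ := pl_main_fin n T c' (fun p hp => by
      have h := hinj (p ∘ e) fun m hm i hi => by
        rw [← hc']
        exact hp m hm i hi
      funext q
      simpa using congrFun h (e.symm q)) B X κ Y hκ hY hB (fun m hm p hp hlow => by
      obtain ⟨t, ht1, ht2⟩ := hbd m hm (p ∘ e) ((hsum p).trans hp) fun m' hm' i hi => by
        rw [← hc']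
        exact hlow m' hm' i hi
      refine ⟨t, fun i hi => ?_, ht2⟩
      rw [hc']
      exact ht1 i hi)
  have h5 : (Matrix.of fun q q' => c (col (e q')).1 (col (e q')).2 (Pi.single q 1)) =
      (Matrix.of fun q q' => c' (col q').1 (col q').2 (Pi.single q 1)).submatrix e e := by
    ext q q'
    rw [Matrix.submatrix_apply, Matrix.of_apply, Matrix.of_apply, hc']
    congr 1
    funext a
    simp [Pi.single_apply]
  refine ⟨col ∘ e, h1.comp e.injective, fun q => h2 (e q), ?_, ?_⟩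
  · simp only [Function.comp_apply]
    rw [h5, Matrix.det_submatrix_equiv_self]
    exact h3
  · simp only [Function.comp_apply]
    rw [h5, Matrix.det_submatrix_equiv_self]
    exact h4

end Pool.Agent.LGO.F.PL
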