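import Pool.Agent.LGO.F.PDefs
import Pool.Agent.LGO.E3.Maj
import Pool.Agent.LGO.E3.Hur
import Pool.Agent.LGO.Mul.Ht

/-!
# LGO/F, engine P: Liouville inequality for a minor

PROOF.  `A = exp V ≥ 1`, `W = L₁ L₂ L₃` = number of the rows (`Fintype.card`), `E = W (log W + T log T + T (log 4 + 4 V))`.
The entry `cc .. m i (Pi.single q 1)` is the coefficient of `X^i` of
`PowerSeries.coeff m (dirS U₁ U₁ U₃ l₁ l₂ q.1 q.2.1 q.2.2)` (unfold `cc_apply`, `fr`; the sum has one term), which is the image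
under `algebraMap K ℂ` of `x = (PowerSeries.coeff m (dirS V₁ V₁ V₃ m₁ m₂ ..)).coeff i` (`E3.map_dirS`, `AR.map₁`, `AR.map₃`,
`AR.e₁`, `AR.e₂`).  So the determinant is the image of the determinant `d : K` of these elements (`RingHom.map_det`).
* `dirS_int`: `m! ν^(2 m) x` is integral, so `T! ν^(2 T) x` is integral (`m ≤ T`), and `n := (T! ν^(2 T))^W` satisfies:
  `n d` integral (determinant of the matrix multiplied by `T! ν^(2 T)`, `Matrix.det_smul`; a determinant of integral elements is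
  integral).  `n ≤ exp (W (T log T + 2 T V)) ≤ exp E` (`T! ≤ T^T`, `Nat.factorial_le_pow`; `T log T = 0` for `T = 0`).
* `dirS_bd`: `‖σ x‖ ≤ (4 A²)^m ≤ (4 A²)^T`; `‖σ d‖ ≤ W! (4 A²)^(T W) ≤ exp E` (`Matrix.det_le` or `det_apply` and
  `norm_sum_le`; `W! ≤ W^W`).
* So `Bd K E (d : ℂ)`, `d ≠ 0`, and `Bd.lower` (LGO/Mul/Ht) with `σ = algebraMap K ℂ` gives `exp (-(2 D E)) ≤ ‖d‖`.
-/

namespace Pool.Agent.LGO.F.PE

open Polynomial Pool.Agent.LGO.E3

private lemma PLiou_entry {L₁ L₂ L₃ : ℕ} (U₁ U₃ : PowerSeries ℂ) (l₁ l₂ : ℂ) (m i : ℕ)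
    (q : Ix L₁ L₂ L₃) :
    cc U₁ U₁ U₃ l₁ l₂ L₁ L₂ L₃ m i (Pi.single q 1) =
      (PowerSeries.coeff m (dirS U₁ U₁ U₃ l₁ l₂ (q.1 : ℕ) (q.2.1 : ℕ) (q.2.2 : ℕ))).coeff i := by
  classical
  rw [cc_apply, fr, Finset.sum_eq_single q]
  · rw [Pi.single_eq_same, C_1, one_mul]
  · intro b _ hb
    rw [Pi.single_eq_of_ne hb, C_0, zero_mul]
  · intro hq
    exact absurd (Finset.mem_univ q) hq

private lemma PLiou_det {n : Type*} [Fintype n] [DecidableEq n] {M : Matrix n n ℂ} {b : ℝ}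
    (h : ∀ i j, ‖M i j‖ ≤ b) : ‖M.det‖ ≤ (Fintype.card n).factorial * b ^ Fintype.card n := by
  rw [Matrix.det_apply']
  refine (norm_sum_le _ _).trans ?_
  have h1 : ∀ σ ∈ (Finset.univ : Finset (Equiv.Perm n)),
      ‖((Equiv.Perm.sign σ : ℤ) : ℂ) * ∏ i, M (σ i) i‖ ≤ b ^ Fintype.card n := by
    intro σ _
    rw [norm_mul, norm_prod]
    have h2 : ‖((Equiv.Perm.sign σ : ℤ) : ℂ)‖ = 1 := by
      rcases Int.units_eq_one_or (Equiv.Perm.sign σ) with e | e <;> rw [e] <;> simp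
    rw [h2, one_mul]
    calc ∏ i, ‖M (σ i) i‖ ≤ ∏ _i : n, b :=
          Finset.prod_le_prod (fun _ _ => norm_nonneg _) fun i _ => h _ _
      _ = b ^ Fintype.card n := by rw [Finset.prod_const, Finset.card_univ]
  refine (Finset.sum_le_sum h1).trans ?_
  rw [Finset.sum_const, Finset.card_univ, Fintype.card_perm, nsmul_eq_mul]

private lemma PLiou_fact (n : ℕ) : (n.factorial : ℝ) ≤ Real.exp (n * Real.log n) := by
  rcases Nat.eq_zero_or_pos n with h | h
  · subst h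
    simp
  · have h1 : (n.factorial : ℝ) ≤ (n : ℝ) ^ n := by exact_mod_cast Nat.factorial_le_pow n
    have h2 : (0 : ℝ) < n := by exact_mod_cast h
    rw [mul_comm, Real.exp_mul, Real.exp_log h2, Real.rpow_natCast]
    exact h1

theorem liou {K : IntermediateField ℚ ℂ} [FiniteDimensional ℚ K] {D V : ℝ} {L₁ L₂ L₃ : ℕ}
    (hD : (Module.finrank ℚ K : ℝ) ≤ D) (hV : 0 ≤ V) {U₁ U₃ : PowerSeries ℂ} {l₁ l₂ : ℂ} {ν : ℕ}
    {V₁ V₃ : PowerSeries K} {m₁ m₂ : K} (h : AR K V U₁ U₃ l₁ l₂ ν V₁ V₃ m₁ m₂) (T : ℕ)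
    (col : Ix L₁ L₂ L₃ → ℕ × ℕ) (hcol : ∀ q, (col q).1 ≤ T)
    (hdet : (Matrix.of fun q q' : Ix L₁ L₂ L₃ => cc U₁ U₁ U₃ l₁ l₂ L₁ L₂ L₃ (col q').1 (col q').2
      (Pi.single q 1)).det ≠ 0) :
    Real.exp (-(2 * D * (((L₁ * L₂ * L₃ : ℕ) : ℝ) * (Real.log ((L₁ * L₂ * L₃ : ℕ) : ℝ) +
        T * Real.log T + T * (Real.log 4 + 4 * V))))) ≤
      ‖(Matrix.of fun q q' : Ix L₁ L₂ L₃ => cc U₁ U₁ U₃ l₁ l₂ L₁ L₂ L₃ (col q').1 (col q').2
        (Pi.single q 1)).det‖ := by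
  classical
  set f : K →+* ℂ := algebraMap K ℂ with hf
  set A : ℝ := Real.exp V with hA
  have hA1 : 1 ≤ A := Real.one_le_exp hV
  set W : ℕ := L₁ * L₂ * L₃ with hW
  have hcard : Fintype.card (Ix L₁ L₂ L₃) = W := by
    simp only [Ix, Fintype.card_prod, Fintype.card_fin]
    rw [hW]
    ring
  set x : Matrix (Ix L₁ L₂ L₃) (Ix L₁ L₂ L₃) K := Matrix.of fun q q' =>
    (PowerSeries.coeff (col q').1 (dirS V₁ V₁ V₃ m₁ m₂ (q.1 : ℕ) (q.2.1 : ℕ) (q.2.2 : ℕ))).coeff
      (col q').2 with hx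
  have hmat : (Matrix.of fun q q' : Ix L₁ L₂ L₃ => cc U₁ U₁ U₃ l₁ l₂ L₁ L₂ L₃ (col q').1
      (col q').2 (Pi.single q 1)) = f.mapMatrix x := by
    ext q q'
    rw [Matrix.of_apply, PLiou_entry, RingHom.mapMatrix_apply, Matrix.map_apply, hx,
      Matrix.of_apply, ← coeff_map, map_dirS, h.map₁, h.map₃]
    have e1 : f m₁ = l₁ := h.e₁
    have e2 : f m₂ = l₂ := h.e₂
    rw [e1, e2]
  rw [hmat, ← RingHom.map_det] at hdet ⊢
  set d : K := x.det with hd
  have hdC : f d = (d : ℂ) := rfl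
  set E : ℝ := (W : ℝ) * (Real.log (W : ℝ) + T * Real.log T + T * (Real.log 4 + 4 * V)) with hE
  have hlogW : 0 ≤ Real.log (W : ℝ) := Real.log_natCast_nonneg W
  have hlogT : 0 ≤ Real.log (T : ℝ) := Real.log_natCast_nonneg T
  have hlog4 : 0 ≤ Real.log 4 := Real.log_nonneg (by norm_num)
  have hW0 : (0 : ℝ) ≤ W := Nat.cast_nonneg W
  have hT0 : (0 : ℝ) ≤ T := Nat.cast_nonneg T
  have hE0 : 0 ≤ E := by positivity
  have hν1 : (1 : ℝ) ≤ ν := by exact_mod_cast h.one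
  -- integrality of the entries
  set c : ℕ := T.factorial * ν ^ (2 * T) with hc
  have hint : ∀ q q', IsIntegral ℤ ((c : K) * x q q') := by
    intro q q'
    have h1 := dirS_int h.ar₁ h.ar₁ h.ar₃ h.int₁ h.int₂ (q.1 : ℕ) (q.2.1 : ℕ) (q.2.2 : ℕ)
      (col q').1 (col q').2
    have hle := hcol q'
    obtain ⟨u, hu⟩ := Nat.factorial_dvd_factorial hle
    have e : (c : K) * x q q' = ((u * ν ^ (2 * (T - (col q').1)) : ℕ) : K) *
        (((col q').1.factorial : K) * (ν : K) ^ (2 * (col q').1) *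
        (PowerSeries.coeff (col q').1 (dirS V₁ V₁ V₃ m₁ m₂ (q.1 : ℕ) (q.2.1 : ℕ)
          (q.2.2 : ℕ))).coeff (col q').2) := by
      have e3 : 2 * T = 2 * (T - (col q').1) + 2 * (col q').1 := by omega
      rw [hc, hu, e3, pow_add, hx, Matrix.of_apply]
      push_cast
      ring
    rw [e]
    refine IsIntegral.mul ?_ h1
    have h2 := isIntegral_algebraMap (R := ℤ) (A := K)
      (x := ((u * ν ^ (2 * (T - (col q').1)) : ℕ) : ℤ))
    rwa [map_natCast] at h2
  have hcd : IsIntegral ℤ (((c ^ W : ℕ) : K) * d) := by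
    have h1 : IsIntegral ℤ ((c : K) • x).det := IsIntegral.det fun q q' => by
      rw [Matrix.smul_apply, smul_eq_mul]
      exact hint q q'
    rw [Matrix.det_smul, hcard] at h1
    rw [Nat.cast_pow]
    exact h1
  have hbd : Bd K E (d : ℂ) := by
    refine ⟨d.2, ⟨c ^ W, ?_, ?_, ?_⟩, ?_⟩
    · exact pow_pos (Nat.mul_pos (Nat.factorial_pos _) (pow_pos h.one _)) _
    · have h1 : (c : ℝ) ≤ Real.exp (T * Real.log T + 2 * T * V) := by
        rw [hc, Real.exp_add]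
        push_cast
        refine mul_le_mul (PLiou_fact T) ?_ (by positivity) (Real.exp_pos _).le
        calc (ν : ℝ) ^ (2 * T) ≤ (Real.exp V) ^ (2 * T) :=
              pow_le_pow_left₀ (by positivity) h.le _
          _ = Real.exp (2 * T * V) := by
              rw [← Real.exp_nat_mul]
              push_cast
              ring_nf
      push_cast
      calc (c : ℝ) ^ W ≤ (Real.exp (T * Real.log T + 2 * T * V)) ^ W :=
            pow_le_pow_left₀ (Nat.cast_nonneg _) h1 _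
        _ = Real.exp (W * (T * Real.log T + 2 * T * V)) := by rw [← Real.exp_nat_mul]
        _ ≤ Real.exp E := by
            apply Real.exp_le_exp.2
            rw [hE]
            apply mul_le_mul_of_nonneg_left _ hW0
            nlinarith [mul_nonneg hT0 hlog4, mul_nonneg hT0 hV]
    · have h1 : IsIntegral ℤ (f (((c ^ W : ℕ) : K) * d)) := hcd.map (f.toIntAlgHom)
      rw [map_mul, map_natCast] at h1
      exact h1
    · intro σ
      have e : σ ⟨(d : ℂ), d.2⟩ = (σ.mapMatrix x).det := by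
        rw [← RingHom.map_det]
      rw [e]
      have h1 : ∀ q q', ‖(σ.mapMatrix x) q q'‖ ≤ (4 * A ^ 2) ^ T := by
        intro q q'
        rw [RingHom.mapMatrix_apply, Matrix.map_apply, hx, Matrix.of_apply]
        refine (dirS_bd hA1 h.ar₁ h.ar₁ h.ar₃ σ (h.bd₁ σ) (h.bd₂ σ) _ _ _ _ _).trans ?_
        exact pow_le_pow_right₀ (by nlinarith) (hcol q')
      refine (PLiou_det h1).trans ?_
      rw [hcard]
      have h2 : ((4 * A ^ 2) ^ T) ^ W = Real.exp (W * (T * (Real.log 4 + 2 * V))) := by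
        have h3 : (4 * A ^ 2 : ℝ) = Real.exp (Real.log 4 + 2 * V) := by
          rw [Real.exp_add, Real.exp_log (by norm_num), hA, ← Real.exp_nat_mul]
          norm_num
        rw [h3, ← Real.exp_nat_mul, ← Real.exp_nat_mul]
      rw [h2]
      calc (W.factorial : ℝ) * Real.exp (W * (T * (Real.log 4 + 2 * V)))
          ≤ Real.exp (W * Real.log W) * Real.exp (W * (T * (Real.log 4 + 2 * V))) :=
            mul_le_mul_of_nonneg_right (PLiou_fact W) (Real.exp_pos _).le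
        _ = Real.exp (W * (Real.log W + T * (Real.log 4 + 2 * V))) := by
            rw [← Real.exp_add]
            ring_nf
        _ ≤ Real.exp E := by
            apply Real.exp_le_exp.2
            rw [hE]
            apply mul_le_mul_of_nonneg_left _ hW0
            nlinarith [mul_nonneg hT0 hlogT, mul_nonneg hT0 hV]
  have hd0 : (d : ℂ) ≠ 0 := hdet
  exact Bd.lower hD hE0 hbd hd0 f

end Pool.Agent.LGO.F.PE
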