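import Pool.Agent.LGO.F.PInj
import Pool.Agent.LGO.F.PLiou
import Pool.Agent.LGO.F.PNum
import Pool.Agent.LGO.F.PLMain
import Pool.Agent.LGO.H.JSize

/-!
# LGO/F, engine P: the core of the proof
-/

namespace Pool.Agent.LGO.F.PE

open Pool.Agent.Schn Pool.Agent.LGO.E3 Pool.Agent.EllSch Pool.Agent.LGO.Bs

theorem norm_Bb_le {τ : ℂ} {T j : ℕ} (hj : j ≤ T) (i : ℕ) : ‖Bb τ j i‖ ≤ (2 * (1 + ‖τ‖)) ^ T := by
  have h1 : (1 : ℝ) ≤ 1 + ‖τ‖ := by have := norm_nonneg τ; linarith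
  rw [Bb, norm_mul, norm_pow, norm_neg, Complex.norm_natCast]
  have h2 : ((Nat.choose j i : ℕ) : ℝ) ≤ 2 ^ j := by exact_mod_cast Nat.choose_le_two_pow j i
  have h3 : ‖τ‖ ^ (j - i) ≤ (1 + ‖τ‖) ^ j := by
    calc ‖τ‖ ^ (j - i) ≤ (1 + ‖τ‖) ^ (j - i) := pow_le_pow_left₀ (norm_nonneg _) (by linarith) _
      _ ≤ (1 + ‖τ‖) ^ j := pow_le_pow_right₀ h1 (Nat.sub_le j i)
  calc ((Nat.choose j i : ℕ) : ℝ) * ‖τ‖ ^ (j - i) ≤ 2 ^ j * (1 + ‖τ‖) ^ j := by gcongr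
    _ = (2 * (1 + ‖τ‖)) ^ j := by rw [mul_pow]
    _ ≤ (2 * (1 + ‖τ‖)) ^ T := pow_le_pow_right₀ (by linarith) hj

theorem pcore {Cz : ℕ} (hCz : 1 ≤ Cz) (hz : ZEst Cz) {c : ℝ} (hc : 1 ≤ c) : ∃ C : ℝ, 1 ≤ C ∧
    ∀ (K : IntermediateField ℚ ℂ) [FiniteDimensional ℚ K] (w τ c₁ c₂ μ d₁ d₂ : ℂ) (N : ℕ)
      (a b : ℤ) (G V D Y : ℝ) (s₁ e₁ s₂ e₂ s₃ e₃ : ℂ → ℂ) (ν : ℕ) (V₁ V₃ : PowerSeries K)
      (m₁ m₂ : K), ZD w τ c₁ c₂ N a b → Red τ → μ ≠ 0 → d₁ = μ * c₁ → d₂ = μ * c₂ → 0 ≤ G →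
      0 ≤ V → 1 ≤ D → (Module.finrank ℚ K : ℝ) ≤ D → 0 ≤ Y →
      AD c G N w τ (μ * (a * w + b * (w * τ))) (μ * a) (μ * b)
        (us (3 / 2 * G2 w (w * τ)) (2 * G3 w (w * τ))) (us (3 / 2 * G2 d₁ d₂) (2 * G3 d₁ d₂))
        s₁ e₁ s₂ e₂ s₃ e₃ →
      AR K V (us (3 / 2 * G2 w (w * τ)) (2 * G3 w (w * τ)))
        (us (3 / 2 * G2 d₁ d₂) (2 * G3 d₁ d₂)) (μ * a) (μ * b) ν V₁ V₃ m₁ m₂ →
      (∀ P Q : ℤ, IsCoprime P Q → (Int.gcd (a * P + b * Q) N : ℝ) ≤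
        Y * (P ^ 2 * τ.im + Q ^ 2 / τ.im)) →
      √N ≤ C * (G + D * (V + 1 + Real.log N + τ.im) + Y) := by
  obtain ⟨C, hC, hnum⟩ := pnum (450 * c) (by linarith) Cz hCz
  refine ⟨3 * C + 6, by linarith, ?_⟩
  intro K _ w τ c₁ c₂ μ d₁ d₂ N a b G V D Y s₁ e₁ s₂ e₂ s₃ e₃ ν V₁ V₃ m₁ m₂ hZ hred hμ hd₁ hd₂
    hG hV hD hfin hY0 hAD hAR hY
  have hi : 0 < τ.im := hZ.im
  have him : √3 / 2 ≤ τ.im := hred.half_le
  have h3 : (1.7 : ℝ) ≤ √3 := by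
    rw [show (1.7 : ℝ) = √(1.7 ^ 2) by rw [Real.sqrt_sq (by norm_num)]]
    exact Real.sqrt_le_sqrt (by norm_num)
  have hN := hZ.N1
  have hN1 : (1 : ℝ) ≤ N := by exact_mod_cast hN
  have hlogN : 0 ≤ Real.log N := Real.log_nonneg hN1
  obtain ⟨θ, hθdef⟩ : ∃ θ : ℕ, θ = ⌈τ.im⌉₊ := ⟨_, rfl⟩
  have hτθ : τ.im ≤ θ := by rw [hθdef]; exact Nat.le_ceil _
  have hθτ' : (θ : ℝ) < τ.im + 1 := by rw [hθdef]; exact Nat.ceil_lt_add_one hi.le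
  have hθ : 1 ≤ θ := by
    have : (0 : ℝ) < θ := hi.trans_le hτθ
    exact_mod_cast this
  have hθτ : (θ : ℝ) ≤ 3 * τ.im := by linarith
  have hθ1 : (1 : ℝ) ≤ θ := by exact_mod_cast hθ
  obtain ⟨r, hrdef⟩ : ∃ r : ℕ, r = Nat.sqrt N + 1 := ⟨_, rfl⟩
  have hr : N ≤ r ^ 2 := by
    rw [hrdef, sq]
    exact (Nat.lt_succ_sqrt N).le
  have hr4 : r ^ 2 ≤ 4 * N := by
    have h1 : 1 ≤ Nat.sqrt N := by rw [Nat.le_sqrt]; omega
    have h2 : Nat.sqrt N * Nat.sqrt N ≤ N := Nat.sqrt_le N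
    rw [hrdef]
    nlinarith
  have hsr : √N ≤ r := by
    rw [Real.sqrt_le_left (by positivity)]
    exact_mod_cast hr
  have hB0 : 0 ≤ D * (V + 1 + Real.log N + τ.im) := by positivity
  have hDim : τ.im ≤ D * (V + 1 + Real.log N + τ.im) := by
    have h5 : V + 1 + Real.log N + τ.im ≤ D * (V + 1 + Real.log N + τ.im) :=
      le_mul_of_one_le_left (by positivity) hD
    linarith
  by_cases h16 : 16 ≤ N
  swap
  · have h5 : √N ≤ 4 := by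
      rw [show (4 : ℝ) = √(4 ^ 2) by rw [Real.sqrt_sq (by norm_num)]]
      apply Real.sqrt_le_sqrt
      have : (N : ℝ) ≤ 16 := by exact_mod_cast (by omega : N ≤ 16)
      linarith
    have h6 : 1 ≤ G + D * (V + 1 + Real.log N + τ.im) + Y := by
      have h7 : 1 ≤ D * (V + 1 + Real.log N + τ.im) :=
        one_le_mul_of_one_le_of_one_le hD (by linarith)
      linarith
    nlinarith
  by_cases h1 : 2 * θ ≤ r
  swap
  · push Not at h1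
    have h2 : (r : ℝ) ≤ 2 * θ := by exact_mod_cast h1.le
    nlinarith
  by_cases h2 : 4 * Y ≤ r
  swap
  · push Not at h2
    nlinarith
  -- the main case
  set t : ℝ := (N : ℝ) ^ 5 * θ with ht
  set W : ℝ := t ^ 2 * N with hW
  obtain ⟨T, hT⟩ : ∃ T : ℕ, T = Cz * (N ^ 5 * θ) * r := ⟨_, rfl⟩
  have hTr : (T : ℝ) = Cz * t * r := by rw [hT, ht]; push_cast; ring
  have ht1 : 1 ≤ t := one_le_mul_of_one_le_of_one_le (one_le_pow₀ hN1) hθ1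
  have hW1 : 1 ≤ W := one_le_mul_of_one_le_of_one_le (one_le_pow₀ ht1) hN1
  have hcard : ((Fintype.card (Ix (N ^ 5 * θ ^ 2) (N ^ 5) N) : ℕ) : ℝ) = W := by
    rw [Fintype.card_prod, Fintype.card_prod, Fintype.card_fin, Fintype.card_fin,
      Fintype.card_fin, hW, ht]
    push_cast
    ring
  have hLLL : (((N ^ 5 * θ ^ 2) * N ^ 5 * N : ℕ) : ℝ) = W := by
    rw [hW, ht]
    push_cast
    ring
  have hρ : ‖τ‖ ≤ 2 * θ := by
    have h5 : ‖τ‖ ≤ |τ.re| + |τ.im| := Complex.norm_le_abs_re_add_abs_im τ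
    have h6 := hred.re_le
    rw [abs_of_pos hi] at h5
    linarith
  have hYb : 1 ≤ (2 * (1 + ‖τ‖)) ^ T := by
    apply one_le_pow₀
    have := norm_nonneg τ
    linarith
  obtain ⟨col, -, hcol, hdet, hup⟩ := PL.pl_main T
    (cc (us (3 / 2 * G2 w (w * τ)) (2 * G3 w (w * τ)))
      (us (3 / 2 * G2 w (w * τ)) (2 * G3 w (w * τ))) (us (3 / 2 * G2 d₁ d₂) (2 * G3 d₁ d₂))
      (μ * a) (μ * b) (N ^ 5 * θ ^ 2) (N ^ 5) N)
    (fun p hp => inj hCz hz hZ h16 hμ hd₁ hd₂ hθ hτθ hθτ hY0 hY hr h1 h2 hT p hp)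
    (fun _ j i => Bb τ j i)
    (3 * (450 * c) * t * θ ^ 2 + Real.log W + 3 * t * θ * G + (4 * G + 1) * T)
    (1 / (16 * (450 * c) * t)) ((2 * (1 + ‖τ‖)) ^ T) (by positivity) hYb
    (fun m hm j hj i _ => norm_Bb_le (hj.trans hm) i)
    (fun m hm p hp h0 => row hAD hc hG hN hθ hi hτθ hθτ hm p hp h0 ht hW)
  have hlow := liou hfin hV hAR T col (fun q => (hcol q).2) hdet
  rw [hLLL] at hlow
  have hfinal := hlow.trans hup
  rw [hcard] at hfinal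
  have hT1 : (0 : ℝ) < (T : ℝ) + 1 := by positivity
  have hb1 : (0 : ℝ) < 2 * (1 + ‖τ‖) := by have := norm_nonneg τ; linarith
  have hpw : (((T : ℝ) + 1) ^ 2 * (2 * (1 + ‖τ‖)) ^ T) ^ (Fintype.card (Ix (N ^ 5 * θ ^ 2) (N ^ 5) N)) =
      Real.exp (W * (2 * Real.log ((T : ℝ) + 1) + T * Real.log (2 * (1 + ‖τ‖)))) := by
    rw [← hcard, Real.exp_nat_mul]
    congr 1
    rw [Real.exp_add, ← Real.log_rpow hT1, Real.exp_log (by positivity), ← Real.log_rpow hb1,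
      Real.exp_log (by positivity), Real.rpow_natCast]
    norm_num
  rw [hpw] at hfinal
  have hfinal2 : Real.exp (-(2 * D * (W * (Real.log W + (T : ℝ) * Real.log T +
      (T : ℝ) * (Real.log 4 + 4 * V))))) ≤
      Real.exp (W * (3 * (450 * c) * t * θ ^ 2 + Real.log W + 3 * t * θ * G + (4 * G + 1) * T) -
        1 / (16 * (450 * c) * t) * (W ^ 3 / (3 * ((T : ℝ) + 1) ^ 2) - ((T : ℝ) + 1) * W / 2)) *
        Real.exp (W * (2 * Real.log ((T : ℝ) + 1) + T * Real.log (2 * (1 + ‖τ‖)))) := hfinal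
  have hres := hnum N θ r G V D ‖τ‖ t W T hN hθ hr hr4 hG hV hD (norm_nonneg τ) hρ ht hW hTr hfinal2
  refine hsr.trans (hres.trans ?_)
  have h7 : G + D * (V + 1 + Real.log N + θ) ≤ 3 * (G + D * (V + 1 + Real.log N + τ.im)) := by
    have h8 : D * (V + 1 + Real.log N + θ) ≤ D * (3 * (V + 1 + Real.log N + τ.im)) := by
      apply mul_le_mul_of_nonneg_left _ (by linarith)
      linarith
    linarith
  have h9 : 0 ≤ G + D * (V + 1 + Real.log N + τ.im) := by linarith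
  calc C * (G + D * (V + 1 + Real.log N + θ)) ≤
        C * (3 * (G + D * (V + 1 + Real.log N + τ.im))) :=
        mul_le_mul_of_nonneg_left h7 (by linarith)
    _ = 3 * C * (G + D * (V + 1 + Real.log N + τ.im)) := by ring
    _ ≤ (3 * C + 6) * (G + D * (V + 1 + Real.log N + τ.im) + Y) := by
      apply mul_le_mul _ _ h9 (by linarith)
      · linarith
      · linarith

end Pool.Agent.LGO.F.PE
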