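import Pool.Agent.LGO.E3.Defs
import Pool.Agent.LGO.F.ZDef
import Pool.Agent.LGO.A.BsSer

/-!
# LGO/F (note 3060, Theorem Q): engine P, definitions

Design (helper35).  `Λ = ℤ w + ℤ w τ`, `τ` reduced, `v = a w + b w τ`, `Λ_v = ℤ v + N Λ = ℤ c₁ + ℤ c₂`;
`Λ_B = μ Λ_v` has a model over the number field, `l₁ = μ a`, `l₂ = μ b`, `η = l₁ w + l₂ w τ = μ v`.
`U₁` = Taylor series of `1 / ℘_Λ`, `U₃` = Taylor series of `1 / ℘_(Λ_B)`.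
Indices `q = (i, j, k)`, `i < L₁`, `j < L₂`, `k < L₃`.  For `p : Ix → ℂ` the FORM of degree `m`
is the coefficient of `t^m` of `∑_q p_q U₁(t)^i U₁(X t)^j U₃((l₁ + l₂ X) t)^k`, a polynomial in `X` of degree `≤ m`;
`cc m i` = its coefficient at `X^i`, a linear functional of `p`.

* analytic: along the lines through `0` the entire function `Fc` (periodic in the first variable) has the Taylor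
  coefficients `fr p m` (up to a unit).  If the forms of degree `< m` vanish, the Taylor coefficients `t_j` of
  `fr p m` at `X = τ` satisfy `‖t_j‖ ≤ ‖p‖ exp(c t (S² + θ S) + ..) / 2 ^ (2 S (m - j))` for all `S ≥ 1`
  (Schwarz lemma, `2 S + 1` zeros of order `m - j`), that is `≤ exp(X - κ (m - j)²)`.
* the matrix `(cc m i (e_q))`, `i ≤ m ≤ T`, has rank `W = L₁ L₂ L₃` by the zero estimate `ZEst`;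
  linear algebra (`PLMain.pl_main`): a nonzero minor, small.
* Liouville for this minor.

Parameters: `θ = ⌈Im τ⌉`, `s = N⁵`, `t = s θ`, `L₁ = s θ²`, `L₂ = s`, `L₃ = N`, `W = t² N`, `T = C₁ t r`, `r = Nat.sqrt N + 1`.
-/

namespace Pool.Agent.LGO.F.PE

open Polynomial Pool.Agent.Schn Pool.Agent.LGO.E3 Pool.Agent.EllSch Pool.Agent.LGO.Mul Filter Topology
  Asymptotics

noncomputable section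

/-- the indices -/
abbrev Ix (L₁ L₂ L₃ : ℕ) := Fin L₁ × Fin L₂ × Fin L₃

variable {L₁ L₂ L₃ : ℕ}

/-- the form of degree `m` -/
def fr (U₁ U₂ U₃ : PowerSeries ℂ) (l₁ l₂ : ℂ) (p : Ix L₁ L₂ L₃ → ℂ) (m : ℕ) : ℂ[X] :=
  ∑ q : Ix L₁ L₂ L₃, C (p q) *
    PowerSeries.coeff m (dirS U₁ U₂ U₃ l₁ l₂ (q.1 : ℕ) (q.2.1 : ℕ) (q.2.2 : ℕ))

/-- the coefficient of `X^i` of the form of degree `m` -/
def cc (U₁ U₂ U₃ : PowerSeries ℂ) (l₁ l₂ : ℂ) (L₁ L₂ L₃ : ℕ) (m i : ℕ) :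
    (Ix L₁ L₂ L₃ → ℂ) →ₗ[ℂ] ℂ where
  toFun p := (fr U₁ U₂ U₃ l₁ l₂ p m).coeff i
  map_add' p q := by
    simp only [fr, Pi.add_apply, C_add, add_mul, Finset.sum_add_distrib, coeff_add]
  map_smul' a p := by
    simp only [fr, Pi.smul_apply, smul_eq_mul, C_mul, mul_assoc, ← Finset.mul_sum,
      coeff_C_mul, RingHom.id_apply]

theorem cc_apply (U₁ U₂ U₃ : PowerSeries ℂ) (l₁ l₂ : ℂ) (m i : ℕ) (p : Ix L₁ L₂ L₃ → ℂ) :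
    cc U₁ U₂ U₃ l₁ l₂ L₁ L₂ L₃ m i p = (fr U₁ U₂ U₃ l₁ l₂ p m).coeff i := rfl

/-- the entire function of two variables -/
def Fc (s₁ e₁ s₂ e₂ s₃ e₃ : ℂ → ℂ) (κ : ℂ) (p : Ix L₁ L₂ L₃ → ℂ) (x : ℂ × ℂ) : ℂ :=
  ∑ q : Ix L₁ L₂ L₃,
    p q * (s₁ x.1 ^ (q.1 : ℕ) * e₁ x.1 ^ (L₁ - 1 - (q.1 : ℕ))) *
      (s₂ (x.1 + x.2) ^ (q.2.1 : ℕ) * e₂ (x.1 + x.2) ^ (L₂ - 1 - (q.2.1 : ℕ))) *
      (s₃ (x.1 + κ * x.2) ^ (q.2.2 : ℕ) * e₃ (x.1 + κ * x.2) ^ (L₃ - 1 - (q.2.2 : ℕ)))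

/-- growth -/
def Grf (E : ℝ → ℝ) (s e : ℂ → ℂ) : Prop :=
  ∀ (R : ℝ) (z : ℂ), 1 ≤ R → ‖z‖ ≤ R → ‖s z‖ ≤ Real.exp (E R) ∧ ‖e z‖ ≤ Real.exp (E R)

/-- coefficients of `(X - τ)^j` -/
def Bb (τ : ℂ) (j i : ℕ) : ℂ := (Nat.choose j i : ℂ) * (-τ) ^ (j - i)

/-- the coefficients for the function `FF` -/
def pz (μ : ℂ) (p : Ix L₁ L₂ L₃ → ℂ) (i j k : ℕ) : ℂ :=
  if h : i < L₁ ∧ j < L₂ ∧ k < L₃ then p (⟨i, h.1⟩, ⟨j, h.2.1⟩, ⟨k, h.2.2⟩) * μ ^ (2 * k) else 0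

/-- the zero estimate (proved in `ZFin`) -/
def ZEst (C : ℕ) : Prop :=
  ∀ (w τ c₁ c₂ : ℂ) (N : ℕ) (a b : ℤ), ZD w τ c₁ c₂ N a b → 16 ≤ N →
    ∀ (L₁ L₂ K T : ℕ) (p : ℕ → ℕ → ℕ → ℂ), 1 ≤ K → K ≤ N → N ^ 5 ≤ L₁ → N ^ 5 ≤ L₂ →
    (∃ i < L₁, ∃ j < L₂, ∃ k < K, p i j k ≠ 0) →
    (FF w τ c₁ c₂ a b L₁ L₂ K p) =O[𝓝 0] (fun z => ‖z‖ ^ T) →
    T ^ 2 ≤ C * N * L₁ * L₂ ∨ T ≤ C * (L₁ + L₂) ∨
      ∃ P Q : ℤ, IsCoprime P Q ∧ T * P ^ 2 ≤ C * Int.gcd (a * P + b * Q) N * L₂ ∧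
        T * Q ^ 2 ≤ C * Int.gcd (a * P + b * Q) N * L₁

/-- analytic data: the directions `w`, `w τ`, `η = l₁ w + l₂ w τ` -/
structure AD (c G : ℝ) (N : ℕ) (w τ η l₁ l₂ : ℂ) (U₁ U₃ : PowerSeries ℂ) (s₁ e₁ s₂ e₂ s₃ e₃ : ℂ → ℂ) :
    Prop where
  loc₁ : Loc w U₁ s₁ e₁
  loc₂ : Loc (w * τ) U₁ s₂ e₂
  loc₃ : Loc η U₃ s₃ e₃
  gr₁ : Grf (fun R => c * (R ^ 2 / τ.im + R) + G) s₁ e₁
  gr₂ : Grf (fun R => c * τ.im * (R ^ 2 + R) + G) s₂ e₂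
  gr₃ : Grf (fun R => c * N * τ.im * (R ^ 2 + R) + G) s₃ e₃
  w₁ : Real.exp (-G) ≤ ‖w‖ ∧ ‖w‖ ≤ Real.exp G
  w₂ : Real.exp (-G) ≤ ‖w * τ‖ ∧ ‖w * τ‖ ≤ Real.exp G
  w₃ : Real.exp (-G) ≤ ‖η‖ ∧ ‖η‖ ≤ Real.exp G
  hl₂ : ‖l₂‖ ≤ Real.exp G
  rel : l₁ * w + l₂ * (w * τ) = η

/-- arithmetic data -/
structure AR (K : IntermediateField ℚ ℂ) (V : ℝ) (U₁ U₃ : PowerSeries ℂ) (l₁ l₂ : ℂ)
    (ν : ℕ) (V₁ V₃ : PowerSeries K) (m₁ m₂ : K) : Prop where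
  one : 1 ≤ ν
  le : (ν : ℝ) ≤ Real.exp V
  ar₁ : Ar ν (Real.exp V) V₁
  ar₃ : Ar ν (Real.exp V) V₃
  map₁ : PowerSeries.map (algebraMap K ℂ) V₁ = U₁
  map₃ : PowerSeries.map (algebraMap K ℂ) V₃ = U₃
  e₁ : (m₁ : ℂ) = l₁
  e₂ : (m₂ : ℂ) = l₂
  int₁ : IsIntegral ℤ ((ν : K) * m₁)
  int₂ : IsIntegral ℤ ((ν : K) * m₂)
  bd₁ : ∀ σ : K →+* ℂ, ‖σ m₁‖ ≤ Real.exp V
  bd₂ : ∀ σ : K →+* ℂ, ‖σ m₂‖ ≤ Real.exp V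

end

end Pool.Agent.LGO.F.PE
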