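import Pool.Agent.LGO.F.ZDef
import Pool.Agent.LGO.F.JDef
import Pool.Agent.LGO.Gal.NCM
import Pool.Agent.LGO.H.Model
import Pool.Agent.LGO.Mul.Main

/-!
# LGO/F, engine P: the models and the lattices

PROOF.
`bas`: `Gal.j_inj` (LGO/Gal/JInj): `τ = γ • τ₀`, `γ ∈ SL₂(ℤ)`, `w := w₀ (γ₁₀ τ₀ + γ₁₁)`, so `w = γ₁₁ w₀ + γ₁₀ (w₀ τ₀)`,
`w τ = γ₀₁ w₀ + γ₀₀ (w₀ τ₀)`, determinant `1`: the same lattice; `G2_change`, `G3_change` (see the proof of `Base_red` in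
LGO/E3/Base.lean, which has the same computation).

`setup`: (1) `NCM x`, `NCM y` (`ncm_jInv`; `IsJ.isog` and invariance of CM under isogeny, `NonCM.of_maps`), so `x, y ≠ 0, 1728`
(`NCM.ne_zero`, `NCM.ne_1728`, LGO/H).  (2) `exists_model` for `x`: `w₀, τ₀`; `bas` gives `w` for the given `τ`.  `exists_model` for
`y`: `w', τ'`.  (3) `IsJ`: the lattice `Λ_(N, (a, b)) = w₁ (ℤ + ℤ τ₁)`, `j(τ₁) = y`; `bas` (with `w₀ := w₁, τ₀ := τ₁, τ := τ'`) gives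
`w₂ ≠ 0` with `w₂ (ℤ + ℤ τ') = Λ_(N, (a, b))`.  Put `μ = w' / (w w₂)`, so `w' / μ = w w₂` and
`ℤ (w' / μ) + ℤ (w' / μ τ') = w Λ_(N, (a, b)) = ℤ (a w + b (w τ)) + N (ℤ w + ℤ w τ)`.
(4) Choose `a' ≡ a`, `b' ≡ b` modulo `N` with `1 ≤ a', b' ≤ N` (`a' = a % N`, or `N` if this is `0`): the lattice
`ℤ (a w + b w τ) + N Λ` does not change; `cop` holds because `N` is among the three numbers.
-/

namespace Pool.Agent.LGO.F.PE

open UpperHalfPlane Pool.Agent.Hhelper14.ZP Pool.Agent.EllSch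

/-- change of the basis -/
theorem bas {τ τ₀ : ℍ} (h : jInv τ = jInv τ₀) {w₀ : ℂ} (hw₀ : w₀ ≠ 0) :
    ∃ w : ℂ, w ≠ 0 ∧ G2 w (w * τ) = G2 w₀ (w₀ * τ₀) ∧ G3 w (w * τ) = G3 w₀ (w₀ * τ₀) ∧
      ∀ z : ℂ, (∃ x, z = lat w (w * τ) x) ↔ ∃ x, z = lat w₀ (w₀ * τ₀) x := by
  obtain ⟨g, hg⟩ := Gal.j_inj h
  have hdet : g 0 0 * g 1 1 - g 0 1 * g 1 0 = 1 := by
    have := g.det_coe
    rwa [Matrix.det_fin_two] at this
  set c : ℂ := (g 1 0 : ℂ) * τ₀ + (g 1 1 : ℂ) with hc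
  have hc0 : c ≠ 0 := by
    intro h0
    have h1 : (g 1 0 : ℝ) * (τ₀ : ℂ).im = 0 := by
      have := congrArg Complex.im h0
      simpa [hc] using this
    have h2 : (g 1 0 : ℝ) = 0 := (mul_eq_zero.1 h1).resolve_right τ₀.im_pos.ne'
    have h3 : g 1 0 = 0 := by exact_mod_cast h2
    rw [hc, h3] at h0
    have h4 : g 1 1 = 0 := by
      have : ((g 1 1 : ℤ) : ℂ) = 0 := by simpa using h0
      exact_mod_cast this
    rw [h3, h4] at hdet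
    simp at hdet
  have happ : (τ : ℂ) = ((g 0 0 : ℂ) * τ₀ + (g 0 1 : ℂ)) / c := by
    rw [hg, UpperHalfPlane.coe_specialLinearGroup_apply]
    simp [hc]
  have e1 : w₀ * c = (g 1 1 : ℂ) * w₀ + (g 1 0 : ℂ) * (w₀ * τ₀) := by rw [hc]; ring
  have e2 : w₀ * c * τ = (g 0 1 : ℂ) * w₀ + (g 0 0 : ℂ) * (w₀ * τ₀) := by
    rw [happ]
    field_simp
    ring
  have hd : g 1 1 * g 0 0 - g 1 0 * g 0 1 = 1 := by linarith
  have hdC : ((g 1 1 : ℤ) : ℂ) * (g 0 0 : ℤ) - (g 1 0 : ℤ) * (g 0 1 : ℤ) = 1 := by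
    exact_mod_cast hd
  refine ⟨w₀ * c, mul_ne_zero hw₀ hc0, ?_, ?_, fun z => ⟨?_, ?_⟩⟩
  · rw [e2, e1]; exact G2_change hd
  · rw [e2, e1]; exact G3_change hd
  · rintro ⟨x, hx⟩
    refine ⟨(x.1 * g 1 1 + x.2 * g 0 1, x.1 * g 1 0 + x.2 * g 0 0), ?_⟩
    rw [hx, lat, lat, e2, e1]
    push_cast
    ring
  · rintro ⟨x, hx⟩
    refine ⟨(x.1 * g 0 0 - x.2 * g 0 1, -x.1 * g 1 0 + x.2 * g 1 1), ?_⟩
    rw [hx, lat, lat, e2, e1]
    push_cast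
    linear_combination (-(x.1 : ℂ) * w₀ - (x.2 : ℂ) * (w₀ * τ₀)) * hdC

private theorem PSet_red (N : ℕ) (hN : 1 ≤ N) (a : ℤ) :
    ∃ a' : ℤ, 1 ≤ a' ∧ a' ≤ N ∧ (N : ℤ) ∣ a' - a := by
  have hN' : (0 : ℤ) < N := by exact_mod_cast hN
  refine ⟨(a - 1) % N + 1, ?_, ?_, ?_⟩
  · have := Int.emod_nonneg (a - 1) hN'.ne'
    omega
  · have := Int.emod_lt_of_pos (a - 1) hN'
    omega
  · have := Int.emod_add_mul_ediv (a - 1) N
    exact ⟨-((a - 1) / N), by linarith⟩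

theorem setup : ∃ C : ℝ, 1 ≤ C ∧ ∀ (K : IntermediateField ℚ ℂ) (x y : ℂ) (h : ℝ) (τ : ℍ)
    (N : ℕ) (a b : ℤ), 1 ≤ h → Bd K h x → Bd K h y → NonCM (τ : ℂ) → Red (τ : ℂ) → jInv τ = x →
    1 ≤ N → Cop N a b → IsJ τ N a b y →
    ∃ (w w' τ' μ : ℂ) (a' b' : ℤ), w' ≠ 0 ∧ Red τ' ∧ μ ≠ 0 ∧
      ZD w τ (w' / μ) (w' / μ * τ') N a' b' ∧ (N : ℤ) ∣ a' - a ∧ (N : ℤ) ∣ b' - b ∧
      Bd K (C * h) (G2 w (w * τ)) ∧ Bd K (C * h) (G3 w (w * τ)) ∧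
      Bd K (C * h) (G2 w' (w' * τ')) ∧ Bd K (C * h) (G3 w' (w' * τ')) := by
  obtain ⟨C, hC, hmod⟩ := exists_model
  refine ⟨C, hC, ?_⟩
  intro K x y h τ N a b hh hx hy hcm hred hj hN hcop hJ
  have nx : NCM x := by
    rw [← hj, ncm_jInv]
    exact hcm
  have ny : NCM y := NCM.of_isog hN (hJ.isog hN hcop) (by rw [hj]; exact nx)
  obtain ⟨w₀, τ₀, hw₀, -, hj₀, b2, b3⟩ := hmod K h x hh hx nx.ne_zero nx.ne_1728
  obtain ⟨w', τ', hw', hred', hj', c2, c3⟩ := hmod K h y hh hy ny.ne_zero ny.ne_1728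
  obtain ⟨w, hw, e2, e3, -⟩ := bas (τ := τ) (τ₀ := τ₀) (by rw [hj, hj₀]) hw₀
  obtain ⟨w₁, τ₁, hw₁, hj₁, hmem⟩ := hJ
  obtain ⟨w₂, hw₂, -, -, hmem₂⟩ := bas (τ := τ') (τ₀ := τ₁) (by rw [hj', hj₁]) hw₁
  obtain ⟨a', ha1, haN, s, hs⟩ := PSet_red N hN a
  obtain ⟨b', hb1, hbN, t, ht⟩ := PSet_red N hN b
  have hμ : w' / (w' / (w * w₂)) = w * w₂ := by
    field_simp
  have hs' : (a' : ℂ) = a + N * s := by
    have : a' = a + N * s := by linarith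
    rw [this]
    push_cast
    ring
  have ht' : (b' : ℂ) = b + N * t := by
    have : b' = b + N * t := by linarith
    rw [this]
    push_cast
    ring
  refine ⟨w, w', τ', w' / (w * w₂), a', b', hw', hred', div_ne_zero hw' (mul_ne_zero hw hw₂), ?_,
    ⟨s, hs⟩, ⟨t, ht⟩, ?_, ?_, c2, c3⟩
  · rw [hμ]
    refine ⟨hw, τ.im_pos, hcm, hN, ?_, by omega, by omega, ?_, ?_, ?_, ?_⟩
    · exact MulMain.ind_w (mul_ne_zero hw hw₂) hred'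
    · rw [abs_of_pos (by omega)]
      exact haN
    · rw [abs_of_pos (by omega)]
      exact hbN
    · intro e hea heb heN
      refine hcop e ?_ ?_ heN
      · have h1 : e ∣ a' - a := heN.trans ⟨s, hs⟩
        have h2 := dvd_sub hea h1
        rwa [sub_sub_cancel] at h2
      · have h1 : e ∣ b' - b := heN.trans ⟨t, ht⟩
        have h2 := dvd_sub heb h1
        rwa [sub_sub_cancel] at h2
    · intro z
      constructor
      · rintro ⟨u, hu⟩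
        obtain ⟨v, hv⟩ := (hmem₂ (lat w₂ (w₂ * τ') u)).1 ⟨u, rfl⟩
        obtain ⟨k, r, hr⟩ := (hmem _).1 ⟨v, rfl⟩
        refine ⟨k, (r.1 - k * s, r.2 - k * t), ?_⟩
        have h1 : z = w * lat w₂ (w₂ * τ') u := by
          rw [hu, lat, lat]
          ring
        rw [h1, hv, hr, lat, lat, hs', ht']
        push_cast
        ring
      · rintro ⟨k, r, hr⟩
        obtain ⟨v, hv⟩ := (hmem (k * (a + b * τ) + N * lat 1 τ (r.1 + k * s, r.2 + k * t))).2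
          ⟨k, _, rfl⟩
        obtain ⟨u, hu⟩ := (hmem₂ _).2 ⟨v, rfl⟩
        refine ⟨u, ?_⟩
        have h1 : lat (w * w₂) (w * w₂ * τ') u = w * lat w₂ (w₂ * τ') u := by
          rw [lat, lat]
          ring
        rw [h1, ← hu, ← hv, hr, lat, lat, hs', ht']
        push_cast
        ring
  · rw [e2]
    exact b2
  · rw [e3]
    exact b3

end Pool.Agent.LGO.F.PE
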