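import Pool.Agent.LGO.F.PDefs
import Pool.Agent.LGO.F.PIdx
import Pool.Agent.LGO.E3.Base
import Pool.Agent.LGO.H.JSize

/-!
# LGO/F, engine P: sizes of the periods and of the multiplier

PROOF.  Notation as in `PAd`; `D ≥ 1` bounds the degree of `K`, `H ≥ 1`; `C` depends on nothing.
* `μ`: `mul_sq` (LGO/Mul/Main) for `(w, τ, w', τ', β) := (w', τ', w, τ, μ⁻¹)`: `μ⁻¹ Λ_B = Λ_v ⊆ Λ` (`ZD.mem_le`) and `N Λ ⊆ Λ_v`
  (`ZD.mem` with `k = 0`); `NonCM τ` = `ZD.cm`.  It gives `Bd K (C₀ (D H + log N)) ((μ⁻¹)²)` and of its inverse `μ²`.  The house at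
  the inclusion `algebraMap K ℂ` gives `‖μ‖² ≤ exp (..)`.
* lower bounds: `lat_lower` (LGO/A/BsDisc) with `X = exp H` as in `Base_size` (LGO/E3/Base.lean):
  `‖3/2 G2‖ ≤ X⁴`, `‖2 G3‖ ≤ X⁴`, every nonzero vector of `Λ`, of `Λ_B` has norm `≥ 1 / (4 exp H) ≥ exp (-(H + 2))`;
  `w`, `w τ`, `η = μ v ∈ Λ_B`, `η ≠ 0` (`v ≠ 0` since `a ≠ 0`).
* upper bounds: `covol_bd` (LGO/Mul/Vol) with `E = 2 D (10 H)`, as in `Base_size` (`MulMain.bd_disc`, `Bd.lower`):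
  `Im τ ≤ C₁ (1 + H + 20 D H) ≤ 22 C₁ D H`, `‖w‖² Im τ ≤ exp (22 C₁ D H)`, the same for `w'`; `Im ≥ 1/2`.
  `‖w τ‖ = ‖w‖ ‖τ‖ ≤ ‖w‖ 2 Im τ`, `‖η‖ ≤ ‖μ‖ ‖w‖ N (1 + ‖τ‖)`, `‖μ b‖ ≤ ‖μ‖ N` (`ZD.aN`, `ZD.bN`; `N = exp (log N)`; `x ≤ exp x`).
-/

namespace Pool.Agent.LGO.F.PE

open Pool.Agent.EllSch Pool.Agent.LGO.Bs Pool.Agent.LGO.E3 Pool.Agent.LGO.Mul

private theorem PSize_pow {h : ℝ} (hh : 1 ≤ h) : 2 * Real.exp h ≤ Real.exp h ^ 4 := by
  have hX : 1 ≤ Real.exp h := Real.one_le_exp (by linarith)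
  have h5 : (2 : ℝ) ≤ Real.exp h ^ 3 := by
    have h6 : (2 : ℝ) ≤ Real.exp 1 := by have := Real.exp_one_gt_d9; linarith
    have h7 : (2 : ℝ) ≤ Real.exp h := h6.trans (Real.exp_le_exp.2 hh)
    calc (2 : ℝ) ≤ Real.exp h := h7
      _ = Real.exp h ^ 1 := (pow_one _).symm
      _ ≤ Real.exp h ^ 3 := pow_le_pow_right₀ hX (by norm_num)
  calc 2 * Real.exp h ≤ Real.exp h ^ 3 * Real.exp h := by gcongr
    _ = _ := by ring

/-- nonzero vectors of the lattice are not too small -/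
private theorem PSize_low {K : IntermediateField ℚ ℂ} {H : ℝ} {w τ : ℂ} (hH : 1 ≤ H) (hw : w ≠ 0)
    (hτ : Red τ) (h2 : Bd K H (G2 w (w * τ))) (h3 : Bd K H (G3 w (w * τ))) {x : ℤ × ℤ}
    (hx : x ≠ 0) : Real.exp (-(3 * H)) ≤ ‖lat w (w * τ) x‖ := by
  have hX : 1 ≤ Real.exp H := Real.one_le_exp (by linarith)
  have hX4 := PSize_pow hH
  have hA : ‖3 / 2 * G2 w (w * τ)‖ ≤ Real.exp H ^ 4 := by
    rw [norm_mul]
    have h6 : ‖(3 / 2 : ℂ)‖ = 3 / 2 := by norm_num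
    rw [h6]
    have h7 : ‖G2 w (w * τ)‖ ≤ Real.exp H := h2.house (algebraMap K ℂ)
    nlinarith [Real.exp_pos H]
  have hB : ‖2 * G3 w (w * τ)‖ ≤ Real.exp H ^ 4 := by
    rw [norm_mul, Complex.norm_ofNat]
    have h7 : ‖G3 w (w * τ)‖ ≤ Real.exp H := h3.house (algebraMap K ℂ)
    linarith
  have h1 := lat_lower (MulMain.ind_w hw hτ) hX hA hB hx
  refine le_trans ?_ h1.le
  rw [le_div_iff₀ (by positivity)]
  have h4 : (4 : ℝ) ≤ Real.exp 2 := by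
    have h5 : (2.7 : ℝ) ≤ Real.exp 1 := by have := Real.exp_one_gt_d9; linarith
    have h6 : Real.exp 2 = Real.exp 1 * Real.exp 1 := by rw [← Real.exp_add]; norm_num
    rw [h6]; nlinarith
  calc Real.exp (-(3 * H)) * (4 * Real.exp H)
      ≤ Real.exp (-(3 * H)) * (Real.exp 2 * Real.exp H) := by gcongr
    _ = Real.exp (-(3 * H) + (2 + H)) := by
      rw [← Real.exp_add, ← Real.exp_add]
    _ ≤ 1 := by
      rw [Real.exp_le_one_iff]
      linarith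

private theorem PSize_half {τ : ℂ} (hτ : Red τ) : 1 / 2 ≤ τ.im := by
  refine le_trans ?_ hτ.half_le
  have h1 : 1 ≤ √3 := by
    rw [Real.one_le_sqrt]
    norm_num
  linarith

/-- upper bounds for the period -/
private theorem PSize_up : ∃ C : ℝ, 1 ≤ C ∧ ∀ (K : IntermediateField ℚ ℂ) [FiniteDimensional ℚ K]
    (D H : ℝ) (w τ : ℂ), 1 ≤ D → 1 ≤ H → (Module.finrank ℚ K : ℝ) ≤ D → w ≠ 0 → Red τ →
    Bd K H (G2 w (w * τ)) → Bd K H (G3 w (w * τ)) →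
    τ.im ≤ C * (D * H) ∧ ‖w‖ ≤ Real.exp (C * (D * H)) := by
  obtain ⟨C, hC, hvol⟩ := covol_bd
  refine ⟨22 * C + 1, by linarith, ?_⟩
  intro K _ D H w τ hD hH hfin hw hτ h2 h3
  have hDH : 1 ≤ D * H := by nlinarith
  have hHD : H ≤ D * H := by nlinarith
  have bd := MulMain.bd_disc hH h2 h3
  have hne := disc_ne_zero (MulMain.ind_w hw hτ)
  have l1 : Real.exp (-(2 * D * (10 * H))) ≤ ‖G2 w (w * τ) ^ 3 - 27 * G3 w (w * τ) ^ 2‖ :=
    bd.lower hfin (by positivity) hne (algebraMap K ℂ)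
  obtain ⟨hi, -, hup⟩ := hvol w τ H (2 * D * (10 * H)) hw hτ (by linarith)
    (by positivity) (h2.house (algebraMap K ℂ)) (h3.house (algebraMap K ℂ)) l1
  have hle : C * (1 + H + 2 * D * (10 * H)) ≤ 22 * C * (D * H) := by
    have : 1 + H + 2 * D * (10 * H) ≤ 22 * (D * H) := by nlinarith
    calc C * (1 + H + 2 * D * (10 * H)) ≤ C * (22 * (D * H)) := by gcongr
      _ = _ := by ring
  have him := PSize_half hτ
  constructor
  · refine hi.trans (hle.trans ?_)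
    nlinarith
  · have hw2 : ‖w‖ ^ 2 ≤ 2 * Real.exp (22 * C * (D * H)) := by
      have h4 : ‖w‖ ^ 2 * (1 / 2) ≤ ‖w‖ ^ 2 * τ.im := by gcongr
      have h5 := Real.exp_le_exp.2 hle
      linarith
    have h2e : (2 : ℝ) ≤ Real.exp (2 * (D * H)) := by
      have h6 : (2 : ℝ) ≤ Real.exp 1 := by have := Real.exp_one_gt_d9; linarith
      exact h6.trans (Real.exp_le_exp.2 (by linarith))
    have hE1 : 1 ≤ Real.exp (22 * C * (D * H)) := Real.one_le_exp (by positivity)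
    have hw3 : ‖w‖ ^ 2 ≤ Real.exp ((22 * C + 1) * (D * H)) ^ 2 := by
      calc ‖w‖ ^ 2 ≤ 2 * Real.exp (22 * C * (D * H)) := hw2
        _ ≤ Real.exp (2 * (D * H)) * (Real.exp (22 * C * (D * H)) *
            Real.exp (22 * C * (D * H))) := by
          gcongr
          nlinarith
        _ = _ := by
          rw [← Real.exp_add, ← Real.exp_add, ← Real.exp_nat_mul]
          congr 1
          push_cast
          ring
    exact le_of_sq_le_sq hw3 (Real.exp_pos _).le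

private theorem PSize_norm_red {τ : ℂ} (hτ : Red τ) : ‖τ‖ ≤ 2 * τ.im := by
  have h1 := Complex.norm_le_abs_re_add_abs_im τ
  have h2 := hτ.re_le
  have h3 := PSize_half hτ
  rw [abs_of_pos hτ.im_pos] at h1
  linarith

theorem size : ∃ C : ℝ, 1 ≤ C ∧ ∀ (K : IntermediateField ℚ ℂ) [FiniteDimensional ℚ K] (D H : ℝ)
    (w τ w' τ' μ : ℂ) (N : ℕ) (a b : ℤ), 1 ≤ D → 1 ≤ H → (Module.finrank ℚ K : ℝ) ≤ D →
    w' ≠ 0 → Red τ → Red τ' → μ ≠ 0 → ZD w τ (w' / μ) (w' / μ * τ') N a b →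
    Bd K H (G2 w (w * τ)) → Bd K H (G3 w (w * τ)) →
    Bd K H (G2 w' (w' * τ')) → Bd K H (G3 w' (w' * τ')) → ∀ G : ℝ, G = C * (D * H + Real.log N) →
    Bd K G (μ ^ 2) ∧ τ.im ≤ C * (D * H) ∧
    (Real.exp (-G) ≤ ‖w‖ ∧ ‖w‖ ≤ Real.exp G) ∧ (Real.exp (-G) ≤ ‖w * τ‖ ∧ ‖w * τ‖ ≤ Real.exp G) ∧
    (Real.exp (-G) ≤ ‖μ * (a * w + b * (w * τ))‖ ∧ ‖μ * (a * w + b * (w * τ))‖ ≤ Real.exp G) ∧
    ‖w'‖ ≤ Real.exp G ∧ ‖μ * b‖ ≤ Real.exp G := by
  obtain ⟨C₀, hC₀, hmul⟩ := mul_sq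
  obtain ⟨C₁, hC₁, hup⟩ := PSize_up
  refine ⟨C₀ + 3 * C₁ + 5, by linarith, ?_⟩
  intro K _ D H w τ w' τ' μ N a b hD hH hfin hw' hτ hτ' hμ hZ b2 b3 c2 c3 G hG
  have hw := hZ.w0
  have hN1 : (1 : ℝ) ≤ N := by exact_mod_cast hZ.N1
  have hNpos : (0 : ℝ) < N := by linarith
  have hlog : 0 ≤ Real.log N := Real.log_nonneg hN1
  have hDH : 1 ≤ D * H := by nlinarith
  have hHD : H ≤ D * H := by nlinarith
  set P : ℝ := D * H with hP
  set S : ℝ := P + Real.log N with hS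
  have hPS : P ≤ S := by rw [hS]; linarith
  have hlS : Real.log N ≤ S := by rw [hS]; linarith
  have hS1 : 1 ≤ S := by linarith
  -- the multiplier
  have eμ : ∀ x : ℤ × ℤ, μ⁻¹ * lat w' (w' * τ') x = lat (w' / μ) (w' / μ * τ') x := by
    intro x
    simp only [lat]
    field_simp
  have hlm : LatMap μ⁻¹ w' (w' * τ') w (w * τ) := by
    intro x
    rw [eμ]
    exact hZ.mem_le x
  have hlm' : ∀ y : ℤ × ℤ, ∃ x : ℤ × ℤ, (N : ℂ) * lat w (w * τ) y =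
      μ⁻¹ * lat w' (w' * τ') x := by
    intro y
    obtain ⟨x, hx⟩ := (hZ.mem ((N : ℂ) * lat w (w * τ) y)).2 ⟨0, y, by simp⟩
    exact ⟨x, by rw [eμ]; exact hx⟩
  obtain ⟨-, hB⟩ := hmul K D H w' τ' w τ μ⁻¹ N hD hH hfin hw' hw hτ' hτ hZ.cm c2 c3 b2 b3
    (inv_ne_zero hμ) hZ.N1 hlm hlm'
  have e2 : ((μ⁻¹) ^ 2)⁻¹ = μ ^ 2 := by
    rw [inv_pow, inv_inv]
  rw [e2] at hB
  have hμ2 : ‖μ‖ ^ 2 ≤ Real.exp (C₀ * S) := by
    have h1 : ‖μ ^ 2‖ ≤ Real.exp (C₀ * S) := hB.house (algebraMap K ℂ)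
    rwa [norm_pow] at h1
  have hμ1 : ‖μ‖ ≤ Real.exp (C₀ * S) := by
    have h1 : 1 ≤ Real.exp (C₀ * S) := Real.one_le_exp (by positivity)
    refine le_of_sq_le_sq ?_ (Real.exp_pos _).le
    nlinarith
  obtain ⟨hi, hw1⟩ := hup K D H w τ hD hH hfin hw hτ b2 b3
  obtain ⟨-, hw1'⟩ := hup K D H w' τ' hD hH hfin hw' hτ' c2 c3
  rw [← hP] at hi hw1 hw1'
  have hCS : C₁ * P ≤ C₁ * S := by gcongr
  have hNe : (N : ℝ) ≤ Real.exp S := by
    calc (N : ℝ) = Real.exp (Real.log N) := (Real.exp_log hNpos).symm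
      _ ≤ Real.exp S := Real.exp_le_exp.2 hlS
  have h2e : (2 : ℝ) ≤ Real.exp S := by
    have h6 : (2 : ℝ) ≤ Real.exp 1 := by have := Real.exp_one_gt_d9; linarith
    exact h6.trans (Real.exp_le_exp.2 hS1)
  have hime : τ.im ≤ Real.exp (C₁ * S) := by
    have h1 := Real.add_one_le_exp (C₁ * P)
    have h2 := Real.exp_le_exp.2 hCS
    linarith
  have hwS : ‖w‖ ≤ Real.exp (C₁ * S) := hw1.trans (Real.exp_le_exp.2 hCS)
  have hwS' : ‖w'‖ ≤ Real.exp (C₁ * S) := hw1'.trans (Real.exp_le_exp.2 hCS)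
  have him := hτ.im_pos
  have hwτ : ‖w * τ‖ ≤ Real.exp ((2 * C₁ + 1) * S) := by
    rw [norm_mul]
    calc ‖w‖ * ‖τ‖ ≤ Real.exp (C₁ * S) * (Real.exp S * Real.exp (C₁ * S)) := by
          refine mul_le_mul hwS ?_ (norm_nonneg _) (Real.exp_pos _).le
          refine (PSize_norm_red hτ).trans ?_
          gcongr
      _ = _ := by rw [← Real.exp_add, ← Real.exp_add]; congr 1; ring
  have aN : |(a : ℝ)| ≤ N := by exact_mod_cast hZ.aN
  have bN : |(b : ℝ)| ≤ N := by exact_mod_cast hZ.bN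
  have na : ‖(a : ℂ)‖ ≤ N := by rw [Complex.norm_intCast]; exact aN
  have nb : ‖(b : ℂ)‖ ≤ N := by rw [Complex.norm_intCast]; exact bN
  have hlowG : Real.exp (-G) ≤ Real.exp (-(3 * H)) := by
    apply Real.exp_le_exp.2
    rw [hG]
    have h1 : 3 * S ≤ (C₀ + 3 * C₁ + 5) * S := by gcongr; linarith
    linarith
  have hGle : ∀ {c : ℝ}, c ≤ C₀ + 3 * C₁ + 5 → Real.exp (c * S) ≤ Real.exp G := by
    intro c hc
    apply Real.exp_le_exp.2
    rw [hG]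
    gcongr
  have hvw : ‖(a : ℂ) * w + b * (w * τ)‖ ≤ Real.exp ((2 * C₁ + 3) * S) := by
    calc ‖(a : ℂ) * w + b * (w * τ)‖ ≤ ‖(a : ℂ) * w‖ + ‖(b : ℂ) * (w * τ)‖ := norm_add_le _ _
      _ ≤ N * Real.exp ((2 * C₁ + 1) * S) + N * Real.exp ((2 * C₁ + 1) * S) := by
          rw [norm_mul, norm_mul]
          have h1 : ‖w‖ ≤ Real.exp ((2 * C₁ + 1) * S) := by
            refine hwS.trans (Real.exp_le_exp.2 ?_)
            gcongr
            linarith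
          gcongr
      _ = N * (2 * Real.exp ((2 * C₁ + 1) * S)) := by ring
      _ ≤ Real.exp S * (Real.exp S * Real.exp ((2 * C₁ + 1) * S)) := by gcongr
      _ = _ := by rw [← Real.exp_add, ← Real.exp_add]; congr 1; ring
  refine ⟨?_, ?_, ⟨?_, ?_⟩, ⟨?_, ?_⟩, ⟨?_, ?_⟩, ?_, ?_⟩
  · have hle : Real.exp (C₀ * S) ≤ Real.exp G := hGle (by linarith)
    obtain ⟨n, q1, q2, q3⟩ := hB.den
    exact ⟨hB.mem, ⟨n, q1, q2.trans hle, q3⟩, fun σ => (hB.house σ).trans hle⟩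
  · refine hi.trans ?_
    have h0 : 0 ≤ P := by linarith
    gcongr
    linarith
  · have h1 := PSize_low hH hw hτ b2 b3 (x := (1, 0)) (by simp)
    have h2 : lat w (w * τ) (1, 0) = w := by simp [lat]
    rw [h2] at h1
    exact hlowG.trans h1
  · exact hwS.trans (hGle (by linarith))
  · have h1 := PSize_low hH hw hτ b2 b3 (x := (0, 1)) (by simp)
    have h2 : lat w (w * τ) (0, 1) = w * τ := by simp [lat]
    rw [h2] at h1
    exact hlowG.trans h1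
  · exact hwτ.trans (hGle (by linarith))
  · obtain ⟨x, hx⟩ := hZ.v_mem
    have hne : (a : ℂ) * w + b * (w * τ) ≠ 0 := by
      intro h0
      have h1 : lat w (w * τ) (a, b) = lat w (w * τ) 0 := by
        simp only [lat, Prod.fst_zero, Prod.snd_zero, Int.cast_zero, zero_mul, add_zero]
        exact h0
      have h2 := lat_injective hZ.ind1 h1
      exact hZ.a0 (congrArg Prod.fst h2)
    have hx0 : x ≠ 0 := by
      rintro rfl
      apply hne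
      rw [hx]
      simp [lat]
    have h1 := PSize_low hH hw' hτ' c2 c3 hx0
    have h2 : μ * ((a : ℂ) * w + b * (w * τ)) = lat w' (w' * τ') x := by
      rw [hx, ← eμ, ← mul_assoc, mul_inv_cancel₀ hμ, one_mul]
    rw [h2]
    exact hlowG.trans h1
  · rw [norm_mul]
    calc ‖μ‖ * ‖(a : ℂ) * w + b * (w * τ)‖ ≤ Real.exp (C₀ * S) * Real.exp ((2 * C₁ + 3) * S) := by
          gcongr
      _ = Real.exp ((C₀ + (2 * C₁ + 3)) * S) := by rw [← Real.exp_add]; congr 1; ring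
      _ ≤ _ := hGle (by linarith)
  · exact hwS'.trans (hGle (by linarith))
  · rw [norm_mul]
    calc ‖μ‖ * ‖(b : ℂ)‖ ≤ Real.exp (C₀ * S) * Real.exp S := by
          gcongr
          exact nb.trans hNe
      _ = Real.exp ((C₀ + 1) * S) := by rw [← Real.exp_add]; congr 1; ring
      _ ≤ _ := hGle (by linarith)

end Pool.Agent.LGO.F.PE
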