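import Pool.Agent.LGO.F.PCore
import Pool.Agent.LGO.F.PAd
import Pool.Agent.LGO.F.PSize
import Pool.Agent.LGO.F.PSet
import Pool.Agent.LGO.F.PArith

/-!
# LGO/F, engine P (note 3060, Theorem Q): the final statement
-/

namespace Pool.Agent.LGO.F.PE

open UpperHalfPlane Pool.Agent.Hhelper14.ZP Pool.Agent.EllSch Pool.Agent.LGO.Bs

theorem gcd_congr_N {N : ℕ} {x y : ℤ} (h : (N : ℤ) ∣ x - y) : Int.gcd x N = Int.gcd y N := by
  obtain ⟨k, hk⟩ := h
  have e : x = y + k * N := by linarith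
  rw [e]
  simp

theorem engineP {Cz : ℕ} (hCz : 1 ≤ Cz) (hz : ZEst Cz) : ∃ C : ℝ, 1 ≤ C ∧
    ∀ (K : IntermediateField ℚ ℂ) [FiniteDimensional ℚ K] (x y : ℂ) (h Y : ℝ) (τ : ℍ) (N : ℕ)
      (a b : ℤ), 1 ≤ h → Bd K h x → Bd K h y → NonCM (τ : ℂ) → Red (τ : ℂ) → jInv τ = x →
      1 ≤ N → Cop N a b → IsJ τ N a b y → 1 ≤ Y →
      (∀ P Q : ℤ, IsCoprime P Q → (Int.gcd (a * P + b * Q) N : ℝ) ≤
        Y * (P ^ 2 * τ.im + Q ^ 2 / τ.im)) →
      √N ≤ C * ((Module.finrank ℚ K : ℝ) ^ 2 * (h + 1 + Real.log N) + Y) := by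
  obtain ⟨c, hc, hAD⟩ := mkAD
  obtain ⟨C₁, hC₁, hset⟩ := setup
  obtain ⟨C₂, hC₂, hsize⟩ := size
  obtain ⟨C₃, hC₃, hcore⟩ := pcore hCz hz hc
  have hC₀ : 0 ≤ C₁ * C₂ := by positivity
  refine ⟨C₃ * (100 * (C₁ * C₂)), by nlinarith [one_le_mul_of_one_le_of_one_le hC₁ hC₂], ?_⟩
  intro K _ x y h Y τ N a b hh hx hy hcm hred hj hN hcop hJ hY1 hY
  obtain ⟨w, w', τ', μ, a', b', hw', hred', hμ, hZ, ha, hb, g2, g3, g2', g3'⟩ :=
    hset K x y h τ N a b hh hx hy hcm hred hj hN hcop hJ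
  have hD1 : (1 : ℝ) ≤ (Module.finrank ℚ K : ℝ) := by
    exact_mod_cast Module.finrank_pos (R := ℚ) (M := K)
  set D : ℝ := (Module.finrank ℚ K : ℝ) with hD
  have hN1 : (1 : ℝ) ≤ N := by exact_mod_cast hN
  have hlog : 0 ≤ Real.log N := Real.log_nonneg hN1
  have hH : 1 ≤ C₁ * h := one_le_mul_of_one_le_of_one_le hC₁ hh
  obtain ⟨G, hGdef⟩ : ∃ G : ℝ, G = C₂ * (D * (C₁ * h) + Real.log N) := ⟨_, rfl⟩
  obtain ⟨hμ2, him, b1, b2, b3, b4, b5⟩ := hsize K D (C₁ * h) w τ w' τ' μ N a' b' hD1 hH le_rfl hw'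
    hred hred' hμ hZ g2 g3 g2' g3' G hGdef
  have hHG : C₁ * h ≤ G := by
    rw [hGdef]
    have e1 : C₁ * h ≤ D * (C₁ * h) := le_mul_of_one_le_left (by linarith) hD1
    have e2 : D * (C₁ * h) + Real.log N ≤ C₂ * (D * (C₁ * h) + Real.log N) :=
      le_mul_of_one_le_left (by positivity) hC₂
    linarith
  have hlG : Real.log N ≤ G := by
    rw [hGdef]
    have e2 : D * (C₁ * h) + Real.log N ≤ C₂ * (D * (C₁ * h) + Real.log N) :=
      le_mul_of_one_le_left (by positivity) hC₂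
    have : 0 ≤ D * (C₁ * h) := by positivity
    linarith
  have hG1 : 1 ≤ G := hH.trans hHG
  have hG0 : 0 ≤ G := by linarith
  obtain ⟨s₁, e₁, s₂, e₂, s₃, e₃, hA⟩ := hAD w τ w' τ' μ N a' b' G hw' hred hred' hμ hZ hG0 b1 b2
    b3 b4 b5
  have hNexp : (N : ℝ) ≤ Real.exp G := by
    calc (N : ℝ) = Real.exp (Real.log N) := (Real.exp_log (by linarith)).symm
      _ ≤ _ := Real.exp_le_exp.2 hlG
  have ha' : |(a' : ℝ)| ≤ Real.exp G := by
    refine le_trans ?_ hNexp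
    have := hZ.aN
    rw [← Int.cast_abs]
    exact_mod_cast this
  have hb' : |(b' : ℝ)| ≤ Real.exp G := by
    refine le_trans ?_ hNexp
    have := hZ.bN
    rw [← Int.cast_abs]
    exact_mod_cast this
  obtain ⟨K', ν, V₁, V₃, m₁, m₂, hfd, hfin, hR⟩ := mkAR K hG1 hZ.ind1 (MulMain.ind_w hw' hred')
    (g2.sk_mono hHG) (g3.sk_mono hHG) (g2'.sk_mono hHG) (g3'.sk_mono hHG) hμ2 ha' hb'
  have hfin' : (Module.finrank ℚ K' : ℝ) ≤ 2 * D := by
    rw [hD]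
    exact_mod_cast hfin
  have key := hcore K' w τ (w' / μ) (w' / μ * τ') μ w' (w' * τ') N a' b' (2 * G) (10 * G) (2 * D) Y
    s₁ e₁ s₂ e₂ s₃ e₃ ν V₁ V₃ m₁ m₂ hZ hred hμ (by field_simp) (by field_simp) (by linarith)
    (by linarith) (by linarith) hfin' (by linarith) hA hR (by
      intro P Q hPQ
      have e : Int.gcd (a' * P + b' * Q) N = Int.gcd (a * P + b * Q) N := by
        apply gcd_congr_N
        have e1 : a' * P + b' * Q - (a * P + b * Q) = (a' - a) * P + (b' - b) * Q := by ring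
        rw [e1]
        exact dvd_add (ha.mul_right P) (hb.mul_right Q)
      rw [e]
      exact hY P Q hPQ)
  refine key.trans ?_
  rw [mul_assoc C₃ (100 * (C₁ * C₂))]
  apply mul_le_mul_of_nonneg_left _ (by linarith)
  -- numerics
  have hCC : 1 ≤ C₁ * C₂ := one_le_mul_of_one_le_of_one_le hC₁ hC₂
  have hDD : D ≤ D ^ 2 := by nlinarith
  have hD2 : 1 ≤ D ^ 2 := one_le_pow₀ hD1
  have q1 : G ≤ C₁ * C₂ * (D * (h + 1 + Real.log N)) := by
    rw [hGdef]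
    have e1 : C₂ * (D * (C₁ * h) + Real.log N) = C₁ * C₂ * (D * h) + C₂ * Real.log N := by ring
    have e2 : C₂ * Real.log N ≤ C₁ * C₂ * (D * Real.log N) := by
      have e3 : Real.log N ≤ D * Real.log N := le_mul_of_one_le_left hlog hD1
      have e4 : C₂ ≤ C₁ * C₂ := le_mul_of_one_le_left (by linarith) hC₁
      exact mul_le_mul e4 e3 hlog hC₀
    have e5 : 0 ≤ C₁ * C₂ * D := by positivity
    rw [e1]
    nlinarith
  have q2 : D * G ≤ C₁ * C₂ * (D ^ 2 * (h + 1 + Real.log N)) := by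
    calc D * G ≤ D * (C₁ * C₂ * (D * (h + 1 + Real.log N))) :=
          mul_le_mul_of_nonneg_left q1 (by linarith)
      _ = _ := by ring
  have q3 : G ≤ D * G := le_mul_of_one_le_left hG0 hD1
  have q4 : D * (1 + Real.log N) ≤ C₁ * C₂ * (D ^ 2 * (h + 1 + Real.log N)) := by
    calc D * (1 + Real.log N) ≤ D ^ 2 * (h + 1 + Real.log N) := by
          apply mul_le_mul hDD _ (by linarith) (by positivity)
          linarith
      _ ≤ _ := le_mul_of_one_le_left (by positivity) hCC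
  have q5 : D * (τ : ℂ).im ≤ C₁ * C₂ * (D ^ 2 * (h + 1 + Real.log N)) := by
    calc D * (τ : ℂ).im ≤ D * (C₂ * (D * (C₁ * h))) := mul_le_mul_of_nonneg_left him (by linarith)
      _ = C₁ * C₂ * (D ^ 2 * h) := by ring
      _ ≤ _ := by
        apply mul_le_mul_of_nonneg_left _ hC₀
        apply mul_le_mul_of_nonneg_left _ (by positivity)
        linarith
  have q6 : Y ≤ C₁ * C₂ * Y := le_mul_of_one_le_left (by linarith) hCC
  have q7 : 0 ≤ C₁ * C₂ * (D ^ 2 * (h + 1 + Real.log N)) := by positivity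
  have q8 : 0 ≤ C₁ * C₂ * Y := by positivity
  have q9 : 2 * G + 2 * D * (10 * G + 1 + Real.log N + (τ : ℂ).im) + Y =
      2 * G + 20 * (D * G) + 2 * (D * (1 + Real.log N)) + 2 * (D * (τ : ℂ).im) + Y := by ring
  have q10 : 100 * (C₁ * C₂) * (D ^ 2 * (h + 1 + Real.log N) + Y) =
      100 * (C₁ * C₂ * (D ^ 2 * (h + 1 + Real.log N))) + 100 * (C₁ * C₂ * Y) := by ring
  rw [q9, q10]
  linarith

end Pool.Agent.LGO.F.PE
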