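import Pool.Agent.LGO.F.PDefs
import Pool.Agent.LGO.A.BsG
import Pool.Agent.LGO.A.BsAn
import Pool.Agent.LGO.H.JSize
import Pool.Agent.EllSch.JFun

/-!
# LGO/F, engine P: local data in the direction of a lattice vector

PROOF.  `Bs.growth_vec` (LGO/A/BsG) with `T = Im τ` (`1/2 ≤ Im τ` by `Red.half_le`, LGO/H/JSize): functions `s, e` with
`Ent w τ ω (fun R => C ((ρ R)² / Im τ + ρ R)) s e`.
* `Loc`: `ds, de, ps, pe, e0` are fields of `Ent`; `ser`: `s z = e z * iu w (w τ) (ω z)` near `0` and at `0`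
  (`Ent.off`, `Ent.on`; `wp ≠ 0` near `0`), and `Bs.iu_tay_comp` : this is done for `ω = w` in the proof of `base` in
  `LGO/E3/Base.lean` (the branch with `Base`: `rw [hmap, ← iu_tay_comp hI w, ← tay_mul ..]; refine tay_congr ?_; ..`), the same proof
  works for every `ω ≠ 0`.
* `Grf`: `Ent.be`, `Ent.bs` and `‖w‖² ≤ exp G`, `0 ≤ G`.
-/

namespace Pool.Agent.LGO.F.PE

open Pool.Agent.EllSch Pool.Agent.LGO.Bs Pool.Agent.LGO.E3 Filter Topology

theorem grow : ∃ c : ℝ, 1 ≤ c ∧ ∀ (w τ ω : ℂ) (ρ G : ℝ), w ≠ 0 → Red τ → InLat w τ ω → ω ≠ 0 →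
    1 ≤ ρ → ‖ω‖ ≤ ρ * ‖w‖ → 0 ≤ G → ‖w‖ ^ 2 ≤ Real.exp G →
    ∃ s e : ℂ → ℂ, Loc ω (us (3 / 2 * G2 w (w * τ)) (2 * G3 w (w * τ))) s e ∧
      Grf (fun R => c * (ρ ^ 2 / τ.im * R ^ 2 + ρ * R) + G) s e := by
  obtain ⟨C, hC, hgro⟩ := growth_vec
  refine ⟨C, hC, fun w τ ω ρ G hw hred hL h0 hρ hω hG hwG => ?_⟩
  have him : 0 < τ.im := hred.im_pos
  have hhalf : 1 / 2 ≤ τ.im := by
    have h1 : 1 ≤ τ.re ^ 2 + τ.im ^ 2 := by
      have h2 : 1 ≤ ‖τ‖ ^ 2 := by nlinarith [hred.one_le]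
      rw [Complex.sq_norm, Complex.normSq_apply] at h2
      nlinarith
    have h3 : τ.re ^ 2 ≤ 1 / 4 := by
      have := hred.re_le
      nlinarith [abs_nonneg τ.re, sq_abs τ.re]
    nlinarith [hred.im_pos]
  have hI : Ind w (w * τ) := by
    have := ind_smul (ind_one him) hw
    rwa [mul_one] at this
  obtain ⟨s, e, hE⟩ := hgro w τ ω ρ τ.im hw hhalf le_rfl hL h0 hρ hω
  refine ⟨s, e, ⟨hE.ds, hE.de, hE.ps, hE.pe, hE.e0, ?_⟩, ?_⟩
  · rw [← iu_tay_comp hI ω, ← Pool.Agent.Schn.tay_mul (hE.de.analyticAt 0) (iu_comp_an hI ω)]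
    refine Pool.Agent.Schn.tay_congr ?_
    have hT : Tendsto (fun z : ℂ => ω * z) (𝓝[≠] 0) (𝓝[≠] 0) := by
      rw [tendsto_nhdsWithin_iff]
      constructor
      · have : Tendsto (fun z : ℂ => ω * z) (𝓝 0) (𝓝 (ω * 0)) :=
          (continuous_const.mul continuous_id).tendsto 0
        rw [mul_zero] at this
        exact this.mono_left nhdsWithin_le_nhds
      · filter_upwards [self_mem_nhdsWithin] with z hz
        exact mul_ne_zero h0 hz
    have h1 : ∀ᶠ z in 𝓝[≠] (0 : ℂ), s z = e z * Mul.iu w (w * τ) (ω * z) := by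
      filter_upwards [hT.eventually (Basic.eventually_off hI 0),
        hT.eventually (Mul.MulIu_eventually_ne hI)] with z hz1 hz2
      rw [hE.off z hz1, Mul.iu]
      field_simp
    have h2 : s 0 = e 0 * Mul.iu w (w * τ) (ω * 0) := by
      rw [mul_zero, Mul.iu_zero, mul_zero]
      refine hE.on 0 ?_
      rw [Basic.not_off_iff]
      exact ⟨0, by simp [lat]⟩
    rw [eventually_nhdsWithin_iff] at h1
    filter_upwards [h1] with z hz
    by_cases h0 : z = 0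
    · rw [h0]; exact h2
    · exact hz h0
  · intro R z hR hz
    have he : C * ((ρ * R) ^ 2 / τ.im + ρ * R) = C * (ρ ^ 2 / τ.im * R ^ 2 + ρ * R) := by
      ring
    constructor
    · refine (hE.bs R hR z hz).trans ?_
      simp only []
      rw [he, Real.exp_add, mul_comm]
      exact mul_le_mul_of_nonneg_left hwG (Real.exp_pos _).le
    · refine (hE.be R hR z hz).trans (Real.exp_le_exp.2 ?_)
      simp only []
      rw [he]
      linarith

end Pool.Agent.LGO.F.PE
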