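import Pool.Agent.LGO.F.PSmall

/-!
# LGO/F, engine P: the hypothesis `hbd` of `pl_main`

`S` is chosen in the Schwarz lemma: `c t (S² + θ S) - 2 S d log 2 ≤ 3 c t θ² - d² / (16 c t)`.
-/

namespace Pool.Agent.LGO.F.PE

open Polynomial Pool.Agent.Schn Pool.Agent.LGO.E3

variable {L₁ L₂ L₃ : ℕ}

theorem row_S {A θ d : ℝ} (hA : 0 < A) (hθ : 1 ≤ θ) (hd : 0 ≤ d) : ∃ S : ℕ, 1 ≤ S ∧
    A * ((S : ℝ) ^ 2 + θ * S) - 2 * S * d * Real.log 2 ≤ 3 * A * θ ^ 2 - d ^ 2 / (16 * A) := by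
  have hl2 : (0.69 : ℝ) ≤ Real.log 2 := by have := Real.log_two_gt_d9; linarith
  by_cases hcase : d ≤ 4 * A * θ
  · refine ⟨1, le_refl _, ?_⟩
    have h1 : d ^ 2 / (16 * A) ≤ A * θ ^ 2 := by
      rw [div_le_iff₀ (by positivity)]
      have : d ^ 2 ≤ (4 * A * θ) ^ 2 := pow_le_pow_left₀ hd hcase 2
      nlinarith
    have h2 : 0 ≤ 2 * 1 * d * Real.log 2 := by positivity
    have h3 : A * θ ≤ A * θ ^ 2 := by
      apply mul_le_mul_of_nonneg_left _ hA.le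
      nlinarith
    have h4 : A * 1 ≤ A * θ := mul_le_mul_of_nonneg_left hθ hA.le
    push_cast
    nlinarith
  · push Not at hcase
    set y : ℝ := d / (2 * A) with hy
    have hdy : d = 2 * A * y := by rw [hy]; field_simp
    have hy2 : 2 * θ < y := by
      rw [hy, lt_div_iff₀ (by positivity)]
      linarith
    have hy0 : 0 < y := by linarith
    set S : ℕ := ⌊y⌋₊ with hS
    have hS1 : (S : ℝ) ≤ y := Nat.floor_le hy0.le
    have hS2 : y < S + 1 := Nat.lt_floor_add_one y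
    have hS3 : y / 2 ≤ S := by linarith
    have hS4 : 1 ≤ S := by
      rw [hS, Nat.one_le_floor_iff]
      linarith
    refine ⟨S, hS4, ?_⟩
    have h1 : A * ((S : ℝ) ^ 2 + θ * S) - 2 * S * d * Real.log 2 =
        S * (A * (S + θ - 4 * y * Real.log 2)) := by rw [hdy]; ring
    have h2 : (S : ℝ) + θ - 4 * y * Real.log 2 ≤ - y := by nlinarith
    have h3 : (S : ℝ) * (A * (S + θ - 4 * y * Real.log 2)) ≤ S * (A * (-y)) := by
      apply mul_le_mul_of_nonneg_left _ (by positivity)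
      exact mul_le_mul_of_nonneg_left h2 hA.le
    have h4 : (S : ℝ) * (A * (-y)) ≤ - (A * y ^ 2 / 2) := by
      have : y / 2 * (A * y) ≤ S * (A * y) := mul_le_mul_of_nonneg_right hS3 (by positivity)
      nlinarith
    have h5 : d ^ 2 / (16 * A) = A * y ^ 2 / 4 := by rw [hdy]; field_simp; ring
    have h6 : 0 ≤ 3 * A * θ ^ 2 := by positivity
    have h7 : 0 ≤ A * y ^ 2 := by positivity
    rw [h1, h5]
    linarith

/-- if all functionals up to level `m` vanish, so does the form -/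
theorem fr_zero {U₁ U₂ U₃ : PowerSeries ℂ} {l₁ l₂ : ℂ} {p : Ix L₁ L₂ L₃ → ℂ} {m : ℕ}
    (h : ∀ i ≤ m, cc U₁ U₂ U₃ l₁ l₂ L₁ L₂ L₃ m i p = 0) : fr U₁ U₂ U₃ l₁ l₂ p m = 0 := by
  ext i
  rw [coeff_zero]
  by_cases hi : i ≤ m
  · exact h i hi
  · exact coeff_eq_zero_of_natDegree_lt ((natDegree_fr U₁ U₂ U₃ l₁ l₂ p m).trans_lt (by omega))

/-- the Taylor coefficients at `r` -/
theorem coeff_taylor_sum (f : ℂ[X]) (r : ℂ) (m : ℕ) (hf : f.natDegree ≤ m) (i : ℕ) :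
    f.coeff i = ∑ j ∈ Finset.range (m + 1), (taylor r f).coeff j * Bb r j i := by
  have h1 := sum_taylor_eq f r
  have h2 : f = ∑ j ∈ Finset.range (m + 1), C ((taylor r f).coeff j) * (X - C r) ^ j := by
    conv_lhs => rw [← h1]
    rw [Polynomial.sum_over_range' _ _ (m + 1)]
    · rw [natDegree_taylor]; omega
    · intro n; simp
  conv_lhs => rw [h2]
  rw [finsetSum_coeff]
  refine Finset.sum_congr rfl fun j _ => ?_
  have h3 : (X - C r : ℂ[X]) = X + C (-r) := by rw [C_neg, sub_eq_add_neg]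
  rw [coeff_C_mul, h3, coeff_X_add_C_pow, Bb]
  ring

theorem row {c G : ℝ} {N θ : ℕ} {w τ η l₁ l₂ : ℂ} {U₁ U₃ : PowerSeries ℂ}
    {s₁ e₁ s₂ e₂ s₃ e₃ : ℂ → ℂ} (h : AD c G N w τ η l₁ l₂ U₁ U₃ s₁ e₁ s₂ e₂ s₃ e₃) (hc : 1 ≤ c)
    (hG : 0 ≤ G) (hN : 1 ≤ N) (hθ : 1 ≤ θ) (hi : 0 < τ.im) (hτθ : τ.im ≤ θ)
    (hθτ : (θ : ℝ) ≤ 3 * τ.im) {m T : ℕ} (hm : m ≤ T) (p : Ix (N ^ 5 * θ ^ 2) (N ^ 5) N → ℂ)
    (hp : ∑ q, ‖p q‖ ^ 2 = 1)
    (h0 : ∀ m' < m, ∀ i ≤ m', cc U₁ U₁ U₃ l₁ l₂ (N ^ 5 * θ ^ 2) (N ^ 5) N m' i p = 0)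
    {t W : ℝ} (ht : t = N ^ 5 * θ) (hW : W = t ^ 2 * N) :
    ∃ x : ℕ → ℂ, (∀ i ≤ m, cc U₁ U₁ U₃ l₁ l₂ (N ^ 5 * θ ^ 2) (N ^ 5) N m i p =
        ∑ j ∈ Finset.range (m + 1), x j * Bb τ j i) ∧
      ∀ j ≤ m, ‖x j‖ ≤ Real.exp ((3 * (450 * c) * t * θ ^ 2 + Real.log W + 3 * t * θ * G +
        (4 * G + 1) * T) - 1 / (16 * (450 * c) * t) * ((m : ℝ) - j) ^ 2) := by
  have hN' : (1 : ℝ) ≤ N := by exact_mod_cast hN
  have hθ' : (1 : ℝ) ≤ θ := by exact_mod_cast hθ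
  have hs : (1 : ℝ) ≤ (N : ℝ) ^ 5 := one_le_pow₀ hN'
  have ht1 : 1 ≤ t := by rw [ht]; exact one_le_mul_of_one_le_of_one_le hs hθ'
  have hW1 : 1 ≤ W := by rw [hW]; exact one_le_mul_of_one_le_of_one_le (one_le_pow₀ ht1) hN'
  have hw0 : w ≠ 0 := norm_pos_iff.1 ((Real.exp_pos _).trans_le h.w₁.1)
  have hwτ : w * τ / w = τ := by field_simp
  refine ⟨fun j => (taylor τ (fr U₁ U₁ U₃ l₁ l₂ p m)).coeff j, fun i _ => ?_, fun j hj => ?_⟩
  · rw [cc_apply]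
    exact coeff_taylor_sum _ τ m (natDegree_fr _ _ _ _ _ p m) i
  · have hlow : ∀ k < m, fr U₁ U₁ U₃ l₁ l₂ p k = 0 := fun k hk => fr_zero (h0 k hk)
    obtain ⟨S, hS1, hS⟩ := row_S (A := 450 * c * t) (θ := θ) (d := (m : ℝ) - j) (by positivity) hθ'
      (by rw [sub_nonneg]; exact_mod_cast hj)
    have hSr : (1 : ℝ) ≤ S := by exact_mod_cast hS1
    have hSS : (S : ℝ) ≤ (S : ℝ) ^ 2 := by nlinarith
    have key := smallc h.loc₁ h.loc₂ h.loc₃ hG h.gr₁ h.gr₂ h.gr₃ h.w₁ h.w₂ h.w₃ h.hl₂ h.rel p m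
      hlow S hS1 (by positivity) (by positivity) (by positivity) j hj
    rw [hwτ] at key
    refine key.trans ?_
    -- the sum of the coefficients
    have hcard : ((Fintype.card (Ix (N ^ 5 * θ ^ 2) (N ^ 5) N) : ℕ) : ℝ) = W := by
      rw [Fintype.card_prod, Fintype.card_prod, Fintype.card_fin, Fintype.card_fin,
        Fintype.card_fin, hW, ht]
      push_cast
      ring
    have hP : ∑ q, ‖p q‖ ≤ W := by
      have h1 : ∀ q, ‖p q‖ ≤ 1 := by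
        intro q
        have h2 : ‖p q‖ ^ 2 ≤ 1 := by
          rw [← hp]
          exact Finset.single_le_sum (f := fun q => ‖p q‖ ^ 2) (fun _ _ => by positivity)
            (Finset.mem_univ q)
        have := norm_nonneg (p q)
        nlinarith
      calc ∑ q, ‖p q‖ ≤ ∑ _q : Ix (N ^ 5 * θ ^ 2) (N ^ 5) N, (1 : ℝ) :=
            Finset.sum_le_sum fun q _ => h1 q
        _ = W := by rw [Finset.sum_const, Finset.card_univ, nsmul_eq_mul, mul_one, hcard]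
    have hPW : ∑ q, ‖p q‖ ≤ Real.exp (Real.log W) := by rwa [Real.exp_log (by linarith)]
    have h2pow : (2 : ℝ) ^ (2 * S * (m - j)) =
        Real.exp (2 * S * ((m : ℝ) - j) * Real.log 2) := by
      have e : ((2 * S * (m - j) : ℕ) : ℝ) = 2 * S * ((m : ℝ) - j) := by
        rw [Nat.cast_mul, Nat.cast_sub hj]
        push_cast
        ring
      rw [← e, Real.exp_nat_mul, Real.exp_log (by norm_num)]
    rw [h2pow, div_le_iff₀ (Real.exp_pos _), ← Real.exp_add]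
    refine (mul_le_mul_of_nonneg_right hPW (Real.exp_pos _).le).trans ?_
    rw [← Real.exp_add]
    apply Real.exp_le_exp.2
    -- growth
    have hst : (N : ℝ) ^ 5 ≤ t := by rw [ht]; nlinarith
    have hc0 : 0 < c := by linarith
    have a1 : (N : ℝ) ^ 5 * θ ^ 2 * (c * ((9 * (S : ℝ)) ^ 2 / τ.im + 9 * S) + G) ≤
        243 * c * t * S ^ 2 + 9 * c * t * (θ * S) + t * θ * G := by
      have b1 : (θ : ℝ) / τ.im ≤ 3 := by rw [div_le_iff₀ hi]; exact hθτ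
      have b2 : (N : ℝ) ^ 5 * θ ^ 2 * (c * ((9 * (S : ℝ)) ^ 2 / τ.im + 9 * S) + G) =
          81 * c * t * S ^ 2 * (θ / τ.im) + 9 * c * t * (θ * S) + t * θ * G := by
        rw [ht]
        field_simp
        ring
      have b3 : 81 * c * t * S ^ 2 * (θ / τ.im) ≤ 81 * c * t * S ^ 2 * 3 :=
        mul_le_mul_of_nonneg_left b1 (by positivity)
      rw [b2]
      linarith
    have a2 : (N : ℝ) ^ 5 * (c * τ.im * ((9 * (S : ℝ)) ^ 2 + 9 * S) + G) ≤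
        90 * c * t * S ^ 2 + t * θ * G := by
      have b1 : (9 * (S : ℝ)) ^ 2 + 9 * S ≤ 90 * S ^ 2 := by nlinarith
      have b2 : (N : ℝ) ^ 5 * τ.im ≤ t := by
        rw [ht]
        exact mul_le_mul_of_nonneg_left hτθ (by positivity)
      have b3 : (N : ℝ) ^ 5 * τ.im * (c * ((9 * (S : ℝ)) ^ 2 + 9 * S)) ≤ t * (c * (90 * S ^ 2)) := by
        gcongr
      have b4 : (N : ℝ) ^ 5 * G ≤ t * θ * G := by
        apply mul_le_mul_of_nonneg_right _ hG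
        nlinarith
      nlinarith
    have a3 : (N : ℝ) * (c * N * τ.im * ((9 * (S : ℝ)) ^ 2 + 9 * S) + G) ≤
        90 * c * t * S ^ 2 + t * θ * G := by
      have b1 : (9 * (S : ℝ)) ^ 2 + 9 * S ≤ 90 * S ^ 2 := by nlinarith
      have b0 : (N : ℝ) ^ 2 ≤ (N : ℝ) ^ 5 := pow_le_pow_right₀ hN' (by norm_num)
      have b0' : (N : ℝ) ≤ (N : ℝ) ^ 5 := by
        calc (N : ℝ) = (N : ℝ) ^ 1 := (pow_one _).symm
          _ ≤ _ := pow_le_pow_right₀ hN' (by norm_num)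
      have b2 : (N : ℝ) ^ 2 * τ.im ≤ t := by
        rw [ht]
        gcongr
      have b3 : (N : ℝ) ^ 2 * τ.im * (c * ((9 * (S : ℝ)) ^ 2 + 9 * S)) ≤ t * (c * (90 * S ^ 2)) := by
        gcongr
      have b4 : (N : ℝ) * G ≤ t * θ * G := by
        apply mul_le_mul_of_nonneg_right _ hG
        nlinarith
      nlinarith
    have a4 : (4 * G + 1) * (m : ℝ) ≤ (4 * G + 1) * T := by
      have : (m : ℝ) ≤ T := by exact_mod_cast hm
      gcongr
    have a5 : 423 * c * t * S ^ 2 + 9 * c * t * (θ * S) ≤ 450 * c * t * ((S : ℝ) ^ 2 + θ * S) := by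
      have : 0 ≤ c * t * (S : ℝ) ^ 2 := by positivity
      have : 0 ≤ c * t * (θ * S) := by positivity
      nlinarith
    have a6 : ((m : ℝ) - j) ^ 2 / (16 * (450 * c * t)) =
        1 / (16 * (450 * c) * t) * ((m : ℝ) - j) ^ 2 := by
      field_simp
    rw [a6] at hS
    push_cast
    linarith

end Pool.Agent.LGO.F.PE
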