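import Pool.Agent.LGO.F.PVan
import Pool.Agent.LGO.F.PRow

/-!
# LGO/F, engine P: the functionals of level `≤ T` separate (from the zero estimate)
-/

namespace Pool.Agent.LGO.F.PE

open Pool.Agent.Schn Pool.Agent.LGO.E3 Pool.Agent.EllSch Pool.Agent.LGO.Bs

theorem inj {Cz : ℕ} (hCz : 1 ≤ Cz) (hz : ZEst Cz) {w τ c₁ c₂ μ d₁ d₂ : ℂ} {N θ r : ℕ} {a b : ℤ}
    {Y : ℝ} (h : ZD w τ c₁ c₂ N a b) (h16 : 16 ≤ N) (hμ : μ ≠ 0) (hd₁ : d₁ = μ * c₁) (hd₂ : d₂ = μ * c₂)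
    (hθ : 1 ≤ θ) (hτθ : τ.im ≤ θ) (hθτ : (θ : ℝ) ≤ 3 * τ.im) (hY0 : 0 ≤ Y)
    (hY : ∀ P Q : ℤ, IsCoprime P Q → (Int.gcd (a * P + b * Q) N : ℝ) ≤
      Y * (P ^ 2 * τ.im + Q ^ 2 / τ.im))
    (hr : N ≤ r ^ 2) (h1 : 2 * θ ≤ r) (h2 : 4 * Y ≤ r) {T : ℕ} (hT : T = Cz * (N ^ 5 * θ) * r)
    (p : Ix (N ^ 5 * θ ^ 2) (N ^ 5) N → ℂ)
    (hp : ∀ m ≤ T, ∀ i ≤ m, cc (us (3 / 2 * G2 w (w * τ)) (2 * G3 w (w * τ)))
      (us (3 / 2 * G2 w (w * τ)) (2 * G3 w (w * τ))) (us (3 / 2 * G2 d₁ d₂) (2 * G3 d₁ d₂))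
      (μ * a) (μ * b) (N ^ 5 * θ ^ 2) (N ^ 5) N m i p = 0) : p = 0 := by
  by_contra hne
  obtain ⟨q, hq⟩ : ∃ q, p q ≠ 0 := by
    by_contra hcon
    push Not at hcon
    exact hne (funext hcon)
  have hvan := van h hμ hd₁ hd₂ T p fun m hm => fr_zero (hp m hm)
  have hN := h.N1
  have hθ2 : 1 ≤ θ ^ 2 := Nat.one_le_pow _ _ hθ
  have hex : ∃ i < N ^ 5 * θ ^ 2, ∃ j < N ^ 5, ∃ k < N, pz μ p i j k ≠ 0 := by
    refine ⟨q.1, q.1.2, q.2.1, q.2.1.2, q.2.2, q.2.2.2, ?_⟩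
    have e : pz μ p q.1 q.2.1 q.2.2 = p q * μ ^ (2 * (q.2.2 : ℕ)) := by
      rw [pz, dif_pos ⟨q.1.2, q.2.1.2, q.2.2.2⟩]
    rw [e]
    exact mul_ne_zero hq (pow_ne_zero _ hμ)
  have hiN : 0 < τ.im := h.im
  rcases hz w τ c₁ c₂ N a b h h16 (N ^ 5 * θ ^ 2) (N ^ 5) N (T + 1) (pz μ p) hN le_rfl
    (Nat.le_mul_of_pos_right _ (by positivity)) le_rfl hex hvan with hc | hc | ⟨P, Q, hPQ, hP, hQ⟩
  · -- first case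
    have e1 : T ^ 2 = Cz ^ 2 * (N ^ 5 * θ) ^ 2 * r ^ 2 := by rw [hT]; ring
    have e2 : Cz * N * (N ^ 5 * θ ^ 2) * N ^ 5 = Cz * (N ^ 5 * θ) ^ 2 * N := by ring
    rw [e2] at hc
    have e3 : Cz * (N ^ 5 * θ) ^ 2 * N ≤ T ^ 2 := by
      rw [e1]
      have : Cz ≤ Cz ^ 2 := Nat.le_self_pow (by norm_num) Cz
      gcongr
    nlinarith
  · -- second case
    have e1 : N ^ 5 * θ ^ 2 + N ^ 5 ≤ N ^ 5 * θ * (2 * θ) := by nlinarith [Nat.zero_le (N ^ 5)]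
    have e2 : Cz * (N ^ 5 * θ ^ 2 + N ^ 5) ≤ T := by
      calc Cz * (N ^ 5 * θ ^ 2 + N ^ 5) ≤ Cz * (N ^ 5 * θ * (2 * θ)) := Nat.mul_le_mul_left _ e1
        _ ≤ Cz * (N ^ 5 * θ * r) := by gcongr
        _ = T := by rw [hT]; ring
    omega
  · -- third case
    have hg := hY P Q hPQ
    have hgpos : 0 < Int.gcd (a * P + b * Q) N :=
      Int.gcd_pos_of_ne_zero_right _ (by exact_mod_cast (by omega : N ≠ 0))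
    generalize Int.gcd (a * P + b * Q) N = g at *
    have hg0 : (0 : ℝ) < g := by exact_mod_cast hgpos
    have hP' : ((T : ℝ) + 1) * (P : ℝ) ^ 2 ≤ Cz * g * N ^ 5 := by
      exact_mod_cast hP
    have hQ' : ((T : ℝ) + 1) * (Q : ℝ) ^ 2 ≤ Cz * g * (N ^ 5 * θ ^ 2) := by
      exact_mod_cast hQ
    have hCr : (0 : ℝ) ≤ Cz * g * N ^ 5 := by positivity
    have hT1 : (0 : ℝ) ≤ (T : ℝ) + 1 := by positivity
    have k1 : ((T : ℝ) + 1) * (P : ℝ) ^ 2 * τ.im ≤ Cz * g * N ^ 5 * θ := by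
      calc ((T : ℝ) + 1) * (P : ℝ) ^ 2 * τ.im ≤ Cz * g * N ^ 5 * τ.im :=
            mul_le_mul_of_nonneg_right hP' hiN.le
        _ ≤ _ := mul_le_mul_of_nonneg_left hτθ hCr
    have k2 : ((T : ℝ) + 1) * (Q : ℝ) ^ 2 / τ.im ≤ 3 * (Cz * g * N ^ 5 * θ) := by
      rw [div_le_iff₀ hiN]
      calc ((T : ℝ) + 1) * (Q : ℝ) ^ 2 ≤ Cz * g * (N ^ 5 * θ ^ 2) := hQ'
        _ = Cz * g * N ^ 5 * θ * θ := by ring
        _ ≤ Cz * g * N ^ 5 * θ * (3 * τ.im) := by gcongr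
        _ = _ := by ring
    have k3 : ((T : ℝ) + 1) * g ≤ 4 * Y * (Cz * g * N ^ 5 * θ) := by
      calc ((T : ℝ) + 1) * g ≤ ((T : ℝ) + 1) * (Y * (P ^ 2 * τ.im + Q ^ 2 / τ.im)) :=
            mul_le_mul_of_nonneg_left hg hT1
        _ = Y * (((T : ℝ) + 1) * (P : ℝ) ^ 2 * τ.im + ((T : ℝ) + 1) * (Q : ℝ) ^ 2 / τ.im) := by
            ring
        _ ≤ Y * (Cz * g * N ^ 5 * θ + 3 * (Cz * g * N ^ 5 * θ)) := by gcongr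
        _ = _ := by ring
    have k4 : ((T : ℝ) + 1) ≤ 4 * Y * (Cz * N ^ 5 * θ) := by
      refine le_of_mul_le_mul_right ?_ hg0
      calc ((T : ℝ) + 1) * g ≤ 4 * Y * (Cz * g * N ^ 5 * θ) := k3
        _ = _ := by ring
    have k5 : 4 * Y * (Cz * N ^ 5 * θ) ≤ (T : ℝ) := by
      rw [hT]
      push_cast
      calc 4 * Y * (Cz * (N : ℝ) ^ 5 * θ) ≤ r * (Cz * (N : ℝ) ^ 5 * θ) := by gcongr
        _ = _ := by ring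
    linarith

end Pool.Agent.LGO.F.PE
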