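import Pool.Agent.LGO.F.PDefs

/-!
# LGO/F, engine P: the Taylor series of `Fc` along a line

As `E3/Ser.lean`.
-/

namespace Pool.Agent.LGO.F.PE

open Polynomial Pool.Agent.Schn Pool.Agent.LGO.E3

variable {L₁ L₂ L₃ : ℕ}

private theorem ser_scale {f : ℂ → ℂ} (hf : Differentiable ℂ f) (α : ℂ) :
    tay (fun t => f (α * t)) = PowerSeries.rescale α (tay f) := by
  ext n
  rw [PowerSeries.coeff_rescale, tay, tay, PowerSeries.coeff_mk, PowerSeries.coeff_mk,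
    iteratedDeriv_comp_const_mul hf.contDiff α]
  simp only [mul_zero]
  ring

private theorem ser_an {f : ℂ → ℂ} (hf : Differentiable ℂ f) (α : ℂ) (z : ℂ) :
    AnalyticAt ℂ (fun t => f (α * t)) z :=
  (hf.comp (differentiable_id.const_mul α)).analyticAt z

private theorem ser_fac {w : ℂ} {U : PowerSeries ℂ} {s e : ℂ → ℂ} (h : Loc w U s e) (α : ℂ)
    {n L : ℕ} (hn : n < L) :
    tay (fun t => s (α * t) ^ n * e (α * t) ^ (L - 1 - n)) =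
      PowerSeries.rescale α (tay e) ^ (L - 1) * PowerSeries.rescale (α * w) U ^ n := by
  have hp1 : AnalyticAt ℂ (fun t => s (α * t) ^ n) 0 := (ser_an h.ds α 0).pow n
  have hp2 : AnalyticAt ℂ (fun t => e (α * t) ^ (L - 1 - n)) 0 := (ser_an h.de α 0).pow (L - 1 - n)
  rw [tay_mul hp1 hp2,
    tay_pow (ser_an h.ds α 0), tay_pow (ser_an h.de α 0), ser_scale h.ds, ser_scale h.de, h.ser,
    map_mul, PowerSeries.rescale_rescale, mul_comm w α]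
  have h1 : L - 1 = n + (L - 1 - n) := by omega
  conv_rhs => rw [h1, pow_add]
  rw [mul_pow]
  ring

theorem ser_dir (U₁ U₂ U₃ : PowerSeries ℂ) (l₁ l₂ x : ℂ) (a b c : ℕ) :
    PowerSeries.map (evalRingHom x) (dirS U₁ U₂ U₃ l₁ l₂ a b c) =
      U₁ ^ a * PowerSeries.rescale x U₂ ^ b * PowerSeries.rescale (l₁ + l₂ * x) U₃ ^ c := by
  have hC : ∀ U : PowerSeries ℂ,
      PowerSeries.map (evalRingHom x) (PowerSeries.map (C : ℂ →+* ℂ[X]) U) = U := by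
    intro U
    ext n
    simp
  have hR : ∀ (r : ℂ[X]) (U : PowerSeries ℂ),
      PowerSeries.map (evalRingHom x) (PowerSeries.rescale r (PowerSeries.map (C : ℂ →+* ℂ[X]) U)) =
        PowerSeries.rescale (r.eval x) U := by
    intro r U
    ext n
    simp [PowerSeries.coeff_rescale]
  rw [dirS, map_mul, map_mul, map_pow, map_pow, map_pow, hC, hR, hR]
  simp

/-- the values of the forms at `x` -/
theorem ser_fr (U₁ U₂ U₃ : PowerSeries ℂ) (l₁ l₂ x : ℂ) (p : Ix L₁ L₂ L₃ → ℂ) :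
    (PowerSeries.mk fun k => (fr U₁ U₂ U₃ l₁ l₂ p k).eval x) =
      ∑ q : Ix L₁ L₂ L₃, PowerSeries.C (p q) * (U₁ ^ (q.1 : ℕ) *
        PowerSeries.rescale x U₂ ^ (q.2.1 : ℕ) *
          PowerSeries.rescale (l₁ + l₂ * x) U₃ ^ (q.2.2 : ℕ)) := by
  ext k
  rw [PowerSeries.coeff_mk, fr, map_sum, eval_finsetSum]
  refine Finset.sum_congr rfl fun q _ => ?_
  rw [PowerSeries.coeff_C_mul, ← ser_dir, PowerSeries.coeff_map, eval_mul, coe_evalRingHom,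
    eval_C]

theorem tay_Fc {w₁ w₂ w₃ l₁ l₂ : ℂ} {U₁ U₂ U₃ : PowerSeries ℂ} {s₁ e₁ s₂ e₂ s₃ e₃ : ℂ → ℂ}
    (h₁ : Loc w₁ U₁ s₁ e₁) (h₂ : Loc w₂ U₂ s₂ e₂) (h₃ : Loc w₃ U₃ s₃ e₃) (hw₁ : w₁ ≠ 0)
    (hw₃ : w₃ ≠ 0) (hl : l₁ * w₁ + l₂ * w₂ = w₃) (p : Ix L₁ L₂ L₃ → ℂ) (η : ℂ) :
    ∃ V : PowerSeries ℂ, PowerSeries.constantCoeff V = 1 ∧
      tay (fun t => Fc s₁ e₁ s₂ e₂ s₃ e₃ (l₂ * w₂ / w₃) p (t, η * t)) =
        V * PowerSeries.rescale w₁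
          (PowerSeries.mk fun k => (fr U₁ U₂ U₃ l₁ l₂ p k).eval (w₂ * (1 + η) / w₁)) := by
  set κ : ℂ := l₂ * w₂ / w₃ with hκ
  set x : ℂ := w₂ * (1 + η) / w₁ with hx
  have hx1 : x * w₁ = (1 + η) * w₂ := by rw [hx]; field_simp
  have hx2 : (l₁ + l₂ * x) * w₁ = (1 + κ * η) * w₃ := by
    have e1 : κ * w₃ = l₂ * w₂ := by rw [hκ]; field_simp
    calc (l₁ + l₂ * x) * w₁ = l₁ * w₁ + l₂ * (x * w₁) := by ring
      _ = (l₁ * w₁ + l₂ * w₂) + η * (l₂ * w₂) := by rw [hx1]; ring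
      _ = (1 + κ * η) * w₃ := by rw [hl, ← e1]; ring
  have hc0 : ∀ {e : ℂ → ℂ} (α : ℂ), e 0 = 1 →
      PowerSeries.constantCoeff (PowerSeries.rescale α (tay e)) = 1 := by
    intro e α he
    rw [← PowerSeries.coeff_zero_eq_constantCoeff_apply, PowerSeries.coeff_rescale, tay,
      PowerSeries.coeff_mk]
    simp [he]
  refine ⟨PowerSeries.rescale 1 (tay e₁) ^ (L₁ - 1) *
    PowerSeries.rescale (1 + η) (tay e₂) ^ (L₂ - 1) *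
    PowerSeries.rescale (1 + κ * η) (tay e₃) ^ (L₃ - 1), ?_, ?_⟩
  · rw [map_mul, map_mul, map_pow, map_pow, map_pow, hc0 _ h₁.e0, hc0 _ h₂.e0, hc0 _ h₃.e0]
    simp
  · have hA : ∀ {w : ℂ} {U : PowerSeries ℂ} {s e : ℂ → ℂ}, Loc w U s e → ∀ (α : ℂ) (m n : ℕ),
        AnalyticAt ℂ (fun t => s (α * t) ^ m * e (α * t) ^ n) 0 := fun h α m n =>
      ((ser_an h.ds α 0).pow m).mul ((ser_an h.de α 0).pow n)
    have hT : ∀ q : Ix L₁ L₂ L₃, AnalyticAt ℂ (fun t => p q *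
        (s₁ (1 * t) ^ (q.1 : ℕ) * e₁ (1 * t) ^ (L₁ - 1 - (q.1 : ℕ))) *
        (s₂ ((1 + η) * t) ^ (q.2.1 : ℕ) * e₂ ((1 + η) * t) ^ (L₂ - 1 - (q.2.1 : ℕ))) *
        (s₃ ((1 + κ * η) * t) ^ (q.2.2 : ℕ) * e₃ ((1 + κ * η) * t) ^ (L₃ - 1 - (q.2.2 : ℕ)))) 0 :=
      fun q => ((analyticAt_const.mul (hA h₁ 1 _ _)).mul (hA h₂ _ _ _)).mul (hA h₃ _ _ _)
    have hF : (fun t => Fc s₁ e₁ s₂ e₂ s₃ e₃ κ p (t, η * t)) = fun t =>
        ∑ q : Ix L₁ L₂ L₃, (p q *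
        (s₁ (1 * t) ^ (q.1 : ℕ) * e₁ (1 * t) ^ (L₁ - 1 - (q.1 : ℕ))) *
        (s₂ ((1 + η) * t) ^ (q.2.1 : ℕ) * e₂ ((1 + η) * t) ^ (L₂ - 1 - (q.2.1 : ℕ))) *
        (s₃ ((1 + κ * η) * t) ^ (q.2.2 : ℕ) * e₃ ((1 + κ * η) * t) ^ (L₃ - 1 - (q.2.2 : ℕ)))) := by
      funext t
      have e2 : t + η * t = (1 + η) * t := by ring
      have e3 : t + κ * (η * t) = (1 + κ * η) * t := by ring
      simp only [Fc, e2, e3, one_mul]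
    rw [hF, ser_fr, map_sum, Finset.mul_sum, tay_sum _ _ fun q _ => hT q]
    refine Finset.sum_congr rfl fun q _ => ?_
    have q1 := hA h₁ 1 (q.1 : ℕ) (L₁ - 1 - (q.1 : ℕ))
    have q2 := hA h₂ (1 + η) (q.2.1 : ℕ) (L₂ - 1 - (q.2.1 : ℕ))
    have q3 := hA h₃ (1 + κ * η) (q.2.2 : ℕ) (L₃ - 1 - (q.2.2 : ℕ))
    have q0 : AnalyticAt ℂ (fun _ : ℂ => p q) 0 := analyticAt_const
    have q01 : AnalyticAt ℂ (fun t => p q *
        (s₁ (1 * t) ^ (q.1 : ℕ) * e₁ (1 * t) ^ (L₁ - 1 - (q.1 : ℕ)))) 0 := q0.mul q1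
    have q012 : AnalyticAt ℂ (fun t => p q *
        (s₁ (1 * t) ^ (q.1 : ℕ) * e₁ (1 * t) ^ (L₁ - 1 - (q.1 : ℕ))) *
        (s₂ ((1 + η) * t) ^ (q.2.1 : ℕ) * e₂ ((1 + η) * t) ^ (L₂ - 1 - (q.2.1 : ℕ)))) 0 :=
      q01.mul q2
    rw [tay_mul q012 q3, tay_mul q01 q2, tay_mul q0 q1, tay_const,
      ser_fac h₁ 1 q.1.2, ser_fac h₂ _ q.2.1.2,
      ser_fac h₃ _ q.2.2.2, map_mul, map_mul, map_mul, map_pow, map_pow, map_pow,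
      PowerSeries.rescale_rescale, PowerSeries.rescale_rescale, hx1, hx2, one_mul]
    have hCr : PowerSeries.rescale w₁ (PowerSeries.C (p q)) = PowerSeries.C (p q) := by
      ext n
      rw [PowerSeries.coeff_rescale, PowerSeries.coeff_C]
      by_cases hn : n = 0
      · simp [hn]
      · simp [hn]
    rw [hCr]
    ring

/-- `Fc` is analytic and periodic -/
theorem analytic_Fc {w₁ w₂ w₃ : ℂ} {U₁ U₂ U₃ : PowerSeries ℂ} {s₁ e₁ s₂ e₂ s₃ e₃ : ℂ → ℂ}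
    (h₁ : Loc w₁ U₁ s₁ e₁) (h₂ : Loc w₂ U₂ s₂ e₂) (h₃ : Loc w₃ U₃ s₃ e₃) (κ : ℂ)
    (p : Ix L₁ L₂ L₃ → ℂ) :
    (∀ x, AnalyticAt ℂ (Fc s₁ e₁ s₂ e₂ s₃ e₃ κ p) x) ∧
      ∀ z v, Fc s₁ e₁ s₂ e₂ s₃ e₃ κ p (z + 1, v) = Fc s₁ e₁ s₂ e₂ s₃ e₃ κ p (z, v) := by
  constructor
  · intro x
    have hg : ∀ {f : ℂ → ℂ} {g : ℂ × ℂ → ℂ}, Differentiable ℂ f → AnalyticAt ℂ g x →
        AnalyticAt ℂ (fun y => f (g y)) x := fun {f g} hf hg =>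
      (hf.analyticAt (g x)).comp hg
    have e1 : AnalyticAt ℂ (fun y : ℂ × ℂ => y.1) x := analyticAt_fst
    have e2 : AnalyticAt ℂ (fun y : ℂ × ℂ => y.1 + y.2) x := analyticAt_fst.add analyticAt_snd
    have e3 : AnalyticAt ℂ (fun y : ℂ × ℂ => y.1 + κ * y.2) x :=
      analyticAt_fst.add (analyticAt_const.mul analyticAt_snd)
    have hF : Fc s₁ e₁ s₂ e₂ s₃ e₃ κ p = fun y : ℂ × ℂ =>
        ∑ q : Ix L₁ L₂ L₃,
          p q * (s₁ y.1 ^ (q.1 : ℕ) * e₁ y.1 ^ (L₁ - 1 - (q.1 : ℕ))) *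
            (s₂ (y.1 + y.2) ^ (q.2.1 : ℕ) * e₂ (y.1 + y.2) ^ (L₂ - 1 - (q.2.1 : ℕ))) *
            (s₃ (y.1 + κ * y.2) ^ (q.2.2 : ℕ) * e₃ (y.1 + κ * y.2) ^ (L₃ - 1 - (q.2.2 : ℕ))) := rfl
    rw [hF]
    refine Finset.analyticAt_fun_sum _ fun q _ => ?_
    exact ((analyticAt_const.mul (((hg h₁.ds e1).pow _).mul ((hg h₁.de e1).pow _))).mul
      (((hg h₂.ds e2).pow _).mul ((hg h₂.de e2).pow _))).mul
      (((hg h₃.ds e3).pow _).mul ((hg h₃.de e3).pow _))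
  · intro z v
    have a1 : z + 1 + v = (z + v) + 1 := by ring
    have a2 : z + 1 + κ * v = (z + κ * v) + 1 := by ring
    simp only [Fc, a1, a2, h₁.ps, h₁.pe, h₂.ps, h₂.pe, h₃.ps, h₃.pe]

end Pool.Agent.LGO.F.PE
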