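import Pool.Agent.LGO.F.PDefs
import Pool.Agent.Schn.Schwarz

/-!
# LGO/F, engine P: Schwarz lemma in two variables, all orders

The proof of `E3/Two.lean` (`schwarz2`), with the full order `O - j` at the `2 S + 1` points.
-/

namespace Pool.Agent.LGO.F.PE

open Pool.Agent.Schn Filter Topology

private theorem two_deriv (G : ℂ × ℂ → ℂ) (x : ℂ × ℂ) (hG : AnalyticAt ℂ G x) :
    deriv (fun v => G (x.1, v)) x.2 = fderiv ℂ G x (0, 1) := by
  have h1 : HasDerivAt (fun v : ℂ => ((x.1, v) : ℂ × ℂ)) (0, 1) x.2 :=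
    (hasDerivAt_const x.2 x.1).prodMk (hasDerivAt_id x.2)
  have h2 : HasFDerivAt G (fderiv ℂ G x) (x.1, x.2) := hG.differentiableAt.hasFDerivAt
  exact (h2.comp_hasDerivAt x.2 h1).deriv

private theorem two_analytic (F : ℂ × ℂ → ℂ) (hF : ∀ x, AnalyticAt ℂ F x) (j : ℕ) :
    ∀ x : ℂ × ℂ,
      AnalyticAt ℂ (fun x : ℂ × ℂ => iteratedDeriv j (fun v => F (x.1, v)) x.2) x := by
  induction j with
  | zero =>
    intro x
    simpa using hF x
  | succ j ih =>
    intro x
    have h1 : (fun x : ℂ × ℂ => iteratedDeriv (j + 1) (fun v => F (x.1, v)) x.2) =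
        fun x : ℂ × ℂ => fderiv ℂ
          (fun x : ℂ × ℂ => iteratedDeriv j (fun v => F (x.1, v)) x.2) x (0, 1) := by
      funext y
      rw [iteratedDeriv_succ, ← two_deriv _ y (ih y)]
    rw [h1]
    have h2 := (ih x).fderiv
    exact ((ContinuousLinearMap.apply ℂ ℂ ((0, 1) : ℂ × ℂ)).analyticAt _).comp h2

private theorem two_cauchy (h : ℂ → ℂ) (hh : Differentiable ℂ h) (j : ℕ) {R C : ℝ} (hR : 0 < R)
    (hC : ∀ v, ‖v‖ = R → ‖h v‖ ≤ C) : ‖PowerSeries.coeff j (tay h)‖ ≤ C / R ^ j := by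
  have h1 := Complex.norm_iteratedDeriv_le_of_forall_mem_sphere_norm_le (c := 0) j hR
    hh.diffContOnCl (fun z hz => hC z (by simpa using hz))
  have hj : (0 : ℝ) < (j.factorial : ℝ) := by exact_mod_cast j.factorial_pos
  rw [tay, PowerSeries.coeff_mk, norm_div, Complex.norm_natCast, div_le_iff₀ hj]
  calc ‖iteratedDeriv j h 0‖ ≤ j.factorial * C / R ^ j := h1
    _ = C / R ^ j * j.factorial := by ring

private theorem two_poly (a : ℕ → ℂ) (O j : ℕ) (hj : j ≤ O) :
    PowerSeries.coeff j (tay (fun v => ∑ i ∈ Finset.range (O + 1), a i * v ^ i)) = a j := by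
  have hid : AnalyticAt ℂ (fun t : ℂ => t) 0 := analyticAt_id
  have h1 : tay (fun v => ∑ i ∈ Finset.range (O + 1), a i * v ^ i) =
      ∑ i ∈ Finset.range (O + 1), PowerSeries.C (a i) * PowerSeries.X ^ i := by
    rw [tay_sum _ (fun i v => a i * v ^ i) fun i _ => analyticAt_const.mul (hid.pow i)]
    refine Finset.sum_congr rfl fun i _ => ?_
    have h5 : tay (fun v => a i * v ^ i) = tay (fun _ => a i) * tay (fun v => v ^ i) :=
      tay_mul (f := fun _ => a i) (g := fun v => v ^ i) analyticAt_const (hid.pow i)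
    rw [h5, tay_const, tay_pow hid, tay_id]
  rw [h1, map_sum, Finset.sum_eq_single j]
  · rw [PowerSeries.coeff_C_mul, PowerSeries.coeff_X_pow_self, mul_one]
  · intro i _ hi
    rw [PowerSeries.coeff_C_mul, PowerSeries.coeff_X_pow, if_neg hi.symm, mul_zero]
  · intro h
    exact absurd (Finset.mem_range.2 (by omega)) h

theorem schwarz2b (F : ℂ × ℂ → ℂ) (hF : ∀ x, AnalyticAt ℂ F x)
    (hper : ∀ z v, F (z + 1, v) = F (z, v)) (O S : ℕ) (hS : 1 ≤ S) (q : ℕ → ℂ)
    (hloc : ∃ C₀ r : ℝ, 0 < r ∧ ∀ z v : ℂ, ‖z‖ ≤ r → ‖v‖ ≤ ‖z‖ →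
      ‖F (z, v) - ∑ i ∈ Finset.range (O + 1), q i * z ^ (O - i) * v ^ i‖ ≤ C₀ * ‖z‖ ^ (O + 1))
    (ρ B : ℝ) (hρ : 0 < ρ) (hB : ∀ z v : ℂ, ‖z‖ ≤ 8 * S → ‖v‖ ≤ ρ → ‖F (z, v)‖ ≤ B)
    (j : ℕ) (hjO : j ≤ O) : ‖q j‖ ≤ B / ρ ^ j / 2 ^ (2 * S * (O - j)) := by
  classical
  have hS0 : (0 : ℝ) < S := by exact_mod_cast hS
  -- the slices
  have hslice : ∀ z, Differentiable ℂ (fun v => F (z, v)) := by
    intro z v
    have h1 : DifferentiableAt ℂ (fun v : ℂ => ((z, v) : ℂ × ℂ)) v :=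
      (differentiableAt_const z).prodMk differentiableAt_id
    exact DifferentiableAt.comp v (hF (z, v)).differentiableAt h1
  let f : ℂ → ℂ := fun z => PowerSeries.coeff j (tay (fun v => F (z, v)))
  have hfdef : ∀ z, f z = iteratedDeriv j (fun v => F (z, v)) 0 / (j.factorial : ℂ) := by
    intro z
    simp only [f, tay, PowerSeries.coeff_mk]
  have hfd : Differentiable ℂ f := by
    intro z
    have h1 : DifferentiableAt ℂ (fun z : ℂ => ((z, 0) : ℂ × ℂ)) z :=
      differentiableAt_id.prodMk (differentiableAt_const 0)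
    have h2 := DifferentiableAt.comp z (two_analytic F hF j (z, 0)).differentiableAt h1
    have h3 : f = fun z => ((fun x : ℂ × ℂ => iteratedDeriv j (fun v => F (x.1, v)) x.2) ∘
        fun z : ℂ => ((z, 0) : ℂ × ℂ)) z / (j.factorial : ℂ) := by
      funext z
      exact hfdef z
    rw [h3]
    exact h2.div_const _
  have hfper : Function.Periodic f 1 := by
    intro z
    simp only [f]
    congr 2
    funext v
    exact hper z v
  have hfint : ∀ (m : ℤ) (z : ℂ), f (z - m) = f z := by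
    intro m z
    have h1 := (hfper.int_mul m).sub_eq z
    simpa using h1
  -- bound on the large circle
  have hfB : ∀ z, ‖z‖ ≤ 8 * S → ‖f z‖ ≤ B / ρ ^ j := by
    intro z hz
    exact two_cauchy _ (hslice z) j hρ fun v hv => hB z v hz hv.le
  -- near zero
  obtain ⟨C₀, r, hr, hloc⟩ := hloc
  have hnear : ∀ z, z ≠ 0 → ‖z‖ ≤ r → ‖f z - q j * z ^ (O - j)‖ ≤ C₀ * ‖z‖ ^ (O + 1) / ‖z‖ ^ j := by
    intro z hz0 hz
    have hzn : 0 < ‖z‖ := norm_pos_iff.2 hz0
    let p : ℂ → ℂ := fun v => ∑ i ∈ Finset.range (O + 1), q i * z ^ (O - i) * v ^ i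
    let h : ℂ → ℂ := fun v => F (z, v) - p v
    have hp : Differentiable ℂ p := by
      intro v
      exact DifferentiableAt.fun_sum fun i _ => by fun_prop
    have hh : Differentiable ℂ h := (hslice z).sub hp
    have h1 : ‖PowerSeries.coeff j (tay h)‖ ≤ C₀ * ‖z‖ ^ (O + 1) / ‖z‖ ^ j :=
      two_cauchy h hh j hzn fun v hv => hloc z v hz hv.le
    have h2 : tay (fun v => h v + p v) = tay h + tay p :=
      tay_add (hh.analyticAt 0) (hp.analyticAt 0)
    have h3 : (fun v => h v + p v) = fun v => F (z, v) := by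
      funext v
      simp only [h]
      ring
    have h4 : f z = PowerSeries.coeff j (tay h) + q j * z ^ (O - j) := by
      simp only [f]
      rw [← h3, h2, map_add]
      congr 1
      exact two_poly (fun i => q i * z ^ (O - i)) O j hjO
    rw [h4, add_sub_cancel_right]
    exact h1
  -- the quotient
  let g : ℂ → ℂ := fun z => if z = 0 then q j else f z / z ^ (O - j)
  have hg0 : g 0 = q j := by simp [g]
  have hg1 : ∀ z, z ≠ 0 → g z = f z / z ^ (O - j) := by
    intro z hz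
    simp [g, hz]
  have hgb : ∀ z, ‖z‖ ≤ r → ‖g z - q j‖ ≤ C₀ * ‖z‖ := by
    intro z hz
    by_cases hz0 : z = 0
    · simp [hz0, hg0]
    · have hzn : 0 < ‖z‖ := norm_pos_iff.2 hz0
      have hzp : z ^ (O - j) ≠ 0 := pow_ne_zero _ hz0
      have h1 : g z - q j = (f z - q j * z ^ (O - j)) / z ^ (O - j) := by
        rw [hg1 z hz0]
        field_simp
      have h2 : ‖z‖ ^ (O + 1) = ‖z‖ ^ j * ‖z‖ ^ (O - j) * ‖z‖ := by
        rw [← pow_add, ← pow_succ]
        congr 1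
        omega
      rw [h1, norm_div, norm_pow, div_le_iff₀ (by positivity)]
      calc ‖f z - q j * z ^ (O - j)‖ ≤ C₀ * ‖z‖ ^ (O + 1) / ‖z‖ ^ j := hnear z hz0 hz
        _ = C₀ * ‖z‖ * ‖z‖ ^ (O - j) := by
          rw [h2]
          field_simp
  have hgc : ContinuousAt g 0 := by
    rw [ContinuousAt, hg0, tendsto_iff_norm_sub_tendsto_zero]
    have h1 : Tendsto (fun z : ℂ => C₀ * ‖z‖) (𝓝 0) (𝓝 0) := by
      have h2 : Continuous (fun z : ℂ => C₀ * ‖z‖) := by fun_prop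
      simpa using h2.tendsto 0
    refine squeeze_zero' (Eventually.of_forall fun z => norm_nonneg _) ?_ h1
    filter_upwards [Metric.closedBall_mem_nhds (0 : ℂ) hr] with z hz
    exact hgb z (by simpa using hz)
  have hfg : ∀ z, f z = z ^ (O - j) * g z := by
    have h1 : ∀ z, z ≠ 0 → f z = z ^ (O - j) * g z := by
      intro z hz0
      rw [hg1 z hz0, mul_div_cancel₀ _ (pow_ne_zero _ hz0)]
    intro z
    by_cases hz0 : z = 0
    · rw [hz0]
      have h2 : Tendsto f (𝓝[≠] 0) (𝓝 (f 0)) :=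
        (hfd.continuous.tendsto 0).mono_left nhdsWithin_le_nhds
      have h3 : Tendsto (fun z => z ^ (O - j) * g z) (𝓝[≠] 0) (𝓝 (0 ^ (O - j) * g 0)) := by
        have h4 : ContinuousAt (fun z : ℂ => z ^ (O - j) * g z) 0 := by
          exact (continuous_pow (O - j)).continuousAt.mul hgc
        exact h4.tendsto.mono_left nhdsWithin_le_nhds
      refine tendsto_nhds_unique h2 (h3.congr' ?_)
      filter_upwards [self_mem_nhdsWithin] with z hz
      exact (h1 z hz).symm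
    · exact h1 z hz0
  -- the Schwarz lemma
  let pt : Fin (2 * S + 1) → ℂ := fun k => (((k : ℕ) : ℤ) - (S : ℤ) : ℤ)
  have hptinj : Function.Injective pt := by
    intro a b hab
    have h1 : (((a : ℕ) : ℤ) - (S : ℤ) : ℤ) = (((b : ℕ) : ℤ) - (S : ℤ) : ℤ) :=
      Int.cast_injective (α := ℂ) hab
    apply Fin.ext
    omega
  have hptn : ∀ k, ‖pt k‖ ≤ (S : ℝ) := by
    intro k
    have h1 : ‖pt k‖ = |((((k : ℕ) : ℤ) - (S : ℤ) : ℤ) : ℝ)| := Complex.norm_intCast _
    have h2 : |(((k : ℕ) : ℤ) - (S : ℤ) : ℤ)| ≤ (S : ℤ) := by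
      have := k.isLt
      rw [abs_le]
      omega
    rw [h1]
    exact_mod_cast h2
  let G : Fin (2 * S + 1) → ℂ → ℂ := fun k w => g (w - pt k)
  have hGc : ∀ k, ContinuousAt (G k) (pt k) := by
    intro k
    have h1 : ContinuousAt (fun w : ℂ => w - pt k) (pt k) := by fun_prop
    have h2 : ContinuousAt g ((fun w : ℂ => w - pt k) (pt k)) := by
      simpa using hgc
    exact ContinuousAt.comp (f := fun w : ℂ => w - pt k) (g := g) h2 h1
  have hHG : ∀ k, ∀ᶠ w in 𝓝 (pt k), f w = (w - pt k) ^ (O - j) * G k w := by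
    intro k
    refine Eventually.of_forall fun w => ?_
    have h1 : f (w - pt k) = f w := hfint _ w
    rw [← h1, hfg (w - pt k)]
  have hmain := schwarz pt hptinj (ρ := S) (R := 8 * S) (M := B / ρ ^ j) hptn (by positivity)
    (by linarith) f hfd.differentiableOn (fun w hw => hfB w hw.le) (O - j) G hGc hHG
    ⟨S, by omega⟩
  have hpt0 : pt ⟨S, by omega⟩ = 0 := by simp [pt]
  have hG0 : G ⟨S, by omega⟩ (pt ⟨S, by omega⟩) = q j := by
    simp only [G]
    rw [sub_self, hg0]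
  rw [hG0] at hmain
  have hB0 : 0 ≤ B := (norm_nonneg _).trans (hB 0 0 (by simp) (by simpa using hρ.le))
  have hM0 : 0 ≤ B / ρ ^ j := by positivity
  have hnum : (2 * (S : ℝ)) ^ ((2 * S + 1 - 1) * (O - j)) *
      (2 / (8 * (S : ℝ))) ^ ((2 * S + 1) * (O - j)) ≤ 1 / 2 ^ (2 * S * (O - j)) := by
    have h1 : (2 * S + 1) * (O - j) = (2 * S + 1 - 1) * (O - j) + (O - j) := by
      rw [Nat.add_sub_cancel]
      ring
    have h2 : (2 / (8 * (S : ℝ))) ^ (O - j) ≤ 1 := by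
      apply pow_le_one₀ (by positivity)
      rw [div_le_one (by positivity)]
      have : (1 : ℝ) ≤ S := by exact_mod_cast hS
      linarith
    have h3 : (2 * (S : ℝ)) ^ ((2 * S + 1 - 1) * (O - j)) *
        (2 / (8 * (S : ℝ))) ^ ((2 * S + 1 - 1) * (O - j)) =
        (1 / 2) ^ ((2 * S + 1 - 1) * (O - j)) := by
      rw [← mul_pow]
      congr 1
      field_simp
      norm_num
    rw [h1, pow_add, ← mul_assoc, h3]
    calc (1 / 2 : ℝ) ^ ((2 * S + 1 - 1) * (O - j)) * (2 / (8 * (S : ℝ))) ^ (O - j)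
        ≤ (1 / 2 : ℝ) ^ ((2 * S + 1 - 1) * (O - j)) * 1 :=
          mul_le_mul_of_nonneg_left h2 (by positivity)
      _ = 1 / 2 ^ (2 * S * (O - j)) := by rw [mul_one, div_pow, one_pow, Nat.add_sub_cancel]
  calc ‖q j‖ ≤ B / ρ ^ j * (2 * (S : ℝ)) ^ ((2 * S + 1 - 1) * (O - j)) *
        (2 / (8 * (S : ℝ))) ^ ((2 * S + 1) * (O - j)) := hmain
    _ = B / ρ ^ j * ((2 * (S : ℝ)) ^ ((2 * S + 1 - 1) * (O - j)) *
        (2 / (8 * (S : ℝ))) ^ ((2 * S + 1) * (O - j))) := by ring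
    _ ≤ B / ρ ^ j * (1 / 2 ^ (2 * S * (O - j))) := mul_le_mul_of_nonneg_left hnum hM0
    _ = B / ρ ^ j / 2 ^ (2 * S * (O - j)) := by ring

end Pool.Agent.LGO.F.PE
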