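import Pool.Agent.LGO.F.PSer
import Pool.Agent.LGO.A.BsAn

/-!
# LGO/F, engine P: if the forms of degree `≤ T` vanish, the function `FF` vanishes of order `T + 1` at `0`

PROOF.  `f := FF w τ c₁ c₂ a b L₁ L₂ L₃ (pz μ p)`.

(1) `iu (μ c₁) (μ c₂) (μ z) = μ² iu c₁ c₂ z` (`wp_smul`, `μ ≠ 0`), `Ind (μ c₁) (μ c₂)` (`ind_smul`).  The sum over
`range L₁ × range L₂ × range L₃` of `FF` is the sum over `Ix L₁ L₂ L₃` (`Finset.sum_range`, `Fintype.sum_prod_type`; `pz`
unfolds with `dif_pos`), so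
`f z = ∑ q, p q * iu w (w τ) z.1 ^ q.1 * iu w (w τ) z.2 ^ q.2.1 * iu d₁ d₂ (μ (a z.1 + b z.2)) ^ q.2.2`.

(2) `f` is analytic at `0` (`Mul.analyticAt_iu_zero`, compositions with continuous linear maps; finite sums).  Let `P` be its
power series, `HasFPowerSeriesAt f P 0`.

(3) Let `y = (α, β)`, `α ≠ 0`, `x = β / α`.  `t ↦ f (t α, t β)` has the Taylor series (`tay_sum`, `tay_mul`, `tay_pow`,
`Bs.iu_tay_comp` : `tay (fun z => iu a b (c z)) = rescale c (us ..)`, `iu_comp_an`)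
`∑ q, C (p q) * (rescale α U₁)^.. * (rescale (α x) U₁)^.. * (rescale (α (μ a + μ b x)) U₃)^..
   = rescale α (mk fun k => (fr .. p k).eval x)` (`ser_fr`, `PowerSeries.rescale_rescale`), so its coefficients of index `≤ T` are `0`.

(4) The `k`-th coefficient of `tay (t ↦ f (t • y))` is `P k (fun _ => y)`: e.g. `HasFPowerSeriesAt.compContinuousLinearMap` (or
`HasFPowerSeriesAt.comp_..`) for the linear map `t ↦ t • y`, and uniqueness of the one variable series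
(`HasFPowerSeriesAt.eq_formalMultilinearSeries`, or `HasFPowerSeriesAt.hasFPowerSeries..coeff`; `tay` is
`iteratedDeriv k f 0 / k!`, see Schn/TayBasic; `HasFPowerSeriesAt.factorial_smul`/`iteratedFDeriv` is another way:
`P k (fun _ => y) = (1 / k!) iteratedFDeriv ℂ k f 0 (fun _ => y)`).
So `P k (fun _ => y) = 0` for `k ≤ T` and all `y` with `y.1 ≠ 0`; `y ↦ P k (fun _ => y)` is continuous and
`{y | y.1 ≠ 0}` is dense in `ℂ × ℂ`, so it vanishes for all `y`.

(5) `HasFPowerSeriesAt.isBigO_sub_partialSum_pow` with `n = T + 1`: `f y - P.partialSum (T + 1) y = O(‖y‖^(T + 1))`, and the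
partial sum is `∑ k in range (T + 1), P k (fun _ => y) = 0`.
-/

namespace Pool.Agent.LGO.F.PE

open Polynomial Pool.Agent.Schn Pool.Agent.LGO.E3 Pool.Agent.EllSch Pool.Agent.LGO.Mul
  Pool.Agent.LGO.Bs Filter Topology Asymptotics

private theorem PVan_iu_smul {a b μ : ℂ} (hμ : μ ≠ 0) (z : ℂ) :
    iu (μ * a) (μ * b) (μ * z) = μ ^ 2 * iu a b z := by
  unfold iu
  rw [wp_smul hμ, inv_div, div_eq_mul_inv]

/-- order of vanishing from the Taylor coefficients along the lines through `0` -/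
theorem PVan_line {f : ℂ × ℂ → ℂ} (hf : AnalyticAt ℂ f 0) (T : ℕ)
    (h : ∀ y : ℂ × ℂ, y.1 ≠ 0 → ∀ k ≤ T, PowerSeries.coeff k (tay (fun t => f (t • y))) = 0) :
    f =O[𝓝 0] (fun z => ‖z‖ ^ (T + 1)) := by
  obtain ⟨P, hP⟩ := hf
  have key : ∀ y : ℂ × ℂ, y.1 ≠ 0 → ∀ k ≤ T, P k (fun _ => y) = 0 := by
    intro y hy k hk
    set u : ℂ →L[ℂ] ℂ × ℂ := ContinuousLinearMap.toSpanSingleton ℂ y with hu
    have h1 : HasFPowerSeriesAt f P (u 0) := by
      rw [map_zero]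
      exact hP
    have h2 := h1.compContinuousLinearMap
    have h3 : (f ∘ u) = fun t : ℂ => f (t • y) := by
      funext t
      simp [hu, ContinuousLinearMap.toSpanSingleton_apply]
    rw [h3] at h2
    have hA : AnalyticAt ℂ (fun t : ℂ => f (t • y)) 0 := ⟨_, h2⟩
    have h4 := h2.eq_formalMultilinearSeries hA.hasFPowerSeriesAt
    have h5 := congrArg (fun p : FormalMultilinearSeries ℂ ℂ ℂ => p k (fun _ => (1 : ℂ))) h4
    have h6 : (P.compContinuousLinearMap u) k (fun _ => (1 : ℂ)) = P k (fun _ => y) := by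
      rw [FormalMultilinearSeries.compContinuousLinearMap_apply]
      congr 1
      funext _
      simp [hu, ContinuousLinearMap.toSpanSingleton_apply]
    have h7 := h y hy k hk
    rw [tay, PowerSeries.coeff_mk] at h7
    simp only [h6] at h5
    rw [h5]
    simp [FormalMultilinearSeries.ofScalars_apply_eq, h7]
  have key' : ∀ k ≤ T, ∀ y : ℂ × ℂ, P k (fun _ => y) = 0 := by
    intro k hk
    have hc : Continuous fun y : ℂ × ℂ => P k (fun _ => y) :=
      (P k).cont.comp (continuous_pi fun _ => continuous_id)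
    have hd : Dense (({0}ᶜ : Set ℂ) ×ˢ (Set.univ : Set ℂ)) := (dense_compl_singleton (0 : ℂ)).prod dense_univ
    have he := Continuous.ext_on hd hc (continuous_const (y := (0 : ℂ))) fun y hy => key y (by simpa using hy) k hk
    intro y
    exact congrFun he y
  have h8 := hP.isBigO_sub_partialSum_pow (T + 1)
  refine h8.congr_left fun y => ?_
  have h9 : P.partialSum (T + 1) y = 0 := by
    unfold FormalMultilinearSeries.partialSum
    exact Finset.sum_eq_zero fun k hk => key' k (Nat.lt_succ_iff.1 (Finset.mem_range.1 hk)) y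
  rw [h9, sub_zero, zero_add]

theorem van {w τ c₁ c₂ μ d₁ d₂ : ℂ} {N : ℕ} {a b : ℤ} {L₁ L₂ L₃ : ℕ} (h : ZD w τ c₁ c₂ N a b)
    (hμ : μ ≠ 0) (hd₁ : d₁ = μ * c₁) (hd₂ : d₂ = μ * c₂) (T : ℕ) (p : Ix L₁ L₂ L₃ → ℂ)
    (hp : ∀ m ≤ T, fr (us (3 / 2 * G2 w (w * τ)) (2 * G3 w (w * τ)))
      (us (3 / 2 * G2 w (w * τ)) (2 * G3 w (w * τ))) (us (3 / 2 * G2 d₁ d₂) (2 * G3 d₁ d₂))
      (μ * a) (μ * b) p m = 0) :
    (FF w τ c₁ c₂ a b L₁ L₂ L₃ (pz μ p)) =O[𝓝 0] (fun z => ‖z‖ ^ (T + 1)) := by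
  subst hd₁ hd₂
  have hI : Ind w (w * τ) := h.ind1
  have hI' : Ind (μ * c₁) (μ * c₂) := ind_smul h.ind hμ
  have hF : FF w τ c₁ c₂ a b L₁ L₂ L₃ (pz μ p) = fun z => ∑ q : Ix L₁ L₂ L₃, p q *
      (iu w (w * τ) z.1 ^ (q.1 : ℕ) * iu w (w * τ) z.2 ^ (q.2.1 : ℕ) *
        iu (μ * c₁) (μ * c₂) (μ * (a * z.1 + b * z.2)) ^ (q.2.2 : ℕ)) := by
    funext z
    unfold FF
    rw [Finset.sum_range, Fintype.sum_prod_type]
    refine Finset.sum_congr rfl fun i _ => ?_
    rw [Finset.sum_range, Fintype.sum_prod_type]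
    refine Finset.sum_congr rfl fun j _ => ?_
    rw [Finset.sum_range]
    refine Finset.sum_congr rfl fun k _ => ?_
    rw [pz, dif_pos ⟨i.2, j.2, k.2⟩, PVan_iu_smul hμ, mul_pow, ← pow_mul]
    simp only [Fin.eta]
    ring
  rw [hF]
  have hg : ∀ {c d : ℂ} {g : ℂ × ℂ → ℂ}, Ind c d → AnalyticAt ℂ g 0 → g 0 = 0 →
      AnalyticAt ℂ (fun z => iu c d (g z)) 0 := by
    intro c d g hcd hg h0
    have h1 : AnalyticAt ℂ (iu c d) (g 0) := by
      rw [h0]
      exact analyticAt_iu_zero hcd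
    exact h1.comp hg
  have a1 : AnalyticAt ℂ (fun z : ℂ × ℂ => z.1) 0 := analyticAt_fst
  have a2 : AnalyticAt ℂ (fun z : ℂ × ℂ => z.2) 0 := analyticAt_snd
  have a3 : AnalyticAt ℂ (fun z : ℂ × ℂ => μ * (a * z.1 + b * z.2)) 0 :=
    analyticAt_const.mul ((analyticAt_const.mul a1).add (analyticAt_const.mul a2))
  refine PVan_line ?_ T fun y hy k hk => ?_
  · refine Finset.analyticAt_fun_sum _ fun q _ => ?_
    exact analyticAt_const.mul ((((hg hI a1 rfl).pow _).mul ((hg hI a2 rfl).pow _)).mul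
      ((hg hI' a3 (by simp)).pow _))
  · obtain ⟨α, β⟩ := y
    simp only at hy
    set x : ℂ := β / α with hx
    have hx1 : x * α = β := by rw [hx]; field_simp
    have hx2 : (μ * a + μ * b * x) * α = μ * (a * α + b * β) := by
      calc (μ * a + μ * b * x) * α = μ * a * α + μ * b * (x * α) := by ring
        _ = _ := by rw [hx1]; ring
    have e1 : (fun t : ℂ => ∑ q : Ix L₁ L₂ L₃, p q *
        (iu w (w * τ) (t • ((α, β) : ℂ × ℂ)).1 ^ (q.1 : ℕ) * iu w (w * τ) (t • ((α, β) : ℂ × ℂ)).2 ^ (q.2.1 : ℕ) *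
        iu (μ * c₁) (μ * c₂) (μ * (a * (t • ((α, β) : ℂ × ℂ)).1 + b * (t • ((α, β) : ℂ × ℂ)).2)) ^ (q.2.2 : ℕ))) =
        fun t => ∑ q : Ix L₁ L₂ L₃, p q *
        (iu w (w * τ) (α * t) ^ (q.1 : ℕ) * iu w (w * τ) (β * t) ^ (q.2.1 : ℕ) *
        iu (μ * c₁) (μ * c₂) (μ * (a * α + b * β) * t) ^ (q.2.2 : ℕ)) := by
      funext t
      refine Finset.sum_congr rfl fun q _ => ?_
      have t1 : (t • ((α, β) : ℂ × ℂ)).1 = α * t := by simp [mul_comm]
      have t2 : (t • ((α, β) : ℂ × ℂ)).2 = β * t := by simp [mul_comm]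
      have t3 : μ * (a * (α * t) + b * (β * t)) = μ * (a * α + b * β) * t := by ring
      rw [t1, t2, t3]
    rw [e1]
    have hT : ∀ q : Ix L₁ L₂ L₃, AnalyticAt ℂ (fun t => p q *
        (iu w (w * τ) (α * t) ^ (q.1 : ℕ) * iu w (w * τ) (β * t) ^ (q.2.1 : ℕ) *
        iu (μ * c₁) (μ * c₂) (μ * (a * α + b * β) * t) ^ (q.2.2 : ℕ))) 0 := fun q =>
      analyticAt_const.mul ((((iu_comp_an hI _).pow _).mul ((iu_comp_an hI _).pow _)).mul
        ((iu_comp_an hI' _).pow _))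
    have e2 : tay (fun t => ∑ q : Ix L₁ L₂ L₃, p q *
        (iu w (w * τ) (α * t) ^ (q.1 : ℕ) * iu w (w * τ) (β * t) ^ (q.2.1 : ℕ) *
        iu (μ * c₁) (μ * c₂) (μ * (a * α + b * β) * t) ^ (q.2.2 : ℕ))) =
        PowerSeries.rescale α (PowerSeries.mk fun k => (fr (us (3 / 2 * G2 w (w * τ)) (2 * G3 w (w * τ)))
          (us (3 / 2 * G2 w (w * τ)) (2 * G3 w (w * τ)))
          (us (3 / 2 * G2 (μ * c₁) (μ * c₂)) (2 * G3 (μ * c₁) (μ * c₂)))
          (μ * a) (μ * b) p k).eval x) := by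
      rw [ser_fr, map_sum, tay_sum _ _ fun q _ => hT q]
      refine Finset.sum_congr rfl fun q _ => ?_
      have q1 : AnalyticAt ℂ (fun t => iu w (w * τ) (α * t) ^ (q.1 : ℕ)) 0 := (iu_comp_an hI α).pow (q.1 : ℕ)
      have q2 : AnalyticAt ℂ (fun t => iu w (w * τ) (β * t) ^ (q.2.1 : ℕ)) 0 := (iu_comp_an hI β).pow (q.2.1 : ℕ)
      have q3 : AnalyticAt ℂ (fun t => iu (μ * c₁) (μ * c₂) (μ * (a * α + b * β) * t) ^ (q.2.2 : ℕ)) 0 :=
        (iu_comp_an hI' (μ * (a * α + b * β))).pow (q.2.2 : ℕ)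
      have q12 : AnalyticAt ℂ (fun t => iu w (w * τ) (α * t) ^ (q.1 : ℕ) *
        iu w (w * τ) (β * t) ^ (q.2.1 : ℕ)) 0 := q1.mul q2
      have q123 : AnalyticAt ℂ (fun t => iu w (w * τ) (α * t) ^ (q.1 : ℕ) *
        iu w (w * τ) (β * t) ^ (q.2.1 : ℕ) *
        iu (μ * c₁) (μ * c₂) (μ * (a * α + b * β) * t) ^ (q.2.2 : ℕ)) 0 := q12.mul q3
      have q0 : AnalyticAt ℂ (fun _ : ℂ => p q) 0 := analyticAt_const
      have hCr : PowerSeries.rescale α (PowerSeries.C (p q)) = PowerSeries.C (p q) := by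
        ext n
        rw [PowerSeries.coeff_rescale, PowerSeries.coeff_C]
        by_cases hn : n = 0
        · simp [hn]
        · simp [hn]
      rw [tay_mul q0 q123, tay_mul q12 q3, tay_mul q1 q2, tay_const, tay_pow (iu_comp_an hI _),
        tay_pow (iu_comp_an hI _), tay_pow (iu_comp_an hI' _), iu_tay_comp hI, iu_tay_comp hI,
        iu_tay_comp hI', map_mul, map_mul, map_mul, map_pow, map_pow, map_pow,
        PowerSeries.rescale_rescale, PowerSeries.rescale_rescale, hx1, hx2, hCr]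
    rw [e2, PowerSeries.coeff_rescale, PowerSeries.coeff_mk, hp k hk]
    simp

end Pool.Agent.LGO.F.PE
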