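import Pool.Agent.LGO.Mul.Defs
import Pool.Agent.EllSch.Add
import Pool.Agent.EllSch.Hom
import Pool.Agent.EllSch.PtMap

/-!
# The action of an automorphism of `ℂ` on the points of an elliptic curve

`σ` fixes `g₂`, `g₃` of the lattice `Λ = ℤ a + ℤ b`. It acts on the points `(℘(z), ℘'(z))` of the curve, so
on `ℂ / Λ`; it is an automorphism of this group by the addition theorem.
-/

namespace Pool.Agent.LGO.F

open Pool.Agent.EllSch

/-- `φ` is the action of `σ` on `ℂ / (ℤ a + ℤ b)`. -/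
structure TAct (σ : ℂ ≃+* ℂ) (a b : ℂ) (φ : ℂ → ℂ) : Prop where
  off : ∀ z, Off a b z → Off a b (φ z)
  hwp : ∀ z, Off a b z → wp a b (φ z) = σ (wp a b z)
  hwq : ∀ z, Off a b z → wq a b (φ z) = σ (wq a b z)
  hlat : ∀ x : ℤ × ℤ, ∃ y : ℤ × ℤ, φ (lat a b x) = lat a b y
  add : ∀ z w, ∃ x, φ (z + w) = φ z + φ w + lat a b x
  surj : ∀ z', ∃ z x, φ z = z' + lat a b x

/-- the inverse image of a point -/
private theorem TAct_ex {a b : ℂ} (h : Ind a b) (σ : ℂ ≃+* ℂ) (h2 : σ (G2 a b) = G2 a b)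
    (h3 : σ (G3 a b) = G3 a b) {z : ℂ} (hz : Off a b z) :
    ∃ z', Off a b z' ∧ wp a b z' = σ (wp a b z) ∧ wq a b z' = σ (wq a b z) := by
  apply exists_wp_eq h
  have e := congrArg σ (ode h hz)
  simp only [map_sub, map_mul, map_pow, map_ofNat, h2, h3] at e
  exact e

theorem exists_tact {a b : ℂ} (h : Ind a b) (σ : ℂ ≃+* ℂ) (h2 : σ (G2 a b) = G2 a b)
    (h3 : σ (G3 a b) = G3 a b) : ∃ φ, TAct σ a b φ := by
  classical
  have hΔ := disc_ne_zero h
  have ex : ∀ z, ∃ z', (Off a b z → Off a b z' ∧ wp a b z' = σ (wp a b z) ∧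
      wq a b z' = σ (wq a b z)) ∧ (¬ Off a b z → z' = 0) := by
    intro z
    by_cases hz : Off a b z
    · obtain ⟨z', h'⟩ := TAct_ex h σ h2 h3 hz
      exact ⟨z', fun _ => h', fun h0 => absurd hz h0⟩
    · exact ⟨0, fun h0 => absurd h0 hz, fun _ => rfl⟩
  choose φ h1 h0 using ex
  -- congruent arguments
  have hc : ∀ z w (x : ℤ × ℤ), z = w + EllSch.lat a b x → ∃ y, φ z = φ w + EllSch.lat a b y := by
    rintro z w x rfl
    by_cases hw : Off a b w
    · have hz := (off_add_lat x).2 hw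
      obtain ⟨o1, p1, q1⟩ := h1 _ hz
      obtain ⟨o2, p2, q2⟩ := h1 _ hw
      rw [wp_add_lat h] at p1
      rw [wq_add_lat h] at q1
      exact exists_lat_of_eq h o1 o2 (p1.trans p2.symm) (q1.trans q2.symm)
    · have hz : ¬ Off a b (w + EllSch.lat a b x) := fun h' => hw ((off_add_lat x).1 h')
      refine ⟨0, ?_⟩
      rw [h0 _ hw, h0 _ hz, EllSch.lat_zero, add_zero]
  refine ⟨φ, fun z hz => (h1 z hz).1, fun z hz => (h1 z hz).2.1, fun z hz => (h1 z hz).2.2, ?_,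
    ?_, ?_⟩
  · intro x
    refine ⟨0, ?_⟩
    rw [h0 _ (fun h0 => h0 x rfl), EllSch.lat_zero]
  · intro z w
    by_cases hz : Off a b z
    swap
    · obtain ⟨x, hx⟩ := Hom.not_off hz
      obtain ⟨y, hy⟩ := hc (z + w) w x (by rw [hx]; ring)
      exact ⟨y, by rw [hy, h0 _ hz]; ring⟩
    by_cases hw : Off a b w
    swap
    · obtain ⟨x, hx⟩ := Hom.not_off hw
      obtain ⟨y, hy⟩ := hc (z + w) z x (by rw [hx])
      exact ⟨y, by rw [hy, h0 _ hw]; ring⟩
    obtain ⟨o1, p1, q1⟩ := h1 _ hz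
    obtain ⟨o2, p2, q2⟩ := h1 _ hw
    by_cases hzw : Off a b (z + w)
    swap
    · obtain ⟨x, hx⟩ := Hom.not_off hzw
      have hw' : w = -z + EllSch.lat a b x := by rw [← hx]; ring
      rw [hw', wp_add_lat h, wp_neg h] at p2
      rw [hw', wq_add_lat h, wq_neg h, map_neg] at q2
      rw [← hw'] at p2 q2
      obtain ⟨y, hy⟩ := exists_lat_of_eq h o2 (off_neg.2 o1)
        (by rw [wp_neg h, p1, p2]) (by rw [wq_neg h, q1, q2])
      refine ⟨-y, ?_⟩
      rw [h0 _ hzw, hy, EllSch.lat_neg]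
      ring
    · obtain ⟨o3, p3, q3⟩ := h1 _ hzw
      obtain ⟨Φ, hΦ, hΦ0⟩ := exists_hom h
      have e := (sum_pt_map (σ : ℂ →+* ℂ) hΔ ![wp a b z, wp a b w, wp a b (z + w)]
        ![wq a b z, wq a b w, wq a b (z + w)] (by
          intro i
          fin_cases i
          · exact ode h hz
          · exact ode h hw
          · exact ode h hzw) ![1, 1, -1]).2 (by
          simp only [Fin.sum_univ_three]
          change (1 : ℤ) • pt (G2 a b) (G3 a b) (wp a b z) (wq a b z) +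
            (1 : ℤ) • pt (G2 a b) (G3 a b) (wp a b w) (wq a b w) +
            (-1 : ℤ) • pt (G2 a b) (G3 a b) (wp a b (z + w)) (wq a b (z + w)) = 0
          rw [← hΦ z hz, ← hΦ w hw, ← hΦ _ hzw, map_add, one_smul, one_smul, neg_smul, one_smul]
          exact add_neg_cancel _)
      simp only [Fin.sum_univ_three] at e
      change (1 : ℤ) • pt (σ (G2 a b)) (σ (G3 a b)) (σ (wp a b z)) (σ (wq a b z)) +
            (1 : ℤ) • pt (σ (G2 a b)) (σ (G3 a b)) (σ (wp a b w)) (σ (wq a b w)) +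
            (-1 : ℤ) • pt (σ (G2 a b)) (σ (G3 a b)) (σ (wp a b (z + w))) (σ (wq a b (z + w))) = 0
        at e
      rw [h2, h3, ← p1, ← q1, ← p2, ← q2, ← p3, ← q3, ← hΦ _ o1, ← hΦ _ o2, ← hΦ _ o3, one_smul,
        one_smul, neg_smul, one_smul, ← map_add, ← sub_eq_add_neg, ← map_sub] at e
      have e' : ¬ Off a b (φ z + φ w - φ (z + w)) := by
        intro h'
        rw [hΦ _ h'] at e
        exact pt_ne_zero hΔ (ode h h') e
      obtain ⟨x, hx⟩ := Hom.not_off e'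
      refine ⟨-x, ?_⟩
      rw [EllSch.lat_neg, ← hx]
      ring
  · intro z'
    by_cases hz' : Off a b z'
    · have h2' : σ.symm (G2 a b) = G2 a b := by rw [σ.symm_apply_eq, h2]
      have h3' : σ.symm (G3 a b) = G3 a b := by rw [σ.symm_apply_eq, h3]
      obtain ⟨z, o, p, q⟩ := TAct_ex h σ.symm h2' h3' hz'
      obtain ⟨o1, p1, q1⟩ := h1 z o
      rw [p, σ.apply_symm_apply] at p1
      rw [q, σ.apply_symm_apply] at q1
      obtain ⟨x, hx⟩ := exists_lat_of_eq h o1 hz' p1 q1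
      exact ⟨z, x, hx⟩
    · obtain ⟨x, hx⟩ := Hom.not_off hz'
      refine ⟨0, -x, ?_⟩
      rw [hx, EllSch.lat_neg, h0 0 (fun h' => h' 0 (EllSch.lat_zero a b).symm)]
      ring

end Pool.Agent.LGO.F
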