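import Pool.Agent.LGO.F.TSub
import Pool.Agent.LGO.F.JBase
import Pool.Agent.LGO.Gal.JEq

/-!
# LGO/F: models and cyclic extensions

PROOFS. `IsJ.cyc`: `IsJ` gives `w₁, τ'` with `w₁ (ℤ + ℤ τ') = ℤ (a + b τ) + d (ℤ + ℤ τ)`; `w' = w w₁ / d`. The order: `k t ∈ w (ℤ + ℤ τ)` iff
`d ∣ k a` and `d ∣ k b` (`lat_injective`), iff `d ∣ k` (`Cop`: Bezout).
`exists_fixed_model`: `j = jInv τ`, `s j = j`. If `j = 0` take `g₂ = 0, g₃ = 1`, if `j = 1728` take `g₂ = 1, g₃ = 0`, otherwise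
`g₂ = g₃ = 27 j / (j - 1728)`; `exists_period` (`Gal/JEq.lean`).
`map_jInv`: `jInv_mul_w`, `disc_ne_zero_w`.
-/

namespace Pool.Agent.LGO.F

open UpperHalfPlane Pool.Agent.Hhelper14.ZP Pool.Agent.EllSch

private theorem tcyc_dvd {d : ℕ} {a b : ℤ} (h : Cop d a b) {k : ℤ} (ha : (d : ℤ) ∣ k * a)
    (hb : (d : ℤ) ∣ k * b) : (d : ℤ) ∣ k := by
  have h1 : IsCoprime (d : ℤ) (Int.gcd a b : ℤ) := by
    rw [Int.isCoprime_iff_gcd_eq_one]
    have h2 : ((Int.gcd (d : ℤ) (Int.gcd a b : ℤ) : ℕ) : ℤ) ∣ (Int.gcd a b : ℤ) := Int.gcd_dvd_right ..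
    have h3 : ((Int.gcd (d : ℤ) (Int.gcd a b : ℤ) : ℕ) : ℤ) ∣ (d : ℤ) := Int.gcd_dvd_left ..
    have h4 := h _ (h2.trans (Int.gcd_dvd_left ..)) (h2.trans (Int.gcd_dvd_right ..)) h3
    exact Int.ofNat_isUnit.1 h4 |> Nat.isUnit_iff.1
  refine h1.dvd_of_dvd_mul_right ?_
  rw [Int.gcd_eq_gcd_ab, mul_add, ← mul_assoc, ← mul_assoc]
  exact dvd_add (ha.mul_right _) (hb.mul_right _)

theorem IsJ.cyc {τ : ℍ} {w : ℂ} (hw : w ≠ 0) {d : ℕ} (hd : 0 < d) {a b : ℤ} {y : ℂ}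
    (h : Cop d a b) (hy : IsJ τ d a b y) : ∃ (w' : ℂ) (τ' : ℍ), w' ≠ 0 ∧ jInv τ' = y ∧
      CycExt w (w * τ) w' (w' * τ') (w * (a + b * τ) / d) d := by
  obtain ⟨w₁, τ', hw₁, hj, hiff⟩ := hy
  have hd0 : (d : ℂ) ≠ 0 := by exact_mod_cast hd.ne'
  refine ⟨w * w₁ / d, τ', div_ne_zero (mul_ne_zero hw hw₁) hd0, hj, hd, ?_, ?_, ?_⟩
  · intro x k
    obtain ⟨y, hy⟩ := (hiff (k * (a + b * τ) + d * lat 1 τ x)).2 ⟨k, x, rfl⟩
    refine ⟨y, ?_⟩
    simp only [lat] at hy ⊢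
    field_simp
    linear_combination hy
  · intro y
    obtain ⟨k, x, hx⟩ := (hiff (lat w₁ (w₁ * τ') y)).1 ⟨y, rfl⟩
    refine ⟨x, k, ?_⟩
    simp only [lat] at hx ⊢
    field_simp
    linear_combination hx
  · intro k
    constructor
    · rintro ⟨x, hx⟩
      have h1 : lat 1 (τ : ℂ) (k * a, k * b) = lat 1 (τ : ℂ) ((d : ℤ) * x.1, (d : ℤ) * x.2) := by
        simp only [lat] at hx ⊢
        field_simp at hx
        push_cast
        apply mul_left_cancel₀ hw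
        linear_combination w * hx
      have h2 := lat_injective (ind_one τ.im_pos) h1
      rw [Prod.mk.injEq] at h2
      exact tcyc_dvd h ⟨x.1, h2.1⟩ ⟨x.2, h2.2⟩
    · rintro ⟨m, rfl⟩
      refine ⟨(m * a, m * b), ?_⟩
      simp only [lat]
      push_cast
      field_simp

/-- a model with fixed invariants -/
theorem exists_fixed_model (τ : ℍ) (s : ℂ ≃+* ℂ) (hs : s (jInv τ) = jInv τ) :
    ∃ w : ℂ, w ≠ 0 ∧ s (G2 w (w * τ)) = G2 w (w * τ) ∧ s (G3 w (w * τ)) = G3 w (w * τ) := by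
  by_cases h0 : jInv τ = 0
  · obtain ⟨w, hw, h2, h3⟩ := exists_period (τ := τ) (g2 := 0) (g3 := 1) (by norm_num)
      (by rw [h0]; norm_num)
    exact ⟨w, hw, by rw [h2, map_zero], by rw [h3, map_one]⟩
  by_cases h1 : jInv τ = 1728
  · obtain ⟨w, hw, h2, h3⟩ := exists_period (τ := τ) (g2 := 1) (g3 := 0) (by norm_num)
      (by rw [h1]; norm_num)
    exact ⟨w, hw, by rw [h2, map_one], by rw [h3, map_zero]⟩
  have h2 : jInv τ - 1728 ≠ 0 := sub_ne_zero.2 h1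
  set g : ℂ := 27 * jInv τ / (jInv τ - 1728) with hg
  have hg1 : g * (jInv τ - 1728) = 27 * jInv τ := by
    rw [hg, div_mul_cancel₀ _ h2]
  have hg0 : g ≠ 0 := by
    rw [hg]
    exact div_ne_zero (mul_ne_zero (by norm_num) h0) h2
  have hsg : s g = g := by
    rw [hg, map_div₀, map_sub, map_mul, hs, map_ofNat, map_ofNat]
  obtain ⟨w, hw, h3, h4⟩ := exists_period (τ := τ) (g2 := g) (g3 := g) (by
      intro h
      have h5 : g ^ 2 * (g - 27) = 0 := by linear_combination h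
      rcases mul_eq_zero.1 h5 with h6 | h6
      · exact hg0 (pow_eq_zero_iff (two_ne_zero) |>.1 h6)
      · have h7 : g = 27 := by linear_combination h6
        rw [h7] at hg1
        have h8 : (27 * 1728 : ℂ) = 0 := by linear_combination -hg1
        norm_num at h8) (by linear_combination g ^ 2 * hg1)
  exact ⟨w, hw, by rw [h3, hsg], by rw [h4, hsg]⟩

/-- the action of an automorphism on the invariants of lattices -/
theorem map_jInv (s : ℂ ≃+* ℂ) {w w' : ℂ} {τ τ' : ℍ} (hw : w ≠ 0) (hw' : w' ≠ 0)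
    (h2 : s (G2 w (w * τ)) = G2 w' (w' * τ')) (h3 : s (G3 w (w * τ)) = G3 w' (w' * τ')) :
    s (jInv τ) = jInv τ' := by
  have h4 := congrArg s (jInv_mul_w τ hw)
  simp only [map_mul, map_sub, map_pow, map_ofNat, h2, h3] at h4
  have h5 := jInv_mul_w τ' hw'
  exact mul_right_cancel₀ (disc_ne_zero_w τ' hw') (h4.trans h5.symm)

end Pool.Agent.LGO.F
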