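import Pool.Agent.LGO.Mul.Defs
import Pool.Agent.EllSch.Add
import Pool.Agent.EllSch.Hom

/-!
# The distribution relations for a cyclic isogeny
-/

namespace Pool.Agent.LGO.F

open Pool.Agent.EllSch Filter Topology

/-- `ℤ a' + ℤ b' = ℤ a + ℤ b + ℤ t`, where `t` has the exact order `d` modulo `ℤ a + ℤ b`. -/
structure CycExt (a b a' b' t : ℂ) (d : ℕ) : Prop where
  pos : 0 < d
  mem : ∀ (x : ℤ × ℤ) (k : ℤ), ∃ y : ℤ × ℤ, lat a b x + k * t = lat a' b' y
  rep : ∀ y : ℤ × ℤ, ∃ (x : ℤ × ℤ) (k : ℤ), lat a' b' y = lat a b x + k * t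
  ord : ∀ k : ℤ, (∃ x : ℤ × ℤ, (k : ℂ) * t = lat a b x) ↔ (d : ℤ) ∣ k

theorem CycExt.off {a b a' b' t : ℂ} {d : ℕ} (hc : CycExt a b a' b' t d) {z : ℂ}
    (hz : Off a' b' z) (k : ℤ) : Off a b (z + k * t) := by
  intro x hx
  obtain ⟨y, hy⟩ := hc.mem x (-k)
  apply hz y
  rw [← hy, ← hx]
  push_cast
  ring

private theorem TDist_shift {g : ℤ → ℂ} {d : ℕ} (hg : ∀ j, g (j + d) = g j) (k : ℤ) :
    ∑ j ∈ Finset.range d, g (j + k) = ∑ j ∈ Finset.range d, g j := by
  have h1 : ∀ k : ℤ, ∑ j ∈ Finset.range d, g (j + (k + 1)) = ∑ j ∈ Finset.range d, g (j + k) := by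
    intro k
    have e1 := Finset.sum_range_succ (fun j : ℕ => g (j + k)) d
    have e2 := Finset.sum_range_succ' (fun j : ℕ => g (j + k)) d
    rw [e1] at e2
    have e3 : g ((d : ℤ) + k) = g ((0 : ℕ) + k) := by
      rw [add_comm, hg, Nat.cast_zero, zero_add]
    rw [e3] at e2
    have e4 := add_right_cancel e2
    rw [e4]
    refine Finset.sum_congr rfl fun j _ => ?_
    congr 1
    push_cast
    ring
  induction k using Int.induction_on with
  | zero => simp
  | succ n ih => rw [h1, ih]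
  | pred n ih =>
    have := h1 (-(n : ℤ) - 1)
    rw [sub_add_cancel] at this
    rw [← this, ih]

private theorem TDist_per {a b t : ℂ} {d : ℕ} (h : Ind a b)
    (hd : ∃ x : ℤ × ℤ, ((d : ℤ) : ℂ) * t = lat a b x) (z : ℂ) (x : ℤ × ℤ) (k : ℤ) :
    ∑ j ∈ Finset.range d, wp a b (z + (lat a b x + k * t) + j * t) =
      ∑ j ∈ Finset.range d, wp a b (z + j * t) := by
  have e1 := TDist_shift (g := fun j => wp a b (z + (j : ℂ) * t)) (d := d) (by
    intro j
    obtain ⟨y, hy⟩ := hd
    rw [show z + ((j + (d : ℤ) : ℤ) : ℂ) * t = z + j * t + lat a b y by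
      rw [← hy]; push_cast; ring, wp_add_lat h]) k
  simp only [Int.cast_natCast] at e1
  rw [← e1]
  refine Finset.sum_congr rfl fun j _ => ?_
  rw [show z + (lat a b x + k * t) + j * t = z + (((j : ℤ) + k : ℤ) : ℂ) * t + lat a b x by
    push_cast; ring, wp_add_lat h]

variable {a b a' b' t : ℂ} {d : ℕ}

theorem CycExt.off_mul (hc : CycExt a b a' b' t d) {k : ℕ} (hk : k ∈ Finset.Ico 1 d) :
    Off a b (k * t) := by
  intro x hx
  have h1 : (d : ℤ) ∣ (k : ℤ) := (hc.ord k).1 ⟨x, by rw [← hx]; push_cast; rfl⟩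
  rw [Finset.mem_Ico] at hk
  have h2 := Int.natCast_dvd_natCast.1 h1
  have h3 := Nat.le_of_dvd (by omega) h2
  omega

private theorem TDist_split (hd : 0 < d) (z : ℂ) :
    ∑ k ∈ Finset.range d, wp a b (z + k * t) =
      wp a b z + ∑ k ∈ Finset.Ico 1 d, wp a b (z + k * t) := by
  rw [Finset.range_eq_Ico, Finset.sum_eq_sum_Ico_succ_bot hd]
  simp

theorem CycExt.wp_eq (h : Ind a b) (h' : Ind a' b') (hc : CycExt a b a' b' t d) {z : ℂ}
    (hz : Off a' b' z) : wp a' b' z = ∑ k ∈ Finset.range d, wp a b (z + k * t) -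
      ∑ k ∈ Finset.Ico 1 d, wp a b (k * t) := by
  have key := Basic.const_of_off h'
    (f := fun z => wp a' b' z - ∑ k ∈ Finset.range d, wp a b (z + k * t))
    (c := -∑ k ∈ Finset.Ico 1 d, wp a b (k * t)) ?_ ?_ ?_ z hz
  · linear_combination key
  · intro z hz
    refine (Basic.differentiableAt_wp h' hz).sub ?_
    refine DifferentiableAt.fun_sum fun k _ => ?_
    have e2 : Off a b (z + k * t) := by
      have := hc.off hz k
      rwa [Int.cast_natCast] at this
    have e3 : DifferentiableAt ℂ (wp a b) (z + k * t) := Basic.differentiableAt_wp h e2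
    exact e3.comp z ((differentiableAt_id).add_const _)
  · intro z y _
    obtain ⟨x, k, hy⟩ := hc.rep y
    rw [wp_add_lat h', hy, TDist_per h ((hc.ord d).2 dvd_rfl)]
  · have t2 := Add.tendsto_wp_sub h'
    have t3 := Add.tendsto_wp_sub h
    have t4 : Tendsto (fun z => ∑ k ∈ Finset.Ico 1 d, wp a b (z + k * t)) (𝓝[≠] 0)
        (𝓝 (∑ k ∈ Finset.Ico 1 d, wp a b (k * t))) := by
      refine tendsto_finsetSum _ fun k hk => ?_
      have e1 : ContinuousAt (wp a b) (0 + k * t) := by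
        rw [zero_add]
        exact (hasDerivAt_wp h (hc.off_mul hk)).continuousAt
      have e2 : ContinuousAt (fun z : ℂ => z + k * t) 0 := by fun_prop
      have e3 := (ContinuousAt.comp (f := fun z : ℂ => z + k * t) (x := 0) e1 e2).tendsto
      simp only [Function.comp_def, zero_add] at e3
      exact e3.mono_left nhdsWithin_le_nhds
    have t5 := (t2.sub t3).sub t4
    rw [sub_zero, zero_sub] at t5
    refine t5.congr' ?_
    filter_upwards [self_mem_nhdsWithin] with z _
    rw [TDist_split hc.pos]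
    ring

theorem CycExt.wq_eq (h : Ind a b) (h' : Ind a' b') (hc : CycExt a b a' b' t d) {z : ℂ}
    (hz : Off a' b' z) : wq a' b' z = ∑ k ∈ Finset.range d, wq a b (z + k * t) := by
  have d1 := hasDerivAt_wp h' hz
  have d2 : HasDerivAt (fun u => ∑ k ∈ Finset.range d, wp a b (u + k * t) -
      ∑ k ∈ Finset.Ico 1 d, wp a b (k * t)) (∑ k ∈ Finset.range d, wq a b (z + k * t)) z := by
    have d3 : HasDerivAt (fun u => ∑ k ∈ Finset.range d, wp a b (u + k * t))
        (∑ k ∈ Finset.range d, wq a b (z + k * t)) z := by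
      refine HasDerivAt.fun_sum fun k _ => ?_
      have e2 : Off a b (z + k * t) := by
        have := hc.off hz k
        rwa [Int.cast_natCast] at this
      exact (hasDerivAt_wp h e2).comp_add_const z _
    exact d3.sub_const _
  have hev : (fun u => wp a' b' u) =ᶠ[𝓝 z] fun u => ∑ k ∈ Finset.range d, wp a b (u + k * t) -
      ∑ k ∈ Finset.Ico 1 d, wp a b (k * t) := by
    filter_upwards [(isOpen_off h').mem_nhds hz] with u hu
    exact hc.wp_eq h h' hu
  exact d1.unique (d2.congr_of_eventuallyEq hev)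

end Pool.Agent.LGO.F
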