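import Pool.Agent.LGO.F.TSub

/-!
# LGO/F: the matrix of an automorphism on the torsion of order `n`

PROOF. `n φ(a / n) ≡ φ(a) ≡ 0` modulo `Λ = ℤ a + ℤ b` (`TAct.zmul`, `hlat`), so `φ(a / n) = lat a b (m₀₀, m₁₀) / n`, similarly
`φ(b / n) = lat a b (m₀₁, m₁₁) / n`; `TAct.comb` with `lat a b x / n = x₁ (a / n) + x₂ (b / n)`. Determinant: if a prime
`p` divides `n` and `det m`, there is `u ∈ ℤ²`, not in `p ℤ²`, with `m u ∈ p ℤ²` (a nonzero column of the adjugate matrix, or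
`(1, 0)` if `p` divides `m`: if all the entries of the adjugate are divisible by `p` then `m ≡ 0` mod `p`); `z = lat a b u / p =
lat a b ((n / p) u) / n` is off the lattice (`lat_injective`) but `φ z ∈ Λ`: contradiction to `TAct.off`.
-/

namespace Pool.Agent.LGO.F

open Pool.Agent.EllSch

private theorem TMat_lat (a b : ℂ) (k : ℤ) (x : ℤ × ℤ) :
    lat a b (k * x.1, k * x.2) = k * lat a b x := by
  simp only [lat]
  push_cast
  ring

private theorem TMat_pt {σ : ℂ ≃+* ℂ} {a b : ℂ} {φ : ℂ → ℂ} (hφ : TAct σ a b φ)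
    {n : ℕ} (hn : 0 < n) (x : ℤ × ℤ) : ∃ y : ℤ × ℤ, φ (lat a b x / n) = lat a b y / n := by
  have hn0 : (n : ℂ) ≠ 0 := Nat.cast_ne_zero.2 hn.ne'
  obtain ⟨u, hu⟩ := hφ.hlat x
  obtain ⟨v, hv⟩ := hφ.zmul (n : ℤ) (lat a b x / n)
  have h1 : ((n : ℤ) : ℂ) * (lat a b x / n) = lat a b x := by
    rw [Int.cast_natCast]
    field_simp
  rw [h1, hu, Int.cast_natCast] at hv
  refine ⟨u - v, ?_⟩
  have h2 : lat a b (u - v) = lat a b u - lat a b v := by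
    rw [sub_eq_add_neg, lat_add, lat_neg, ← sub_eq_add_neg]
  rw [h2, hv, eq_div_iff hn0]
  ring

theorem TAct.exists_matrix {σ : ℂ ≃+* ℂ} {a b : ℂ} {φ : ℂ → ℂ} (h : Ind a b) (hφ : TAct σ a b φ)
    {n : ℕ} (hn : 0 < n) : ∃ m : Matrix (Fin 2) (Fin 2) ℤ, IsCoprime m.det n ∧
      ∀ x : ℤ × ℤ, ∃ y : ℤ × ℤ, φ (lat a b x / n) =
        lat a b (m 0 0 * x.1 + m 0 1 * x.2, m 1 0 * x.1 + m 1 1 * x.2) / n + lat a b y := by
  have hn0 : (n : ℂ) ≠ 0 := Nat.cast_ne_zero.2 hn.ne'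
  obtain ⟨s, hs⟩ := TMat_pt hφ hn (1, 0)
  obtain ⟨t, ht⟩ := TMat_pt hφ hn (0, 1)
  have main : ∀ x : ℤ × ℤ, ∃ y : ℤ × ℤ, φ (lat a b x / n) =
      lat a b (s.1 * x.1 + t.1 * x.2, s.2 * x.1 + t.2 * x.2) / n + lat a b y := by
    intro x
    obtain ⟨y, hy⟩ := hφ.comb x.1 x.2 (lat a b (1, 0) / n) (lat a b (0, 1) / n)
    refine ⟨y, ?_⟩
    have h1 : lat a b x / n = x.1 * (lat a b (1, 0) / n) + x.2 * (lat a b (0, 1) / n) := by
      simp only [lat, Int.cast_one, Int.cast_zero]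
      ring
    rw [h1, hy, hs, ht]
    simp only [lat]
    push_cast
    ring
  refine ⟨!![s.1, t.1; s.2, t.2], ?_, fun x => main x⟩
  rw [Int.isCoprime_iff_gcd_eq_one]
  by_contra hg
  obtain ⟨p, hp, hpg⟩ := Nat.exists_prime_and_dvd hg
  have hpd : (p : ℤ) ∣ (!![s.1, t.1; s.2, t.2] : Matrix (Fin 2) (Fin 2) ℤ).det :=
    (Int.natCast_dvd_natCast.2 hpg).trans (Int.gcd_dvd_left ..)
  have hpn : p ∣ n := Int.natCast_dvd_natCast.1
    ((Int.natCast_dvd_natCast.2 hpg).trans (Int.gcd_dvd_right ..))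
  have _ : Fact p.Prime := ⟨hp⟩
  have hp0 : (p : ℂ) ≠ 0 := Nat.cast_ne_zero.2 hp.ne_zero
  -- a vector in the kernel modulo p
  obtain ⟨v, hv0, hv⟩ := Matrix.exists_mulVec_eq_zero_iff.2
    (show (!![(s.1 : ZMod p), (t.1 : ZMod p); (s.2 : ZMod p), (t.2 : ZMod p)]).det = 0 by
      rw [Matrix.det_fin_two_of]
      rw [Matrix.det_fin_two_of] at hpd
      have h1 := (ZMod.intCast_zmod_eq_zero_iff_dvd _ p).2 hpd
      push_cast at h1
      exact h1)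
  obtain ⟨u1, hu1⟩ := ZMod.intCast_surjective (v 0)
  obtain ⟨u2, hu2⟩ := ZMod.intCast_surjective (v 1)
  have e0 := congrFun hv 0
  have e1 := congrFun hv 1
  simp only [Matrix.mulVec, dotProduct, Fin.sum_univ_two, Matrix.of_apply, Matrix.cons_val',
    Matrix.cons_val_zero, Matrix.cons_val_one, Matrix.empty_val', Matrix.cons_val_fin_one,
    Pi.zero_apply, ← hu1, ← hu2] at e0 e1
  have f0 : (p : ℤ) ∣ s.1 * u1 + t.1 * u2 := by
    rw [← ZMod.intCast_zmod_eq_zero_iff_dvd]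
    push_cast
    exact e0
  have f1 : (p : ℤ) ∣ s.2 * u1 + t.2 * u2 := by
    rw [← ZMod.intCast_zmod_eq_zero_iff_dvd]
    push_cast
    exact e1
  obtain ⟨w1, hw1⟩ := f0
  obtain ⟨w2, hw2⟩ := f1
  obtain ⟨n', rfl⟩ := hpn
  have hn'0 : (n' : ℂ) ≠ 0 := by
    intro h0
    rw [Nat.cast_mul, h0, mul_zero] at hn0
    exact hn0 rfl
  obtain ⟨y, hy⟩ := main ((n' : ℤ) * u1, (n' : ℤ) * u2)
  have h1 : φ (lat a b ((n' : ℤ) * u1, (n' : ℤ) * u2) / ((p * n' : ℕ) : ℂ)) =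
      lat a b ((w1, w2) + y) := by
    rw [hy, lat_add]
    congr 1
    have h2 : s.1 * ((n' : ℤ) * u1) + t.1 * ((n' : ℤ) * u2) = (p : ℤ) * n' * w1 := by
      linear_combination (n' : ℤ) * hw1
    have h3 : s.2 * ((n' : ℤ) * u1) + t.2 * ((n' : ℤ) * u2) = (p : ℤ) * n' * w2 := by
      linear_combination (n' : ℤ) * hw2
    rw [h2, h3, div_eq_iff hn0]
    simp only [lat]
    push_cast
    ring
  obtain ⟨x, hx⟩ := (hφ.mem_iff _).1 ⟨_, h1⟩
  rw [div_eq_iff hn0] at hx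
  have h4 : lat a b (u1, u2) = lat a b ((p : ℤ) * x.1, (p : ℤ) * x.2) := by
    have h5 : (n' : ℂ) * lat a b (u1, u2) = n' * lat a b ((p : ℤ) * x.1, (p : ℤ) * x.2) := by
      simp only [lat] at hx ⊢
      push_cast at hx ⊢
      linear_combination hx
    exact mul_left_cancel₀ hn'0 h5
  have h6 := lat_injective h h4
  rw [Prod.mk.injEq] at h6
  apply hv0
  funext i
  fin_cases i
  · show v 0 = 0
    rw [← hu1, h6.1]
    push_cast
    rw [ZMod.natCast_self, zero_mul]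
  · show v 1 = 0
    rw [← hu2, h6.2]
    push_cast
    rw [ZMod.natCast_self, zero_mul]

end Pool.Agent.LGO.F
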