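import Pool.Agent.LGO.F.TAct
import Pool.Agent.LGO.F.TDist

/-!
# The action of an automorphism on the isogenous curves

`σ` acts on `ℂ / Λ` by `φ` (`TAct`). If `Λ' = Λ + ℤ t` and `Λ'' = Λ + ℤ φ(t)`, then `σ` maps the curve
`ℂ / Λ'` to the curve `ℂ / Λ''`: `σ (℘_Λ'(z)) = ℘_Λ''(φ z)` by the distribution relation.
-/

namespace Pool.Agent.LGO.F

open Pool.Agent.EllSch

/-- The lattice as a subgroup. -/
def TL (a b : ℂ) : AddSubgroup ℂ := (AddMonoidHom.mk' (lat a b) (lat_add a b)).range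

theorem mem_TL {a b z : ℂ} : z ∈ TL a b ↔ ∃ x, z = lat a b x := by
  unfold TL
  rw [AddMonoidHom.mem_range]
  exact ⟨fun ⟨x, hx⟩ => ⟨x, hx.symm⟩, fun ⟨x, hx⟩ => ⟨x, hx.symm⟩⟩

theorem mk_eq_TL {a b z w : ℂ} : ((z : ℂ ⧸ TL a b) = w) ↔ ∃ x, z = w + lat a b x := by
  rw [eq_comm, QuotientAddGroup.eq, mem_TL]
  constructor
  · rintro ⟨x, hx⟩
    exact ⟨x, by rw [← hx]; ring⟩
  · rintro ⟨x, hx⟩
    exact ⟨x, by rw [hx]; ring⟩

variable {σ : ℂ ≃+* ℂ} {a b : ℂ} {φ : ℂ → ℂ}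

/-- The action as a homomorphism. -/
noncomputable def TAct.hom (hφ : TAct σ a b φ) : ℂ →+ ℂ ⧸ TL a b :=
  AddMonoidHom.mk' (fun z => ((φ z : ℂ) : ℂ ⧸ TL a b)) (by
    intro z w
    rw [← QuotientAddGroup.mk_add]
    exact mk_eq_TL.2 (hφ.add z w))

theorem TAct.hom_apply (hφ : TAct σ a b φ) (z : ℂ) : hφ.hom z = ((φ z : ℂ) : ℂ ⧸ TL a b) := rfl

/-- the action is additive -/
theorem TAct.zmul (hφ : TAct σ a b φ) (k : ℤ) (z : ℂ) : ∃ x, φ (k * z) = k * φ z + lat a b x := by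
  rw [← mk_eq_TL, ← hφ.hom_apply, ← zsmul_eq_mul, map_zsmul, hφ.hom_apply,
    ← QuotientAddGroup.mk_zsmul, zsmul_eq_mul]

theorem TAct.comb (hφ : TAct σ a b φ) (k l : ℤ) (z w : ℂ) :
    ∃ x, φ (k * z + l * w) = k * φ z + l * φ w + lat a b x := by
  rw [← mk_eq_TL, ← hφ.hom_apply, ← zsmul_eq_mul, ← zsmul_eq_mul, map_add, map_zsmul, map_zsmul,
    hφ.hom_apply, hφ.hom_apply, ← QuotientAddGroup.mk_zsmul, ← QuotientAddGroup.mk_zsmul,
    ← QuotientAddGroup.mk_add, zsmul_eq_mul, zsmul_eq_mul]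

/-- the action is injective modulo the lattice -/
theorem TAct.mem_iff (hφ : TAct σ a b φ) (z : ℂ) :
    (∃ x, φ z = lat a b x) ↔ ∃ x, z = lat a b x := by
  constructor
  · rintro ⟨x, hx⟩
    by_contra h0
    push Not at h0
    exact hφ.off z h0 x hx
  · rintro ⟨x, rfl⟩
    exact hφ.hlat x

variable {a' b' a'' b'' t t' : ℂ} {d : ℕ}

/-- `σ (℘_Λ'(z)) = ℘_Λ''(φ z)` and the same for the derivative -/
theorem TAct.cyc_pt (h : Ind a b) (h' : Ind a' b') (h'' : Ind a'' b'') (hφ : TAct σ a b φ)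
    (hc : CycExt a b a' b' t d) (ht : ∃ x, φ t = t' + lat a b x)
    (hc' : CycExt a b a'' b'' t' d) {z : ℂ} (hz : Off a' b' z) :
    Off a'' b'' (φ z) ∧ wp a'' b'' (φ z) = σ (wp a' b' z) ∧ wq a'' b'' (φ z) = σ (wq a' b' z) := by
  have ht' : ((φ t : ℂ) : ℂ ⧸ TL a b) = t' := mk_eq_TL.2 ht
  have hadd : ∀ (k : ℤ) (w : ℂ), ∃ x, φ (w + k * t) = φ w + k * t' + lat a b x := by
    intro k w
    rw [← mk_eq_TL, ← hφ.hom_apply, ← zsmul_eq_mul, map_add, map_zsmul, hφ.hom_apply,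
      hφ.hom_apply, ht', QuotientAddGroup.mk_add, ← QuotientAddGroup.mk_zsmul, zsmul_eq_mul]
  have hoff : Off a'' b'' (φ z) := by
    intro y hy
    obtain ⟨x, k, hx⟩ := hc'.rep y
    obtain ⟨u, hu⟩ := hadd (-k) z
    have h1 : ∃ x, φ (z + (-k : ℤ) * t) = lat a b x := by
      refine ⟨x + u, ?_⟩
      rw [hu, hy, hx, lat_add]
      push_cast
      ring
    obtain ⟨v, hv⟩ := (hφ.mem_iff _).1 h1
    exact hc.off hz (-k) v hv
  have hk : ∀ k : ℕ, Off a b (z + k * t) := fun k => by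
    have := hc.off hz k
    rwa [Int.cast_natCast] at this
  refine ⟨hoff, ?_, ?_⟩
  · rw [hc'.wp_eq h h'' hoff, hc.wp_eq h h' hz, map_sub, map_sum, map_sum]
    congr 1
    · refine Finset.sum_congr rfl fun k _ => ?_
      rw [← hφ.hwp _ (hk k)]
      obtain ⟨x, hx⟩ := hadd k z
      rw [Int.cast_natCast] at hx
      rw [hx, wp_add_lat h]
    · refine Finset.sum_congr rfl fun k hk => ?_
      rw [← hφ.hwp _ (hc.off_mul hk)]
      obtain ⟨x, hx⟩ := hadd k 0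
      obtain ⟨y, hy⟩ := hφ.hlat 0
      rw [Pool.Agent.EllSch.lat_zero] at hy
      rw [Int.cast_natCast, zero_add, hy] at hx
      rw [hx, wp_add_lat h, add_comm, wp_add_lat h]
  · rw [hc'.wq_eq h h'' hoff, hc.wq_eq h h' hz, map_sum]
    refine Finset.sum_congr rfl fun k _ => ?_
    rw [← hφ.hwq _ (hk k)]
    obtain ⟨x, hx⟩ := hadd k z
    rw [Int.cast_natCast] at hx
    rw [hx, wq_add_lat h]

/-- `σ` maps `g₂`, `g₃` of `Λ'` to those of `Λ''` -/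
theorem TAct.cyc (h : Ind a b) (h' : Ind a' b') (h'' : Ind a'' b'') (hφ : TAct σ a b φ)
    (hc : CycExt a b a' b' t d) (ht : ∃ x, φ t = t' + lat a b x)
    (hc' : CycExt a b a'' b'' t' d) :
    σ (G2 a' b') = G2 a'' b'' ∧ σ (G3 a' b') = G3 a'' b'' := by
  have key : ∀ x : ℂ, σ (G2 a' b') * σ x + σ (G3 a' b') = G2 a'' b'' * σ x + G3 a'' b'' := by
    intro x
    obtain ⟨y, hy⟩ := IsAlgClosed.exists_pow_nat_eq (4 * x ^ 3 - G2 a' b' * x - G3 a' b')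
      (n := 2) (by norm_num)
    obtain ⟨z, hz, hzx, hzy⟩ := exists_wp_eq h' hy
    obtain ⟨o, e1, e2⟩ := hφ.cyc_pt h h' h'' hc ht hc' hz
    rw [hzx] at e1
    rw [hzy] at e2
    have f1 := ode h'' o
    rw [e1, e2] at f1
    have f2 := congrArg σ hy
    simp only [map_sub, map_mul, map_pow, map_ofNat] at f2
    linear_combination f2 - f1
  have k0 := key 0
  have k1 := key 1
  rw [map_zero, mul_zero, mul_zero, zero_add, zero_add] at k0
  rw [map_one, mul_one, mul_one, k0] at k1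
  exact ⟨add_right_cancel k1, k0⟩

end Pool.Agent.LGO.F
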