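import Mathlib
import Pool.Agent.LGO.F.JDef
import Pool.Agent.LGO.F.TMat
import Pool.Agent.LGO.F.TCyc

/-!
# LGO/F (note 3060, step 3): the action of an automorphism on the sublattices of cyclic index

PROOF.  `exists_fixed_model`: `Λ = w (ℤ + ℤ τ)` with `G2, G3` fixed by `s`; `exists_tact`: `s` acts on `ℂ / Λ` by `φ`;
`TAct.exists_matrix`: `φ` on `(1/n) Λ / Λ` is given by the matrix `m`. For `d ∣ n`, `Cop d a b`, `IsJ τ d a b y`: `IsJ.cyc` for `(a, b)` and,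
with `exists_isJ`, for `m (a, b)`; `φ (w (a + b τ) / d) ≡ w (a₂ + b₂ τ) / d` (`lat .. / d = lat (n/d ..) / n`); `TAct.cyc`, `map_jInv`.
-/

namespace Pool.Agent.LGO.F

open UpperHalfPlane Pool.Agent.Hhelper14.ZP Pool.Agent.EllSch

private theorem tor_ind {w : ℂ} (hw : w ≠ 0) (τ : ℍ) : Ind w (w * τ) := by
  have := ind_smul (ind_one (show 0 < (τ : ℂ).im from τ.im_pos)) hw
  rwa [mul_one] at this

private theorem tor_cop {n d : ℕ} (hdn : d ∣ n) {a b : ℤ} (h : Cop d a b)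
    (m : Matrix (Fin 2) (Fin 2) ℤ) (hm : IsCoprime m.det n) :
    Cop d (m 0 0 * a + m 0 1 * b) (m 1 0 * a + m 1 1 * b) := by
  intro e h1 h2 h3
  have hen : e ∣ (n : ℤ) := h3.trans (Int.natCast_dvd_natCast.2 hdn)
  have hco : IsCoprime e m.det := (hm.of_isCoprime_of_dvd_right hen).symm
  refine h e ?_ ?_ h3
  · apply hco.dvd_of_dvd_mul_left
    have : m.det * a = m 1 1 * (m 0 0 * a + m 0 1 * b) - m 0 1 * (m 1 0 * a + m 1 1 * b) := by
      rw [Matrix.det_fin_two]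
      ring
    rw [this]
    exact dvd_sub (h1.mul_left _) (h2.mul_left _)
  · apply hco.dvd_of_dvd_mul_left
    have : m.det * b = m 0 0 * (m 1 0 * a + m 1 1 * b) - m 1 0 * (m 0 0 * a + m 0 1 * b) := by
      rw [Matrix.det_fin_two]
      ring
    rw [this]
    exact dvd_sub (h2.mul_left _) (h1.mul_left _)

/-- an automorphism which fixes `j(τ)` acts on the lattices of cyclic index `d ∣ n` by a matrix -/
theorem exists_tor {τ : ℍ} (hcm : NonCM (τ : ℂ)) (s : ℂ ≃+* ℂ) (hs : s (jInv τ) = jInv τ)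
    {n : ℕ} (hn : 0 < n) :
    ∃ m : Matrix (Fin 2) (Fin 2) ℤ, IsCoprime m.det n ∧
      ∀ (d : ℕ) (a b : ℤ) (y : ℂ), d ∣ n → Cop d a b → IsJ τ d a b y →
        IsJ τ d (m 0 0 * a + m 0 1 * b) (m 1 0 * a + m 1 1 * b) (s y) := by
  obtain ⟨w, hw, h2, h3⟩ := exists_fixed_model τ s hs
  obtain ⟨φ, hφ⟩ := exists_tact (tor_ind hw τ) s h2 h3
  obtain ⟨m, hm, hmφ⟩ := hφ.exists_matrix (tor_ind hw τ) hn
  refine ⟨m, hm, ?_⟩
  intro d a b y hdn hcop hy
  have hd : 0 < d := Nat.pos_of_dvd_of_pos hdn hn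
  obtain ⟨w', τ', hw', hj', hc'⟩ := IsJ.cyc hw hd hcop hy
  have hcop2 := tor_cop hdn hcop m hm
  obtain ⟨y₂, hy₂⟩ := exists_isJ (τ := τ) hd hcop2
  obtain ⟨w'', τ'', hw'', hj'', hc''⟩ := IsJ.cyc hw hd hcop2 hy₂
  have ht : ∃ x, φ (w * (a + b * τ) / d) =
      w * (((m 0 0 * a + m 0 1 * b : ℤ) : ℂ) + ((m 1 0 * a + m 1 1 * b : ℤ) : ℂ) * τ) / d +
        lat w (w * τ) x := by
    obtain ⟨k, rfl⟩ := hdn
    have hk : (k : ℂ) ≠ 0 := by
      intro h0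
      rw [Nat.cast_eq_zero] at h0
      simp [h0] at hn
    have hd0 : (d : ℂ) ≠ 0 := by exact_mod_cast hd.ne'
    obtain ⟨x, hx⟩ := hmφ ((k : ℤ) * a, (k : ℤ) * b)
    refine ⟨x, ?_⟩
    have e1 : lat w (w * τ) ((k : ℤ) * a, (k : ℤ) * b) / ((d * k : ℕ) : ℂ) =
        w * (a + b * τ) / d := by
      simp only [lat]
      push_cast
      field_simp
    rw [e1] at hx
    rw [hx]
    congr 1
    simp only [lat]
    push_cast
    field_simp
  obtain ⟨g2, g3⟩ := hφ.cyc (tor_ind hw τ) (tor_ind hw' τ') (tor_ind hw'' τ'') hc' ht hc''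
  have hsy : s y = y₂ := by
    rw [← hj', ← hj'']
    exact map_jInv s hw' hw'' g2 g3
  rw [hsy]
  exact hy₂

end Pool.Agent.LGO.F
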